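import Pool.Agent.Lib.MP_410da7_agA.H5c

/-!
# C46, H5: `𝔸¹`-uniruled varieties have negative curves
-/

set_option autoImplicit false

namespace Pool.Agent.Lib.MP_410da7_agA

open KaehlerDifferential WithZero Polynomial Module
open Pool.Agent.Lib.MP_410da7_ag

/-- H5. An `𝔸¹`-uniruled affine variety has a negative curve. -/
def H5Stmt : Prop :=
  ∀ (R K : Type) [CommRing R] [IsDomain R] [Algebra ℂ R] [Field K]
    [Algebra R K] [IsFractionRing R K] [Algebra ℂ K] [IsScalarTower ℂ R K] (n N : ℕ)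
    (Ψ : Ω[K⁄ℂ] [⋀^Fin n]→ₗ[K] K) (x : Fin N → R), Algebra.adjoin ℂ (Set.range x) = ⊤ →
    Sit Ψ (fun l => algebraMap R K (x l)) → A1Uniruled R →
    ∃ (m₀ e₀ : ℕ) (L Λ : Type) (_ : Field L) (_ : Field Λ) (_ : Algebra ℂ L) (_ : Algebra L Λ)
      (_ : Algebra K Λ) (_ : Algebra ℂ Λ) (_ : IsScalarTower ℂ L Λ) (_ : IsScalarTower ℂ K Λ)
      (a : Λ), NegCurve Ψ (fun l => algebraMap R K (x l)) m₀ e₀ L Λ a

section places

variable {K L : Type} [Field K] [Algebra ℂ K] [Field L] [Algebra ℂ L] [Algebra K (RatFunc L)]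
  [IsScalarTower ℂ K (RatFunc L)]

/-- The form is integral at the finite places. -/
theorem h5_fin {n N : ℕ} {ι : Type} [Fintype ι] (δ : ι → Derivation ℂ L L)
    (e : Fin n ≃ Option ι) (x : Fin N → K)
    (P : Fin N → L[X]) (hP : ∀ l, algebraMap K (RatFunc L) (x l) = algebraMap L[X] (RatFunc L) (P l))
    (p : IsDedekindDomain.HeightOneSpectrum L[X]) (v : Valuation K ℤᵐ⁰)
    (hv : ∀ a, v a ≤ 1 ↔ p.valuation (RatFunc L) (algebraMap K (RatFunc L) a) ≤ 1)
    (θ : Fin n → Ω[K⁄ℂ]) (hθ : Frame x v θ) :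
    p.valuation (RatFunc L) (detForm K (fun j => extDer (famDer δ (e j))) θ) ≤ 1 := by
  classical
  have h1 : Frame x ((p.valuation (RatFunc L)).comap (algebraMap K (RatFunc L))) θ :=
    h5_frame_congr x (fun a => by rw [Valuation.comap_apply]; exact hv a) hθ
  have h2 := h1.2 (fun l => by
    rw [Valuation.comap_apply, hP]; exact p.valuation_le_one _)
  rw [detForm_apply]
  refine det_le_one _ _ fun i j => ?_
  exact pull_reg _ _ (extDer_valuation_le _ p) _ (h2 i)

open Classical in
/-- The form has a zero at infinity. -/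
theorem h5_inf {n N : ℕ} {ι : Type} [Fintype ι] (δ : ι → Derivation ℂ L L)
    (e : Fin n ≃ Option ι) (x : Fin N → K) (v : Valuation K ℤᵐ⁰)
    (hv : ∀ a, v a ≤ 1 ↔ RatFunc.inftyValuation L (algebraMap K (RatFunc L) a) ≤ 1)
    (θ : Fin n → Ω[K⁄ℂ]) (hθ : Frame x v θ) :
    RatFunc.inftyValuation L (detForm K (fun j => extDer (famDer δ (e j))) θ) ≤ exp (-1) := by
  have h1 : Frame x ((RatFunc.inftyValuation L).comap (algebraMap K (RatFunc L))) θ :=
    h5_frame_congr x (fun a => by rw [Valuation.comap_apply]; exact hv a) hθ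
  have h3 : RatFunc.inftyValuation L (detForm K (fun j => extDer (famDer' δ (e j))) θ) ≤ 1 := by
    rw [detForm_apply]
    refine det_le_one _ _ fun i j => ?_
    exact pull_log _ _ (extDer_infty_le _ (famDer'_natDegree _ _)) _ (h1.1 i)
  rw [detForm_famDer', map_mul, RatFunc.inftyValuation.X] at h3
  have h4 : (exp (1 : ℤ) : ℤᵐ⁰) ≠ 0 := exp_ne_zero
  calc RatFunc.inftyValuation L (detForm K (fun j => extDer (famDer δ (e j))) θ)
      = exp (-1) * (exp 1 * RatFunc.inftyValuation L
        (detForm K (fun j => extDer (famDer δ (e j))) θ)) := by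
        rw [← mul_assoc, ← exp_add]; simp
    _ ≤ exp (-1) * 1 := mul_le_mul_right h3 _
    _ = exp (-1) := mul_one _

end places

/-- `L(t)` is finite over every intermediate field over which `t` is algebraic. -/
theorem h5_finite {L : Type} [Field L] (Λ : IntermediateField L (RatFunc L))
    (hX : IsIntegral Λ (RatFunc.X : RatFunc L)) : FiniteDimensional Λ (RatFunc L) := by
  have h1 : IntermediateField.adjoin Λ {(RatFunc.X : RatFunc L)} = ⊤ := by
    rw [eq_top_iff]
    rintro f -
    have hp : ∀ p : L[X], algebraMap L[X] (RatFunc L) p ∈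
        IntermediateField.adjoin Λ {(RatFunc.X : RatFunc L)} := by
      intro p
      have hXm : (RatFunc.X : RatFunc L) ∈ IntermediateField.adjoin Λ {(RatFunc.X : RatFunc L)} :=
        IntermediateField.mem_adjoin_simple_self _ _
      have hC : ∀ c : L, algebraMap L (RatFunc L) c ∈
          IntermediateField.adjoin Λ {(RatFunc.X : RatFunc L)} := by
        intro c
        exact (IntermediateField.adjoin Λ {(RatFunc.X : RatFunc L)}).algebraMap_mem
          (algebraMap L Λ c)
      induction p using Polynomial.induction_on' with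
      | add p q hp hq => rw [map_add]; exact add_mem hp hq
      | monomial n a =>
        rw [← Polynomial.C_mul_X_pow_eq_monomial, map_mul, map_pow, RatFunc.algebraMap_X]
        exact mul_mem (hC a) (pow_mem hXm n)
    rw [← RatFunc.num_div_denom f]
    exact div_mem (hp _) (hp _)
  have h2 : FiniteDimensional Λ (IntermediateField.adjoin Λ {(RatFunc.X : RatFunc L)}) :=
    IntermediateField.adjoin.finiteDimensional hX
  rw [h1] at h2
  exact (IntermediateField.topEquiv (F := Λ) (E := RatFunc L)).toLinearEquiv.finiteDimensional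

/-- The abstract version: `K → L(t)`, with the `x_l` polynomials. -/
theorem h5_abs {K L : Type} [Field K] [Algebra ℂ K] [Field L] [Algebra ℂ L]
    [Algebra K (RatFunc L)] [IsScalarTower ℂ K (RatFunc L)] {n N : ℕ}
    (Ψ : Ω[K⁄ℂ] [⋀^Fin n]→ₗ[K] K) (x : Fin N → K) (hS : Sit Ψ x)
    {ι : Type} [Fintype ι] (y : ι → L)
    (hy : IsTranscendenceBasis ℂ y) (hcard : Fintype.card ι + 1 = n)
    (u : Fin n → K) (hu : IsTranscendenceBasis ℂ u)
    (htr : Algebra.trdeg ℂ (RatFunc L) = (n : Cardinal))
    (htrL : Algebra.trdeg ℂ L = ((n - 1 : ℕ) : Cardinal))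
    (P : Fin N → L[X]) (hP : ∀ l, algebraMap K (RatFunc L) (x l) = algebraMap L[X] (RatFunc L) (P l)) :
    ∃ (m₀ e₀ : ℕ) (Λ : Type) (_ : Field Λ) (_ : Algebra L Λ)
      (_ : Algebra K Λ) (_ : Algebra ℂ Λ) (_ : IsScalarTower ℂ L Λ) (_ : IsScalarTower ℂ K Λ)
      (a : Λ), NegCurve Ψ x m₀ e₀ L Λ a := by
  classical
  have hinjK : Function.Injective (algebraMap K (RatFunc L)) := (algebraMap K (RatFunc L)).injective
  have hu2 : IsTranscendenceBasis ℂ (fun i => algebraMap K (RatFunc L) (u i)) := by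
    have h1 : AlgebraicIndependent ℂ (fun i => algebraMap K (RatFunc L) (u i)) :=
      hu.1.map' (f := IsScalarTower.toAlgHom ℂ K (RatFunc L)) hinjK
    refine AlgebraicIndependent.isTranscendenceBasis_of_trdeg_le_of_finite h1 ?_
    rw [Cardinal.mk_fintype, Fintype.card_fin]
    exact htr.le
  let e : Fin n ≃ Option ι := Fintype.equivOfCardEq (by simp [hcard])
  obtain ⟨δ, κ, hκ0, hκ⟩ := h5_kappa y hy e u hu hu2 Ψ hS.Ψ0
  -- algebraicity over `K`
  have hfK : FaithfulSMul K (RatFunc L) := inferInstance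
  have htrK : Algebra.trdeg K (RatFunc L) = 0 := by
    have h1 := trdeg_add_eq ℂ K (A := RatFunc L)
    rw [htr, hS.trdeg] at h1
    have h2 : (n : Cardinal) + Algebra.trdeg K (RatFunc L) = (n : Cardinal) + 0 := by
      rw [h1, add_zero]
    exact Cardinal.eq_of_add_eq_add_left h2 Cardinal.natCast_lt_aleph0
  have halgK : Algebra.IsAlgebraic K (RatFunc L) := by
    rwa [trdeg_eq_zero_iff] at htrK
  -- the field `Λ`
  let Λ : IntermediateField L (RatFunc L) :=
    IntermediateField.adjoin L (Set.range (algebraMap K (RatFunc L)))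
  have hKΛ : ∀ k : K, algebraMap K (RatFunc L) k ∈ Λ := fun k =>
    IntermediateField.subset_adjoin _ _ ⟨k, rfl⟩
  let iKΛ : K →+* Λ := (algebraMap K (RatFunc L)).codRestrict Λ.toSubfield.toSubring hKΛ
  let _ : Algebra K Λ := iKΛ.toAlgebra
  have hiK : ∀ k : K, algebraMap Λ (RatFunc L) (algebraMap K Λ k) = algebraMap K (RatFunc L) k :=
    fun k => rfl
  have : IsScalarTower K Λ (RatFunc L) := IsScalarTower.of_algebraMap_eq fun k => (hiK k).symm
  have hiL : ∀ c : L, algebraMap Λ (RatFunc L) (algebraMap L Λ c) = algebraMap L (RatFunc L) c :=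
    fun c => rfl
  have : IsScalarTower ℂ L Λ := inferInstance
  have : IsScalarTower ℂ K Λ := IsScalarTower.of_algebraMap_eq fun c => by
    apply (algebraMap Λ (RatFunc L)).injective
    rw [hiK, ← IsScalarTower.algebraMap_apply ℂ K (RatFunc L)]
    rfl
  have halgΛ : Algebra.IsAlgebraic Λ (RatFunc L) := Algebra.IsAlgebraic.tower_top (K := K) Λ
  have hfinΛ : FiniteDimensional Λ (RatFunc L) :=
    h5_finite Λ (Algebra.IsAlgebraic.isAlgebraic (R := Λ) (RatFunc.X : RatFunc L)).isIntegral
  have : CharZero L := charZero_of_injective_algebraMap (algebraMap ℂ L).injective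
  have : CharZero Λ := charZero_of_injective_algebraMap (algebraMap L Λ).injective
  have hsep : Algebra.IsSeparable Λ (RatFunc L) := inferInstance
  let D : ℕ := (Finset.univ.sup fun l => (P l).natDegree) ⊔ 1
  have hD1 : 1 ≤ D := le_sup_right
  have hDl : ∀ l, (P l).natDegree ≤ D := fun l =>
    (Finset.le_sup (f := fun l => (P l).natDegree) (Finset.mem_univ l)).trans le_sup_left
  let d : ℕ := Module.finrank Λ (RatFunc L)
  have hd1 : 1 ≤ d := Module.finrank_pos
  have hnorm0 : Algebra.norm Λ κ ≠ 0 := Algebra.norm_ne_zero_iff.mpr hκ0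
  have htrL1 : Algebra.trdeg L (RatFunc L) = 1 := by
    have h1 := trdeg_add_eq ℂ L (A := RatFunc L)
    rw [htr, htrL] at h1
    have h2 : ((n - 1 : ℕ) : Cardinal) + Algebra.trdeg L (RatFunc L) =
        ((n - 1 : ℕ) : Cardinal) + 1 := by
      rw [h1]
      have h3 : n - 1 + 1 = n := by omega
      calc (n : Cardinal) = ((n - 1 + 1 : ℕ) : Cardinal) := by rw [h3]
        _ = _ := by push_cast; rfl
    exact Cardinal.eq_of_add_eq_add_left h2 Cardinal.natCast_lt_aleph0
  have htrΛ : Algebra.trdeg L Λ = 1 := by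
    have h1 := trdeg_add_eq L Λ (A := RatFunc L)
    rw [trdeg_eq_zero (R := Λ) (A := RatFunc L), add_zero, htrL1] at h1
    exact h1
  have hgen : IntermediateField.adjoin L (Set.range (algebraMap K Λ)) = ⊤ := by
    rw [eq_top_iff]
    rintro z -
    have h1 : (IntermediateField.adjoin L (Set.range (algebraMap K Λ))).map Λ.val = Λ := by
      rw [IntermediateField.adjoin_map]
      congr 1
      ext f
      constructor
      · rintro ⟨_, ⟨k, rfl⟩, rfl⟩
        exact ⟨k, rfl⟩
      · rintro ⟨k, rfl⟩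
        exact ⟨_, ⟨k, rfl⟩, rfl⟩
    have h2 : (z : RatFunc L) ∈ (IntermediateField.adjoin L (Set.range (algebraMap K Λ))).map
        Λ.val := by rw [h1]; exact z.2
    obtain ⟨z', hz', hzz⟩ := h2
    have h3 : z' = z := Subtype.ext hzz
    rw [← h3]; exact hz'
  have hfg : IntermediateField.adjoin L (Set.range fun l => algebraMap K Λ (x l)) = ⊤ := by
    rw [eq_top_iff, ← hgen, IntermediateField.adjoin_le_iff]
    rintro _ ⟨k, rfl⟩
    have hk : k ∈ IntermediateField.adjoin ℂ (Set.range x) := by rw [hS.gen]; trivial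
    have h1 : IntermediateField.adjoin ℂ (Set.range x) ≤
        ((IntermediateField.adjoin L (Set.range fun l => algebraMap K Λ (x l))).restrictScalars
          ℂ).comap (IsScalarTower.toAlgHom ℂ K Λ) := by
      rw [IntermediateField.adjoin_le_iff]
      rintro _ ⟨l, rfl⟩
      exact IntermediateField.subset_adjoin L _ ⟨l, rfl⟩
    exact h1 hk
  -- the main estimate
  have key : ∀ w : Valuation Λ ℤᵐ⁰, (∀ c : L, c ≠ 0 → w (algebraMap L Λ c) = 1) →
      ∀ A : ValuationSubring (RatFunc L),
        (∀ z : Λ, algebraMap Λ (RatFunc L) z ∈ A ↔ z ∈ w.valuationSubring) →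
        (∀ c : L, algebraMap L (RatFunc L) c ∈ A) := by
    intro w hw A hA c
    rw [← hiL, hA]
    change w _ ≤ 1
    by_cases hc : c = 0
    · rw [hc, map_zero, map_zero]; exact zero_le
    · exact (hw c hc).le
  have keyv : ∀ w : Valuation Λ ℤᵐ⁰, ∀ A : ValuationSubring (RatFunc L),
        (∀ z : Λ, algebraMap Λ (RatFunc L) z ∈ A ↔ z ∈ w.valuationSubring) →
        ∀ k : K, (w.comap (algebraMap K Λ)) k ≤ 1 ↔ algebraMap K (RatFunc L) k ∈ A := by
    intro w A hA k
    rw [← hiK, hA, Valuation.comap_apply]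
    rfl
  have hcent : ∀ w : Valuation Λ ℤᵐ⁰, ∀ A : ValuationSubring (RatFunc L),
        (∀ z : Λ, algebraMap Λ (RatFunc L) z ∈ A ↔ z ∈ w.valuationSubring) →
        (∀ q : L[X], algebraMap L[X] (RatFunc L) q ∈ A) → Cent x (w.comap (algebraMap K Λ)) := by
    intro w A hA hq l
    rw [keyv w A hA, hP]
    exact hq _
  refine ⟨D * d, d, Λ, inferInstance, inferInstance, inferInstance, inferInstance, inferInstance,
    inferInstance, (Algebra.norm Λ κ)⁻¹ ^ D, ?_, hd1, ?_, htrΛ, ?_, hgen, ?_, ?_⟩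
  · exact Nat.mul_pos hD1 hd1
  · exact pow_ne_zero _ (inv_ne_zero hnorm0)
  · exact ⟨_, Set.finite_range _, hfg⟩
  · intro w hw θ hθ
    -- the element `z` with `|z| = size`
    obtain ⟨z, hz, hzP⟩ : ∃ z : K, size x (w.comap (algebraMap K Λ)) = w (algebraMap K Λ z) ∧
        ∃ q : L[X], q.natDegree ≤ D ∧
          algebraMap K (RatFunc L) z = algebraMap L[X] (RatFunc L) q := by
      rcases b6_size_eq x (w.comap (algebraMap K Λ)) with ⟨-, h⟩ | ⟨l, h, -⟩
      · refine ⟨1, ?_, 1, ?_, ?_⟩
        · rw [h, map_one, map_one]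
        · rw [natDegree_one]; exact Nat.zero_le _
        · rw [map_one, map_one]
      · exact ⟨x l, h, P l, hDl l, hP l⟩
    obtain ⟨q, hqD, hq⟩ := hzP
    have hmem := h5_norm (Λ := Λ) (E := RatFunc L) w.valuationSubring
      (algebraMap K Λ (z * Ψ θ ^ D)) (κ ^ D) (fun A hA => by
        have hκθ := hκ θ
        have hprod : algebraMap Λ (RatFunc L) (algebraMap K Λ (z * Ψ θ ^ D)) * κ ^ D =
            algebraMap L[X] (RatFunc L) q *
              (detForm K (fun j => extDer (famDer δ (e j))) θ) ^ D := by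
          rw [hκθ, hiK, map_mul, map_pow, hq, mul_pow]; ring
        rw [hprod]
        rcases h5_class A (key w hw A hA) with h | ⟨p, hp⟩ | h
        · exact h _
        · have h1 := h5_fin δ e x P hP p (w.comap (algebraMap K Λ)) (fun a => by
            rw [keyv w A hA, hp]) θ hθ
          rw [hp, map_mul, map_pow]
          exact mul_le_one' (p.valuation_le_one _) (pow_le_one' h1 D)
        · have h1 := h5_inf δ e x (w.comap (algebraMap K Λ)) (fun a => by
            rw [keyv w A hA, h]) θ hθ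
          rw [h, map_mul, map_pow]
          have h2 : RatFunc.inftyValuation L (algebraMap L[X] (RatFunc L) q) ≤ exp (D : ℤ) := by
            by_cases hq0 : q = 0
            · rw [hq0, map_zero, map_zero]; exact zero_le
            · rw [RatFunc.inftyValuation_apply, RatFunc.inftyValuation.polynomial _ hq0, exp_le_exp]
              exact_mod_cast hqD
          calc RatFunc.inftyValuation L (algebraMap L[X] (RatFunc L) q) *
                RatFunc.inftyValuation L (detForm K (fun j => extDer (famDer δ (e j))) θ) ^ D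
              ≤ exp (D : ℤ) * exp (-1) ^ D := mul_le_mul' h2 (pow_le_pow_left' h1 D)
            _ = 1 := by
              rw [← exp_nsmul, ← exp_add]
              simp)
    have h1 : w (algebraMap K Λ (z * Ψ θ ^ D) ^ d * Algebra.norm Λ (κ ^ D)) ≤ 1 := hmem
    have hwn : w (Algebra.norm Λ κ) ≠ 0 := by rwa [Ne, Valuation.zero_iff]
    rw [map_mul, map_pow, map_pow, map_mul, map_mul, map_pow, map_pow, map_pow, ← hz] at h1
    rw [map_pow, map_inv₀, inv_pow]
    have h2 : 0 < w (Algebra.norm Λ κ) ^ D := by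
      rw [zero_lt_iff]; exact pow_ne_zero _ hwn
    rw [← mul_le_mul_iff_of_pos_right h2, inv_mul_cancel₀ h2.ne', pow_mul]
    rw [mul_pow] at h1
    exact h1
  · intro w hw hnc
    obtain ⟨A, hA⟩ := h5_ext (RatFunc L) w.valuationSubring
    rcases h5_class A (key w hw A hA) with h | ⟨p, hp⟩ | h
    · exact absurd (hcent w A hA fun q => h _) hnc
    · exact absurd (hcent w A hA fun q => by rw [hp]; exact p.valuation_le_one _) hnc
    · obtain ⟨t, ht⟩ := h5_indep (K := K) (L := L) (fun α => halgK.isAlgebraic _) htrL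
      refine ⟨t, fun p hp => ?_⟩
      have h1 := ht p hp
      have h2 : (w.comap (algebraMap K Λ)) (MvPolynomial.aeval t p) ≤ 1 := by
        rw [keyv w A hA, h]; exact h1.le
      have h3 : (w.comap (algebraMap K Λ)) (MvPolynomial.aeval t p)⁻¹ ≤ 1 := by
        rw [keyv w A hA, h, map_inv₀, map_inv₀, h1, inv_one]
      have h4 : MvPolynomial.aeval t p ≠ 0 := by
        intro h0
        rw [h0, map_zero, map_zero] at h1
        exact zero_ne_one h1
      rw [map_inv₀] at h3
      refine le_antisymm h2 ?_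
      have h5 : 0 < (w.comap (algebraMap K Λ)) (MvPolynomial.aeval t p) := by
        rw [zero_lt_iff, Ne, Valuation.zero_iff]; exact h4
      rwa [inv_le_one₀ h5] at h3

theorem h5 : H5Stmt := by
  intro R K _ _ _ _ _ _ _ _ n N Ψ x hx hS hA
  obtain ⟨B, _, _, _, hBft, hBd, φ, hφ, -⟩ := hA
  have := isAlgebraic_fractionRing B
  have hBfin : Algebra.trdeg ℂ B < Cardinal.aleph0 :=
    trdeg_lt_aleph0_of_finiteType (R := ℂ) (S := B)
  obtain ⟨s, hs⟩ := exists_isTranscendenceBasis ℂ B
  have hscard := hs.cardinalMk_eq_trdeg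
  have : Finite s := by
    rw [← Cardinal.lt_aleph0_iff_finite, hscard]; exact hBfin
  have : Fintype s := Fintype.ofFinite s
  have hy : IsTranscendenceBasis ℂ (fun i : s => algebraMap B (FractionRing B) (i : B)) :=
    hs.algebraMap_comp (A := FractionRing B)
  have hdim : Algebra.trdeg ℂ R = ((Fintype.card s + 1 : ℕ) : Cardinal) := by
    rw [← hBd, ← hscard, Cardinal.mk_fintype]
    push_cast
    rfl
  have : Algebra.IsAlgebraic R K := IsLocalization.isAlgebraic _ (nonZeroDivisors R)
  have : FaithfulSMul R K := (faithfulSMul_iff_algebraMap_injective _ _).2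
    (IsFractionRing.injective R K)
  have hRK : Algebra.trdeg ℂ R = Algebra.trdeg ℂ K := by
    have h1 := trdeg_add_eq ℂ R (A := K)
    rw [trdeg_eq_zero (R := R) (A := K), add_zero] at h1
    exact h1
  have hcard : Fintype.card s + 1 = n := by
    have h1 := hRK
    rw [hdim, hS.trdeg] at h1
    exact_mod_cast h1
  have hn : Algebra.trdeg ℂ R = (n : Cardinal) := by rw [hRK, hS.trdeg]
  obtain ⟨u, hu⟩ := exists_basis_fin hn K
  let L := FractionRing B
  let ψ : R →ₐ[ℂ] L[X] := (Polynomial.mapAlgHom (IsScalarTower.toAlgHom ℂ B L)).comp φ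
  have hψ : Function.Injective ψ := by
    have h1 : Function.Injective (Polynomial.map (algebraMap B L)) :=
      Polynomial.map_injective _ (IsFractionRing.injective B L)
    exact h1.comp hφ
  let ψ' : R →ₐ[ℂ] RatFunc L := (IsScalarTower.toAlgHom ℂ L[X] (RatFunc L)).comp ψ
  have hψ' : Function.Injective ψ' := by
    have h1 : Function.Injective (algebraMap L[X] (RatFunc L)) :=
      IsFractionRing.injective L[X] (RatFunc L)
    exact h1.comp hψ
  let Φ : K →ₐ[ℂ] RatFunc L := IsFractionRing.liftAlgHom hψ'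
  have hΦ : ∀ a : R, Φ (algebraMap R K a) = algebraMap L[X] (RatFunc L) (ψ a) := by
    intro a
    simp [Φ, ψ']
  let _ : Algebra K (RatFunc L) := Φ.toRingHom.toAlgebra
  have : IsScalarTower ℂ K (RatFunc L) := IsScalarTower.of_algebraMap_eq fun c => by
    change _ = Φ (algebraMap ℂ K c)
    rw [AlgHom.commutes]
  have htr : Algebra.trdeg ℂ (RatFunc L) = (n : Cardinal) := by
    rw [trdeg_ratFunc, hBd, hn]
  have htrL : Algebra.trdeg ℂ L = ((n - 1 : ℕ) : Cardinal) := by
    have h1 : Algebra.trdeg ℂ B + Algebra.trdeg B L = Algebra.trdeg ℂ L := trdeg_add_eq ℂ B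
    rw [trdeg_eq_zero (R := B) (A := L), add_zero, ← hscard, Cardinal.mk_fintype] at h1
    rw [← h1, ← hcard]
    rfl
  obtain ⟨m₀, e₀, Λ, i1, i2, i3, i4, i5, i6, a, ha⟩ := h5_abs (L := L) Ψ
    (fun l => algebraMap R K (x l)) hS
    (fun i : s => algebraMap B (FractionRing B) (i : B)) hy hcard u hu htr htrL
    (fun l => ψ (x l)) (fun l => hΦ (x l))
  exact ⟨m₀, e₀, L, Λ, inferInstance, i1, inferInstance, i2, i3, i4, i5, i6, a, ha⟩

end Pool.Agent.Lib.MP_410da7_agA
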