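import Pool.Agent.Lib.MP_410da7_agA.SpecA

set_option autoImplicit false

namespace Pool.Agent.Lib.MP_410da7_agA

open KaehlerDifferential WithZero Module IsDedekindDomain
open Pool.Agent.Lib.MP_410da7_ag (regDiff logDiff regGens logGens A1Uniruled LogKodairaNegInf dim)

namespace a0Aux

open IntermediateField IntermediateField.algebraAdjoinAdjoin in
/-- For a transcendental element `G` over `L` there is a valuation of a finite extension of `L(G)` with
`v G < 1`, bounded by one on `L`. -/
theorem exists_val (L K : Type) [Field L] [Field K] [Algebra L K] [CharZero L] (G : K)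
    (hG : Transcendental L G) [Algebra.IsAlgebraic L⟮G⟯ K] [Algebra.EssFiniteType L K] :
    ∃ v : Valuation K ℤᵐ⁰, v G < 1 ∧ ∀ c : L, v (algebraMap L K c) ≤ 1 := by
  have hess : Algebra.EssFiniteType L⟮G⟯ K := Algebra.EssFiniteType.of_comp L _ _
  have hfin : Module.Finite L⟮G⟯ K := Algebra.finite_of_essFiniteType_of_isAlgebraic
  let A := Algebra.adjoin L ({G} : Set K)
  let f : Polynomial L ≃ₐ[L] A := (AlgEquiv.ofInjective (Polynomial.aeval G)
    (transcendental_iff_injective.mp hG)).trans
      (Subalgebra.equivOfEq _ _ (Algebra.adjoin_singleton_eq_range_aeval L G).symm)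
  have hpir : IsPrincipalIdealRing A := IsPrincipalIdealRing.of_surjective f.toRingEquiv.toRingHom
    f.surjective
  have hGA : G ∈ A := Algebra.subset_adjoin rfl
  have hfX : f Polynomial.X = ⟨G, hGA⟩ := by
    apply Subtype.ext
    simp [f]
  have hG0 : G ≠ 0 := by
    rintro rfl
    exact hG isAlgebraic_zero
  have hded : IsDedekindDomain (integralClosure A K) := integralClosure.isDedekindDomain A L⟮G⟯ K
  have hfr : IsFractionRing (integralClosure A K) K :=
    integralClosure.isFractionRing_of_finite_extension L⟮G⟯ K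
  have hGi : IsIntegral A G := isIntegral_algebraMap (R := A) (A := K) (x := ⟨G, hGA⟩)
  obtain ⟨Q, hQ⟩ : ∃ Q : HeightOneSpectrum (integralClosure A K),
      (⟨G, hGi⟩ : integralClosure A K) ∈ Q.asIdeal := by
    have hnu : (⟨G, hGi⟩ : integralClosure A K) ∈ nonunits (integralClosure A K) := by
      intro hu
      have h1 : algebraMap A (integralClosure A K) ⟨G, hGA⟩ = ⟨G, hGi⟩ := rfl
      rw [← h1] at hu
      have h2 : IsUnit (⟨G, hGA⟩ : A) := isUnit_of_map_unit (algebraMap A (integralClosure A K)) _ hu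
      rw [← hfX] at h2
      have h3 : IsUnit (Polynomial.X : Polynomial L) := (isUnit_map_iff f _).mp h2
      exact Polynomial.not_isUnit_X h3
    obtain ⟨M, hM, hMt⟩ := exists_max_ideal_of_mem_nonunits hnu
    refine ⟨⟨M, hM.isPrime, ?_⟩, hMt⟩
    rintro rfl
    rw [Ideal.mem_bot] at hMt
    exact hG0 (congrArg Subtype.val hMt)
  refine ⟨Q.valuation K, (Q.valuation_lt_one_iff_mem (K := K) (⟨G, hGi⟩ : integralClosure A K)).2 hQ,
    ?_⟩
  intro c
  exact Q.valuation_le_one (K := K)
    (algebraMap A (integralClosure A K) (algebraMap L A c))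

end a0Aux

open a0Aux IntermediateField

theorem a0 : A0Stmt := by
  intro K _ _ n N Ψ x hS F hF
  by_contra hne
  push Not at hne
  have hFt : Transcendental ℂ F := by
    intro halg
    have h1 := IsAlgClosed.degree_eq_one_of_irreducible ℂ (minpoly.irreducible halg.isIntegral)
    obtain ⟨c, hc⟩ := minpoly.mem_range_of_degree_eq_one ℂ F h1
    exact hne c hc.symm
  set G : K := F⁻¹ with hG
  have hGt : Transcendental ℂ G := by
    intro h
    apply hFt
    rw [hG] at h
    simpa using h.inv
  obtain ⟨t, hGt', ht⟩ := exists_isTranscendenceBasis_superset (R := ℂ) (s := ({G} : Set K)) (by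
    have h1 := (algebraicIndependent_singleton_iff (R := ℂ)
      (x := fun i : ({G} : Set K) => (id i : K)) ⟨G, rfl⟩).mpr hGt
    exact h1)
  have hGmem : G ∈ t := hGt' rfl
  let L : IntermediateField ℂ K := adjoin ℂ (t \ {G})
  have hGL : Transcendental L G := by
    rw [IntermediateField.transcendental_adjoin_iff]
    have h1 := ht.1.transcendental_adjoin (s := {i : t | i.1 ≠ G}) (i := ⟨G, hGmem⟩) (by simp)
    have h2 : (Subtype.val '' {i : t | i.1 ≠ G} : Set K) = t \ {G} := by
      ext y
      simp [and_comm]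
    rw [h2] at h1
    exact h1
  have halg : Algebra.IsAlgebraic L⟮G⟯ K := by
    have h1 := ht.isAlgebraic_field
    have h2 : ∀ y ∈ adjoin ℂ (Set.range (Subtype.val : t → K)), y ∈ L⟮G⟯ := by
      have h3 : adjoin ℂ (Set.range (Subtype.val : t → K)) ≤ L⟮G⟯.restrictScalars ℂ := by
        rw [adjoin_le_iff]
        rintro _ ⟨⟨y, hy⟩, rfl⟩
        by_cases hyG : y = G
        · subst hyG
          exact mem_adjoin_simple_self L _
        · have h4 : y ∈ L := subset_adjoin ℂ _ ⟨hy, hyG⟩
          exact L⟮G⟯.algebraMap_mem ⟨y, h4⟩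
      intro y hy
      exact h3 hy
    let f : adjoin ℂ (Set.range (Subtype.val : t → K)) →+* L⟮G⟯ :=
      { toFun := fun y => ⟨y.1, h2 y.1 y.2⟩
        map_one' := rfl
        map_zero' := rfl
        map_add' := fun _ _ => rfl
        map_mul' := fun _ _ => rfl }
    let _ : Algebra (adjoin ℂ (Set.range (Subtype.val : t → K))) L⟮G⟯ := f.toAlgebra
    have h5 : IsScalarTower (adjoin ℂ (Set.range (Subtype.val : t → K))) L⟮G⟯ K :=
      IsScalarTower.of_algebraMap_eq fun _ => rfl
    exact Algebra.IsAlgebraic.tower_top (K := adjoin ℂ (Set.range (Subtype.val : t → K))) L⟮G⟯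
  have hess : Algebra.EssFiniteType L K := by
    have h1 : (⊤ : IntermediateField ℂ K).FG := by
      rw [← hS.gen]
      exact ⟨(Set.finite_range x).toFinset, by simp⟩
    rw [fg_top_iff] at h1
    exact Algebra.EssFiniteType.of_comp ℂ L K
  obtain ⟨v, hv1, hv2⟩ := exists_val L K G hGL
  have htr : Triv v := by
    intro c hc
    have h1 : ∀ c : ℂ, v (algebraMap ℂ K c) ≤ 1 := fun c => hv2 (algebraMap ℂ L c)
    refine le_antisymm (h1 c) ?_
    have h2 := h1 c⁻¹
    rw [map_inv₀, map_inv₀] at h2
    have h3 : v (algebraMap ℂ K c) ≠ 0 := by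
      rw [Valuation.ne_zero_iff]
      simpa using hc
    have h4 := mul_le_mul_right h2 (v (algebraMap ℂ K c))
    rw [mul_inv_cancel₀ h3, mul_one] at h4
    exact h4
  obtain ⟨θ, -, h⟩ := hF v htr
  rw [pow_zero, pow_zero, mul_one] at h
  have hF0 : v F ≠ 0 := by
    rw [Valuation.ne_zero_iff]
    rintro rfl
    exact hFt isAlgebraic_zero
  have h5 : v F * v G = 1 := by
    rw [hG, map_inv₀, mul_inv_cancel₀ hF0]
  have h6 : v F * v G < 1 := by
    refine lt_of_le_of_lt ?_ hv1
    calc v F * v G ≤ 1 * v G := by gcongr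
      _ = v G := one_mul _
  exact absurd h5 h6.ne

end Pool.Agent.Lib.MP_410da7_agA
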