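import Pool.Agent.Lib.MP_410da7_agA.SpecA

/-!
# MP_410da7_ag, smooth affine varieties (C46): A1, operations on sections
-/

set_option autoImplicit false

namespace Pool.Agent.Lib.MP_410da7_agA

open KaehlerDifferential WithZero
open Pool.Agent.Lib.MP_410da7_ag (regDiff logDiff)

namespace a1Aux

variable {K : Type} [Field K] [Algebra ℂ K] {n N : ℕ} {Ψ : Ω[K⁄ℂ] [⋀^Fin n]→ₗ[K] K}
  {x : Fin N → K} {v : Valuation K ℤᵐ⁰}

theorem frame_zero (x : Fin N → K) (v : Valuation K ℤᵐ⁰) :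
    Frame x v (fun _ : Fin n => (0 : Ω[K⁄ℂ])) :=
  ⟨fun _ => zero_mem _, fun _ _ => zero_mem _⟩

theorem one_le_size (x : Fin N → K) (v : Valuation K ℤᵐ⁰) : 1 ≤ size x v := le_sup_right

theorem le_size (x : Fin N → K) (v : Valuation K ℤᵐ⁰) (l : Fin N) : v (x l) ≤ size x v :=
  (Finset.le_sup (f := fun l => v (x l)) (Finset.mem_univ l)).trans le_sup_left

theorem exists_frame {θ θ' : Fin n → Ω[K⁄ℂ]} (h : Frame x v θ) (h' : Frame x v θ') :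
    ∃ ρ : Fin n → Ω[K⁄ℂ], Frame x v ρ ∧ v (Ψ θ) ≤ v (Ψ ρ) ∧ v (Ψ θ') ≤ v (Ψ ρ) := by
  rcases le_total (v (Ψ θ)) (v (Ψ θ')) with h1 | h1
  · exact ⟨θ', h', h1, le_rfl⟩
  · exact ⟨θ, h, le_rfl, h1⟩

theorem bound_mono {e m : ℕ} {a b : ℤᵐ⁰} (x : Fin N → K) (v : Valuation K ℤᵐ⁰) (h : a ≤ b) :
    size x v ^ e * a ^ m ≤ size x v ^ e * b ^ m :=
  mul_le_mul_right (pow_le_pow_left₀ zero_le h m) _

end a1Aux

open a1Aux in
theorem a1 : A1Stmt := by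
  intro K _ _ n N Ψ x
  refine ⟨?_, ?_, ?_, ?_, ?_, ?_, ?_⟩
  · intro m e v _
    exact ⟨_, frame_zero x v, by rw [map_zero]; exact zero_le⟩
  · intro v _
    exact ⟨_, frame_zero x v, by rw [map_one, pow_zero, pow_zero, mul_one]⟩
  · intro m e F hF G hG v hv
    obtain ⟨θ, hθ, h1⟩ := hF v hv
    obtain ⟨θ', hθ', h2⟩ := hG v hv
    obtain ⟨ρ, hρ, h3, h4⟩ := exists_frame (Ψ := Ψ) hθ hθ'
    exact ⟨ρ, hρ, (v.map_add F G).trans (max_le (h1.trans (bound_mono x v h3))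
      (h2.trans (bound_mono x v h4)))⟩
  · intro m e F hF c v hv
    obtain ⟨θ, hθ, h1⟩ := hF v hv
    refine ⟨θ, hθ, ?_⟩
    rw [Algebra.smul_def, map_mul]
    by_cases hc : c = 0
    · rw [hc, map_zero, map_zero, zero_mul]
      exact zero_le
    · rw [hv c hc, one_mul]
      exact h1
  · intro m e m' e' F hF G hG v hv
    obtain ⟨θ, hθ, h1⟩ := hF v hv
    obtain ⟨θ', hθ', h2⟩ := hG v hv
    obtain ⟨ρ, hρ, h3, h4⟩ := exists_frame (Ψ := Ψ) hθ hθ'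
    refine ⟨ρ, hρ, ?_⟩
    rw [map_mul, pow_add, pow_add, mul_mul_mul_comm]
    exact mul_le_mul' (h1.trans (bound_mono x v h3)) (h2.trans (bound_mono x v h4))
  · intro m e e' he F hF v hv
    obtain ⟨θ, hθ, h1⟩ := hF v hv
    exact ⟨θ, hθ, h1.trans (mul_le_mul_left (pow_le_pow_right₀ (one_le_size x v) he) _)⟩
  · intro m e l F hF v hv
    obtain ⟨θ, hθ, h1⟩ := hF v hv
    refine ⟨θ, hθ, ?_⟩
    rw [map_mul, pow_succ', mul_assoc]
    exact mul_le_mul' (le_size x v l) h1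

end Pool.Agent.Lib.MP_410da7_agA
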