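import Pool.Agent.Lib.MP_410da7_agA.SpecA

set_option autoImplicit false

namespace Pool.Agent.Lib.MP_410da7_agA

open MvPolynomial KaehlerDifferential WithZero Module
open Pool.Agent.Lib.MP_410da7_ag (regDiff logDiff regGens logGens A1Uniruled LogKodairaNegInf dim)

namespace a2Aux

variable {K : Type} [Field K] [Algebra ℂ K] {n N : ℕ}

theorem gen_eq (F : K) (m e : ℕ) : (C F * X 0 ^ m * X 1 ^ e : MvPolynomial (Fin 2) K) =
    monomial (Finsupp.single 0 m + Finsupp.single 1 e) F := by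
  rw [X_pow_eq_monomial, X_pow_eq_monomial, C_mul_monomial, monomial_mul, mul_one, mul_one]

theorem coeff_mem (ha1 : A1Stmt) (Ψ : Ω[K⁄ℂ] [⋀^Fin n]→ₗ[K] K) (x : Fin N → K)
    (p : MvPolynomial (Fin 2) K) (hp : p ∈ adj Ψ x) :
    ∀ ε : Fin 2 →₀ ℕ, p.coeff ε ∈ Sec Ψ x (ε 0) (ε 1) := by
  obtain ⟨h0, h1, hadd, hsmul, hmul, -, -⟩ := ha1 K n N Ψ x
  refine Algebra.adjoin_induction (p := fun p _ => ∀ ε, p.coeff ε ∈ Sec Ψ x (ε 0) (ε 1))
    ?_ ?_ ?_ ?_ hp
  · rintro p ⟨m, e, F, hF, rfl⟩ ε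
    rw [gen_eq, coeff_monomial]
    split_ifs with h
    · subst h
      simpa using hF
    · exact h0 _ _
  · intro r ε
    rw [MvPolynomial.algebraMap_apply, coeff_C]
    split_ifs with h
    · subst h
      rw [Algebra.algebraMap_eq_smul_one]
      exact hsmul 0 0 1 h1 r
    · exact h0 _ _
  · intro p q _ _ hp hq ε
    rw [coeff_add]
    exact hadd _ _ _ (hp ε) _ (hq ε)
  · intro p q _ _ hp hq ε
    rw [coeff_mul]
    refine Finset.sum_induction _ (fun F => F ∈ Sec Ψ x (ε 0) (ε 1)) (fun a b ha hb =>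
      hadd _ _ a ha b hb) (h0 _ _) ?_
    intro ab hab
    rw [Finset.HasAntidiagonal.mem_antidiagonal] at hab
    rw [← hab]
    exact hmul _ _ _ _ _ (hp ab.1) _ (hq ab.2)

/-- The monomials in the `g_i` of degree `(m', e')`. -/
def mons {s : ℕ} (m e : Fin s → ℕ) (g : Fin s → K) (m' e' : ℕ) : Set K :=
  {f : K | ∃ a : Fin s → ℕ, ∑ i, a i * m i = m' ∧ ∑ i, a i * e i = e' ∧ f = ∏ i, g i ^ a i}

theorem mons_mul {s : ℕ} (m e : Fin s → ℕ) (g : Fin s → K) (m' e' m'' e'' : ℕ) (u v : K)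
    (hu : u ∈ Submodule.span ℂ (mons m e g m' e')) (hv : v ∈ Submodule.span ℂ (mons m e g m'' e'')) :
    u * v ∈ Submodule.span ℂ (mons m e g (m' + m'') (e' + e'')) := by
  have h := Submodule.mul_mem_mul hu hv
  rw [Submodule.span_mul_span] at h
  refine Submodule.span_mono ?_ h
  rintro _ ⟨_, ⟨a, ha1, ha2, rfl⟩, _, ⟨b, hb1, hb2, rfl⟩, rfl⟩
  refine ⟨a + b, ?_, ?_, ?_⟩
  · simp only [Pi.add_apply, add_mul, Finset.sum_add_distrib, ha1, hb1]
  · simp only [Pi.add_apply, add_mul, Finset.sum_add_distrib, ha2, hb2]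
  · simp only [Pi.add_apply, pow_add, Finset.prod_mul_distrib]

theorem coeff_span {s : ℕ} (ε₀ : Fin s → Fin 2 →₀ ℕ) (g : Fin s → K)
    (p : MvPolynomial (Fin 2) K)
    (hp : p ∈ Algebra.adjoin ℂ (Set.range fun i => monomial (ε₀ i) (g i))) :
    ∀ ε : Fin 2 →₀ ℕ, p.coeff ε ∈ Submodule.span ℂ
      (mons (fun i => ε₀ i 0) (fun i => ε₀ i 1) g (ε 0) (ε 1)) := by
  refine Algebra.adjoin_induction (p := fun p _ => ∀ ε : Fin 2 →₀ ℕ, p.coeff ε ∈ Submodule.span ℂ
      (mons (fun i => ε₀ i 0) (fun i => ε₀ i 1) g (ε 0) (ε 1))) ?_ ?_ ?_ ?_ hp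
  · rintro p ⟨i, rfl⟩ ε
    dsimp only
    rw [coeff_monomial]
    split_ifs with h
    · refine Submodule.subset_span ⟨Pi.single i 1, ?_, ?_, ?_⟩
      · rw [Finset.sum_eq_single i]
        · simp only [Pi.single_eq_same, one_mul, h]
        · intro j _ hj
          rw [Pi.single_eq_of_ne hj, zero_mul]
        · intro h
          exact absurd (Finset.mem_univ _) h
      · rw [Finset.sum_eq_single i]
        · simp only [Pi.single_eq_same, one_mul, h]
        · intro j _ hj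
          rw [Pi.single_eq_of_ne hj, zero_mul]
        · intro h
          exact absurd (Finset.mem_univ _) h
      · rw [Finset.prod_eq_single i]
        · rw [Pi.single_eq_same, pow_one]
        · intro j _ hj
          rw [Pi.single_eq_of_ne hj, pow_zero]
        · intro h
          exact absurd (Finset.mem_univ _) h
    · exact Submodule.zero_mem _
  · intro r ε
    rw [MvPolynomial.algebraMap_apply, coeff_C]
    split_ifs with h
    · rw [Algebra.algebraMap_eq_smul_one]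
      refine Submodule.smul_mem _ _ (Submodule.subset_span ⟨0, ?_, ?_, ?_⟩)
      · simp [← h]
      · simp [← h]
      · simp
    · exact Submodule.zero_mem _
  · intro p q _ _ hp hq ε
    rw [coeff_add]
    exact Submodule.add_mem _ (hp ε) (hq ε)
  · intro p q _ _ hp hq ε
    rw [coeff_mul]
    refine Submodule.sum_mem _ ?_
    intro ab hab
    rw [Finset.HasAntidiagonal.mem_antidiagonal] at hab
    rw [← hab]
    exact mons_mul _ _ _ _ _ _ _ _ _ (hp ab.1) (hq ab.2)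

end a2Aux

open a2Aux

theorem a2 (ha1 : A1Stmt) : A2Stmt := by
  classical
  intro K _ _ n N Ψ x hFG
  obtain ⟨T, hT⟩ := hFG
  let I : Finset (Σ _ : MvPolynomial (Fin 2) K, Fin 2 →₀ ℕ) := T.sigma fun p => p.support
  let eI := I.equivFin
  let idx : Fin I.card → Σ _ : MvPolynomial (Fin 2) K, Fin 2 →₀ ℕ := fun i => (eI.symm i : I).1
  have hidx : ∀ i, (idx i).1 ∈ T ∧ (idx i).2 ∈ (idx i).1.support := fun i =>
    Finset.mem_sigma.mp (eI.symm i).2
  let ε₀ : Fin I.card → Fin 2 →₀ ℕ := fun i => (idx i).2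
  let g : Fin I.card → K := fun i => (idx i).1.coeff (idx i).2
  have hTadj : ∀ p ∈ T, p ∈ adj Ψ x := by
    intro p hp
    rw [← hT]
    exact Algebra.subset_adjoin hp
  refine ⟨I.card, fun i => ε₀ i 0, fun i => ε₀ i 1, g, ?_, ?_, ?_⟩
  · intro i
    exact coeff_mem ha1 Ψ x _ (hTadj _ (hidx i).1) _
  · intro i
    exact mem_support_iff.mp (hidx i).2
  · intro m' e' F hF
    have h1 : (C F * X 0 ^ m' * X 1 ^ e' : MvPolynomial (Fin 2) K) ∈
        Algebra.adjoin ℂ (Set.range fun i => monomial (ε₀ i) (g i)) := by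
      have h2 : (C F * X 0 ^ m' * X 1 ^ e' : MvPolynomial (Fin 2) K) ∈ adj Ψ x :=
        Algebra.subset_adjoin ⟨m', e', F, hF, rfl⟩
      rw [← hT] at h2
      refine Algebra.adjoin_le ?_ h2
      intro p hp
      have h3 : p = ∑ ε ∈ p.support, monomial ε (p.coeff ε) := p.as_sum
      rw [SetLike.mem_coe, h3]
      refine Subalgebra.sum_mem _ ?_
      intro ε hε
      refine Algebra.subset_adjoin ⟨eI ⟨⟨p, ε⟩, Finset.mem_sigma.mpr ⟨hp, hε⟩⟩, ?_⟩
      simp [ε₀, g, idx]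
    have h4 := coeff_span ε₀ g _ h1 (Finsupp.single 0 m' + Finsupp.single 1 e')
    rw [gen_eq, coeff_monomial, if_pos rfl] at h4
    have e0 : (Finsupp.single (0 : Fin 2) m' + Finsupp.single 1 e' : Fin 2 →₀ ℕ) 0 = m' := by simp
    have e1 : (Finsupp.single (0 : Fin 2) m' + Finsupp.single 1 e' : Fin 2 →₀ ℕ) 1 = e' := by simp
    rw [e0, e1] at h4
    exact h4

end Pool.Agent.Lib.MP_410da7_agA
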