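import Pool.Agent.Lib.MP_410da7_agA.SpecA

set_option autoImplicit false

namespace Pool.Agent.Lib.MP_410da7_agA

open MvPolynomial KaehlerDifferential WithZero Module
open Pool.Agent.Lib.MP_410da7_ag (regDiff logDiff regGens logGens A1Uniruled LogKodairaNegInf dim)

theorem a3 : A3Stmt := by
  intro K _ _ n N Ψ x m e d b c hd hc hb v hv
  choose θ hθF hθ using fun i : Fin d => hc i v hv
  have : NeZero d := ⟨by omega⟩
  obtain ⟨i₀, -, hi₀⟩ := Finset.exists_max_image (Finset.univ : Finset (Fin d)) (fun i => v (Ψ (θ i)))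
    ⟨0, Finset.mem_univ _⟩
  refine ⟨θ i₀, hθF i₀, ?_⟩
  set M : ℤᵐ⁰ := size x v ^ e * v (Ψ (θ i₀)) ^ m with hM
  have hc' : ∀ i : Fin d, v (c i) ≤ M ^ (d - (i : ℕ)) := by
    intro i
    refine (hθ i).trans ?_
    rw [hM, mul_pow, ← pow_mul, ← pow_mul, mul_comm e, mul_comm m]
    gcongr
    exact hi₀ i (Finset.mem_univ _)
  by_contra hlt
  push Not at hlt
  have hb0 : 0 < v b := lt_of_le_of_lt zero_le hlt
  have h1 : v (b ^ d) < v (b ^ d) := by
    conv_lhs => rw [hb]
    refine Valuation.map_sum_lt v (by rw [map_pow]; exact (pow_pos hb0 d).ne') ?_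
    intro i _
    rw [map_mul, map_pow, map_pow]
    have hi : d = (d - (i : ℕ)) + i := by have := i.2; omega
    have h2 : v b ^ d = v b ^ (d - (i : ℕ)) * v b ^ (i : ℕ) := by rw [← pow_add, ← hi]
    rw [h2]
    refine mul_lt_mul_of_pos_right (lt_of_le_of_lt (hc' i) ?_) (pow_pos hb0 _)
    exact pow_lt_pow_left₀ hlt zero_le (by have := i.2; omega)
  exact lt_irrefl _ h1

end Pool.Agent.Lib.MP_410da7_agA
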