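import Pool.Agent.Lib.MP_410da7_agA.A1

/-!
# MP_410da7_ag, smooth affine varieties (C46): A4, `K + D + n H` has a section
-/

set_option autoImplicit false

namespace Pool.Agent.Lib.MP_410da7_agA

open KaehlerDifferential WithZero
open Pool.Agent.Lib.MP_410da7_ag (regDiff logDiff regGens logGens)

namespace a4Aux

variable {K : Type} [Field K] [Algebra ℂ K] {n N : ℕ} {Ψ : Ω[K⁄ℂ] [⋀^Fin n]→ₗ[K] K}
  {x : Fin N → K}

theorem span_D (hgen : IntermediateField.adjoin ℂ (Set.range x) = ⊤) :
    Submodule.span K (Set.range fun l => D ℂ K (x l)) = ⊤ := by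
  have key : ∀ y ∈ IntermediateField.adjoin ℂ (Set.range x),
      D ℂ K y ∈ Submodule.span K (Set.range fun l => D ℂ K (x l)) := by
    intro y hy
    induction hy using IntermediateField.adjoin_induction with
    | mem y hy =>
      obtain ⟨l, rfl⟩ := hy
      exact Submodule.subset_span ⟨l, rfl⟩
    | algebraMap c => rw [Derivation.map_algebraMap]; exact zero_mem _
    | add y z _ _ hy hz => rw [map_add]; exact add_mem hy hz
    | inv y _ hy => rw [Derivation.leibniz_inv]; exact Submodule.smul_mem _ _ hy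
    | mul y z _ _ hy hz =>
      rw [Derivation.leibniz]
      exact add_mem (Submodule.smul_mem _ _ hz) (Submodule.smul_mem _ _ hy)
  rw [eq_top_iff, ← KaehlerDifferential.span_range_derivation, Submodule.span_le]
  rintro _ ⟨y, rfl⟩
  exact key y (by rw [hgen]; exact IntermediateField.mem_top)

theorem exists_ne (hgen : IntermediateField.adjoin ℂ (Set.range x) = ⊤) (hΨ : Ψ ≠ 0) :
    ∃ l : Fin n → Fin N, Ψ (fun i => D ℂ K (x (l i))) ≠ 0 := by
  by_contra hne
  push Not at hne
  apply hΨ
  have hsp : ⊤ ≤ Submodule.span K (Set.range fun l => D ℂ K (x l)) := (span_D hgen).ge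
  refine Module.Basis.ext_alternating (Module.Basis.ofSpan hsp) fun w _ => ?_
  have hw : ∀ i, ∃ l, D ℂ K (x l) = Module.Basis.ofSpan hsp (w i) := fun i =>
    Module.Basis.ofSpan_subset hsp ⟨w i, rfl⟩
  choose l hl using hw
  have h := hne l
  have he : (fun i => D ℂ K (x (l i))) = fun i => Module.Basis.ofSpan hsp (w i) :=
    funext fun i => hl i
  rw [he] at h
  rw [h, AlternatingMap.zero_apply]

end a4Aux

open a4Aux a1Aux in
theorem a4 : A4Stmt := by
  intro K _ _ n N Ψ x hS
  obtain ⟨l, hl⟩ := exists_ne hS.gen hS.Ψ0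
  refine ⟨_, ?_, hl⟩
  intro v hv
  by_cases hc : Cent x v
  · refine ⟨fun i => D ℂ K (x (l i)), ⟨fun i => AddSubgroup.subset_closure (Or.inl
      ⟨1, x (l i), by rw [map_one], hc _, by rw [one_smul]⟩), fun _ i => AddSubgroup.subset_closure
      ⟨1, x (l i), by rw [map_one], hc _, by rw [one_smul]⟩⟩, ?_⟩
    rw [pow_one]
    exact le_mul_of_one_le_left' (one_le_pow_of_one_le' (one_le_size x v) n)
  · have hex : ∃ j, 1 < v (x j) := by
      by_contra hne
      push Not at hne
      exact hc hne
    obtain ⟨j₀, hj₀⟩ := hex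
    obtain ⟨j, -, hj⟩ := Finset.exists_max_image Finset.univ (fun j => v (x j)) ⟨j₀, Finset.mem_univ _⟩
    have hj1 : 1 < v (x j) := hj₀.trans_le (hj j₀ (Finset.mem_univ _))
    have hsize : size x v = v (x j) := by
      refine le_antisymm (sup_le (Finset.sup_le fun i hi => hj i hi) hj1.le) (le_size x v j)
    have hx0 : x j ≠ 0 := by
      intro h
      rw [h, map_zero] at hj1
      exact not_lt_of_ge zero_le hj1
    refine ⟨fun i => (x j)⁻¹ • D ℂ K (x (l i)), ⟨fun i => ?_, fun h => absurd h hc⟩, ?_⟩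
    · change (x j)⁻¹ • D ℂ K (x (l i)) ∈ logDiff v
      by_cases h0 : x (l i) = 0
      · rw [h0, map_zero, smul_zero]
        exact zero_mem _
      · refine AddSubgroup.subset_closure (Or.inr ⟨x (l i) / x j, x (l i), ?_, h0, ?_⟩)
        · rw [map_div₀]
          exact (div_le_one₀ (zero_lt_one.trans hj1)).2 (hj _ (Finset.mem_univ _))
        · congr 1
          field_simp
    · have h : Ψ (fun i => (x j)⁻¹ • D ℂ K (x (l i))) = (x j)⁻¹ ^ n * Ψ (fun i => D ℂ K (x (l i))) := by
        have h1 := Ψ.toMultilinearMap.map_smul_univ (fun _ => (x j)⁻¹) (fun i => D ℂ K (x (l i)))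
        rw [Finset.prod_const, Finset.card_univ, Fintype.card_fin, smul_eq_mul] at h1
        exact h1
      rw [h, pow_one, hsize, ← map_pow, ← map_mul, ← mul_assoc, ← mul_pow, mul_inv_cancel₀ hx0,
        one_pow, one_mul]

end Pool.Agent.Lib.MP_410da7_agA
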