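import Pool.Agent.Lib.MP_410da7_agA.SpecA

/-!
# MP_410da7_ag, smooth affine varieties (C46): A5, the threshold
-/

set_option autoImplicit false

namespace Pool.Agent.Lib.MP_410da7_agA

open KaehlerDifferential WithZero

namespace a5Aux

variable {K : Type} [Field K] [Algebra ℂ K] {n N : ℕ} {Ψ : Ω[K⁄ℂ] [⋀^Fin n]→ₗ[K] K}
  {x : Fin N → K}

theorem exists_exp {s : ℕ} {m e : Fin s → ℕ} {g : Fin s → K} (hG : Gens Ψ x s m e g) {m' e' : ℕ}
    {F : K} (hF : F ∈ Sec Ψ x m' e') (h0 : F ≠ 0) :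
    ∃ a : Fin s → ℕ, ∑ i, a i * m i = m' ∧ ∑ i, a i * e i = e' := by
  by_contra hne
  push Not at hne
  apply h0
  have h := hG.span m' e' F hF
  have hem : {f : K | ∃ a : Fin s → ℕ, ∑ i, a i * m i = m' ∧ ∑ i, a i * e i = e' ∧
      f = ∏ i, g i ^ a i} = ∅ := by
    ext f
    simp only [Set.mem_ofPred_eq, Set.mem_empty_iff_false, iff_false]
    rintro ⟨a, h1, h2, -⟩
    exact hne a h1 h2
  rw [hem, Submodule.span_empty] at h
  exact (Submodule.mem_bot ℂ).1 h

end a5Aux

open a5Aux in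
theorem a5 : A5Stmt := by
  intro K _ _ n N Ψ x s m e g hS hG hF hneg
  obtain ⟨F, hF, hF0⟩ := hF
  obtain ⟨a, ha, -⟩ := exists_exp hG hF hF0
  have hex : ∃ i, 1 ≤ m i := by
    by_contra hne
    push Not at hne
    have h1 : ∑ i, a i * m i = 0 := Finset.sum_eq_zero fun i _ => by
      have h2 : m i = 0 := by have := hne i; omega
      rw [h2, mul_zero]
    omega
  obtain ⟨i₁, hi₁⟩ := hex
  obtain ⟨i, hi, hmin⟩ := Finset.exists_min_image (Finset.univ.filter fun j => 1 ≤ m j)
    (fun j => (e j : ℚ) / (m j : ℚ)) ⟨i₁, by simp [hi₁]⟩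
  have hi' : 1 ≤ m i := (Finset.mem_filter.1 hi).2
  refine ⟨i, hi', ?_, ?_⟩
  · by_contra he
    have he0 : e i = 0 := by omega
    have h1 := hG.mem i
    rw [he0] at h1
    exact hG.ne i (hneg (m i) hi' _ h1)
  · intro m' e' G hG' hG0
    obtain ⟨b, hb, hb'⟩ := exists_exp hG hG' hG0
    have key : ∀ j, m j * e i ≤ e j * m i := by
      intro j
      rcases Nat.eq_zero_or_pos (m j) with hj | hj
      · rw [hj, zero_mul]
        exact Nat.zero_le _
      · have h1 := hmin j (Finset.mem_filter.2 ⟨Finset.mem_univ _, hj⟩)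
        have hmi : (0 : ℚ) < (m i : ℚ) := by exact_mod_cast hi'
        have hmj : (0 : ℚ) < (m j : ℚ) := by exact_mod_cast hj
        rw [div_le_div_iff₀ hmi hmj] at h1
        have h2 : e i * m j ≤ e j * m i := by exact_mod_cast h1
        rw [mul_comm (m j)]
        exact h2
    calc m' * e i = ∑ j, b j * (m j * e i) := by
          rw [← hb, Finset.sum_mul]
          exact Finset.sum_congr rfl fun j _ => mul_assoc _ _ _
      _ ≤ ∑ j, b j * (e j * m i) := Finset.sum_le_sum fun j _ => Nat.mul_le_mul_left _ (key j)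
      _ = e' * m i := by
          rw [← hb', Finset.sum_mul]
          exact Finset.sum_congr rfl fun j _ => (mul_assoc _ _ _).symm

end Pool.Agent.Lib.MP_410da7_agA
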