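import Pool.Agent.Lib.MP_410da7_agA.SpecA

set_option autoImplicit false

namespace Pool.Agent.Lib.MP_410da7_agA

namespace a6Aux

/-- the linear form -/
def lin {s : ℕ} (p : Fin s → ℕ) : (Fin s → ℕ) →+ ℕ where
  toFun a := ∑ i, a i * p i
  map_zero' := by simp
  map_add' a b := by
    rw [← Finset.sum_add_distrib]
    exact Finset.sum_congr rfl fun i _ => by rw [Pi.add_apply, add_mul]

end a6Aux

open a6Aux in
theorem a6 : A6Stmt := by
  intro s p q
  obtain ⟨S, hS⟩ := AddSubmonoid.fg_eqLocusM (lin p) (lin q)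
  set t : Fin S.card → Fin s → ℕ := fun j => ((S.equivFin.symm j : S) : Fin s → ℕ) with ht
  have hr : Set.range t = (S : Set (Fin s → ℕ)) := by
    ext a
    constructor
    · rintro ⟨j, rfl⟩
      exact (S.equivFin.symm j).2
    · intro ha
      refine ⟨S.equivFin ⟨a, ha⟩, ?_⟩
      show ((S.equivFin.symm (S.equivFin ⟨a, ha⟩) : S) : Fin s → ℕ) = a
      rw [Equiv.symm_apply_apply]
  refine ⟨S.card, t, fun j => ?_, fun a ha => ?_⟩
  · have h1 : t j ∈ AddMonoidHom.eqLocusM (lin p) (lin q) := by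
      rw [← hS]
      exact AddSubmonoid.subset_closure (S.equivFin.symm j).2
    exact h1
  · have h1 : a ∈ AddMonoidHom.eqLocusM (lin p) (lin q) := ha
    rw [← hS, ← hr, AddSubmonoid.mem_closure_range_iff_of_fintype] at h1
    exact h1

end Pool.Agent.Lib.MP_410da7_agA
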