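import Pool.Agent.Lib.MP_410da7_agA.SpecA

/-!
# MP_410da7_ag, smooth affine varieties (C46): A7, the slope slightly above the threshold
-/

set_option autoImplicit false

namespace Pool.Agent.Lib.MP_410da7_agA

open KaehlerDifferential WithZero

namespace a7Aux

variable {K : Type} [Field K] [Algebra ℂ K] {n N : ℕ} {Ψ : Ω[K⁄ℂ] [⋀^Fin n]→ₗ[K] K}
  {x : Fin N → K}

theorem pow_mem_sec (ha1 : A1Stmt) {m e : ℕ} {F : K} (hF : F ∈ Sec Ψ x m e) (k : ℕ) :
    F ^ k ∈ Sec Ψ x (k * m) (k * e) := by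
  obtain ⟨h0, h1, hadd, hsmul, hmul, hmono, hx⟩ := ha1 K n N Ψ x
  induction k with
  | zero => rw [zero_mul, zero_mul, pow_zero]; exact h1
  | succ k ih =>
    rw [add_mul, add_mul, one_mul, one_mul, pow_succ]
    exact hmul _ _ _ _ _ ih _ hF

theorem prod_mem_sec (ha1 : A1Stmt) {s : ℕ} {m e : Fin s → ℕ} {g : Fin s → K}
    (hg : ∀ i, g i ∈ Sec Ψ x (m i) (e i)) (a : Fin s → ℕ) (S : Finset (Fin s)) :
    ∏ i ∈ S, g i ^ a i ∈ Sec Ψ x (∑ i ∈ S, a i * m i) (∑ i ∈ S, a i * e i) := by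
  classical
  obtain ⟨h0, h1, hadd, hsmul, hmul, hmono, hx⟩ := ha1 K n N Ψ x
  induction S using Finset.induction_on with
  | empty => simpa using h1
  | insert j S hj ih =>
    rw [Finset.prod_insert hj, Finset.sum_insert hj, Finset.sum_insert hj]
    exact hmul _ _ _ _ _ (pow_mem_sec ha1 (hg j) (a j)) _ ih

theorem val_span {v : Valuation K ℤᵐ⁰} (hv : Triv v) {S : Set K} {C : ℤᵐ⁰}
    (hS : ∀ f ∈ S, v f ≤ C) {f : K} (hf : f ∈ Submodule.span ℂ S) : v f ≤ C := by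
  induction hf using Submodule.span_induction with
  | mem f hf => exact hS f hf
  | zero => rw [map_zero]; exact zero_le
  | add f g _ _ hf hg => exact (v.map_add f g).trans (max_le hf hg)
  | smul c f _ hf =>
    rw [Algebra.smul_def, map_mul]
    by_cases hc : c = 0
    · rw [hc, map_zero, map_zero, zero_mul]
      exact zero_le
    · rw [hv c hc, one_mul]
      exact hf

omit [Algebra ℂ K] in
theorem mon_sum {s r : ℕ} (g : Fin s → K) (c : Fin r → ℕ) (t : Fin r → Fin s → ℕ) :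
    ∏ i, g i ^ ((∑ j, c j • t j) i) = ∏ j, (∏ i, g i ^ t j i) ^ c j := by
  simp_rw [← Finset.prod_pow, ← pow_mul]
  rw [Finset.prod_comm]
  refine Finset.prod_congr rfl fun i _ => ?_
  rw [Finset.prod_pow_eq_pow_sum, Finset.sum_apply]
  congr 1
  refine Finset.sum_congr rfl fun j _ => ?_
  rw [Pi.smul_apply, smul_eq_mul, mul_comm]

theorem deg_sum {s r : ℕ} (m : Fin s → ℕ) (c : Fin r → ℕ) (t : Fin r → Fin s → ℕ) :
    ∑ i, (∑ j, c j • t j) i * m i = ∑ j, c j * ∑ i, t j i * m i := by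
  simp_rw [Finset.sum_apply, Pi.smul_apply, smul_eq_mul, Finset.sum_mul, Finset.mul_sum]
  rw [Finset.sum_comm]
  refine Finset.sum_congr rfl fun i _ => Finset.sum_congr rfl fun j _ => ?_
  ring

/-- An exponent vector whose slope is slightly above the minimal one contains a generator of minimal
slope. -/
theorem exists_min {s : ℕ} (m e : Fin s → ℕ) (m₀ e₀ T' d : ℕ) (hm₀ : 1 ≤ m₀) (hd : 1 ≤ d)
    (hT : ∀ j, m j ≤ T') (hmin : ∀ j, m j * e₀ ≤ e j * m₀) (a : Fin s → ℕ)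
    (h1 : ∑ j, a j * m j = d * (m₀ * (T' + 1))) (h2 : ∑ j, a j * e j = d * (e₀ * (T' + 1) + 1)) :
    ∃ j, 1 ≤ a j ∧ 1 ≤ m j ∧ m j * e₀ = e j * m₀ := by
  by_contra hne
  push Not at hne
  have key : ∀ j, a j * (m j + T' * (m j * e₀)) ≤ a j * (T' * (e j * m₀)) := by
    intro j
    rcases Nat.eq_zero_or_pos (a j) with h | h
    · rw [h, zero_mul, zero_mul]
    · apply Nat.mul_le_mul_left
      rcases Nat.eq_zero_or_pos (m j) with h' | h'
      · rw [h', zero_mul, mul_zero, add_zero]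
        exact Nat.zero_le _
      · have h3 : m j * e₀ + 1 ≤ e j * m₀ := lt_of_le_of_ne (hmin j) (hne j h h')
        calc m j + T' * (m j * e₀) ≤ T' + T' * (m j * e₀) := Nat.add_le_add_right (hT j) _
          _ = T' * (m j * e₀ + 1) := by ring
          _ ≤ _ := Nat.mul_le_mul_left _ h3
  have hsum := Finset.sum_le_sum fun j (_ : j ∈ Finset.univ) => key j
  have e1 : ∑ j, a j * (m j + T' * (m j * e₀)) = (1 + T' * e₀) * ∑ j, a j * m j := by
    rw [Finset.mul_sum]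
    exact Finset.sum_congr rfl fun j _ => by ring
  have e2 : ∑ j, a j * (T' * (e j * m₀)) = (T' * m₀) * ∑ j, a j * e j := by
    rw [Finset.mul_sum]
    exact Finset.sum_congr rfl fun j _ => by ring
  rw [e1, e2, h1, h2] at hsum
  have e3 : (1 + T' * e₀) * (d * (m₀ * (T' + 1))) =
      (T' * m₀) * (d * (e₀ * (T' + 1) + 1)) + d * m₀ := by ring
  have e4 : 0 < d * m₀ := Nat.mul_pos hd hm₀
  omega

theorem gen_val (ha1 : A1Stmt) {m₁ e₁ m' e' d M E : ℕ} (hm' : 1 ≤ m') (h1 : m₁ = d * m')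
    (h2 : e₁ = d * e') (hd : 1 ≤ M → M ∣ d) (hME : E * m' = M * e') {v : Valuation K ℤᵐ⁰}
    (hv : Triv v) {b₁ F : K} (hmax : ∀ b ∈ Sec Ψ x m₁ e₁, v b ≤ v b₁) (hF : F ∈ Sec Ψ x M E) :
    v F ^ m₁ ≤ v b₁ ^ M := by
  rcases Nat.eq_zero_or_pos M with hM | hM
  · rw [hM, zero_mul] at hME
    have hE : E = 0 := by
      rcases Nat.mul_eq_zero.1 hME with h | h
      · exact h
      · omega
    rw [hM, hE] at hF
    obtain ⟨θ, -, h⟩ := hF v hv
    rw [pow_zero, pow_zero, mul_one] at h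
    rw [hM, pow_zero]
    exact pow_le_one₀ zero_le h
  · obtain ⟨q, hq⟩ := hd hM
    have h5 : q * m' * M = m₁ := by rw [h1, hq]; ring
    have h6 : q * m' * E = e₁ := by
      rw [h2, hq]
      calc q * m' * E = q * (E * m') := by ring
        _ = q * (M * e') := by rw [hME]
        _ = M * q * e' := by ring
    have h3 : F ^ (q * m') ∈ Sec Ψ x m₁ e₁ := by
      have h4 := pow_mem_sec ha1 hF (q * m')
      rwa [h5, h6] at h4
    calc v F ^ m₁ = v (F ^ (q * m')) ^ M := by rw [← h5, pow_mul, map_pow]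
      _ ≤ _ := pow_le_pow_left₀ zero_le (hmax _ h3) _

theorem int_aux (ha1 : A1Stmt) {s : ℕ} {m e : Fin s → ℕ} {g : Fin s → K}
    (hG : Gens Ψ x s m e g) {r : ℕ} {t : Fin r → Fin s → ℕ} {m₁ e₁ m' e' d : ℕ} (hm' : 1 ≤ m')
    (hm₁ : 1 ≤ m₁) (h1 : m₁ = d * m') (h2 : e₁ = d * e')
    (hd : ∀ j, 1 ≤ ∑ i, t j i * m i → (∑ i, t j i * m i) ∣ d)
    (ht : ∀ j, (∑ i, t j i * e i) * m' = (∑ i, t j i * m i) * e')
    (htgen : ∀ a : Fin s → ℕ, (∑ i, a i * e i) * m' = (∑ i, a i * m i) * e' →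
      ∃ c : Fin r → ℕ, a = ∑ j, c j • t j)
    {v : Valuation K ℤᵐ⁰} (hv : Triv v) {b₁ : K} (hmax : ∀ b ∈ Sec Ψ x m₁ e₁, v b ≤ v b₁)
    (k : ℕ) {b : K} (hb : b ∈ Sec Ψ x (k * m₁) (k * e₁)) : v b ≤ v b₁ ^ k := by
  refine val_span hv ?_ (hG.span _ _ b hb)
  rintro _ ⟨a, ha, ha', rfl⟩
  obtain ⟨c, hc⟩ := htgen a (by rw [ha, ha', h1, h2]; ring)
  have h4 : v (∏ i, g i ^ a i) ^ m₁ ≤ (v b₁ ^ k) ^ m₁ := by
    calc v (∏ i, g i ^ a i) ^ m₁ = ∏ j, v ((∏ i, g i ^ t j i) ^ c j) ^ m₁ := by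
          rw [hc, mon_sum, map_prod, ← Finset.prod_pow]
      _ ≤ ∏ j, v b₁ ^ (c j * ∑ i, t j i * m i) := by
          refine Finset.prod_le_prod' fun j _ => ?_
          rw [map_pow, ← pow_mul, mul_comm (c j) m₁, pow_mul, mul_comm (c j), pow_mul]
          exact pow_le_pow_left₀ zero_le (gen_val ha1 hm' h1 h2 (hd j) (ht j) hv hmax
            (prod_mem_sec ha1 hG.mem (t j) Finset.univ)) _
      _ = v b₁ ^ (∑ j, c j * ∑ i, t j i * m i) := by rw [Finset.prod_pow_eq_pow_sum]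
      _ = (v b₁ ^ k) ^ m₁ := by rw [← deg_sum, ← hc, ha, pow_mul]
  exact le_of_pow_le_pow_left₀ (by omega) zero_le h4

theorem fin_aux (ha0 : A0Stmt) (ha1 : A1Stmt) (hS : Sit Ψ x) {s : ℕ} {m e : Fin s → ℕ}
    {g : Fin s → K} (hG : Gens Ψ x s m e g) (m₁ e₁ : ℕ) :
    ∃ (s' : ℕ) (b : Fin s' → K), (∀ i, b i ∈ Sec Ψ x m₁ e₁) ∧ (∀ i, b i ≠ 0) ∧
      Sec Ψ x m₁ e₁ ⊆ Submodule.span ℂ (Set.range b) := by
  classical
  have hfin : {f : K | ∃ a : Fin s → ℕ, (∀ i, a i ≤ m₁ + e₁) ∧ ∑ i, a i * m i = m₁ ∧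
      ∑ i, a i * e i = e₁ ∧ f = ∏ i, g i ^ a i}.Finite := by
    refine (Set.finite_range fun a : Fin s → Fin (m₁ + e₁ + 1) =>
      ∏ i, g i ^ (a i : ℕ)).subset ?_
    rintro _ ⟨a, ha, -, -, rfl⟩
    exact ⟨fun i => ⟨a i, Nat.lt_succ_of_le (ha i)⟩, rfl⟩
  obtain ⟨s', b, -, hb⟩ := hfin.fin_param
  refine ⟨s', b, ?_, ?_, ?_⟩
  · intro i
    have hi : b i ∈ Set.range b := ⟨i, rfl⟩
    rw [hb] at hi
    obtain ⟨a, -, h1, h2, h⟩ := hi
    rw [h, ← h1, ← h2]
    exact prod_mem_sec ha1 hG.mem a _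
  · intro i
    have hi : b i ∈ Set.range b := ⟨i, rfl⟩
    rw [hb] at hi
    obtain ⟨a, -, h1, h2, h⟩ := hi
    rw [h]
    exact Finset.prod_ne_zero_iff.2 fun j _ => pow_ne_zero _ (hG.ne j)
  · intro f hf
    rw [hb]
    refine Submodule.span_le.2 ?_ (hG.span _ _ f hf)
    rintro _ ⟨a, h1, h2, rfl⟩
    have hc : ∀ i, ∃ c : ℂ, m i = 0 ∧ e i = 0 → g i = algebraMap ℂ K c := by
      intro i
      by_cases h : m i = 0 ∧ e i = 0
      · have h3 := hG.mem i
        rw [h.1, h.2] at h3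
        obtain ⟨c, hc⟩ := ha0 K n N Ψ x hS _ h3
        exact ⟨c, fun _ => hc⟩
      · exact ⟨0, fun h' => absurd h' h⟩
    choose c hc using hc
    have hprod : ∏ i, g i ^ a i = (∏ i, if m i = 0 ∧ e i = 0 then c i ^ a i else 1) •
        ∏ i, g i ^ (if m i = 0 ∧ e i = 0 then 0 else a i) := by
      rw [Algebra.smul_def, map_prod, ← Finset.prod_mul_distrib]
      refine Finset.prod_congr rfl fun i _ => ?_
      split_ifs with h
      · rw [hc i h, map_pow, pow_zero, mul_one]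
      · rw [map_one, one_mul]
    rw [hprod]
    refine Submodule.smul_mem _ _ (Submodule.subset_span
      ⟨fun i => if m i = 0 ∧ e i = 0 then 0 else a i, ?_, ?_, ?_, rfl⟩)
    · intro i
      by_cases h : m i = 0 ∧ e i = 0
      · simp only [if_pos h]
        exact Nat.zero_le _
      · simp only [if_neg h]
        have h3 : a i * m i ≤ m₁ := by
          rw [← h1]
          exact Finset.single_le_sum (f := fun i => a i * m i) (fun _ _ => Nat.zero_le _)
            (Finset.mem_univ i)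
        have h4 : a i * e i ≤ e₁ := by
          rw [← h2]
          exact Finset.single_le_sum (f := fun i => a i * e i) (fun _ _ => Nat.zero_le _)
            (Finset.mem_univ i)
        have h5 : 1 ≤ m i + e i := by omega
        calc a i = a i * 1 := (mul_one _).symm
          _ ≤ a i * (m i + e i) := Nat.mul_le_mul_left _ h5
          _ = a i * m i + a i * e i := mul_add _ _ _
          _ ≤ m₁ + e₁ := Nat.add_le_add h3 h4
    · rw [← h1]
      refine Finset.sum_congr rfl fun i _ => ?_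
      dsimp only
      split_ifs with h
      · rw [h.1, mul_zero, mul_zero]
      · rfl
    · rw [← h2]
      refine Finset.sum_congr rfl fun i _ => ?_
      dsimp only
      split_ifs with h
      · rw [h.2, mul_zero, mul_zero]
      · rfl

theorem split_aux (ha1 : A1Stmt) {s : ℕ} {m e : Fin s → ℕ} {g : Fin s → K}
    (hG : Gens Ψ x s m e g) {m₀ e₀ m₁ e₁ : ℕ}
    (hex : ∀ a : Fin s → ℕ, ∑ j, a j * m j = m₁ → ∑ j, a j * e j = e₁ →
      ∃ j, 1 ≤ a j ∧ 1 ≤ m j ∧ m j * e₀ = e j * m₀) {b : K} (hb : b ∈ Sec Ψ x m₁ e₁) :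
    b ∈ Submodule.span ℂ {f : K | ∃ m' e' m'' e'' : ℕ, 1 ≤ m' ∧ m' * e₀ = e' * m₀ ∧
      m' + m'' = m₁ ∧ e' + e'' = e₁ ∧ ∃ a ∈ Sec Ψ x m' e', ∃ c ∈ Sec Ψ x m'' e'',
      f = a * c} := by
  classical
  refine Submodule.span_mono ?_ (hG.span _ _ b hb)
  rintro _ ⟨a, h1, h2, rfl⟩
  obtain ⟨j, hj, hmj, hje⟩ := hex a h1 h2
  have key : ∀ q : Fin s → ℕ,
      q j + ∑ i, (Function.update a j (a j - 1)) i * q i = ∑ i, a i * q i := by
    intro q
    rw [← Finset.add_sum_erase _ _ (Finset.mem_univ j), ← Finset.add_sum_erase _ _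
      (Finset.mem_univ j), ← add_assoc]
    congr 1
    · rw [Function.update_self]
      obtain ⟨q', hq'⟩ := Nat.exists_eq_add_of_le hj
      rw [hq', Nat.add_sub_cancel_left]
      ring
    · refine Finset.sum_congr rfl fun i hi => ?_
      rw [Function.update_of_ne (Finset.ne_of_mem_erase hi)]
  refine ⟨m j, e j, ∑ i, (Function.update a j (a j - 1)) i * m i,
    ∑ i, (Function.update a j (a j - 1)) i * e i, hmj, hje, (key m).trans h1, (key e).trans h2,
    g j, hG.mem j, _, prod_mem_sec ha1 hG.mem (Function.update a j (a j - 1)) Finset.univ, ?_⟩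
  rw [← Finset.mul_prod_erase _ _ (Finset.mem_univ j), ← Finset.mul_prod_erase _ _
    (Finset.mem_univ j), ← mul_assoc]
  congr 1
  · rw [Function.update_self, ← pow_succ']
    congr 1
    omega
  · refine Finset.prod_congr rfl fun i hi => ?_
    rw [Function.update_of_ne (Finset.ne_of_mem_erase hi)]

end a7Aux

open a7Aux in
theorem a7 (ha0 : A0Stmt) (ha1 : A1Stmt) (ha6 : A6Stmt) : A7Stmt := by
  classical
  intro K _ _ n N Ψ x s m e g i hS hG hm₀ he₀ hmin
  obtain ⟨h0, h1, hadd, hsmul, hmul, hmono, hx⟩ := ha1 K n N Ψ x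
  set T' : ℕ := ∑ j, m j with hT'
  have hT : ∀ j, m j ≤ T' := fun j =>
    Finset.single_le_sum (f := m) (fun _ _ => Nat.zero_le _) (Finset.mem_univ j)
  set m' : ℕ := m i * (T' + 1) with hm'
  set e' : ℕ := e i * (T' + 1) + 1 with he'
  have hm'1 : 1 ≤ m' := Nat.mul_pos hm₀ (Nat.succ_pos _)
  obtain ⟨r, t, ht, htgen⟩ := ha6 s (fun j => e j * m') (fun j => m j * e')
  have hconv : ∀ (a : Fin s → ℕ) (q : Fin s → ℕ) (w : ℕ),
      ∑ j, a j * (q j * w) = (∑ j, a j * q j) * w := by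
    intro a q w
    rw [Finset.sum_mul]
    exact Finset.sum_congr rfl fun j _ => (mul_assoc _ _ _).symm
  set d : ℕ := ∏ j, (if 1 ≤ ∑ i, t j i * m i then ∑ i, t j i * m i else 1) with hd
  have hd1 : 1 ≤ d := by
    refine Nat.one_le_iff_ne_zero.2 (Finset.prod_ne_zero_iff.2 fun j _ => ?_)
    split_ifs with h
    · omega
    · exact one_ne_zero
  have hm₁ : 1 ≤ d * m' := Nat.mul_pos hd1 hm'1
  refine ⟨d * m', d * e', ?_⟩
  refine { m0 := hm₀, e0 := he₀, m1 := hm₁, mem := hG.mem i, ne := hG.ne i, min := hmin,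
           int := ?_, split := ?_, fin := fin_aux ha0 ha1 hS hG _ _, coord := ?_ }
  · intro v hv b₁ _ hmax k b hb
    refine int_aux ha1 hG hm'1 hm₁ rfl rfl ?_ ?_ ?_ hv hmax k hb (t := t)
    · intro j hj
      have h := Finset.dvd_prod_of_mem (fun j => if 1 ≤ ∑ i, t j i * m i then ∑ i, t j i * m i
        else 1) (Finset.mem_univ j)
      simp only [if_pos hj] at h
      exact h
    · intro j
      have h := ht j
      rw [hconv, hconv] at h
      exact h
    · intro a ha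
      apply htgen
      rw [hconv, hconv]
      exact ha
  · intro b hb
    refine split_aux ha1 hG ?_ hb
    intro a h3 h4
    exact exists_min m e (m i) (e i) T' d hm₀ hd1 hT (fun j => hmin _ _ _ (hG.mem j) (hG.ne j)) a
      h3 h4
  · have h3 := pow_mem_sec ha1 (hG.mem i) (d * (T' + 1))
    have h4 : d * (T' + 1) * m i = d * m' := by rw [hm']; ring
    rw [h4] at h3
    have h5 : d * (T' + 1) * e i + d = d * e' := by rw [he']; ring
    refine ⟨g i ^ (d * (T' + 1)), hmono _ _ _ ?_ h3, pow_ne_zero _ (hG.ne i), fun l =>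
      hmono _ _ _ ?_ (hx _ _ l _ h3)⟩
    · omega
    · omega

end Pool.Agent.Lib.MP_410da7_agA
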