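import Pool.Agent.Lib.MP_410da7_agA.SpecA

/-!
# MP_410da7_ag, smooth affine varieties (C46): A8, the functions of minimal slope are a field
-/

set_option autoImplicit false

namespace Pool.Agent.Lib.MP_410da7_agA

open KaehlerDifferential WithZero

theorem a8 (ha1 : A1Stmt) : A8Stmt := by
  intro K _ _ n N Ψ x m₀ e₀
  obtain ⟨h0, h1, hadd, hsmul, hmul, hmono, hx⟩ := ha1 K n N Ψ x
  have hm : ∀ {m e m' e' : ℕ}, m * e₀ = e * m₀ → m' * e₀ = e' * m₀ →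
      (m + m') * e₀ = (e + e') * m₀ := by
    intro m e m' e' h h'
    rw [add_mul, add_mul, h, h']
  refine ⟨{
    carrier := Qset Ψ x m₀ e₀
    mul_mem' := ?_
    one_mem' := ?_
    add_mem' := ?_
    zero_mem' := ?_
    algebraMap_mem' := ?_
    inv_mem' := ?_ }, rfl⟩
  · rintro _ _ ⟨m, e, h, a, ha, b, hb, hb0, rfl⟩ ⟨m', e', h', a', ha', b', hb', hb0', rfl⟩
    exact ⟨m + m', e + e', hm h h', a * a', hmul _ _ _ _ _ ha _ ha', b * b', hmul _ _ _ _ _ hb _ hb',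
      mul_ne_zero hb0 hb0', div_mul_div_comm _ _ _ _⟩
  · exact ⟨0, 0, by simp, 1, h1, 1, h1, one_ne_zero, (div_one 1).symm⟩
  · rintro _ _ ⟨m, e, h, a, ha, b, hb, hb0, rfl⟩ ⟨m', e', h', a', ha', b', hb', hb0', rfl⟩
    exact ⟨m + m', e + e', hm h h', a * b' + b * a', hadd _ _ _ (hmul _ _ _ _ _ ha _ hb') _
      (hmul _ _ _ _ _ hb _ ha'), b * b', hmul _ _ _ _ _ hb _ hb',
      mul_ne_zero hb0 hb0', div_add_div _ _ hb0 hb0'⟩
  · exact ⟨0, 0, by simp, 0, h0 _ _, 1, h1, one_ne_zero, (div_one 0).symm⟩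
  · intro c
    refine ⟨0, 0, by simp, c • (1 : K), hsmul _ _ _ h1 c, 1, h1, one_ne_zero, ?_⟩
    rw [div_one, Algebra.smul_def, mul_one]
  · rintro _ ⟨m, e, h, a, ha, b, hb, hb0, rfl⟩
    by_cases ha0 : a = 0
    · exact ⟨m, e, h, 0, h0 _ _, b, hb, hb0, by rw [ha0, zero_div, inv_zero]⟩
    · exact ⟨m, e, h, b, hb, a, ha, ha0, inv_div _ _⟩

end Pool.Agent.Lib.MP_410da7_agA
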