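import Pool.Agent.Lib.MP_410da7_agA.SpecA

/-!
# MP_410da7_ag, smooth affine varieties (C46), statement A9: `trdeg Q < n`
-/

set_option autoImplicit false

namespace Pool.Agent.Lib.MP_410da7_agA

open MvPolynomial KaehlerDifferential WithZero Module

namespace a9Aux

variable {K : Type} [Field K] [Algebra ℂ K] {n N : ℕ} {Ψ : Ω[K⁄ℂ] [⋀^Fin n]→ₗ[K] K}
  {x : Fin N → K}

/-- powers of a section -/
theorem pow_mem (h : A1Stmt) {m e : ℕ} {F : K} (hF : F ∈ Sec Ψ x m e) (k : ℕ) :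
    F ^ k ∈ Sec Ψ x (k * m) (k * e) := by
  obtain ⟨-, h1, -, -, hmul, -, -⟩ := h K n N Ψ x
  induction k with
  | zero =>
    rw [pow_zero, zero_mul, zero_mul]
    exact h1
  | succ k ih =>
    rw [pow_succ, Nat.succ_mul, Nat.succ_mul]
    exact hmul _ _ _ _ _ ih _ hF

/-- a common denominator -/
theorem denom (h : A1Stmt) {m₀ e₀ : ℕ} (q : ℕ → K) (hq : ∀ i, q i ∈ Qset Ψ x m₀ e₀)
    (s : Finset ℕ) : ∃ m e : ℕ, m * e₀ = e * m₀ ∧ ∃ B ∈ Sec Ψ x m e, B ≠ 0 ∧
      ∀ i ∈ s, q i * B ∈ Sec Ψ x m e := by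
  classical
  obtain ⟨-, h1, -, -, hmul, -, -⟩ := h K n N Ψ x
  induction s using Finset.induction_on with
  | empty =>
    exact ⟨0, 0, by simp, 1, h1, one_ne_zero, fun i hi => absurd hi (Finset.notMem_empty i)⟩
  | insert i s _ ih =>
    obtain ⟨m, e, hme, B, hB, hB0, hs⟩ := ih
    obtain ⟨m', e', hme', a, ha, b, hb, hb0, hab⟩ := hq i
    refine ⟨m + m', e + e', by rw [add_mul, add_mul, hme, hme'], B * b, hmul _ _ _ _ _ hB _ hb,
      mul_ne_zero hB0 hb0, fun j hj => ?_⟩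
    rcases Finset.mem_insert.1 hj with rfl | hj
    · have : q j * (B * b) = B * a := by
        rw [hab]
        field_simp
      rw [this]
      exact hmul _ _ _ _ _ hB _ ha
    · have : q j * (B * b) = (q j * B) * b := by ring
      rw [this]
      exact hmul _ _ _ _ _ (hs j hj) _ hb

/-- one coordinate -/
theorem coord (ha1 : A1Stmt) (ha3 : A3Stmt) {m₀ e₀ : ℕ} (p : Polynomial K) (hp : p ≠ 0)
    (hq : ∀ i, p.coeff i ∈ Qset Ψ x m₀ e₀) (y : K) (hy : p.eval y = 0) :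
    ∃ m e : ℕ, m * e₀ = e * m₀ ∧ ∃ c ∈ Sec Ψ x m e, c ≠ 0 ∧ c * y ∈ Sec Ψ x m e := by
  obtain ⟨m, e, hme, B, hB, hB0, hs⟩ := denom ha1 p.coeff hq (Finset.range (p.natDegree + 1))
  obtain ⟨-, h1, -, hsm, hmul, -, -⟩ := ha1 K n N Ψ x
  have hlc : p.coeff p.natDegree ≠ 0 := Polynomial.leadingCoeff_ne_zero.2 hp
  have hd : 1 ≤ p.natDegree := by
    by_contra hcon
    have h0 : p.natDegree = 0 := by omega
    rw [Polynomial.eq_C_of_natDegree_eq_zero h0, Polynomial.eval_C] at hy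
    rw [h0] at hlc
    exact hlc hy
  have hc : p.coeff p.natDegree * B ∈ Sec Ψ x m e :=
    hs _ (Finset.mem_range.2 (Nat.lt_succ_self _))
  refine ⟨m, e, hme, p.coeff p.natDegree * B, hc, mul_ne_zero hlc hB0, ?_⟩
  refine ha3 K n N Ψ x m e p.natDegree _
    (fun i => (-1 : ℂ) • ((p.coeff i * B) * (p.coeff p.natDegree * B) ^ (p.natDegree - 1 - i)))
    hd (fun i => ?_) ?_
  · refine hsm _ _ _ ?_ _
    have h2 := hmul _ _ _ _ _ (hs i (Finset.mem_range.2 (i.2.trans (Nat.lt_succ_self _)))) _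
      (pow_mem ha1 hc (p.natDegree - 1 - i))
    have h3 : (p.natDegree - (i : ℕ)) = (p.natDegree - 1 - i) + 1 := by
      have := i.2
      omega
    rw [h3, add_mul, add_mul, one_mul, one_mul, add_comm _ m, add_comm _ e]
    exact h2
  · set d := p.natDegree with hdd
    set c := p.coeff d * B with hcc
    have h4 : ∑ i ∈ Finset.range (d + 1), p.coeff i * y ^ i = 0 := by
      rw [← Polynomial.eval_eq_sum_range]
      exact hy
    rw [Finset.sum_range_succ] at h4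
    have h5 : (c * y) ^ d = - ∑ i ∈ Finset.range d, (p.coeff i * B) * c ^ (d - 1) * y ^ i := by
      have e1 : (c * y) ^ d = c ^ (d - 1) * B * (p.coeff d * y ^ d) := by
        have : c ^ d = c ^ (d - 1) * c := by
          rw [← pow_succ]
          congr 1
          omega
        rw [mul_pow, this, hcc]
        ring
      rw [e1, eq_neg_of_add_eq_zero_right h4, mul_neg, Finset.mul_sum]
      congr 1
      refine Finset.sum_congr rfl fun i _ => ?_
      ring
    rw [h5, ← Finset.sum_neg_distrib, Finset.sum_range]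
    refine Finset.sum_congr rfl fun i _ => ?_
    have h6 : c ^ (d - 1) = c ^ (d - 1 - (i : ℕ)) * c ^ (i : ℕ) := by
      rw [← pow_add]
      congr 1
      have := i.2
      omega
    rw [h6, neg_one_smul, mul_pow]
    ring

/-- all coordinates -/
theorem coords (ha1 : A1Stmt) {m₀ e₀ : ℕ} {a₀ : K} (hm₀ : 1 ≤ m₀) (ha₀ : a₀ ∈ Sec Ψ x m₀ e₀)
    (ha : a₀ ≠ 0) (h : ∀ l, ∃ m e : ℕ, m * e₀ = e * m₀ ∧ ∃ c ∈ Sec Ψ x m e, c ≠ 0 ∧
      c * x l ∈ Sec Ψ x m e) (s : Finset (Fin N)) :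
    ∃ m e : ℕ, 1 ≤ m ∧ m * e₀ = e * m₀ ∧ ∃ c ∈ Sec Ψ x m e, c ≠ 0 ∧
      ∀ l ∈ s, c * x l ∈ Sec Ψ x m e := by
  classical
  obtain ⟨-, h1, -, -, hmul, -, -⟩ := ha1 K n N Ψ x
  induction s using Finset.induction_on with
  | empty =>
    exact ⟨m₀, e₀, hm₀, mul_comm _ _, a₀, ha₀, ha, fun i hi => absurd hi (Finset.notMem_empty i)⟩
  | insert i s _ ih =>
    obtain ⟨m, e, hm, hme, c, hc, hc0, hs⟩ := ih
    obtain ⟨m', e', hme', c', hc', hc0', hl⟩ := h i
    refine ⟨m + m', e + e', by omega, by rw [add_mul, add_mul, hme, hme'], c * c',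
      hmul _ _ _ _ _ hc _ hc', mul_ne_zero hc0 hc0', fun j hj => ?_⟩
    rcases Finset.mem_insert.1 hj with rfl | hj
    · rw [mul_assoc]
      exact hmul _ _ _ _ _ hc _ hl
    · have : c * c' * x j = (c * x j) * c' := by ring
      rw [this]
      exact hmul _ _ _ _ _ (hs j hj) _ hc'

/-- dividing by the size -/
theorem down {m e : ℕ} (he : 1 ≤ e) {c : K} (hc : c ∈ Sec Ψ x m e)
    (hl : ∀ l, c * x l ∈ Sec Ψ x m e) : c ∈ Sec Ψ x m (e - 1) := by
  intro v hv
  have hsz : size x v = 1 ∨ ∃ l, v (x l) = size x v := by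
    unfold size
    rcases le_total (Finset.univ.sup fun l => v (x l)) 1 with h | h
    · exact Or.inl (sup_eq_right.2 h)
    · right
      rw [sup_eq_left.2 h]
      by_cases hne : (Finset.univ : Finset (Fin N)).Nonempty
      · obtain ⟨l, -, hl'⟩ := Finset.exists_mem_eq_sup Finset.univ hne fun l => v (x l)
        exact ⟨l, hl'.symm⟩
      · rw [Finset.not_nonempty_iff_eq_empty] at hne
        rw [hne, Finset.sup_empty] at h
        exact absurd (le_bot_iff.1 h) (by simp)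
  have hs0 : size x v ≠ 0 := by
    have : (1 : ℤᵐ⁰) ≤ size x v := le_sup_right
    exact (lt_of_lt_of_le zero_lt_one this).ne'
  rcases hsz with h1 | ⟨l, hl'⟩
  · obtain ⟨θ, hθ, h2⟩ := hc v hv
    refine ⟨θ, hθ, ?_⟩
    rw [h1, one_pow] at h2 ⊢
    exact h2
  · obtain ⟨θ, hθ, h2⟩ := hl l v hv
    refine ⟨θ, hθ, ?_⟩
    rw [map_mul, hl'] at h2
    have h3 : size x v ^ e = size x v ^ (e - 1) * size x v := by
      rw [← pow_succ]
      congr 1
      omega
    rw [h3] at h2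
    have h4 : size x v ^ (e - 1) * size x v * v (Ψ θ) ^ m =
        (size x v ^ (e - 1) * v (Ψ θ) ^ m) * size x v := by
      rw [mul_assoc, mul_comm (size x v) (v (Ψ θ) ^ m), ← mul_assoc]
    rw [h4] at h2
    exact le_of_mul_le_mul_right h2 (zero_lt_iff.2 hs0)

end a9Aux

open a9Aux in
/-- A9. `trdeg Q < n`. -/
theorem a9 (ha1 : A1Stmt) (ha3 : A3Stmt) : A9Stmt := by
  intro K _ _ n N Ψ x m₀ e₀ a₀ hS hm₀ he₀ ha₀ ha hmin Q hQ
  by_contra hcon
  push Not at hcon
  have hadd : Algebra.trdeg ℂ Q + Algebra.trdeg Q K = Algebra.trdeg ℂ K := trdeg_add_eq ℂ Q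
  have hle : Algebra.trdeg ℂ Q ≤ Algebra.trdeg ℂ K := by
    rw [← hadd]
    exact self_le_add_right _ _
  have heq : Algebra.trdeg ℂ Q = Algebra.trdeg ℂ K := le_antisymm hle hcon
  have h0 : Algebra.trdeg Q K = 0 := by
    rw [heq, hS.trdeg] at hadd
    have h1 : (n : Cardinal) + Algebra.trdeg Q K = (n : Cardinal) + 0 := by rw [hadd, add_zero]
    exact Cardinal.eq_of_add_eq_add_left h1 (Cardinal.natCast_lt_aleph0)
  have halg : Algebra.IsAlgebraic Q K := trdeg_eq_zero_iff.1 h0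
  have hc : ∀ l, ∃ m e : ℕ, m * e₀ = e * m₀ ∧ ∃ c ∈ Sec Ψ x m e, c ≠ 0 ∧
      c * x l ∈ Sec Ψ x m e := by
    intro l
    obtain ⟨p, hp, hpx⟩ := halg.isAlgebraic (x l)
    refine coord ha1 ha3 (p.map (algebraMap Q K))
      ((Polynomial.map_ne_zero_iff (algebraMap Q K).injective).2 hp) (fun i => ?_) (x l) ?_
    · rw [Polynomial.coeff_map, ← hQ]
      exact (p.coeff i).2
    · rw [Polynomial.eval_map_algebraMap]
      exact hpx
  obtain ⟨m, e, hm, hme, c, hcS, hc0, hl⟩ := coords ha1 hm₀ ha₀ ha hc Finset.univ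
  have he : 1 ≤ e := by
    rcases Nat.eq_zero_or_pos e with h | h
    · rw [h, zero_mul] at hme
      rcases Nat.mul_eq_zero.1 hme with h1 | h1 <;> omega
    · exact h
  have h2 := hmin m (e - 1) c (down he hcS fun l => hl l (Finset.mem_univ l)) hc0
  have h3 : (e - 1) * m₀ + m₀ = e * m₀ := by
    rw [← Nat.succ_mul]
    congr 1
    omega
  omega

end Pool.Agent.Lib.MP_410da7_agA
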