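import Pool.Agent.Lib.MP_410da7_agA.SpecA

/-!
# MP_410da7_ag, C46: ABC, the negative curve (end of the blocks A, B, C)
-/

set_option autoImplicit false

namespace Pool.Agent.Lib.MP_410da7_agA

open MvPolynomial KaehlerDifferential WithZero Module
open Pool.Agent.Lib.MP_410da7_ag (regDiff logDiff)

namespace abcAux

variable {K : Type} [Field K] [Algebra ℂ K] {n N : ℕ}

theorem triv_le {v : Valuation K ℤᵐ⁰} (h : Triv v) (c : ℂ) : v (algebraMap ℂ K c) ≤ 1 := by
  by_cases hc : c = 0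
  · rw [hc, map_zero, map_zero]
    exact zero_le
  · rw [h c hc]

/-- the value of an element of the span of a family is bounded by the largest value -/
theorem span_le {v : Valuation K ℤᵐ⁰} (h : Triv v) {S : Set K} {T : ℤᵐ⁰} (hS : ∀ s ∈ S, v s ≤ T)
    {f : K} (hf : f ∈ Submodule.span ℂ S) : v f ≤ T := by
  induction hf using Submodule.span_induction with
  | mem y hy => exact hS y hy
  | zero => rw [map_zero]; exact zero_le
  | add y z _ _ hy hz => exact (v.map_add y z).trans (max_le hy hz)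
  | smul c y _ hy =>
    rw [Algebra.smul_def, map_mul]
    exact (mul_le_mul' (triv_le h c) hy).trans (by rw [one_mul])

omit [Algebra ℂ K] in
theorem size_triv {x : Fin N → K} {v : Valuation K ℤᵐ⁰} (h : ∀ f : K, v f ≤ 1) : size x v = 1 := by
  unfold size
  exact sup_eq_right.2 (Finset.sup_le fun l _ => h _)

theorem gen_div {x : Fin N → K} {s : ℕ} {b : Fin (s + 1) → K} (hb0 : ∀ j, b j ≠ 0)
    (hx : IntermediateField.adjoin ℂ (Set.range x) = ⊤) {c₀ : K} (hc0 : c₀ ≠ 0)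
    (hc : c₀ ∈ Submodule.span ℂ (Set.range b)) (hcx : ∀ l, x l * c₀ ∈ Submodule.span ℂ (Set.range b)) :
    IntermediateField.adjoin ℂ (Set.range fun j => b j / b 0) = ⊤ := by
  have key : ∀ f ∈ Submodule.span ℂ (Set.range b),
      f / b 0 ∈ IntermediateField.adjoin ℂ (Set.range fun j => b j / b 0) := by
    intro f hf
    induction hf using Submodule.span_induction with
    | mem y hy =>
      obtain ⟨j, rfl⟩ := hy
      exact IntermediateField.subset_adjoin _ _ ⟨j, rfl⟩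
    | zero => rw [zero_div]; exact zero_mem _
    | add y z _ _ hy hz => rw [add_div]; exact add_mem hy hz
    | smul c y _ hy =>
      rw [smul_div_assoc]
      exact IntermediateField.smul_mem _ hy
  rw [eq_top_iff, ← hx, IntermediateField.adjoin_le_iff]
  rintro _ ⟨l, rfl⟩
  have h1 : x l = (x l * c₀ / b 0) / (c₀ / b 0) := by
    have := hb0 0
    field_simp
  rw [h1]
  exact div_mem (key _ (hcx l)) (key _ hc)

end abcAux

theorem abc (a1 : A1Stmt) (a2 : A2Stmt) (a4 : A4Stmt) (a5 : A5Stmt) (a7 : A7Stmt) (a8 : A8Stmt)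
    (a9 : A9Stmt) (b6 : B6Stmt) (c3 : C3Stmt) (c4 : C4Stmt) (c5 : C5Stmt) (c6 : C6Stmt) :
    ABCStmt := by
  intro K _ _ n N Ψ x S hfg hneg
  obtain ⟨s, m, e, g, hG⟩ := a2 K n N Ψ x hfg
  obtain ⟨i, hm, he, hmin⟩ := a5 K n N Ψ x s m e g S hG (a4 K n N Ψ x S) hneg
  obtain ⟨m₁, e₁, hT⟩ := a7 K n N Ψ x s m e g i S hG hm he hmin
  obtain ⟨Q, hQ⟩ := a8 K n N Ψ x (m i) (e i)
  have hQn := a9 K n N Ψ x (m i) (e i) (g i) S hm he hT.mem hT.ne hmin Q hQ
  have hn : 1 ≤ n := by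
    rcases Nat.eq_zero_or_pos n with h | h
    · rw [S.trdeg, h, Nat.cast_zero] at hQn
      exact absurd hQn (not_lt.2 zero_le)
    · exact h
  obtain ⟨s', b, hb, hb0, hbs⟩ := hT.fin
  obtain ⟨c₀, hc, hc0, hcx⟩ := hT.coord
  obtain ⟨s'', rfl⟩ : ∃ k, s' = k + 1 := by
    rcases s' with _ | k
    · exfalso
      have h1 := hbs hc
      rw [Set.range_eq_empty, Submodule.span_empty] at h1
      exact hc0 ((Submodule.mem_bot ℂ).1 h1)
    · exact ⟨k, rfl⟩
  have hgen := abcAux.gen_div hb0 S.gen hc0 (hbs hc) fun l => hbs (hcx l)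
  obtain ⟨ρ, L, Λ, iL, iΛ, i1, i2, i3, i4, i5, i6, u, hC, htr⟩ :=
    c3 K Q n N s'' x b hb0 S.trdeg S.gen hQn hgen
  have main : ∀ w : Valuation Λ ℤᵐ⁰, (∀ c : L, c ≠ 0 → w (algebraMap L Λ c) = 1) →
      (NoZero Ψ x (m i) (e i) (g i) (w.comap (algebraMap K Λ))) ∧
      (¬ Cent x (w.comap (algebraMap K Λ)) →
        ∃ t : Fin (n - 1) → K, ResIndep (w.comap (algebraMap K Λ)) t) := by
    intro w hw
    have hv : Triv (w.comap (algebraMap K Λ)) := by
      intro c hc
      rw [Valuation.comap_apply, ← IsScalarTower.algebraMap_apply ℂ K Λ,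
        IsScalarTower.algebraMap_apply ℂ L Λ]
      exact hw _ (by rwa [Ne, map_eq_zero])
    have hvQ : ∀ q ∈ Qset Ψ x (m i) (e i), q ≠ 0 → (w.comap (algebraMap K Λ)) q = 1 := by
      intro q hq hq0
      rw [← hQ] at hq
      obtain ⟨c, hc⟩ := hC.q q hq
      rw [Valuation.comap_apply, ← hc]
      refine hw c fun h => hq0 ?_
      rw [h, map_zero] at hc
      exact (map_eq_zero (algebraMap K Λ)).1 hc.symm
    by_cases htriv : ∀ f : K, f ≠ 0 → (w.comap (algebraMap K Λ)) f = 1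
    · have h1 : ∀ f : K, (w.comap (algebraMap K Λ)) f ≤ 1 := fun f => by
        by_cases hf : f = 0
        · rw [hf, map_zero]; exact zero_le
        · exact (htriv f hf).le
      refine ⟨fun θ _ => ?_, fun h => absurd (fun l => h1 _) h⟩
      rw [abcAux.size_triv h1, one_pow, one_mul, htriv _ hT.ne]
      exact pow_le_one' (h1 _) _
    · push Not at htriv
      obtain ⟨f, hf0, hf1⟩ := htriv
      obtain ⟨j₀, -, hj₀⟩ := Finset.exists_max_image Finset.univ
        (fun j => w (algebraMap K Λ (b j))) ⟨0, Finset.mem_univ _⟩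
      have hmax : ∀ b' ∈ Sec Ψ x m₁ e₁, (w.comap (algebraMap K Λ)) b' ≤
          (w.comap (algebraMap K Λ)) (b j₀) := by
        intro b' hb'
        refine abcAux.span_le hv ?_ (hbs hb')
        rintro _ ⟨j, rfl⟩
        exact hj₀ j (Finset.mem_univ _)
      obtain ⟨t, ht, hti⟩ := c5 K Q n s'' ρ b hb0 S.trdeg L Λ u hC htr w hw
        ⟨algebraMap K Λ f, by rwa [Ne, map_eq_zero], hf1⟩ j₀ fun j => hj₀ j (Finset.mem_univ _)
      have hb₀v : (w.comap (algebraMap K Λ)) (b j₀) ≠ 0 := by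
        rw [Ne, map_eq_zero]
        exact hb0 j₀
      have hR : ∀ f ∈ Ratio Ψ x m₁ e₁ (b j₀), (w.comap (algebraMap K Λ)) f ≤ 1 := by
        rintro _ ⟨k, c, hc, rfl⟩
        rw [map_div₀, map_pow]
        exact div_le_one_of_le₀ (hT.int _ hv _ (hb j₀) hmax k c hc) zero_le
      have h1R : (1 : K) ∈ Ratio Ψ x m₁ e₁ (b j₀) :=
        ⟨0, 1, by rw [Nat.zero_mul, Nat.zero_mul]; exact (a1 K n N Ψ x).2.1, by rw [pow_zero, div_one]⟩
      obtain ⟨t', ht', hti'⟩ := c4 K (w.comap (algebraMap K Λ)) hv (Ratio Ψ x m₁ e₁ (b j₀)) hR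
        (n - 1) t hti fun l => by
          rcases ht l with h | ⟨j, hj⟩
          · have h2 : t l ∈ Qset Ψ x (m i) (e i) := by rw [← hQ]; exact h
            obtain ⟨f', hf', g', hg', -, h3, h4⟩ := c6 K n N Ψ x (m i) (e i) m₁ e₁ (g i) S hT
              (w.comap (algebraMap K Λ)) hv hvQ (b j₀) (hb j₀) (hb0 j₀) hmax _ h2
            exact ⟨f', hf', g', hg', h3, h4⟩
          · refine ⟨b j / b j₀, ⟨1, b j, ?_, by rw [pow_one]⟩, 1, h1R, map_one _, by rw [hj, div_one]⟩
            rw [Nat.one_mul, Nat.one_mul]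
            exact hb j
      exact ⟨b6 K n N Ψ x (m i) (e i) m₁ e₁ (g i) S hn hT (w.comap (algebraMap K Λ)) hv
        ⟨f, hf0, hf1⟩ hvQ (b j₀) (hb j₀) (hb0 j₀) hmax t' ht' hti', fun _ => ⟨t', hti'⟩⟩
  refine ⟨m i, e i, L, Λ, iL, iΛ, i1, i2, i3, i4, i5, i6, algebraMap K Λ (g i), ?_⟩
  exact
    { m0 := hm
      e0 := he
      a0 := by rw [Ne, map_eq_zero]; exact hT.ne
      trdeg := htr
      fg := hC.fg
      gen := hC.genΛ
      noZero := fun w hw θ hθ => (main w hw).1 θ hθ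
      res := fun w hw => (main w hw).2 }

end Pool.Agent.Lib.MP_410da7_agA
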