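import Pool.Agent.Lib.MP_410da7_agA.VCert1

/-!
# Integral closures of `L[z]` and integrality equations
-/

set_option autoImplicit false

namespace Pool.Agent.Lib.MP_410da7_agA

open Pool.Agent.Lib.MP_cc17a8_ag

section

variable {L F : Type} [Field L] [Field F] [Algebra L F]

open IntermediateField algebraAdjoinAdjoin Polynomial

theorem vcert_dedekind [CharZero L] (z : F) (hz : Transcendental L z)
    (hfin : FiniteDimensional L⟮z⟯ F) :
    IsDedekindDomain (integralClosure (Algebra.adjoin L {z}) F) ∧
      IsFractionRing (integralClosure (Algebra.adjoin L {z}) F) F := by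
  have hcz : CharZero L⟮z⟯ := charZero_of_injective_algebraMap (algebraMap L L⟮z⟯).injective
  let A := Algebra.adjoin L {z}
  let eA : L[X] ≃ₐ[L] A := Polynomial.algEquivOfTranscendental L z hz
  have hPID : IsPrincipalIdealRing A := 
    IsPrincipalIdealRing.of_surjective eA.toRingEquiv eA.surjective
  let S := integralClosure A F
  have hDed : IsDedekindDomain S := IsIntegralClosure.isDedekindDomain A L⟮z⟯ F S
  have hfrac : IsFractionRing S F := IsIntegralClosure.isFractionRing_of_finite_extension A L⟮z⟯ F S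
  exact ⟨hDed, hfrac⟩

/-- The polynomials in `z` are in every valuation ring containing `L` and `z`. -/
theorem vcert_mem {V : ValuationSubring F} (hV : ∀ c : L, algebraMap L F c ∈ V) {z : F}
    (hz : z ∈ V) (f : L[X]) : aeval z f ∈ V := by
  let vs : Subalgebra L F := { V.toSubring with algebraMap_mem' := hV }
  have h1 : aeval z f ∈ Algebra.adjoin L {z} := by
    rw [Algebra.adjoin_singleton_eq_range_aeval]
    exact ⟨f, rfl⟩
  have h2 : Algebra.adjoin L {z} ≤ vs := by
    rw [Algebra.adjoin_le_iff, Set.singleton_subset_iff]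
    exact hz
  exact h2 h1

theorem vcert_integral_mem {V : ValuationSubring F} (hV : ∀ c : L, algebraMap L F c ∈ V) {z : F}
    (hz : z ∈ V) (s : integralClosure (Algebra.adjoin L {z}) F) : (s : F) ∈ V := by
  let vs : Subalgebra L F := { V.toSubring with algebraMap_mem' := hV }
  have h2 : Algebra.adjoin L {z} ≤ vs := by
    rw [Algebra.adjoin_le_iff, Set.singleton_subset_iff]
    exact hz
  have hA : ∀ a : Algebra.adjoin L {z}, (a : F) ∈ V := fun a => h2 a.2
  have hs : IsIntegral (Algebra.adjoin L {z}) (s : F) := s.2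
  let _ : Algebra (Algebra.adjoin L {z}) V :=
    (RingHom.codRestrict (algebraMap (Algebra.adjoin L {z}) F) V.toSubring hA).toAlgebra
  have : IsScalarTower (Algebra.adjoin L {z}) V F := IsScalarTower.of_algebraMap_eq fun _ => rfl
  have hs' : IsIntegral V (s : F) := hs.tower_top
  obtain ⟨y, hy⟩ := IsIntegrallyClosed.isIntegral_iff.mp hs'
  have : (s : F) = (y : F) := hy.symm
  rw [this]; exact y.2

theorem vcert_const_mem {V : ValuationSubring F} {z : F}
    (hS : ∀ s : integralClosure (Algebra.adjoin L {z}) F,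
      algebraMap (integralClosure (Algebra.adjoin L {z}) F) F s ∈ V) (c : L) :
    algebraMap L F c ∈ V :=
  hS (algebraMap (Algebra.adjoin L {z}) _ (algebraMap L _ c))

theorem vcert_z_mem {V : ValuationSubring F} {z : F}
    (hS : ∀ s : integralClosure (Algebra.adjoin L {z}) F,
      algebraMap (integralClosure (Algebra.adjoin L {z}) F) F s ∈ V) : z ∈ V :=
  hS (algebraMap (Algebra.adjoin L {z}) _ ⟨z, Algebra.self_mem_adjoin_singleton L z⟩)

/-- Integrality over `L[z]`, as an equation. -/
theorem vcert_regFin {z c : F} (hc : IsIntegral (Algebra.adjoin L {z}) c) : RegFin L z c := by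
  obtain ⟨p, hp, hpc⟩ := hc
  let φ : L[X] →+* Algebra.adjoin L {z} :=
    ((aeval z : L[X] →ₐ[L] F).codRestrict (Algebra.adjoin L {z}) (fun f => by
      rw [Algebra.adjoin_singleton_eq_range_aeval]; exact ⟨f, rfl⟩)).toRingHom
  have hφ : ∀ f, ((φ f : Algebra.adjoin L {z}) : F) = aeval z f := fun f => rfl
  have hsurj : Function.Surjective φ := by
    rintro ⟨x, hx⟩
    have hx' := hx
    rw [Algebra.adjoin_singleton_eq_range_aeval] at hx'
    obtain ⟨f, hf⟩ := hx'
    exact ⟨f, Subtype.ext (by rw [hφ]; exact hf)⟩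
  have hlift : p ∈ Polynomial.lifts φ := by
    rw [Polynomial.lifts_iff_coeff_lifts]
    intro n
    obtain ⟨f, hf⟩ := hsurj (p.coeff n)
    exact ⟨f, hf⟩
  obtain ⟨q, hq, -, hqm⟩ := Polynomial.lifts_and_natDegree_eq_and_monic hlift hp
  refine ⟨q, hqm, ?_⟩
  have h1 : ((aeval z : L[X] →ₐ[L] F).toRingHom) = (algebraMap (Algebra.adjoin L {z}) F).comp φ := by
    ext x <;> rfl
  rw [h1, ← Polynomial.eval₂_map, hq]
  exact hpc

end

end Pool.Agent.Lib.MP_410da7_agA
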