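import Pool.Agent.Lib.MP_410da7_agA.SpecA
import Pool.Agent.Lib.MP_410da7_agA.VCert2

/-!
# C46, B1: the valuation ring is a localization of `A`
-/

set_option autoImplicit false

namespace Pool.Agent.Lib.MP_410da7_agA

open MvPolynomial KaehlerDifferential WithZero Module
open Pool.Agent.Lib.MP_cc17a8_ag (cen mem_cen_iff)

section

variable {K : Type} [Field K] [Algebra ℂ K]

theorem b1_int (A : Subalgebra ℂ K) (d : ℕ) (a : Fin d → K) (ha : ∀ i, a i ∈ A) (y : K)
    (h : y ^ d + ∑ i, a i * y ^ (i : ℕ) = 0) : IsIntegral A y := by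
  refine ⟨Polynomial.X ^ d + ∑ i : Fin d, Polynomial.C (⟨a i, ha i⟩ : A) * Polynomial.X ^ (i : ℕ),
    Polynomial.monic_X_pow_add (Polynomial.degree_sum_fin_lt _), ?_⟩
  rw [Polynomial.eval₂_add, Polynomial.eval₂_X_pow, Polynomial.eval₂_finsetSum, ← h]
  congr 1
  refine Finset.sum_congr rfl fun i _ => ?_
  rw [Polynomial.eval₂_mul, Polynomial.eval₂_C, Polynomial.eval₂_X_pow]
  rfl

end

theorem b1 : B1Stmt := by
  intro K _ _ n N x hgen hn htr A hA hAgen v hv hnt hAv t htA ht f hf
  classical
  have hval0 : ∀ p : MvPolynomial (Fin (n - 1)) ℂ, p ≠ 0 → aeval t p ≠ 0 := by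
    intro p hp h0
    have := ht p hp
    rw [h0, map_zero] at this
    exact zero_ne_one this
  have htpA : ∀ p : MvPolynomial (Fin (n - 1)) ℂ, aeval t p ∈ A := by
    intro p
    have h1 : aeval t p ∈ Algebra.adjoin ℂ (Set.range t) := by
      rw [Algebra.adjoin_range_eq_range_aeval]; exact ⟨p, rfl⟩
    exact (Algebra.adjoin_le (by rintro _ ⟨i, rfl⟩; exact htA i)) h1
  have hind : AlgebraicIndependent ℂ t := by
    rw [algebraicIndependent_iff]
    intro p hp
    by_contra h
    exact hval0 p h hp
  let F := IntermediateField.adjoin ℂ (Set.range t)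
  -- an element of `A` which is transcendental over `F`
  obtain ⟨s, hsA, hs⟩ : ∃ s ∈ A, Transcendental F s := by
    by_contra hcon
    push Not at hcon
    have h1 : ∀ y : K, IsAlgebraic F y := by
      intro y
      have h2 : (⊤ : IntermediateField ℂ K) ≤ (algebraicClosure F K).restrictScalars ℂ := by
        rw [← hAgen, IntermediateField.adjoin_le_iff]
        intro a ha
        exact mem_algebraicClosure_iff.mpr (not_not.mp (hcon a ha))
      exact mem_algebraicClosure_iff.mp
        (h2 (IntermediateField.mem_top : y ∈ (⊤ : IntermediateField ℂ K)))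
    have h3 : Algebra.IsAlgebraic F K := ⟨h1⟩
    have h4 : IsTranscendenceBasis ℂ t := by
      rw [hind.isTranscendenceBasis_iff_isAlgebraic]
      exact IntermediateField.isAlgebraic_adjoin_iff_top.mp h3
    have h5 := h4.lift_cardinalMk_eq_trdeg
    rw [htr] at h5
    simp at h5
    omega
  have hs' : Transcendental (Algebra.adjoin ℂ (Set.range t)) s :=
    IntermediateField.transcendental_adjoin_iff.mp hs
  -- `K` is algebraic over `F(s)`
  have hopt : AlgebraicIndependent ℂ (fun o : Option (Fin (n - 1)) => o.elim s t) :=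
    (hind.option_iff_transcendental s).mpr hs'
  have hbas : IsTranscendenceBasis ℂ (fun o : Option (Fin (n - 1)) => o.elim s t) := by
    apply hopt.isTranscendenceBasis_of_lift_trdeg_le_of_finite
    rw [htr]
    simp
    have : n - 1 + 1 = n := by omega
    exact_mod_cast this.ge
  have halg := hbas.isAlgebraic_field
  have hrange : Set.range (fun o : Option (Fin (n - 1)) => o.elim s t) = Set.range t ∪ {s} := by
    ext y
    constructor
    · rintro ⟨_ | i, rfl⟩
      · exact Or.inr rfl
      · exact Or.inl ⟨i, rfl⟩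
    · rintro (⟨i, rfl⟩ | rfl)
      · exact ⟨some i, rfl⟩
      · exact ⟨none, rfl⟩
  rw [hrange, ← IntermediateField.adjoin_adjoin_left] at halg
  have halg' : Algebra.IsAlgebraic (IntermediateField.adjoin F {s}) K := halg
  have hfin : FiniteDimensional (IntermediateField.adjoin F {s}) K := by
    have h1 : IntermediateField.adjoin (IntermediateField.adjoin F {s}) (Set.range x) = ⊤ := by
      rw [eq_top_iff]
      intro y _
      have htow : IsScalarTower ℂ (IntermediateField.adjoin F {s}) K :=
        IsScalarTower.of_algebraMap_eq fun _ => rfl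
      have h2 : (⊤ : IntermediateField ℂ K) ≤
          (IntermediateField.adjoin (IntermediateField.adjoin F {s})
            (Set.range x)).restrictScalars ℂ := by
        rw [← hgen, IntermediateField.adjoin_le_iff]
        exact IntermediateField.subset_adjoin _ _
      exact h2 (IntermediateField.mem_top : y ∈ (⊤ : IntermediateField ℂ K))
    have h2 : FiniteDimensional (IntermediateField.adjoin F {s})
        (IntermediateField.adjoin (IntermediateField.adjoin F {s}) (Set.range x)) := by
      have := Set.finite_range x |>.to_subtype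
      exact IntermediateField.finiteDimensional_adjoin fun y _ =>
        (halg'.isAlgebraic y).isIntegral
    rw [h1] at h2
    exact (IntermediateField.topEquiv (F := IntermediateField.adjoin F {s})
      (E := K)).toLinearEquiv.finiteDimensional
  have hcz : CharZero F := charZero_of_injective_algebraMap (algebraMap ℂ F).injective
  obtain ⟨hD, hFr⟩ := vcert_dedekind (L := F) s hs hfin
  -- the valuation ring
  set V : ValuationSubring K := v.valuationSubring with hVdef
  have hVmem : ∀ y, y ∈ V ↔ v y ≤ 1 := fun y => Valuation.mem_valuationSubring_iff v y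
  have hFrep : ∀ c : F, ∃ p q : MvPolynomial (Fin (n - 1)) ℂ, q ≠ 0 ∧
      (c : K) = aeval t p / aeval t q := by
    intro c
    obtain ⟨p, q, hpq⟩ := (IntermediateField.mem_adjoin_range_iff ℂ t (c : K)).mp c.2
    by_cases hq : q = 0
    · refine ⟨0, 1, one_ne_zero, ?_⟩
      rw [hpq, hq, map_zero, div_zero, zero_div]
    · exact ⟨p, q, hq, hpq⟩
  have hVF : ∀ c : F, algebraMap F K c ∈ V := by
    intro c
    obtain ⟨p, q, hq, hpq⟩ := hFrep c
    rw [hVmem]
    change v (c : K) ≤ 1
    rw [hpq, map_div₀, ht q hq, div_one]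
    exact hAv _ (htpA p)
  have hVs : s ∈ V := (hVmem s).mpr (hAv s hsA)
  have hS : ∀ o : integralClosure (Algebra.adjoin F {s}) K,
      algebraMap (integralClosure (Algebra.adjoin F {s}) K) K o ∈ V := fun o =>
    vcert_integral_mem hVF hVs o
  obtain ⟨h', hh', c, hc⟩ := vcert_denom (S := integralClosure (Algebra.adjoin F {s}) K) V hS f
    ((hVmem f).mpr hf)
  have hvh' : v (h' : K) = 1 := by
    rw [mem_cen_iff] at hh'
    push Not at hh'
    obtain ⟨h1, h2⟩ := hh'
    have h3 : v (h' : K) ≤ 1 := (hVmem _).mp (hS h')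
    have h4 : v ((h' : K))⁻¹ ≤ 1 := (hVmem _).mp h2
    have h5 : (h' : K) ≠ 0 := by
      intro h0
      exact h1 (Subtype.ext h0)
    rw [map_inv₀] at h4
    apply le_antisymm h3
    have h6 : v (h' : K) ≠ 0 := (Valuation.ne_zero_iff _).mpr h5
    calc (1 : ℤᵐ⁰) = v (h' : K) * (v (h' : K))⁻¹ := (mul_inv_cancel₀ h6).symm
      _ ≤ v (h' : K) * 1 := mul_le_mul_right h4 _
      _ = v (h' : K) := mul_one _
  -- denominators
  have hden1 : ∀ b ∈ Algebra.adjoin F {s}, ∃ p : MvPolynomial (Fin (n - 1)) ℂ, p ≠ 0 ∧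
      aeval t p * b ∈ A := by
    intro b hb
    induction hb using Algebra.adjoin_induction with
    | mem y hy =>
      rw [Set.mem_singleton_iff] at hy
      exact ⟨1, one_ne_zero, by rw [map_one, one_mul, hy]; exact hsA⟩
    | algebraMap c =>
      obtain ⟨p, q, hq, hpq⟩ := hFrep c
      refine ⟨q, hq, ?_⟩
      change aeval t q * (c : K) ∈ A
      rw [hpq, mul_div_cancel₀ _ (hval0 q hq)]
      exact htpA p
    | add y z _ _ hy hz =>
      obtain ⟨p, hp, h1⟩ := hy
      obtain ⟨q, hq, h2⟩ := hz
      refine ⟨p * q, mul_ne_zero hp hq, ?_⟩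
      have : aeval t (p * q) * (y + z) = aeval t q * (aeval t p * y) +
          aeval t p * (aeval t q * z) := by rw [map_mul]; ring
      rw [this]
      exact add_mem (mul_mem (htpA q) h1) (mul_mem (htpA p) h2)
    | mul y z _ _ hy hz =>
      obtain ⟨p, hp, h1⟩ := hy
      obtain ⟨q, hq, h2⟩ := hz
      refine ⟨p * q, mul_ne_zero hp hq, ?_⟩
      have : aeval t (p * q) * (y * z) = (aeval t p * y) * (aeval t q * z) := by
        rw [map_mul]; ring
      rw [this]
      exact mul_mem h1 h2
  have hden2 : ∀ g : K, IsIntegral (Algebra.adjoin F {s}) g →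
      ∃ p : MvPolynomial (Fin (n - 1)) ℂ, p ≠ 0 ∧ aeval t p * g ∈ A := by
    rintro g ⟨P, hP, hPg⟩
    have key : ∀ u : Finset ℕ, ∃ p : MvPolynomial (Fin (n - 1)) ℂ, p ≠ 0 ∧
        ∀ i ∈ u, aeval t p * ((P.coeff i : Algebra.adjoin F {s}) : K) ∈ A := by
      intro u
      induction u using Finset.induction_on with
      | empty => exact ⟨1, one_ne_zero, fun i hi => absurd hi (Finset.notMem_empty _)⟩
      | @insert a u ha ih =>
        obtain ⟨p, hp, h1⟩ := ih
        obtain ⟨q, hq, h2⟩ := hden1 _ (P.coeff a).2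
        refine ⟨p * q, mul_ne_zero hp hq, ?_⟩
        intro i hi
        rcases Finset.mem_insert.mp hi with rfl | hi
        · rw [map_mul, mul_assoc]
          exact mul_mem (htpA p) h2
        · rw [map_mul, mul_comm (aeval t p), mul_assoc]
          exact mul_mem (htpA q) (h1 i hi)
    obtain ⟨q, hq, h1⟩ := key (Finset.range P.natDegree)
    refine ⟨q, hq, hA _ (b1_int A P.natDegree
      (fun i => aeval t q ^ (P.natDegree - (i : ℕ)) *
        ((P.coeff i : Algebra.adjoin F {s}) : K)) (fun i => ?_) _ ?_)⟩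
    · obtain ⟨j, hj⟩ : ∃ j, P.natDegree - (i : ℕ) = j + 1 := ⟨P.natDegree - i - 1, by omega⟩
      change aeval t q ^ (P.natDegree - (i : ℕ)) * _ ∈ A
      rw [hj, pow_succ, mul_assoc]
      exact mul_mem (pow_mem (htpA q) _) (h1 i (Finset.mem_range.mpr i.2))
    · have h2 : g ^ P.natDegree + ∑ i : Fin P.natDegree,
          ((P.coeff i : Algebra.adjoin F {s}) : K) * g ^ (i : ℕ) = 0 := by
        rw [Polynomial.eval₂_eq_sum_range, Finset.sum_range_succ, Polynomial.coeff_natDegree,
          hP.leadingCoeff, map_one, one_mul, Finset.sum_range] at hPg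
        rw [add_comm]
        exact hPg
      have h3 : (aeval t q * g) ^ P.natDegree + ∑ i : Fin P.natDegree,
          (aeval t q ^ (P.natDegree - (i : ℕ)) *
            ((P.coeff i : Algebra.adjoin F {s}) : K)) * (aeval t q * g) ^ (i : ℕ) =
          aeval t q ^ P.natDegree * (g ^ P.natDegree + ∑ i : Fin P.natDegree,
          ((P.coeff i : Algebra.adjoin F {s}) : K) * g ^ (i : ℕ)) := by
        rw [mul_add, mul_pow, Finset.mul_sum]
        congr 1
        refine Finset.sum_congr rfl fun i _ => ?_
        rw [mul_pow]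
        have h4 : aeval t q ^ P.natDegree =
            aeval t q ^ (P.natDegree - (i : ℕ)) * aeval t q ^ (i : ℕ) := by
          rw [← pow_add]; congr 1; omega
        rw [h4]; ring
      rw [h3, h2, mul_zero]
  obtain ⟨p₁, hp₁, h1⟩ := hden2 (c : K) c.2
  obtain ⟨p₂, hp₂, h2⟩ := hden2 (h' : K) h'.2
  refine ⟨aeval t p₁ * (aeval t p₂ * (h' : K)), mul_mem (htpA p₁) h2, ?_, ?_⟩
  · rw [map_mul, map_mul, ht p₁ hp₁, ht p₂ hp₂, hvh', one_mul, one_mul]
  · have h3 : (h' : K) * f = (c : K) := hc
    have h4 : aeval t p₁ * (aeval t p₂ * (h' : K)) * f = aeval t p₂ * (aeval t p₁ * (c : K)) := by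
      rw [← h3]; ring
    rw [h4]
    exact mul_mem (htpA p₂) h1

end Pool.Agent.Lib.MP_410da7_agA
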