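import Pool.Agent.Lib.MP_410da7_agA.B3

/-!
# C46, B2: differentials with few poles over `A`
-/

set_option autoImplicit false

namespace Pool.Agent.Lib.MP_410da7_agA

open MvPolynomial KaehlerDifferential WithZero Module
open Pool.Agent.Lib.MP_410da7_ag (regDiff logDiff regGens logGens)

section

variable {K : Type} [Field K] [Algebra ℂ K]

/-- The group of the sums of the `a db`, `a, b ∈ A`. -/
noncomputable def b2_G (A : Subalgebra ℂ K) : AddSubgroup Ω[K⁄ℂ] :=
  AddSubgroup.closure {η : Ω[K⁄ℂ] | ∃ a ∈ A, ∃ b ∈ A, η = a • D ℂ K b}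

theorem b2_G_smul (A : Subalgebra ℂ K) {a : K} (ha : a ∈ A) {θ : Ω[K⁄ℂ]}
    (hθ : θ ∈ b2_G A) : a • θ ∈ b2_G A := by
  induction hθ using AddSubgroup.closure_induction with
  | mem θ h =>
    obtain ⟨p, hp, q, hq, rfl⟩ := h
    rw [smul_smul]
    exact AddSubgroup.subset_closure ⟨a * p, mul_mem ha hp, q, hq, rfl⟩
  | zero => rw [smul_zero]; exact zero_mem _
  | add x y _ _ hx hy => rw [smul_add]; exact add_mem hx hy
  | neg x _ hx => rw [smul_neg]; exact neg_mem hx

theorem b2_G_D (A : Subalgebra ℂ K) {a b : K} (ha : a ∈ A) (hb : b ∈ A) :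
    a • D ℂ K b ∈ b2_G A :=
  AddSubgroup.subset_closure ⟨a, ha, b, hb, rfl⟩

/-- quotient rule, multiplied by the square of the denominator -/
theorem b2_quot {b h q : K} (hq : h * b = q) :
    h ^ 2 • D ℂ K b = h • D ℂ K q - q • D ℂ K h := by
  have h1 : D ℂ K q = h • D ℂ K b + b • D ℂ K h := by rw [← hq, Derivation.leibniz]
  rw [h1, ← hq]
  module

end

theorem b2 : B2Stmt := by
  intro K _ _ A v π hA hloc hπ0 hπ1 hπ
  have hvπ0 : v π ≠ 0 := (Valuation.ne_zero_iff _).mpr hπ0
  have one_ne : ∀ h : K, v h = 1 → h ≠ 0 := by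
    rintro h hh rfl
    rw [map_zero] at hh
    exact zero_ne_one hh
  -- elements of `regGens`
  have hreg1 : ∀ a b : K, v a ≤ 1 → v b ≤ 1 → ∃ h ∈ A, v h = 1 ∧ h • (a • D ℂ K b) ∈ b2_G A := by
    intro a b ha hb
    obtain ⟨h, hhA, hh, hp⟩ := hloc a ha
    obtain ⟨h', hhA', hh', hq⟩ := hloc b hb
    refine ⟨h * h' ^ 2, mul_mem hhA (pow_mem hhA' 2), by rw [map_mul, map_pow, hh, hh']; simp, ?_⟩
    have h1 : (h * h' ^ 2) • (a • D ℂ K b) = (h * a) • (h' ^ 2 • D ℂ K b) := by module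
    rw [h1, b2_quot rfl]
    exact b2_G_smul A hp (sub_mem (b2_G_D A hhA' hq) (b2_G_D A hq hhA'))
  constructor
  · intro θ hθ
    change ∃ h ∈ A, v h = 1 ∧ h • θ ∈ b2_G A
    induction hθ using AddSubgroup.closure_induction with
    | mem θ h =>
      obtain ⟨a, b, ha, hb, rfl⟩ := h
      exact hreg1 a b ha hb
    | zero => exact ⟨1, one_mem _, map_one _, by rw [smul_zero]; exact zero_mem _⟩
    | add x y _ _ hx hy =>
      obtain ⟨h, hhA, hh, hx⟩ := hx
      obtain ⟨h', hhA', hh', hy⟩ := hy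
      refine ⟨h * h', mul_mem hhA hhA', by rw [map_mul, hh, hh', one_mul], ?_⟩
      have h1 : (h * h') • (x + y) = h' • (h • x) + h • (h' • y) := by module
      rw [h1]
      exact add_mem (b2_G_smul A hhA' hx) (b2_G_smul A hhA hy)
    | neg x _ hx =>
      obtain ⟨h, hhA, hh, hx⟩ := hx
      exact ⟨h, hhA, hh, by rw [smul_neg]; exact neg_mem hx⟩
  · -- the logarithmic case
    have hlog1 : ∀ u : K, v u = 1 → ∃ h ∈ A, v h = 1 ∧ h • (u⁻¹ • D ℂ K u) ∈ b2_G A := by
      intro u hu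
      have hu0 : u ≠ 0 := one_ne u hu
      obtain ⟨h, hhA, hh, hq⟩ := hreg1 u⁻¹ u (by rw [map_inv₀, hu, inv_one]) hu.le
      exact ⟨h, hhA, hh, hq⟩
    have hval : ∀ b : K, b ≠ 0 → ∃ (j : ℤ) (u : K), v u = 1 ∧ b = π ^ j * u := by
      intro b hb
      have hvb : v b ≠ 0 := (Valuation.ne_zero_iff _).mpr hb
      obtain ⟨s, hs⟩ : ∃ s : ℤ, v b = exp s := ⟨log (v b), (exp_log hvb).symm⟩
      obtain ⟨m, hm⟩ : ∃ m : ℤ, v π = exp (-m) :=
        ⟨-log (v π), by rw [neg_neg]; exact (exp_log hvπ0).symm⟩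
      have hm0 : 0 < m := by
        rw [hm, ← exp_zero, exp_lt_exp] at hπ1
        omega
      have hr0 : 0 ≤ (-s) % m := Int.emod_nonneg _ (by omega)
      have hr1 : (-s) % m < m := Int.emod_lt_of_pos _ hm0
      have hdiv := Int.emod_add_mul_ediv (-s) m
      have hval : v (b * (π ^ ((-s) / m))⁻¹) = exp (-((-s) % m)) := by
        rw [map_mul, map_inv₀, map_zpow₀, hs, hm, ← exp_zsmul, ← exp_neg, ← exp_add]
        congr 1
        simp only [zsmul_eq_mul, Int.cast_eq]
        linarith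
      refine ⟨(-s) / m, b * (π ^ ((-s) / m))⁻¹, ?_, ?_⟩
      · rw [hval]
        by_cases hr : (-s) % m = 0
        · rw [hr, neg_zero, exp_zero]
        · exfalso
          have h1 : v (b * (π ^ ((-s) / m))⁻¹) < 1 := by
            rw [hval, ← exp_zero, exp_lt_exp]; omega
          have h2 := hπ _ h1
          rw [hval, hm, exp_le_exp] at h2
          omega
      · have : π ^ ((-s) / m) ≠ 0 := zpow_ne_zero _ hπ0
        field_simp
    intro θ hθ
    change ∃ h ∈ A, v h = 1 ∧ ∃ c ∈ A, h • θ - (c / π) • D ℂ K π ∈ b2_G A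
    induction hθ using AddSubgroup.closure_induction with
    | mem θ h =>
      rcases h with ⟨a, b, ha, hb, rfl⟩ | ⟨a, b, ha, hb, rfl⟩
      · obtain ⟨h, hhA, hh, h1⟩ := hreg1 a b ha hb
        exact ⟨h, hhA, hh, 0, zero_mem _, by rw [zero_div, zero_smul, sub_zero]; exact h1⟩
      · obtain ⟨j, u, hu, rfl⟩ := hval b hb
        have hu0 : u ≠ 0 := one_ne u hu
        obtain ⟨h, hhA, hh, hp⟩ := hloc a ha
        obtain ⟨h', hhA', hh', hq⟩ := hlog1 u hu
        refine ⟨h * h', mul_mem hhA hhA', by rw [map_mul, hh, hh', one_mul],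
          h' * (h * a) * (j : K), mul_mem (mul_mem hhA' hp) (intCast_mem A j), ?_⟩
        have h2 : (a / (π ^ j * u)) • D ℂ K (π ^ j * u) =
            a • ((j : K) * π⁻¹) • D ℂ K π + a • (u⁻¹ • D ℂ K u) := by
          have hπj : π ^ j ≠ 0 := zpow_ne_zero _ hπ0
          rw [Derivation.leibniz, Derivation.leibniz_zpow, ← Int.cast_smul_eq_zsmul K, smul_add,
            add_comm]
          congr 1
          · rw [smul_smul, smul_smul, smul_smul, smul_smul]
            congr 1
            rw [zpow_sub_one₀ hπ0]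
            field_simp
          · rw [smul_smul, smul_smul]
            congr 1
            field_simp
        rw [h2]
        have h3 : (h * h') • (a • ((j : K) * π⁻¹) • D ℂ K π + a • (u⁻¹ • D ℂ K u)) -
            (h' * (h * a) * (j : K) / π) • D ℂ K π = (h * a) • (h' • (u⁻¹ • D ℂ K u)) := by
          rw [div_eq_mul_inv]
          module
        rw [h3]
        exact b2_G_smul A hp hq
    | zero =>
      refine ⟨1, one_mem _, map_one _, 0, zero_mem _, ?_⟩
      rw [smul_zero, zero_div, zero_smul, sub_zero]; exact zero_mem _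
    | add x y _ _ hx hy =>
      obtain ⟨h, hhA, hh, c, hc, hx⟩ := hx
      obtain ⟨h', hhA', hh', c', hc', hy⟩ := hy
      refine ⟨h * h', mul_mem hhA hhA', by rw [map_mul, hh, hh', one_mul], h' * c + h * c',
        add_mem (mul_mem hhA' hc) (mul_mem hhA hc'), ?_⟩
      have h1 : (h * h') • (x + y) - ((h' * c + h * c') / π) • D ℂ K π =
          h' • (h • x - (c / π) • D ℂ K π) + h • (h' • y - (c' / π) • D ℂ K π) := by
        simp only [div_eq_mul_inv]
        module
      rw [h1]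
      exact add_mem (b2_G_smul A hhA' hx) (b2_G_smul A hhA hy)
    | neg x _ hx =>
      obtain ⟨h, hhA, hh, c, hc, hx⟩ := hx
      refine ⟨h, hhA, hh, -c, neg_mem hc, ?_⟩
      have h1 : h • (-x) - (-c / π) • D ℂ K π = -(h • x - (c / π) • D ℂ K π) := by
        simp only [div_eq_mul_inv]
        module
      rw [h1]
      exact neg_mem hx

end Pool.Agent.Lib.MP_410da7_agA
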