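import Pool.Agent.Lib.MP_410da7_agA.B5
import Pool.Agent.Lib.MP_410da7_agA.B2
import Pool.Agent.Lib.MP_410da7_agA.B1
import Pool.Agent.Lib.MP_410da7_ag.Val

/-!
# C46, B6: no fixed divisors above the threshold
-/

set_option autoImplicit false

namespace Pool.Agent.Lib.MP_410da7_agA

open MvPolynomial KaehlerDifferential WithZero Module
open Pool.Agent.Lib.MP_410da7_ag (regDiff logDiff regGens logGens)

section

variable {K : Type} [Field K] [Algebra ℂ K] {n N : ℕ} {Ψ : Ω[K⁄ℂ] [⋀^Fin n]→ₗ[K] K}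
  {x : Fin N → K}

omit [Algebra ℂ K] in
theorem b6_size_coord (x : Fin N → K) (v : Valuation K ℤᵐ⁰) (l : Fin N) : v (x l) ≤ size x v :=
  (Finset.le_sup (f := fun l => v (x l)) (Finset.mem_univ l)).trans le_sup_left

omit [Algebra ℂ K] in
theorem b6_size_eq (x : Fin N → K) (v : Valuation K ℤᵐ⁰) :
    (Cent x v ∧ size x v = 1) ∨ ∃ l, size x v = v (x l) ∧ 1 < v (x l) := by
  by_cases hc : Cent x v
  · left
    refine ⟨hc, le_antisymm ?_ le_sup_right⟩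
    exact sup_le (Finset.sup_le fun l _ => hc l) le_rfl
  · right
    rw [Cent] at hc
    push Not at hc
    obtain ⟨l₀, hl₀⟩ := hc
    obtain ⟨l, -, hl⟩ := Finset.exists_max_image Finset.univ (fun l => v (x l)) ⟨l₀, Finset.mem_univ _⟩
    have h1 : 1 < v (x l) := lt_of_lt_of_le hl₀ (hl l₀ (Finset.mem_univ _))
    refine ⟨l, le_antisymm ?_ (b6_size_coord x v l), h1⟩
    exact sup_le (Finset.sup_le fun l' _ => hl l' (Finset.mem_univ _)) h1.le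

/-- A section of degree `(m₁, e₁)` of maximal value. -/
theorem b6_exists_max {m₀ e₀ m₁ e₁ : ℕ} {a₀ : K} (hT : Thr Ψ x m₀ e₀ m₁ e₁ a₀) {b₁ : K}
    (hb₁ : b₁ ∈ Sec Ψ x m₁ e₁) (hb₁0 : b₁ ≠ 0) (u : Valuation K ℤᵐ⁰) (hu : Triv u) :
    ∃ b' ∈ Sec Ψ x m₁ e₁, b' ≠ 0 ∧ ∀ b ∈ Sec Ψ x m₁ e₁, u b ≤ u b' := by
  obtain ⟨s, b, hb, hb0, hspan⟩ := hT.fin
  have hne : Nonempty (Fin s) := by
    by_contra h
    rw [not_nonempty_iff] at h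
    have h1 := hspan hb₁
    rw [Set.range_eq_empty, Submodule.span_empty] at h1
    exact hb₁0 ((Submodule.mem_bot ℂ).mp h1)
  obtain ⟨j, hj⟩ := Finite.exists_max (fun j => u (b j))
  have key : ∀ c ∈ Submodule.span ℂ (Set.range b), u c ≤ u (b j) := by
    intro c h1
    induction h1 using Submodule.span_induction with
    | mem y hy => obtain ⟨i, rfl⟩ := hy; exact hj i
    | zero => rw [map_zero]; exact zero_le
    | add y z _ _ hy hz => exact (u.map_add y z).trans (max_le hy hz)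
    | smul c y _ hy => exact (b5_triv_smul_le hu c y).trans hy
  exact ⟨b j, hb j, hb0 j, fun c hc => key c (hspan hc)⟩

/-- The two conditions at `u` on the elements of `A`, uniformly in `u`. -/
def b6Elt (Ψ : Ω[K⁄ℂ] [⋀^Fin n]→ₗ[K] K) (x : Fin N → K) (m₁ e₁ : ℕ) (b₁ : K) (a : K) : Prop :=
  ∃ E : ℕ, ∀ E' : ℕ, E ≤ E' → ∀ u : Valuation K ℤᵐ⁰, Triv u →
    ∀ b' ∈ Sec Ψ x m₁ e₁, b' ≠ 0 → (∀ b ∈ Sec Ψ x m₁ e₁, u b ≤ u b') →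
    u ((b₁ / b') ^ E' * a) ≤ 1

/-- The differential is a frame element after multiplication by a power of `δ`. -/
def b6Dif (Ψ : Ω[K⁄ℂ] [⋀^Fin n]→ₗ[K] K) (x : Fin N → K) (m₁ e₁ : ℕ) (b₁ : K)
    (θ : Ω[K⁄ℂ]) : Prop :=
  ∃ E : ℕ, ∀ E' : ℕ, E ≤ E' → ∀ u : Valuation K ℤᵐ⁰, Triv u →
    ∀ b' ∈ Sec Ψ x m₁ e₁, b' ≠ 0 → (∀ b ∈ Sec Ψ x m₁ e₁, u b ≤ u b') →
    (b₁ / b') ^ E' • θ ∈ logDiff u ∧ (Cent x u → (b₁ / b') ^ E' • θ ∈ regDiff u)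

theorem b6_reg_le_log (v : Valuation K ℤᵐ⁰) : regDiff v ≤ logDiff v :=
  AddSubgroup.closure_mono Set.subset_union_left

theorem b6Dif_add {m₁ e₁ : ℕ} {b₁ : K} {θ θ' : Ω[K⁄ℂ]} (h : b6Dif Ψ x m₁ e₁ b₁ θ)
    (h' : b6Dif Ψ x m₁ e₁ b₁ θ') : b6Dif Ψ x m₁ e₁ b₁ (θ + θ') := by
  obtain ⟨E, hE⟩ := h
  obtain ⟨F, hF⟩ := h'
  refine ⟨max E F, fun E' hE' u hu b' hb' hb'0 hmax => ?_⟩
  obtain ⟨h1, h2⟩ := hE E' ((le_max_left _ _).trans hE') u hu b' hb' hb'0 hmax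
  obtain ⟨h3, h4⟩ := hF E' ((le_max_right _ _).trans hE') u hu b' hb' hb'0 hmax
  rw [smul_add]
  exact ⟨add_mem h1 h3, fun hc => add_mem (h2 hc) (h4 hc)⟩

theorem b6Dif_zero {m₁ e₁ : ℕ} {b₁ : K} : b6Dif Ψ x m₁ e₁ b₁ 0 :=
  ⟨0, fun E' _ u _ b' _ _ _ => by
    rw [smul_zero]; exact ⟨zero_mem _, fun _ => zero_mem _⟩⟩

theorem b6Dif_neg {m₁ e₁ : ℕ} {b₁ : K} {θ : Ω[K⁄ℂ]} (h : b6Dif Ψ x m₁ e₁ b₁ θ) :
    b6Dif Ψ x m₁ e₁ b₁ (-θ) := by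
  obtain ⟨E, hE⟩ := h
  refine ⟨E, fun E' hE' u hu b' hb' hb'0 hmax => ?_⟩
  obtain ⟨h1, h2⟩ := hE E' hE' u hu b' hb' hb'0 hmax
  rw [smul_neg]
  exact ⟨neg_mem h1, fun hc => neg_mem (h2 hc)⟩

/-- differentials `a dc`, `a, c ∈ Ratio b₁` -/
theorem b6Dif_D {m₀ e₀ m₁ e₁ : ℕ} {a₀ : K} (hT : Thr Ψ x m₀ e₀ m₁ e₁ a₀) {b₁ : K}
    (hb₁ : b₁ ∈ Sec Ψ x m₁ e₁) (hb₁0 : b₁ ≠ 0) {a c : K} (ha : a ∈ Ratio Ψ x m₁ e₁ b₁)
    (hc : c ∈ Ratio Ψ x m₁ e₁ b₁) : b6Dif Ψ x m₁ e₁ b₁ (a • D ℂ K c) := by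
  obtain ⟨E, hE⟩ := b3 K n N Ψ x m₀ e₀ m₁ e₁ a₀ hT b₁ hb₁ hb₁0 a ha
  obtain ⟨F, hF⟩ := b3 K n N Ψ x m₀ e₀ m₁ e₁ a₀ hT b₁ hb₁ hb₁0 c hc
  refine ⟨E + F, fun E' hE' u hu b' hb' hb'0 hmax => ?_⟩
  obtain ⟨G, rfl⟩ : ∃ G, E' = G + F := ⟨E' - F, by omega⟩
  obtain ⟨h1, -⟩ := hE G (by omega) u hu b' hb' hb'0 hmax
  obtain ⟨-, h4⟩ := hF F le_rfl u hu b' hb' hb'0 hmax
  have h5 : (b₁ / b') ^ (G + F) • a • D ℂ K c = ((b₁ / b') ^ G * a) • ((b₁ / b') ^ F • D ℂ K c) := by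
    rw [pow_add]; module
  have h6 : (b₁ / b') ^ (G + F) • a • D ℂ K c ∈ regDiff u := by
    rw [h5]; exact b3_reg_smul h1 h4
  exact ⟨b6_reg_le_log u h6, fun _ => h6⟩

/-- the logarithmic term -/
theorem b6Dif_log {m₀ e₀ m₁ e₁ : ℕ} {a₀ : K} (hT : Thr Ψ x m₀ e₀ m₁ e₁ a₀) {b₁ : K}
    (hb₁ : b₁ ∈ Sec Ψ x m₁ e₁) (hb₁0 : b₁ ≠ 0) {a a' π y : K} (ha : a ∈ Ratio Ψ x m₁ e₁ b₁)
    (ha' : a' ∈ Ratio Ψ x m₁ e₁ b₁) (hπ : π ∈ Ratio Ψ x m₁ e₁ b₁) (hπ0 : π ≠ 0)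
    (hy : ∀ u : Valuation K ℤᵐ⁰, Cent x u → u y ≤ 1) (h : a / π = a' * y) :
    b6Dif Ψ x m₁ e₁ b₁ ((a / π) • D ℂ K π) := by
  obtain ⟨E, hE⟩ := b3 K n N Ψ x m₀ e₀ m₁ e₁ a₀ hT b₁ hb₁ hb₁0 a ha
  obtain ⟨E₁, hE₁⟩ := b3 K n N Ψ x m₀ e₀ m₁ e₁ a₀ hT b₁ hb₁ hb₁0 a' ha'
  obtain ⟨F, hF⟩ := b3 K n N Ψ x m₀ e₀ m₁ e₁ a₀ hT b₁ hb₁ hb₁0 π hπ
  refine ⟨E + E₁ + F, fun E' hE' u hu b' hb' hb'0 hmax => ?_⟩
  obtain ⟨G, rfl⟩ : ∃ G, E' = G + F := ⟨E' - F, by omega⟩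
  obtain ⟨h1, -⟩ := hE (G + F) (by omega) u hu b' hb' hb'0 hmax
  obtain ⟨h2, -⟩ := hE₁ G (by omega) u hu b' hb' hb'0 hmax
  obtain ⟨-, h4⟩ := hF F le_rfl u hu b' hb' hb'0 hmax
  constructor
  · refine AddSubgroup.subset_closure (Or.inr ⟨(b₁ / b') ^ (G + F) * a, π, h1, hπ0, ?_⟩)
    rw [smul_smul, mul_div_assoc]
  · intro hc
    have h5 : (b₁ / b') ^ (G + F) • (a / π) • D ℂ K π =
        (((b₁ / b') ^ G * a') * y) • ((b₁ / b') ^ F • D ℂ K π) := by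
      rw [h, pow_add]; module
    rw [h5]
    refine b3_reg_smul ?_ h4
    rw [map_mul]
    exact mul_le_one' h2 (hy u hc)

end

theorem b6 (hA1 : A1Stmt) (hB4 : B4Stmt) : B6Stmt := by
  intro K _ _ n N Ψ x m₀ e₀ m₁ e₁ a₀ hSit hn hT v hv hnt hQ b₁ hb₁ hb₁0 hmax t ht htr
  classical
  by_contra hnz
  -- the zero of `b₁`
  obtain ⟨θ, hθ, hlt⟩ := b5 hA1 K n N Ψ x m₀ e₀ m₁ e₁ a₀ hT v hv hQ hnz b₁ hb₁
  -- the algebra `A`
  obtain ⟨A, hA, hAint, hAgen, hAv⟩ := hB4 K n N Ψ x m₀ e₀ m₁ e₁ a₀ hSit hT b₁ hb₁ hb₁0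
  have hAv' := hAv v hv hmax
  have hAR : ∀ a, a ∈ A ↔ a ∈ Ratio Ψ x m₁ e₁ b₁ := fun a => by
    rw [← SetLike.mem_coe, hA]
  have hloc := b1 K n N x hSit.gen hn hSit.trdeg A hAint hAgen v hv hnt hAv' t
    (fun i => (hAR _).mpr (ht i)) htr
  -- a uniformizer
  obtain ⟨p, hp0, hp1, hp⟩ := Pool.Agent.Lib.MP_410da7_ag.exists_unif (v := v) hnt
  obtain ⟨hp', hp'A, hp'1, hpA⟩ := hloc p hp1.le
  obtain ⟨π, hπdef⟩ : ∃ π, π = hp' * p := ⟨_, rfl⟩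
  have hvπ : v π = v p := by rw [hπdef, map_mul, hp'1, one_mul]
  have hp'0 : hp' ≠ 0 := by rintro rfl; rw [map_zero] at hp'1; exact zero_ne_one hp'1
  have hπ0 : π ≠ 0 := by rw [hπdef]; exact mul_ne_zero hp'0 hp0
  have hπA : π ∈ A := by rw [hπdef]; exact hpA
  have hvp0 : v p ≠ 0 := (Valuation.ne_zero_iff _).mpr hp0
  have hπ1 : v π < 1 := by rw [hvπ]; exact hp1
  have hπmax : ∀ f : K, v f < 1 → v f ≤ v π := by
    intro f hf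
    by_cases hf0 : f = 0
    · rw [hf0, map_zero]; exact zero_le
    obtain ⟨k, hk⟩ := hp f hf0
    rw [hvπ, hk]
    rw [hk] at hf
    have hk1 : 1 ≤ k := by
      by_contra hcon
      have h1 : (1 : ℤᵐ⁰) ≤ v p ^ k := by
        have h2 : k = -((-k).toNat : ℤ) := by omega
        rw [h2, zpow_neg, zpow_natCast]
        have h3 : v p ^ (-k).toNat ≤ 1 := pow_le_one' hp1.le _
        have h4 : v p ^ (-k).toNat ≠ 0 := pow_ne_zero _ hvp0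
        exact (one_le_inv₀ (zero_lt_iff.mpr h4)).mpr h3
      exact absurd hf (not_lt.mpr h1)
    have h2 : k = ((k - 1).toNat : ℤ) + 1 := by omega
    rw [h2, zpow_add_one₀ hvp0, zpow_natCast]
    calc v p ^ (k - 1).toNat * v p ≤ 1 * v p := mul_le_mul_left (pow_le_one' hp1.le _) _
      _ = v p := one_mul _
  -- the coordinate of maximal value
  obtain ⟨y, hy0, hvy, hyle, hyc, hydata⟩ : ∃ y : K, y ≠ 0 ∧ v y = size x v ∧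
      (∀ u : Valuation K ℤᵐ⁰, u y ≤ size x u) ∧
      (∀ u : Valuation K ℤᵐ⁰, Cent x u → u y ≤ 1) ∧
      (Cent x v ∨ 1 < v y) := by
    rcases b6_size_eq x v with ⟨hc, hs⟩ | ⟨l, hs, h1⟩
    · exact ⟨1, one_ne_zero, by rw [map_one, hs], fun u => by rw [map_one]; exact le_sup_right,
        fun u _ => by rw [map_one], Or.inl hc⟩
    · refine ⟨x l, ?_, hs.symm, fun u => b6_size_coord x u l, fun u hc => hc l, Or.inr h1⟩
      intro h0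
      rw [h0, map_zero] at h1
      exact absurd h1 (by simp)
  have hvy0 : v y ≠ 0 := (Valuation.ne_zero_iff _).mpr hy0
  have hΨ0 : v (Ψ θ) ^ m₁ ≠ 0 := by
    intro h
    rw [h, mul_zero] at hlt
    exact not_lt_zero hlt
  have hm1 : m₁ ≠ 0 := by have := hT.m1; omega
  have hΨ00 : Ψ θ ≠ 0 := by
    intro h
    apply hΨ0
    rw [h, map_zero, zero_pow hm1]
  -- `b₁ = π y^e₁ g Ψ(θ)^m₁`
  obtain ⟨g, hgdef⟩ : ∃ g, g = b₁ / (π * y ^ e₁ * Ψ θ ^ m₁) := ⟨_, rfl⟩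
  have hbg : b₁ = π * y ^ e₁ * g * Ψ θ ^ m₁ := by
    rw [hgdef]; field_simp
  have hvg : v g ≤ 1 := by
    have h1 : v (b₁ / (y ^ e₁ * Ψ θ ^ m₁)) < 1 := by
      rw [map_div₀, map_mul, map_pow, map_pow, hvy]
      rw [div_lt_one₀ (zero_lt_iff.mpr (mul_ne_zero (pow_ne_zero _ (by rw [← hvy]; exact hvy0)) hΨ0))]
      exact hlt
    have h2 := hπmax _ h1
    have h3 : g = b₁ / (y ^ e₁ * Ψ θ ^ m₁) * π⁻¹ := by
      rw [hgdef]; field_simp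
    have hvπ0 : v π ≠ 0 := (Valuation.ne_zero_iff _).mpr hπ0
    rw [h3, map_mul, map_inv₀]
    calc v (b₁ / (y ^ e₁ * Ψ θ ^ m₁)) * (v π)⁻¹ ≤ v π * (v π)⁻¹ := mul_le_mul_left h2 _
      _ = 1 := mul_inv_cancel₀ hvπ0
  obtain ⟨hg, hgA, hg1, hggA⟩ := hloc g hvg
  -- the differentials
  have hdif : ∀ i, ∃ h ∈ A, v h = 1 ∧ b6Dif Ψ x m₁ e₁ b₁ (h • θ i) := by
    have hG : ∀ η ∈ b2_G A, b6Dif Ψ x m₁ e₁ b₁ η := by
      intro η hη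
      induction hη using AddSubgroup.closure_induction with
      | mem η h =>
        obtain ⟨a, ha, c, hc, rfl⟩ := h
        exact b6Dif_D hT hb₁ hb₁0 ((hAR _).mp ha) ((hAR _).mp hc)
      | zero => exact b6Dif_zero
      | add η η' _ _ h h' => exact b6Dif_add h h'
      | neg η _ h => exact b6Dif_neg h
    obtain ⟨hreg, hlog⟩ := b2 K A v π hAv' hloc hπ0 hπ1 hπmax
    intro i
    rcases hydata with hc | hy1
    · obtain ⟨h, hhA, hh, hη⟩ := hreg (θ i) (hθ.2 hc i)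
      exact ⟨h, hhA, hh, hG _ hη⟩
    · obtain ⟨h, hhA, hh, c, hcA, hη⟩ := hlog (θ i) (hθ.1 i)
      -- `h'' / (y π) ∈ A`
      have h1 : v (y * π)⁻¹ ≤ 1 := by
        have h2 : v y⁻¹ < 1 := by
          rw [map_inv₀]; exact inv_lt_one_of_one_lt₀ hy1
        have h3 := hπmax _ h2
        have hvπ0 : v π ≠ 0 := (Valuation.ne_zero_iff _).mpr hπ0
        rw [mul_inv, map_mul, map_inv₀ v π]
        calc v y⁻¹ * (v π)⁻¹ ≤ v π * (v π)⁻¹ := mul_le_mul_left h3 _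
          _ = 1 := mul_inv_cancel₀ hvπ0
      obtain ⟨h'', h''A, h''1, h''2⟩ := hloc _ h1
      refine ⟨h'' * h, mul_mem h''A hhA, by rw [map_mul, h''1, hh, one_mul], ?_⟩
      have h4 : (h'' * h) • θ i = h'' • (h • θ i - (c / π) • D ℂ K π) +
          ((h'' * c) / π) • D ℂ K π := by
        simp only [div_eq_mul_inv]
        module
      rw [h4]
      refine b6Dif_add (hG _ (b2_G_smul A h''A hη)) ?_
      refine b6Dif_log hT hb₁ hb₁0 ((hAR _).mp (mul_mem h''A hcA))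
        ((hAR (h'' * (y * π)⁻¹ * c)).mp (mul_mem h''2 hcA)) ((hAR _).mp hπA) hπ0 hyc ?_
      field_simp
  choose h hhA hh1 hhD using hdif
  -- uniform exponents
  choose E hE using hhD
  obtain ⟨Eg, hEg⟩ := b3 K n N Ψ x m₀ e₀ m₁ e₁ a₀ hT b₁ hb₁ hb₁0 (hg * g) ((hAR _).mp hggA)
  obtain ⟨E₀, hE₀def⟩ : ∃ E₀ : ℕ, E₀ = Eg + ∑ i, E i := ⟨_, rfl⟩
  have hE₀g : Eg ≤ E₀ := by omega
  have hE₀i : ∀ i, E i ≤ E₀ := by
    intro i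
    have := Finset.single_le_sum (f := E) (fun j _ => Nat.zero_le _) (Finset.mem_univ i)
    omega
  obtain ⟨H, hHdef⟩ : ∃ H, H = hg * (∏ i, h i) ^ m₁ := ⟨_, rfl⟩
  have hHA : H ∈ A := by
    rw [hHdef]; exact mul_mem hgA (pow_mem (prod_mem fun i _ => hhA i) _)
  have hvH : v H = 1 := by
    rw [hHdef, map_mul, map_pow, map_prod, hg1]
    simp [hh1]
  obtain ⟨EE, hEEdef⟩ : ∃ EE : ℕ, EE = E₀ * (n * m₁ + 1) := ⟨_, rfl⟩
  have claim : H * b₁ ^ (EE + 1) / π ∈ Sec Ψ x ((EE + 1) * m₁) ((EE + 1) * e₁) := by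
    intro u hu
    obtain ⟨b', hb', hb'0, hb'max⟩ := b6_exists_max hT hb₁ hb₁0 u hu
    obtain ⟨δ, hδdef⟩ : ∃ δ, δ = b₁ / b' := ⟨_, rfl⟩
    have hub' : u b' ≠ 0 := (Valuation.ne_zero_iff _).mpr hb'0
    -- the frame
    let θu : Fin n → Ω[K⁄ℂ] := fun i => δ ^ E₀ • h i • θ i
    have hθu : Frame x u θu := by
      refine ⟨fun i => ?_, fun hc i => ?_⟩
      · have := (hE i E₀ (hE₀i i) u hu b' hb' hb'0 hb'max).1
        rw [← hδdef] at this; exact this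
      · have := (hE i E₀ (hE₀i i) u hu b' hb' hb'0 hb'max).2 hc
        rw [← hδdef] at this; exact this
    have hΨu : Ψ θu = δ ^ (E₀ * n) * ((∏ i, h i) * Ψ θ) := by
      have h1 : θu = fun i => (δ ^ E₀ * h i) • θ i := by
        funext i; rw [mul_smul]
      rw [h1, AlternatingMap.map_smul_univ, Finset.prod_mul_distrib, Finset.prod_const,
        Finset.card_univ, Fintype.card_fin, ← pow_mul, smul_eq_mul, mul_assoc]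
    have hgu : u (δ ^ E₀ * (hg * g)) ≤ 1 := by
      have := (hEg E₀ hE₀g u hu b' hb' hb'0 hb'max).1
      rw [← hδdef] at this; exact this
    have hfac : H * b₁ ^ (EE + 1) / π =
        y ^ e₁ * (δ ^ E₀ * (hg * g)) * (Ψ θu) ^ m₁ * b' ^ EE := by
      have h1 : b₁ = δ * b' := by rw [hδdef]; field_simp
      have h2 : H * b₁ / π * δ ^ EE = y ^ e₁ * (δ ^ E₀ * (hg * g)) * (Ψ θu) ^ m₁ := by
        rw [hΨu, hHdef]
        have h3 : hg * (∏ i, h i) ^ m₁ * b₁ / π * δ ^ EE =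
            hg * (∏ i, h i) ^ m₁ * (π * y ^ e₁ * g * Ψ θ ^ m₁) / π * δ ^ EE := by
          rw [← hbg]
        rw [h3, hEEdef]
        field_simp
        ring
      calc H * b₁ ^ (EE + 1) / π = H * b₁ / π * b₁ ^ EE := by rw [pow_succ]; ring
        _ = H * b₁ / π * (δ * b') ^ EE := by rw [← h1]
        _ = H * b₁ / π * δ ^ EE * b' ^ EE := by rw [mul_pow]; ring
        _ = _ := by rw [h2]
    obtain ⟨θs, hθs, hus⟩ := hb' u hu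
    obtain ⟨θ', hθ', hle1, hle2⟩ : ∃ θ' : Fin n → Ω[K⁄ℂ], Frame x u θ' ∧
        u (Ψ θu) ≤ u (Ψ θ') ∧ u (Ψ θs) ≤ u (Ψ θ') := by
      rcases le_total (u (Ψ θu)) (u (Ψ θs)) with hle | hle
      · exact ⟨θs, hθs, hle, le_rfl⟩
      · exact ⟨θu, hθu, le_rfl, hle⟩
    refine ⟨θ', hθ', ?_⟩
    rw [hfac, map_mul, map_mul, map_mul, map_pow, map_pow, map_pow]
    calc u y ^ e₁ * u (δ ^ E₀ * (hg * g)) * u (Ψ θu) ^ m₁ * u b' ^ EE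
        ≤ size x u ^ e₁ * 1 * u (Ψ θ') ^ m₁ * (size x u ^ e₁ * u (Ψ θ') ^ m₁) ^ EE := by
          refine mul_le_mul' (mul_le_mul' (mul_le_mul' (pow_le_pow_left' (hyle u) _) hgu)
            (pow_le_pow_left' hle1 _)) (pow_le_pow_left' (hus.trans ?_) _)
          exact mul_le_mul_right (pow_le_pow_left' hle2 _) _
      _ = size x u ^ ((EE + 1) * e₁) * u (Ψ θ') ^ ((EE + 1) * m₁) := by
          rw [mul_one, ← pow_succ', mul_pow, ← pow_mul, ← pow_mul, mul_comm e₁, mul_comm m₁]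
  have hfin : H / π ∈ A := by
    rw [hAR]
    refine ⟨EE + 1, _, claim, ?_⟩
    field_simp
  have h1 := hAv' _ hfin
  rw [map_div₀, hvH] at h1
  have hvπ0 : v π ≠ 0 := (Valuation.ne_zero_iff _).mpr hπ0
  rw [one_div] at h1
  have h2 : 1 < (v π)⁻¹ := (one_lt_inv₀ (zero_lt_iff.mpr hvπ0)).mpr hπ1
  exact absurd h1 (not_le.mpr h2)

end Pool.Agent.Lib.MP_410da7_agA
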