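import Pool.Agent.Lib.MP_410da7_agA.SpecA

/-!
# MP_410da7_ag (C46), block C, C1: one generic hyperplane section
-/

set_option autoImplicit false

namespace Pool.Agent.Lib.MP_410da7_agA

open MvPolynomial Module

namespace c1Aux

section

variable {F E : Type} [Field F] [Field E] [Algebra F E] {s : ℕ}

/-- the family -/
noncomputable def fam (β : Fin s → E) (o : Option (Fin s)) : MvPolynomial (Fin s) E :=
  o.elim (-∑ j, C (β j) * X j) (fun j => X j)

theorem spec (β : Fin s → E) (ξ : Fin s → F) (P : MvPolynomial (Option (Fin s)) F) :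
    (aeval (fun j => algebraMap F E (ξ j)) : MvPolynomial (Fin s) E →ₐ[E] E)
      (aeval (fam β) P) =
    Polynomial.aeval (-∑ j, β j * algebraMap F E (ξ j))
      ((optionEquivLeft F (Fin s) P).map (eval ξ)) := by
  let A1 : MvPolynomial (Option (Fin s)) F →ₐ[F] E :=
    (((aeval (fun j => algebraMap F E (ξ j)) : MvPolynomial (Fin s) E →ₐ[E] E).restrictScalars F)).comp
      (aeval (fam β))
  let A2 : MvPolynomial (Option (Fin s)) F →ₐ[F] E :=
    ((Polynomial.aeval (-∑ j, β j * algebraMap F E (ξ j)) : Polynomial F →ₐ[F] E).comp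
      (Polynomial.mapAlgHom (aeval ξ : MvPolynomial (Fin s) F →ₐ[F] F))).comp
      (optionEquivLeft F (Fin s)).toAlgHom
  have h : A1 = A2 := by
    apply MvPolynomial.algHom_ext
    intro o
    cases o with
    | none =>
      simp [A1, A2, fam]
    | some j =>
      simp [A1, A2, fam]
  have h1 := congrArg (fun f => f P) h
  exact h1

theorem isAlg (β : Fin s → E) (ξ : Fin s → F) (P : MvPolynomial (Option (Fin s)) F)
    (hP : aeval (fam β) P = 0)
    (hξ : eval ξ (optionEquivLeft F (Fin s) P).leadingCoeff ≠ 0) :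
    IsAlgebraic F (∑ j, β j * algebraMap F E (ξ j)) := by
  have h := spec β ξ P
  rw [hP, map_zero] at h
  have h1 : IsAlgebraic F (-∑ j, β j * algebraMap F E (ξ j)) := by
    refine ⟨(optionEquivLeft F (Fin s) P).map (eval ξ), ?_, h.symm⟩
    intro h0
    apply hξ
    have h5 := congrArg (fun p => Polynomial.coeff p (optionEquivLeft F (Fin s) P).natDegree) h0
    simp only [Polynomial.coeff_map, Polynomial.coeff_zero] at h5
    exact h5
  have h2 := h1.neg
  rwa [neg_neg] at h2

theorem exists_pt [Infinite F] (q : MvPolynomial (Fin s) F) (hq : q ≠ 0) (e : Fin s → F) :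
    ∃ ξ : Fin s → F, eval ξ q ≠ 0 ∧ eval (ξ + e) q ≠ 0 := by
  set q' : MvPolynomial (Fin s) F := bind₁ (fun i => X i + C (e i)) q with hq'
  have h1 : ∀ ξ : Fin s → F, eval ξ q' = eval (ξ + e) q := by
    intro ξ
    rw [hq', ← MvPolynomial.coe_aeval_eq_eval, ← MvPolynomial.coe_aeval_eq_eval]
    show aeval ξ (bind₁ (fun i => X i + C (e i)) q) = aeval (ξ + e) q
    rw [aeval_bind₁]
    simp [Pi.add_def]
  have h2 : q' ≠ 0 := by
    intro h0
    apply hq
    apply MvPolynomial.funext
    intro η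
    have := h1 (η - e)
    rw [h0, sub_add_cancel] at this
    rw [← this, map_zero]
    simp
  have h3 : ∃ ξ : Fin s → F, eval ξ (q * q') ≠ 0 := by
    by_contra hcon
    push Not at hcon
    apply mul_ne_zero hq h2
    apply MvPolynomial.funext
    intro ξ
    rw [hcon ξ, map_zero]
  obtain ⟨ξ, hξ⟩ := h3
  rw [map_mul, h1] at hξ
  exact ⟨ξ, left_ne_zero_of_mul hξ, right_ne_zero_of_mul hξ⟩

end

end c1Aux

open c1Aux in
/-- C1. One generic hyperplane section. -/
theorem c1 : C1Stmt := by
  intro F E _ _ _ _ s β hβ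
  obtain ⟨j, hj⟩ := hβ
  show AlgebraicIndependent F (fam β)
  rw [algebraicIndependent_iff]
  intro P hP
  by_contra hP0
  have hQ : optionEquivLeft F (Fin s) P ≠ 0 := by
    intro h
    exact hP0 ((map_eq_zero_iff _ (optionEquivLeft F (Fin s)).injective).1 h)
  have hq : (optionEquivLeft F (Fin s) P).leadingCoeff ≠ 0 :=
    Polynomial.leadingCoeff_ne_zero.2 hQ
  obtain ⟨ξ, h1, h2⟩ := exists_pt _ hq (Pi.single j (1 : F))
  have h3 := (isAlg β (ξ + Pi.single j 1) P hP h2).sub (isAlg β ξ P hP h1)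
  apply hj
  have h4 : ∑ i, β i * algebraMap F E ((ξ + Pi.single j 1 : Fin s → F) i) -
      ∑ i, β i * algebraMap F E (ξ i) = β j := by
    rw [← Finset.sum_sub_distrib, Finset.sum_eq_single j]
    · simp [Pi.add_apply, mul_add]
    · intro i _ hi
      simp [Pi.add_apply, Pi.single_eq_of_ne hi]
    · intro h
      exact absurd (Finset.mem_univ j) h
  rwa [h4] at h3

end Pool.Agent.Lib.MP_410da7_agA
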