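import Pool.Agent.Lib.MP_410da7_agA.SpecA

/-!
# MP_410da7_ag (C46), block C, C2: the step from `ρ` to `ρ + 1` equations
-/

set_option autoImplicit false

namespace Pool.Agent.Lib.MP_410da7_agA

open MvPolynomial Module

namespace c2Aux

/-- the transcendence degree of a field generated by independent elements -/
theorem trdeg_of_gen {F E ι : Type} [Field F] [Field E] [Algebra F E] (x : ι → E)
    (hx : AlgebraicIndependent F x) (hg : IntermediateField.adjoin F (Set.range x) = ⊤) :
    Algebra.trdeg F E = Cardinal.mk ι := by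
  have h1 : Algebra.IsAlgebraic (Algebra.adjoin F (Set.range x)) E := by
    constructor
    intro y
    have hy : y ∈ IntermediateField.adjoin F (Set.range x) := by rw [hg]; trivial
    obtain ⟨r, hr, t, ht, rfl⟩ := IntermediateField.mem_adjoin_iff_div.1 hy
    rw [div_eq_mul_inv]
    exact (isAlgebraic_algebraMap (⟨r, hr⟩ : Algebra.adjoin F (Set.range x))).mul
      (isAlgebraic_algebraMap (⟨t, ht⟩ : Algebra.adjoin F (Set.range x))).inv
  exact ((hx.isTranscendenceBasis_iff_isAlgebraic).2 h1).cardinalMk_eq_trdeg.symm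

/-- the field of rational functions -/
abbrev PP (Λ : Type) [Field Λ] (s : ℕ) : Type := FractionRing (MvPolynomial (Fin s) Λ)

section

variable {Λ : Type} [Field Λ] {s : ℕ}

/-- the family -/
noncomputable def gg (β : Fin s → Λ) (o : Option (Fin s)) : PP Λ s :=
  algebraMap (MvPolynomial (Fin s) Λ) (PP Λ s)
    (o.elim (-∑ j, C (β j) * X j) (fun j => X j) : MvPolynomial (Fin s) Λ)

theorem gg_none (β : Fin s → Λ) :
    gg β none = - ∑ j, algebraMap Λ (PP Λ s) (β j) * gg β (some j) := by
  unfold gg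
  simp only [Option.elim_none, Option.elim_some, map_neg, map_sum, map_mul]
  rfl

theorem mem_of {F : Type} [Field F] [Algebra F (PP Λ s)] (β : Fin s → Λ)
    (M : IntermediateField F (PP Λ s))
    (h1 : ∀ c : Λ, algebraMap Λ (PP Λ s) c ∈ M) (h2 : ∀ j, gg β (some j) ∈ M) (y : PP Λ s) :
    y ∈ M := by
  have h3 : ∀ P : MvPolynomial (Fin s) Λ, algebraMap (MvPolynomial (Fin s) Λ) (PP Λ s) P ∈ M := by
    intro P
    induction P using MvPolynomial.induction_on with
    | C a => exact h1 a
    | add p q hp hq =>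
      rw [map_add]
      exact add_mem hp hq
    | mul_X p i hp =>
      rw [map_mul]
      exact mul_mem hp (h2 i)
  obtain ⟨a, b, -, rfl⟩ := IsFractionRing.div_surjective (A := MvPolynomial (Fin s) Λ) y
  exact div_mem (h3 a) (h3 b)

variable {L : Type} [Field L] [Algebra L Λ]

theorem gg_ind [CharZero L] (hc1 : C1Stmt) (β : Fin s → Λ) (hβ : ∃ j, Transcendental L (β j)) :
    AlgebraicIndependent L (gg β) := by
  have h := hc1 L Λ s β hβ
  exact h.map' (f := IsScalarTower.toAlgHom L (MvPolynomial (Fin s) Λ) (PP Λ s))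
    (IsFractionRing.injective _ _)

theorem trdeg_PP : Algebra.trdeg Λ (PP Λ s) = s := by
  have h1 : AlgebraicIndependent Λ (fun j : Fin s => gg (0 : Fin s → Λ) (some j)) :=
    (MvPolynomial.algebraicIndependent_X (Fin s) Λ).map'
      (f := IsScalarTower.toAlgHom Λ (MvPolynomial (Fin s) Λ) (PP Λ s))
      (IsFractionRing.injective _ _)
  have h2 : IntermediateField.adjoin Λ
      (Set.range fun j : Fin s => gg (0 : Fin s → Λ) (some j)) = ⊤ := by
    rw [eq_top_iff]
    intro y _
    exact mem_of (0 : Fin s → Λ) (IntermediateField.adjoin Λ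
      (Set.range fun j : Fin s => gg (0 : Fin s → Λ) (some j)))
      (fun c => IntermediateField.algebraMap_mem _ c)
      (fun j => IntermediateField.subset_adjoin _ _ ⟨j, rfl⟩) y
  rw [trdeg_of_gen _ h1 h2]
  simp

variable (L) in
/-- the field `L'` -/
noncomputable abbrev LL (β : Fin s → Λ) : IntermediateField L (PP Λ s) :=
  IntermediateField.adjoin L (Set.range (gg β))

variable (L) in
/-- the family in `L'` -/
noncomputable def gL (β : Fin s → Λ) (o : Option (Fin s)) : LL L β :=
  ⟨gg β o, IntermediateField.subset_adjoin _ _ ⟨o, rfl⟩⟩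

theorem gL_gen (β : Fin s → Λ) {F : Type} [Field F] [Algebra F (LL L β)]
    (M : IntermediateField F (LL L β)) (h1 : ∀ c : L, algebraMap L (LL L β) c ∈ M)
    (h2 : ∀ o, gL L β o ∈ M) : M = ⊤ := by
  rw [eq_top_iff]
  rintro ⟨x, hx⟩ -
  induction hx using IntermediateField.adjoin_induction with
  | mem x hx =>
    obtain ⟨o, rfl⟩ := hx
    exact h2 o
  | algebraMap c => exact h1 c
  | add x y hx hy h1 h2 => exact add_mem h1 h2
  | inv x hx h1 => exact inv_mem h1
  | mul x y hx hy h1 h2 => exact mul_mem h1 h2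

theorem trdeg_LL [CharZero L] (hc1 : C1Stmt) (β : Fin s → Λ)
    (hβ : ∃ j, Transcendental L (β j)) :
    Algebra.trdeg L (LL L β) = ((s + 1 : ℕ) : Cardinal) := by
  have h1 : AlgebraicIndependent L (gL L β) :=
    AlgebraicIndependent.of_comp (LL L β).val (gg_ind hc1 β hβ)
  rw [trdeg_of_gen _ h1 ?_]
  · simp
  exact gL_gen β _ (fun c => IntermediateField.algebraMap_mem _ c)
    (fun o => IntermediateField.subset_adjoin _ _ ⟨o, rfl⟩)

theorem trdeg_rel [CharZero L] (hc1 : C1Stmt) (β : Fin s → Λ)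
    (hβ : ∃ j, Transcendental L (β j)) :
    Algebra.trdeg L Λ + s = ((s + 1 : ℕ) : Cardinal) + Algebra.trdeg (LL L β) (PP Λ s) := by
  rw [← trdeg_LL hc1 β hβ, trdeg_add_eq L (LL L β) (A := PP Λ s),
    ← trdeg_PP (Λ := Λ) (s := s), trdeg_add_eq L Λ (A := PP Λ s)]

end

section

variable {Λ : Type} [Field Λ] {s : ℕ} {L : Type} [Field L] [Algebra L Λ]

theorem gen_PP (β : Fin s → Λ) (T : Set Λ) (hT : IntermediateField.adjoin L T = ⊤)
    (T' : Set (PP Λ s)) (h : ∀ t ∈ T, algebraMap Λ (PP Λ s) t ∈ T') :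
    IntermediateField.adjoin (LL L β) T' = ⊤ := by
  have eLΛ : ∀ x : L, algebraMap L (PP Λ s) x = algebraMap Λ (PP Λ s) (algebraMap L Λ x) :=
    fun x => IsScalarTower.algebraMap_apply L Λ (PP Λ s) x
  have eLL : ∀ x : L, algebraMap (LL L β) (PP Λ s) (algebraMap L (LL L β) x) =
      algebraMap L (PP Λ s) x := fun x => rfl
  rw [eq_top_iff]
  intro y _
  refine mem_of β (IntermediateField.adjoin (LL L β) T') (fun c => ?_) (fun j => ?_) y
  · have hc : c ∈ IntermediateField.adjoin L T := by rw [hT]; trivial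
    induction hc using IntermediateField.adjoin_induction with
    | mem x hx => exact IntermediateField.subset_adjoin _ _ (h x hx)
    | algebraMap c =>
      rw [← eLΛ, ← eLL]
      exact IntermediateField.algebraMap_mem _ _
    | add x y hx hy h1 h2 => rw [map_add]; exact add_mem h1 h2
    | inv x hx h1 => rw [map_inv₀]; exact inv_mem h1
    | mul x y hx hy h1 h2 => rw [map_mul]; exact mul_mem h1 h2
  · exact IntermediateField.algebraMap_mem _ (gL L β (some j))

/-- the new coefficients -/
noncomputable def uu {ρ : ℕ} (β : Fin s → Λ) (u : Fin ρ → Fin (s + 1) → L) :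
    Fin (ρ + 1) → Fin (s + 1) → LL L β :=
  fun i => Fin.cases (fun j => Fin.cases (gL L β none) (fun j => gL L β (some j)) j)
      (fun i j => algebraMap L (LL L β) (u i j)) i

theorem arith (a t κ τ : Cardinal) (s ρ n : ℕ) (h1 : a + κ + (ρ : Cardinal) = τ)
    (hn : τ = n) (h2 : a + s = ((s + 1 : ℕ) : Cardinal) + t) :
    t + κ + ((ρ + 1 : ℕ) : Cardinal) = τ := by
  subst hn
  have ha : a < Cardinal.aleph0 := by
    refine lt_of_le_of_lt ?_ (Cardinal.natCast_lt_aleph0 (n := n))
    rw [← h1]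
    exact (self_le_add_right a κ).trans (self_le_add_right _ _)
  have hκ : κ < Cardinal.aleph0 := by
    refine lt_of_le_of_lt ?_ (Cardinal.natCast_lt_aleph0 (n := n))
    rw [← h1]
    exact (self_le_add_left κ a).trans (self_le_add_right _ _)
  have ht : t < Cardinal.aleph0 := by
    refine lt_of_le_of_lt (self_le_add_left t ((s + 1 : ℕ) : Cardinal)) ?_
    rw [← h2]
    exact Cardinal.add_lt_aleph0 ha Cardinal.natCast_lt_aleph0
  obtain ⟨a, rfl⟩ := Cardinal.lt_aleph0.1 ha
  obtain ⟨κ, rfl⟩ := Cardinal.lt_aleph0.1 hκ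
  obtain ⟨t, rfl⟩ := Cardinal.lt_aleph0.1 ht
  norm_cast at h1 h2 ⊢
  omega

end

theorem exists_trans {K : Type} [Field K] [Algebra ℂ K] {Q : IntermediateField ℂ K} {s ρ : ℕ}
    {b : Fin (s + 1) → K} (hb : ∀ j, b j ≠ 0)
    (hgen : IntermediateField.adjoin ℂ (Set.range fun j => b j / b 0) = ⊤)
    {L Λ : Type} [Field L] [Field Λ] [Algebra ℂ L] [Algebra L Λ] [Algebra K Λ] [Algebra ℂ Λ]
    [IsScalarTower ℂ L Λ] [IsScalarTower ℂ K Λ] {u : Fin ρ → Fin (s + 1) → L}
    (h : GCurve Q b L Λ u) (h1 : 1 ≤ Algebra.trdeg L Λ) :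
    ∃ j : Fin s, Transcendental L (algebraMap K Λ (b j.succ / b 0)) := by
  by_contra hcon
  push Not at hcon
  have h2 : ∀ x : K, algebraMap K Λ x ∈ algebraicClosure L Λ := by
    intro x
    have hx : x ∈ IntermediateField.adjoin ℂ (Set.range fun j => b j / b 0) := by
      rw [hgen]; trivial
    induction hx using IntermediateField.adjoin_induction with
    | mem x hx =>
      obtain ⟨j, rfl⟩ := hx
      refine Fin.cases ?_ (fun j => ?_) j
      · show algebraMap K Λ (b 0 / b 0) ∈ _
        rw [div_self (hb 0), map_one]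
        exact one_mem _
      · have := hcon j
        rw [Transcendental, not_not] at this
        exact mem_algebraicClosure_iff.2 this
    | algebraMap c =>
      rw [← IsScalarTower.algebraMap_apply ℂ K Λ, IsScalarTower.algebraMap_apply ℂ L Λ]
      exact IntermediateField.algebraMap_mem _ _
    | add x y hx hy h1 h2 => rw [map_add]; exact add_mem h1 h2
    | inv x hx h1 => rw [map_inv₀]; exact inv_mem h1
    | mul x y hx hy h1 h2 => rw [map_mul]; exact mul_mem h1 h2
  have h3 : algebraicClosure L Λ = ⊤ := by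
    rw [eq_top_iff, ← h.genΛ, IntermediateField.adjoin_le_iff]
    rintro _ ⟨x, rfl⟩
    exact h2 x
  have h4 : Algebra.IsAlgebraic L Λ := (algebraicClosure.eq_top_iff L Λ).1 h3
  rw [trdeg_eq_zero] at h1
  exact absurd h1 (by simp)

end c2Aux

open c2Aux in
/-- C2. The step. -/
theorem c2 (hc1 : C1Stmt) : C2Stmt := by
  intro K _ _ Q n s ρ b hb htr hgen L Λ _ _ _ _ _ _ _ _ u h h1
  have hch : CharZero L := charZero_of_injective_algebraMap (algebraMap ℂ L).injective
  set β : Fin s → Λ := fun j => algebraMap K Λ (b j.succ / b 0) with hβ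
  have hβt : ∃ j, Transcendental L (β j) := exists_trans hb hgen h h1
  have ist : IsScalarTower ℂ (LL L β) (PP Λ s) := IsScalarTower.of_algebraMap_eq (fun c => rfl)
  have eKΛ : ∀ x : K, algebraMap K (PP Λ s) x = algebraMap Λ (PP Λ s) (algebraMap K Λ x) :=
    fun x => IsScalarTower.algebraMap_apply K Λ (PP Λ s) x
  have eLΛ : ∀ x : L, algebraMap L (PP Λ s) x = algebraMap Λ (PP Λ s) (algebraMap L Λ x) :=
    fun x => IsScalarTower.algebraMap_apply L Λ (PP Λ s) x
  have eLL : ∀ x : L, algebraMap (LL L β) (PP Λ s) (algebraMap L (LL L β) x) =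
      algebraMap L (PP Λ s) x := fun x => rfl
  have eC : ∀ c : ℂ, algebraMap L (LL L β) (algebraMap ℂ L c) = algebraMap ℂ (LL L β) c :=
    fun c => (IsScalarTower.algebraMap_apply ℂ L (LL L β) c).symm
  refine ⟨LL L β, PP Λ s, inferInstance, inferInstance, inferInstance, inferInstance,
    inferInstance, inferInstance, ist, inferInstance, uu β u, ?_⟩
  constructor
  case q =>
    intro q hq
    obtain ⟨c, hc⟩ := h.q q hq
    refine ⟨algebraMap L (LL L β) c, ?_⟩
    rw [eLL, eLΛ, hc, eKΛ]
  case genL =>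
    set M := IntermediateField.adjoin ℂ
      ({c : LL L β | ∃ q ∈ Q, algebraMap (LL L β) (PP Λ s) c = algebraMap K (PP Λ s) q} ∪
        {c : LL L β | ∃ i j, c = uu β u i j}) with hM
    have h2 : ∀ c : L, algebraMap L (LL L β) c ∈ M := by
      intro c
      have hc : c ∈ IntermediateField.adjoin ℂ
          ({c : L | ∃ q ∈ Q, algebraMap L Λ c = algebraMap K Λ q} ∪
            {c : L | ∃ i j, c = u i j}) := by rw [h.genL]; trivial
      induction hc using IntermediateField.adjoin_induction with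
      | mem x hx =>
        rcases hx with ⟨q, hq, he⟩ | ⟨i, j, rfl⟩
        · exact IntermediateField.subset_adjoin _ _
            (Or.inl ⟨q, hq, by rw [eLL, eLΛ, he, eKΛ]⟩)
        · exact IntermediateField.subset_adjoin _ _ (Or.inr ⟨i.succ, j, rfl⟩)
      | algebraMap c =>
        rw [eC]
        exact IntermediateField.algebraMap_mem _ _
      | add x y hx hy h1 h2 => rw [map_add]; exact add_mem h1 h2
      | inv x hx h1 => rw [map_inv₀]; exact inv_mem h1
      | mul x y hx hy h1 h2 => rw [map_mul]; exact mul_mem h1 h2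
    refine gL_gen β M h2 (fun o => ?_)
    cases o with
    | none => exact IntermediateField.subset_adjoin _ _ (Or.inr ⟨0, 0, rfl⟩)
    | some j => exact IntermediateField.subset_adjoin _ _ (Or.inr ⟨0, j.succ, rfl⟩)
  case genΛ =>
    refine gen_PP β _ h.genΛ _ ?_
    rintro _ ⟨x, rfl⟩
    exact ⟨x, eKΛ x⟩
  case rel =>
    intro i
    refine Fin.cases ?_ (fun i => ?_) i
    · rw [Fin.sum_univ_succ]
      show gg β none * algebraMap K (PP Λ s) (b 0) +
        ∑ j : Fin s, gg β (some j) * algebraMap K (PP Λ s) (b j.succ) = 0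
      rw [gg_none, neg_mul, Finset.sum_mul, neg_add_eq_zero]
      apply Finset.sum_congr rfl
      intro j _
      rw [hβ, ← eKΛ, map_div₀]
      have hb0 : algebraMap K (PP Λ s) (b 0) ≠ 0 := by
        rw [Ne, map_eq_zero]
        exact hb 0
      field_simp
    · have h3 := congrArg (algebraMap Λ (PP Λ s)) (h.rel i)
      rw [map_zero, map_sum] at h3
      rw [← h3]
      apply Finset.sum_congr rfl
      intro j _
      rw [map_mul, ← eKΛ, ← eLΛ]
      rfl
  case trdegL =>
    rw [← trdeg_add_eq ℂ L (A := LL L β), h.trdegL, trdeg_LL hc1 β hβt, add_assoc,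
      ← Nat.cast_add]
    have h3 : ρ * (s + 1) + (s + 1) = (ρ + 1) * (s + 1) := by ring
    rw [h3]
  case trdegΛ =>
    exact arith _ _ _ _ s ρ n h.trdegΛ htr (trdeg_rel hc1 β hβt)
  case fg =>
    obtain ⟨T, hTf, hT⟩ := h.fg
    exact ⟨algebraMap Λ (PP Λ s) '' T, hTf.image _, gen_PP β T hT _ (fun t ht => ⟨t, ht, rfl⟩)⟩

end Pool.Agent.Lib.MP_410da7_agA
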