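import Pool.Agent.Lib.MP_410da7_agA.SpecA

/-!
# MP_410da7_ag (C46), block C, C3: the generic curve
-/

set_option autoImplicit false

namespace Pool.Agent.Lib.MP_410da7_agA

open MvPolynomial Module

namespace c3Aux

/-- there is a generic curve with `ρ` equations -/
def HasG {K : Type} [Field K] [Algebra ℂ K] (Q : IntermediateField ℂ K) {s : ℕ}
    (b : Fin (s + 1) → K) (ρ : ℕ) : Prop :=
  ∃ (L Λ : Type) (_ : Field L) (_ : Field Λ) (_ : Algebra ℂ L) (_ : Algebra L Λ)
      (_ : Algebra K Λ) (_ : Algebra ℂ Λ) (_ : IsScalarTower ℂ L Λ) (_ : IsScalarTower ℂ K Λ)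
      (u : Fin ρ → Fin (s + 1) → L), GCurve Q b L Λ u

theorem base {K : Type} [Field K] [Algebra ℂ K] (Q : IntermediateField ℂ K) {s N : ℕ}
    (b : Fin (s + 1) → K) (x : Fin N → K)
    (hx : IntermediateField.adjoin ℂ (Set.range x) = ⊤) : HasG Q b 0 := by
  refine ⟨Q, K, inferInstance, inferInstance, inferInstance, inferInstance, inferInstance,
    inferInstance, inferInstance, inferInstance, Fin.elim0, ?_⟩
  constructor
  case q =>
    intro q hq
    exact ⟨⟨q, hq⟩, rfl⟩
  case genL =>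
    rw [eq_top_iff]
    intro c _
    exact IntermediateField.subset_adjoin _ _ (Or.inl ⟨c.1, c.2, rfl⟩)
  case genΛ =>
    rw [eq_top_iff]
    intro c _
    exact IntermediateField.subset_adjoin _ _ ⟨c, rfl⟩
  case rel =>
    intro i
    exact i.elim0
  case trdegL => simp
  case trdegΛ =>
    rw [Nat.cast_zero, add_zero, add_comm]
    exact trdeg_add_eq ℂ Q (A := K)
  case fg =>
    refine ⟨Set.range x, Set.finite_range x, ?_⟩
    rw [eq_top_iff]
    intro c _
    have hc : c ∈ IntermediateField.adjoin ℂ (Set.range x) := by rw [hx]; trivial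
    induction hc using IntermediateField.adjoin_induction with
    | mem x hx => exact IntermediateField.subset_adjoin _ _ hx
    | algebraMap c =>
      rw [IsScalarTower.algebraMap_apply ℂ Q K]
      exact IntermediateField.algebraMap_mem _ _
    | add x y hx hy h1 h2 => exact add_mem (h1 trivial) (h2 trivial)
    | inv x hx h1 => exact inv_mem (h1 trivial)
    | mul x y hx hy h1 h2 => exact mul_mem (h1 trivial) (h2 trivial)

theorem fin_of {κ τ : Cardinal} {n : ℕ} (hn : τ = n) (h : κ < τ) : ∃ k : ℕ, κ = k ∧ k < n := by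
  subst hn
  obtain ⟨k, rfl⟩ := Cardinal.lt_aleph0.1 (h.trans Cardinal.natCast_lt_aleph0)
  exact ⟨k, rfl, by exact_mod_cast h⟩

theorem tr_of {a κ τ : Cardinal} {n k ρ : ℕ} (hn : τ = n) (hk : κ = k)
    (h : a + κ + (ρ : Cardinal) = τ) : ∃ m : ℕ, a = m ∧ m + k + ρ = n := by
  subst hn hk
  have ha : a < Cardinal.aleph0 := by
    refine lt_of_le_of_lt ?_ (Cardinal.natCast_lt_aleph0 (n := n))
    rw [← h]
    exact (self_le_add_right a _).trans (self_le_add_right _ _)
  obtain ⟨m, rfl⟩ := Cardinal.lt_aleph0.1 ha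
  exact ⟨m, rfl, by exact_mod_cast h⟩

end c3Aux

open c3Aux in
/-- C3. The generic curve. -/
theorem c3 (hc2 : C2Stmt) : C3Stmt := by
  intro K _ _ Q n N s x b hb htr hx hQ hgen
  obtain ⟨k, hk, hkn⟩ := fin_of htr hQ
  have key : ∀ ρ : ℕ, k + ρ < n → HasG Q b ρ := by
    intro ρ
    induction ρ with
    | zero => intro _; exact base Q b x hx
    | succ ρ ih =>
      intro h
      obtain ⟨L, Λ, i1, i2, i3, i4, i5, i6, i7, i8, u, hu⟩ := ih (by omega)
      obtain ⟨m, hm, hmn⟩ := tr_of htr hk hu.trdegΛ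
      refine hc2 K Q n s ρ b hb htr hgen L Λ u hu ?_
      rw [hm]
      exact_mod_cast (by omega : 1 ≤ m)
  obtain ⟨L, Λ, i1, i2, i3, i4, i5, i6, i7, i8, u, hu⟩ := key (n - k - 1) (by omega)
  obtain ⟨m, hm, hmn⟩ := tr_of htr hk hu.trdegΛ
  refine ⟨n - k - 1, L, Λ, i1, i2, i3, i4, i5, i6, i7, i8, u, hu, ?_⟩
  rw [hm]
  exact_mod_cast (by omega : m = 1)

end Pool.Agent.Lib.MP_410da7_agA
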