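import Pool.Agent.Lib.MP_410da7_agA.SpecA

/-!
# MP_410da7_ag (C46): C4, independent residues inside a generating set
-/

set_option autoImplicit false

namespace Pool.Agent.Lib.MP_410da7_agA

open MvPolynomial KaehlerDifferential WithZero

namespace c4Aux

/-- Every set `G` contains an algebraically independent subset which is a transcendence basis of the
field generated by `G`. -/
theorem basis_in {k κ : Type} [Field k] [Field κ] [Algebra k κ] (G : Set κ) :
    ∃ B : Set κ, B ⊆ G ∧ AlgebraicIndependent k ((↑) : B → κ) ∧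
      Algebra.trdeg k (IntermediateField.adjoin k G) ≤ Cardinal.mk B := by
  set M := IntermediateField.adjoin k G with hM
  set s : Set M := {y : M | (y : κ) ∈ G} with hs
  have hlift : ∀ r ∈ Algebra.adjoin k G, ∃ r' ∈ Algebra.adjoin k s, (r' : κ) = r := by
    intro r hr
    have h1 : Algebra.adjoin k G ≤ (Algebra.adjoin k s).map M.val := by
      apply Algebra.adjoin_le
      intro g hg
      exact ⟨⟨g, IntermediateField.subset_adjoin k G hg⟩, Algebra.subset_adjoin hg, rfl⟩
    obtain ⟨r', hr', h⟩ := h1 hr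
    exact ⟨r', hr', h⟩
  haveI : Algebra.IsAlgebraic (Algebra.adjoin k s) M := by
    constructor
    intro y
    obtain ⟨r, hr, t, ht, h⟩ := IntermediateField.mem_adjoin_iff_div.1 y.2
    obtain ⟨r', hr', h1⟩ := hlift r hr
    obtain ⟨t', ht', h2⟩ := hlift t ht
    have h3 : y = r' * t'⁻¹ := by
      apply Subtype.ext
      rw [h]
      push_cast
      rw [h1, h2, div_eq_mul_inv]
    rw [h3]
    exact (isAlgebraic_algebraMap (⟨r', hr'⟩ : Algebra.adjoin k s)).mul
      (isAlgebraic_algebraMap (⟨t', ht'⟩ : Algebra.adjoin k s)).inv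
  obtain ⟨t, hts, ht⟩ := exists_isTranscendenceBasis_subset (R := k) s
  refine ⟨(↑) '' t, ?_, ?_, ?_⟩
  · rintro _ ⟨y, hy, rfl⟩
    exact hts hy
  · have h1 : AlgebraicIndependent k (M.val ∘ ((↑) : t → M)) := ht.1.map' M.val.injective
    exact h1.to_subtype_range' (by rw [Set.range_comp, Subtype.range_coe]; rfl)
  · rw [← ht.cardinalMk_eq_trdeg, Cardinal.mk_image_eq Subtype.val_injective]

variable {K : Type} [Field K] [Algebra ℂ K]

/-- `rs` is the residue map of `v` (extended to `K`). -/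
structure RD (v : Valuation K ℤᵐ⁰) (κ : Type) [Field κ] [Algebra ℂ κ] (rs : K → κ) : Prop where
  cst : ∀ c : ℂ, rs (algebraMap ℂ K c) = algebraMap ℂ κ c
  add : ∀ f g, v f ≤ 1 → v g ≤ 1 → rs (f + g) = rs f + rs g
  mul : ∀ f g, v f ≤ 1 → v g ≤ 1 → rs (f * g) = rs f * rs g
  zero : ∀ f, v f ≤ 1 → (rs f = 0 ↔ v f < 1)

theorem triv_le {v : Valuation K ℤᵐ⁰} (hv : Triv v) (c : ℂ) : v (algebraMap ℂ K c) ≤ 1 := by
  by_cases h : c = 0
  · rw [h, map_zero, map_zero]
    exact zero_le_one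
  · rw [hv c h]

theorem exRD (v : Valuation K ℤᵐ⁰) (hv : Triv v) :
    ∃ (κ : Type) (_ : Field κ) (_ : Algebra ℂ κ) (rs : K → κ), RD v κ rs := by
  classical
  let O := v.valuationSubring
  let iO : ℂ →+* O := (algebraMap ℂ K).codRestrict O (fun c => triv_le hv c)
  letI : Algebra ℂ (IsLocalRing.ResidueField O) := ((IsLocalRing.residue O).comp iO).toAlgebra
  refine ⟨IsLocalRing.ResidueField O, inferInstance, inferInstance,
    fun f => if h : v f ≤ 1 then IsLocalRing.residue O ⟨f, h⟩ else 0, ?_⟩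
  constructor
  · intro c
    rw [dif_pos (triv_le hv c)]
    rfl
  · intro f g hf hg
    have hfg : v (f + g) ≤ 1 := (v.map_add f g).trans (max_le hf hg)
    rw [dif_pos hf, dif_pos hg, dif_pos hfg, ← map_add]
    rfl
  · intro f g hf hg
    have hfg : v (f * g) ≤ 1 := by
      rw [map_mul]
      exact mul_le_one' hf hg
    rw [dif_pos hf, dif_pos hg, dif_pos hfg, ← map_mul]
    rfl
  · intro f hf
    rw [dif_pos hf, IsLocalRing.residue_eq_zero_iff, IsLocalRing.mem_maximalIdeal,
      mem_nonunits_iff]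
    constructor
    · intro h
      refine lt_of_le_of_ne hf fun h1 => h ?_
      have hf0 : f ≠ 0 := by
        rintro rfl
        rw [map_zero] at h1
        exact zero_ne_one h1
      have hi : v f⁻¹ ≤ 1 := by rw [map_inv₀, h1, inv_one]
      refine IsUnit.of_mul_eq_one ⟨f⁻¹, hi⟩ ?_
      apply Subtype.ext
      exact mul_inv_cancel₀ hf0
    · intro h h1
      obtain ⟨g, hg⟩ := h1.exists_right_inv
      have h2 : f * (g : K) = 1 := congrArg Subtype.val hg
      have h3 : v f * v (g : K) = 1 := by rw [← map_mul, h2, map_one]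
      have h4 : v f * v (g : K) < 1 := by
        have hg1 : v (g : K) ≤ 1 := g.2
        calc v f * v (g : K) ≤ v f * 1 := by gcongr
          _ = v f := mul_one _
          _ < 1 := h
      exact absurd h3 h4.ne

variable {v : Valuation K ℤᵐ⁰} {κ : Type} [Field κ] [Algebra ℂ κ] {rs : K → κ}

theorem RD.one (H : RD v κ rs) : rs 1 = 1 := by
  have := H.cst 1
  rwa [map_one, map_one] at this

theorem RD.div (H : RD v κ rs) {f g : K} (hf : v f ≤ 1) (hg : v g = 1) :
    rs (f / g) = rs f / rs g := by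
  have hg0 : g ≠ 0 := by
    rintro rfl
    rw [map_zero] at hg
    exact zero_ne_one hg
  have h0 : rs g ≠ 0 := by
    intro h
    exact absurd ((H.zero g hg.le).1 h) (by rw [hg]; exact lt_irrefl _)
  rw [eq_div_iff h0, ← H.mul _ _ (by rw [map_div₀, hg, div_one]; exact hf) hg.le,
    div_mul_cancel₀ _ hg0]

theorem RD.aeval (H : RD v κ rs) (hv : Triv v) {ι : Type} (t : ι → K) (ht : ∀ i, v (t i) ≤ 1)
    (p : MvPolynomial ι ℂ) :
    v (MvPolynomial.aeval t p) ≤ 1 ∧
      rs (MvPolynomial.aeval t p) = MvPolynomial.aeval (rs ∘ t) p := by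
  induction p using MvPolynomial.induction_on with
  | C a =>
    rw [MvPolynomial.aeval_C, MvPolynomial.aeval_C]
    exact ⟨triv_le hv a, H.cst a⟩
  | add p q hp hq =>
    rw [map_add (MvPolynomial.aeval t), map_add (MvPolynomial.aeval (rs ∘ t))]
    refine ⟨(v.map_add _ _).trans (max_le hp.1 hq.1), ?_⟩
    rw [H.add _ _ hp.1 hq.1, hp.2, hq.2]
  | mul_X p i hp =>
    rw [map_mul (MvPolynomial.aeval t), map_mul (MvPolynomial.aeval (rs ∘ t)),
      MvPolynomial.aeval_X, MvPolynomial.aeval_X]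
    refine ⟨?_, ?_⟩
    · rw [map_mul]
      exact mul_le_one' hp.1 (ht i)
    · rw [H.mul _ _ hp.1 (ht i), hp.2]
      rfl

theorem RD.resIndep (H : RD v κ rs) (hv : Triv v) {ι : Type} (t : ι → K)
    (ht : ∀ i, v (t i) ≤ 1) (hi : AlgebraicIndependent ℂ (rs ∘ t)) : ResIndep v t := by
  intro p hp
  obtain ⟨h1, h2⟩ := H.aeval hv t ht p
  by_contra h
  have h3 : rs (MvPolynomial.aeval t p) = 0 := (H.zero _ h1).2 (lt_of_le_of_ne h1 h)
  rw [h2] at h3
  exact hp (hi.eq_zero_of_aeval_eq_zero p h3)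

theorem RD.indep (H : RD v κ rs) (hv : Triv v) {ι : Type} (t : ι → K) (h : ResIndep v t) :
    (∀ i, v (t i) = 1) ∧ AlgebraicIndependent ℂ (rs ∘ t) := by
  have h1 : ∀ i, v (t i) = 1 := by
    intro i
    have := h (X i) (X_ne_zero i)
    rwa [MvPolynomial.aeval_X] at this
  refine ⟨h1, ?_⟩
  rw [algebraicIndependent_iff]
  intro p hp
  by_contra hp0
  have h2 := h p hp0
  obtain ⟨h3, h4⟩ := H.aeval hv t (fun i => (h1 i).le) p
  rw [hp] at h4
  exact absurd ((H.zero _ h3).1 h4) (by rw [h2]; exact lt_irrefl _)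

/-- The residues of `m` suitable elements of `S` are independent, if the residues of `S` and `r` more
elements generate a field of transcendence degree at least `m + r`. -/
theorem RD.core (H : RD v κ rs) (hv : Triv v) (S : Set K) (hS : ∀ f ∈ S, v f ≤ 1) (U : Set κ)
    (m r : ℕ) (hU : Cardinal.mk U ≤ r)
    (hT : (m : Cardinal) + (r : Cardinal) ≤
      Algebra.trdeg ℂ (IntermediateField.adjoin ℂ (rs '' S ∪ U))) :
    ∃ t' : Fin m → K, (∀ i, t' i ∈ S) ∧ ResIndep v t' := by
  obtain ⟨B, hB, hBi, hBt⟩ := basis_in (k := ℂ) (rs '' S ∪ U)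
  have h1 : Cardinal.mk B ≤ Cardinal.mk (B ∩ rs '' S : Set κ) + (r : Cardinal) := by
    have h2 : B ⊆ (B ∩ rs '' S) ∪ U := by
      intro y hy
      rcases hB hy with h | h
      · exact Or.inl ⟨hy, h⟩
      · exact Or.inr h
    calc Cardinal.mk B ≤ Cardinal.mk ((B ∩ rs '' S) ∪ U : Set κ) := Cardinal.mk_le_mk_of_subset h2
      _ ≤ Cardinal.mk (B ∩ rs '' S : Set κ) + Cardinal.mk U := Cardinal.mk_union_le _ _
      _ ≤ _ := by gcongr
  have h2 : (m : Cardinal) ≤ Cardinal.mk (B ∩ rs '' S : Set κ) :=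
    (Cardinal.add_nat_le_add_nat_iff r).1 ((hT.trans hBt).trans h1)
  rw [← Cardinal.mk_fin m] at h2
  obtain ⟨e⟩ := h2
  have h3 : ∀ i : Fin m, ∃ f ∈ S, rs f = (e i : κ) := fun i => (e i).2.2
  choose t' ht' hrs using h3
  refine ⟨t', ht', H.resIndep hv t' (fun i => hS _ (ht' i)) ?_⟩
  have h4 : rs ∘ t' = ((↑) : B → κ) ∘ (fun i : Fin m => (⟨(e i : κ), (e i).2.1⟩ : B)) := by
    funext i
    exact hrs i
  rw [h4]
  apply hBi.comp
  intro i j hij
  apply e.injective
  apply Subtype.ext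
  exact congrArg (fun y : B => (y : κ)) hij

end c4Aux

open c4Aux in
theorem c4 : C4Stmt := by
  intro K _ _ v hv S hS m t ht hq
  obtain ⟨κ, i1, i2, rs, H⟩ := exRD v hv
  obtain ⟨ht1, hti⟩ := H.indep hv t ht
  apply H.core hv S hS ∅ m 0 (by simp)
  rw [Nat.cast_zero, add_zero, Set.union_empty]
  have hmem : ∀ i, rs (t i) ∈ IntermediateField.adjoin ℂ (rs '' S) := by
    intro i
    obtain ⟨f, hf, g, hg, hg1, h⟩ := hq i
    rw [h, H.div (hS f hf) hg1]
    exact div_mem (IntermediateField.subset_adjoin ℂ _ ⟨f, hf, rfl⟩)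
      (IntermediateField.subset_adjoin ℂ _ ⟨g, hg, rfl⟩)
  have h1 : AlgebraicIndependent ℂ
      (fun i => (⟨rs (t i), hmem i⟩ : IntermediateField.adjoin ℂ (rs '' S))) := by
    rw [← AlgHom.algebraicIndependent_iff (IntermediateField.adjoin ℂ (rs '' S)).val
      (IntermediateField.adjoin ℂ (rs '' S)).val.injective]
    exact hti
  have h2 := h1.cardinalMk_le_trdeg
  rwa [Cardinal.mk_fin] at h2

end Pool.Agent.Lib.MP_410da7_agA
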