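import Pool.Agent.Lib.MP_410da7_agA.C4

/-!
# MP_410da7_ag (C46): C5, places of the generic curve
-/

set_option autoImplicit false

namespace Pool.Agent.Lib.MP_410da7_agA

open MvPolynomial KaehlerDifferential WithZero

namespace c5Aux

open c4Aux

/-- The residue of a finite sum. -/
theorem RD.sum {K : Type} [Field K] [Algebra ℂ K] {v : Valuation K ℤᵐ⁰} {κ : Type} [Field κ]
    [Algebra ℂ κ] {rs : K → κ} (H : RD v κ rs) {ι : Type} (s : Finset ι) (f : ι → K)
    (hf : ∀ i ∈ s, v (f i) ≤ 1) :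
    v (∑ i ∈ s, f i) ≤ 1 ∧ rs (∑ i ∈ s, f i) = ∑ i ∈ s, rs (f i) := by
  classical
  induction s using Finset.induction_on with
  | empty =>
    rw [Finset.sum_empty, Finset.sum_empty, map_zero]
    refine ⟨zero_le_one, ?_⟩
    rw [H.zero 0 (by rw [map_zero]; exact zero_le_one), map_zero]
    exact zero_lt_one
  | insert a s ha ih =>
    have h1 := ih fun i hi => hf i (Finset.mem_insert_of_mem hi)
    have h2 := hf a (Finset.mem_insert_self a s)
    rw [Finset.sum_insert ha, Finset.sum_insert ha]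
    exact ⟨(v.map_add _ _).trans (max_le h2 h1.1), by rw [H.add _ _ h2 h1.1, h1.2]⟩

theorem ind_comap {K Λ : Type} [Field K] [Field Λ] [Algebra ℂ K] [Algebra ℂ Λ] [Algebra K Λ]
    [IsScalarTower ℂ K Λ] (w : Valuation Λ ℤᵐ⁰) {ι : Type} (t : ι → K)
    (h : ResIndep w (fun i => algebraMap K Λ (t i))) :
    ResIndep (w.comap (algebraMap K Λ)) t := by
  intro p hp
  have h1 := h p hp
  have h2 : MvPolynomial.aeval (fun i => algebraMap K Λ (t i)) p =
      algebraMap K Λ (MvPolynomial.aeval t p) := MvPolynomial.aeval_algebraMap_apply Λ t p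
  rw [h2] at h1
  exact h1

/-- Transcendence degrees: the field generated by the residues of `Q`, the `b_j/b_{j₀}` and the
`u_{i j}`, `j ≠ j₀`, contains a copy of `L`. -/
theorem trdeg_count (q r s ρ n : ℕ) (hq : (1 : Cardinal) + (q : Cardinal) + (ρ : Cardinal) = n)
    (T : Cardinal) (hr : r = ρ * s)
    (hT : (q : Cardinal) + ((ρ * (s + 1) : ℕ) : Cardinal) ≤ T) :
    ((n - 1 : ℕ) : Cardinal) + (r : Cardinal) ≤ T := by
  have h1 : 1 + q + ρ = n := by exact_mod_cast hq
  refine le_trans (le_of_eq ?_) hT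
  rw [← Nat.cast_add, ← Nat.cast_add]
  congr 1
  rw [hr, ← h1]
  ring_nf
  omega

end c5Aux

open c4Aux c5Aux in
theorem c5 : C5Stmt := by
  classical
  intro K _ _ Q n s ρ b hb htr L Λ _ _ _ _ _ _ _ _ u G htΛ w hwL hw j₀ hj₀
  have hw1 : ∀ c : L, w (algebraMap L Λ c) ≤ 1 := by
    intro c
    by_cases h : c = 0
    · rw [h, map_zero, map_zero]
      exact zero_le_one
    · rw [hwL c h]
  have hwT : Triv w := by
    intro c hc
    rw [IsScalarTower.algebraMap_apply ℂ L Λ]
    apply hwL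
    intro h
    exact hc ((algebraMap ℂ L).injective (by rw [h, map_zero]))
  obtain ⟨κ, i1, i2, rs, H⟩ := exRD w hwT
  -- the sets
  let S : Set K := {f | f ∈ Q ∨ ∃ j, f = b j / b j₀}
  let S' : Set Λ := algebraMap K Λ '' S
  have hb0 : w (algebraMap K Λ (b j₀)) ≠ 0 := by
    rw [Valuation.ne_zero_iff]
    intro h
    exact hb j₀ ((algebraMap K Λ).injective (by rw [h, map_zero]))
  have hbΛ : algebraMap K Λ (b j₀) ≠ 0 := by
    intro h
    exact hb j₀ ((algebraMap K Λ).injective (by rw [h, map_zero]))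
  have hβ : ∀ j, w (algebraMap K Λ (b j / b j₀)) ≤ 1 := by
    intro j
    rw [map_div₀, map_div₀]
    exact (div_le_one₀ (zero_lt_iff.2 hb0)).2 (hj₀ j)
  have hS' : ∀ f ∈ S', w f ≤ 1 := by
    rintro _ ⟨f, hf | ⟨j, rfl⟩, rfl⟩
    · obtain ⟨c, hc⟩ := G.q f hf
      rw [← hc]
      exact hw1 c
    · exact hβ j
  let U : Set κ := Set.range fun p : Fin ρ × {j : Fin (s + 1) // j ≠ j₀} =>
    rs (algebraMap L Λ (u p.1 p.2.1))
  have hU : Cardinal.mk U ≤ ((ρ * s : ℕ) : Cardinal) := by
    refine Cardinal.mk_range_le.trans ?_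
    have h1 : Fintype.card (Fin ρ × {j : Fin (s + 1) // j ≠ j₀}) = ρ * s := by
      rw [Fintype.card_prod, Fintype.card_fin]
      congr 1
      rw [Fintype.card_subtype_compl, Fintype.card_fin, Fintype.card_subtype_eq]
      rfl
    rw [Cardinal.mk_fintype, h1]
  -- the map from `L`
  let φ : L →ₐ[ℂ] κ :=
    { toFun := fun c => rs (algebraMap L Λ c)
      map_one' := by rw [map_one]; exact H.one
      map_mul' := fun x y => by rw [map_mul]; exact H.mul _ _ (hw1 x) (hw1 y)
      map_zero' := by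
        have h0 : w (0 : Λ) ≤ 1 := by rw [map_zero]; exact zero_le_one
        rw [map_zero, H.zero _ h0, map_zero]
        exact zero_lt_one
      map_add' := fun x y => by rw [map_add]; exact H.add _ _ (hw1 x) (hw1 y)
      commutes' := fun c => by
        rw [← IsScalarTower.algebraMap_apply ℂ L Λ]
        exact H.cst c }
  set M := IntermediateField.adjoin ℂ (rs '' S' ∪ U) with hM
  have hβM : ∀ j, rs (algebraMap K Λ (b j / b j₀)) ∈ M := fun j =>
    IntermediateField.subset_adjoin ℂ _ (Or.inl ⟨_, ⟨_, Or.inr ⟨j, rfl⟩, rfl⟩, rfl⟩)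
  have huM : ∀ i j, j ≠ j₀ → rs (algebraMap L Λ (u i j)) ∈ M := fun i j hj =>
    IntermediateField.subset_adjoin ℂ _ (Or.inr ⟨(i, ⟨j, hj⟩), rfl⟩)
  have hu0 : ∀ i, rs (algebraMap L Λ (u i j₀)) ∈ M := by
    intro i
    have h1 := G.rel i
    have h2 : algebraMap L Λ (u i j₀) = ∑ j ∈ Finset.univ.erase j₀,
        (-algebraMap L Λ (u i j)) * algebraMap K Λ (b j / b j₀) := by
      rw [← Finset.add_sum_erase _ _ (Finset.mem_univ j₀)] at h1
      have h3 : algebraMap L Λ (u i j₀) * algebraMap K Λ (b j₀) =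
          ∑ j ∈ Finset.univ.erase j₀, (-algebraMap L Λ (u i j)) * algebraMap K Λ (b j) := by
        rw [eq_neg_of_add_eq_zero_left h1, ← Finset.sum_neg_distrib]
        refine Finset.sum_congr rfl fun j _ => ?_
        ring
      rw [eq_div_of_mul_eq hbΛ h3, Finset.sum_div]
      refine Finset.sum_congr rfl fun j _ => ?_
      rw [map_div₀, mul_div_assoc]
    have hn : ∀ j, w (-algebraMap L Λ (u i j)) ≤ 1 := fun j => by
      rw [Valuation.map_neg]
      exact hw1 _
    have h4 : ∀ j ∈ Finset.univ.erase j₀,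
        w ((-algebraMap L Λ (u i j)) * algebraMap K Λ (b j / b j₀)) ≤ 1 := by
      intro j _
      rw [map_mul]
      exact mul_le_one' (hn j) (hβ j)
    rw [h2, (RD.sum H _ _ h4).2]
    refine sum_mem fun j hj => ?_
    rw [H.mul _ _ (hn j) (hβ j)]
    refine mul_mem ?_ (hβM j)
    have h5 : rs (-algebraMap L Λ (u i j)) = - rs (algebraMap L Λ (u i j)) := by
      have := map_neg φ (u i j)
      change rs (algebraMap L Λ (-(u i j))) = - rs (algebraMap L Λ (u i j)) at this
      rwa [map_neg] at this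
    rw [h5]
    exact neg_mem (huM i j (Finset.ne_of_mem_erase hj))
  have hφM : ∀ c : L, φ c ∈ M := by
    have h1 : (⊤ : IntermediateField ℂ L).map φ ≤ M := by
      rw [← G.genL, IntermediateField.adjoin_map]
      rw [IntermediateField.adjoin_le_iff]
      rintro _ ⟨c, ⟨q, hq, hc⟩ | ⟨i, j, rfl⟩, rfl⟩
      · change rs (algebraMap L Λ c) ∈ M
        rw [hc]
        exact IntermediateField.subset_adjoin ℂ _ (Or.inl ⟨_, ⟨_, Or.inl hq, rfl⟩, rfl⟩)
      · change rs (algebraMap L Λ (u i j)) ∈ M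
        by_cases hj : j = j₀
        · rw [hj]
          exact hu0 i
        · exact huM i j hj
    intro c
    exact h1 ⟨c, trivial, rfl⟩
  let ψ : L →ₐ[ℂ] M := φ.codRestrict M.toSubalgebra hφM
  have hT : Algebra.trdeg ℂ L ≤ Algebra.trdeg ℂ M :=
    trdeg_le_of_injective ψ ψ.toRingHom.injective
  -- numbers
  have hcount := G.trdegΛ
  rw [htΛ, htr] at hcount
  have hQfin : Algebra.trdeg ℂ Q < Cardinal.aleph0 := by
    refine lt_of_le_of_lt ?_ (Cardinal.natCast_lt_aleph0 (n := n))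
    rw [← hcount]
    exact (self_le_add_left _ _).trans (self_le_add_right _ _)
  obtain ⟨q, hq⟩ := Cardinal.lt_aleph0.1 hQfin
  have hL := G.trdegL
  rw [hq] at hL hcount
  rw [hL] at hT
  obtain ⟨t', ht', hres⟩ := H.core hwT S' hS' U (n - 1) (ρ * s) hU
    (trdeg_count q (ρ * s) s ρ n hcount _ rfl hT)
  choose t ht htt using ht'
  refine ⟨t, ht, ind_comap w t ?_⟩
  have h9 : (fun i => algebraMap K Λ (t i)) = t' := funext htt
  rw [h9]
  exact hres

end Pool.Agent.Lib.MP_410da7_agA
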