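import Pool.Agent.Lib.MP_410da7_agA.SpecA

/-!
# MP_410da7_ag, `C6`: elements of `Q` are quotients of elements of `Ratio b₁`
-/

set_option autoImplicit false

namespace Pool.Agent.Lib.MP_410da7_agA

open MvPolynomial KaehlerDifferential WithZero Module

namespace c6Aux

variable {K : Type} [Field K] [Algebra ℂ K] {n N : ℕ}

/-- a combination of elements with value `< γ` has value `< γ` -/
theorem span_lt {v : Valuation K ℤᵐ⁰} (hv : Triv v) {γ : ℤᵐ⁰} (hγ : 0 < γ) {S : Set K}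
    (hS : ∀ f ∈ S, v f < γ) {b : K} (hb : b ∈ Submodule.span ℂ S) : v b < γ := by
  induction hb using Submodule.span_induction with
  | mem x hx => exact hS x hx
  | zero => rw [map_zero]; exact hγ
  | add x y _ _ hx hy => exact lt_of_le_of_lt (v.map_add x y) (max_lt hx hy)
  | smul c x _ hx =>
    by_cases hc : c = 0
    · rw [hc, zero_smul, map_zero]
      exact hγ
    · rw [Algebra.smul_def, map_mul, hv c hc, one_mul]
      exact hx

theorem pow_mem {Ψ : Ω[K⁄ℂ] [⋀^Fin n]→ₗ[K] K} {x : Fin N → K} (h1 : (1 : K) ∈ Sec Ψ x 0 0)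
    (hmul : ∀ m e m' e', ∀ F ∈ Sec Ψ x m e, ∀ G ∈ Sec Ψ x m' e', F * G ∈ Sec Ψ x (m + m') (e + e'))
    {m e : ℕ} {F : K} (hF : F ∈ Sec Ψ x m e) (k : ℕ) : F ^ k ∈ Sec Ψ x (k * m) (k * e) := by
  induction k with
  | zero =>
    rw [pow_zero, zero_mul, zero_mul]
    exact h1
  | succ k ih =>
    rw [pow_succ, add_mul, add_mul, one_mul, one_mul]
    exact hmul _ _ _ _ _ ih _ hF

end c6Aux

theorem c6 (ha1 : A1Stmt) : C6Stmt := by
  intro K _ _ n N Ψ x m₀ e₀ m₁ e₁ a₀ _ hT v hv hQ b₁ hb₁ hb₁0 hmax q hq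
  obtain ⟨s0, s1, -, -, smul, -, -⟩ := ha1 K n N Ψ x
  by_cases hq0 : q = 0
  · refine ⟨0, ⟨0, 0, ?_, ?_⟩, 1, ⟨0, 1, ?_, ?_⟩, ?_, ?_, ?_⟩
    · exact s0 _ _
    · rw [zero_div]
    · rw [zero_mul, zero_mul]
      exact s1
    · rw [pow_zero, div_one]
    · rw [map_zero]
      exact zero_le_one
    · rw [map_one]
    · rw [zero_div, hq0]
  have hvq : v q = 1 := hQ q hq hq0
  -- we may assume that the degree is positive
  obtain ⟨m, e, hm1, hme, a, ha, b, hb, hb0, hab⟩ : ∃ m e : ℕ, 1 ≤ m ∧ m * e₀ = e * m₀ ∧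
      ∃ a ∈ Sec Ψ x m e, ∃ b ∈ Sec Ψ x m e, b ≠ 0 ∧ q = a / b := by
    obtain ⟨m, e, hme, a, ha, b, hb, hb0, hab⟩ := hq
    refine ⟨m₀ + m, e₀ + e, le_trans hT.m0 (Nat.le_add_right _ _), ?_, a₀ * a,
      smul _ _ _ _ _ hT.mem _ ha, a₀ * b, smul _ _ _ _ _ hT.mem _ hb, mul_ne_zero hT.ne hb0, ?_⟩
    · rw [add_mul, add_mul, hme, mul_comm m₀ e₀]
    · rw [hab, mul_div_mul_left _ _ hT.ne]
  have hvb₁ : 0 < v b₁ := (Valuation.pos_iff v).2 hb₁0
  -- the product with the value of `b₁`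
  obtain ⟨m', e', m'', e'', hm', hme', hmm, hee, a', ha', c, hc, hac⟩ : ∃ m' e' m'' e'' : ℕ,
      1 ≤ m' ∧ m' * e₀ = e' * m₀ ∧ m' + m'' = m₁ ∧ e' + e'' = e₁ ∧
      ∃ a' ∈ Sec Ψ x m' e', ∃ c ∈ Sec Ψ x m'' e'', v b₁ ≤ v (a' * c) := by
    by_contra hcon
    push Not at hcon
    refine lt_irrefl _ (c6Aux.span_lt hv hvb₁ ?_ (hT.split b₁ hb₁))
    rintro f ⟨m', e', m'', e'', h1, h2, h3, h4, a', ha', c, hc, rfl⟩
    exact hcon m' e' m'' e'' h1 h2 h3 h4 a' ha' c hc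
  have hac' : v (a' * c) = v b₁ := by
    apply le_antisymm _ hac
    apply hmax
    have := smul _ _ _ _ _ ha' _ hc
    rw [hmm, hee] at this
    exact this
  have hac0 : a' * c ≠ 0 := by
    intro h
    rw [h, map_zero] at hac'
    exact hvb₁.ne hac'
  have ha'0 : a' ≠ 0 := left_ne_zero_of_mul hac0
  have hc0 : c ≠ 0 := right_ne_zero_of_mul hac0
  have hb₁r : ∀ r : ℕ, b₁ ^ r ≠ 0 := fun r => pow_ne_zero r hb₁0
  have pm := fun {m e : ℕ} {F : K} (hF : F ∈ Sec Ψ x m e) (k : ℕ) => c6Aux.pow_mem s1 smul hF k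
  let r := m * m₀
  let s := m₀ * m'
  have hs1 : 1 ≤ s := Nat.mul_pos hT.m0 hm'
  have e1 : s * m = r * m' := by
    show m₀ * m' * m = m * m₀ * m'
    ring
  have e2 : s * e = r * e' := by
    show m₀ * m' * e = m * m₀ * e'
    calc m₀ * m' * e = m' * (e * m₀) := by ring
      _ = m' * (m * e₀) := by rw [hme]
      _ = m * (m' * e₀) := by ring
      _ = m * (e' * m₀) := by rw [hme']
      _ = m * m₀ * e' := by ring
  have hbs : b ^ s ∈ Sec Ψ x (r * m') (r * e') := by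
    have := pm hb s
    rw [e1, e2] at this
    exact this
  have hcr : c ^ r ∈ Sec Ψ x (r * m'') (r * e'') := pm hc r
  have har : a' ^ r ∈ Sec Ψ x (r * m') (r * e') := pm ha' r
  have habs : a * b ^ (s - 1) ∈ Sec Ψ x (r * m') (r * e') := by
    have h := smul _ _ _ _ _ ha _ (pm hb (s - 1))
    have h1 : m + (s - 1) * m = r * m' := by
      rw [← e1]
      nlinarith [Nat.sub_add_cancel hs1]
    have h2 : e + (s - 1) * e = r * e' := by
      rw [← e2]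
      nlinarith [Nat.sub_add_cancel hs1]
    rw [h1, h2] at h
    exact h
  have hfin : ∀ F ∈ Sec Ψ x (r * m') (r * e'), F * c ^ r ∈ Sec Ψ x (r * m₁) (r * e₁) := by
    intro F hF
    have h := smul _ _ _ _ _ hF _ hcr
    rw [← mul_add, ← mul_add, hmm, hee] at h
    exact h
  have hvbs : v (b ^ s) = v (a' ^ r) := by
    have h1 : v (b ^ s / a' ^ r) = 1 := by
      apply hQ
      · refine ⟨r * m', r * e', ?_, b ^ s, hbs, a' ^ r, har, pow_ne_zero _ ha'0, rfl⟩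
        rw [mul_assoc r m' e₀, mul_assoc r e' m₀, hme']
      · exact div_ne_zero (pow_ne_zero _ hb0) (pow_ne_zero _ ha'0)
    rw [map_div₀] at h1
    have h2 : v (a' ^ r) ≠ 0 := (Valuation.ne_zero_iff v).2 (pow_ne_zero _ ha'0)
    exact (div_eq_one_iff_eq h2).1 h1
  have hvg : v (b ^ s * c ^ r / b₁ ^ r) = 1 := by
    rw [map_div₀, map_mul, hvbs, ← map_mul, ← mul_pow, map_pow, map_pow, hac']
    exact div_self (pow_ne_zero _ hvb₁.ne')
  have hbb : b ^ s = b * b ^ (s - 1) := by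
    rw [← pow_succ', Nat.sub_add_cancel hs1]
  have hfq : a * b ^ (s - 1) * c ^ r / b₁ ^ r = q * (b ^ s * c ^ r / b₁ ^ r) := by
    rw [hab, hbb]
    field_simp
  refine ⟨a * b ^ (s - 1) * c ^ r / b₁ ^ r, ⟨r, _, hfin _ habs, rfl⟩, b ^ s * c ^ r / b₁ ^ r,
    ⟨r, _, hfin _ hbs, rfl⟩, ?_, hvg, ?_⟩
  · rw [hfq, map_mul, hvq, hvg, one_mul]
  · rw [hfq, mul_div_assoc, div_self, mul_one]
    intro h
    rw [h, map_zero] at hvg
    exact zero_ne_one hvg

end Pool.Agent.Lib.MP_410da7_agA
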