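import Pool.Agent.Lib.MP_410da7_agA.SpecD
import Pool.Agent.Lib.MP_cc17a8_ag.PlacesDedekind

/-!
# MP_410da7_ag, C46, module D1

Valuation subrings of a function field of one variable are given by valuations with values in `ℤᵐ⁰`.
-/

set_option autoImplicit false

namespace Pool.Agent.Lib.MP_410da7_agA

open WithZero Polynomial IntermediateField algebraAdjoinAdjoin
open Pool.Agent.Lib.MP_cc17a8_ag (IsFunctionField isLocalization_of_place isDVR_of_place)

namespace d1Aux

theorem isFF (L Λ : Type) [Field L] [Field Λ] [Algebra L Λ] (h : Algebra.trdeg L Λ = 1)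
    (hT : ∃ T : Set Λ, T.Finite ∧ IntermediateField.adjoin L T = ⊤) : IsFunctionField L Λ := by
  refine ⟨h, ?_⟩
  rw [← IntermediateField.fg_top_iff]
  obtain ⟨T, hT, h1⟩ := hT
  exact ⟨hT.toFinset, by simpa using h1⟩

/-- A valuation ring contains the elements integral over a subring. -/
theorem mem_of_isIntegral {A F : Type} [CommRing A] [Field F] [Algebra A F] (v : ValuationSubring F)
    (hA : ∀ a : A, algebraMap A F a ∈ v) (s : F) (hs : IsIntegral A s) : s ∈ v := by
  let _ : Algebra A v := (RingHom.codRestrict (algebraMap A F) v.toSubring hA).toAlgebra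
  have : IsScalarTower A v F := IsScalarTower.of_algebraMap_eq fun _ => rfl
  have hs' : IsIntegral v s := hs.tower_top
  obtain ⟨y, hy⟩ := IsIntegrallyClosed.isIntegral_iff.mp hs'
  rw [← hy]; exact y.2

/-- A valuation subring containing the constants is everything or a discrete valuation ring. -/
theorem dvr {k F : Type} [Field k] [Field F] [Algebra k F] [CharZero k] (hF : IsFunctionField k F)
    (v : ValuationSubring F) (hk : ∀ c : k, algebraMap k F c ∈ v) (hv : v ≠ ⊤) :
    IsDiscreteValuationRing v := by
  have h : ∃ x, x ∉ v := by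
    by_contra h
    push Not at h
    exact hv (eq_top_iff.mpr fun x _ => h x)
  obtain ⟨x, hx⟩ := h
  have hfv : x⁻¹ ∈ v := (v.mem_or_inv_mem x).resolve_left hx
  have htr : Transcendental k x⁻¹ := by
    intro hal
    apply hx
    exact mem_of_isIntegral v hk x (by simpa using hal.inv.isIntegral)
  set f := x⁻¹ with hf
  have hfd : FiniteDimensional k⟮f⟯ F := hF.finiteDimensional htr
  have hcz : CharZero k⟮f⟯ := charZero_of_injective_algebraMap (algebraMap k k⟮f⟯).injective
  let A := Algebra.adjoin k {f}
  let eA : k[X] ≃ₐ[k] A := Polynomial.algEquivOfTranscendental k f htr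
  have hPID : IsPrincipalIdealRing A :=
    IsPrincipalIdealRing.of_surjective eA.toRingEquiv eA.surjective
  let S := integralClosure A F
  have hDed : IsDedekindDomain S := IsIntegralClosure.isDedekindDomain A k⟮f⟯ F S
  have hfrac : IsFractionRing S F := IsIntegralClosure.isFractionRing_of_finite_extension A k⟮f⟯ F S
  have hA : ∀ a : A, (a : F) ∈ v := by
    intro a
    let vs : Subalgebra k F := { v.toSubring with algebraMap_mem' := hk }
    have : Algebra.adjoin k {f} ≤ vs := by
      rw [Algebra.adjoin_le_iff, Set.singleton_subset_iff]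
      exact hfv
    exact this a.2
  refine isDVR_of_place (S := S) hv ?_
  intro s
  exact mem_of_isIntegral v hA s s.2

end d1Aux

open d1Aux in
theorem d1 : D1Stmt := by
  intro L Λ _ _ _ _ htr hT V hV
  have hF := isFF L Λ htr hT
  classical
  by_cases htop : V = ⊤
  · refine ⟨1, ?_, ?_⟩
    · intro c hc
      rw [Valuation.one_apply_of_ne_zero]
      simpa using hc
    · intro f
      rw [htop]
      simp only [ValuationSubring.mem_top, true_iff]
      exact Valuation.one_apply_le_one f
  · have := dvr hF V hV htop
    have key : ∀ f : Λ, f ∈ V ↔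
        (IsDiscreteValuationRing.maximalIdeal V).valuation Λ f ≤ 1 := by
      intro f
      constructor
      · intro hf
        exact (IsDiscreteValuationRing.maximalIdeal V).valuation_le_one (K := Λ) (⟨f, hf⟩ : V)
      · intro hf
        obtain ⟨a, ha⟩ := IsDiscreteValuationRing.exists_lift_of_le_one hf
        rw [← ha]; exact a.2
    refine ⟨(IsDiscreteValuationRing.maximalIdeal V).valuation Λ, ?_, key⟩
    intro c hc
    apply le_antisymm ((key _).mp (hV c))
    have h1 := (key _).mp (hV c⁻¹)
    rw [map_inv₀, map_inv₀] at h1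
    have h2 : (IsDiscreteValuationRing.maximalIdeal V).valuation Λ (algebraMap L Λ c) ≠ 0 := by
      rw [Valuation.ne_zero_iff]
      simpa using hc
    rwa [inv_le_one₀ (zero_lt_iff.mpr h2)] at h1

end Pool.Agent.Lib.MP_410da7_agA
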