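import Pool.Agent.Lib.MP_410da7_agA.SpecD
import Pool.Agent.Lib.MP_410da7_ag.TopForm
import Pool.Agent.Lib.MP_410da7_ag.Val

/-!
# MP_410da7_ag, smooth affine varieties (C46): D14, the logarithmic frame at a place at infinity
-/

set_option autoImplicit false

namespace Pool.Agent.Lib.MP_410da7_agA

namespace d14Aux

open MvPolynomial KaehlerDifferential WithZero Module
open Pool.Agent.Lib.MP_410da7_ag (regDiff logDiff regGens logGens)

section

variable {K : Type} [Field K] [Algebra ℂ K] {v : Valuation K ℤᵐ⁰} {N : ℕ}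

theorem triv_le (hv : Triv v) (c : ℂ) : v (algebraMap ℂ K c) ≤ 1 := by
  by_cases h : c = 0
  · rw [h, map_zero, map_zero]; exact zero_le_one
  · exact (hv c h).le

/-- the constants -/
noncomputable def cO (hv : Triv v) : ℂ →+* v.integer where
  toFun c := ⟨algebraMap ℂ K c, triv_le hv c⟩
  map_one' := Subtype.ext (map_one _)
  map_mul' a b := Subtype.ext (map_mul _ _ _)
  map_zero' := Subtype.ext (map_zero _)
  map_add' a b := Subtype.ext (map_add _ _ _)

/-- evaluation in the valuation ring -/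
noncomputable def ev (hv : Triv v) (s : Fin N → v.integer) :
    MvPolynomial (Fin N) ℂ →+* v.integer := eval₂Hom (cO hv) s

theorem ev_X (hv : Triv v) (s : Fin N → v.integer) (l : Fin N) : ev hv s (X l) = s l := by
  unfold ev
  exact eval₂Hom_X' _ _ _

theorem ev_C (hv : Triv v) (s : Fin N → v.integer) (c : ℂ) : ev hv s (C c) = cO hv c := by
  unfold ev
  exact eval₂Hom_C _ _ _

theorem coe_ev (hv : Triv v) (s : Fin N → v.integer) (P : MvPolynomial (Fin N) ℂ) :
    ((ev hv s P : v.integer) : K) = aeval (fun l => (s l : K)) P := by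
  have : v.integer.subtype.comp (ev hv s) =
      (aeval (R := ℂ) (fun l => (s l : K)) : _ →+* K) := by
    apply MvPolynomial.ringHom_ext
    · intro c
      rw [RingHom.comp_apply, ev_C]
      simp [cO]
    · intro l
      rw [RingHom.comp_apply, ev_X]
      simp
  exact RingHom.congr_fun this P

variable {κ : Type} [Field κ] (hv : Triv v) (s : Fin N → v.integer) (res : v.integer →+* κ)

/-- the derivation of the polynomial ring with values `ξ` -/
noncomputable def Dx (ξ : Fin N → κ) (P : MvPolynomial (Fin N) ℂ) : κ :=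
  ∑ l, res (ev hv s (pderiv l P)) * ξ l

theorem Dx_add (ξ : Fin N → κ) (P Q : MvPolynomial (Fin N) ℂ) :
    Dx hv s res ξ (P + Q) = Dx hv s res ξ P + Dx hv s res ξ Q := by
  unfold Dx
  rw [← Finset.sum_add_distrib]
  refine Finset.sum_congr rfl fun l _ => ?_
  rw [map_add, map_add, map_add, add_mul]

theorem Dx_mul (ξ : Fin N → κ) (P Q : MvPolynomial (Fin N) ℂ) :
    Dx hv s res ξ (P * Q) = res (ev hv s P) * Dx hv s res ξ Q +
      res (ev hv s Q) * Dx hv s res ξ P := by
  unfold Dx
  rw [Finset.mul_sum, Finset.mul_sum, ← Finset.sum_add_distrib]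
  refine Finset.sum_congr rfl fun l _ => ?_
  rw [pderiv_mul, map_add, map_add, map_mul, map_mul, map_mul, map_mul]
  ring

theorem Dx_C (ξ : Fin N → κ) (c : ℂ) : Dx hv s res ξ (C c) = 0 := by
  unfold Dx
  refine Finset.sum_eq_zero fun l _ => ?_
  rw [pderiv_C, map_zero, map_zero, zero_mul]

theorem Dx_one (ξ : Fin N → κ) : Dx hv s res ξ 1 = 0 := by
  rw [← C_1]; exact Dx_C hv s res ξ 1

theorem Dx_zero (ξ : Fin N → κ) : Dx hv s res ξ 0 = 0 := by
  rw [← C_0]; exact Dx_C hv s res ξ 0

theorem Dx_X (ξ : Fin N → κ) (l : Fin N) : Dx hv s res ξ (X l) = ξ l := by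
  classical
  unfold Dx
  rw [Finset.sum_eq_single l]
  · rw [pderiv_X_self, map_one, map_one, one_mul]
  · intro j _ hj
    rw [pderiv_X_of_ne hj.symm, map_zero, map_zero, zero_mul]
  · intro h
    exact absurd (Finset.mem_univ l) h

theorem Dx_sub (ξ : Fin N → κ) (P Q : MvPolynomial (Fin N) ℂ) :
    Dx hv s res ξ (P - Q) = Dx hv s res ξ P - Dx hv s res ξ Q := by
  have := Dx_add hv s res ξ (P - Q) Q
  rw [sub_add_cancel] at this
  rw [this]; ring

theorem Dx_sum {ι : Type} (ξ : Fin N → κ) (t : Finset ι) (P : ι → MvPolynomial (Fin N) ℂ) :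
    Dx hv s res ξ (∑ i ∈ t, P i) = ∑ i ∈ t, Dx hv s res ξ (P i) := by
  classical
  induction t using Finset.induction with
  | empty => rw [Finset.sum_empty, Finset.sum_empty]; exact Dx_zero hv s res ξ
  | insert a t ha ih => rw [Finset.sum_insert ha, Finset.sum_insert ha, Dx_add, ih]

/-- extension of the derivation to the valuation ring -/
theorem exists_der
    (hloc : ∀ f : v.integer, ∃ P Q : MvPolynomial (Fin N) ℂ, res (ev hv s Q) ≠ 0 ∧
      f * ev hv s Q = ev hv s P) (ξ : Fin N → κ)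
    (hker : ∀ P, ev hv s P = 0 → Dx hv s res ξ P = 0) :
    ∃ δ : v.integer → κ,
      (∀ f P Q, res (ev hv s Q) ≠ 0 → f * ev hv s Q = ev hv s P →
        δ f * res (ev hv s Q) = Dx hv s res ξ P - res f * Dx hv s res ξ Q) ∧
      (∀ f g, δ (f + g) = δ f + δ g) ∧ (∀ f g, δ (f * g) = res f * δ g + res g * δ f) := by
  choose P Q hQ hPQ using hloc
  have key : ∀ f P' Q', res (ev hv s Q') ≠ 0 → f * ev hv s Q' = ev hv s P' →
      ((Dx hv s res ξ (P f) - res f * Dx hv s res ξ (Q f)) / res (ev hv s (Q f))) *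
        res (ev hv s Q') = Dx hv s res ξ P' - res f * Dx hv s res ξ Q' := by
    intro f P' Q' hQ' hPQ'
    have h0 : ev hv s (P f * Q' - P' * Q f) = 0 := by
      rw [map_sub, map_mul, map_mul, ← hPQ f, ← hPQ']
      ring
    have h1 := hker _ h0
    rw [Dx_sub, Dx_mul, Dx_mul, ← hPQ f, ← hPQ', map_mul, map_mul] at h1
    have h2 := hQ f
    rw [div_mul_eq_mul_div, div_eq_iff h2]
    linear_combination (1 : κ) * h1
  refine ⟨fun f => (Dx hv s res ξ (P f) - res f * Dx hv s res ξ (Q f)) / res (ev hv s (Q f)),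
    key, ?_, ?_⟩
  · intro f g
    have h1 : res (ev hv s (Q f * Q g)) ≠ 0 := by
      rw [map_mul, map_mul]; exact mul_ne_zero (hQ f) (hQ g)
    have h2 : (f + g) * ev hv s (Q f * Q g) = ev hv s (P f * Q g + P g * Q f) := by
      rw [map_mul, map_add, map_mul, map_mul, ← hPQ f, ← hPQ g]
      ring
    have h3 := key (f + g) _ _ h1 h2
    have hf := hQ f
    have hg := hQ g
    have h4 : ev hv s (P f) = f * ev hv s (Q f) := (hPQ f).symm
    have h5 : ev hv s (P g) = g * ev hv s (Q g) := (hPQ g).symm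
    apply mul_right_cancel₀ h1
    refine h3.trans ?_
    rw [Dx_add, Dx_mul, Dx_mul, Dx_mul, h4, h5, map_mul, map_mul, map_mul, map_mul, map_add]
    field_simp
    ring
  · intro f g
    have h1 : res (ev hv s (Q f * Q g)) ≠ 0 := by
      rw [map_mul, map_mul]; exact mul_ne_zero (hQ f) (hQ g)
    have h2 : (f * g) * ev hv s (Q f * Q g) = ev hv s (P f * P g) := by
      rw [map_mul, map_mul, ← hPQ f, ← hPQ g]
      ring
    have h3 := key (f * g) _ _ h1 h2
    have hf := hQ f
    have hg := hQ g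
    have h4 : ev hv s (P f) = f * ev hv s (Q f) := (hPQ f).symm
    have h5 : ev hv s (P g) = g * ev hv s (Q g) := (hPQ g).symm
    apply mul_right_cancel₀ h1
    refine h3.trans ?_
    rw [Dx_mul, Dx_mul, h4, h5, map_mul, map_mul, map_mul, map_mul, map_mul]
    field_simp
    ring

end

section ker

variable {K : Type} [Field K] [Algebra ℂ K] {v : Valuation K ℤᵐ⁰}

/-- a homogeneous polynomial is its own homogenization -/
theorem hom_self {M : ℕ} (b : Fin (M + 1)) (d : ℕ) (P : MvPolynomial (Fin (M + 1)) ℂ)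
    (hP : P.IsHomogeneous d) : hom b d P = P := by
  unfold hom
  conv_rhs => rw [← P.support_sum_monomial_coeff]
  refine Finset.sum_congr rfl fun m hm => ?_
  have h1 : m.degree = d := by
    have := hP (mem_support_iff.1 hm)
    rw [← this]
    simp [Finsupp.degree, Finsupp.weight_apply, Finsupp.sum]
  rw [h1, Nat.sub_self, pow_zero, mul_one]

theorem aff_zero (hd5 : D5Stmt) {M κ' d : ℕ} (y : Fin (M + 1) → K) (b : Fin (M + 1))
    (F : Fin κ' → MvPolynomial (Fin (M + 1)) ℂ) (hE : Eqs d y F) (hyb : y b ≠ 0) (j : Fin κ') :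
    aeval (aff y b) (F j) = 0 := by
  have h1 := hd5 ℂ K M b d (F j) (hE.hom j).totalDegree_le
  have h2 := h1.2 y hyb
  rw [hom_self b d (F j) (hE.hom j), hE.zero j] at h2
  rcases mul_eq_zero.1 h2.symm with h | h
  · exact absurd h (pow_ne_zero _ hyb)
  · exact h

theorem Dx_ker (hd5 : D5Stmt) {M κ' d : ℕ} (y : Fin (M + 1) → K) (b : Fin (M + 1))
    (F : Fin κ' → MvPolynomial (Fin (M + 1)) ℂ) (hE : Eqs d y F) (hyb : y b ≠ 0)
    {κ : Type} [Field κ] (hv : Triv v) (s : Fin (M + 1) → v.integer)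
    (hs : ∀ l, (s l : K) = aff y b l) (res : v.integer →+* κ) (ξ : Fin (M + 1) → κ)
    (hξb : ξ b = 0) (hξF : ∀ j, Dx hv s res ξ (F j) = 0) (P : MvPolynomial (Fin (M + 1)) ℂ)
    (hP : ev hv s P = 0) : Dx hv s res ξ P = 0 := by
  have hfun : (fun l => (s l : K)) = aff y b := funext hs
  have hsb : s b = 1 := by
    apply Subtype.ext
    rw [hs b]
    exact div_self hyb
  have hevb : ∀ k : ℕ, ev hv s (X b ^ k) = 1 := by
    intro k
    rw [map_pow, ev_X, hsb, one_pow]
  have hDb : ∀ k : ℕ, Dx hv s res ξ (X b ^ k) = 0 := by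
    intro k
    induction k with
    | zero => rw [pow_zero]; exact Dx_one hv s res ξ
    | succ k ih => rw [pow_succ, Dx_mul, ih, Dx_X, hξb]; ring
  have hDXb : ∀ (k : ℕ) (G : MvPolynomial (Fin (M + 1)) ℂ),
      Dx hv s res ξ (G * X b ^ k) = Dx hv s res ξ G := by
    intro k G
    rw [Dx_mul, hDb, hevb, map_one]; ring
  have h0 : aeval (aff y b) P = 0 := by
    rw [← hfun, ← coe_ev hv, hP]; rfl
  have h1 := hd5 ℂ K M b P.totalDegree P le_rfl
  have h2 := h1.2 y hyb
  rw [h0, mul_zero] at h2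
  have h3 := hE.gen _ _ h1.1 h2 b
  obtain ⟨c, hc⟩ := Ideal.mem_span_range_iff_exists_fun.1 h3
  have hevF : ∀ j, ev hv s (F j) = 0 := by
    intro j
    apply Subtype.ext
    rw [coe_ev, hfun, aff_zero hd5 y b F hE hyb j]
    rfl
  have h4 : Dx hv s res ξ (X b ^ d * hom b P.totalDegree P) = 0 := by
    rw [← hc, Dx_sum]
    refine Finset.sum_eq_zero fun j _ => ?_
    rw [Dx_mul, hξF, hevF, map_zero]; ring
  rw [mul_comm, hDXb] at h4
  unfold hom at h4
  rw [Dx_sum] at h4
  rw [← P.support_sum_monomial_coeff, Dx_sum, ← h4]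
  refine Finset.sum_congr rfl fun m _ => ?_
  rw [hDXb]

end ker

theorem solve {O V : Type} [CommRing O] [AddCommGroup V] [Module O V] {r n : ℕ}
    (A : Matrix (Fin r) (Fin r) O) (B : Matrix (Fin r) (Fin n) O) (hA : IsUnit A.det)
    (z : Fin n → V) (z' : Fin r → V)
    (h : ∀ i, ∑ a, B i a • z a + ∑ k, A i k • z' k = 0) (k : Fin r) :
    z' k = - ∑ a, (A⁻¹ * B) k a • z a := by
  have h1 : ∑ i, A⁻¹ k i • (∑ a, B i a • z a + ∑ k, A i k • z' k) = 0 := by
    refine Finset.sum_eq_zero fun i _ => ?_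
    rw [h i, smul_zero]
  simp only [smul_add, Finset.sum_add_distrib, Finset.smul_sum, smul_smul] at h1
  rw [Finset.sum_comm] at h1
  have h2 : ∑ i, ∑ k', (A⁻¹ k i * A i k') • z' k' = z' k := by
    rw [Finset.sum_comm]
    have h3 : ∀ k', ∑ i, (A⁻¹ k i * A i k') • z' k' = (1 : Matrix (Fin r) (Fin r) O) k k' • z' k' := by
      intro k'
      rw [← Finset.sum_smul, ← Matrix.mul_apply, Matrix.nonsing_inv_mul A hA]
    rw [Finset.sum_congr rfl fun k' _ => h3 k', Finset.sum_eq_single k]
    · rw [Matrix.one_apply_eq, one_smul]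
    · intro k' _ hk'
      rw [Matrix.one_apply_ne hk'.symm, zero_smul]
    · intro hk
      exact absurd (Finset.mem_univ k) hk
  rw [h2] at h1
  have h4 : ∀ a, ∑ i, (A⁻¹ k i * B i a) • z a = (A⁻¹ * B) k a • z a := by
    intro a
    rw [← Finset.sum_smul, ← Matrix.mul_apply]
  rw [Finset.sum_congr rfl fun a _ => h4 a] at h1
  exact (neg_eq_of_add_eq_zero_right h1).symm

theorem sum_split {n M r : ℕ} {V : Type} [AddCommMonoid V]
    (e : Fin (n + 1) ⊕ Fin r ≃ Fin (M + 1)) (f : Fin (M + 1) → V) :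
    ∑ l, f l = f (e (Sum.inl 0)) + ∑ a : Fin n, f (e (Sum.inl a.succ)) +
      ∑ k, f (e (Sum.inr k)) := by
  rw [← Equiv.sum_comp e, Fintype.sum_sum_type, Fin.sum_univ_succ]

section main

variable {K : Type} [Field K] [Algebra ℂ K] {v : Valuation K ℤᵐ⁰} {n M r : ℕ}

/-- the coefficients of the differential of `P(s)` in the basis -/
noncomputable def wf (hv : Triv v) (s : Fin (M + 1) → v.integer)
    (e : Fin (n + 1) ⊕ Fin r ≃ Fin (M + 1)) (T : Matrix (Fin r) (Fin n) v.integer)
    (P : MvPolynomial (Fin (M + 1)) ℂ) (a : Fin n) : v.integer :=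
  ev hv s (pderiv (e (Sum.inl a.succ)) P) - ∑ k, ev hv s (pderiv (e (Sum.inr k)) P) * T k a

open Pool.Agent.Lib.MP_410da7_ag (D_aeval dmap dmap_apply grad dmap_surjective)

theorem D_wf (hv : Triv v) (s : Fin (M + 1) → v.integer)
    (e : Fin (n + 1) ⊕ Fin r ≃ Fin (M + 1)) (T : Matrix (Fin r) (Fin n) v.integer)
    (h0 : D ℂ K ((s (e (Sum.inl 0)) : v.integer) : K) = 0)
    (hT : ∀ k, D ℂ K ((s (e (Sum.inr k)) : v.integer) : K) =
      - ∑ a : Fin n, ((T k a : v.integer) : K) • D ℂ K ((s (e (Sum.inl a.succ)) : v.integer) : K))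
    (P : MvPolynomial (Fin (M + 1)) ℂ) :
    D ℂ K (aeval (fun l => (s l : K)) P) =
      ∑ a : Fin n, ((wf hv s e T P a : v.integer) : K) •
        D ℂ K ((s (e (Sum.inl a.succ)) : v.integer) : K) := by
  rw [D_aeval, dmap_apply, sum_split e, h0, smul_zero, zero_add]
  simp only [grad, ← coe_ev hv]
  simp only [hT, smul_neg, Finset.smul_sum, smul_smul, Finset.sum_neg_distrib]
  rw [Finset.sum_comm, ← sub_eq_add_neg, ← Finset.sum_sub_distrib]
  refine Finset.sum_congr rfl fun a _ => ?_
  rw [← Finset.sum_smul, ← sub_smul]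
  congr 1
  unfold wf
  push_cast
  rfl

/-- the tangent vector with the coordinates `c` -/
noncomputable def xi {κ : Type} [Field κ] (res : v.integer →+* κ)
    (e : Fin (n + 1) ⊕ Fin r ≃ Fin (M + 1)) (T : Matrix (Fin r) (Fin n) v.integer)
    (c : Fin n → κ) (l : Fin (M + 1)) : κ :=
  Sum.elim (Fin.cons 0 c : Fin (n + 1) → κ) (fun k => - ∑ a, res (T k a) * c a) (e.symm l)

theorem Dx_xi {κ : Type} [Field κ] (hv : Triv v) (s : Fin (M + 1) → v.integer)
    (res : v.integer →+* κ) (e : Fin (n + 1) ⊕ Fin r ≃ Fin (M + 1))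
    (T : Matrix (Fin r) (Fin n) v.integer) (c : Fin n → κ) (P : MvPolynomial (Fin (M + 1)) ℂ) :
    Dx hv s res (xi res e T c) P = ∑ a, res (wf hv s e T P a) * c a := by
  unfold Dx
  rw [sum_split e]
  simp only [xi, Equiv.symm_apply_apply, Sum.elim_inl, Sum.elim_inr, Fin.cons_zero, Fin.cons_succ,
    mul_zero, zero_add, mul_neg, Finset.mul_sum, Finset.sum_neg_distrib]
  rw [Finset.sum_comm, ← sub_eq_add_neg, ← Finset.sum_sub_distrib]
  refine Finset.sum_congr rfl fun a _ => ?_
  unfold wf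
  rw [map_sub, map_sum, sub_mul, Finset.sum_mul]
  congr 1
  refine Finset.sum_congr rfl fun k _ => ?_
  rw [map_mul, mul_assoc]

theorem finrank_eq (hn : Algebra.trdeg ℂ K = n) : Module.Finite K Ω[K⁄ℂ] ∧
    Module.finrank K Ω[K⁄ℂ] = n := by
  obtain ⟨t, ht⟩ := exists_isTranscendenceBasis ℂ K
  have hcard := ht.cardinalMk_eq_trdeg
  rw [hn] at hcard
  obtain ⟨b, -⟩ := Pool.Agent.Lib.MP_410da7_ag.exists_kaehlerBasis _ ht
  haveI : Finite t := by
    rw [← Cardinal.lt_aleph0_iff_finite, hcard]; exact Cardinal.natCast_lt_aleph0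
  haveI : Fintype t := Fintype.ofFinite t
  refine ⟨Module.Finite.of_basis b, ?_⟩
  rw [Module.finrank_eq_card_basis b]
  rw [Cardinal.mk_fintype] at hcard
  exact_mod_cast hcard

/-- the relations between the differentials -/
theorem frame_lin (hn : Algebra.trdeg ℂ K = n) (hv : Triv v) (s : Fin (M + 1) → v.integer)
    (e : Fin (n + 1) ⊕ Fin r ≃ Fin (M + 1)) (T : Matrix (Fin r) (Fin n) v.integer)
    (h0 : D ℂ K ((s (e (Sum.inl 0)) : v.integer) : K) = 0)
    (hT : ∀ k, D ℂ K ((s (e (Sum.inr k)) : v.integer) : K) =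
      - ∑ a : Fin n, ((T k a : v.integer) : K) • D ℂ K ((s (e (Sum.inl a.succ)) : v.integer) : K))
    (hgen : ∀ f : K, v f ≤ 1 → ∃ P Q : MvPolynomial (Fin (M + 1)) ℂ,
      v (aeval (fun l => (s l : K)) Q) = 1 ∧
        f * aeval (fun l => (s l : K)) Q = aeval (fun l => (s l : K)) P) :
    LinearIndependent K (fun a : Fin n => D ℂ K ((s (e (Sum.inl a.succ)) : v.integer) : K)) := by
  obtain ⟨hfin, hrank⟩ := finrank_eq hn
  have H1 : ∀ a : K, ∃ P Q : MvPolynomial (Fin (M + 1)) ℂ,
      aeval (fun l => (s l : K)) Q ≠ 0 ∧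
        a * aeval (fun l => (s l : K)) Q = aeval (fun l => (s l : K)) P := by
    intro a
    by_cases ha : v a ≤ 1
    · obtain ⟨P, Q, h1, h2⟩ := hgen a ha
      refine ⟨P, Q, ?_, h2⟩
      intro h
      rw [h, map_zero] at h1
      exact zero_ne_one h1
    · have ha0 : a ≠ 0 := by
        rintro rfl
        rw [map_zero] at ha
        exact ha zero_le_one
      have ha' : v a⁻¹ ≤ 1 := by
        rw [map_inv₀]
        exact inv_le_one_of_one_le₀ (le_of_not_ge ha)
      obtain ⟨P, Q, h1, h2⟩ := hgen a⁻¹ ha'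
      have hQ : aeval (fun l => (s l : K)) Q ≠ 0 := by
        intro h
        rw [h, map_zero] at h1
        exact zero_ne_one h1
      refine ⟨Q, P, ?_, ?_⟩
      · rw [← h2]
        exact mul_ne_zero (inv_ne_zero ha0) hQ
      · rw [← h2, ← mul_assoc, mul_inv_cancel₀ ha0, one_mul]
  refine linearIndependent_of_top_le_span_of_card_eq_finrank ?_ ?_
  · intro θ _
    obtain ⟨ξ, rfl⟩ := dmap_surjective (fun l => (s l : K)) H1 θ
    rw [dmap_apply, sum_split e, h0, smul_zero, zero_add]
    have h1 : ∀ a : Fin n, D ℂ K ((s (e (Sum.inl a.succ)) : v.integer) : K) ∈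
        Submodule.span K (Set.range fun a : Fin n =>
          D ℂ K ((s (e (Sum.inl a.succ)) : v.integer) : K)) := fun a =>
      Submodule.subset_span ⟨a, rfl⟩
    refine Submodule.add_mem _ (Submodule.sum_mem _ fun a _ => Submodule.smul_mem _ _ (h1 a))
      (Submodule.sum_mem _ fun k _ => Submodule.smul_mem _ _ ?_)
    rw [hT k]
    exact Submodule.neg_mem _ (Submodule.sum_mem _ fun a _ => Submodule.smul_mem _ _ (h1 a))
  · rw [hrank, Fintype.card_fin]

end main

end d14Aux

open d14Aux in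
open MvPolynomial KaehlerDifferential WithZero Module in
open Pool.Agent.Lib.MP_410da7_ag in
theorem d14 (hd5 : D5Stmt) (hd12 : D12Stmt) : D14Stmt := by
  intro K _ _ n M r κ d Ψ y b F hM h1n hn _ hΨ hE v hv hnt hch t ht J e heb hminor ζ hζ0 hζ1 hζ
  classical
  -- the coordinates
  have hle : ∀ l, v (aff y b l) ≤ 1 := by
    intro l
    have h1 : v (y b) ≠ 0 := by rw [Valuation.ne_zero_iff]; exact hch.ne
    change v (y l / y b) ≤ 1
    rw [map_div₀]
    exact div_le_one_of_le₀ (hch.max l) zero_le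
  let s : Fin (M + 1) → v.integer := fun l => ⟨aff y b l, hle l⟩
  have hs : ∀ l, (s l : K) = aff y b l := fun l => rfl
  have hfun : (fun l => (s l : K)) = aff y b := rfl
  -- the residue field
  let κ' := IsLocalRing.ResidueField v.valuationSubring
  let inc : v.integer →+* v.valuationSubring :=
    { toFun := fun f => ⟨f, (Valuation.mem_valuationSubring_iff v _).2 f.2⟩
      map_one' := rfl
      map_mul' := fun _ _ => rfl
      map_zero' := rfl
      map_add' := fun _ _ => rfl }
  let res : v.integer →+* κ' := (IsLocalRing.residue v.valuationSubring).comp inc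
  letI : Algebra ℂ κ' := (res.comp (cO hv)).toAlgebra
  have hres0 : ∀ f : v.integer, res f = 0 ↔ v (f : K) < 1 := by
    intro f
    constructor
    · intro h
      exact val_lt_one_of_residue_eq_zero v (inc f) h
    · intro h
      exact residue_eq_zero_of_val_lt_one v (inc f) h
  have hres1 : ∀ f : v.integer, v (f : K) = 1 → res f ≠ 0 := by
    intro f hf h
    rw [hres0, hf] at h
    exact lt_irrefl _ h
  -- the matrices
  let A : Matrix (Fin r) (Fin r) v.integer := Matrix.of fun i k =>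
    ev hv s (pderiv (e (Sum.inr k)) (F (J i)))
  let B : Matrix (Fin r) (Fin n) v.integer := Matrix.of fun i a =>
    ev hv s (pderiv (e (Sum.inl a.succ)) (F (J i)))
  have hdet : ((A.det : v.integer) : K) = minor F (e ∘ Sum.inr) (aff y b) J := by
    have h1 : ((A.det : v.integer) : K) = v.integer.subtype A.det := rfl
    rw [h1, RingHom.map_det]
    unfold minor
    congr 1
    ext i k
    rw [RingHom.mapMatrix_apply, Matrix.map_apply]
    change ((ev hv s (pderiv (e (Sum.inr k)) (F (J i))) : v.integer) : K) = _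
    rw [coe_ev]
    rfl
  have hAu : IsUnit A.det := by
    have h1 : v ((A.det : v.integer) : K) = 1 := by rw [hdet]; exact hminor
    have h2 : ((A.det : v.integer) : K) ≠ 0 := by
      intro h
      rw [h, map_zero] at h1
      exact zero_ne_one h1
    refine IsUnit.of_mul_eq_one (⟨((A.det : v.integer) : K)⁻¹, ?_⟩ : v.integer) ?_
    · change v _ ≤ 1
      rw [map_inv₀, h1, inv_one]
    · apply Subtype.ext
      exact mul_inv_cancel₀ h2
  let T : Matrix (Fin r) (Fin n) v.integer := A⁻¹ * B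
  have h0 : D ℂ K ((s (e (Sum.inl 0)) : v.integer) : K) = 0 := by
    have h1 : ((s (e (Sum.inl 0)) : v.integer) : K) = 1 := by
      rw [heb]
      exact div_self hch.ne
    rw [h1]
    exact Derivation.map_one_eq_zero _
  have hT : ∀ k, D ℂ K ((s (e (Sum.inr k)) : v.integer) : K) =
      - ∑ a : Fin n, ((T k a : v.integer) : K) •
        D ℂ K ((s (e (Sum.inl a.succ)) : v.integer) : K) := by
    intro k
    refine solve A B hAu (fun a : Fin n => D ℂ K ((s (e (Sum.inl a.succ)) : v.integer) : K))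
      (fun k => D ℂ K ((s (e (Sum.inr k)) : v.integer) : K)) ?_ k
    intro i
    have h1 : D ℂ K (aeval (fun l => (s l : K)) (F (J i))) = 0 := by
      rw [hfun, aff_zero hd5 y b F hE hch.ne (J i), map_zero]
    rw [D_aeval, dmap_apply, sum_split e, h0, smul_zero, zero_add] at h1
    simp only [grad, ← coe_ev hv] at h1
    exact h1
  have hgen : ∀ f : K, v f ≤ 1 → ∃ P Q : MvPolynomial (Fin (M + 1)) ℂ,
      v (aeval (fun l => (s l : K)) Q) = 1 ∧
        f * aeval (fun l => (s l : K)) Q = aeval (fun l => (s l : K)) P := hch.loc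
  have hLI := frame_lin hn hv s e T h0 hT hgen
  have hwF : ∀ j a, wf hv s e T (F j) a = 0 := by
    intro j a
    have h1 := D_wf hv s e T h0 hT (F j)
    rw [hfun, aff_zero hd5 y b F hE hch.ne j, map_zero] at h1
    have h2 := Fintype.linearIndependent_iff.1 hLI _ h1.symm a
    exact Subtype.ext h2
  -- derivations
  have hloc : ∀ f : v.integer, ∃ P Q : MvPolynomial (Fin (M + 1)) ℂ, res (ev hv s Q) ≠ 0 ∧
      f * ev hv s Q = ev hv s P := by
    intro f
    obtain ⟨P, Q, h1, h2⟩ := hgen f f.2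
    refine ⟨P, Q, hres1 _ ?_, ?_⟩
    · rw [coe_ev]; exact h1
    · apply Subtype.ext
      change (f : K) * ((ev hv s Q : v.integer) : K) = ((ev hv s P : v.integer) : K)
      rw [coe_ev, coe_ev]
      exact h2
  have hξF : ∀ (c : Fin n → κ') j, Dx hv s res (xi res e T c) (F j) = 0 := by
    intro c j
    rw [Dx_xi]
    refine Finset.sum_eq_zero fun a _ => ?_
    rw [hwF, map_zero, zero_mul]
  have hξb : ∀ c : Fin n → κ', xi res e T c b = 0 := by
    intro c
    unfold xi
    rw [← heb, Equiv.symm_apply_apply, Sum.elim_inl, Fin.cons_zero]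
  have hder := fun c : Fin n → κ' => exists_der hv s res hloc (xi res e T c)
    (Dx_ker hd5 y b F hE hch.ne hv s hs res (xi res e T c) (hξb c) (hξF c))
  -- the elements t
  have htv : ∀ i, v (t i) = 1 := by
    intro i
    have h1 := ht (X i) (MvPolynomial.X_ne_zero i)
    rwa [aeval_X] at h1
  choose Pt Qt hQt hPQt using fun i => hloc ⟨t i, (htv i).le⟩
  -- the element ζ
  obtain ⟨Pz, Qz, hQz, hPQz⟩ := hgen ζ hζ1.le
  have hQz0 : aeval (fun l => (s l : K)) Qz ≠ 0 := by
    intro h
    rw [h, map_zero] at hQz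
    exact zero_ne_one hQz
  let zO : v.integer := ⟨ζ, hζ1.le⟩
  let uO : Fin n → v.integer := fun a => wf hv s e T Pz a - zO * wf hv s e T Qz a
  have hdζ : D ℂ K ζ = ∑ a : Fin n, (((uO a : v.integer) : K) / aeval (fun l => (s l : K)) Qz) •
      D ℂ K ((s (e (Sum.inl a.succ)) : v.integer) : K) := by
    have h1 := congrArg (D ℂ K) hPQz
    rw [Derivation.leibniz, D_wf hv s e T h0 hT, D_wf hv s e T h0 hT] at h1
    have h2 : (aeval (fun l => (s l : K)) Qz) • D ℂ K ζ = ∑ a : Fin n, ((uO a : v.integer) : K) •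
        D ℂ K ((s (e (Sum.inl a.succ)) : v.integer) : K) := by
      rw [← sub_eq_of_eq_add' h1.symm, Finset.smul_sum, ← Finset.sum_sub_distrib]
      refine Finset.sum_congr rfl fun a _ => ?_
      rw [smul_smul, ← sub_smul]
      rfl
    calc D ℂ K ζ = (aeval (fun l => (s l : K)) Qz)⁻¹ • ((aeval (fun l => (s l : K)) Qz) • D ℂ K ζ) := by
          rw [smul_smul, inv_mul_cancel₀ hQz0, one_smul]
      _ = _ := by
          rw [h2, Finset.smul_sum]
          refine Finset.sum_congr rfl fun a _ => ?_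
          rw [smul_smul]
          congr 1
          rw [div_eq_mul_inv, mul_comm]
  -- some coefficient is a unit
  have hunit : ∃ a₀, v ((uO a₀ : v.integer) : K) = 1 := by
    by_contra hcon
    push Not at hcon
    have hlt : ∀ a, res (uO a) = 0 := by
      intro a
      rw [hres0]
      exact lt_of_le_of_ne (uO a).2 (hcon a)
    let Nm : Matrix (Fin (n - 1)) (Fin n) κ' := Matrix.of fun i a =>
      (res (wf hv s e T (Pt i) a) - res ⟨t i, (htv i).le⟩ * res (wf hv s e T (Qt i) a))
    obtain ⟨c, hcne, hc⟩ : ∃ c : Fin n → κ', c ≠ 0 ∧ Nm.mulVec c = 0 := by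
      have h1 : LinearMap.ker Nm.mulVecLin ≠ ⊥ := by
        apply LinearMap.ker_ne_bot_of_finrank_lt
        rw [Module.finrank_fin_fun, Module.finrank_fin_fun]
        omega
      obtain ⟨c, hc, hcne⟩ := (Submodule.ne_bot_iff _).1 h1
      exact ⟨c, hcne, hc⟩
    obtain ⟨δ, hδ, hadd, hmul⟩ := hder c
    have hδt : ∀ i, δ ⟨t i, (htv i).le⟩ = 0 := by
      intro i
      have h1 := hδ ⟨t i, (htv i).le⟩ (Pt i) (Qt i) (hQt i) (hPQt i)
      have h2 : Dx hv s res (xi res e T c) (Pt i) - res ⟨t i, (htv i).le⟩ *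
          Dx hv s res (xi res e T c) (Qt i) = 0 := by
        rw [Dx_xi, Dx_xi, Finset.mul_sum, ← Finset.sum_sub_distrib]
        have h3 := congrFun hc i
        rw [Matrix.mulVec, dotProduct] at h3
        rw [Pi.zero_apply] at h3
        rw [← h3]
        refine Finset.sum_congr rfl fun a _ => ?_
        simp only [Nm, Matrix.of_apply]
        ring
      rw [h2] at h1
      exact (mul_eq_zero.1 h1).resolve_right (hQt i)
    have hδζ : δ zO = 0 := by
      have hQ' : res (ev hv s Qz) ≠ 0 := by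
        apply hres1
        rw [coe_ev]; exact hQz
      have h1 := hδ zO Pz Qz hQ' (by
        apply Subtype.ext
        change ζ * ((ev hv s Qz : v.integer) : K) = ((ev hv s Pz : v.integer) : K)
        rw [coe_ev, coe_ev]
        exact hPQz)
      have h2 : Dx hv s res (xi res e T c) Pz - res zO * Dx hv s res (xi res e T c) Qz = 0 := by
        rw [Dx_xi, Dx_xi, Finset.mul_sum, ← Finset.sum_sub_distrib]
        refine Finset.sum_eq_zero fun a _ => ?_
        have h3 := hlt a
        simp only [uO, map_sub, map_mul] at h3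
        linear_combination c a * h3
      rw [h2] at h1
      exact (mul_eq_zero.1 h1).resolve_right hQ'
    have hδ0 := hd12 K n hn h1n v hv t ht ζ hζ0 hζ1 hζ κ' res (fun c h => rfl) hres0 δ hadd hmul
      (by
        intro c' h
        have h1 := hδ ⟨algebraMap ℂ K c', h⟩ (C c') 1 (by
          rw [map_one, map_one]; exact one_ne_zero) (by
          rw [map_one, mul_one, ev_C]; rfl)
        rw [Dx_C, Dx_one, map_one, map_one, mul_one, mul_zero, sub_zero] at h1
        exact h1) (fun i h => hδt i) (fun h => hδζ)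
    apply hcne
    funext a
    have h1 := hδ (s (e (Sum.inl a.succ))) (X (e (Sum.inl a.succ))) 1 (by
      rw [map_one, map_one]; exact one_ne_zero) (by
      rw [map_one, mul_one, ev_X])
    rw [Dx_X, Dx_one, hδ0, zero_mul, mul_zero, sub_zero] at h1
    simp only [xi, Equiv.symm_apply_apply, Sum.elim_inl, Fin.cons_succ] at h1
    exact h1.symm
  obtain ⟨a₀, ha₀⟩ := hunit
  let ds : Fin n → Ω[K⁄ℂ] := fun a => D ℂ K (aff y b (e (Sum.inl a.succ)))
  refine ⟨Function.update ds a₀ ((1 / ζ) • D ℂ K ζ), ?_, ?_⟩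
  · intro i
    by_cases hi : i = a₀
    · subst hi
      rw [Function.update_self]
      exact AddSubgroup.subset_closure (Or.inr ⟨1, ζ, (map_one v).le, hζ0, rfl⟩)
    · rw [Function.update_of_ne hi]
      exact AddSubgroup.subset_closure (Or.inl ⟨1, _, (map_one v).le, hle _, (one_smul _ _).symm⟩)
  · have h1 : Ψ (Function.update ds a₀ ((1 / ζ) • D ℂ K ζ)) =
        (1 / ζ) * (((uO a₀ : v.integer) : K) / aeval (fun l => (s l : K)) Qz) * Ψ ds := by
      rw [AlternatingMap.map_update_smul, hdζ, AlternatingMap.map_update_sum,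
        Finset.sum_eq_single a₀]
      · rw [AlternatingMap.map_update_smul]
        have h2 : Function.update ds a₀ (D ℂ K ((s (e (Sum.inl a₀.succ)) : v.integer) : K)) = ds :=
          Function.update_eq_self a₀ ds
        rw [h2, smul_eq_mul, smul_eq_mul, mul_assoc]
      · intro a _ ha
        rw [AlternatingMap.map_update_smul]
        have h2 : Ψ (Function.update ds a₀ (D ℂ K ((s (e (Sum.inl a.succ)) : v.integer) : K))) = 0 :=
          AlternatingMap.map_update_self Ψ ds ha.symm
        rw [h2, smul_zero]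
      · intro h
        exact absurd (Finset.mem_univ a₀) h
    rw [h1, map_mul, map_mul, map_div₀, map_div₀, ha₀, hQz, map_one, div_one, mul_one]
    have h2 : v ζ ≠ 0 := by rw [Valuation.ne_zero_iff]; exact hζ0
    rw [mul_right_comm, one_div, inv_mul_cancel₀ h2, one_mul]

end Pool.Agent.Lib.MP_410da7_agA
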