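import Pool.Agent.Lib.MP_410da7_agA.SpecD

/-!
# MP_410da7_ag, C46: D15, the relation `x_0 χ x_b^E = a^λ q` at a place at infinity
-/

set_option autoImplicit false

namespace Pool.Agent.Lib.MP_410da7_agA

open MvPolynomial WithZero

namespace d15Aux

variable {K : Type} [Field K]

/-- a uniformizer -/
theorem exists_unif (v : Valuation K ℤᵐ⁰) {s : K} (hs : s ≠ 0) (hs1 : v s < 1) :
    ∃ ϖ : K, ϖ ≠ 0 ∧ v ϖ < 1 ∧ ∀ f : K, v f < 1 → v f ≤ v ϖ := by
  classical
  have hlog : ∀ f : K, f ≠ 0 → v f < 1 → ∃ k : ℕ, WithZero.log (v f) = -(k : ℤ) := by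
    intro f hf hf1
    have h0 : v f ≠ 0 := (Valuation.ne_zero_iff v).2 hf
    have h1 : WithZero.log (v f) < 0 := by
      rw [← WithZero.log_one]
      exact (WithZero.log_lt_log h0 one_ne_zero).2 hf1
    exact ⟨(WithZero.log (v f)).natAbs, by omega⟩
  have hex : ∃ k : ℕ, ∃ f : K, f ≠ 0 ∧ v f < 1 ∧ WithZero.log (v f) = -(k : ℤ) := by
    obtain ⟨k, hk⟩ := hlog s hs hs1
    exact ⟨k, s, hs, hs1, hk⟩
  obtain ⟨ϖ, h1, h2, h3⟩ := Nat.find_spec hex
  refine ⟨ϖ, h1, h2, fun f hf => ?_⟩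
  by_cases hf0 : f = 0
  · rw [hf0, map_zero]; exact zero_le
  · obtain ⟨k, hk⟩ := hlog f hf0 hf
    have h4 : Nat.find hex ≤ k := Nat.find_min' hex ⟨f, hf0, hf, hk⟩
    rw [← WithZero.log_le_log ((Valuation.ne_zero_iff v).2 hf0) ((Valuation.ne_zero_iff v).2 h1),
      hk, h3]
    omega

/-- every value `< 1` is a power of the value of a uniformizer -/
theorem exists_pow (v : Valuation K ℤᵐ⁰) {ϖ : K} (h0 : ϖ ≠ 0) (h1 : v ϖ < 1)
    (h2 : ∀ f : K, v f < 1 → v f ≤ v ϖ) {s : K} (hs : s ≠ 0) (hs1 : v s < 1) :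
    ∃ k : ℕ, v (s / ϖ ^ k) = 1 := by
  classical
  have hϖ : v ϖ ≠ 0 := (Valuation.ne_zero_iff v).2 h0
  have hs0 : v s ≠ 0 := (Valuation.ne_zero_iff v).2 hs
  have hl : WithZero.log (v ϖ) < 0 := by
    rw [← WithZero.log_one]
    exact (WithZero.log_lt_log hϖ one_ne_zero).2 h1
  have hex : ∃ k : ℕ, v ϖ ^ k < v s := by
    refine ⟨(WithZero.log (v s)).natAbs + 1, ?_⟩
    rw [← WithZero.log_lt_log (pow_ne_zero _ hϖ) hs0, WithZero.log_pow, nsmul_eq_mul]
    have h3 : ((WithZero.log (v s)).natAbs + 1 : ℤ) * WithZero.log (v ϖ) ≤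
        ((WithZero.log (v s)).natAbs + 1 : ℤ) * (-1) :=
      mul_le_mul_of_nonneg_left (by omega) (by omega)
    push_cast at h3 ⊢
    have h4 : -(|WithZero.log (v s)|) ≤ WithZero.log (v s) := neg_abs_le _
    linarith
  have hk := Nat.find_spec hex
  have hk0 : Nat.find hex ≠ 0 := by
    intro h
    rw [h, pow_zero] at hk
    exact absurd hs1 (not_lt.2 hk.le)
  obtain ⟨k, hk'⟩ := Nat.exists_eq_succ_of_ne_zero hk0
  have hk1 : ¬ v ϖ ^ k < v s := Nat.find_min hex (by omega)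
  rw [hk'] at hk
  have hϖk : v ϖ ^ k ≠ 0 := pow_ne_zero _ hϖ
  refine ⟨k, ?_⟩
  have h5 : v (s / ϖ ^ k) ≤ 1 := by
    rw [map_div₀, map_pow]
    exact div_le_one_of_le₀ (not_lt.1 hk1) zero_le
  by_contra h6
  have h7 := h2 _ (lt_of_le_of_ne h5 h6)
  rw [map_div₀, map_pow, div_le_iff₀ (pos_iff_ne_zero.2 hϖk)] at h7
  rw [Nat.succ_eq_add_one, pow_succ, mul_comm] at hk
  exact absurd h7 (not_le.2 hk)

end d15Aux

theorem d15 (h5 : D5Stmt) : D15Stmt := by
  intro K _ _ M κ d y b F hy0 hE v hv hC hyb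
  have hyb0 := hC.ne
  have hs1 : v (1 / y b) < 1 := by
    rw [map_div₀, map_one]
    exact (div_lt_one₀ (lt_trans zero_lt_one hyb)).2 hyb
  have hs0 : (1 : K) / y b ≠ 0 := one_div_ne_zero hyb0
  obtain ⟨ϖ, hϖ0, hϖ1, hϖ2⟩ := d15Aux.exists_unif v hs0 hs1
  obtain ⟨P₁, Q₁, hQ₁, hPQ₁⟩ := hC.loc ϖ hϖ1.le
  set ζ : K := aeval (aff y b) P₁ with hζ
  have hζv : v ζ = v ϖ := by rw [← hPQ₁, map_mul, hQ₁, mul_one]
  have hζ0 : ζ ≠ 0 := by
    rw [← Valuation.ne_zero_iff v, hζv]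
    exact (Valuation.ne_zero_iff v).2 hϖ0
  have hζ1 : v ζ < 1 := by rw [hζv]; exact hϖ1
  have hζ2 : ∀ f : K, v f < 1 → v f ≤ v ζ := fun f hf => by rw [hζv]; exact hϖ2 f hf
  obtain ⟨lam, hlam⟩ := d15Aux.exists_pow v hζ0 hζ1 hζ2 hs0 hs1
  obtain ⟨P, Q, hQ, hPQ⟩ := hC.loc (1 / y b / ζ ^ lam) hlam.le
  have hPv : v (aeval (aff y b) P) = 1 := by rw [← hPQ, map_mul, hlam, hQ, mul_one]
  obtain ⟨ha, ha'⟩ := h5 ℂ K M b P₁.totalDegree P₁ le_rfl
  obtain ⟨hχ, hχ'⟩ := h5 ℂ K M b Q.totalDegree Q le_rfl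
  obtain ⟨hq, hq'⟩ := h5 ℂ K M b P.totalDegree P le_rfl
  have ha'' := ha' y hyb0
  have hχ'' := hχ' y hyb0
  have hq'' := hq' y hyb0
  rw [← hζ] at ha''
  have hrel : 1 / y b * aeval (aff y b) Q = ζ ^ lam * aeval (aff y b) P := by
    rw [← hPQ]
    have := pow_ne_zero lam hζ0
    field_simp
  have hbh : (X b : MvPolynomial (Fin (M + 1)) ℂ).IsHomogeneous 1 := isHomogeneous_X ℂ b
  have h0h : (X 0 : MvPolynomial (Fin (M + 1)) ℂ).IsHomogeneous 1 := isHomogeneous_X ℂ 0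
  have hG : (X 0 * hom b Q.totalDegree Q * X b ^ (lam * P₁.totalDegree + P.totalDegree) -
      hom b P₁.totalDegree P₁ ^ lam * hom b P.totalDegree P * X b ^ (Q.totalDegree + 1) :
      MvPolynomial (Fin (M + 1)) ℂ).IsHomogeneous
        (1 + Q.totalDegree + (lam * P₁.totalDegree + P.totalDegree)) := by
    refine IsHomogeneous.sub ?_ ?_
    · have := (h0h.mul hχ).mul (hbh.pow (lam * P₁.totalDegree + P.totalDegree))
      rwa [one_mul] at this
    · have := ((ha.pow lam).mul hq).mul (hbh.pow (Q.totalDegree + 1))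
      rw [one_mul] at this
      convert this using 1
      ring
  have hG0 : aeval y (X 0 * hom b Q.totalDegree Q * X b ^ (lam * P₁.totalDegree + P.totalDegree) -
      hom b P₁.totalDegree P₁ ^ lam * hom b P.totalDegree P * X b ^ (Q.totalDegree + 1) :
      MvPolynomial (Fin (M + 1)) ℂ) = 0 := by
    simp only [map_sub, map_mul, map_pow, aeval_X, hy0, ha'', hχ'', hq'']
    have h1 : (y b ^ P₁.totalDegree * ζ) ^ lam * (y b ^ P.totalDegree * aeval (aff y b) P) *
        y b ^ (Q.totalDegree + 1) = y b ^ (lam * P₁.totalDegree + P.totalDegree + Q.totalDegree) *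
        (y b * (ζ ^ lam * aeval (aff y b) P)) := by
      rw [mul_pow, ← pow_mul, pow_add, pow_add, pow_add, mul_comm P₁.totalDegree lam]
      ring
    rw [h1, ← hrel, ← mul_assoc (y b), mul_one_div_cancel hyb0, pow_add]
    ring
  have hspan := hE.gen _ _ hG hG0 b
  refine ⟨{ a := hom b P₁.totalDegree P₁
            χ := hom b Q.totalDegree Q
            q := hom b P.totalDegree P * X b ^ (Q.totalDegree + 1 + d)
            e := P₁.totalDegree
            e₁ := Q.totalDegree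
            e₂ := P.totalDegree + (Q.totalDegree + 1 + d)
            N := 1
            E := lam * P₁.totalDegree + P.totalDegree + d
            lam := lam
            ha := ha
            hχ := hχ
            hq := by
              have := hq.mul (hbh.pow (Q.totalDegree + 1 + d))
              rwa [one_mul] at this
            deg := by ring
            rel := by
              convert hspan using 1
              rw [pow_one, pow_add, pow_add]
              ring }, ?_, ?_, ?_, ?_, ?_⟩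
  · show v (aeval y (hom b Q.totalDegree Q) / y b ^ Q.totalDegree) = 1
    rw [hχ'', mul_div_cancel_left₀ _ (pow_ne_zero _ hyb0)]
    exact hQ
  · show aeval y (hom b P₁.totalDegree P₁) ≠ 0
    rw [ha'']
    exact mul_ne_zero (pow_ne_zero _ hyb0) hζ0
  · show v (aeval y (hom b P₁.totalDegree P₁) / y b ^ P₁.totalDegree) < 1
    rw [ha'', mul_div_cancel_left₀ _ (pow_ne_zero _ hyb0)]
    exact hζ1
  · show ∀ f : K, v f < 1 → v f ≤ v (aeval y (hom b P₁.totalDegree P₁) / y b ^ P₁.totalDegree)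
    rw [ha'', mul_div_cancel_left₀ _ (pow_ne_zero _ hyb0)]
    exact hζ2
  · show v (aeval y (hom b P₁.totalDegree P₁) / y b ^ P₁.totalDegree) ^ lam * v (y b) = 1
    rw [ha'', mul_div_cancel_left₀ _ (pow_ne_zero _ hyb0)]
    rw [map_div₀, map_div₀, map_one, map_pow] at hlam
    have h2 : v (y b) ≠ 0 := (Valuation.ne_zero_iff v).2 hyb0
    have h3 : v ζ ^ lam ≠ 0 := pow_ne_zero _ ((Valuation.ne_zero_iff v).2 hζ0)
    field_simp at hlam
    rw [mul_comm]
    exact hlam.symm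

end Pool.Agent.Lib.MP_410da7_agA
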