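import Pool.Agent.Lib.MP_410da7_agA.SpecD
import Pool.Agent.Lib.MP_410da7_agA.D14
import Pool.Agent.Lib.MP_410da7_agA.D15

/-!
# MP_410da7_ag, C46, module D13

Regularity at a place at infinity: a unit minor.
-/

set_option autoImplicit false

namespace Pool.Agent.Lib.MP_410da7_agA

open MvPolynomial WithZero Module

namespace d13Aux

/-! ### Linear algebra -/

theorem minor_rows {F : Type} [Field F] {m r : Type} [Fintype m] [Fintype r] [DecidableEq r]
    (A : Matrix m r F) (hA : A.rank = Fintype.card r) :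
    ∃ I : r → m, (A.submatrix I id).det ≠ 0 := by
  obtain ⟨κ, a, ha, hspan, hli⟩ := exists_linearIndependent' F A.row
  have : Finite κ := Finite.of_injective a ha
  have := Fintype.ofFinite κ
  have h1 : Fintype.card κ = Fintype.card r := by
    rw [linearIndependent_iff_card_eq_finrank_span] at hli
    rw [hli, Set.finrank, hspan, ← Matrix.rank_eq_finrank_span_row, hA]
  obtain ⟨e⟩ : Nonempty (r ≃ κ) := by rw [← Fintype.card_eq, h1]
  refine ⟨a ∘ e, ?_⟩
  have h2 : LinearIndependent F (A.submatrix (a ∘ e) id).row := by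
    have h3 := hli.comp e e.injective
    exact h3
  rw [Matrix.linearIndependent_rows_iff_isUnit, Matrix.isUnit_iff_isUnit_det] at h2
  exact h2.ne_zero

theorem minor_rank {F : Type} [Field F] {m p : Type} [Fintype m] [Fintype p]
    (A : Matrix m p F) (r : ℕ) (hA : r ≤ A.rank) :
    ∃ (J : Fin r → m) (I : Fin r → p), (A.submatrix J I).det ≠ 0 := by
  classical
  obtain ⟨κ, a, ha, hspan, hli⟩ := exists_linearIndependent' F A.row
  have : Finite κ := Finite.of_injective a ha
  have := Fintype.ofFinite κ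
  have h1 : r ≤ Fintype.card κ := by
    have h := hli
    rw [linearIndependent_iff_card_eq_finrank_span] at h
    rw [h, Set.finrank, hspan, ← Matrix.rank_eq_finrank_span_row]
    exact hA
  obtain ⟨g⟩ : Nonempty (Fin r ↪ κ) := by
    rw [Function.Embedding.nonempty_iff_card_le]; simpa using h1
  have h2 : LinearIndependent F (A.submatrix (a ∘ g) id).row := by
    have h3 := hli.comp g g.injective
    exact h3
  have h3 : (A.submatrix (a ∘ g) id).rank = r := by
    rw [h2.rank_matrix, Fintype.card_fin]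
  have h4 : ((A.submatrix (a ∘ g) id).transpose).rank = Fintype.card (Fin r) := by
    rw [Matrix.rank_transpose, h3, Fintype.card_fin]
  obtain ⟨I, hI⟩ := minor_rows _ h4
  refine ⟨a ∘ g, I, ?_⟩
  rw [← Matrix.det_transpose] at hI
  exact hI

/-- The kernel of the matrix in the hyperplane `ξ b = 0`. -/
def Ker {F : Type} [Field F] {m M : ℕ} (A : Matrix (Fin m) (Fin (M + 1)) F) (b : Fin (M + 1)) :
    Submodule F (Fin (M + 1) → F) where
  carrier := {ξ | ξ b = 0 ∧ ∀ j, ∑ l, A j l * ξ l = 0}
  add_mem' := by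
    rintro x y ⟨h1, h2⟩ ⟨h3, h4⟩
    refine ⟨by rw [Pi.add_apply, h1, h3, add_zero], fun j => ?_⟩
    simp only [Pi.add_apply, mul_add, Finset.sum_add_distrib]
    rw [h2 j, h4 j, add_zero]
  zero_mem' := ⟨rfl, fun j => by simp⟩
  smul_mem' := by
    rintro c x ⟨h1, h2⟩
    refine ⟨by rw [Pi.smul_apply, h1, smul_zero], fun j => ?_⟩
    have : ∀ l, A j l * (c • x) l = c * (A j l * x l) := fun l => by
      rw [Pi.smul_apply, smul_eq_mul]; ring
    simp only [this]
    rw [← Finset.mul_sum, h2 j, mul_zero]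

theorem mem_Ker {F : Type} [Field F] {m M : ℕ} (A : Matrix (Fin m) (Fin (M + 1)) F)
    (b : Fin (M + 1)) (ξ : Fin (M + 1) → F) :
    ξ ∈ Ker A b ↔ ξ b = 0 ∧ ∀ j, ∑ l, A j l * ξ l = 0 := Iff.rfl

theorem rank_ge {F : Type} [Field F] {m M n r : ℕ} (hM : M = n + r) (b : Fin (M + 1))
    (A : Matrix (Fin m) (Fin (M + 1)) F) (hker : finrank F (Ker A b) ≤ n) :
    r ≤ (A.submatrix id (fun l : {l : Fin (M + 1) // l ≠ b} => (l : Fin (M + 1)))).rank := by
  classical
  set B := A.submatrix id (fun l : {l : Fin (M + 1) // l ≠ b} => (l : Fin (M + 1))) with hB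
  have h1 := LinearMap.finrank_range_add_finrank_ker B.mulVecLin
  have h2 : finrank F ({l : Fin (M + 1) // l ≠ b} → F) = M := by
    rw [Module.finrank_pi, Fintype.card_subtype_compl]
    simp
  rw [h2] at h1
  have h3 : finrank F (LinearMap.ker B.mulVecLin) ≤ finrank F (Ker A b) := by
    let ex : ({l : Fin (M + 1) // l ≠ b} → F) →ₗ[F] (Fin (M + 1) → F) :=
      { toFun := fun ξ l => if h : l ≠ b then ξ ⟨l, h⟩ else 0
        map_add' := by
          intro x y
          funext l
          by_cases h : l = b <;> simp [h]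
        map_smul' := by
          intro c x
          funext l
          by_cases h : l = b <;> simp [h] }
    have hex : ∀ ξ (l : {l : Fin (M + 1) // l ≠ b}), ex ξ l = ξ l := by
      intro ξ l
      exact dif_pos l.2
    have hexb : ∀ ξ, ex ξ b = 0 := by
      intro ξ
      exact dif_neg (by simp)
    have hmem : ∀ ξ ∈ LinearMap.ker B.mulVecLin, ex ξ ∈ Ker A b := by
      intro ξ hξ
      refine ⟨hexb ξ, fun j => ?_⟩
      rw [LinearMap.mem_ker, Matrix.mulVecLin_apply] at hξ
      have h4 := congrFun hξ j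
      rw [Matrix.mulVec, dotProduct, Pi.zero_apply] at h4
      rw [← h4, ← Fintype.sum_subtype_add_sum_subtype (fun l => l ≠ b)
        (fun l => A j l * ex ξ l)]
      have h5 : ∑ l : {l : Fin (M + 1) // ¬ l ≠ b}, A j l * ex ξ l = 0 := by
        refine Finset.sum_eq_zero fun l _ => ?_
        have : (l : Fin (M + 1)) = b := not_not.mp l.2
        rw [this, hexb, mul_zero]
      rw [h5, add_zero]
      refine Finset.sum_congr rfl fun l _ => ?_
      rw [hex]; rfl
    refine LinearMap.finrank_le_finrank_of_injective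
      (f := (ex.comp (LinearMap.ker B.mulVecLin).subtype).codRestrict (Ker A b)
        (fun ξ => hmem ξ ξ.2)) ?_
    intro x y hxy
    apply Subtype.ext
    funext l
    have h6 := congrFun (congrArg Subtype.val hxy) l
    change ex x l = ex y l at h6
    rw [hex, hex] at h6
    exact h6
  have h4 : B.rank = finrank F (LinearMap.range B.mulVecLin) := rfl
  omega

theorem extend {M n r : ℕ} (hM : M = n + r) (b : Fin (M + 1))
    (I : Fin r → {l : Fin (M + 1) // l ≠ b}) (hI : Function.Injective I) :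
    ∃ e : Fin (n + 1) ⊕ Fin r ≃ Fin (M + 1), e (Sum.inl 0) = b ∧ ∀ i, e (Sum.inr i) = I i := by
  classical
  let f : Fin (n + 1) ⊕ Fin r → Fin (M + 1) := Sum.elim (fun _ => b) (fun i => (I i : Fin (M + 1)))
  let S : Set (Fin (n + 1) ⊕ Fin r) := {Sum.inl 0} ∪ Set.range Sum.inr
  have hinj : Set.InjOn f S := by
    rintro x hx y hy hxy
    rcases hx with hx | ⟨i, rfl⟩ <;> rcases hy with hy | ⟨j, rfl⟩
    · rw [Set.mem_singleton_iff] at hx hy
      rw [hx, hy]
    · rw [Set.mem_singleton_iff] at hx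
      subst hx
      exact absurd hxy.symm (I j).2
    · rw [Set.mem_singleton_iff] at hy
      subst hy
      exact absurd hxy (I i).2
    · exact congrArg Sum.inr (hI (Subtype.ext hxy))
  obtain ⟨g, hg⟩ := Set.MapsTo.exists_equiv_extend_of_card_eq (t := (Finset.univ : Finset (Fin (M + 1))))
    (α := Fin (n + 1) ⊕ Fin r) (by simp [hM]; omega) (s := S) (f := f)
    (fun x _ => by simp) hinj
  refine ⟨g.trans (Equiv.subtypeUnivEquiv (fun x => Finset.mem_univ x)), ?_, ?_⟩
  · exact hg _ (Or.inl rfl)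
  · intro i
    exact hg _ (Or.inr ⟨i, rfl⟩)

/-- A minor of maximal size. -/
theorem exists_minor {F : Type} [Field F] {m M n r : ℕ} (hM : M = n + r) (b : Fin (M + 1))
    (A : Matrix (Fin m) (Fin (M + 1)) F) (hker : finrank F (Ker A b) ≤ n) :
    ∃ (J : Fin r → Fin m) (e : Fin (n + 1) ⊕ Fin r ≃ Fin (M + 1)), e (Sum.inl 0) = b ∧
      (A.submatrix J (e ∘ Sum.inr)).det ≠ 0 := by
  classical
  obtain ⟨J, I, hIJ⟩ := minor_rank _ r (rank_ge hM b A hker)
  have hI : Function.Injective I := by
    intro i j hij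
    by_contra hne
    apply hIJ
    apply Matrix.det_zero_of_column_eq hne
    intro k
    simp only [Matrix.submatrix_apply, hij]
  obtain ⟨e, he0, he⟩ := extend hM b I hI
  refine ⟨J, e, he0, ?_⟩
  have : A.submatrix J (e ∘ Sum.inr) = (A.submatrix id
      (fun l : {l : Fin (M + 1) // l ≠ b} => (l : Fin (M + 1)))).submatrix J I := by
    ext i l
    simp only [Matrix.submatrix_apply, Function.comp_apply, he, id]
  rw [this]
  exact hIJ

/-! ### The reduced Jacobian matrix -/

section

variable {K : Type} [Field K] [Algebra ℂ K] {v : Valuation K ℤᵐ⁰} {κ : Type} [Field κ]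

open d14Aux

/-- the reduced Jacobian matrix -/
noncomputable def Jm (hv : Triv v) {m N : ℕ} (s : Fin N → v.integer) (res : v.integer →+* κ)
    (F : Fin m → MvPolynomial (Fin N) ℂ) : Matrix (Fin m) (Fin N) κ :=
  Matrix.of fun j l => res (ev hv s (pderiv l (F j)))

theorem mem_Ker_Jm (hv : Triv v) {m M : ℕ} (s : Fin (M + 1) → v.integer) (res : v.integer →+* κ)
    (F : Fin m → MvPolynomial (Fin (M + 1)) ℂ) (b : Fin (M + 1)) (ξ : Fin (M + 1) → κ) :
    ξ ∈ Ker (Jm hv s res F) b ↔ ξ b = 0 ∧ ∀ j, Dx hv s res ξ (F j) = 0 := Iff.rfl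

theorem minor_unit (hv : Triv v) {m M n r : ℕ} (hM : M = n + r) (s : Fin (M + 1) → v.integer)
    (res : v.integer →+* κ) (hres1 : ∀ f : v.integer, v (f : K) < 1 → res f = 0)
    (F : Fin m → MvPolynomial (Fin (M + 1)) ℂ) (b : Fin (M + 1))
    (hker : finrank κ (Ker (Jm hv s res F) b) ≤ n) :
    ∃ (J : Fin r → Fin m) (e : Fin (n + 1) ⊕ Fin r ≃ Fin (M + 1)), e (Sum.inl 0) = b ∧
      v (minor F (e ∘ Sum.inr) (fun l => (s l : K)) J) = 1 := by
  classical
  obtain ⟨J, e, he, hdet⟩ := exists_minor hM b _ hker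
  refine ⟨J, e, he, ?_⟩
  let A : Matrix (Fin r) (Fin r) v.integer := Matrix.of fun i k =>
    ev hv s (pderiv (e (Sum.inr k)) (F (J i)))
  have hA : ((A.det : v.integer) : K) = minor F (e ∘ Sum.inr) (fun l => (s l : K)) J := by
    have h1 : ((A.det : v.integer) : K) = v.integer.subtype A.det := rfl
    rw [h1, RingHom.map_det]
    unfold minor
    congr 1
    ext i k
    rw [RingHom.mapMatrix_apply, Matrix.map_apply]
    change ((ev hv s (pderiv (e (Sum.inr k)) (F (J i))) : v.integer) : K) = _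
    rw [coe_ev]
    rfl
  have hA' : res A.det = ((Jm hv s res F).submatrix J (e ∘ Sum.inr)).det := by
    rw [RingHom.map_det]
    congr 1
  rw [← hA]
  apply le_antisymm A.det.2
  by_contra hlt
  apply hdet
  rw [← hA']
  exact hres1 _ (lt_of_not_ge hlt)

end

end d13Aux

open d14Aux d13Aux in
theorem d13 (hd5 : D5Stmt) (hd12 : D12Stmt) : D13Stmt := by
  intro K _ _ n M r κ d y b F hM h1n hn hE v hv hnt hch t ht
  classical
  -- the coordinates
  have hle : ∀ l, v (aff y b l) ≤ 1 := by
    intro l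
    have h1 : v (y b) ≠ 0 := by rw [Valuation.ne_zero_iff]; exact hch.ne
    change v (y l / y b) ≤ 1
    rw [map_div₀]
    exact div_le_one_of_le₀ (hch.max l) zero_le
  let s : Fin (M + 1) → v.integer := fun l => ⟨aff y b l, hle l⟩
  have hs : ∀ l, (s l : K) = aff y b l := fun l => rfl
  -- the residue field
  let κ' := IsLocalRing.ResidueField v.valuationSubring
  let inc : v.integer →+* v.valuationSubring :=
    { toFun := fun f => ⟨f, (Valuation.mem_valuationSubring_iff v _).2 f.2⟩
      map_one' := rfl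
      map_mul' := fun _ _ => rfl
      map_zero' := rfl
      map_add' := fun _ _ => rfl }
  let res : v.integer →+* κ' := (IsLocalRing.residue v.valuationSubring).comp inc
  let _ : Algebra ℂ κ' := (res.comp (cO hv)).toAlgebra
  have hres0 : ∀ f : v.integer, res f = 0 ↔ v (f : K) < 1 := by
    intro f
    constructor
    · intro h
      exact Pool.Agent.Lib.MP_410da7_ag.val_lt_one_of_residue_eq_zero v (inc f) h
    · intro h
      exact Pool.Agent.Lib.MP_410da7_ag.residue_eq_zero_of_val_lt_one v (inc f) h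
  have hres1 : ∀ f : v.integer, v (f : K) = 1 → res f ≠ 0 := by
    intro f hf h
    rw [hres0, hf] at h
    exact lt_irrefl _ h
  refine minor_unit hv hM s res (fun f hf => (hres0 f).mpr hf) F b ?_
  -- a uniformizer
  obtain ⟨ζ, hζ0, hζ1, hζ⟩ : ∃ ϖ : K, ϖ ≠ 0 ∧ v ϖ < 1 ∧ ∀ f : K, v f < 1 → v f ≤ v ϖ := by
    obtain ⟨f, hf0, hf⟩ := hnt
    rcases lt_or_gt_of_ne hf with h | h
    · exact d15Aux.exists_unif v hf0 h
    · refine d15Aux.exists_unif v (inv_ne_zero hf0) ?_
      rw [map_inv₀]
      exact inv_lt_one_of_one_lt₀ h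
  -- derivations
  have hloc : ∀ f : v.integer, ∃ P Q : MvPolynomial (Fin (M + 1)) ℂ, res (ev hv s Q) ≠ 0 ∧
      f * ev hv s Q = ev hv s P := by
    intro f
    obtain ⟨P, Q, h1, h2⟩ := hch.loc f f.2
    refine ⟨P, Q, hres1 _ ?_, ?_⟩
    · rw [coe_ev]; exact h1
    · apply Subtype.ext
      change (f : K) * ((ev hv s Q : v.integer) : K) = ((ev hv s P : v.integer) : K)
      rw [coe_ev, coe_ev]
      exact h2
  have htv : ∀ i, v (t i) = 1 := by
    intro i
    have h1 := ht (X i) (MvPolynomial.X_ne_zero i)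
    rwa [aeval_X] at h1
  -- the elements which determine a derivation
  let u : Fin n → v.integer := fun i =>
    if h : (i : ℕ) < n - 1 then ⟨t ⟨i, h⟩, (htv _).le⟩ else ⟨ζ, hζ1.le⟩
  choose Pu Qu hQu hPQu using fun i => hloc (u i)
  have hDsmul : ∀ (c : κ') (ξ : Fin (M + 1) → κ') (P : MvPolynomial (Fin (M + 1)) ℂ),
      Dx hv s res (c • ξ) P = c * Dx hv s res ξ P := by
    intro c ξ P
    unfold Dx
    rw [Finset.mul_sum]
    refine Finset.sum_congr rfl fun l _ => ?_
    rw [Pi.smul_apply, smul_eq_mul]; ring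
  have hDadd : ∀ (ξ ξ' : Fin (M + 1) → κ') (P : MvPolynomial (Fin (M + 1)) ℂ),
      Dx hv s res (ξ + ξ') P = Dx hv s res ξ P + Dx hv s res ξ' P := by
    intro ξ ξ' P
    unfold Dx
    rw [← Finset.sum_add_distrib]
    refine Finset.sum_congr rfl fun l _ => ?_
    rw [Pi.add_apply]; ring
  let Φ : (Fin (M + 1) → κ') →ₗ[κ'] (Fin n → κ') :=
    { toFun := fun ξ i => Dx hv s res ξ (Pu i) - res (u i) * Dx hv s res ξ (Qu i)
      map_add' := by
        intro x y
        funext i
        simp only [Pi.add_apply]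
        rw [hDadd, hDadd]; ring
      map_smul' := by
        intro c x
        funext i
        simp only [Pi.smul_apply, RingHom.id_apply, smul_eq_mul]
        rw [hDsmul, hDsmul]; ring }
  have hinj : Function.Injective (Φ.comp (Ker (Jm hv s res F) b).subtype) := by
    rw [← LinearMap.ker_eq_bot, LinearMap.ker_eq_bot']
    rintro ⟨ξ, hξ⟩ h0
    have h0' : ∀ i, Dx hv s res ξ (Pu i) - res (u i) * Dx hv s res ξ (Qu i) = 0 :=
      fun i => congrFun h0 i
    obtain ⟨hξb, hξF⟩ := (mem_Ker_Jm hv s res F b ξ).mp hξ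
    obtain ⟨δ, hδ, hadd, hmul⟩ := exists_der hv s res hloc ξ
      (Dx_ker hd5 y b F hE hch.ne hv s hs res ξ hξb hξF)
    have hδu : ∀ i, δ (u i) = 0 := by
      intro i
      have h1 := hδ (u i) (Pu i) (Qu i) (hQu i) (hPQu i)
      rw [h0' i] at h1
      exact (mul_eq_zero.1 h1).resolve_right (hQu i)
    have hδ0 := hd12 K n hn h1n v hv t ht ζ hζ0 hζ1 hζ κ' res (fun c h => rfl) hres0 δ hadd hmul
      (by
        intro c' h
        have h1 := hδ ⟨algebraMap ℂ K c', h⟩ (C c') 1 (by
          rw [map_one, map_one]; exact one_ne_zero) (by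
          rw [map_one, mul_one, ev_C]; rfl)
        rw [Dx_C, Dx_one, map_one, map_one, mul_one, mul_zero, sub_zero] at h1
        exact h1) (fun i h => by
          have h1 := hδu ⟨i, by have := i.2; omega⟩
          have h2 : u ⟨i, by have := i.2; omega⟩ = ⟨t i, h⟩ := dif_pos i.2
          rw [h2] at h1
          exact h1) (fun h => by
          have h1 := hδu ⟨n - 1, by omega⟩
          have h2 : u ⟨n - 1, by omega⟩ = ⟨ζ, h⟩ := dif_neg (lt_irrefl _)
          rw [h2] at h1
          exact h1)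
    apply Subtype.ext
    funext l
    have h1 := hδ (s l) (X l) 1 (by
      rw [map_one, map_one]; exact one_ne_zero) (by
      rw [map_one, mul_one, ev_X])
    rw [Dx_X, Dx_one, hδ0, zero_mul, mul_zero, sub_zero] at h1
    exact h1.symm
  have h1 := LinearMap.finrank_le_finrank_of_injective hinj
  rwa [Module.finrank_fin_fun] at h1

end Pool.Agent.Lib.MP_410da7_agA
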