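import Pool.Agent.Lib.MP_410da7_agA.SpecD
import Pool.Agent.Lib.MP_410da7_agA.D13

/-!
# MP_410da7_ag, C46, module D11

Smoothness implies that at every finite place some minor of the Jacobian matrix is a unit.
-/

set_option autoImplicit false

namespace Pool.Agent.Lib.MP_410da7_agA

open MvPolynomial WithZero Module KaehlerDifferential TensorProduct

namespace d11Aux

/-- The dimension of the cotangent spaces is constant. -/
theorem finrank_tensor {R O K κ : Type} [CommRing R] [CommRing O] [IsLocalRing O]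
    [Field K] [Field κ] [Algebra R O] [Algebra O K] [Algebra R K] [IsScalarTower R O K]
    [Algebra O κ] [Algebra R κ] [IsScalarTower R O κ]
    (P : Type) [AddCommGroup P] [Module R P] [Module.Finite R P] [Module.Projective R P] :
    finrank κ (κ ⊗[R] P) = finrank K (K ⊗[R] P) := by
  have hfree : Module.Free O (O ⊗[R] P) := Module.free_of_flat_of_isLocalRing
  have h1 : finrank κ (κ ⊗[O] (O ⊗[R] P)) = finrank O (O ⊗[R] P) := Module.finrank_baseChange
  have h2 : finrank K (K ⊗[O] (O ⊗[R] P)) = finrank O (O ⊗[R] P) := Module.finrank_baseChange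
  have h3 := (AlgebraTensorModule.cancelBaseChange R O κ κ P).finrank_eq
  have h4 := (AlgebraTensorModule.cancelBaseChange R O K K P).finrank_eq
  rw [← h3, ← h4, h1, h2]

theorem hom_finrank {R κ : Type} [CommRing R] [Field κ] [Algebra R κ]
    (P : Type) [AddCommGroup P] [Module R P] [Module.Finite R P] :
    Module.Finite κ (P →ₗ[R] κ) ∧ finrank κ (P →ₗ[R] κ) = finrank κ (κ ⊗[R] P) := by
  let e : (P →ₗ[R] κ) ≃ₗ[κ] Module.Dual κ (κ ⊗[R] P) := LinearMap.liftBaseChangeEquiv κ
  refine ⟨Module.Finite.equiv e.symm, ?_⟩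
  rw [e.finrank_eq, Subspace.dual_finrank_eq]

theorem finrank_K {R K : Type} [CommRing R] [IsDomain R] [Algebra ℂ R] [Field K] [Algebra R K]
    [IsFractionRing R K] [Algebra ℂ K] [IsScalarTower ℂ R K] :
    finrank K (K ⊗[R] Ω[R⁄ℂ]) = finrank K Ω[K⁄ℂ] := by
  have : Algebra.FormallyEtale R K := Algebra.FormallyEtale.of_isLocalization (nonZeroDivisors R)
  exact (KaehlerDifferential.tensorKaehlerEquivOfFormallyEtale ℂ R K).finrank_eq

end d11Aux

open d11Aux d13Aux d14Aux in
theorem d11 (hd5 : D5Stmt) : D11Stmt := by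
  intro R K _ _ _ _ _ _ _ _ _ n M r κ d y F hM hn hgen hy0 hE v hv hR
  classical
  -- the valuation ring
  let O := v.valuationSubring
  let ι : R →+* O := (algebraMap R K).codRestrict O.toSubring (fun a => hR a)
  let _ : Algebra R O := ι.toAlgebra
  have : IsScalarTower R O K := IsScalarTower.of_algebraMap_eq fun _ => rfl
  let κ' := IsLocalRing.ResidueField O
  let _ : Algebra ℂ κ' := ((algebraMap R κ').comp (algebraMap ℂ R)).toAlgebra
  have : IsScalarTower ℂ R κ' := IsScalarTower.of_algebraMap_eq fun _ => rfl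
  let inc : v.integer →+* v.valuationSubring :=
    { toFun := fun f => ⟨f, (Valuation.mem_valuationSubring_iff v _).2 f.2⟩
      map_one' := rfl
      map_mul' := fun _ _ => rfl
      map_zero' := rfl
      map_add' := fun _ _ => rfl }
  let res : v.integer →+* κ' := (IsLocalRing.residue v.valuationSubring).comp inc
  have hres0 : ∀ f : v.integer, v (f : K) < 1 → res f = 0 := fun f h =>
    Pool.Agent.Lib.MP_410da7_ag.residue_eq_zero_of_val_lt_one v (inc f) h
  -- the coordinates
  let s : Fin (M + 1) → v.integer := fun l => ⟨algebraMap R K (y l), hR _⟩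
  have hs : ∀ l, (s l : K) = aff (fun l => algebraMap R K (y l)) 0 l := by
    intro l
    change algebraMap R K (y l) = algebraMap R K (y l) / algebraMap R K (y 0)
    rw [hy0, map_one, div_one]
  refine minor_unit hv hM s res hres0 F 0 ?_
  have hev : ∀ P, ((ev hv s P : v.integer) : K) = algebraMap R K (aeval y P) := by
    intro P
    rw [coe_ev, ← aeval_algebraMap_apply]
    rfl
  have hev' : ∀ P, res (ev hv s P) = algebraMap R κ' (aeval y P) := by
    intro P
    have h1 : inc (ev hv s P) = ι (aeval y P) := Subtype.ext (hev P)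
    change IsLocalRing.residue v.valuationSubring (inc (ev hv s P)) = _
    rw [h1]; rfl
  have hrep : ∀ a : R, ∃ P : MvPolynomial (Fin (M + 1)) ℂ, aeval y P = a := by
    intro a
    have h1 : a ∈ Algebra.adjoin ℂ (Set.range y) := by rw [hgen]; exact Algebra.mem_top
    rw [Algebra.adjoin_range_eq_range_aeval] at h1
    exact h1
  choose p hp using hrep
  have hne : algebraMap R K (y 0) ≠ 0 := by rw [hy0, map_one]; exact one_ne_zero
  -- derivations
  have hder : ∀ ξ ∈ Ker (Jm hv s res F) 0, ∃ h : Ω[R⁄ℂ] →ₗ[R] κ', ∀ l, h (D ℂ R (y l)) = ξ l := by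
    intro ξ hξ
    obtain ⟨hξb, hξF⟩ := (mem_Ker_Jm hv s res F 0 ξ).mp hξ
    have hker := Dx_ker hd5 (fun l => algebraMap R K (y l)) 0 F hE hne hv s hs res ξ hξb hξF
    have hwd : ∀ P Q : MvPolynomial (Fin (M + 1)) ℂ, aeval y P = aeval y Q →
        Dx hv s res ξ P = Dx hv s res ξ Q := by
      intro P Q hPQ
      have h1 : ev hv s (P - Q) = 0 := by
        apply Subtype.ext
        rw [hev, map_sub, hPQ, sub_self, map_zero]; rfl
      have h2 := hker _ h1
      rw [Dx_sub] at h2
      exact sub_eq_zero.mp h2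
    let δ₀ : R →ₗ[ℂ] κ' :=
      { toFun := fun a => Dx hv s res ξ (p a)
        map_add' := by
          intro a b
          rw [← Dx_add]
          apply hwd
          rw [map_add, hp, hp, hp]
        map_smul' := by
          intro c a
          rw [hwd (p (c • a)) (C c * p a) (by
            rw [map_mul, hp, hp, aeval_C, Algebra.smul_def]), Dx_mul, Dx_C, mul_zero, add_zero,
            hev', aeval_C, RingHom.id_apply, Algebra.smul_def]
          rfl }
    let δ : Derivation ℂ R κ' := Derivation.mk' δ₀ (by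
      intro a b
      change Dx hv s res ξ (p (a * b)) = a • Dx hv s res ξ (p b) + b • Dx hv s res ξ (p a)
      rw [hwd (p (a * b)) (p a * p b) (by rw [map_mul, hp, hp, hp]), Dx_mul, hev', hev', hp, hp,
        Algebra.smul_def, Algebra.smul_def])
    refine ⟨δ.liftKaehlerDifferential, fun l => ?_⟩
    rw [Derivation.liftKaehlerDifferential_comp_D]
    change Dx hv s res ξ (p (y l)) = ξ l
    rw [hwd (p (y l)) (X l) (by rw [hp, aeval_X]), Dx_X]
  let E : (Ω[R⁄ℂ] →ₗ[R] κ') →ₗ[κ'] (Fin (M + 1) → κ') :=
    { toFun := fun h l => h (D ℂ R (y l))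
      map_add' := fun _ _ => rfl
      map_smul' := fun _ _ => rfl }
  have hle : Ker (Jm hv s res F) 0 ≤ LinearMap.range E := by
    intro ξ hξ
    obtain ⟨h, hh⟩ := hder ξ hξ
    exact ⟨h, funext hh⟩
  obtain ⟨hfin, hrank⟩ := hom_finrank (R := R) (κ := κ') Ω[R⁄ℂ]
  have h1 := Submodule.finrank_mono hle
  have h2 := LinearMap.finrank_range_le E
  rw [hrank, finrank_tensor (O := O) (K := K) (κ := κ') Ω[R⁄ℂ], finrank_K, (finrank_eq hn).2] at h2
  exact h1.trans h2

end Pool.Agent.Lib.MP_410da7_agA
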