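import Pool.Agent.Lib.MP_410da7_agA.SpecD

/-!
# MP_410da7_ag, C46, module D12

Derivations of the valuation ring of a divisor into its residue field.
-/

set_option autoImplicit false

namespace Pool.Agent.Lib.MP_410da7_agA

open MvPolynomial WithZero IntermediateField

namespace d12Aux

variable {K : Type} [Field K] [Algebra ℂ K]

theorem algInd {ι : Type} (v : Valuation K ℤᵐ⁰) (t : ι → K) (ht : ResIndep v t) :
    AlgebraicIndependent ℂ t := by
  rw [algebraicIndependent_iff]
  intro p hp
  by_contra h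
  have := ht p h
  rw [hp, map_zero] at this
  exact zero_ne_one this

theorem val_le {ι : Type} (v : Valuation K ℤᵐ⁰) (t : ι → K) (ht : ResIndep v t) (g : K)
    (hg : g ∈ IntermediateField.adjoin ℂ (Set.range t)) : v g ≤ 1 := by
  rw [IntermediateField.mem_adjoin_range_iff] at hg
  obtain ⟨r, q, h⟩ := hg
  by_cases hq : q = 0
  · rw [h, hq, map_zero, div_zero, map_zero]; exact zero_le_one
  · rw [h, map_div₀, ht q hq, div_one]
    by_cases hr : r = 0
    · rw [hr, map_zero, map_zero]; exact zero_le_one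
    · exact (ht r hr).le

/-- A valuation ring contains the elements integral over a subring. -/
theorem mem_of_isIntegral {A F : Type} [CommRing A] [Field F] [Algebra A F] (v : ValuationSubring F)
    (hA : ∀ a : A, algebraMap A F a ∈ v) (s : F) (hs : IsIntegral A s) : s ∈ v := by
  let _ : Algebra A v := (RingHom.codRestrict (algebraMap A F) v.toSubring hA).toAlgebra
  have : IsScalarTower A v F := IsScalarTower.of_algebraMap_eq fun _ => rfl
  have hs' : IsIntegral v s := hs.tower_top
  obtain ⟨y, hy⟩ := IsIntegrallyClosed.isIntegral_iff.mp hs'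
  rw [← hy]; exact y.2

/-- A valuation with `trdeg K` elements with independent residues is trivial. -/
theorem triv_of_indep {ι : Type} [Finite ι] (v : Valuation K ℤᵐ⁰) (t : ι → K)
    (ht : ResIndep v t) (hc : Algebra.trdeg ℂ K ≤ Cardinal.mk ι) (g : K) : v g ≤ 1 := by
  have hb := (algInd v t ht).isTranscendenceBasis_of_trdeg_le_of_finite hc
  have h1 := hb.isAlgebraic_field
  have h2 : IsIntegral (IntermediateField.adjoin ℂ (Set.range t)) g :=
    (Algebra.IsAlgebraic.isAlgebraic g).isIntegral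
  exact mem_of_isIntegral v.valuationSubring (fun a => val_le v t ht _ a.2) g h2

theorem eval_option {m : ℕ} (t : Fin m → K) (f : K) (p : MvPolynomial (Option (Fin m)) ℂ) :
    aeval (fun o : Option (Fin m) => o.elim f t) p =
      Polynomial.eval₂ (aeval t : MvPolynomial (Fin m) ℂ →ₐ[ℂ] K).toRingHom f
        (optionEquivLeft ℂ (Fin m) p) := by
  induction p using MvPolynomial.induction_on with
  | C c => simp [optionEquivLeft_C]
  | add p q hp hq => rw [map_add, map_add, Polynomial.eval₂_add, hp, hq]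
  | mul_X p i hp =>
    rw [map_mul, map_mul, Polynomial.eval₂_mul, hp, aeval_X]
    congr 1
    cases i with
    | none => simp [optionEquivLeft_X_none]
    | some i => simp [optionEquivLeft_X_some]

/-- There is an equation of every element of the valuation ring modulo the maximal ideal. -/
theorem exists_eqn (n : ℕ) (hn : 1 ≤ n) (htrdeg : Algebra.trdeg ℂ K = n) (v : Valuation K ℤᵐ⁰)
    (t : Fin (n - 1) → K) (ζ : K) (hζ : ζ ≠ 0) (hvζ : v ζ < 1) (f : K)
    (hle : ∀ P : Polynomial (MvPolynomial (Fin (n - 1)) ℂ),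
      v (P.eval₂ (aeval t : MvPolynomial (Fin (n - 1)) ℂ →ₐ[ℂ] K).toRingHom f) ≤ 1) :
    ∃ P : Polynomial (MvPolynomial (Fin (n - 1)) ℂ), P ≠ 0 ∧
      v (P.eval₂ (aeval t : MvPolynomial (Fin (n - 1)) ℂ →ₐ[ℂ] K).toRingHom f) < 1 := by
  by_contra hcon
  push Not at hcon
  have h1 : ResIndep v (fun o : Option (Fin (n - 1)) => o.elim f t) := by
    intro p hp
    rw [eval_option]
    apply le_antisymm (hle _)
    apply hcon
    intro h0
    exact hp ((map_eq_zero_iff _ (optionEquivLeft ℂ (Fin (n - 1))).injective).mp h0)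
  have h2 : Algebra.trdeg ℂ K ≤ Cardinal.mk (Option (Fin (n - 1))) := by
    rw [htrdeg]
    simp only [Cardinal.mk_option, Cardinal.mk_fin]
    have : n = (n - 1) + 1 := by omega
    exact_mod_cast this.le
  have h3 := triv_of_indep v _ h1 h2 ζ⁻¹
  rw [map_inv₀, inv_le_one₀ (zero_lt_iff.mpr ((Valuation.ne_zero_iff _).mpr hζ))] at h3
  exact absurd hvζ (not_lt.mpr h3)

section der

variable {v : Valuation K ℤᵐ⁰} {κ : Type} [Field κ] (res : v.integer →+* κ)
  (δ : v.integer → κ) (ha : ∀ f g, δ (f + g) = δ f + δ g)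
  (hm : ∀ f g, δ (f * g) = res f * δ g + res g * δ f)

include ha hm

omit [Algebra ℂ K] in
theorem der_eval {R : Type} [CommRing R] (e : R →+* v.integer) (he : ∀ r, δ (e r) = 0)
    (f : v.integer) (P : Polynomial R) :
    δ (P.eval₂ e f) = res (P.derivative.eval₂ e f) * δ f := by
  have hpow : ∀ n : ℕ, δ (f ^ n) = n * res f ^ (n - 1) * δ f := by
    intro n
    induction n with
    | zero =>
      have := he 1
      rw [map_one] at this
      simp [this]
    | succ n ih =>
      rw [pow_succ, hm, ih, map_pow]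
      rcases n with _ | n
      · simp
      · simp only [Nat.add_sub_cancel]
        push_cast
        ring
  induction P using Polynomial.induction_on' with
  | add p q hp hq =>
    rw [Polynomial.eval₂_add, ha, hp, hq, Polynomial.derivative_add, Polynomial.eval₂_add, map_add,
      add_mul]
  | monomial n a =>
    rw [Polynomial.eval₂_monomial, hm, he, hpow, Polynomial.derivative_monomial,
      Polynomial.eval₂_monomial]
    simp only [map_mul, map_pow, map_natCast]
    ring

end der

theorem main (n : ℕ) (htrdeg : Algebra.trdeg ℂ K = n) (hn : 1 ≤ n) (v : Valuation K ℤᵐ⁰)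
    (htr : Triv v) (t : Fin (n - 1) → K) (ht : ResIndep v t) (ζ : K) (hζ : ζ ≠ 0) (hvζ : v ζ < 1)
    (hmax : ∀ f : K, v f < 1 → v f ≤ v ζ) (κ : Type) [Field κ]
    (res : v.integer →+* κ) (hres : ∀ f : v.integer, res f = 0 ↔ v (f : K) < 1)
    (δ : v.integer → κ) (ha : ∀ f g, δ (f + g) = δ f + δ g)
    (hm : ∀ f g, δ (f * g) = res f * δ g + res g * δ f)
    (hc : ∀ c : ℂ, ∀ h : algebraMap ℂ K c ∈ v.integer, δ ⟨algebraMap ℂ K c, h⟩ = 0)
    (hδt : ∀ i, ∀ h : t i ∈ v.integer, δ ⟨t i, h⟩ = 0) (hδζ : ∀ h : ζ ∈ v.integer, δ ⟨ζ, h⟩ = 0)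
    (f : v.integer) : δ f = 0 := by
  -- elements of the maximal ideal
  have hmem : ∀ c : ℂ, algebraMap ℂ K c ∈ v.integer := by
    intro c
    rw [Valuation.mem_integer_iff]
    by_cases hc : c = 0
    · rw [hc, map_zero, map_zero]; exact zero_le_one
    · exact (htr c hc).le
  have htmem : ∀ i, t i ∈ v.integer := by
    intro i
    rw [Valuation.mem_integer_iff]
    have := ht (X i) (X_ne_zero i)
    rw [aeval_X] at this
    exact this.le
  have hζmem : ζ ∈ v.integer := by
    rw [Valuation.mem_integer_iff]; exact hvζ.le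
  have step1 : ∀ g : v.integer, v (g : K) < 1 → δ g = 0 := by
    intro g hg
    have h1 : (g : K) * ζ⁻¹ ∈ v.integer := by
      rw [Valuation.mem_integer_iff, map_mul, map_inv₀]
      have h2 := hmax g hg
      have h3 : 0 < v ζ := zero_lt_iff.mpr ((Valuation.ne_zero_iff _).mpr hζ)
      rw [← div_eq_mul_inv]
      exact (div_le_one₀ h3).mpr h2
    have h2 : g = ⟨ζ, hζmem⟩ * ⟨(g : K) * ζ⁻¹, h1⟩ := by
      apply Subtype.ext
      change (g : K) = ζ * ((g : K) * ζ⁻¹)
      field_simp
    rw [h2, hm, hδζ, mul_zero, add_zero, (hres _).mpr hvζ, zero_mul]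
  -- the evaluation
  let φ : ℂ →+* v.integer := (algebraMap ℂ K).codRestrict v.integer hmem
  let e : MvPolynomial (Fin (n - 1)) ℂ →+* v.integer := eval₂Hom φ (fun i => ⟨t i, htmem i⟩)
  have he : ∀ r, ((e r : v.integer) : K) = aeval t r := by
    intro r
    induction r using MvPolynomial.induction_on with
    | C c =>
      change ((eval₂Hom φ (fun i => ⟨t i, htmem i⟩) (C c) : v.integer) : K) = _
      rw [coe_eval₂Hom, eval₂_C, aeval_C]; rfl
    | add p q hp hq => rw [map_add, map_add, ← hp, ← hq]; rfl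
    | mul_X p i hp =>
      rw [map_mul, map_mul, ← hp, aeval_X]
      have : e (X i) = ⟨t i, htmem i⟩ := by
        change eval₂Hom φ (fun i => ⟨t i, htmem i⟩) (X i) = _
        rw [coe_eval₂Hom, eval₂_X]
      rw [this]; rfl
  have hδe : ∀ r, δ (e r) = 0 := by
    intro r
    induction r using MvPolynomial.induction_on with
    | C c =>
      have : e (C c) = ⟨algebraMap ℂ K c, hmem c⟩ := by
        change eval₂Hom φ (fun i => ⟨t i, htmem i⟩) (C c) = _
        rw [coe_eval₂Hom, eval₂_C]; rfl
      rw [this]; exact hc c _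
    | add p q hp hq => rw [map_add, ha, hp, hq, add_zero]
    | mul_X p i hp =>
      have : e (X i) = ⟨t i, htmem i⟩ := by
        change eval₂Hom φ (fun i => ⟨t i, htmem i⟩) (X i) = _
        rw [coe_eval₂Hom, eval₂_X]
      rw [map_mul, hm, hp, this, hδt, mul_zero, mul_zero, add_zero]
  have heval : ∀ P : Polynomial (MvPolynomial (Fin (n - 1)) ℂ),
      ((P.eval₂ e f : v.integer) : K) =
        P.eval₂ (aeval t : MvPolynomial (Fin (n - 1)) ℂ →ₐ[ℂ] K).toRingHom (f : K) := by
    intro P
    have h1 := Polynomial.hom_eval₂ P e (v.integer.subtype) f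
    have h2 : (v.integer.subtype).comp e =
        (aeval t : MvPolynomial (Fin (n - 1)) ℂ →ₐ[ℂ] K).toRingHom := by
      apply RingHom.ext
      intro r
      exact he r
    rw [h2] at h1
    exact h1
  have hle : ∀ P : Polynomial (MvPolynomial (Fin (n - 1)) ℂ),
      v (P.eval₂ (aeval t : MvPolynomial (Fin (n - 1)) ℂ →ₐ[ℂ] K).toRingHom (f : K)) ≤ 1 := by
    intro P
    rw [← heval]
    exact (P.eval₂ e f).2
  obtain ⟨P₀, hP₀⟩ := exists_eqn n hn htrdeg v t ζ hζ hvζ f hle
  obtain ⟨P, ⟨hP0, hPv⟩, hmin⟩ := WellFounded.has_min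
    (measure (fun P : Polynomial (MvPolynomial (Fin (n - 1)) ℂ) => P.natDegree)).wf
    {P | P ≠ 0 ∧ v (P.eval₂ (aeval t : MvPolynomial (Fin (n - 1)) ℂ →ₐ[ℂ] K).toRingHom
      (f : K)) < 1} ⟨P₀, hP₀⟩
  have hdeg : P.natDegree ≠ 0 := by
    intro h0
    have h1 := Polynomial.eq_C_of_natDegree_eq_zero h0
    have h2 : P.coeff 0 ≠ 0 := by
      intro h; rw [h, map_zero] at h1; exact hP0 h1
    rw [h1, Polynomial.eval₂_C] at hPv
    have h3 := ht _ h2
    change v (aeval t (P.coeff 0)) < 1 at hPv
    rw [h3] at hPv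
    exact lt_irrefl _ hPv
  have hder : P.derivative ≠ 0 := by
    intro h
    exact hdeg (Polynomial.derivative_eq_zero.mp h)
  have hlt : P.derivative.natDegree < P.natDegree := Polynomial.natDegree_derivative_lt hdeg
  have hnot : ¬ v (P.derivative.eval₂ (aeval t : MvPolynomial (Fin (n - 1)) ℂ →ₐ[ℂ] K).toRingHom
      (f : K)) < 1 := by
    intro h
    exact hmin _ ⟨hder, h⟩ hlt
  have h1 := der_eval res δ ha hm e hδe f P
  rw [step1 _ (by rw [heval]; exact hPv)] at h1
  rcases mul_eq_zero.mp h1.symm with h | h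
  · exfalso
    rw [hres, heval] at h
    exact hnot h
  · exact h

end d12Aux

theorem d12 : D12Stmt := by
  intro K _ _ n htrdeg hn v htr t ht ζ hζ hvζ hmax κ _ _ res _ hres δ ha hm hc hδt hδζ f
  exact d12Aux.main n htrdeg hn v htr t ht ζ hζ hvζ hmax κ res hres δ ha hm hc hδt hδζ f

end Pool.Agent.Lib.MP_410da7_agA
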