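import Pool.Agent.Lib.MP_410da7_agA.SpecD
import Pool.Agent.Lib.MP_410da7_ag.Kaehler

/-!
# MP_410da7_ag, smooth affine varieties: auxiliary facts for D16, D17, D18
-/

set_option autoImplicit false

namespace Pool.Agent.Lib.MP_410da7_agA

open MvPolynomial KaehlerDifferential WithZero Module
open Pool.Agent.Lib.MP_410da7_ag (regDiff logDiff regGens logGens)

namespace DAux

/-- Injective maps extend to enumerations. -/
lemma exists_enum {n r M : ℕ} (hM : M = n + r) (f : Fin (n + 1) → Fin (M + 1))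
    (hf : Function.Injective f) :
    ∃ e : Fin (n + 1) ⊕ Fin r ≃ Fin (M + 1), ∀ i, e (Sum.inl i) = f i := by
  classical
  have hcard : Fintype.card ↥(Set.range f)ᶜ = r := by
    rw [Fintype.card_compl_set, Set.card_range_of_injective hf, Fintype.card_fin, Fintype.card_fin]
    omega
  let e₁ : ↥(Set.range f)ᶜ ≃ Fin r := Fintype.equivFinOfCardEq hcard
  exact ⟨(Equiv.sumCongr (Equiv.ofInjective f hf) e₁.symm).trans (Equiv.Set.sumCompl _),
    fun i => by simp⟩

/-- The valuation of a comparison with the generators: `v` is trivial on `ℂ` and at most `1` on the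
generators of `R`. -/
lemma val_le_one {R K : Type} [CommRing R] [Algebra ℂ R] [Field K] [Algebra R K] [Algebra ℂ K]
    [IsScalarTower ℂ R K] {N : ℕ} {x : Fin N → R} (hx : Algebra.adjoin ℂ (Set.range x) = ⊤)
    {v : Valuation K ℤᵐ⁰} (hv : Triv v) (h : ∀ l, v (algebraMap R K (x l)) ≤ 1) (a : R) :
    v (algebraMap R K a) ≤ 1 := by
  have ha : a ∈ Algebra.adjoin ℂ (Set.range x) := by
    rw [hx]
    trivial
  induction ha using Algebra.adjoin_induction with
  | mem a ha =>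
    obtain ⟨l, rfl⟩ := ha
    exact h l
  | algebraMap c =>
    rw [← IsScalarTower.algebraMap_apply ℂ R K]
    by_cases hc : c = 0
    · rw [hc, map_zero, map_zero]
      exact zero_le
    · exact (hv c hc).le
  | add a b _ _ ha hb =>
    rw [map_add]
    exact v.map_add_le ha hb
  | mul a b _ _ ha hb =>
    rw [map_mul, map_mul]
    exact mul_le_one' ha hb

/-- The restriction to `K` of a valuation trivial on `L` is trivial on `ℂ`. -/
lemma triv_comap {K L Λ : Type} [Field K] [Algebra ℂ K] [Field L] [Field Λ] [Algebra ℂ L]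
    [Algebra L Λ] [Algebra K Λ] [Algebra ℂ Λ] [IsScalarTower ℂ L Λ] [IsScalarTower ℂ K Λ]
    {w : Valuation Λ ℤᵐ⁰} (hw : ∀ c : L, c ≠ 0 → w (algebraMap L Λ c) = 1) :
    Triv (w.comap (algebraMap K Λ)) := by
  intro c hc
  rw [Valuation.comap_apply, ← IsScalarTower.algebraMap_apply ℂ K Λ,
    IsScalarTower.algebraMap_apply ℂ L Λ]
  exact hw _ (by rwa [Ne, map_eq_zero_iff _ (algebraMap ℂ L).injective])

/-- A nonvanishing top form in the differentials of the coordinates. -/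
lemma exists_frame {K : Type} [Field K] [Algebra ℂ K] {n M r : ℕ} (hM : M = n + r)
    (htr : Algebra.trdeg ℂ K = n) (Ψ : Ω[K⁄ℂ] [⋀^Fin n]→ₗ[K] K) (hΨ : Ψ ≠ 0)
    (Y : Fin (M + 1) → K) (hY0 : Y 0 = 1)
    (hgen : IntermediateField.adjoin ℂ (Set.range Y) = ⊤) :
    ∃ e : Fin (n + 1) ⊕ Fin r ≃ Fin (M + 1), e (Sum.inl 0) = 0 ∧
      Ψ (fun i => D ℂ K (Y (e (Sum.inl i.succ)))) ≠ 0 := by
  classical
  have halg : Algebra.IsAlgebraic (Algebra.adjoin ℂ (Set.range Y)) K := by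
    refine ⟨fun a => ?_⟩
    have ha : a ∈ IntermediateField.adjoin ℂ (Set.range Y) := by
      rw [hgen]
      trivial
    obtain ⟨p, hp, q, hq, rfl⟩ := IntermediateField.mem_adjoin_iff_div.1 ha
    have h1 : IsAlgebraic (Algebra.adjoin ℂ (Set.range Y)) p :=
      isAlgebraic_algebraMap (⟨p, hp⟩ : Algebra.adjoin ℂ (Set.range Y))
    have h2 : IsAlgebraic (Algebra.adjoin ℂ (Set.range Y)) q :=
      isAlgebraic_algebraMap (⟨q, hq⟩ : Algebra.adjoin ℂ (Set.range Y))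
    rw [div_eq_mul_inv]
    exact h1.mul h2.inv
  obtain ⟨t, htY, ht⟩ := exists_isTranscendenceBasis_subset (R := ℂ) (Set.range Y)
  have hcard : Cardinal.mk t = n := by rw [ht.cardinalMk_eq_trdeg, htr]
  have hfin : Finite t := by
    rw [← Cardinal.lt_aleph0_iff_finite, hcard]
    exact Cardinal.natCast_lt_aleph0
  have hcard' : Nat.card t = n := by
    rw [Nat.card, hcard, Cardinal.toNat_natCast]
  let σ : Fin n ≃ t := (Finite.equivFinOfCardEq hcard').symm
  have hl : ∀ i, ∃ l, Y l = (σ i : K) := fun i => htY (σ i).2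
  choose l hl using hl
  have hlinj : Function.Injective l := by
    intro i j hij
    have h1 : (σ i : K) = σ j := by rw [← hl i, ← hl j, hij]
    exact σ.injective (Subtype.ext h1)
  have hl0 : ∀ i, l i ≠ 0 := by
    intro i h0
    have h1 := ht.1.transcendental (σ i)
    apply h1
    have h2 : ((σ i : t) : K) = 1 := by rw [← hl i, h0, hY0]
    rw [h2]
    exact isAlgebraic_one
  have hfinj : Function.Injective (Fin.cons 0 l : Fin (n + 1) → Fin (M + 1)) := by
    rw [Fin.cons_injective_iff]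
    refine ⟨?_, hlinj⟩
    rintro ⟨i, hi⟩
    exact hl0 i hi
  obtain ⟨e, he⟩ := exists_enum hM _ hfinj
  refine ⟨e, by rw [he, Fin.cons_zero], ?_⟩
  have hσ : IsTranscendenceBasis ℂ (fun i => (σ i : K)) := by
    exact ht.comp_equiv σ
  obtain ⟨bas, hbas⟩ := Pool.Agent.Lib.MP_410da7_ag.exists_kaehlerBasis (fun i => (σ i : K)) hσ
  have h1 : (fun i => D ℂ K (Y (e (Sum.inl i.succ)))) = bas := by
    funext i
    rw [hbas, he, Fin.cons_succ, hl]
  rw [h1]
  exact (AlternatingMap.map_basis_ne_zero_iff bas Ψ).2 hΨ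

/-- D9 and D10 for two enumerations which start with the coordinate `Y_0 = 1`. -/
lemma rel9 (hd9 : D9Stmt) (hd10 : D10Stmt) {K : Type} [Field K] [Algebra ℂ K] {n M r κ d : ℕ}
    (htr : Algebra.trdeg ℂ K = n)
    (hfin : ∃ T : Set K, T.Finite ∧ IntermediateField.adjoin ℂ T = ⊤) (hM : M = n + r)
    (Ψ : Ω[K⁄ℂ] [⋀^Fin n]→ₗ[K] K) {F : Fin κ → MvPolynomial (Fin (M + 1)) ℂ}
    {Y : Fin (M + 1) → K} (hF : ∀ j, (F j).IsHomogeneous d) (hY : ∀ j, aeval Y (F j) = 0)
    (hY0 : Y 0 = 1) (J : Fin r → Fin κ) {e e' : Fin (n + 1) ⊕ Fin r ≃ Fin (M + 1)}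
    (he : e (Sum.inl 0) = 0) (he' : e' (Sum.inl 0) = 0) (v : Valuation K ℤᵐ⁰) :
    v (Ψ fun i => D ℂ K (Y (e (Sum.inl i.succ)))) * v (minor F (e' ∘ Sum.inr) Y J) =
      v (Ψ fun i => D ℂ K (Y (e' (Sum.inl i.succ)))) * v (minor F (e ∘ Sum.inr) Y J) := by
  have h := hd9 K n M r κ d htr hfin hM Ψ F Y hF hY J e e' v
  rw [(hd10 K n M Ψ Y (e ∘ Sum.inl)).2 (by rw [Function.comp_apply, he, hY0]),
    (hd10 K n M Ψ Y (e' ∘ Sum.inl)).2 (by rw [Function.comp_apply, he', hY0])] at h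
  exact h

/-- The coordinates outside `I₀` have independent differentials. -/
lemma psi_ne (hd9 : D9Stmt) (hd10 : D10Stmt) {K : Type} [Field K] [Algebra ℂ K] {n M r κ d : ℕ}
    (htr : Algebra.trdeg ℂ K = n) (hM : M = n + r)
    (Ψ : Ω[K⁄ℂ] [⋀^Fin n]→ₗ[K] K) (hΨ : Ψ ≠ 0) {F : Fin κ → MvPolynomial (Fin (M + 1)) ℂ}
    {Y : Fin (M + 1) → K} (hF : ∀ j, (F j).IsHomogeneous d) (hY : ∀ j, aeval Y (F j) = 0)
    (hY0 : Y 0 = 1) (hgen : IntermediateField.adjoin ℂ (Set.range Y) = ⊤)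
    {J : Fin r → Fin κ} {e' : Fin (n + 1) ⊕ Fin r ≃ Fin (M + 1)} (he' : e' (Sum.inl 0) = 0)
    (hJ : minor F (e' ∘ Sum.inr) Y J ≠ 0) :
    (Ψ fun i => D ℂ K (Y (e' (Sum.inl i.succ)))) ≠ 0 := by
  classical
  obtain ⟨e, he, hne⟩ := exists_frame hM htr Ψ hΨ Y hY0 hgen
  have h := rel9 hd9 hd10 htr ⟨_, Set.finite_range Y, hgen⟩ hM Ψ hF hY hY0 J he he'
    (1 : Valuation K ℤᵐ⁰)
  intro h0
  rw [h0, map_zero, zero_mul, mul_eq_zero, Valuation.zero_iff, Valuation.zero_iff] at h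
  exact h.elim hne hJ

/-- The coordinates `y` of the model generate `R`. -/
lemma adjoin_y {R K : Type} [CommRing R] [Algebra ℂ R] [Field K] [Algebra R K]
    [Algebra ℂ K] {N M κ r d n : ℕ} {x : Fin N → R} {y : Fin (M + 1) → R} {b : Fin (M + 1)}
    {S : System ℂ M κ r d} (hx : Algebra.adjoin ℂ (Set.range x) = ⊤)
    (hm : Model R K n x y b S) : Algebra.adjoin ℂ (Set.range y) = ⊤ := by
  rw [eq_top_iff, ← hx]
  refine Algebra.adjoin_mono ?_
  rintro _ ⟨l, rfl⟩
  obtain ⟨l', hl'⟩ := hm.xy l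
  exact ⟨l', hl'⟩

/-- The coordinates `y` of the model generate `K`. -/
lemma adjoin_yK {R K : Type} [CommRing R] [Algebra ℂ R] [Field K] [Algebra R K]
    [Algebra ℂ K] {N M κ r d n : ℕ} {x : Fin N → R} {y : Fin (M + 1) → R} {b : Fin (M + 1)}
    {S : System ℂ M κ r d}
    (hx : IntermediateField.adjoin ℂ (Set.range fun l => algebraMap R K (x l)) = ⊤)
    (hm : Model R K n x y b S) :
    IntermediateField.adjoin ℂ (Set.range fun l => algebraMap R K (y l)) = ⊤ := by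
  rw [eq_top_iff, ← hx]
  refine IntermediateField.adjoin.mono _ _ _ ?_
  rintro _ ⟨l, rfl⟩
  obtain ⟨l', hl'⟩ := hm.xy l
  exact ⟨l', congrArg _ hl'⟩

end DAux

end Pool.Agent.Lib.MP_410da7_agA
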