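import Pool.Agent.Lib.MP_410da7_agA.SpecD
import Pool.Agent.Lib.MP_410da7_agA.DAux

/-!
# MP_410da7_ag, smooth affine varieties: D16

The certificate at the finite places.
-/

set_option autoImplicit false

namespace Pool.Agent.Lib.MP_410da7_agA

open MvPolynomial KaehlerDifferential WithZero Module
open Pool.Agent.Lib.MP_410da7_ag (regDiff logDiff regGens logGens)

namespace d16Aux

/-- A differential of an element of the valuation ring is regular. -/
lemma mem_regDiff {K : Type} [Field K] [Algebra ℂ K] {v : Valuation K ℤᵐ⁰} {b : K}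
    (hb : v b ≤ 1) : D ℂ K b ∈ regDiff v :=
  AddSubgroup.subset_closure ⟨1, b, by rw [map_one], hb, by rw [one_smul]⟩

lemma mem_logDiff {K : Type} [Field K] [Algebra ℂ K] {v : Valuation K ℤᵐ⁰} {b : K}
    (hb : v b ≤ 1) : D ℂ K b ∈ logDiff v :=
  AddSubgroup.subset_closure (Or.inl ⟨1, b, by rw [map_one], hb, by rw [one_smul]⟩)

end d16Aux

open DAux d16Aux in
theorem d16 (hd1 : D1Stmt) (hd9 : D9Stmt) (hd10 : D10Stmt) (hd11 : D11Stmt) : D16Stmt := by
  intro R K _ _ _ _ _ _ _ _ _ n N M κ r d m₀ e₀ Ψ x y b S hx hsit hm L Λ _ _ _ _ _ _ _ _ a hN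
    e' he'0 he'I V hVL hVx
  have : CharZero L := charZero_of_injective_algebraMap (algebraMap ℂ L).injective
  obtain ⟨w, hw1, hwV⟩ := hd1 L Λ hN.trdeg hN.fg V hVL
  set v : Valuation K ℤᵐ⁰ := w.comap (algebraMap K Λ) with hv
  have htriv : Triv v := triv_comap hw1
  have hvx : ∀ l, v (algebraMap R K (x l)) ≤ 1 := fun l => (hwV _).1 (hVx l)
  have hvR : ∀ c : R, v (algebraMap R K c) ≤ 1 := val_le_one hx htriv hvx
  have hyR := adjoin_y hx hm
  have hyK := adjoin_yK hsit.gen hm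
  obtain ⟨J, e, he0, hJ⟩ := hd11 R K n M r κ d y S.F hm.dimM hsit.trdeg hyR hm.y0 hm.eqs v htriv
    hvR
  have hY0 : (fun l => algebraMap R K (y l)) 0 = 1 := by
    show algebraMap R K (y 0) = 1
    rw [hm.y0, map_one]
  have hfin : ∃ T : Set K, T.Finite ∧ IntermediateField.adjoin ℂ T = ⊤ :=
    ⟨_, Set.finite_range _, hyK⟩
  have hΨ0 := psi_ne hd9 hd10 hsit.trdeg hm.dimM Ψ hsit.Ψ0 hm.eqs.hom hm.eqs.zero hY0 hyK he'0
    (by rw [he'I]; exact hm.J0)
  have hrel := rel9 hd9 hd10 hsit.trdeg hfin hm.dimM Ψ hm.eqs.hom hm.eqs.zero hY0 J he0 he'0 v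
  rw [hJ, mul_one, he'I] at hrel
  -- the frame
  have hframe : Frame (fun l => algebraMap R K (x l)) v
      (fun i : Fin n => D ℂ K (algebraMap R K (y (e (Sum.inl i.succ))))) :=
    ⟨fun i => mem_logDiff (hvR _), fun _ i => mem_regDiff (hvR _)⟩
  have hnz := hN.noZero w hw1 _ hframe
  have hsize : size (fun l => algebraMap R K (x l)) v = 1 := by
    rw [size, sup_eq_right]
    exact Finset.sup_le fun l _ => hvx l
  rw [← hv, hsize, one_pow, one_mul] at hnz
  set ψ := Ψ (fun i : Fin n => D ℂ K (algebraMap R K (y (e (Sum.inl i.succ))))) with hψ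
  set ψ₀ := Ψ (fun i : Fin n => D ℂ K (algebraMap R K (y (e' (Sum.inl i.succ))))) with hψ₀
  set mJ := minor S.F S.I₀ (fun l => algebraMap R K (y l)) J with hmJ
  have hv0 : v ψ₀ ≠ 0 := (Valuation.ne_zero_iff v).2 hΨ0
  have hmul : v ψ * v mJ ≠ 0 := by
    rw [hrel]
    exact hv0
  have hψ1 : v ψ ≠ 0 := left_ne_zero_of_mul hmul
  have hm1 : v mJ ≠ 0 := right_ne_zero_of_mul hmul
  refine ⟨J, (Valuation.ne_zero_iff v).1 hm1, ?_⟩
  rw [hwV, map_inv₀, map_mul, map_div₀, map_pow, map_pow]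
  have e1 : w (algebraMap K Λ ψ₀) = v ψ₀ := rfl
  have e2 : w (algebraMap K Λ mJ) = v mJ := rfl
  have e3 : w (algebraMap K Λ ψ) = v ψ := rfl
  rw [e1, e2, ← hrel]
  rw [e3] at hnz
  have h1 : w a / (v ψ * v mJ) ^ m₀ * v mJ ^ m₀ = w a / v ψ ^ m₀ := by
    rw [mul_pow, div_mul_eq_mul_div, mul_div_mul_right _ _ (pow_ne_zero _ hm1)]
  rw [h1, inv_div]
  exact div_le_one_of_le₀ hnz zero_le

end Pool.Agent.Lib.MP_410da7_agA
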