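import Pool.Agent.Lib.MP_410da7_agA.SpecD
import Pool.Agent.Lib.MP_410da7_agA.DAux

/-!
# MP_410da7_ag, smooth affine varieties: D17

The certificate at infinity.
-/

set_option autoImplicit false

namespace Pool.Agent.Lib.MP_410da7_agA

open MvPolynomial KaehlerDifferential WithZero Module
open Pool.Agent.Lib.MP_410da7_ag (regDiff logDiff regGens logGens)

namespace d17Aux

/-- Values of a homogeneous polynomial at proportional points. -/
lemma aeval_scale {K : Type} [Field K] [Algebra ℂ K] {m e : ℕ} {G : MvPolynomial (Fin m) ℂ}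
    (hG : G.IsHomogeneous e) (g : K) (s : Fin m → K) :
    aeval (fun l => g * s l) G = g ^ e * aeval s G := by
  rw [aeval_def, aeval_def, eval₂_eq', eval₂_eq', Finset.mul_sum]
  refine Finset.sum_congr rfl fun a ha => ?_
  have hd : ∑ i, a i = e := by
    by_contra hne
    rw [MvPolynomial.mem_support_iff] at ha
    apply ha
    apply hG.coeff_eq_zero
    rwa [Finsupp.degree_eq_sum]
  simp only [mul_pow]
  rw [Finset.prod_mul_distrib, Finset.prod_pow_eq_pow_sum, hd]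
  ring

/-- Minors of the Jacobian matrix at proportional points. -/
lemma minor_scale {K : Type} [Field K] [Algebra ℂ K] {M κ r d : ℕ}
    {F : Fin κ → MvPolynomial (Fin (M + 1)) ℂ} (hF : ∀ j, (F j).IsHomogeneous d)
    (I : Fin r → Fin (M + 1)) (J : Fin r → Fin κ) (g : K) (s : Fin (M + 1) → K) :
    minor F I (fun l => g * s l) J = g ^ ((r : ℤ) * ((d : ℤ) - 1)) * minor F I s J := by
  classical
  unfold minor
  rcases Nat.eq_zero_or_pos d with hd | hd
  · subst hd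
    have h0 : ∀ (Y : Fin (M + 1) → K) j l, jac F I Y j l = 0 := by
      intro Y j l
      have h1 : F j = MvPolynomial.C (coeff 0 (F j)) :=
        totalDegree_eq_zero_iff_eq_C.1 (Nat.le_zero.1 (hF j).totalDegree_le)
      rw [jac, h1, pderiv_C, map_zero]
    rcases Nat.eq_zero_or_pos r with hr | hr
    · subst hr
      simp
    · have : Nonempty (Fin r) := ⟨⟨0, hr⟩⟩
      have h2 : ∀ Y : Fin (M + 1) → K, (Matrix.of fun i l => jac F I Y (J i) l) = 0 := by
        intro Y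
        ext i l
        exact h0 Y _ _
      rw [h2, h2, Matrix.det_zero, mul_zero]
  · have h1 : (Matrix.of fun i l => jac F I (fun l => g * s l) (J i) l) =
        g ^ (d - 1) • (Matrix.of fun i l => jac F I s (J i) l) := by
      ext i l
      rw [Matrix.smul_apply, Matrix.of_apply, Matrix.of_apply, jac, jac, smul_eq_mul]
      exact aeval_scale (hF (J i)).pderiv g s
    rw [h1, Matrix.det_smul, Fintype.card_fin, ← pow_mul]
    have h2 : (r : ℤ) * ((d : ℤ) - 1) = (((d - 1) * r : ℕ) : ℤ) := by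
      rw [Nat.cast_mul, Nat.cast_sub (by omega)]
      push_cast
      ring
    rw [h2, zpow_natCast]

/-- Values of polynomials. -/
lemma val_aeval_le {K : Type} [Field K] [Algebra ℂ K] {v : Valuation K ℤᵐ⁰} (hv : Triv v) {m : ℕ}
    (s : Fin m → K) (X : ℤᵐ⁰) (hX : 1 ≤ X) (hs : ∀ l, v (s l) ≤ X)
    (P : MvPolynomial (Fin m) ℂ) : v (aeval s P) ≤ X ^ P.totalDegree := by
  rw [aeval_def, eval₂_eq']
  refine v.map_sum_le fun a ha => ?_
  rw [map_mul, map_prod]
  have h1 : v (algebraMap ℂ K (coeff a P)) = 1 := hv _ (MvPolynomial.mem_support_iff.1 ha)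
  rw [h1, one_mul]
  calc ∏ i, v (s i ^ a i) ≤ ∏ i, X ^ a i := by
        refine Finset.prod_le_prod' fun i _ => ?_
        rw [map_pow]
        exact pow_le_pow_left' (hs i) _
    _ = X ^ ∑ i, a i := Finset.prod_pow_eq_pow_sum _ _ _
    _ ≤ X ^ P.totalDegree := by
        refine pow_le_pow_right₀ hX ?_
        have h2 := le_totalDegree ha
        rwa [Finsupp.sum_fintype _ _ (fun _ => rfl)] at h2

/-- The dimension is positive if there is a nontrivial valuation. -/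
lemma one_le_dim {K : Type} [Field K] [Algebra ℂ K] {v : Valuation K ℤᵐ⁰} (hv : Triv v) {n : ℕ}
    (htr : Algebra.trdeg ℂ K = n) {f : K} (hf : 1 < v f) : 1 ≤ n := by
  by_contra hn
  have hn0 : n = 0 := by omega
  subst hn0
  have halg : Algebra.IsAlgebraic ℂ K := by
    rw [← trdeg_eq_zero_iff, htr, Nat.cast_zero]
  obtain ⟨c, hc⟩ := (IsAlgClosed.algebraMap_bijective_of_isIntegral (k := ℂ) (K := K)).2 f
  rw [← hc] at hf
  by_cases h0 : c = 0
  · rw [h0, map_zero, map_zero] at hf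
    exact not_lt_zero hf
  · rw [hv c h0] at hf
    exact lt_irrefl _ hf

end d17Aux

open DAux d17Aux in
theorem d17 (hd9 : D9Stmt) (hd10 : D10Stmt) (hd13 : D13Stmt) (hd14 : D14Stmt) (hd15 : D15Stmt) :
    D17Stmt := by
  intro R K _ _ _ _ _ _ _ _ n N M κ r d m₀ e₀ Ψ x y b S hx hsit hm
  have hyb : y b ∈ Algebra.adjoin ℂ (Set.range x) := by
    rw [hx]
    trivial
  rw [Algebra.adjoin_range_eq_range_aeval] at hyb
  obtain ⟨P₀, hP₀⟩ := hyb
  refine ⟨P₀.totalDegree + 1, by omega, ?_⟩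
  intro L Λ _ _ _ _ _ _ _ _ a hN e' he'0 he'I w hw1 hwx hchart
  set v : Valuation K ℤᵐ⁰ := w.comap (algebraMap K Λ) with hv
  have htriv : Triv v := triv_comap hw1
  have hyK := adjoin_yK hsit.gen hm
  have hY0 : (fun l => algebraMap R K (y l)) 0 = 1 := by
    show algebraMap R K (y 0) = 1
    rw [hm.y0, map_one]
  -- the coordinate with the largest value
  obtain ⟨l₁, hl₁⟩ := hwx
  have : Nonempty (Fin N) := ⟨l₁⟩
  obtain ⟨l₀, hl₀⟩ := Finite.exists_max (fun l => v (algebraMap R K (x l)))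
  have hX1 : 1 < v (algebraMap R K (x l₀)) := lt_of_lt_of_le hl₁ (hl₀ l₁)
  set X := v (algebraMap R K (x l₀)) with hX
  have hx0 : x l₀ ≠ 0 := by
    intro h
    rw [hX, h, map_zero, map_zero] at hX1
    exact not_lt_zero hX1
  have hx0K : algebraMap R K (x l₀) ≠ 0 := by
    intro h
    rw [hX, h, map_zero] at hX1
    exact not_lt_zero hX1
  have hsize : size (fun l => algebraMap R K (x l)) v = X := by
    rw [size]
    refine le_antisymm (sup_le (Finset.sup_le fun l _ => hl₀ l) hX1.le) ?_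
    exact le_sup_of_le_left (Finset.le_sup (f := fun l => v (algebraMap R K (x l)))
      (Finset.mem_univ l₀))
  have hncent : ¬ Cent (fun l => algebraMap R K (x l)) v := fun h => absurd (h l₀) (not_le.2 hX1)
  obtain ⟨t, ht⟩ := hN.res w hw1 hncent
  have hn1 : 1 ≤ n := one_le_dim htriv hsit.trdeg hX1
  have hnt : ∃ f : K, f ≠ 0 ∧ v f ≠ 1 := ⟨_, hx0K, ne_of_gt hX1⟩
  have hybv : 1 < v (algebraMap R K (y b)) := by
    obtain ⟨l', hl'⟩ := hm.xy l₀
    have h := hchart.max l'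
    have h2 : algebraMap R K (y l') = algebraMap R K (x l₀) := by rw [hl']
    rw [h2] at h
    exact lt_of_lt_of_le hX1 h
  have hyb0 : algebraMap R K (y b) ≠ 0 := hchart.ne
  have hfin : ∃ T : Set K, T.Finite ∧ IntermediateField.adjoin ℂ T = ⊤ :=
    ⟨_, Set.finite_range _, hyK⟩
  obtain ⟨J, e, he0, hJ⟩ := hd13 K n M r κ d (fun l => algebraMap R K (y l)) b S.F hm.dimM hn1
    hsit.trdeg hm.eqs v htriv hnt hchart t ht
  obtain ⟨T, hT1, hT2, hT3, hT4, hT5⟩ := hd15 K M κ d (fun l => algebraMap R K (y l)) b S.F hY0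
    hm.eqs v htriv hchart hybv
  set ζ := aeval (fun l => algebraMap R K (y l)) T.a / algebraMap R K (y b) ^ T.e with hζ
  have hζ0 : ζ ≠ 0 := div_ne_zero hT2 (pow_ne_zero _ hyb0)
  obtain ⟨θ, hθ1, hθ2⟩ := hd14 K n M r κ d Ψ (fun l => algebraMap R K (y l)) b S.F hm.dimM hn1
    hsit.trdeg hfin hsit.Ψ0 hm.eqs v htriv hnt hchart t ht J e he0 hJ ζ hζ0 hT3 hT4
  have hnz := hN.noZero w hw1 θ ⟨hθ1, fun h => absurd h hncent⟩
  rw [← hv, hsize] at hnz
  -- the minors
  have hΨ0 := psi_ne hd9 hd10 hsit.trdeg hm.dimM Ψ hsit.Ψ0 hm.eqs.hom hm.eqs.zero hY0 hyK he'0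
    (by rw [he'I]; exact hm.J0)
  have hyaff : (fun l => algebraMap R K (y l)) =
      fun l => algebraMap R K (y b) * aff (fun l => algebraMap R K (y l)) b l := by
    funext l
    rw [aff, mul_div_cancel₀ _ hyb0]
  have hcone : coneDet Ψ (fun l => algebraMap R K (y l)) (e ∘ Sum.inl) =
      algebraMap R K (y b) ^ (n + 1) *
        Ψ (fun i => D ℂ K (aff (fun l => algebraMap R K (y l)) b (e (Sum.inl i.succ)))) := by
    have h1 := (hd10 K n M Ψ (aff (fun l => algebraMap R K (y l)) b) (e ∘ Sum.inl)).1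
      (algebraMap R K (y b))
    rw [← hyaff] at h1
    rw [h1, (hd10 K n M Ψ (aff (fun l => algebraMap R K (y l)) b) (e ∘ Sum.inl)).2]
    · rfl
    · rw [Function.comp_apply, he0]
      exact div_self hyb0
  have hcone' : coneDet Ψ (fun l => algebraMap R K (y l)) (e' ∘ Sum.inl) =
      Ψ (fun i => D ℂ K (algebraMap R K (y (e' (Sum.inl i.succ))))) := by
    refine (hd10 K n M Ψ (fun l => algebraMap R K (y l)) (e' ∘ Sum.inl)).2 ?_
    rw [Function.comp_apply, he'0]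
    exact hY0
  have hminor := minor_scale hm.eqs.hom (e ∘ Sum.inr) J (algebraMap R K (y b))
    (aff (fun l => algebraMap R K (y l)) b)
  rw [← hyaff] at hminor
  have h9 := hd9 K n M r κ d hsit.trdeg hfin hm.dimM Ψ S.F (fun l => algebraMap R K (y l))
    hm.eqs.hom hm.eqs.zero J e e' v
  rw [hcone, hcone', hminor, he'I, map_mul, map_mul, map_pow, map_zpow₀, hJ, mul_one, ← hθ2] at h9
  set ψ₀ := Ψ (fun i => D ℂ K (algebraMap R K (y (e' (Sum.inl i.succ))))) with hψ₀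
  set mJ := minor S.F S.I₀ (fun l => algebraMap R K (y l)) J with hmJ
  have hv0 : v ψ₀ ≠ 0 := (Valuation.ne_zero_iff v).2 hΨ0
  have hY0' : v (algebraMap R K (y b)) ≠ 0 := (Valuation.ne_zero_iff v).2 hyb0
  have hprod : v (algebraMap R K (y b)) ^ (n + 1) * (v (Ψ θ) * v ζ) * v mJ ≠ 0 := by
    rw [h9]
    exact mul_ne_zero hv0 (zpow_ne_zero _ hY0')
  have hm1 : v mJ ≠ 0 := right_ne_zero_of_mul hprod
  have hq1 : v (Ψ θ) ≠ 0 := left_ne_zero_of_mul (right_ne_zero_of_mul (left_ne_zero_of_mul hprod))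
  have hz1 : v ζ ≠ 0 := right_ne_zero_of_mul (right_ne_zero_of_mul (left_ne_zero_of_mul hprod))
  have hX0 : X ≠ 0 := ne_of_gt (lt_trans zero_lt_one hX1)
  refine ⟨T, J, l₀, hx0, hT1, hT2, (Valuation.ne_zero_iff v).1 hm1, ?_, ?_, ?_⟩
  · change v (ζ ^ T.lam * algebraMap R K (y b)) = 1
    rw [map_mul, map_pow]
    exact hT5
  · change v (algebraMap R K (y b) / algebraMap R K (x l₀) ^ (P₀.totalDegree + 1)) ≤ 1
    rw [map_div₀, map_pow, ← hX]
    refine div_le_one_of_le₀ ?_ zero_le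
    have h1 : algebraMap R K (y b) = aeval (fun l => algebraMap R K (x l)) P₀ := by
      rw [← hP₀]
      exact comp_aeval_apply x (IsScalarTower.toAlgHom ℂ R K) P₀
    rw [h1]
    exact (val_aeval_le htriv _ X hX1.le hl₀ P₀).trans
      (pow_le_pow_right₀ hX1.le (Nat.le_succ _))
  · rw [map_mul, map_div₀, map_pow]
    change 1 ≤ w a / v ψ₀ ^ m₀ * v (mJ ^ m₀ *
      algebraMap R K (y b) ^ (((n : ℤ) + 1 - r * ((d : ℤ) - 1)) * m₀) * ζ ^ m₀ /
        algebraMap R K (x l₀) ^ e₀)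
    rw [map_div₀, map_mul, map_mul, map_pow, map_pow, map_pow, map_zpow₀, ← hX]
    set Yb := v (algebraMap R K (y b)) with hYb
    have h10 : v ψ₀ = v mJ * Yb ^ ((n : ℤ) + 1 - r * ((d : ℤ) - 1)) * (v (Ψ θ) * v ζ) := by
      have h11 : Yb ^ ((n : ℤ) + 1 - r * ((d : ℤ) - 1)) =
          Yb ^ (n + 1) / Yb ^ ((r : ℤ) * ((d : ℤ) - 1)) := by
        rw [zpow_sub₀ hY0']
        congr 1
        exact_mod_cast zpow_natCast Yb (n + 1)
      rw [h11]
      have h12 : v ψ₀ = Yb ^ (n + 1) * (v (Ψ θ) * v ζ) * v mJ / Yb ^ ((r : ℤ) * ((d : ℤ) - 1)) := by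
        rw [h9, mul_div_cancel_right₀ _ (zpow_ne_zero _ hY0')]
      rw [h12, mul_div_assoc', div_mul_eq_mul_div]
      congr 1
      ac_rfl
    have h13 : Yb ^ (((n : ℤ) + 1 - r * ((d : ℤ) - 1)) * m₀) =
        (Yb ^ ((n : ℤ) + 1 - r * ((d : ℤ) - 1))) ^ m₀ := by
      rw [zpow_mul, zpow_natCast]
    set Q := Yb ^ ((n : ℤ) + 1 - r * ((d : ℤ) - 1)) with hQ
    have hQ0 : Q ≠ 0 := zpow_ne_zero _ hY0'
    rw [h10, h13]
    have hgoal : w a / (v mJ * Q * (v (Ψ θ) * v ζ)) ^ m₀ * (v mJ ^ m₀ * Q ^ m₀ * v ζ ^ m₀ / X ^ e₀) =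
        w a / (X ^ e₀ * v (Ψ θ) ^ m₀) := by
      have h14 : (v mJ * Q * (v (Ψ θ) * v ζ)) ^ m₀ =
          v (Ψ θ) ^ m₀ * (v mJ ^ m₀ * Q ^ m₀ * v ζ ^ m₀) := by
        simp only [mul_pow]
        ac_rfl
      have h15 : v mJ ^ m₀ * Q ^ m₀ * v ζ ^ m₀ ≠ 0 :=
        mul_ne_zero (mul_ne_zero (pow_ne_zero _ hm1) (pow_ne_zero _ hQ0)) (pow_ne_zero _ hz1)
      have h16 : v (Ψ θ) ^ m₀ * (v mJ ^ m₀ * Q ^ m₀ * v ζ ^ m₀) * X ^ e₀ =
          X ^ e₀ * v (Ψ θ) ^ m₀ * (v mJ ^ m₀ * Q ^ m₀ * v ζ ^ m₀) := by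
        ac_rfl
      rw [h14, div_mul_div_comm, h16, mul_div_mul_right _ _ h15]
    rw [hgoal]
    exact (one_le_div₀ (zero_lt_iff.2
      (mul_ne_zero (pow_ne_zero _ hX0) (pow_ne_zero _ hq1)))).2 hnz

end Pool.Agent.Lib.MP_410da7_agA
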