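import Pool.Agent.Lib.MP_410da7_agA.SpecD
import Pool.Agent.Lib.MP_410da7_agA.DAux

/-!
# MP_410da7_ag, smooth affine varieties: auxiliary facts for D18
-/

set_option autoImplicit false

namespace Pool.Agent.Lib.MP_410da7_agA

open MvPolynomial KaehlerDifferential WithZero Module

namespace d18Aux

/-- The elements in all valuation rings which contain `L` are the algebraic elements. -/
lemma mem_all_iff {L Λ : Type} [Field L] [Field Λ] [Algebra L Λ] {z : Λ} :
    (∀ V : ValuationSubring Λ, (∀ c : L, algebraMap L Λ c ∈ V) → z ∈ V) ↔ IsAlgebraic L z := by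
  let s : Set Λ := Set.range (algebraMap L Λ)
  let f : L →+* Subring.closure s :=
    (algebraMap L Λ).codRestrict (Subring.closure s) (fun c => Subring.subset_closure ⟨c, rfl⟩)
  let _ : Algebra L (Subring.closure s) := f.toAlgebra
  have htower : IsScalarTower L (Subring.closure s) Λ :=
    IsScalarTower.of_algebraMap_eq (fun _ => rfl)
  have hcl : Subring.closure s = (algebraMap L Λ).range := by
    refine le_antisymm (Subring.closure_le.2 ?_) ?_
    · rintro _ ⟨c, rfl⟩
      exact ⟨c, rfl⟩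
    · rintro _ ⟨c, rfl⟩
      exact Subring.subset_closure ⟨c, rfl⟩
  have hint : Algebra.IsIntegral L (Subring.closure s) := by
    refine ⟨fun a => ?_⟩
    obtain ⟨c, hc⟩ := hcl.le a.2
    have : a = algebraMap L (Subring.closure s) c := Subtype.ext hc.symm
    rw [this]
    exact isIntegral_algebraMap
  have h1 : (∀ V : ValuationSubring Λ, (∀ c : L, algebraMap L Λ c ∈ V) → z ∈ V) ↔
      z ∈ (⨅ V : {V : ValuationSubring Λ // s ⊆ V.toSubring}, V.1.toSubring) := by
    rw [Subring.mem_iInf]
    constructor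
    · rintro h ⟨V, hV⟩
      exact h V fun c => hV ⟨c, rfl⟩
    · intro h V hV
      exact h ⟨V, by rintro _ ⟨c, rfl⟩; exact hV c⟩
  rw [h1, iInf_valuationSubring_superset, isAlgebraic_iff_isIntegral]
  constructor
  · intro h
    exact isIntegral_trans (A := Subring.closure s) z h
  · intro h
    exact IsIntegral.tower_top (R := L) (A := Subring.closure s) h

/-- Finiteness over a transcendental element. -/
lemma finite_of_transcendental {L Λ : Type} [Field L] [Field Λ] [Algebra L Λ]
    (htr : Algebra.trdeg L Λ = 1) (hfg : ∃ T : Set Λ, T.Finite ∧ IntermediateField.adjoin L T = ⊤)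
    {z : Λ} (hz : Transcendental L z) : FiniteDimensional (IntermediateField.adjoin L {z}) Λ := by
  obtain ⟨T, hT, hTtop⟩ := hfg
  have hess : Algebra.EssFiniteType L Λ := by
    rw [← IntermediateField.fg_top_iff]
    exact ⟨hT.toFinset, by rw [Set.Finite.coe_toFinset, hTtop]⟩
  have h1 : AlgebraicIndependent L (fun _ : Unit => z) :=
    algebraicIndependent_unique_type_iff.2 hz
  have h2 : IsTranscendenceBasis L (fun _ : Unit => z) :=
    h1.isTranscendenceBasis_of_trdeg_le_of_finite (by rw [htr]; simp)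
  have h3 := h2.isAlgebraic_field
  rw [Set.range_const] at h3
  have h4 : Algebra.EssFiniteType (IntermediateField.adjoin L {z}) Λ :=
    Algebra.EssFiniteType.of_comp L _ Λ
  exact Algebra.finite_of_essFiniteType_of_isAlgebraic

/-- Some coordinate is transcendental over `L`. -/
lemma exists_transcendental {K L Λ : Type} [Field K] [Algebra ℂ K] [Field L] [Field Λ]
    [Algebra ℂ L] [Algebra L Λ] [Algebra K Λ] [Algebra ℂ Λ] [IsScalarTower ℂ L Λ]
    [IsScalarTower ℂ K Λ] {N : ℕ} {x : Fin N → K}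
    (hx : IntermediateField.adjoin ℂ (Set.range x) = ⊤)
    (hgen : IntermediateField.adjoin L (Set.range (algebraMap K Λ)) = ⊤)
    (htr : Algebra.trdeg L Λ = 1) : ∃ l, Transcendental L (algebraMap K Λ (x l)) := by
  by_contra hcon
  push Not at hcon
  have hcon' : ∀ l, IsAlgebraic L (algebraMap K Λ (x l)) := fun l => by
    have := hcon l
    rwa [Transcendental, not_not] at this
  let E : IntermediateField L Λ := algebraicClosure L Λ
  let E' : IntermediateField ℂ Λ := E.restrictScalars ℂ
  let G : IntermediateField ℂ K := E'.comap (IsScalarTower.toAlgHom ℂ K Λ)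
  have hG : G = ⊤ := by
    rw [eq_top_iff, ← hx, IntermediateField.adjoin_le_iff]
    rintro _ ⟨l, rfl⟩
    exact mem_algebraicClosure_iff.2 (hcon' l)
  have hE : E = ⊤ := by
    rw [eq_top_iff, ← hgen, IntermediateField.adjoin_le_iff]
    rintro _ ⟨f, rfl⟩
    have hf : f ∈ G := by
      rw [hG]
      trivial
    exact hf
  have halg : Algebra.IsAlgebraic L Λ := by
    refine ⟨fun a => ?_⟩
    have ha : a ∈ E := by
      rw [hE]
      trivial
    exact mem_algebraicClosure_iff.1 ha
  rw [← trdeg_eq_zero_iff, htr] at halg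
  exact one_ne_zero halg

/-- An enumeration with prescribed end. -/
lemma exists_enum' {n r M : ℕ} (hM : M = n + r) (I : Fin r → Fin (M + 1))
    (hI : Function.Injective I) (h0 : ∀ l, I l ≠ 0) :
    ∃ e' : Fin (n + 1) ⊕ Fin r ≃ Fin (M + 1), e' (Sum.inl 0) = 0 ∧ e' ∘ Sum.inr = I := by
  classical
  have hcard : Fintype.card ↥(Set.range I)ᶜ = n + 1 := by
    rw [Fintype.card_compl_set, Set.card_range_of_injective hI, Fintype.card_fin, Fintype.card_fin]
    omega
  let τ : Fin (n + 1) ≃ ↥(Set.range I)ᶜ := (Fintype.equivFinOfCardEq hcard).symm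
  let z : ↥(Set.range I)ᶜ := ⟨0, by rintro ⟨l, hl⟩; exact h0 l hl⟩
  let τ' : Fin (n + 1) ≃ ↥(Set.range I)ᶜ := (Equiv.swap 0 (τ.symm z)).trans τ
  have hτ' : τ' 0 = z := by simp [τ']
  let e : Fin (n + 1) ⊕ Fin r ≃ Fin (M + 1) :=
    ((Equiv.sumComm _ _).trans (Equiv.sumCongr (Equiv.ofInjective I hI) τ')).trans
      (Equiv.Set.sumCompl _)
  refine ⟨e, ?_, ?_⟩
  · simp [e, hτ', z]
  · funext l
    simp [e]

/-- Homogenization modulo `X_0 - 1`. -/
lemma hom_congr {M : ℕ} (d e : ℕ) (P : MvPolynomial (Fin (M + 1)) ℂ) :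
    P - X 0 ^ d * hom 0 e P ∈ Ideal.span ({X 0 - 1} : Set (MvPolynomial (Fin (M + 1)) ℂ)) := by
  have h1 : Ideal.Quotient.mk (Ideal.span ({X 0 - 1} : Set (MvPolynomial (Fin (M + 1)) ℂ))) (X 0) =
      1 := by
    rw [← map_one (Ideal.Quotient.mk _), Ideal.Quotient.eq]
    exact Ideal.subset_span rfl
  rw [← Ideal.Quotient.eq, map_mul, map_pow, h1, one_pow, one_mul, hom, map_sum]
  conv_lhs => rw [P.as_sum, map_sum]
  refine Finset.sum_congr rfl fun m _ => ?_
  rw [map_mul, map_pow, h1, one_pow, mul_one]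

section map

variable {K L Λ : Type} [Field K] [Algebra ℂ K] [Field L] [Field Λ]
    [Algebra ℂ L] [Algebra L Λ] [Algebra K Λ] [Algebra ℂ Λ] [IsScalarTower ℂ L Λ]
    [IsScalarTower ℂ K Λ]

/-- Evaluations and base change. -/
lemma aeval_map_L {M : ℕ} (Y : Fin M → K) (G : MvPolynomial (Fin M) ℂ) :
    aeval (fun l => algebraMap K Λ (Y l)) (MvPolynomial.map (algebraMap ℂ L) G) =
      algebraMap K Λ (aeval Y G) := by
  rw [aeval_map_algebraMap]
  exact (comp_aeval_apply Y (IsScalarTower.toAlgHom ℂ K Λ) G).symm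

/-- Minors and base change. -/
lemma minor_map_L {M κ r : ℕ} (F : Fin κ → MvPolynomial (Fin (M + 1)) ℂ)
    (I : Fin r → Fin (M + 1)) (Y : Fin (M + 1) → K) (J : Fin r → Fin κ) :
    minor (fun j => MvPolynomial.map (algebraMap ℂ L) (F j)) I
      (fun l => algebraMap K Λ (Y l)) J = algebraMap K Λ (minor F I Y J) := by
  unfold minor
  rw [RingHom.map_det]
  congr 1
  ext i l
  rw [RingHom.mapMatrix_apply, Matrix.map_apply, Matrix.of_apply, Matrix.of_apply, jac, jac,
    pderiv_map, aeval_map_L]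

/-- Base change of the relation at infinity. -/
noncomputable def logMap {M κ r d : ℕ} {S : System ℂ M κ r d} {b : Fin (M + 1)}
    (T : LogPoly S.F b) (L : Type) [Field L] [Algebra ℂ L] : LogPoly (S.map L).F b where
  a := MvPolynomial.map (algebraMap ℂ L) T.a
  χ := MvPolynomial.map (algebraMap ℂ L) T.χ
  q := MvPolynomial.map (algebraMap ℂ L) T.q
  e := T.e
  e₁ := T.e₁
  e₂ := T.e₂
  N := T.N
  E := T.E
  lam := T.lam
  ha := T.ha.map _
  hχ := T.hχ.map _
  hq := T.hq.map _
  deg := T.deg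
  rel := by
    have h := Ideal.mem_map_of_mem (MvPolynomial.map (algebraMap ℂ L)) T.rel
    rw [Ideal.map_span, ← Set.range_comp] at h
    simp only [map_sub, map_mul, map_pow, MvPolynomial.map_X] at h
    exact h

end map

/-- `R` is contained in the valuation ring if the coordinates are. -/
lemma mem_of_coord {R K L Λ : Type} [CommRing R] [Algebra ℂ R] [Field K] [Algebra R K]
    [Algebra ℂ K] [IsScalarTower ℂ R K] [Field L] [Field Λ] [Algebra ℂ L] [Algebra L Λ]
    [Algebra K Λ] [Algebra ℂ Λ] [IsScalarTower ℂ L Λ] [IsScalarTower ℂ K Λ] {N : ℕ} {x : Fin N → R}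
    (hx : Algebra.adjoin ℂ (Set.range x) = ⊤) {V : ValuationSubring Λ}
    (hV : ∀ c : L, algebraMap L Λ c ∈ V) (h : ∀ l, algebraMap K Λ (algebraMap R K (x l)) ∈ V)
    (a : R) : algebraMap K Λ (algebraMap R K a) ∈ V := by
  have ha : a ∈ Algebra.adjoin ℂ (Set.range x) := by
    rw [hx]
    trivial
  induction ha using Algebra.adjoin_induction with
  | mem a ha =>
    obtain ⟨l, rfl⟩ := ha
    exact h l
  | algebraMap c =>
    rw [← IsScalarTower.algebraMap_apply ℂ R K, ← IsScalarTower.algebraMap_apply ℂ K Λ,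
      IsScalarTower.algebraMap_apply ℂ L Λ]
    exact hV _
  | add a b _ _ ha hb =>
    rw [map_add, map_add]
    exact V.add_mem _ _ ha hb
  | mul a b _ _ ha hb =>
    rw [map_mul, map_mul]
    exact V.mul_mem _ _ ha hb

end d18Aux

end Pool.Agent.Lib.MP_410da7_agA
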