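import Pool.Agent.Lib.MP_410da7_agA.SpecD
import Pool.Agent.Lib.MP_410da7_agA.D18Aux

/-!
# MP_410da7_ag, smooth affine varieties: D18

The certificate (the end of block D).
-/

set_option autoImplicit false

namespace Pool.Agent.Lib.MP_410da7_agA

open MvPolynomial KaehlerDifferential WithZero Module

open DAux d18Aux in
theorem d18 (_hd1 : D1Stmt) (hd2 : D2Stmt) (hd4 : D4Stmt) (hd5 : D5Stmt) (hd7 : D7Stmt)
    (hd9 : D9Stmt) (hd10 : D10Stmt) (hd16 : D16Stmt) (hd17 : D17Stmt) : D18Stmt := by
  intro R K _ _ _ _ _ _ _ _ _ n N m₀ e₀ Ψ x hx hsit L Λ _ _ _ _ _ _ _ _ a hN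
  have : CharZero L := charZero_of_injective_algebraMap (algebraMap ℂ L).injective
  obtain ⟨s, w, hw1, hwinf, hwall⟩ := hd2 L Λ hN.trdeg hN.fg N
    (fun l => algebraMap K Λ (algebraMap R K (x l)))
  obtain ⟨l₁, hl₁⟩ := exists_transcendental hsit.gen hN.gen hN.trdeg
  have hn1 : 1 ≤ n := by
    by_contra hn
    have hn0 : Algebra.trdeg ℂ K = 0 := by
      rw [hsit.trdeg]
      have : n = 0 := by omega
      rw [this, Nat.cast_zero]
    rw [trdeg_eq_zero_iff] at hn0
    exact hl₁ ((hn0.isAlgebraic (algebraMap R K (x l₁))).algebraMap.tower_top L)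
  have hncent : ∀ j, ¬ Cent (fun l => algebraMap R K (x l)) ((w j).comap (algebraMap K Λ)) := by
    intro j h
    obtain ⟨l, hl⟩ := hwinf j
    exact absurd (h l) (not_le.2 hl)
  obtain ⟨M, y, b, hy0, hyb, hxy, hchart⟩ := hd4 R K n N s x hx hn1 hsit.trdeg
    (fun j => (w j).comap (algebraMap K Λ)) (fun j => triv_comap (hw1 j)) (fun j => hwinf j)
    (fun j => hN.res (w j) (hw1 j) (hncent j))
  have hyK : IntermediateField.adjoin ℂ (Set.range fun l => algebraMap R K (y l)) = ⊤ := by
    rw [eq_top_iff, ← hsit.gen]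
    refine IntermediateField.adjoin.mono _ _ _ ?_
    rintro _ ⟨l, rfl⟩
    obtain ⟨l', hl'⟩ := hxy l
    exact ⟨l', congrArg _ hl'⟩
  have hY0 : (fun l => algebraMap R K (y l)) 0 = 1 := by
    show algebraMap R K (y 0) = 1
    rw [hy0, map_one]
  obtain ⟨κ, r, d, S, hM, heqs, hI, hI0, hg, hJ0⟩ := hd7 ℂ K n M (fun l => algebraMap R K (y l))
    hY0 hyK hsit.trdeg
  have hm : Model R K n x y b S := ⟨hy0, hyb, hxy, hM, heqs, hI, hI0, hg, hJ0⟩
  obtain ⟨e', he'0, he'I⟩ := exists_enum' hM S.I₀ hI hI0
  obtain ⟨E₀, hE₀, h17⟩ := hd17 R K n N M κ r d m₀ e₀ Ψ x y b S hx hsit hm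
  have hΨ0 := psi_ne hd9 hd10 hsit.trdeg hM Ψ hsit.Ψ0 heqs.hom heqs.zero hY0 hyK he'0
    (by rw [he'I]; exact hJ0)
  have hybK : algebraMap R K (y b) ≠ 0 := by
    intro h
    exact hyb ((map_eq_zero_iff _ (IsFractionRing.injective R K)).1 h)
  have hKΛ : ∀ f : K, f ≠ 0 → algebraMap K Λ f ≠ 0 := fun f hf h =>
    hf ((map_eq_zero_iff _ (algebraMap K Λ).injective).1 h)
  -- the places
  have hVx : ∀ V : ValuationSubring Λ, (∀ c : L, algebraMap L Λ c ∈ V) →
      algebraMap K Λ (algebraMap R K (y b)) ∈ V →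
      ∀ l, algebraMap K Λ (algebraMap R K (x l)) ∈ V := by
    intro V hV hyV
    by_contra hcon
    push Not at hcon
    obtain ⟨j, hj⟩ := hwall V hV hcon
    obtain ⟨l, hl⟩ := hcon
    rw [hj, not_le] at hl
    obtain ⟨l', hl'⟩ := hxy l
    have h2 : w j (algebraMap K Λ (algebraMap R K (y l'))) ≤
      w j (algebraMap K Λ (algebraMap R K (y b))) := (hchart j).max l'
    rw [hl'] at h2
    exact absurd ((hj _).1 hyV) (not_le.2 (lt_of_lt_of_le hl h2))
  have hVy : ∀ V : ValuationSubring Λ, (∀ c : L, algebraMap L Λ c ∈ V) →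
      algebraMap K Λ (algebraMap R K (y b)) ∉ V → ∃ j, ∀ f, f ∈ V ↔ w j f ≤ 1 := by
    intro V hV hyV
    refine hwall V hV ?_
    by_contra hcon
    push Not at hcon
    exact hyV (mem_of_coord hx hV hcon _)
  have htrans : Transcendental L (algebraMap K Λ (algebraMap R K (y b))) := by
    intro halg
    rw [← mem_all_iff] at halg
    apply hl₁
    rw [← mem_all_iff]
    intro V hV
    exact hVx V hV (halg V hV) l₁
  refine ⟨M, κ, r, d, E₀, S.map L, y, b,
    a / algebraMap K Λ (Ψ fun i => D ℂ K (algebraMap R K (y (e' (Sum.inl i.succ))))) ^ m₀,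
    ?_, adjoin_y hx hm, ?_⟩
  · constructor
    · exact hM
    · show algebraMap K Λ (algebraMap R K (y 0)) = 1
      rw [hy0, map_one, map_one]
    · intro j
      have h := aeval_map_L (L := L) (Λ := Λ) (fun l => algebraMap R K (y l)) (S.F j)
      rw [heqs.zero j, map_zero] at h
      exact h
    · have h := aeval_map_L (L := L) (Λ := Λ) (fun l => algebraMap R K (y l)) S.g
      intro h0
      exact hKΛ _ hg (h.symm.trans h0)
    · have h := minor_map_L (L := L) (Λ := Λ) S.F S.I₀ (fun l => algebraMap R K (y l)) S.J₀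
      intro h0
      exact hKΛ _ hJ0 (h.symm.trans h0)
    · exact htrans
    · exact finite_of_transcendental hN.trdeg hN.fg htrans
    · exact hN.m0
    · exact hN.e0
    · exact div_ne_zero hN.a0 (pow_ne_zero _ (hKΛ _ hΨ0))
    · intro V hV hyV l
      exact mem_of_coord hx hV (hVx V hV hyV) _
    · intro V hV hyV l
      obtain ⟨j, hj⟩ := hVy V hV hyV
      rw [hj, map_div₀]
      exact div_le_one_of_le₀ ((hchart j).max l) zero_le
    · intro V hV hyV
      obtain ⟨J, j1, j2⟩ := hd16 R K n N M κ r d m₀ e₀ Ψ x y b S hx hsit hm L Λ a hN e' he'0 he'I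
        V hV (hVx V hV hyV)
      have h := minor_map_L (L := L) (Λ := Λ) S.F S.I₀ (fun l => algebraMap R K (y l)) J
      refine ⟨J, fun h0 => hKΛ _ j1 (h.symm.trans h0), ?_⟩
      have h' : minor (S.map L).F (S.map L).I₀
          (fun l => algebraMap K Λ (algebraMap R K (y l))) J =
          algebraMap K Λ (minor S.F S.I₀ (fun l => algebraMap R K (y l)) J) := h
      rw [h']
      exact j2
    · intro V hV hyV
      obtain ⟨j, hj⟩ := hVy V hV hyV
      obtain ⟨T, J, l, t1, t2, t3, t4, t5, t6, t7⟩ := h17 L Λ a hN e' he'0 he'I (w j) (hw1 j)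
        (hwinf j) (hchart j)
      have h1 : minor (S.map L).F (S.map L).I₀
          (fun l => algebraMap K Λ (algebraMap R K (y l))) J =
          algebraMap K Λ (minor S.F S.I₀ (fun l => algebraMap R K (y l)) J) :=
        minor_map_L (L := L) (Λ := Λ) S.F S.I₀ (fun l => algebraMap R K (y l)) J
      have h2 : aeval (fun l => algebraMap K Λ (algebraMap R K (y l))) (logMap T L).χ =
          algebraMap K Λ (aeval (fun l => algebraMap R K (y l)) T.χ) :=
        aeval_map_L (L := L) (Λ := Λ) (fun l => algebraMap R K (y l)) T.χ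
      have h3 : aeval (fun l => algebraMap K Λ (algebraMap R K (y l))) (logMap T L).a =
          algebraMap K Λ (aeval (fun l => algebraMap R K (y l)) T.a) :=
        aeval_map_L (L := L) (Λ := Λ) (fun l => algebraMap R K (y l)) T.a
      have hχ0 : aeval (fun l => algebraMap R K (y l)) T.χ ≠ 0 := by
        intro h0
        rw [h0, zero_div, map_zero, map_zero] at t2
        exact zero_ne_one t2
      refine ⟨logMap T L, J, algebraMap K Λ (algebraMap R K (x l)), ?_, ?_, ?_, ?_, ?_, ?_, ?_, ?_⟩
      · apply hKΛ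
        intro h
        exact t1 ((map_eq_zero_iff _ (IsFractionRing.injective R K)).1 h)
      · rw [h2]
        exact hKΛ _ hχ0
      · rw [h3]
        exact hKΛ _ t3
      · rw [h1]
        exact hKΛ _ t4
      · rw [hj, h2, map_inv₀]
        have h4 : algebraMap K Λ (aeval (fun l => algebraMap R K (y l)) T.χ) /
            algebraMap K Λ (algebraMap R K (y b)) ^ (logMap T L).e₁ =
            algebraMap K Λ (aeval (fun l => algebraMap R K (y l)) T.χ /
              algebraMap R K (y b) ^ T.e₁) := by
          rw [map_div₀, map_pow]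
          rfl
        rw [h4, t2, inv_one]
      · have h4 : tau (S.map L) n m₀ e₀ (fun l => algebraMap K Λ (algebraMap R K (y l))) b
            (a / algebraMap K Λ
              (Ψ fun i => D ℂ K (algebraMap R K (y (e' (Sum.inl i.succ))))) ^ m₀)
            (logMap T L) J (algebraMap K Λ (algebraMap R K (x l))) =
            a / algebraMap K Λ
              (Ψ fun i => D ℂ K (algebraMap R K (y (e' (Sum.inl i.succ))))) ^ m₀ *
            algebraMap K Λ (minor S.F S.I₀ (fun l => algebraMap R K (y l)) J ^ m₀ *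
              algebraMap R K (y b) ^ (((n : ℤ) + 1 - r * ((d : ℤ) - 1)) * m₀) *
              (aeval (fun l => algebraMap R K (y l)) T.a / algebraMap R K (y b) ^ T.e) ^ m₀ /
              algebraMap R K (x l) ^ e₀) := by
          rw [tau, h1, h3]
          simp only [map_div₀, map_mul, map_pow, map_zpow₀]
          rw [mul_div_assoc']
          congr 1
          simp only [mul_assoc]
          rfl
        rw [hj, h4, map_inv₀]
        exact inv_le_one_of_one_le₀ t7
      · have h4 : (aeval (fun l => algebraMap K Λ (algebraMap R K (y l))) (logMap T L).a /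
            algebraMap K Λ (algebraMap R K (y b)) ^ (logMap T L).e) ^ (logMap T L).lam *
            algebraMap K Λ (algebraMap R K (y b)) =
            algebraMap K Λ ((aeval (fun l => algebraMap R K (y l)) T.a /
              algebraMap R K (y b) ^ T.e) ^ T.lam * algebraMap R K (y b)) := by
          rw [h3, map_mul, map_pow, map_div₀, map_pow]
          rfl
        rw [hj, h4, t5]
      · rw [hj]
        have h4 : algebraMap K Λ (algebraMap R K (y b)) /
            algebraMap K Λ (algebraMap R K (x l)) ^ E₀ =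
            algebraMap K Λ (algebraMap R K (y b) / algebraMap R K (x l) ^ E₀) := by
          rw [map_div₀, map_pow]
        rw [h4]
        exact t6
  · intro P hP
    have hPK : aeval (fun l => algebraMap R K (y l)) P = 0 := by
      have h := comp_aeval_apply y (IsScalarTower.toAlgHom ℂ R K) P
      rw [hP, map_zero] at h
      exact h.symm
    obtain ⟨g1, g2⟩ := hd5 ℂ K M 0 P.totalDegree P le_rfl
    have hY0' : algebraMap R K (y 0) = 1 := hY0
    have haff : aff (fun l => algebraMap R K (y l)) 0 = fun l => algebraMap R K (y l) := by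
      funext l
      rw [aff, hY0', div_one]
    have h0 := g2 (fun l => algebraMap R K (y l)) (by rw [hY0']; exact one_ne_zero)
    rw [haff, hPK, mul_zero] at h0
    have h1 := heqs.gen _ _ g1 h0 0
    have h2 := hom_congr d P.totalDegree P
    have h3 : P = (P - X 0 ^ d * hom 0 P.totalDegree P) + X 0 ^ d * hom 0 P.totalDegree P := by
      ring
    rw [h3, map_add]
    refine Ideal.add_mem _ ?_ ?_
    · have h4 := Ideal.mem_map_of_mem (MvPolynomial.map (algebraMap ℂ L)) h2
      rw [Ideal.map_span, Set.image_singleton, map_sub, MvPolynomial.map_X, map_one] at h4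
      exact Ideal.span_mono (Set.subset_union_right) h4
    · have h4 := Ideal.mem_map_of_mem (MvPolynomial.map (algebraMap ℂ L)) h1
      rw [Ideal.map_span, ← Set.range_comp] at h4
      exact Ideal.span_mono (Set.subset_union_left) h4

end Pool.Agent.Lib.MP_410da7_agA
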