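import Pool.Agent.Lib.MP_410da7_agA.SpecD
import Pool.Agent.Lib.MP_cc17a8_ag.PlacesDedekind

/-!
# MP_410da7_ag, smooth affine varieties (C46): D2, finitely many places at infinity
-/

set_option autoImplicit false

namespace Pool.Agent.Lib.MP_410da7_agA

namespace d2Aux

open IntermediateField algebraAdjoinAdjoin Polynomial IsDedekindDomain WithZero
open Pool.Agent.Lib.MP_cc17a8_ag

/-- The valuation ring of a place which dominates a prime of a Dedekind domain is the valuation ring
of the adic valuation. -/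
theorem adic {S F : Type} [CommRing S] [IsDedekindDomain S] [Field F] [Algebra S F]
    [IsFractionRing S F] (v : ValuationSubring F) (hv : v ≠ ⊤)
    (hS : ∀ s : S, algebraMap S F s ∈ v) :
    ∃ w : Valuation F ℤᵐ⁰, ∀ f, f ∈ v ↔ w f ≤ 1 := by
  obtain ⟨h1, h2⟩ := isLocalization_of_place v hv hS
  let _ : Algebra S v := (algOf v hS).toAlgebra
  let P : HeightOneSpectrum S := ⟨cen v hS, inferInstance, h1⟩
  have hone : ∀ s : S, s ∉ cen v hS → P.valuation F (algebraMap S F s) = 1 := fun s hs =>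
    (HeightOneSpectrum.valuation_eq_one_iff_notMem (v := P)).mpr hs
  -- elements of the valuation ring
  have hfr : ∀ x ∈ v, ∃ a s : S, s ∉ cen v hS ∧ x * algebraMap S F s = algebraMap S F a := by
    intro x hx
    obtain ⟨⟨a, s⟩, has⟩ := IsLocalization.surj (cen v hS).primeCompl (⟨x, hx⟩ : v)
    exact ⟨a, s, s.2, congrArg Subtype.val has⟩
  have hle : ∀ x ∈ v, P.valuation F x ≤ 1 := by
    intro x hx
    obtain ⟨a, s, hs, h⟩ := hfr x hx
    have h3 := congrArg (P.valuation F) h
    rw [map_mul, hone s hs, mul_one] at h3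
    rw [h3]
    exact P.valuation_le_one a
  refine ⟨P.valuation F, fun x => ⟨hle x, fun hx => ?_⟩⟩
  by_contra hxv
  have hx0 : x ≠ 0 := by
    rintro rfl
    exact hxv v.zero_mem
  have hxi : x⁻¹ ∈ v := (v.mem_or_inv_mem x).resolve_left hxv
  obtain ⟨a, s, hs, h⟩ := hfr _ hxi
  have ha : a ∈ cen v hS := by
    rw [mem_cen_iff]
    by_cases ha0 : a = 0
    · exact Or.inl ha0
    right
    intro hc
    apply hxv
    have ha00 : algebraMap S F a ≠ 0 := by
      rwa [Ne, IsFractionRing.to_map_eq_zero_iff]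
    have h4 : x = algebraMap S F s * (algebraMap S F a)⁻¹ := by
      rw [← h]
      have hs0 : algebraMap S F s ≠ 0 := by
        intro h0
        rw [h0, mul_zero] at h
        exact ha00 h.symm
      field_simp
    rw [h4]
    exact v.mul_mem _ _ (hS s) hc
  have h5 : P.valuation F (algebraMap S F a) < 1 :=
    (HeightOneSpectrum.valuation_lt_one_iff_mem P a).mpr ha
  rw [← h, map_mul, hone s hs, mul_one, map_inv₀] at h5
  have h6 : (P.valuation F x)⁻¹ * P.valuation F x = 1 :=
    inv_mul_cancel₀ ((_root_.map_ne_zero _).mpr hx0)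
  have h7 : (P.valuation F x)⁻¹ * P.valuation F x < 1 := mul_lt_one_of_lt_of_le h5 hx
  exact absurd h6 h7.ne

/-- Zeros of a transcendental element. -/
theorem zeros {k F : Type} [Field k] [Field F] [Algebra k F] [CharZero k]
    (hF : IsFunctionField k F) {f : F} (hf : Transcendental k f) :
    {v : ValuationSubring F | (∀ a : k, algebraMap k F a ∈ v) ∧ f ∈ v ∧ f⁻¹ ∉ v}.Finite ∧
    ∀ v ∈ {v : ValuationSubring F | (∀ a : k, algebraMap k F a ∈ v) ∧ f ∈ v ∧ f⁻¹ ∉ v},
      ∃ w : Valuation F ℤᵐ⁰, ∀ g, g ∈ v ↔ w g ≤ 1 := by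
  have hfd : FiniteDimensional k⟮f⟯ F := hF.finiteDimensional hf
  have hcz : CharZero k⟮f⟯ := charZero_of_injective_algebraMap (algebraMap k k⟮f⟯).injective
  let A := Algebra.adjoin k {f}
  let eA : k[X] ≃ₐ[k] A := Polynomial.algEquivOfTranscendental k f hf
  let f0 : A := ⟨f, Algebra.self_mem_adjoin_singleton k f⟩
  have hPID : IsPrincipalIdealRing A :=
    IsPrincipalIdealRing.of_surjective eA.toRingEquiv eA.surjective
  let S := integralClosure A F
  have hDed : IsDedekindDomain S := IsIntegralClosure.isDedekindDomain A k⟮f⟯ F S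
  have hfrac : IsFractionRing S F := IsIntegralClosure.isFractionRing_of_finite_extension A k⟮f⟯ F S
  have hf00 : f ≠ 0 := by
    rintro rfl
    exact hf isAlgebraic_zero
  let f1 : S := algebraMap A S f0
  have hf1 : algebraMap S F f1 = f := rfl
  have hf10 : f1 ≠ 0 := by
    intro h
    apply hf00
    rw [← hf1, h, map_zero]
  have hS : ∀ v ∈ {v : ValuationSubring F | (∀ a : k, algebraMap k F a ∈ v) ∧ f ∈ v ∧ f⁻¹ ∉ v},
      ∀ s : S, algebraMap S F s ∈ v := by
    rintro v ⟨h1, h2, h3⟩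
    have hA : ∀ a : A, (a : F) ∈ v := by
      intro a
      let vs : Subalgebra k F := { v.toSubring with algebraMap_mem' := h1 }
      have : Algebra.adjoin k {f} ≤ vs := by
        rw [Algebra.adjoin_le_iff, Set.singleton_subset_iff]
        exact h2
      exact this a.2
    intro s
    have hs : IsIntegral A (s : F) := s.2
    let _ : Algebra A v := (RingHom.codRestrict (algebraMap A F) v.toSubring hA).toAlgebra
    have : IsScalarTower A v F := IsScalarTower.of_algebraMap_eq fun _ => rfl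
    have hs' : IsIntegral v (s : F) := hs.tower_top
    obtain ⟨y, hy⟩ := IsIntegrallyClosed.isIntegral_iff.mp hs'
    have : algebraMap S F s = (y : F) := hy.symm
    rw [this]; exact y.2
  have htop : ∀ v ∈ {v : ValuationSubring F | (∀ a : k, algebraMap k F a ∈ v) ∧ f ∈ v ∧ f⁻¹ ∉ v},
      v ≠ ⊤ := by
    rintro v ⟨-, -, h3⟩ rfl
    exact h3 (ValuationSubring.mem_top _)
  refine ⟨?_, fun v hv => adic v (htop v hv) (hS v hv)⟩
  -- finiteness
  have hfin : {P : HeightOneSpectrum S | P.asIdeal ∣ Ideal.span {f1}}.Finite :=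
    Ideal.finite_factors (by
      rw [Ne, Ideal.zero_eq_bot, Ideal.span_singleton_eq_bot]
      exact hf10)
  have hfin' : ((fun P : HeightOneSpectrum S => P.asIdeal) ''
      {P : HeightOneSpectrum S | P.asIdeal ∣ Ideal.span {f1}}).Finite := hfin.image _
  rw [← Set.finite_coe_iff] at hfin' ⊢
  refine Finite.of_injective (β := ((fun P : HeightOneSpectrum S => P.asIdeal) ''
      {P : HeightOneSpectrum S | P.asIdeal ∣ Ideal.span {f1}} : Set (Ideal S)))
    (fun v => ⟨cen v.1 (hS v.1 v.2),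
      ⟨⟨cen v.1 (hS v.1 v.2), inferInstance, (isLocalization_of_place v.1 (htop v.1 v.2)
        (hS v.1 v.2)).1⟩, ?_, rfl⟩⟩) ?_
  · change cen v.1 (hS v.1 v.2) ∣ Ideal.span {f1}
    rw [Ideal.dvd_span_singleton, mem_cen_iff]
    exact Or.inr v.2.2.2
  · intro v w hvw
    have h := congrArg Subtype.val hvw
    apply Subtype.ext
    exact le_antisymm (cen_injective (htop _ v.2) (hS _ v.2) (hS _ w.2) h)
      (cen_injective (htop _ w.2) (hS _ w.2) (hS _ v.2) h.symm)

/-- A valuation ring containing `k` contains the elements which are algebraic over `k`. -/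
theorem transc {k F : Type} [Field k] [Field F] [Algebra k F] {v : ValuationSubring F}
    (hv : ∀ a : k, algebraMap k F a ∈ v) {x : F} (hx : x ∉ v) : Transcendental k x := by
  intro h
  apply hx
  have h1 : IsIntegral k x := h.isIntegral
  let _ : Algebra k v := (RingHom.codRestrict (algebraMap k F) v.toSubring hv).toAlgebra
  have : IsScalarTower k v F := IsScalarTower.of_algebraMap_eq fun _ => rfl
  have h2 : IsIntegral v x := h1.tower_top
  obtain ⟨y, hy⟩ := IsIntegrallyClosed.isIntegral_iff.mp h2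
  rw [← hy]
  exact y.2

end d2Aux

open d2Aux WithZero in
theorem d2 : D2Stmt := by
  intro L Λ _ _ _ _ htr hfg N x
  have hF : Pool.Agent.Lib.MP_cc17a8_ag.IsFunctionField L Λ := by
    obtain ⟨T, hT, hadj⟩ := hfg
    refine ⟨htr, IntermediateField.fg_top_iff.mp ?_⟩
    refine ⟨hT.toFinset, ?_⟩
    rw [Set.Finite.coe_toFinset]
    exact hadj
  -- the places at infinity
  let P : Set (ValuationSubring Λ) := {V | (∀ c : L, algebraMap L Λ c ∈ V) ∧ ∃ l, x l ∉ V}
  have hsub : ∀ V ∈ P, ∃ l, Transcendental L (x l)⁻¹ ∧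
      V ∈ {v : ValuationSubring Λ | (∀ a : L, algebraMap L Λ a ∈ v) ∧ (x l)⁻¹ ∈ v ∧
        ((x l)⁻¹)⁻¹ ∉ v} := by
    rintro V ⟨hV, l, hl⟩
    have h1 : Transcendental L (x l) := transc hV hl
    refine ⟨l, ?_, hV, (V.mem_or_inv_mem (x l)).resolve_left hl, by rwa [inv_inv]⟩
    intro h
    apply h1
    have := h.inv
    rwa [inv_inv] at this
  have hfin : P.Finite := by
    classical
    refine Set.Finite.subset (Set.finite_iUnion (ι := {l : Fin N // Transcendental L (x l)⁻¹})
      (fun l => (zeros hF l.2).1)) ?_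
    intro V hV
    obtain ⟨l, h1, h2⟩ := hsub V hV
    exact Set.mem_iUnion.mpr ⟨⟨l, h1⟩, h2⟩
  have hw : ∀ V : P, ∃ w : Valuation Λ ℤᵐ⁰, ∀ g, g ∈ V.1 ↔ w g ≤ 1 := by
    intro V
    obtain ⟨l, h1, h2⟩ := hsub V.1 V.2
    exact (zeros hF h1).2 V.1 h2
  choose w hw using hw
  have : Finite P := hfin
  obtain ⟨s, ⟨e⟩⟩ := Finite.exists_equiv_fin P
  refine ⟨s, fun j => w (e.symm j), ?_, ?_, ?_⟩
  · intro j c hc
    have h1 := (hw (e.symm j) _).mp ((e.symm j).2.1 c)
    have h2 := (hw (e.symm j) _).mp ((e.symm j).2.1 c⁻¹)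
    rw [map_inv₀, map_inv₀] at h2
    have h0 : w (e.symm j) (algebraMap L Λ c) ≠ 0 := by
      rw [Ne, map_eq_zero, map_eq_zero]
      exact hc
    refine le_antisymm h1 ?_
    rwa [inv_le_one₀ (zero_lt_iff.mpr h0)] at h2
  · intro j
    obtain ⟨l, hl⟩ := (e.symm j).2.2
    refine ⟨l, ?_⟩
    rw [hw] at hl
    exact not_le.mp hl
  · intro V hV hl
    refine ⟨e ⟨V, hV, hl⟩, ?_⟩
    intro f
    rw [← hw, Equiv.symm_apply_apply]

end Pool.Agent.Lib.MP_410da7_agA
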