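import Pool.Agent.Lib.MP_410da7_agA.SpecD
import Pool.Agent.Lib.MP_410da7_agA.D1

/-!
# MP_410da7_ag, C46, module D3

The valuation ring of a divisor is essentially of finite type.
-/

set_option autoImplicit false

namespace Pool.Agent.Lib.MP_410da7_agA

open MvPolynomial WithZero IntermediateField algebraAdjoinAdjoin
open Pool.Agent.Lib.MP_cc17a8_ag (IsFunctionField isLocalization_of_place cen mem_cen_iff algOf)

namespace d3Aux

theorem trdeg_adjoin {k K : Type} [Field k] [Field K] [Algebra k K] {m : ℕ} (t : Fin m → K)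
    (ht : AlgebraicIndependent k t) :
    Algebra.trdeg k (IntermediateField.adjoin k (Set.range t)) = m := by
  have h1 : Algebra.trdeg k (Algebra.adjoin k (Set.range t)) = m := by
    rw [← ht.aevalEquiv.trdeg_eq]; simp
  have h2 : Algebra.IsAlgebraic (Algebra.adjoin k (Set.range t))
      (IntermediateField.adjoin k (Set.range t)) := inferInstance
  have h3 := _root_.trdeg_add_eq k (Algebra.adjoin k (Set.range t))
    (A := IntermediateField.adjoin k (Set.range t))
  rw [h1, _root_.trdeg_eq_zero, add_zero] at h3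
  exact h3.symm

theorem isAlgebraic_inv_iff {k F : Type} [Field k] [Field F] [Algebra k F] {f : F}
    (hf : Transcendental k f) : Transcendental k f⁻¹ := by
  intro hal
  apply hf
  simpa using hal.inv

/-- Every element of the valuation ring is a quotient of elements of the ring generated by finitely
many elements. -/
theorem gens {k F : Type} [Field k] [Field F] [Algebra k F] [CharZero k] (hF : IsFunctionField k F)
    (V : ValuationSubring F) (hk : ∀ c : k, algebraMap k F c ∈ V) (hV : V ≠ ⊤) (f : F)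
    (htr : Transcendental k f) (hfv : f ∈ V) :
    ∃ (p : ℕ) (c : Fin p → F), (∀ i, c i ∈ V) ∧ ∀ W : Subalgebra k F, f ∈ W → (∀ i, c i ∈ W) →
      ∀ g ∈ V, ∃ o ∈ W, ∃ h ∈ W, h ≠ 0 ∧ h ∈ V ∧ h⁻¹ ∈ V ∧ g * h = o := by
  have hfd : FiniteDimensional k⟮f⟯ F := hF.finiteDimensional htr
  have hcz : CharZero k⟮f⟯ := charZero_of_injective_algebraMap (algebraMap k k⟮f⟯).injective
  let A := Algebra.adjoin k {f}
  let eA : Polynomial k ≃ₐ[k] A := Polynomial.algEquivOfTranscendental k f htr
  have hPID : IsPrincipalIdealRing A :=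
    IsPrincipalIdealRing.of_surjective eA.toRingEquiv eA.surjective
  let S := integralClosure A F
  have hDed : IsDedekindDomain S := IsIntegralClosure.isDedekindDomain A k⟮f⟯ F S
  have hfrac : IsFractionRing S F := IsIntegralClosure.isFractionRing_of_finite_extension A k⟮f⟯ F S
  have hfin : Module.Finite A S := IsIntegralClosure.finite A k⟮f⟯ F S
  have hA : ∀ a : A, (a : F) ∈ V := by
    intro a
    let vs : Subalgebra k F := { V.toSubring with algebraMap_mem' := hk }
    have : Algebra.adjoin k {f} ≤ vs := by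
      rw [Algebra.adjoin_le_iff, Set.singleton_subset_iff]
      exact hfv
    exact this a.2
  have hS : ∀ s : S, algebraMap S F s ∈ V := by
    intro s
    exact d1Aux.mem_of_isIntegral V hA s s.2
  obtain ⟨p, c, hc⟩ := Module.Finite.exists_fin (R := A) (M := S)
  refine ⟨p, fun i => (c i : F), fun i => hS (c i), ?_⟩
  intro W hfW hcW g hg
  have hWA : ∀ a : A, (a : F) ∈ W := by
    intro a
    have : Algebra.adjoin k {f} ≤ W := by
      rw [Algebra.adjoin_le_iff, Set.singleton_subset_iff]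
      exact hfW
    exact this a.2
  have hWS : ∀ s : S, (s : F) ∈ W := by
    intro s
    have hs : s ∈ Submodule.span A (Set.range c) := by rw [hc]; exact Submodule.mem_top
    induction hs using Submodule.span_induction with
    | mem x hx =>
      obtain ⟨i, rfl⟩ := hx
      exact hcW i
    | zero => exact W.zero_mem
    | add x y _ _ hx hy => exact W.add_mem hx hy
    | smul b x _ hx => exact W.mul_mem (hWA b) hx
  obtain ⟨h1, h2⟩ := isLocalization_of_place (S := S) V hV hS
  let _ : Algebra S V := (algOf V hS).toAlgebra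
  obtain ⟨⟨o, h⟩, hoh⟩ := IsLocalization.surj (cen V hS).primeCompl (⟨g, hg⟩ : V)
  have h3 : g * ((h : S) : F) = (o : F) := congrArg Subtype.val hoh
  have hh : (h : S) ∉ cen V hS := h.2
  rw [mem_cen_iff] at hh
  push Not at hh
  have hh0 : ((h : S) : F) ≠ 0 := by
    intro h0
    apply hh.1
    exact Subtype.ext h0
  exact ⟨_, hWS o, _, hWS h, hh0, hS h, hh.2, h3⟩

variable {K : Type} [Field K] [Algebra ℂ K]

/-- The quotients of polynomials in the `a i` with denominator a unit. -/
noncomputable def loc (v : Valuation K ℤᵐ⁰) {k : ℕ} (a : Fin k → K) : Subalgebra ℂ K where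
  carrier := {g | ∃ P Q : MvPolynomial (Fin k) ℂ, v (aeval a Q) = 1 ∧ g * aeval a Q = aeval a P}
  mul_mem' := by
    rintro g g' ⟨P, Q, h1, h2⟩ ⟨P', Q', h1', h2'⟩
    refine ⟨P * P', Q * Q', ?_, ?_⟩
    · rw [map_mul, map_mul, h1, h1', one_mul]
    · rw [map_mul, map_mul, ← h2, ← h2']; ring
  add_mem' := by
    rintro g g' ⟨P, Q, h1, h2⟩ ⟨P', Q', h1', h2'⟩
    refine ⟨P * Q' + P' * Q, Q * Q', ?_, ?_⟩
    · rw [map_mul, map_mul, h1, h1', one_mul]
    · rw [map_mul, map_add, map_mul, map_mul, ← h2, ← h2']; ring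
  algebraMap_mem' := by
    intro c
    refine ⟨C c, 1, ?_, ?_⟩
    · rw [map_one, map_one]
    · rw [map_one, mul_one, aeval_C]

theorem mem_loc (v : Valuation K ℤᵐ⁰) {k : ℕ} (a : Fin k → K) (i : Fin k) : a i ∈ loc v a :=
  ⟨X i, 1, by rw [map_one, map_one], by rw [map_one, mul_one, aeval_X]⟩

theorem algInd (v : Valuation K ℤᵐ⁰) {m : ℕ} (t : Fin m → K) (ht : ResIndep v t) :
    AlgebraicIndependent ℂ t := by
  rw [algebraicIndependent_iff]
  intro p hp
  by_contra h
  have := ht p h
  rw [hp, map_zero] at this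
  exact zero_ne_one this

theorem rep {m : ℕ} (t : Fin m → K) (g : K) (hg : g ∈ IntermediateField.adjoin ℂ (Set.range t)) :
    ∃ r q : MvPolynomial (Fin m) ℂ, q ≠ 0 ∧ g * aeval t q = aeval t r := by
  rw [IntermediateField.mem_adjoin_range_iff] at hg
  obtain ⟨r, q, h⟩ := hg
  by_cases hq : aeval t q = 0
  · refine ⟨0, 1, one_ne_zero, ?_⟩
    rw [h, hq, div_zero, zero_mul, map_zero]
  · refine ⟨r, q, fun h0 => hq (by rw [h0, map_zero]), ?_⟩
    rw [h, div_mul_cancel₀ _ hq]

theorem val_le (v : Valuation K ℤᵐ⁰) {m : ℕ} (t : Fin m → K) (ht : ResIndep v t) (g : K)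
    (hg : g ∈ IntermediateField.adjoin ℂ (Set.range t)) : v g ≤ 1 := by
  obtain ⟨r, q, hq, h⟩ := rep t g hg
  have h1 := congrArg v h
  rw [map_mul, ht q hq, mul_one] at h1
  rw [h1]
  by_cases hr : r = 0
  · rw [hr, map_zero, map_zero]; exact zero_le_one
  · exact (ht r hr).le

theorem card_aux {c : Cardinal} {m n : ℕ} (h2 : (m : Cardinal) + c = n) (hn : m + 1 = n) :
    c = 1 := by
  have h3 : c < Cardinal.aleph0 := by
    have : c ≤ (n : Cardinal) := by rw [← h2]; exact self_le_add_left _ _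
    exact this.trans_lt Cardinal.natCast_lt_aleph0
  obtain ⟨j, rfl⟩ := Cardinal.lt_aleph0.mp h3
  have : m + j = n := by exact_mod_cast h2
  have : j = 1 := by omega
  rw [this]; simp

/-- `K` is a function field of one variable over `ℂ(t)`. -/
theorem ff (n N : ℕ) (x : Fin N → K) (hx : IntermediateField.adjoin ℂ (Set.range x) = ⊤)
    (hn : 1 ≤ n) (htrdeg : Algebra.trdeg ℂ K = n) (t : Fin (n - 1) → K)
    (hind : AlgebraicIndependent ℂ t) :
    IsFunctionField (IntermediateField.adjoin ℂ (Set.range t)) K := by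
  refine ⟨?_, ?_⟩
  · have h1 := trdeg_adjoin t hind
    have h2 := _root_.trdeg_add_eq ℂ (IntermediateField.adjoin ℂ (Set.range t)) (A := K)
    rw [h1, htrdeg] at h2
    exact card_aux h2 (by omega)
  · have h0 : Algebra.EssFiniteType ℂ K := by
      rw [← IntermediateField.fg_top_iff]
      exact ⟨(Set.finite_range x).toFinset, by simpa using hx⟩
    exact Algebra.EssFiniteType.of_comp ℂ (IntermediateField.adjoin ℂ (Set.range t)) K

theorem exists_tr {k F : Type} [Field k] [Field F] [Algebra k F] (hF : IsFunctionField k F)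
    (v : Valuation F ℤᵐ⁰) : ∃ s : F, Transcendental k s ∧ v s ≤ 1 := by
  have h1 : Algebra.Transcendental k F := by
    rw [← _root_.trdeg_ne_zero_iff, hF.trdeg_eq]; exact one_ne_zero
  obtain ⟨z, hz⟩ := h1.transcendental
  rcases le_total (v z) 1 with h | h
  · exact ⟨z, hz, h⟩
  · refine ⟨z⁻¹, isAlgebraic_inv_iff hz, ?_⟩
    rw [map_inv₀]; exact inv_le_one_of_one_le₀ h

omit [Algebra ℂ K] in
theorem inv_le {v : Valuation K ℤᵐ⁰} {f : K} (hf : f ≠ 0) (h : v f⁻¹ ≤ 1) : 1 ≤ v f := by
  rw [map_inv₀] at h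
  exact (inv_le_one₀ (zero_lt_iff.mpr ((Valuation.ne_zero_iff _).mpr hf))).mp h

omit [Algebra ℂ K] in
theorem ne_top {v : Valuation K ℤᵐ⁰} (hnt : ∃ f : K, f ≠ 0 ∧ v f ≠ 1) :
    v.valuationSubring ≠ ⊤ := by
  intro h
  obtain ⟨f, hf0, hf⟩ := hnt
  have h1 : ∀ g : K, v g ≤ 1 := fun g => by
    have : g ∈ v.valuationSubring := by rw [h]; exact ValuationSubring.mem_top _
    exact this
  exact hf (le_antisymm (h1 f) (inv_le hf0 (h1 f⁻¹)))

theorem main (n N : ℕ) (x : Fin N → K) (hx : IntermediateField.adjoin ℂ (Set.range x) = ⊤)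
    (hn : 1 ≤ n) (htrdeg : Algebra.trdeg ℂ K = n) (v : Valuation K ℤᵐ⁰)
    (hnt : ∃ f : K, f ≠ 0 ∧ v f ≠ 1) (t : Fin (n - 1) → K) (ht : ResIndep v t) :
    ∃ (k : ℕ) (a : Fin k → K), (∀ i, v (a i) ≤ 1) ∧ ∀ f : K, v f ≤ 1 →
      ∃ P Q : MvPolynomial (Fin k) ℂ, v (aeval a Q) = 1 ∧ f * aeval a Q = aeval a P := by
  have hind := algInd v t ht
  have hFF := ff n N x hx hn htrdeg t hind
  have hcz : CharZero (IntermediateField.adjoin ℂ (Set.range t)) :=
    charZero_of_injective_algebraMap
      (algebraMap ℂ (IntermediateField.adjoin ℂ (Set.range t))).injective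
  obtain ⟨s, hs, hvs⟩ := exists_tr hFF v
  obtain ⟨p, c, hcV, hc⟩ := gens hFF v.valuationSubring (fun g => val_le v t ht _ g.2) (ne_top hnt)
    s hs hvs
  let a : Fin ((n - 1) + (1 + p)) → K := Fin.append t (Fin.append (fun _ => s) c)
  have hat : ∀ i, a (Fin.castAdd _ i) = t i := fun i => by simp [a]
  have has : a (Fin.natAdd _ (Fin.castAdd _ 0)) = s := by simp [a]
  have hac : ∀ i, a (Fin.natAdd _ (Fin.natAdd _ i)) = c i := fun i => by simp [a]
  have ha : ∀ i, v (a i) ≤ 1 := by
    intro i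
    refine Fin.addCases (fun i => ?_) (fun i => ?_) i
    · rw [hat]
      have := ht (X i) (X_ne_zero i)
      rw [aeval_X] at this
      exact this.le
    · refine Fin.addCases (fun i => ?_) (fun i => ?_) i
      · have : i = 0 := Subsingleton.elim _ _
        rw [this, has]; exact hvs
      · rw [hac]; exact hcV i
  refine ⟨_, a, ha, ?_⟩
  have hlF : ∀ g : K, g ∈ IntermediateField.adjoin ℂ (Set.range t) → g ∈ loc v a := by
    intro g hg
    obtain ⟨r, q, hq, h⟩ := rep t g hg
    have hren : ∀ r : MvPolynomial (Fin (n - 1)) ℂ,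
        aeval a (rename (Fin.castAdd (1 + p)) r) = aeval t r := by
      intro r
      rw [aeval_rename]
      congr 2
      funext i
      exact hat i
    refine ⟨rename (Fin.castAdd (1 + p)) r, rename (Fin.castAdd (1 + p)) q, ?_, ?_⟩
    · rw [hren]; exact ht q hq
    · rw [hren, hren]; exact h
  let W : Subalgebra (IntermediateField.adjoin ℂ (Set.range t)) K :=
    { (loc v a).toSubsemiring with algebraMap_mem' := fun c => hlF _ c.2 }
  intro f hf
  have hsW : s ∈ loc v a := by
    have := mem_loc v a (Fin.natAdd _ (Fin.castAdd _ 0))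
    rw [has] at this
    exact this
  obtain ⟨o, ⟨P', Q', hQ', hPQ'⟩, h, ⟨P, Q, hQ, hPQ⟩, h0, h1, h2, h3⟩ := hc W hsW (fun i => by
    have := mem_loc v a (Fin.natAdd _ (Fin.natAdd _ i))
    rw [hac] at this
    exact this) f hf
  have hvh : v h = 1 := le_antisymm h1 (inv_le h0 h2)
  refine ⟨P' * Q, P * Q', ?_, ?_⟩
  · rw [map_mul, map_mul, hQ', mul_one, ← hPQ, map_mul, hvh, hQ, one_mul]
  · rw [map_mul, map_mul, ← hPQ, ← hPQ', ← h3]; ring

end d3Aux

theorem d3 : D3Stmt := by
  intro K _ _ n N x hx hn htr v hv hnt t ht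
  exact d3Aux.main n N x hx hn htr v hnt t ht

end Pool.Agent.Lib.MP_410da7_agA
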