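import Pool.Agent.Lib.MP_410da7_agA.SpecD

/-! # MP_410da7_ag, C46, block D, module D4: the coordinates of the projective model (helper51) -/

set_option autoImplicit false

namespace Pool.Agent.Lib.MP_410da7_agA

namespace d4Aux

open MvPolynomial WithZero

variable {K : Type} [Field K] [Algebra ℂ K]

/-- The property `Chart` for families indexed by an arbitrary type. -/
structure Ch {ι : Type} (g : ι → K) (i₀ : ι) (v : Valuation K ℤᵐ⁰) : Prop where
  ne : g i₀ ≠ 0
  max : ∀ i, v (g i) ≤ v (g i₀)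
  loc : ∀ f : K, v f ≤ 1 → ∃ P Q : MvPolynomial ι ℂ,
    v (aeval (fun i => g i / g i₀) Q) = 1 ∧
    f * aeval (fun i => g i / g i₀) Q = aeval (fun i => g i / g i₀) P

/-- A larger family. -/
theorem Ch.ext {ι ι' : Type} {g : ι → K} {i₀ : ι} {v : Valuation K ℤᵐ⁰} (h : Ch g i₀ v)
    (g' : ι' → K) (σ : ι → ι') (u : K) (hu : u ≠ 0) (hσ : ∀ i, g' (σ i) = g i * u)
    (hmax : ∀ i, v (g' i) ≤ v (g' (σ i₀))) : Ch g' (σ i₀) v := by
  have hne : g' (σ i₀) ≠ 0 := by
    rw [hσ]
    exact mul_ne_zero h.ne hu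
  have hev : ∀ P : MvPolynomial ι ℂ, aeval (fun i => g' i / g' (σ i₀)) (rename σ P) =
      aeval (fun i => g i / g i₀) P := by
    intro P
    rw [aeval_rename]
    congr 2
    funext i
    rw [Function.comp_apply, hσ, hσ, mul_div_mul_right _ _ hu]
  refine ⟨hne, hmax, fun f hf => ?_⟩
  obtain ⟨P, Q, hQ, hP⟩ := h.loc f hf
  exact ⟨rename σ P, rename σ Q, by rw [hev]; exact hQ, by rw [hev, hev]; exact hP⟩

/-- Change of the denominator: transformation of polynomials. -/
theorem change_den {ι : Type} (g : ι → K) (i₀ i₁ : ι) (h0 : g i₀ ≠ 0) (h1 : g i₁ ≠ 0)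
    (P : MvPolynomial ι ℂ) : ∃ e₀ : ℕ, ∀ e, e₀ ≤ e → ∃ P' : MvPolynomial ι ℂ,
      aeval (fun i => g i / g i₁) P' = (g i₀ / g i₁) ^ e * aeval (fun i => g i / g i₀) P := by
  induction P using MvPolynomial.induction_on with
  | C a =>
    refine ⟨0, fun e _ => ⟨C a * X i₀ ^ e, ?_⟩⟩
    rw [map_mul, map_pow, aeval_X, aeval_C, aeval_C, mul_comm]
  | add p q hp hq =>
    obtain ⟨e1, h1'⟩ := hp
    obtain ⟨e2, h2'⟩ := hq
    refine ⟨Nat.max e1 e2, fun e he => ?_⟩
    obtain ⟨P1, hP1⟩ := h1' e (le_trans (le_max_left _ _) he)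
    obtain ⟨P2, hP2⟩ := h2' e (le_trans (le_max_right _ _) he)
    exact ⟨P1 + P2, by rw [map_add, map_add, hP1, hP2, mul_add]⟩
  | mul_X p i hp =>
    obtain ⟨e1, h1'⟩ := hp
    refine ⟨e1 + 1, fun e he => ?_⟩
    obtain ⟨e', rfl⟩ : ∃ e', e = e' + 1 := ⟨e - 1, by omega⟩
    obtain ⟨P1, hP1⟩ := h1' e' (by omega)
    refine ⟨P1 * X i, ?_⟩
    rw [map_mul, map_mul, hP1, aeval_X, aeval_X, pow_succ]
    have : g i / g i₁ = (g i₀ / g i₁) * (g i / g i₀) := by
      field_simp
    rw [this]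
    ring

theorem Ch.change {ι : Type} {g : ι → K} {i₀ : ι} {v : Valuation K ℤᵐ⁰} (h : Ch g i₀ v)
    (i₁ : ι) (h1 : v (g i₁) = v (g i₀)) : Ch g i₁ v := by
  have hv0 : v (g i₀) ≠ 0 := (Valuation.ne_zero_iff v).mpr h.ne
  have hne : g i₁ ≠ 0 := (Valuation.ne_zero_iff v).mp (by rw [h1]; exact hv0)
  refine ⟨hne, fun i => by rw [h1]; exact h.max i, fun f hf => ?_⟩
  obtain ⟨P, Q, hQ, hP⟩ := h.loc f hf
  obtain ⟨e1, he1⟩ := change_den g i₀ i₁ h.ne hne P
  obtain ⟨e2, he2⟩ := change_den g i₀ i₁ h.ne hne Q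
  obtain ⟨P', hP'⟩ := he1 (Nat.max e1 e2) (le_max_left _ _)
  obtain ⟨Q', hQ'⟩ := he2 (Nat.max e1 e2) (le_max_right _ _)
  refine ⟨P', Q', ?_, ?_⟩
  · rw [hQ', map_mul, map_pow, map_div₀, h1, div_self hv0, one_pow, one_mul, hQ]
  · rw [hQ', hP', ← hP]
    ring

omit [Algebra ℂ K] in
/-- The maximal value in a finite family. -/
theorem exists_max {ι : Type} [Fintype ι] (g : ι → K) (v : Valuation K ℤᵐ⁰) (i₁ : ι)
    (h1 : g i₁ ≠ 0) : ∃ i₀, g i₀ ≠ 0 ∧ ∀ i, v (g i) ≤ v (g i₀) := by
  classical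
  obtain ⟨i₀, -, hi⟩ := Finset.exists_max_image Finset.univ (fun i => v (g i)) ⟨i₁, Finset.mem_univ _⟩
  refine ⟨i₀, ?_, fun i => hi i (Finset.mem_univ _)⟩
  intro h0
  have h2 := hi i₁ (Finset.mem_univ _)
  rw [h0, map_zero] at h2
  exact h1 ((Valuation.zero_iff v).mp (le_antisymm h2 zero_le))

/-- Some power exceeds. -/
theorem exists_pow_ge (a b : ℤᵐ⁰) (ha : a ≠ 0) (hb : 1 < b) : ∃ m : ℕ, 1 ≤ a * b ^ m := by
  obtain ⟨m, hm⟩ := MulArchimedean.arch (a⁻¹) hb
  refine ⟨m, ?_⟩
  calc (1 : ℤᵐ⁰) = a * a⁻¹ := (mul_inv_cancel₀ ha).symm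
    _ ≤ a * b ^ m := mul_le_mul_right hm a

end d4Aux

open MvPolynomial WithZero d4Aux in
/-- D4 for one valuation. -/
theorem d4Aux.one (hd3 : D3Stmt) (R K : Type) [CommRing R] [IsDomain R] [Algebra ℂ R] [Field K]
    [Algebra R K] [IsFractionRing R K] [Algebra ℂ K] [IsScalarTower ℂ R K] (n N : ℕ)
    (x : Fin N → R) (hx : Algebra.adjoin ℂ (Set.range x) = ⊤) (hn : 1 ≤ n)
    (hK : Algebra.trdeg ℂ K = n) (v : Valuation K ℤᵐ⁰) (hv : Triv v)
    (hl : ∃ l, 1 < v (algebraMap R K (x l))) (ht : ∃ t : Fin (n - 1) → K, ResIndep v t) :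
    ∃ (ι : Type) (_ : Fintype ι) (G : ι → R) (i₀ i₁ : ι), G i₁ = 1 ∧
      Ch (fun i => algebraMap R K (G i)) i₀ v := by
  classical
  have hgen : IntermediateField.adjoin ℂ (Set.range fun l => algebraMap R K (x l)) = ⊤ := by
    rw [eq_top_iff]
    intro z _
    have hR : ∀ r : R, algebraMap R K r ∈
        IntermediateField.adjoin ℂ (Set.range fun l => algebraMap R K (x l)) := by
      intro r
      have h1 : r ∈ Algebra.adjoin ℂ (Set.range x) := by rw [hx]; exact Algebra.mem_top
      have h2 : (IsScalarTower.toAlgHom ℂ R K) r ∈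
          (Algebra.adjoin ℂ (Set.range x)).map (IsScalarTower.toAlgHom ℂ R K) :=
        Subalgebra.mem_map.mpr ⟨r, h1, rfl⟩
      rw [AlgHom.map_adjoin, ← Set.range_comp] at h2
      exact IntermediateField.algebra_adjoin_le_adjoin ℂ _ h2
    obtain ⟨p, q, hq, rfl⟩ := IsFractionRing.div_surjective (A := R) z
    exact div_mem (hR p) (hR q)
  obtain ⟨l, hl⟩ := hl
  obtain ⟨t, ht⟩ := ht
  have hx0 : algebraMap R K (x l) ≠ 0 := by
    intro h0
    rw [h0, map_zero] at hl
    exact not_lt.mpr zero_le hl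
  obtain ⟨k, a, ha, hloc⟩ := hd3 K n N (fun l => algebraMap R K (x l)) hgen hn hK v hv
    ⟨_, hx0, ne_of_gt hl⟩ t ht
  obtain ⟨b, hb⟩ := IsLocalization.exist_integer_multiples_of_finite (nonZeroDivisors R) a
  choose f hf using hb
  have hb0 : algebraMap R K (b : R) ≠ 0 :=
    IsFractionRing.to_map_ne_zero_of_mem_nonZeroDivisors b.2
  have hfa : ∀ i, algebraMap R K (f i) = algebraMap R K (b : R) * a i := by
    intro i
    rw [hf i]
    show (b : R) • a i = _
    rw [Algebra.smul_def]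
  obtain ⟨m, hm⟩ := exists_pow_ge (v (algebraMap R K (b : R))) (v (algebraMap R K (x l)))
    ((Valuation.ne_zero_iff v).mpr hb0) hl
  let G : Option (Option (Fin k)) → R := fun i => match i with
    | none => 1
    | some none => b * x l ^ m
    | some (some i) => f i * x l ^ m
  have hG0 : algebraMap R K (G (some none)) ≠ 0 := by
    show algebraMap R K ((b : R) * x l ^ m) ≠ 0
    rw [map_mul, map_pow]
    exact mul_ne_zero hb0 (pow_ne_zero _ hx0)
  have hGa : ∀ i, algebraMap R K (G (some (some i))) / algebraMap R K (G (some none)) = a i := by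
    intro i
    rw [div_eq_iff hG0]
    show algebraMap R K (f i * x l ^ m) = a i * algebraMap R K ((b : R) * x l ^ m)
    rw [map_mul, map_mul, hfa]
    ring
  refine ⟨Option (Option (Fin k)), inferInstance, G, some none, none, rfl, hG0, ?_, ?_⟩
  · intro i
    rcases i with _ | (_ | i)
    · show v (algebraMap R K 1) ≤ v (algebraMap R K ((b : R) * x l ^ m))
      rw [map_one, map_one, map_mul, map_pow, map_mul, map_pow]
      exact hm
    · exact le_refl _
    · have h1 : algebraMap R K (G (some (some i))) = a i * algebraMap R K (G (some none)) := by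
        rw [← hGa i, div_mul_cancel₀ _ hG0]
      show v (algebraMap R K (G (some (some i)))) ≤ v (algebraMap R K (G (some none)))
      rw [h1, map_mul]
      exact mul_le_of_le_one_left' (ha i)
  · intro g hg
    obtain ⟨P, Q, hQ, hP⟩ := hloc g hg
    have hev : ∀ P : MvPolynomial (Fin k) ℂ,
        aeval (fun i => algebraMap R K (G i) / algebraMap R K (G (some none)))
          (rename (fun i => some (some i)) P) = aeval a P := by
      intro P
      rw [aeval_rename]
      congr 2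
      funext i
      exact hGa i
    exact ⟨rename (fun i => some (some i)) P, rename (fun i => some (some i)) Q,
      by rw [hev]; exact hQ, by rw [hev, hev]; exact hP⟩

open MvPolynomial WithZero d4Aux in
/-- D4 for finitely many valuations, without the element `z`. -/
theorem d4Aux.many (hd3 : D3Stmt) (R K : Type) [CommRing R] [IsDomain R] [Algebra ℂ R] [Field K]
    [Algebra R K] [IsFractionRing R K] [Algebra ℂ K] [IsScalarTower ℂ R K] (n N : ℕ)
    (x : Fin N → R) (hx : Algebra.adjoin ℂ (Set.range x) = ⊤) (hn : 1 ≤ n)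
    (hK : Algebra.trdeg ℂ K = n) (s : ℕ) (v : Fin s → Valuation K ℤᵐ⁰) (hv : ∀ j, Triv (v j))
    (hl : ∀ j, ∃ l, 1 < v j (algebraMap R K (x l)))
    (ht : ∀ j, ∃ t : Fin (n - 1) → K, ResIndep (v j) t) :
    ∃ (ι : Type) (_ : Fintype ι) (G : ι → R) (i₁ : ι), G i₁ = 1 ∧ (∀ l, ∃ i, G i = x l) ∧
      ∀ j, ∃ i₀, Ch (fun i => algebraMap R K (G i)) i₀ (v j) := by
  classical
  induction s with
  | zero =>
    refine ⟨Option (Fin N), inferInstance, fun i => match i with
      | none => 1
      | some l => x l, none, rfl, fun l => ⟨some l, rfl⟩, fun j => j.elim0⟩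
  | succ s ih =>
    obtain ⟨ι, hι, G, i₁, hG1, hGx, hG⟩ := ih (fun j => v j.castSucc) (fun j => hv _)
      (fun j => hl _) (fun j => ht _)
    obtain ⟨κ, hκ, H, j₀, j₁, hH1, hH⟩ := d4Aux.one hd3 R K n N x hx hn hK (v (Fin.last s))
      (hv _) (hl _) (ht _)
    have hG1' : algebraMap R K (G i₁) ≠ 0 := by rw [hG1, map_one]; exact one_ne_zero
    have hH1' : algebraMap R K (H j₁) ≠ 0 := by rw [hH1, map_one]; exact one_ne_zero
    refine ⟨ι × κ, inferInstance, fun p => G p.1 * H p.2, (i₁, j₁), ?_, ?_, ?_⟩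
    · show G i₁ * H j₁ = 1
      rw [hG1, hH1, one_mul]
    · intro l
      obtain ⟨i, hi⟩ := hGx l
      exact ⟨(i, j₁), by show G i * H j₁ = x l; rw [hi, hH1, mul_one]⟩
    · intro j
      induction j using Fin.lastCases with
      | last =>
        obtain ⟨i₀, hi0, himax⟩ := exists_max (fun i => algebraMap R K (G i)) (v (Fin.last s)) i₁ hG1'
        refine ⟨(i₀, j₀), hH.ext _ (fun j => (i₀, j)) (algebraMap R K (G i₀)) hi0 ?_ ?_⟩
        · intro j
          show algebraMap R K (G i₀ * H j) = _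
          rw [map_mul, mul_comm]
        · rintro ⟨i, j⟩
          show v (Fin.last s) (algebraMap R K (G i * H j)) ≤
            v (Fin.last s) (algebraMap R K (G i₀ * H j₀))
          rw [map_mul, map_mul, map_mul, map_mul]
          exact mul_le_mul' (himax i) (hH.max j)
      | cast j =>
        obtain ⟨i₀, hi0⟩ := hG j
        obtain ⟨k₀, hk0, hkmax⟩ := exists_max (fun i => algebraMap R K (H i)) (v j.castSucc) j₁ hH1'
        refine ⟨(i₀, k₀), hi0.ext _ (fun i => (i, k₀)) (algebraMap R K (H k₀)) hk0 ?_ ?_⟩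
        · intro i
          show algebraMap R K (G i * H k₀) = _
          rw [map_mul]
        · rintro ⟨i, j'⟩
          show v j.castSucc (algebraMap R K (G i * H j')) ≤
            v j.castSucc (algebraMap R K (G i₀ * H k₀))
          rw [map_mul, map_mul, map_mul, map_mul]
          exact mul_le_mul' (hi0.max i) (hkmax j')

open MvPolynomial WithZero d4Aux in
/-- A linear combination with maximal values. -/
theorem d4Aux.comb (R K : Type) [CommRing R] [IsDomain R] [Algebra ℂ R] [Field K]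
    [Algebra R K] [IsFractionRing R K] [Algebra ℂ K] [IsScalarTower ℂ R K] (s : ℕ)
    (v : Fin s → Valuation K ℤᵐ⁰) (hv : ∀ j, Triv (v j)) (ι : Type) [Fintype ι] (G : ι → R)
    (i₁ : ι) (hG1 : G i₁ = 1) (i₀ : Fin s → ι) (hne : ∀ j, algebraMap R K (G (i₀ j)) ≠ 0)
    (hmax : ∀ j i, v j (algebraMap R K (G i)) ≤ v j (algebraMap R K (G (i₀ j)))) :
    ∃ z : R, z ≠ 0 ∧ ∀ j, v j (algebraMap R K z) = v j (algebraMap R K (G (i₀ j))) := by
  classical
  -- the linear map
  let L : (ι → ℂ) →ₗ[ℂ] R := Fintype.linearCombination ℂ G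
  have hL1 : ∀ i, L (Pi.single i 1) = G i := by
    intro i
    show Fintype.linearCombination ℂ G (Pi.single i 1) = G i
    rw [Fintype.linearCombination_apply_single, one_smul]
  have hsm : ∀ (j : Fin s) (c : ℂ) (r : R), v j (algebraMap R K (c • r)) ≤ v j (algebraMap R K r) := by
    intro j c r
    have h1 : algebraMap R K (c • r) = algebraMap ℂ K c * algebraMap R K r := by
      rw [Algebra.smul_def, map_mul, ← IsScalarTower.algebraMap_apply]
    rw [h1, map_mul]
    by_cases hc : c = 0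
    · rw [hc, map_zero, map_zero, zero_mul]
      exact zero_le
    · rw [hv j c hc, one_mul]
  have hlt : ∀ j, (0 : ℤᵐ⁰) < v j (algebraMap R K (G (i₀ j))) := fun j =>
    lt_of_le_of_ne zero_le (Ne.symm ((Valuation.ne_zero_iff (v j)).mpr (hne j)))
  let S : Fin s → Submodule ℂ (ι → ℂ) := fun j =>
    { carrier := {c | v j (algebraMap R K (L c)) < v j (algebraMap R K (G (i₀ j)))}
      zero_mem' := by
        show v j (algebraMap R K (L 0)) < _
        rw [map_zero, map_zero, map_zero]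
        exact hlt j
      add_mem' := by
        intro a b ha hb
        show v j (algebraMap R K (L (a + b))) < _
        rw [map_add, map_add]
        exact (v j).map_add_lt ha hb
      smul_mem' := by
        intro c a ha
        show v j (algebraMap R K (L (c • a))) < _
        rw [map_smul]
        exact lt_of_le_of_lt (hsm j c _) ha }
  let T : Finset (Submodule ℂ (ι → ℂ)) := insert (LinearMap.ker L) (Finset.univ.image S)
  have hT : ⊤ ∉ T := by
    intro h
    rcases Finset.mem_insert.mp h with h | h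
    · have h1 : (Pi.single i₁ 1 : ι → ℂ) ∈ LinearMap.ker L := by rw [← h]; exact Submodule.mem_top
      rw [LinearMap.mem_ker, hL1, hG1] at h1
      exact one_ne_zero h1
    · obtain ⟨j, -, hj⟩ := Finset.mem_image.mp h
      have h1 : (Pi.single (i₀ j) 1 : ι → ℂ) ∈ S j := by rw [hj]; exact Submodule.mem_top
      have h2 : v j (algebraMap R K (L (Pi.single (i₀ j) 1))) < v j (algebraMap R K (G (i₀ j))) := h1
      rw [hL1] at h2
      exact lt_irrefl _ h2
  have hne' := Subspace.biUnion_ne_univ_of_top_notMem hT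
  obtain ⟨c, hc⟩ := (Set.ne_univ_iff_exists_notMem _).mp hne'
  have hc' : ∀ p ∈ T, c ∉ p := by
    intro p hp hcp
    exact hc (Set.mem_biUnion hp hcp)
  refine ⟨L c, ?_, fun j => ?_⟩
  · intro h0
    exact hc' _ (Finset.mem_insert_self _ _) (LinearMap.mem_ker.mpr h0)
  · refine le_antisymm ?_ ?_
    · have h1 : L c = ∑ i, c i • G i := rfl
      rw [h1, map_sum]
      refine (v j).map_sum_le fun i _ => ?_
      exact le_trans (hsm j _ _) (hmax j i)
    · by_contra hcon
      rw [not_le] at hcon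
      exact hc' (S j) (Finset.mem_insert_of_mem (Finset.mem_image_of_mem _ (Finset.mem_univ j))) hcon

open MvPolynomial WithZero d4Aux in
/-- D4. The coordinates of the projective model. -/
theorem d4 (hd3 : D3Stmt) : D4Stmt := by
  intro R K _ _ _ _ _ _ _ _ n N s x hx hn hK v hv hl ht
  classical
  obtain ⟨ι, hι, G, i₁, hG1, hGx, hG⟩ := d4Aux.many hd3 R K n N x hx hn hK s v hv hl ht
  choose i₀ hi0 using hG
  obtain ⟨z, hz0, hz⟩ := d4Aux.comb R K s v hv ι G i₁ hG1 i₀ (fun j => (hi0 j).ne)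
    (fun j => (hi0 j).max)
  let e : Fin (Fintype.card ι) ≃ ι := (Fintype.equivFin ι).symm
  let y : Fin (Fintype.card ι + 1 + 1) → R := Fin.cons 1 (Fin.cons z (fun i => G (e i)))
  let σ : ι → Fin (Fintype.card ι + 1 + 1) := fun i => Fin.succ (Fin.succ (e.symm i))
  have hσ : ∀ i, y (σ i) = G i := by
    intro i
    show (Fin.cons 1 (Fin.cons z (fun i => G (e i)) : Fin (Fintype.card ι + 1) → R) :
      Fin (Fintype.card ι + 1 + 1) → R) (Fin.succ (Fin.succ (e.symm i))) = G i
    rw [Fin.cons_succ, Fin.cons_succ, Equiv.apply_symm_apply]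
  have hy1 : y 1 = z := rfl
  refine ⟨Fintype.card ι + 1, y, 1, rfl, ?_, ?_, ?_⟩
  · rw [hy1]; exact hz0
  · intro l
    obtain ⟨i, hi⟩ := hGx l
    exact ⟨σ i, by rw [hσ, hi]⟩
  · intro j
    have h1 : Ch (fun l => algebraMap R K (y l)) (σ (i₀ j)) (v j) := by
      refine (hi0 j).ext _ σ 1 one_ne_zero (fun i => ?_) (fun i => ?_)
      · rw [hσ, mul_one]
      · show v j (algebraMap R K (y i)) ≤ v j (algebraMap R K (y (σ (i₀ j))))
        rw [hσ]
        refine Fin.cases ?_ (fun i => ?_) i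
        · show v j (algebraMap R K 1) ≤ _
          rw [← hG1]
          exact (hi0 j).max i₁
        · refine Fin.cases ?_ (fun i => ?_) i
          · show v j (algebraMap R K z) ≤ _
            rw [hz]
          · show v j (algebraMap R K (G (e i))) ≤ _
            exact (hi0 j).max _
    have h2 : Ch (fun l => algebraMap R K (y l)) 1 (v j) := by
      refine h1.change 1 ?_
      show v j (algebraMap R K (y 1)) = v j (algebraMap R K (y (σ (i₀ j))))
      rw [hσ, hy1, hz]
    exact ⟨h2.ne, h2.max, h2.loc⟩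

end Pool.Agent.Lib.MP_410da7_agA
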