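import Pool.Agent.Lib.MP_410da7_agA.SpecD

/-!
# MP_410da7_ag, smooth affine varieties (C46), D5: homogenization
-/

set_option autoImplicit false

namespace Pool.Agent.Lib.MP_410da7_agA

open MvPolynomial

theorem d5 : D5Stmt := by
  intro k K _ _ _ M b e P hP
  have hdeg : ∀ m ∈ P.support, m.degree ≤ e := by
    intro m hm
    refine le_trans ?_ hP
    exact MvPolynomial.le_totalDegree hm
  constructor
  · unfold hom
    refine IsHomogeneous.sum _ _ _ fun m hm => ?_
    have h1 : (monomial m (P.coeff m)).IsHomogeneous m.degree := isHomogeneous_monomial _ rfl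
    have h2 : ((X b : MvPolynomial (Fin (M + 1)) k) ^ (e - m.degree)).IsHomogeneous
        (e - m.degree) := by
      simpa using (isHomogeneous_X k b).pow (e - m.degree)
    have h3 := h1.mul h2
    rwa [Nat.add_sub_cancel' (hdeg m hm)] at h3
  · intro y hy
    unfold hom
    rw [map_sum, aeval_def (aff y b), eval₂_eq, Finset.mul_sum]
    refine Finset.sum_congr rfl fun m hm => ?_
    rw [map_mul, map_pow, aeval_X, aeval_monomial, Finsupp.prod_fintype _ _ (fun i => pow_zero _)]
    have h4 : ∏ i ∈ m.support, aff y b i ^ m i = (∏ i, y i ^ m i) / y b ^ m.degree := by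
      rw [Finset.prod_subset (Finset.subset_univ m.support)
        (fun i _ hi => by rw [Finsupp.notMem_support_iff.1 hi, pow_zero])]
      rw [Finsupp.degree_eq_sum, ← Finset.prod_pow_eq_pow_sum, ← Finset.prod_div_distrib]
      refine Finset.prod_congr rfl fun i _ => ?_
      rw [aff, div_pow]
    rw [h4]
    obtain ⟨j, hj⟩ := Nat.exists_eq_add_of_le (hdeg m hm)
    have h5 : y b ^ m.degree ≠ 0 := pow_ne_zero _ hy
    rw [hj, Nat.add_sub_cancel_left, pow_add]
    field_simp

end Pool.Agent.Lib.MP_410da7_agA
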