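import Pool.Agent.Lib.MP_410da7_agA.SpecD

/-!
# MP_410da7_ag, smooth affine varieties (C46), D6: local complete intersection at the generic point
-/

set_option autoImplicit false

namespace Pool.Agent.Lib.MP_410da7_agA

open MvPolynomial

namespace d6Aux

section tri

variable {F K : Type} [Field F] [Field K] [Algebra F K] {r : ℕ}

theorem fse_C (c : F) : finSuccEquiv F r (C c) = Polynomial.C (C c) := by
  exact (finSuccEquiv F r).commutes c

theorem fse_rename (p : MvPolynomial (Fin r) F) :
    finSuccEquiv F r (rename Fin.succ p) = Polynomial.C p := by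
  induction p using MvPolynomial.induction_on with
  | C a => rw [rename_C, fse_C]
  | add p q hp hq => rw [map_add, map_add, hp, hq, map_add]
  | mul_X p i hp => rw [map_mul, map_mul, hp, rename_X, finSuccEquiv_X_succ, map_mul]

theorem fse_pderiv (G : MvPolynomial (Fin (r + 1)) F) :
    finSuccEquiv F r (pderiv 0 G) = Polynomial.derivative (finSuccEquiv F r G) := by
  induction G using MvPolynomial.induction_on with
  | C a => rw [pderiv_C, map_zero, fse_C, Polynomial.derivative_C]
  | add p q hp hq => simp only [map_add, hp, hq]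
  | mul_X p i hp =>
    rw [Derivation.leibniz, map_add, map_mul, Polynomial.derivative_mul, smul_eq_mul, smul_eq_mul,
      map_mul, map_mul, hp, mul_comm (finSuccEquiv F r (X i)), add_comm]
    congr 2
    refine Fin.cases ?_ (fun j => ?_) i
    · rw [pderiv_X_self, map_one, finSuccEquiv_X_zero, Polynomial.derivative_X]
    · rw [pderiv_X_of_ne (Fin.succ_ne_zero j), map_zero, finSuccEquiv_X_succ,
        Polynomial.derivative_C]

theorem aeval_fse (y : Fin (r + 1) → K) (G : MvPolynomial (Fin (r + 1)) F) :
    aeval y G = Polynomial.eval₂ (aeval (fun i => y i.succ) : MvPolynomial (Fin r) F →ₐ[F] K).toRingHom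
      (y 0) (finSuccEquiv F r G) := by
  induction G using MvPolynomial.induction_on with
  | C a =>
    rw [fse_C, Polynomial.eval₂_C, aeval_C]
    change _ = aeval (fun i : Fin r => y i.succ) (C a)
    rw [aeval_C]
  | add p q hp hq => rw [map_add, map_add, hp, hq, Polynomial.eval₂_add]
  | mul_X p i hp =>
    rw [map_mul, map_mul, hp, Polynomial.eval₂_mul, aeval_X]
    congr 1
    refine Fin.cases ?_ (fun j => ?_) i
    · rw [finSuccEquiv_X_zero, Polynomial.eval₂_X]
    · rw [finSuccEquiv_X_succ, Polynomial.eval₂_C]
      change _ = aeval (fun i => y i.succ) (X j)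
      rw [aeval_X]

/-- The triangular system in the algebraic case. -/
theorem tri [CharZero F] [Algebra.IsAlgebraic F K] : ∀ (r : ℕ) (y : Fin r → K),
    ∃ P : Fin r → MvPolynomial (Fin r) F, (∀ i, aeval y (P i) = 0) ∧
      (Matrix.of fun i l => aeval y (pderiv l (P i))).det ≠ 0 ∧
      ∀ G : MvPolynomial (Fin r) F, aeval y G = 0 → G ∈ Ideal.span (Set.range P) := by
  intro r
  induction r with
  | zero =>
    intro y
    refine ⟨fun i => i.elim0, fun i => i.elim0, ?_, fun G hG => ?_⟩
    · rw [Matrix.det_isEmpty]
      exact one_ne_zero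
    · have h1 : G = C (G.coeff 0) := by
        exact (MvPolynomial.eq_C_of_isEmpty G)
      rw [h1, aeval_C] at hG
      have h2 : G.coeff 0 = 0 := (map_eq_zero _).1 hG
      rw [h1, h2, map_zero]
      exact Ideal.zero_mem _
  | succ r ih =>
    intro y
    obtain ⟨P', hP0, hP1, hP2⟩ := ih (fun i => y i.succ)
    set φ : MvPolynomial (Fin r) F →ₐ[F] K := aeval (fun i => y i.succ) with hφ
    set E := IntermediateField.adjoin F (Set.range fun i : Fin r => y i.succ) with hE
    set ψ : MvPolynomial (Fin r) F →ₐ[F] E :=
      aeval (fun i => (⟨y i.succ, IntermediateField.subset_adjoin _ _ ⟨i, rfl⟩⟩ : E)) with hψ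
    have hψφ : ∀ a, algebraMap E K (ψ a) = φ a := by
      intro a
      have := MvPolynomial.map_aeval
        (fun i => (⟨y i.succ, IntermediateField.subset_adjoin _ _ ⟨i, rfl⟩⟩ : E))
        (algebraMap E K) a
      rw [hψ, this, hφ, aeval_def]
      rfl
    have hsurj : Function.Surjective ψ := by
      intro e
      have h1 : (e : K) ∈ (IntermediateField.adjoin F
          (Set.range fun i : Fin r => y i.succ)).toSubalgebra := e.2
      rw [IntermediateField.adjoin_toSubalgebra_of_isAlgebraic
        (fun x _ => Algebra.IsAlgebraic.isAlgebraic x),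
        Algebra.adjoin_range_eq_range_aeval] at h1
      obtain ⟨a, ha⟩ := h1
      refine ⟨a, ?_⟩
      apply (algebraMap E K).injective
      rw [hψφ]
      exact ha
    have : Algebra.IsAlgebraic E K := Algebra.IsAlgebraic.tower_top (K := F) E
    have hint : IsIntegral E (y 0) := (Algebra.IsAlgebraic.isAlgebraic (y 0)).isIntegral
    set q := minpoly E (y 0) with hq
    obtain ⟨Q, hQ1, hQ2, hQ3⟩ := Polynomial.lifts_and_natDegree_eq_and_monic
      (f := (ψ : MvPolynomial (Fin r) F →+* E)) (p := q)
      ((Polynomial.mem_lifts q).2 (Polynomial.map_surjective _ hsurj q)) (minpoly.monic hint)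
    have hev : ∀ H : Polynomial (MvPolynomial (Fin r) F),
        Polynomial.eval₂ φ.toRingHom (y 0) H =
          Polynomial.aeval (y 0) (H.map (ψ : MvPolynomial (Fin r) F →+* E)) := by
      intro H
      rw [Polynomial.aeval_def, Polynomial.eval₂_map]
      congr 1
      ext a
      · exact (hψφ _).symm
      · exact (hψφ _).symm
    have hF := finSuccEquiv F r
    set P : Fin (r + 1) → MvPolynomial (Fin (r + 1)) F :=
      Fin.cons ((finSuccEquiv F r).symm Q) (fun i => rename Fin.succ (P' i)) with hP
    have hPz : P 0 = (finSuccEquiv F r).symm Q := rfl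
    have hPs : ∀ i : Fin r, P i.succ = rename Fin.succ (P' i) := fun _ => rfl
    refine ⟨P, ?_, ?_, ?_⟩
    · intro i
      refine Fin.cases ?_ (fun j => ?_) i
      · rw [hPz, aeval_fse, AlgEquiv.apply_symm_apply]
        change Polynomial.eval₂ φ.toRingHom (y 0) Q = 0
        rw [hev, hQ1]
        exact minpoly.aeval E (y 0)
      · rw [hPs, aeval_rename]
        exact hP0 j
    · rw [Matrix.det_succ_column_zero, Finset.sum_eq_single 0]
      · refine mul_ne_zero (mul_ne_zero (pow_ne_zero _ (neg_ne_zero.2 one_ne_zero)) ?_) ?_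
        · rw [Matrix.of_apply, hPz, aeval_fse, fse_pderiv, AlgEquiv.apply_symm_apply]
          change Polynomial.eval₂ φ.toRingHom (y 0) (Polynomial.derivative Q) ≠ 0
          rw [hev, ← Polynomial.derivative_map, hQ1]
          have : CharZero E := charZero_of_injective_algebraMap (algebraMap F E).injective
          exact (minpoly.irreducible hint).separable.aeval_derivative_ne_zero
            (minpoly.aeval E (y 0))
        · convert hP1 using 2
          ext i l
          rw [Matrix.submatrix_apply, Matrix.of_apply, Matrix.of_apply, Fin.succAbove_zero, hPs,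
            pderiv_rename (Fin.succ_injective r), aeval_rename]
          rfl
      · intro i _ hi
        obtain ⟨j, rfl⟩ := Fin.exists_succ_eq.2 hi
        rw [Matrix.of_apply, hPs, aeval_fse, fse_pderiv, fse_rename, Polynomial.derivative_C,
          Polynomial.eval₂_zero, mul_zero, zero_mul]
      · intro h
        exact absurd (Finset.mem_univ _) h
    · intro G hG
      set I' : Ideal (Polynomial (MvPolynomial (Fin r) F)) :=
        (Ideal.span (Set.range P)).comap (finSuccEquiv F r).symm.toRingHom with hI'
      have hmem : ∀ H, H ∈ I' ↔ (finSuccEquiv F r).symm H ∈ Ideal.span (Set.range P) :=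
        fun _ => Iff.rfl
      have hQI : Q ∈ I' := by
        rw [hmem, ← hPz]
        exact Ideal.subset_span ⟨0, rfl⟩
      have hCI : Ideal.map Polynomial.C (Ideal.span (Set.range P')) ≤ I' := by
        rw [Ideal.map_le_iff_le_comap, Ideal.span_le]
        rintro _ ⟨i, rfl⟩
        change Polynomial.C (P' i) ∈ I'
        rw [hmem, ← fse_rename, AlgEquiv.symm_apply_apply, ← hPs]
        exact Ideal.subset_span ⟨i.succ, rfl⟩
      have hdiv := Polynomial.modByMonic_add_div (finSuccEquiv F r G) Q
      have hR0 : (finSuccEquiv F r G %ₘ Q).map (ψ : MvPolynomial (Fin r) F →+* E) = 0 := by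
        by_contra hne
        have h1 : Polynomial.aeval (y 0)
            ((finSuccEquiv F r G %ₘ Q).map (ψ : MvPolynomial (Fin r) F →+* E)) = 0 := by
          rw [← hev]
          have h2 := congrArg (Polynomial.eval₂ φ.toRingHom (y 0)) hdiv
          rw [Polynomial.eval₂_add, Polynomial.eval₂_mul, hev Q, hQ1, minpoly.aeval, zero_mul,
            add_zero] at h2
          rw [h2]
          rw [aeval_fse] at hG
          exact hG
        have h3 := minpoly.degree_le_of_ne_zero E (y 0) hne h1
        have h4 : (finSuccEquiv F r G %ₘ Q).degree < Q.degree :=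
          Polynomial.degree_modByMonic_lt _ hQ3
        have h5 : (minpoly E (y 0)).degree = Q.degree := by
          rw [Polynomial.degree_eq_natDegree hQ3.ne_zero, hQ2,
            Polynomial.degree_eq_natDegree (minpoly.ne_zero hint)]
        have h6 := (h3.trans (Polynomial.degree_map_le)).trans_lt h4
        rw [h5] at h6
        exact lt_irrefl _ h6
      have hRI : finSuccEquiv F r G %ₘ Q ∈ I' := by
        apply hCI
        rw [Ideal.mem_map_C_iff]
        intro n
        apply hP2
        have h1 := congrArg (fun p => Polynomial.coeff p n) hR0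
        simp only [Polynomial.coeff_map, Polynomial.coeff_zero] at h1
        have h2 := congrArg (algebraMap E K) h1
        rw [map_zero] at h2
        rw [← h2]
        exact (hψφ _).symm
      have hGI : finSuccEquiv F r G ∈ I' := by
        rw [← hdiv]
        exact I'.add_mem hRI (I'.mul_mem_right _ hQI)
      rw [hmem, AlgEquiv.symm_apply_apply] at hGI
      exact hGI

end tri

section clear

variable {k K : Type} [Field k] [Field K] [Algebra k K] {n r M : ℕ}

/-- Polynomials in all the variables as polynomials in `r` variables over a field `F` which contains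
the other variables. -/
noncomputable def Th {F : Type} [Field F] [Algebra k F] (t : Fin n → F)
    (e : Fin r ⊕ Fin n ≃ Fin M) : MvPolynomial (Fin M) k →ₐ[k] MvPolynomial (Fin r) F :=
  aeval fun m => Sum.elim (fun b => X b) (fun a => C (t a)) (e.symm m)

section

variable {F : Type} [Field F] [Algebra k F] (t : Fin n → F) (e : Fin r ⊕ Fin n ≃ Fin M)

theorem Th_inl (b : Fin r) : Th (k := k) t e (X (e (Sum.inl b))) = X b := by
  rw [Th, aeval_X, Equiv.symm_apply_apply, Sum.elim_inl]

theorem Th_inr (a : Fin n) : Th (k := k) t e (X (e (Sum.inr a))) = C (t a) := by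
  rw [Th, aeval_X, Equiv.symm_apply_apply, Sum.elim_inr]

theorem Th_C (c : k) : Th t e (C c) = C (algebraMap k F c) := by
  rw [Th, aeval_C]
  rfl

theorem Th_eq (p : MvPolynomial (Fin M) k) :
    Th t e p = MvPolynomial.map (aeval t : MvPolynomial (Fin n) k →ₐ[k] F).toRingHom
      (sumAlgEquiv k (Fin r) (Fin n) (rename e.symm p)) := by
  induction p using MvPolynomial.induction_on with
  | C a =>
    rw [Th_C, rename_C, sumAlgEquiv_C_inl, map_C]
    congr 1
    exact (aeval_C t a).symm
  | add p q hp hq => simp only [map_add, hp, hq]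
  | mul_X p m hp =>
    rw [map_mul, map_mul, map_mul, map_mul, hp]
    congr 1
    obtain ⟨s, rfl⟩ := e.surjective m
    rw [rename_X, Equiv.symm_apply_apply]
    rcases s with b | a
    · rw [Th_inl, sumAlgEquiv_X_inl, map_X]
    · rw [Th_inr, sumAlgEquiv_X_inr, map_C]
      congr 1
      exact (aeval_X t a).symm

theorem Th_injective (ht : AlgebraicIndependent k t) : Function.Injective (Th (k := k) t e) := by
  intro p q hpq
  rw [Th_eq, Th_eq] at hpq
  have h1 := MvPolynomial.map_injective _ ht hpq
  have h2 := (sumAlgEquiv k (Fin r) (Fin n)).injective h1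
  exact rename_injective _ e.symm.injective h2

theorem Th_pderiv (b : Fin r) (p : MvPolynomial (Fin M) k) :
    Th t e (pderiv (e (Sum.inl b)) p) = pderiv b (Th t e p) := by
  induction p using MvPolynomial.induction_on with
  | C a => rw [pderiv_C, map_zero, Th_C, pderiv_C]
  | add p q hp hq => simp only [map_add, hp, hq]
  | mul_X p m hp =>
    rw [Derivation.leibniz, map_mul, Derivation.leibniz, smul_eq_mul, smul_eq_mul, smul_eq_mul,
      smul_eq_mul, map_add, map_mul, map_mul, hp]
    congr 2
    obtain ⟨s, rfl⟩ := e.surjective m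
    rcases s with b' | a
    · rw [Th_inl]
      by_cases hb : b' = b
      · rw [hb, pderiv_X_self, pderiv_X_self, map_one]
      · rw [pderiv_X_of_ne hb, pderiv_X_of_ne (fun h => hb (Sum.inl_injective (e.injective h))),
          map_zero]
    · rw [Th_inr, pderiv_C, pderiv_X_of_ne (fun h => Sum.inr_ne_inl (e.injective h)), map_zero]

theorem aeval_Th [Algebra F K] [IsScalarTower k F K] (y : Fin M → K)
    (hy : ∀ a, y (e (Sum.inr a)) = algebraMap F K (t a)) (p : MvPolynomial (Fin M) k) :
    aeval (fun b => y (e (Sum.inl b))) (Th t e p) = aeval y p := by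
  induction p using MvPolynomial.induction_on with
  | C a => rw [Th_C, aeval_C, aeval_C, ← IsScalarTower.algebraMap_apply]
  | add p q hp hq => simp only [map_add, hp, hq]
  | mul_X p m hp =>
    rw [map_mul, map_mul, map_mul, hp, aeval_X]
    congr 1
    obtain ⟨s, rfl⟩ := e.surjective m
    rcases s with b | a
    · rw [Th_inl, aeval_X]
    · rw [Th_inr, aeval_C, hy]

theorem Th_rename (p : MvPolynomial (Fin n) k) :
    Th t e (rename (fun a => e (Sum.inr a)) p) = C (aeval t p) := by
  induction p using MvPolynomial.induction_on with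
  | C a => rw [rename_C, Th_C, aeval_C]
  | add p q hp hq => simp only [map_add, hp, hq]
  | mul_X p m hp => rw [map_mul, map_mul, hp, rename_X, Th_inr, map_mul, aeval_X, map_mul]

/-- Clearing denominators. -/
theorem clear (hF : ∀ f : F, ∃ a b : MvPolynomial (Fin n) k, aeval t b ≠ 0 ∧
    aeval t b * f = aeval t a) (H : MvPolynomial (Fin r) F) :
    ∃ (D N : MvPolynomial (Fin M) k) (c : F), c ≠ 0 ∧ Th t e D = C c ∧ Th t e N = C c * H := by
  induction H using MvPolynomial.induction_on with
  | C f =>
    obtain ⟨a, b, hb, hab⟩ := hF f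
    refine ⟨rename (fun a => e (Sum.inr a)) b, rename (fun a => e (Sum.inr a)) a, aeval t b, hb,
      Th_rename t e b, ?_⟩
    rw [Th_rename, ← hab, map_mul]
  | add p q hp hq =>
    obtain ⟨D, N, c, hc, h1, h2⟩ := hp
    obtain ⟨D', N', c', hc', h1', h2'⟩ := hq
    refine ⟨D * D', N * D' + N' * D, c * c', mul_ne_zero hc hc', ?_, ?_⟩
    · rw [map_mul, h1, h1', map_mul]
    · rw [map_add, map_mul, map_mul, h1, h1', h2, h2', map_mul]
      ring
  | mul_X p i hp =>
    obtain ⟨D, N, c, hc, h1, h2⟩ := hp
    refine ⟨D, N * X (e (Sum.inl i)), c, hc, h1, ?_⟩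
    rw [map_mul, h2, Th_inl, mul_assoc]

end

theorem red [CharZero k] (e : Fin r ⊕ Fin n ≃ Fin M) (y : Fin M → K)
    (ht : IsTranscendenceBasis k fun a => y (e (Sum.inr a))) :
    ∃ P : Fin r → MvPolynomial (Fin M) k, (∀ i, aeval y (P i) = 0) ∧
      (Matrix.of fun i l => aeval y (pderiv (e (Sum.inl l)) (P i))).det ≠ 0 ∧
      ∀ G : MvPolynomial (Fin M) k, aeval y G = 0 → ∃ g : MvPolynomial (Fin M) k,
        aeval y g ≠ 0 ∧ g * G ∈ Ideal.span (Set.range P) := by
  classical
  set F := IntermediateField.adjoin k (Set.range fun a => y (e (Sum.inr a))) with hFdef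
  set t : Fin n → F := fun a => ⟨y (e (Sum.inr a)), IntermediateField.subset_adjoin _ _ ⟨a, rfl⟩⟩
    with htdef
  have ht' : ∀ p : MvPolynomial (Fin n) k, algebraMap F K (aeval t p) =
      aeval (fun a => y (e (Sum.inr a))) p := by
    intro p
    have := MvPolynomial.map_aeval t (algebraMap F K) p
    rw [this, aeval_def]
    rfl
  have hti : AlgebraicIndependent k t := by
    intro p q hpq
    have h1 : aeval t p = aeval t q := hpq
    apply ht.1
    rw [← ht', ← ht', h1]
  have hF : ∀ f : F, ∃ a b : MvPolynomial (Fin n) k, aeval t b ≠ 0 ∧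
      aeval t b * f = aeval t a := by
    intro f
    obtain ⟨a, b, hab⟩ := (IntermediateField.mem_adjoin_range_iff k
      (fun a => y (e (Sum.inr a))) (f : K)).1 f.2
    by_cases hb : aeval t b = 0
    · refine ⟨0, 1, by rw [map_one]; exact one_ne_zero, ?_⟩
      rw [← ht' b, hb, map_zero, div_zero] at hab
      have : f = 0 := by
        apply (algebraMap F K).injective
        rw [map_zero]
        exact hab
      rw [this, mul_zero, map_zero]
    · refine ⟨a, b, hb, ?_⟩
      apply (algebraMap F K).injective
      rw [map_mul, ht', ht']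
      have hb' : aeval (fun a => y (e (Sum.inr a))) b ≠ 0 := by
        rw [← ht']
        exact fun h => hb ((map_eq_zero _).1 h)
      change _ * (f : K) = _
      rw [hab, mul_div_cancel₀ _ hb']
  have hCF : CharZero F := charZero_of_injective_algebraMap (algebraMap k F).injective
  have halg : Algebra.IsAlgebraic F K := ht.isAlgebraic_field
  obtain ⟨P', hP0, hP1, hP2⟩ := tri (F := F) (K := K) r (fun b => y (e (Sum.inl b)))
  choose D₀ P c hc hD₀ hP using fun i => clear t e hF (P' i)
  have hev : ∀ p : MvPolynomial (Fin M) k,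
      aeval (fun b => y (e (Sum.inl b))) (Th t e p) = aeval y p :=
    aeval_Th t e y (fun _ => rfl)
  refine ⟨P, ?_, ?_, ?_⟩
  · intro i
    rw [← hev, hP, map_mul, hP0, mul_zero]
  · have h1 : (Matrix.of fun i l => aeval y (pderiv (e (Sum.inl l)) (P i))) =
        Matrix.of fun i l => algebraMap F K (c i) *
          (Matrix.of fun i l => aeval (fun b => y (e (Sum.inl b))) (pderiv l (P' i))) i l := by
      ext i l
      rw [Matrix.of_apply, Matrix.of_apply, Matrix.of_apply, ← hev, Th_pderiv, hP,
        pderiv_C_mul, map_mul, aeval_C]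
    rw [h1, Matrix.det_mul_column]
    refine mul_ne_zero (Finset.prod_ne_zero_iff.2 fun i _ => ?_) hP1
    exact fun h => hc i ((map_eq_zero _).1 h)
  · intro G hG
    rw [← hev] at hG
    obtain ⟨H, hH⟩ := Ideal.mem_span_range_iff_exists_fun.1 (hP2 _ hG)
    choose D N d hd hD hN using fun i => clear t e hF (C (c i)⁻¹ * H i)
    refine ⟨∏ i, D i, ?_, ?_⟩
    · rw [← hev, map_prod, map_prod]
      refine Finset.prod_ne_zero_iff.2 fun i _ => ?_
      rw [hD, aeval_C]
      exact fun h => hd i ((map_eq_zero _).1 h)
    · have h1 : (∏ i, D i) * G = ∑ i, (∏ j ∈ Finset.univ.erase i, D j) * N i * P i := by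
        apply Th_injective t e hti
        rw [map_mul, map_sum, ← hH, Finset.mul_sum]
        refine Finset.sum_congr rfl fun i _ => ?_
        rw [map_mul, map_mul, hN, hP, ← Finset.mul_prod_erase Finset.univ D (Finset.mem_univ i),
          map_mul, hD]
        have h2 : (C (c i)⁻¹ : MvPolynomial (Fin r) F) * C (c i) = 1 := by
          rw [← map_mul, inv_mul_cancel₀ (hc i), map_one]
        linear_combination (-(C (d i) * Th t e (∏ x ∈ Finset.univ.erase i, D x) * H i * P' i)) * h2
      rw [h1]
      refine Ideal.sum_mem _ fun i _ => Ideal.mul_mem_left _ _ (Ideal.subset_span ⟨i, rfl⟩)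

end clear

end d6Aux

theorem d6 : D6Stmt := by
  intro k K _ _ _ _ n M y hgen htr
  classical
  have halg : Algebra.IsAlgebraic (Algebra.adjoin k (Set.range y)) K := by
    have h1 : Algebra.IsAlgebraic (IntermediateField.adjoin k (Set.range y)) K := by
      rw [hgen]
      refine ⟨fun x => ?_⟩
      have := isAlgebraic_algebraMap (R := (⊤ : IntermediateField k K)) (A := K) ⟨x, trivial⟩
      exact this
    refine ⟨fun x => ?_⟩
    have hx : x ∈ IntermediateField.adjoin k (Set.range y) := by
      rw [hgen]
      trivial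
    obtain ⟨a, ha, b, hb, rfl⟩ := IntermediateField.mem_adjoin_iff_div.1 hx
    have h2 := isAlgebraic_algebraMap (R := Algebra.adjoin k (Set.range y)) (A := K) ⟨a, ha⟩
    have h3 := isAlgebraic_algebraMap (R := Algebra.adjoin k (Set.range y)) (A := K) ⟨b, hb⟩
    rw [div_eq_mul_inv]
    exact h2.mul h3.inv
  obtain ⟨s, hs, hst⟩ := exists_isTranscendenceBasis_subset (R := k) (A := K) (Set.range y)
  have hscard := hst.cardinalMk_eq_trdeg
  rw [htr] at hscard
  have : Finite s := by
    rw [← Cardinal.lt_aleph0_iff_finite, hscard]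
    exact Cardinal.natCast_lt_aleph0
  have : Fintype s := Fintype.ofFinite s
  have hc : Fintype.card s = n := by
    rw [Cardinal.mk_fintype] at hscard
    exact_mod_cast hscard
  choose σ hσ using fun a : s => hs a.2
  have hσi : Function.Injective σ := by
    intro a b hab
    apply Subtype.ext
    rw [← hσ a, ← hσ b, hab]
  have hn : n ≤ M := by
    have := Fintype.card_le_of_injective σ hσi
    rwa [hc, Fintype.card_fin] at this
  have e1 : Fin n ≃ s := (Fintype.equivFinOfCardEq hc).symm
  have hr : Fintype.card ((Set.range σ)ᶜ : Set (Fin M)) = M - n := by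
    rw [Fintype.card_compl_set, Fintype.card_fin, Set.card_range_of_injective hσi, hc]
  have e2 : Fin (M - n) ≃ ((Set.range σ)ᶜ : Set (Fin M)) := (Fintype.equivFinOfCardEq hr).symm
  let e : Fin (M - n) ⊕ Fin n ≃ Fin M :=
    ((Equiv.sumComm _ _).trans (Equiv.sumCongr (e1.trans (Equiv.ofInjective σ hσi)) e2)).trans
      (Equiv.Set.sumCompl (Set.range σ))
  have he : ∀ a, e (Sum.inr a) = σ (e1 a) := fun _ => rfl
  have ht : IsTranscendenceBasis k fun a => y (e (Sum.inr a)) := by
    have h1 := (isTranscendenceBasis_equiv (R := k) (f := ((↑) : s → K)) e1).2 hst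
    have h2 : (fun a => y (e (Sum.inr a))) = ((↑) : s → K) ∘ e1 := by
      funext a
      rw [he, hσ]
      rfl
    rw [h2]
    exact h1
  obtain ⟨P, h0, h1, h2⟩ := d6Aux.red e y ht
  refine ⟨M - n, fun l => e (Sum.inl l), P, by omega, ?_, h0, h1, h2⟩
  intro a b hab
  exact Sum.inl_injective (e.injective hab)

end Pool.Agent.Lib.MP_410da7_agA
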