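import Pool.Agent.Lib.MP_410da7_agA.SpecD

/-!
# MP_410da7_ag, smooth affine varieties (C46), D7: the system of equations of the projective model
-/

set_option autoImplicit false

namespace Pool.Agent.Lib.MP_410da7_agA

open MvPolynomial

namespace d7Aux

variable {k : Type} [Field k] {M : ℕ}

/-- Dehomogenization `X_0 = 1`. -/
noncomputable def De : MvPolynomial (Fin (M + 1)) k →ₐ[k] MvPolynomial (Fin M) k :=
  aeval (Fin.cons 1 X : Fin (M + 1) → MvPolynomial (Fin M) k)

theorem De_X0 : De (X 0 : MvPolynomial (Fin (M + 1)) k) = 1 := by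
  rw [De, aeval_X, Fin.cons_zero]

theorem De_Xs (l : Fin M) : De (X l.succ : MvPolynomial (Fin (M + 1)) k) = X l := by
  rw [De, aeval_X, Fin.cons_succ]

theorem De_rename (P : MvPolynomial (Fin M) k) : De (rename Fin.succ P) = P := by
  induction P using MvPolynomial.induction_on with
  | C a => rw [rename_C, De, aeval_C]; rfl
  | add p q hp hq => rw [map_add, map_add, hp, hq]
  | mul_X p i hp => rw [map_mul, map_mul, hp, rename_X, De_Xs]

theorem De_hom (e : ℕ) (P : MvPolynomial (Fin M) k) : De (hom 0 e (rename Fin.succ P)) = P := by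
  unfold hom
  rw [map_sum]
  conv_rhs => rw [← De_rename P, ← support_sum_monomial_coeff (rename Fin.succ P), map_sum]
  refine Finset.sum_congr rfl fun m _ => ?_
  rw [map_mul, map_pow, De_X0, one_pow, mul_one]

theorem De_pderiv (l : Fin M) (G : MvPolynomial (Fin (M + 1)) k) :
    De (pderiv l.succ G) = pderiv l (De G) := by
  induction G using MvPolynomial.induction_on with
  | C a => rw [pderiv_C, map_zero, De, aeval_C]; exact (pderiv_C).symm
  | add p q hp hq => simp only [map_add, hp, hq]
  | mul_X p i hp =>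
    rw [Derivation.leibniz, map_mul, Derivation.leibniz, smul_eq_mul, smul_eq_mul, smul_eq_mul,
      smul_eq_mul, map_add, map_mul, map_mul, hp]
    congr 2
    refine Fin.cases ?_ (fun j => ?_) i
    · rw [pderiv_X_of_ne (Fin.succ_ne_zero l).symm, De_X0, map_zero, pderiv_one]
    · rw [De_Xs]
      by_cases h : j = l
      · rw [h, pderiv_X_self, pderiv_X_self, map_one]
      · rw [pderiv_X_of_ne h, pderiv_X_of_ne (fun h' => h (Fin.succ_injective _ h')), map_zero]

theorem aeval_De {K : Type} [Field K] [Algebra k K] (y : Fin (M + 1) → K) (hy : y 0 = 1)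
    (G : MvPolynomial (Fin (M + 1)) k) : aeval (fun l : Fin M => y l.succ) (De G) = aeval y G := by
  induction G using MvPolynomial.induction_on with
  | C a => rw [De, aeval_C, aeval_C]; exact aeval_C _ a
  | add p q hp hq => simp only [map_add, hp, hq]
  | mul_X p i hp =>
    rw [map_mul, map_mul, map_mul, hp, aeval_X]
    congr 1
    refine Fin.cases ?_ (fun j => ?_) i
    · rw [De_X0, map_one, hy]
    · rw [De_Xs, aeval_X]

theorem De_monomial (m : Fin (M + 1) →₀ ℕ) (c : k) :
    De (monomial m c) = monomial m.tail c := by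
  rw [De, aeval_monomial, Finsupp.prod_fintype _ _ (fun i => pow_zero _), Fin.prod_univ_succ,
    monomial_eq, Finsupp.prod_fintype _ _ (fun i => pow_zero _)]
  simp only [Fin.cons_zero, one_pow, one_mul, Fin.cons_succ, Finsupp.tail_apply]
  rfl

theorem De_inj {e : ℕ} {H : MvPolynomial (Fin (M + 1)) k} (hH : H.IsHomogeneous e)
    (h0 : De H = 0) : H = 0 := by
  classical
  by_contra hne
  obtain ⟨m₀, hm₀⟩ := MvPolynomial.ne_zero_iff.1 hne
  have h1 : De H = ∑ m ∈ H.support, monomial m.tail (H.coeff m) := by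
    conv_lhs => rw [← support_sum_monomial_coeff H, map_sum]
    exact Finset.sum_congr rfl fun m _ => De_monomial m _
  have h2 := congrArg (coeff m₀.tail) h1
  rw [h0, coeff_zero, coeff_sum, Finset.sum_eq_single m₀] at h2
  · rw [coeff_monomial, if_pos rfl] at h2
    exact hm₀ h2.symm
  · intro m hm hmm
    rw [coeff_monomial, if_neg]
    intro ht
    apply hmm
    have hd : m.degree = m₀.degree := by
      have e1 : m.degree = e := by
        by_contra hc
        exact mem_support_iff.1 hm (hH.coeff_eq_zero hc)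
      have e2 : m₀.degree = e := by
        by_contra hc
        exact hm₀ (hH.coeff_eq_zero hc)
      rw [e1, e2]
    rw [Finsupp.degree_eq_sum, Finsupp.degree_eq_sum, Fin.sum_univ_succ, Fin.sum_univ_succ] at hd
    have hts : ∀ i : Fin M, m i.succ = m₀ i.succ := by
      intro i
      have := DFunLike.congr_fun ht i
      rwa [Finsupp.tail_apply, Finsupp.tail_apply] at this
    ext i
    refine Fin.cases ?_ hts i
    simp only [hts] at hd
    exact Nat.add_right_cancel hd
  · intro h
    exact absurd (mem_support_iff.2 hm₀) h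

end d7Aux

open d7Aux in
theorem d7 (hd5 : D5Stmt) (hd6 : D6Stmt) : D7Stmt := by
  intro k K _ _ _ _ n M y hy0 hgen htr
  classical
  -- the affine point
  have hgen' : IntermediateField.adjoin k (Set.range fun l : Fin M => y l.succ) = ⊤ := by
    rw [eq_top_iff, ← hgen, IntermediateField.adjoin_le_iff]
    rintro _ ⟨l, rfl⟩
    refine Fin.cases ?_ (fun j => ?_) l
    · rw [hy0]
      exact one_mem _
    · exact IntermediateField.subset_adjoin _ _ ⟨j, rfl⟩
  obtain ⟨r, I, P, hM, hI, hPz, hPdet, hPgen⟩ := hd6 k K n M (fun l => y l.succ) hgen' htr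
  -- generators of the homogeneous ideal
  obtain ⟨s, hs, hspan⟩ := (Submodule.fg_span_iff_fg_span_finset_subset
    (R := MvPolynomial (Fin (M + 1)) k)
    {G : MvPolynomial (Fin (M + 1)) k | ∃ e, G.IsHomogeneous e ∧ aeval y G = 0}).1
    (IsNoetherian.noetherian _)
  choose dg hdg hzs using fun G : s => hs G.2
  set d : ℕ := ∑ G : s, dg G + ∑ i, (P i).totalDegree with hd
  have hdG : ∀ G, dg G ≤ d := fun G =>
    (Finset.single_le_sum (fun _ _ => Nat.zero_le _) (Finset.mem_univ G)).trans
      (Nat.le_add_right _ _)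
  have hdP : ∀ i, (P i).totalDegree ≤ d := fun i =>
    (Finset.single_le_sum (f := fun i => (P i).totalDegree) (fun _ _ => Nat.zero_le _)
      (Finset.mem_univ i)).trans (Nat.le_add_left _ _)
  let ι : Type := Fin r ⊕ (s × Fin (M + 1))
  let F' : ι → MvPolynomial (Fin (M + 1)) k :=
    Sum.elim (fun i => hom 0 d (rename Fin.succ (P i)))
      (fun p => X p.2 ^ (d - dg p.1) * (p.1 : MvPolynomial (Fin (M + 1)) k))
  have hren : ∀ Q : MvPolynomial (Fin M) k, (rename Fin.succ Q).totalDegree ≤ Q.totalDegree :=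
    fun Q => totalDegree_rename_le _ _
  have hF'hom : ∀ i, (F' i).IsHomogeneous d := by
    rintro (i | ⟨G, b⟩)
    · exact (hd5 k K M 0 d _ ((hren _).trans (hdP i))).1
    · have h1 : ((X b : MvPolynomial (Fin (M + 1)) k) ^ (d - dg G)).IsHomogeneous (d - dg G) := by
        simpa using (isHomogeneous_X k b).pow (d - dg G)
      have h2 := h1.mul (hdg G)
      rwa [Nat.sub_add_cancel (hdG G)] at h2
  have hF'z : ∀ i, aeval y (F' i) = 0 := by
    rintro (i | ⟨G, b⟩)
    · change aeval y (hom 0 d (rename Fin.succ (P i))) = 0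
      rw [← aeval_De y hy0, De_hom]
      exact hPz i
    · change aeval y (X b ^ (d - dg G) * (G : MvPolynomial (Fin (M + 1)) k)) = 0
      rw [map_mul, hzs, mul_zero]
  let ε : ι ≃ Fin (Fintype.card ι) := Fintype.equivFin ι
  let F : Fin (Fintype.card ι) → MvPolynomial (Fin (M + 1)) k := fun j => F' (ε.symm j)
  have hrange : Set.range F = Set.range F' := by
    change Set.range (F' ∘ ε.symm) = _
    exact ε.symm.surjective.range_comp F'
  have hEqs : Eqs d y F := by
    refine ⟨fun j => hF'hom _, fun j => hF'z _, fun e G hG hG0 b => ?_⟩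
    have h1 : G ∈ Submodule.span (MvPolynomial (Fin (M + 1)) k) (s : Set _) := by
      rw [← hspan]
      exact Submodule.subset_span ⟨e, hG, hG0⟩
    have h2 : X b ^ d * G ∈ Ideal.span (Set.range F') := by
      refine Submodule.span_induction (p := fun G _ => X b ^ d * G ∈ Ideal.span (Set.range F'))
        (fun G hG => ?_) ?_ (fun p q _ _ hp hq => ?_) (fun a p _ hp => ?_) h1
      · have h3 : X b ^ d * G = X b ^ (dg ⟨G, hG⟩) * F' (Sum.inr (⟨G, hG⟩, b)) := by
          change X b ^ d * G = X b ^ (dg ⟨G, hG⟩) * (X b ^ (d - dg ⟨G, hG⟩) * G)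
          rw [← mul_assoc, ← pow_add, Nat.add_sub_cancel' (hdG _)]
        rw [h3]
        exact Ideal.mul_mem_left _ _ (Ideal.subset_span ⟨_, rfl⟩)
      · rw [mul_zero]
        exact Ideal.zero_mem _
      · rw [mul_add]
        exact Ideal.add_mem _ hp hq
      · rw [smul_eq_mul, mul_left_comm]
        exact Ideal.mul_mem_left _ _ hp
    rw [hrange]
    exact h2
  -- the relation
  have hDz : ∀ j, aeval (fun l : Fin M => y l.succ) (De (F j)) = 0 := by
    intro j
    rw [aeval_De y hy0]
    exact hF'z _
  choose g hg hgm using fun j => hPgen (De (F j)) (hDz j)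
  choose A hA using fun j => Ideal.mem_span_range_iff_exists_fun.1 (hgm j)
  set gg : MvPolynomial (Fin M) k := ∏ j, g j with hgg
  set A' : Fin (Fintype.card ι) → Fin r → MvPolynomial (Fin M) k :=
    fun j i => (∏ j' ∈ Finset.univ.erase j, g j') * A j i with hA'
  set N : ℕ := gg.totalDegree + ∑ j, ∑ i, (A' j i).totalDegree with hN
  have hN1 : gg.totalDegree ≤ N := Nat.le_add_right _ _
  have hN2 : ∀ j i, (A' j i).totalDegree ≤ N := by
    intro j i
    refine le_trans ?_ (Nat.le_add_left _ _)
    refine le_trans ?_ (Finset.single_le_sum (f := fun j => ∑ i, (A' j i).totalDegree)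
      (fun _ _ => Nat.zero_le _) (Finset.mem_univ j))
    exact Finset.single_le_sum (f := fun i => (A' j i).totalDegree)
      (fun _ _ => Nat.zero_le _) (Finset.mem_univ i)
  have hJ : ∀ i : Fin r, De (F (ε (Sum.inl i))) = P i := by
    intro i
    change De (F' (ε.symm (ε (Sum.inl i)))) = P i
    rw [Equiv.symm_apply_apply]
    exact De_hom d (P i)
  have hrel : ∀ j, hom 0 N (rename Fin.succ gg) * F j =
      ∑ i, hom 0 N (rename Fin.succ (A' j i)) * F (ε (Sum.inl i)) := by
    intro j
    rw [← sub_eq_zero]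
    refine De_inj (e := N + d) ?_ ?_
    · refine IsHomogeneous.sub ?_ (IsHomogeneous.sum _ _ _ fun i _ => ?_)
      · exact (hd5 k K M 0 N _ ((hren _).trans hN1)).1.mul (hEqs.hom j)
      · exact (hd5 k K M 0 N _ ((hren _).trans (hN2 j i))).1.mul (hEqs.hom _)
    · rw [map_sub, map_mul, De_hom, map_sum, sub_eq_zero, hgg,
        ← Finset.mul_prod_erase Finset.univ g (Finset.mem_univ j)]
      have h1 : ∀ i, De (hom 0 N (rename Fin.succ (A' j i)) * F (ε (Sum.inl i))) =
          (∏ j' ∈ Finset.univ.erase j, g j') * (A j i * P i) := by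
        intro i
        rw [map_mul, De_hom, hJ, hA', mul_assoc]
      rw [Finset.sum_congr rfl fun i _ => h1 i, ← Finset.mul_sum, hA]
      ring
  refine ⟨Fintype.card ι, r, d,
    { F := F
      hom := hEqs.hom
      I₀ := fun l => (I l).succ
      J₀ := fun i => ε (Sum.inl i)
      g := hom 0 N (rename Fin.succ gg)
      A := fun j i => hom 0 N (rename Fin.succ (A' j i))
      rel := hrel }, hM, hEqs, ?_, fun l => Fin.succ_ne_zero _, ?_, ?_⟩
  · intro a b hab
    exact hI (Fin.succ_injective _ hab)
  · change aeval y (hom 0 N (rename Fin.succ gg)) ≠ 0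
    rw [← aeval_De y hy0, De_hom, hgg, map_prod]
    exact Finset.prod_ne_zero_iff.2 fun j _ => hg j
  · change (Matrix.of fun i l => aeval y (pderiv (I l).succ (F (ε (Sum.inl i))))).det ≠ 0
    convert hPdet using 2
    ext i l
    rw [Matrix.of_apply, Matrix.of_apply, ← aeval_De y hy0, De_pderiv, hJ]

end Pool.Agent.Lib.MP_410da7_agA
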