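import Pool.Agent.Lib.MP_410da7_agA.SpecD

/-!
# MP_410da7_ag, smooth affine varieties (C46), D8: complementary minors
-/

set_option autoImplicit false

namespace Pool.Agent.Lib.MP_410da7_agA

open Matrix

theorem d8 : D8Stmt := by
  intro K _ p q m A B hAB e e'
  set G : Matrix (Fin p ⊕ Fin q) (Fin m) K :=
    Matrix.of (Sum.elim (fun a => A a) (fun b l => if l = e (Sum.inr b) then 1 else 0)) with hG
  set Z : Matrix (Fin m) (Fin p ⊕ Fin q) K :=
    Matrix.of (fun l => Sum.elim (fun a => if l = e' (Sum.inl a) then 1 else 0)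
      (fun b => B b l)) with hZ
  have h1 : G * Z = Matrix.fromBlocks (A.submatrix id (e' ∘ Sum.inl)) 0
      (Matrix.of fun b a => if e' (Sum.inl a) = e (Sum.inr b) then 1 else 0)
      (B.submatrix id (e ∘ Sum.inr))ᵀ := by
    ext i j
    rcases i with a | b <;> rcases j with a' | b'
    · simp [hG, hZ, Matrix.mul_apply]
    · have := congrFun (congrFun hAB a) b'
      simpa [hG, hZ, Matrix.mul_apply] using this
    · simp [hG, hZ, Matrix.mul_apply]
    · simp [hG, hZ, Matrix.mul_apply]
  have h2 : G.submatrix id e = Matrix.fromBlocks (A.submatrix id (e ∘ Sum.inl))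
      (A.submatrix id (e ∘ Sum.inr)) 0 1 := by
    ext i j
    rcases i with a | b <;> rcases j with a' | b' <;>
      simp [hG, Matrix.one_apply, eq_comm]
  have h3 : Z.submatrix e' id = Matrix.fromBlocks 1 (Matrix.of fun a b => B b (e' (Sum.inl a)))
      0 (B.submatrix id (e' ∘ Sum.inr))ᵀ := by
    ext i j
    rcases i with a | b <;> rcases j with a' | b' <;>
      simp [hZ, Matrix.one_apply]
  have h4 : G * Z = G.submatrix id e * Z.submatrix e id := by
    rw [Matrix.submatrix_mul_equiv]
    simp
  have h5 : Z.submatrix e id = (Z.submatrix e' id).submatrix (e.trans e'.symm) id := by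
    ext i j
    simp
  have h6 : (G * Z).det = (A.submatrix id (e' ∘ Sum.inl)).det * (B.submatrix id (e ∘ Sum.inr)).det := by
    rw [h1, Matrix.det_fromBlocks_zero₁₂, Matrix.det_transpose]
  have h7 : (G.submatrix id e).det = (A.submatrix id (e ∘ Sum.inl)).det := by
    rw [h2, Matrix.det_fromBlocks_zero₂₁, Matrix.det_one, mul_one]
  have h8 : (Z.submatrix e' id).det = (B.submatrix id (e' ∘ Sum.inr)).det := by
    rw [h3, Matrix.det_fromBlocks_zero₂₁, Matrix.det_one, one_mul, Matrix.det_transpose]
  have h9 : (Z.submatrix e id).det =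
      (Equiv.Perm.sign (e.trans e'.symm) : K) * (Z.submatrix e' id).det := by
    rw [h5]
    exact Matrix.det_permute (e.trans e'.symm) (Z.submatrix e' id)
  rw [← h6, h4, Matrix.det_mul, h7, h9, h8]
  rcases Int.units_eq_one_or (Equiv.Perm.sign (e.trans e'.symm)) with hs | hs <;> rw [hs]
  · left
    simp
  · right
    simp

end Pool.Agent.Lib.MP_410da7_agA
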