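import Pool.Agent.Lib.MP_410da7_agA.SpecD
import Pool.Agent.Lib.MP_410da7_ag.Kaehler

/-!
# MP_410da7_ag, smooth affine varieties (C46), D9: the forms on the cone and the minors of the
Jacobian matrix
-/

set_option autoImplicit false

namespace Pool.Agent.Lib.MP_410da7_agA

open MvPolynomial KaehlerDifferential Module WithZero

namespace d9Aux

theorem D_aeval {K : Type} [Field K] [Algebra ℂ K] {ι : Type} [Fintype ι] (y : ι → K)
    (P : MvPolynomial ι ℂ) : D ℂ K (aeval y P) = ∑ i, aeval y (pderiv i P) • D ℂ K (y i) := by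
  classical
  induction P using MvPolynomial.induction_on with
  | C a =>
    rw [aeval_C, Derivation.map_algebraMap]
    simp
  | add p q hp hq =>
    rw [map_add, map_add, hp, hq, ← Finset.sum_add_distrib]
    exact Finset.sum_congr rfl fun i _ => by rw [map_add, map_add, add_smul]
  | mul_X p i hp =>
    rw [map_mul, Derivation.leibniz, hp, aeval_X, Finset.smul_sum]
    have : ∀ l, aeval y (pderiv l (p * X i)) = aeval y p * (if i = l then 1 else 0) +
        y i * aeval y (pderiv l p) := by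
      intro l
      simp only [Derivation.leibniz, smul_eq_mul, map_add, map_mul, aeval_X, pderiv_X,
        Pi.single_apply]
      split_ifs with h
      · simp
      · simp
    simp only [this, add_smul, Finset.sum_add_distrib, smul_smul]
    congr 1
    rw [Finset.sum_eq_single i]
    · simp
    · intro b _ hb; simp [Ne.symm hb]
    · simp

theorem exists_basis {K : Type} [Field K] [Algebra ℂ K] {n : ℕ} (hn : Algebra.trdeg ℂ K = n) :
    Nonempty (Basis (Fin n) K Ω[K⁄ℂ]) := by
  obtain ⟨s, hs⟩ := exists_isTranscendenceBasis ℂ K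
  have hscard := hs.cardinalMk_eq_trdeg
  rw [hn] at hscard
  have : Finite s := by
    rw [← Cardinal.lt_aleph0_iff_finite, hscard]
    exact Cardinal.natCast_lt_aleph0
  have : Fintype s := Fintype.ofFinite s
  have hc : Fintype.card s = n := by
    rw [Cardinal.mk_fintype] at hscard
    exact_mod_cast hscard
  obtain ⟨b, -⟩ := Pool.Agent.Lib.MP_410da7_ag.exists_kaehlerBasis _ hs
  exact ⟨b.reindex (Fintype.equivFinOfCardEq hc)⟩

/-- `coneDet` as a determinant. -/
theorem coneDet_eq {K : Type} [Field K] [Algebra ℂ K] {n M : ℕ} (b : Basis (Fin n) K Ω[K⁄ℂ])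
    (Ψ : Ω[K⁄ℂ] [⋀^Fin n]→ₗ[K] K) (Y : Fin (M + 1) → K) (S : Fin (n + 1) → Fin (M + 1)) :
    coneDet Ψ Y S = Ψ b * ((Matrix.of (Fin.cons Y fun a l => b.repr (D ℂ K (Y l)) a) :
      Matrix (Fin (n + 1)) (Fin (M + 1)) K).submatrix id S).det := by
  unfold coneDet
  rw [Matrix.det_succ_row_zero, Finset.mul_sum]
  refine Finset.sum_congr rfl fun i _ => ?_
  have h1 : Ψ (fun a => D ℂ K (Y (S (i.succAbove a)))) =
      Ψ b * b.det (fun a => D ℂ K (Y (S (i.succAbove a)))) := by
    conv_lhs => rw [Ψ.eq_smul_basis_det b]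
    rfl
  rw [h1, Basis.det_apply]
  have h2 : b.toMatrix (fun a => D ℂ K (Y (S (i.succAbove a)))) =
      (((Matrix.of (Fin.cons Y fun a l => b.repr (D ℂ K (Y l)) a) :
      Matrix (Fin (n + 1)) (Fin (M + 1)) K).submatrix id S).submatrix Fin.succ i.succAbove) := by
    ext a a'
    simp [Basis.toMatrix_apply]
  have h3 : ((Matrix.of (Fin.cons Y fun a l => b.repr (D ℂ K (Y l)) a) :
      Matrix (Fin (n + 1)) (Fin (M + 1)) K).submatrix id S) 0 i = Y (S i) := by
    simp
  rw [h2, h3]
  ring

end d9Aux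

theorem d9 (hd8 : D8Stmt) : D9Stmt := by
  intro K _ _ n M r κ d htr _ hM Ψ F Y hhom hzero J e e' v
  obtain ⟨b⟩ := d9Aux.exists_basis htr
  set A : Matrix (Fin (n + 1)) (Fin (M + 1)) K :=
    Matrix.of (Fin.cons Y fun a l => b.repr (D ℂ K (Y l)) a) with hA
  set B : Matrix (Fin r) (Fin (M + 1)) K :=
    Matrix.of fun i l => aeval Y (pderiv l (F (J i))) with hB
  have hAB : A * B.transpose = 0 := by
    ext i j
    rw [Matrix.mul_apply]
    refine Fin.cases ?_ (fun a => ?_) i
    · have h1 := congrArg (aeval Y) (hhom (J j)).sum_X_mul_pderiv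
      rw [map_nsmul, hzero, smul_zero, map_sum] at h1
      simpa [hA, hB] using h1
    · have h1 := d9Aux.D_aeval Y (F (J j))
      rw [hzero, map_zero] at h1
      have h2 := congrArg (fun ω => b.repr ω a) h1
      simp only [map_zero, map_sum, map_smul, Finsupp.coe_finsetSum, Finset.sum_apply,
        Finsupp.coe_smul, Pi.smul_apply, smul_eq_mul, Finsupp.coe_zero, Pi.zero_apply] at h2
      simp only [hA, hB, Matrix.of_apply, Fin.cons_succ, Matrix.transpose_apply, Matrix.zero_apply]
      rw [h2]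
      exact Finset.sum_congr rfl fun l _ => mul_comm _ _
  have hmin : ∀ e : Fin (n + 1) ⊕ Fin r ≃ Fin (M + 1),
      minor F (e ∘ Sum.inr) Y J = (B.submatrix id (e ∘ Sum.inr)).det := fun _ => rfl
  have hcone : ∀ e : Fin (n + 1) ⊕ Fin r ≃ Fin (M + 1),
      coneDet Ψ Y (e ∘ Sum.inl) = Ψ b * (A.submatrix id (e ∘ Sum.inl)).det :=
    fun e => d9Aux.coneDet_eq b Ψ Y _
  have hv : v (A.submatrix id (e ∘ Sum.inl)).det * v (B.submatrix id (e' ∘ Sum.inr)).det =
      v (A.submatrix id (e' ∘ Sum.inl)).det * v (B.submatrix id (e ∘ Sum.inr)).det := by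
    rw [← map_mul, ← map_mul]
    rcases hd8 K (n + 1) r (M + 1) A B hAB e e' with h | h
    · rw [h]
    · rw [h, Valuation.map_neg]
  rw [hmin, hmin, hcone, hcone, map_mul v (Ψ b), map_mul v (Ψ b), mul_assoc, mul_assoc, hv]

end Pool.Agent.Lib.MP_410da7_agA
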