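import Pool.Agent.Lib.MP_410da7_agA.SpecE

/-!
# MP_410da7_ag, C46: E1, finite residue fields of finitely generated domains (helper82)
-/

set_option autoImplicit false

namespace Pool.Agent.Lib.MP_410da7_agA

namespace e1Aux

lemma int_isJacobsonRing : IsJacobsonRing ℤ := by
  rw [isJacobsonRing_iff_prime_eq]
  intro P hP
  by_cases hbot : P = ⊥
  · subst hbot
    rw [eq_bot_iff]
    intro x hx
    by_contra hne
    have hx0 : x ≠ 0 := fun h => hne (by rw [h]; exact Submodule.zero_mem _)
    obtain ⟨p, hp, hpp⟩ := Nat.exists_infinite_primes (x.natAbs + 1)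
    have hmax : (Ideal.span {(p : ℤ)}).IsMaximal := by
      have hprime : (Ideal.span {(p : ℤ)}).IsPrime := by
        rw [Ideal.span_singleton_prime (by exact_mod_cast hpp.ne_zero)]
        exact Nat.prime_iff_prime_int.mp hpp
      exact hprime.isMaximal (by
        rw [Ne, Ideal.span_singleton_eq_bot]
        exact_mod_cast hpp.ne_zero)
    have := Ideal.mem_sInf.mp hx (I := Ideal.span {(p : ℤ)}) ⟨bot_le, hmax⟩
    rw [Ideal.mem_span_singleton] at this
    have h2 : p ∣ x.natAbs := Int.natCast_dvd.mp this
    have := Nat.le_of_dvd (Int.natAbs_pos.mpr hx0) h2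
    omega
  · have := hP.isMaximal hbot
    exact Ideal.jacobson_eq_self_of_isMaximal

/-- A field which is finitely generated as a ring is finite. -/
lemma finite_field_of_finiteType (K : Type*) [Field K] [Algebra.FiniteType ℤ K] : Finite K := by
  have := int_isJacobsonRing
  have hfin : Module.Finite ℤ K := finite_of_finite_type_of_isJacobsonRing ℤ K
  obtain ⟨q, hq⟩ := CharP.exists K
  have hq0 : q ≠ 0 := by
    rintro rfl
    have : CharZero K := CharP.charP_to_charZero K
    have hint : Algebra.IsIntegral ℤ K := inferInstance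
    have hinj : Function.Injective (algebraMap ℤ K) := by
      rw [algebraMap_int_eq]
      exact Int.cast_injective
    have hfield : IsField ℤ := isField_of_isIntegral_of_isField hinj (Field.toIsField K)
    obtain ⟨b, hb⟩ := hfield.mul_inv_cancel (a := 2) (by norm_num)
    omega
  have hqp : q.Prime := (CharP.char_is_prime_or_zero K q).resolve_right hq0
  have : Fact q.Prime := ⟨hqp⟩
  let _ : Algebra (ZMod q) K := ZMod.algebra K q
  have : Module.Finite (ZMod q) K := by
    obtain ⟨s, hs⟩ := hfin.fg_top
    refine ⟨s, ?_⟩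
    rw [eq_top_iff]
    intro x _
    have hx : x ∈ Submodule.span ℤ (s : Set K) := by rw [hs]; trivial
    refine Submodule.span_induction (p := fun x _ => x ∈ Submodule.span (ZMod q) (s : Set K))
      (fun x hx => Submodule.subset_span hx) (Submodule.zero_mem _)
      (fun x y _ _ hx hy => Submodule.add_mem _ hx hy) (fun a x _ hx => ?_) hx
    rw [← Int.cast_smul_eq_zsmul (ZMod q)]
    exact Submodule.smul_mem _ _ hx
  exact Module.finite_of_finite (ZMod q)

end e1Aux

theorem e1 : E1Stmt := by
  intro A _ _ hA a ha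
  have := e1Aux.int_isJacobsonRing
  have hJ : IsJacobsonRing A := isJacobsonRing_of_finiteType (A := ℤ)
  have hbot : (⊥ : Ideal A).jacobson = ⊥ := by
    apply hJ.out
    exact (Ideal.isPrime_bot).isRadical
  have h1 : a ∉ (⊥ : Ideal A).jacobson := by
    rw [hbot]
    exact ha
  obtain ⟨m, ⟨_, hm⟩, ham⟩ : ∃ m : Ideal A, ((⊥ : Ideal A) ≤ m ∧ m.IsMaximal) ∧ a ∉ m := by
    by_contra hcon
    push Not at hcon
    exact h1 (Ideal.mem_sInf.mpr fun {m} hm => hcon m hm)
  refine ⟨m, hm, ?_, ham⟩
  let _ : Field (A ⧸ m) := Ideal.Quotient.field m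
  have hft : @Algebra.FiniteType ℤ (A ⧸ m) _ _ (Ring.toIntAlgebra _) :=
    Algebra.FiniteType.of_surjective (Ideal.Quotient.mk m).toIntAlgHom
      Ideal.Quotient.mk_surjective
  exact e1Aux.finite_field_of_finiteType (A ⧸ m)

end Pool.Agent.Lib.MP_410da7_agA
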