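import Pool.Agent.Lib.MP_410da7_agA.SpecE

/-!
# MP_410da7_ag, C46: E2, lying over for `A[z]` in `O` (helper82)
-/

set_option autoImplicit false

namespace Pool.Agent.Lib.MP_410da7_agA

open Polynomial

theorem e2 : E2Stmt := by
  intro L Λ _ _ _ z hz A O hA hzO hint 𝔪 h𝔪
  -- the ring homomorphism
  obtain ⟨ρ, hρ⟩ : ∃ ρ : A →+* O, ∀ a : A, ((ρ a : O) : Λ) = algebraMap L Λ a :=
    ⟨((algebraMap L Λ).comp A.subtype).codRestrict O (fun a => hA a a.2), fun a => rfl⟩
  obtain ⟨ψ, hψ⟩ : ∃ ψ : A[X] →+* O, ∀ P : A[X],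
      ((ψ P : O) : Λ) = P.eval₂ ((algebraMap L Λ).comp A.subtype) z := by
    refine ⟨eval₂RingHom ρ ⟨z, hzO⟩, fun P => ?_⟩
    have h1 : O.subtype.comp ρ = (algebraMap L Λ).comp A.subtype := by
      ext a
      exact hρ a
    have h2 := hom_eval₂ P ρ O.subtype ⟨z, hzO⟩
    rw [h1] at h2
    exact h2
  have hψ2 : (O.subtype.comp ψ) = eval₂RingHom ((algebraMap L Λ).comp A.subtype) z := by
    ext P
    · rw [RingHom.comp_apply, RingHom.comp_apply]
      exact hψ _
    · rw [RingHom.comp_apply]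
      exact hψ _
  have hinj : Function.Injective ψ := by
    rw [injective_iff_map_eq_zero]
    intro P hP
    have h1 : P.eval₂ ((algebraMap L Λ).comp A.subtype) z = 0 := by
      rw [← hψ, hP]
      rfl
    have h2 : aeval z (P.map A.subtype) = 0 := by
      rw [aeval_def, eval₂_map]
      exact h1
    have h3 : P.map A.subtype = 0 := by
      by_contra hne
      exact hz ⟨_, hne, h2⟩
    exact (map_injective A.subtype Subtype.val_injective) (by rw [h3, Polynomial.map_zero])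
  let _ : Algebra A[X] O := ψ.toAlgebra
  have hI : Algebra.IsIntegral A[X] O := by
    refine ⟨fun y => ?_⟩
    obtain ⟨G, hG, hG0⟩ := hint y y.2
    refine ⟨G, hG, ?_⟩
    apply Subtype.val_injective
    have h2 := hom_eval₂ G ψ O.subtype y
    rw [hψ2] at h2
    exact h2.trans hG0
  have hprime : (Ideal.map (C : A →+* A[X]) 𝔪).IsPrime := Ideal.isPrime_map_C_of_isPrime
  obtain ⟨𝔮, h𝔮, h⟩ := Ideal.exists_ideal_over_prime_of_isIntegral_of_isDomain (S := O)
    (Ideal.map (C : A →+* A[X]) 𝔪) (by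
      have : RingHom.ker (algebraMap A[X] O) = ⊥ := (RingHom.injective_iff_ker_eq_bot _).1 hinj
      rw [this]
      exact bot_le)
  refine ⟨𝔮, h𝔮, fun P y hy => ?_⟩
  have h1 : y = ψ P := by
    apply Subtype.val_injective
    rw [hψ]
    exact hy
  rw [h1]
  have h2 : P ∈ Ideal.comap (algebraMap A[X] O) 𝔮 ↔ P ∈ Ideal.map (C : A →+* A[X]) 𝔪 := by
    rw [h]
  rw [Ideal.mem_map_C_iff] at h2
  exact h2

end Pool.Agent.Lib.MP_410da7_agA
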