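import Pool.Agent.Lib.MP_410da7_agA.SpecE

/-!
# MP_410da7_ag (C46), block E, E3: the fields `k` and `Λ'`
-/

set_option autoImplicit false

namespace Pool.Agent.Lib.MP_410da7_agA

open MvPolynomial Module

namespace e3Aux

section

variable (F R : Type) [Field F] [CommRing R] [IsDomain R] [Algebra F R]

/-- the big field -/
abbrev Om : Type := AlgebraicClosure (FractionRing R)

/-- the field of constants -/
noncomputable abbrev kk : IntermediateField F (Om R) := algebraicClosure F (Om R)

instance isAlgClosed_kk : IsAlgClosed (kk F R) :=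
  (algebraicClosure.isAlgClosure F (Om R)).isAlgClosed

/-- the field `Λ'` -/
noncomputable abbrev LL : IntermediateField (kk F R) (Om R) :=
  IntermediateField.adjoin (kk F R) (Set.range (algebraMap R (Om R)))

/-- the embedding -/
noncomputable def jj : R →+* LL F R :=
  (algebraMap R (Om R)).codRestrict (LL F R).toSubring (fun r => by
    show algebraMap R (Om R) r ∈ LL F R
    exact IntermediateField.subset_adjoin _ _ ⟨r, rfl⟩)

theorem jj_coe (r : R) : ((jj F R r : LL F R) : Om R) = algebraMap R (Om R) r := rfl

theorem inj_Om : Function.Injective (algebraMap R (Om R)) := by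
  have h : algebraMap R (Om R) =
      (algebraMap (FractionRing R) (Om R)).comp (algebraMap R (FractionRing R)) :=
    IsScalarTower.algebraMap_eq R (FractionRing R) (Om R)
  rw [h]
  exact (algebraMap (FractionRing R) (Om R)).injective.comp (IsFractionRing.injective R _)

theorem jj_inj : Function.Injective (jj F R) := by
  intro a b h
  apply inj_Om R
  rw [← jj_coe F R, ← jj_coe F R, h]

theorem jj_alg (a : F) :
    jj F R (algebraMap F R a) = algebraMap (kk F R) (LL F R) (algebraMap F (kk F R) a) := by
  apply Subtype.ext
  rw [jj_coe]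
  show algebraMap R (Om R) (algebraMap F R a) = algebraMap F (Om R) a
  exact (IsScalarTower.algebraMap_apply F R (Om R) a).symm

theorem jj_trans (z : R) (hz : Transcendental F z) :
    Transcendental (kk F R) (jj F R z) := by
  intro h
  apply hz
  have h1 : IsAlgebraic (kk F R) (algebraMap R (Om R) z) := by
    have := h.algebraMap (A := Om R)
    exact this
  have h2 : IsAlgebraic F (algebraMap R (Om R) z) := h1.restrictScalars F
  exact (isAlgebraic_algebraMap_iff (inj_Om R)).1 h2

theorem mem_K1 (z : R) (y : R) (hy : y ∈ Algebra.adjoin F {z}) :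
    jj F R y ∈ IntermediateField.adjoin (kk F R) {jj F R z} := by
  induction hy using Algebra.adjoin_induction with
  | mem x hx =>
    rw [Set.mem_singleton_iff] at hx
    rw [hx]
    exact IntermediateField.mem_adjoin_simple_self _ _
  | algebraMap r =>
    rw [jj_alg]
    exact IntermediateField.algebraMap_mem _ _
  | add x y hx hy h1 h2 =>
    rw [map_add]
    exact add_mem h1 h2
  | mul x y hx hy h1 h2 =>
    rw [map_mul]
    exact mul_mem h1 h2

theorem int_K1 (z : R) (y : R) (hy : IsIntegral (Algebra.adjoin F {z}) y) :
    IsIntegral (IntermediateField.adjoin (kk F R) {jj F R z}) (jj F R y) := by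
  let φ : Algebra.adjoin F {z} →+* IntermediateField.adjoin (kk F R) {jj F R z} :=
    ((jj F R).comp (algebraMap (Algebra.adjoin F {z}) R)).codRestrict
      (IntermediateField.adjoin (kk F R) {jj F R z}).toSubring
      (fun a => mem_K1 F R z a.1 a.2)
  exact IsIntegral.map_of_comp_eq φ (jj F R) (by ext a; rfl) hy

theorem gen_top (z : R) (T : Set R) (hT : Algebra.adjoin F T = ⊤) :
    IntermediateField.adjoin (IntermediateField.adjoin (kk F R) {jj F R z})
      ((jj F R) '' T) = ⊤ := by
  set M' := IntermediateField.adjoin (IntermediateField.adjoin (kk F R) {jj F R z})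
      ((jj F R) '' T) with hM'
  have hk : ∀ c : kk F R, algebraMap (kk F R) (LL F R) c ∈ M' := by
    intro c
    have : algebraMap (kk F R) (LL F R) c =
        algebraMap (IntermediateField.adjoin (kk F R) {jj F R z}) (LL F R)
          (algebraMap (kk F R) _ c) := rfl
    rw [this]
    exact M'.algebraMap_mem _
  have hR : ∀ r : R, jj F R r ∈ M' := by
    intro r
    have hr : r ∈ Algebra.adjoin F T := by rw [hT]; trivial
    induction hr using Algebra.adjoin_induction with
    | mem x hx => exact IntermediateField.subset_adjoin _ _ ⟨x, hx, rfl⟩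
    | algebraMap r =>
      rw [jj_alg]
      exact hk _
    | add x y hx hy h1 h2 =>
      rw [map_add]
      exact add_mem h1 h2
    | mul x y hx hy h1 h2 =>
      rw [map_mul]
      exact mul_mem h1 h2
  rw [eq_top_iff]
  rintro ⟨x, hx⟩ -
  induction hx using IntermediateField.adjoin_induction with
  | mem x hx =>
    obtain ⟨r, rfl⟩ := hx
    exact hR r
  | algebraMap c => exact hk c
  | add x y hx hy h1 h2 => exact add_mem h1 h2
  | inv x hx h1 => exact inv_mem h1
  | mul x y hx hy h1 h2 => exact mul_mem h1 h2

theorem fin_dim (z : R) (hfg : Algebra.FiniteType F R)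
    (hint : ∀ y : R, IsIntegral (Algebra.adjoin F {z}) y) :
    FiniteDimensional (IntermediateField.adjoin (kk F R) {jj F R z}) (LL F R) := by
  obtain ⟨T, hT⟩ := hfg.out
  have h1 : FiniteDimensional (IntermediateField.adjoin (kk F R) {jj F R z})
      (IntermediateField.adjoin (IntermediateField.adjoin (kk F R) {jj F R z})
      ((jj F R) '' (T : Set R))) := by
    have : Finite ((jj F R) '' (T : Set R)) := (T.finite_toSet.image _).to_subtype
    apply IntermediateField.finiteDimensional_adjoin
    rintro x ⟨t, ht, rfl⟩
    exact int_K1 F R z t (hint t)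
  rw [gen_top F R z T hT] at h1
  exact Module.Finite.equiv (IntermediateField.topEquiv (F := IntermediateField.adjoin (kk F R)
    {jj F R z}) (E := LL F R)).toLinearEquiv

end

end e3Aux

open e3Aux in
/-- E3. The fields `k` and `Λ'`. -/
theorem e3 : E3Stmt := by
  intro F R _ _ _ _ _ z hz hfg hint
  have : Fintype F := Fintype.ofFinite F
  obtain ⟨p, hp⟩ := CharP.exists F
  obtain ⟨n, hprime, hcard⟩ := FiniteField.card F p
  have : CharP (kk F R) p := charP_of_injective_algebraMap (algebraMap F (kk F R)).injective p
  refine ⟨p, n, ⟨hprime⟩, kk F R, LL F R, inferInstance, inferInstance, inferInstance,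
    inferInstance, inferInstance, algebraMap F (kk F R), jj F R, n.pos, ?_, jj_alg F R,
    jj_inj F R, jj_trans F R z hz, fin_dim F R z hfg hint⟩
  intro a
  rw [← hcard]
  exact FiniteField.pow_card a

end Pool.Agent.Lib.MP_410da7_agA
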