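import Pool.Agent.Lib.MP_410da7_agA.SpecE

/-!
# MP_410da7_ag, C46: E4, the specialization lemma (helper82)
-/

set_option autoImplicit false

namespace Pool.Agent.Lib.MP_410da7_agA

open Polynomial IntermediateField

namespace e4Aux

/-! ### Integral equations with nonzero constant coefficient -/

lemma monic_ne {R S : Type*} [CommRing R] [CommRing S] [IsDomain S] (φ : R →+* S) (y : S)
    (hy : y ≠ 0) : ∀ (n : ℕ) (G : R[X]), G.Monic → G.natDegree = n → G.eval₂ φ y = 0 →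
      ∃ G' : R[X], G'.Monic ∧ G'.coeff 0 ≠ 0 ∧ G'.eval₂ φ y = 0 := by
  intro n
  induction n with
  | zero =>
    intro G hG hn h0
    rw [hG.natDegree_eq_zero.1 hn, eval₂_one] at h0
    exact absurd h0 one_ne_zero
  | succ n ih =>
    intro G hG hn h0
    by_cases hc : G.coeff 0 = 0
    · have h1 : divX G * X = G := by
        have := divX_mul_X_add G
        rwa [hc, C_0, add_zero] at this
      have h2 : (divX G).Monic := by
        apply Monic.of_mul_monic_right monic_X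
        rw [h1]
        exact hG
      have h3 : (divX G).natDegree = n := by
        rw [natDegree_divX_eq_natDegree_tsub_one, hn]
        rfl
      have h4 : (divX G).eval₂ φ y = 0 := by
        rw [← h1, eval₂_mul, eval₂_X] at h0
        exact (mul_eq_zero.1 h0).resolve_right hy
      exact ih _ h2 h3 h4
    · exact ⟨G, hG, hc, h0⟩

lemma elt {L Λ : Type} [Field L] [Field Λ] [Algebra L Λ] (z : Λ) (hz : Transcendental L z)
    [FiniteDimensional (IntermediateField.adjoin L {z}) Λ] (y : Λ) (hy : y ≠ 0) :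
    ∃ (h : L[X]) (G : L[X][X]), h ≠ 0 ∧ G.Monic ∧ G.coeff 0 ≠ 0 ∧
      G.eval₂ (eval₂RingHom (algebraMap L Λ) z) (h.eval₂ (algebraMap L Λ) z * y) = 0 := by
  let _ : Algebra L[X] Λ := (eval₂RingHom (algebraMap L Λ) z).toAlgebra
  have hmap : ∀ P : L[X], algebraMap L[X] Λ P = P.eval₂ (algebraMap L Λ) z := fun P => rfl
  have h1 : IsAlgebraic (IntermediateField.adjoin L {z}) y := Algebra.IsAlgebraic.isAlgebraic y
  have h2 : IsAlgebraic (Algebra.adjoin L {z}) y := by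
    open scoped algebraAdjoinAdjoin in
    exact (IsFractionRing.isAlgebraic_iff (Algebra.adjoin L {z})
      (IntermediateField.adjoin L {z}) Λ).2 h1
  have h3 : IsAlgebraic L[X] y := by
    obtain ⟨p, hp, hpy⟩ := h2
    have hsurj : ∀ b : Algebra.adjoin L {z}, ∃ P : L[X], aeval z P = (b : Λ) := by
      rintro ⟨b, hb⟩
      rw [Algebra.adjoin_singleton_eq_range_aeval] at hb
      exact hb
    obtain ⟨f, hf⟩ : ∃ f : L[X] →+* Algebra.adjoin L {z}, ∀ P, ((f P : Algebra.adjoin L {z}) : Λ) =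
        P.eval₂ (algebraMap L Λ) z := by
      refine ⟨((aeval (R := L) (⟨z, Algebra.subset_adjoin rfl⟩ :
        Algebra.adjoin L {z})).toRingHom), fun P => ?_⟩
      have := (aeval_algebraMap_apply (R := L) Λ (⟨z, Algebra.subset_adjoin rfl⟩ :
        Algebra.adjoin L {z}) P)
      exact this.symm
    have hfs : Function.Surjective f := by
      intro b
      obtain ⟨P, hP⟩ := hsurj b
      refine ⟨P, Subtype.val_injective ?_⟩
      rw [hf, ← hP]
      rfl
    obtain ⟨q, hq⟩ := (mem_lifts p).1 (mem_lifts_of_surjective hfs p)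
    refine ⟨q, ?_, ?_⟩
    · rintro rfl
      rw [Polynomial.map_zero] at hq
      exact hp hq.symm
    · have h4 : aeval y q = q.eval₂ ((algebraMap (Algebra.adjoin L {z}) Λ).comp f) y := by
        rw [aeval_def]
        congr 1
        ext P
        · exact (hf _).symm
        · exact (hf _).symm
      rw [h4, ← eval₂_map, hq]
      exact hpy
  obtain ⟨h, hh, hint⟩ := h3.exists_integral_multiple
  obtain ⟨G, hG, hG0⟩ := hint
  have hhz : h.eval₂ (algebraMap L Λ) z ≠ 0 := by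
    intro h0
    exact hz ⟨h, hh, h0⟩
  have h5 : (h • y : Λ) = h.eval₂ (algebraMap L Λ) z * y := by
    rw [Algebra.smul_def, hmap]
  rw [h5] at hG0
  obtain ⟨G', h6, h7, h8⟩ := monic_ne (algebraMap L[X] Λ) _ (mul_ne_zero hhz hy) _ G hG rfl hG0
  exact ⟨h, G', hh, h6, h7, h8⟩

/-! ### Extension to the local ring -/

lemma ext_hom {Λ Λ' : Type} [Field Λ] [Field Λ'] (O₀ : Subring Λ) (γ : O₀ →+* Λ') :
    ∃ (O : Subring Λ) (π : O →+* Λ'), (∀ (y : Λ) (hy : y ∈ O₀), ∃ h : y ∈ O, π ⟨y, h⟩ = γ ⟨y, hy⟩) ∧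
      ∀ (y : Λ) (hy : y ∈ O), π ⟨y, hy⟩ ≠ 0 → y⁻¹ ∈ O := by
  obtain ⟨M, hM⟩ : ∃ M : Submonoid O₀, ∀ t : O₀, t ∈ M ↔ γ t ≠ 0 :=
    ⟨(nonZeroDivisors Λ').comap γ, fun t => mem_nonZeroDivisors_iff_ne_zero⟩
  have hg : ∀ t : M, IsUnit (γ t) := fun t => isUnit_iff_ne_zero.2 ((hM _).1 t.2)
  have hf : ∀ t : M, IsUnit (O₀.subtype t) := by
    intro t
    rw [isUnit_iff_ne_zero]
    intro h0
    have h1 : (t : O₀) = 0 := Subtype.val_injective h0
    have h2 := (hM _).1 t.2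
    rw [h1, map_zero] at h2
    exact h2 rfl
  have hMn : M ≤ nonZeroDivisors O₀ := by
    intro t ht
    rw [mem_nonZeroDivisors_iff_ne_zero]
    rintro rfl
    have h2 := (hM _).1 ht
    rw [map_zero] at h2
    exact h2 rfl
  obtain ⟨g, hgdef⟩ : ∃ g : Localization M →+* Λ', ∀ y, g (algebraMap O₀ (Localization M) y) = γ y :=
    ⟨IsLocalization.lift (M := M) hg, fun y => IsLocalization.lift_eq hg y⟩
  obtain ⟨f, hfdef, hinj⟩ : ∃ f : Localization M →+* Λ,
      (∀ y, f (algebraMap O₀ (Localization M) y) = y) ∧ Function.Injective f := by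
    refine ⟨IsLocalization.lift (M := M) hf, fun y => IsLocalization.lift_eq hf y, ?_⟩
    rw [IsLocalization.lift_injective_iff]
    intro x y
    constructor
    · intro h
      rw [IsLocalization.injective (Localization M) hMn h]
    · intro h
      rw [Subtype.val_injective h]
  have hbij : Function.Bijective f.rangeRestrict :=
    ⟨fun x y h => hinj (congrArg Subtype.val h), f.rangeRestrict_surjective⟩
  obtain ⟨π, hπ⟩ : ∃ π : f.range →+* Λ', ∀ x, π (f.rangeRestrict x) = g x := by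
    refine ⟨g.comp (RingEquiv.ofBijective _ hbij).symm.toRingHom, fun x => ?_⟩
    have h1 : (RingEquiv.ofBijective _ hbij).symm (f.rangeRestrict x) = x :=
      (RingEquiv.ofBijective _ hbij).symm_apply_apply x
    show g ((RingEquiv.ofBijective _ hbij).symm (f.rangeRestrict x)) = g x
    rw [h1]
  refine ⟨f.range, π, fun y hy => ⟨⟨algebraMap O₀ (Localization M) ⟨y, hy⟩, hfdef _⟩, ?_⟩, ?_⟩
  · have h1 := hπ (algebraMap O₀ (Localization M) ⟨y, hy⟩)
    rw [hgdef] at h1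
    rw [← h1]
    congr 1
    apply Subtype.val_injective
    show y = f (algebraMap O₀ (Localization M) ⟨y, hy⟩)
    exact (hfdef ⟨y, hy⟩).symm
  · rintro y ⟨x, rfl⟩ h
    have h0 : g x ≠ 0 := by
      rw [← hπ x]
      exact h
    obtain ⟨a, t, rfl⟩ := IsLocalization.exists_mk'_eq M x
    have h1 := IsLocalization.mk'_spec (Localization M) a t
    have h2 := congrArg g h1
    rw [map_mul, hgdef, hgdef] at h2
    have ha : a ∈ M := by
      rw [hM, ← h2]
      exact mul_ne_zero h0 ((hM _).1 t.2)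
    refine ⟨IsLocalization.mk' (Localization M) (t : O₀) (⟨a, ha⟩ : M), ?_⟩
    have h3 : IsLocalization.mk' (Localization M) a t *
        IsLocalization.mk' (Localization M) (t : O₀) (⟨a, ha⟩ : M) = 1 :=
      IsLocalization.mk'_mul_mk'_eq_one' a t ha
    have h4 := congrArg f h3
    rw [map_mul, map_one] at h4
    exact eq_inv_of_mul_eq_one_right h4

/-! ### The calculus of a specialization -/

section cal

variable {L Λ k Λ' : Type} [Field L] [Field Λ] [Algebra L Λ] [Field k] [Field Λ'] [Algebra k Λ']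
  (s : Spz L Λ k Λ')

lemma c_eq {a : L} (h : a ∈ s.A) : s.c a = s.χ ⟨a, h⟩ := by
  unfold Spz.c
  rw [dif_pos h]

lemma v_eq {y : Λ} (h : y ∈ s.O) : s.v y = s.π ⟨y, h⟩ := by
  unfold Spz.v
  rw [dif_pos h]

lemma c_mul {a b : L} (ha : a ∈ s.A) (hb : b ∈ s.A) : s.c (a * b) = s.c a * s.c b := by
  rw [c_eq s ha, c_eq s hb, c_eq s (mul_mem ha hb), ← map_mul]
  rfl

lemma v_mul {x y : Λ} (hx : x ∈ s.O) (hy : y ∈ s.O) : s.v (x * y) = s.v x * s.v y := by
  rw [v_eq s hx, v_eq s hy, v_eq s (mul_mem hx hy), ← map_mul]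
  rfl

end cal

/-! ### The residue rings -/

/-- The residue rings of `A` and `O₀`. -/
lemma res (h1 : E1Stmt) (h2 : E2Stmt) {L Λ : Type} [Field L] [Field Λ] [Algebra L Λ]
    (z : Λ) (hz : Transcendental L z) (A : Subring L) (hAf : Algebra.FiniteType ℤ A)
    (O₀ : Subring Λ) (hAO : ∀ a ∈ A, algebraMap L Λ a ∈ O₀) (hzO : z ∈ O₀)
    (hint : ∀ y ∈ O₀, ∃ G : A[X][X], G.Monic ∧
      G.eval₂ (eval₂RingHom ((algebraMap L Λ).comp A.subtype) z) y = 0)
    (D : A) (hD : D ≠ 0) :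
    ∃ (F R : Type) (_ : Field F) (_ : Finite F) (_ : CommRing R) (_ : IsDomain R)
      (_ : Algebra F R) (α : A →+* F) (β : O₀ →+* R), Function.Surjective α ∧
      Function.Surjective β ∧ α D ≠ 0 ∧
      (∀ (a : A) (y : O₀), (y : Λ) = algebraMap L Λ a → β y = algebraMap F R (α a)) ∧
      ∀ (P : A[X]) (y : O₀), (y : Λ) = P.eval₂ ((algebraMap L Λ).comp A.subtype) z →
        β y = 0 → ∀ i, α (P.coeff i) = 0 := by
  obtain ⟨𝔪, hm, hfin, hDm⟩ := h1 A hAf D hD
  obtain ⟨𝔮, hq, hq'⟩ := h2 L Λ z hz A O₀ hAO hzO hint 𝔪 hm.isPrime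
  obtain ⟨ρ, hρ⟩ : ∃ ρ : A →+* O₀, ∀ a : A, ((ρ a : O₀) : Λ) = algebraMap L Λ a :=
    ⟨((algebraMap L Λ).comp A.subtype).codRestrict O₀ (fun a => hAO a a.2), fun a => rfl⟩
  have hle : 𝔪 ≤ 𝔮.comap ρ := by
    intro a ha
    rw [Ideal.mem_comap, hq' (C a) (ρ a) (by rw [eval₂_C, hρ]; rfl)]
    intro i
    rw [coeff_C]
    split_ifs
    · exact ha
    · exact zero_mem _
  let _ : Field (A ⧸ 𝔪) := Ideal.Quotient.field 𝔪
  let _ : Algebra (A ⧸ 𝔪) (O₀ ⧸ 𝔮) := (Ideal.quotientMap 𝔮 ρ hle).toAlgebra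
  refine ⟨A ⧸ 𝔪, O₀ ⧸ 𝔮, inferInstance, hfin, inferInstance, inferInstance, inferInstance,
    Ideal.Quotient.mk 𝔪, Ideal.Quotient.mk 𝔮, Ideal.Quotient.mk_surjective,
    Ideal.Quotient.mk_surjective, ?_, ?_, ?_⟩
  · rw [Ne, Ideal.Quotient.eq_zero_iff_mem]
    exact hDm
  · intro a y hy
    have h3 : y = ρ a := by
      apply Subtype.val_injective
      rw [hρ]
      exact hy
    rw [h3]
    exact (Ideal.quotientMap_mk (H := hle)).symm
  · intro P y hy h0 i
    rw [Ideal.Quotient.eq_zero_iff_mem] at h0 ⊢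
    exact (hq' P y hy).1 h0 i

/-- The specialization of `A ⊆ O₀`. -/
lemma core (h1 : E1Stmt) (h2 : E2Stmt) (h3 : E3Stmt) {L Λ : Type} [Field L] [Field Λ]
    [Algebra L Λ] (z : Λ) (hz : Transcendental L z) (A : Subring L)
    (hAf : Algebra.FiniteType ℤ A) (O₀ : Subring Λ) (hOf : Algebra.FiniteType ℤ O₀)
    (hAO : ∀ a ∈ A, algebraMap L Λ a ∈ O₀) (hzO : z ∈ O₀)
    (hint : ∀ y ∈ O₀, ∃ G : A[X][X], G.Monic ∧
      G.eval₂ (eval₂RingHom ((algebraMap L Λ).comp A.subtype) z) y = 0)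
    (D : A) (hD : D ≠ 0) :
    ∃ (p e : ℕ) (_ : Fact p.Prime) (k Λ' : Type) (_ : Field k) (_ : Field Λ') (_ : Algebra k Λ')
      (_ : IsAlgClosed k) (_ : CharP k p) (s : Spz L Λ k Λ'), 0 < e ∧ s.A = A ∧
      (∀ y ∈ O₀, y ∈ s.O) ∧ (∀ y ∈ s.O, s.v y ≠ 0 → y⁻¹ ∈ s.O) ∧
      (∀ a ∈ s.A, s.c a ^ (p ^ e) = s.c a) ∧ s.c D ≠ 0 ∧ Transcendental k (s.v z) ∧
      FiniteDimensional (IntermediateField.adjoin k {s.v z}) Λ' := by
  obtain ⟨F, R, _, _, _, _, _, α, β, hα, hβ, hαD, hαβ, hP⟩ :=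
    res h1 h2 z hz A hAf O₀ hAO hzO hint D hD
  -- evaluation of polynomials
  have heval : ∀ P : A[X], ∃ h : P.eval₂ ((algebraMap L Λ).comp A.subtype) z ∈ O₀,
      β ⟨_, h⟩ = aeval (β ⟨z, hzO⟩) (P.map α) := by
    intro P
    obtain ⟨ρ, hρ⟩ : ∃ ρ : A →+* O₀, ∀ a : A, ((ρ a : O₀) : Λ) = algebraMap L Λ a :=
      ⟨((algebraMap L Λ).comp A.subtype).codRestrict O₀ (fun a => hAO a a.2), fun a => rfl⟩
    have h4 : O₀.subtype.comp ρ = (algebraMap L Λ).comp A.subtype := by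
      ext a
      exact hρ a
    have h5 := hom_eval₂ P ρ O₀.subtype ⟨z, hzO⟩
    rw [h4] at h5
    have h6 : P.eval₂ ((algebraMap L Λ).comp A.subtype) z ∈ O₀ := by
      have h7 : O₀.subtype ⟨z, hzO⟩ = z := rfl
      rw [h7] at h5
      rw [← h5]
      exact (P.eval₂ ρ ⟨z, hzO⟩).2
    refine ⟨h6, ?_⟩
    have h8 : (⟨_, h6⟩ : O₀) = P.eval₂ ρ ⟨z, hzO⟩ := by
      apply Subtype.val_injective
      exact h5.symm
    rw [h8, hom_eval₂, aeval_def, eval₂_map]
    congr 1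
    ext a
    exact hαβ a (ρ a) (hρ a)
  have hzt : Transcendental F (β ⟨z, hzO⟩) := by
    rintro ⟨Q, hQ, hQ0⟩
    obtain ⟨P, rfl⟩ := (mem_lifts Q).1 (mem_lifts_of_surjective hα Q)
    obtain ⟨h4, h5⟩ := heval P
    rw [hQ0] at h5
    apply hQ
    ext i
    rw [coeff_map, coeff_zero]
    exact hP P ⟨_, h4⟩ rfl h5 i
  have hft : Algebra.FiniteType F R := by
    have h4 : Algebra.FiniteType ℤ R := Algebra.FiniteType.of_surjective β.toIntAlgHom hβ
    exact Algebra.FiniteType.of_restrictScalars_finiteType ℤ F R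
  have hintR : ∀ y : R, IsIntegral (Algebra.adjoin F {β ⟨z, hzO⟩}) y := by
    intro y
    obtain ⟨⟨y', hy'⟩, rfl⟩ := hβ y
    obtain ⟨G, hG, hG0⟩ := hint y' hy'
    obtain ⟨θ, hθ⟩ : ∃ θ : A[X] →+* Algebra.adjoin F {β ⟨z, hzO⟩}, ∀ P : A[X],
        ((θ P : Algebra.adjoin F {β ⟨z, hzO⟩}) : R) = aeval (β ⟨z, hzO⟩) (P.map α) := by
      refine ⟨(aeval (R := F) (⟨β ⟨z, hzO⟩, Algebra.subset_adjoin rfl⟩ :
        Algebra.adjoin F {β ⟨z, hzO⟩})).toRingHom.comp (mapRingHom α), fun P => ?_⟩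
      have := (aeval_algebraMap_apply (R := F) R (⟨β ⟨z, hzO⟩, Algebra.subset_adjoin rfl⟩ :
        Algebra.adjoin F {β ⟨z, hzO⟩}) (P.map α))
      exact this.symm
    obtain ⟨ψ, hψ⟩ : ∃ ψ : A[X] →+* O₀, ∀ P : A[X],
        ((ψ P : O₀) : Λ) = P.eval₂ ((algebraMap L Λ).comp A.subtype) z :=
      ⟨(eval₂RingHom ((algebraMap L Λ).comp A.subtype) z).codRestrict O₀
        (fun P => (heval P).1), fun P => rfl⟩
    refine ⟨G.map θ, hG.map θ, ?_⟩
    rw [eval₂_map]
    have h4 : (algebraMap (Algebra.adjoin F {β ⟨z, hzO⟩}) R).comp θ = β.comp ψ := by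
      refine RingHom.ext fun P => ?_
      obtain ⟨h5, h6⟩ := heval P
      have h7 : ψ P = ⟨_, h5⟩ := Subtype.val_injective (hψ P)
      rw [RingHom.comp_apply, RingHom.comp_apply, h7, h6]
      exact hθ P
    rw [h4, ← hom_eval₂]
    have h8 : G.eval₂ ψ ⟨y', hy'⟩ = 0 := by
      apply Subtype.val_injective
      have h9 := hom_eval₂ G ψ O₀.subtype ⟨y', hy'⟩
      have h10 : O₀.subtype.comp ψ = eval₂RingHom ((algebraMap L Λ).comp A.subtype) z :=
        RingHom.ext hψ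
      rw [h10] at h9
      exact h9.trans hG0
    rw [h8, map_zero]
  obtain ⟨p, e₀, hp, k, Λ', _, _, _, hk, hkp, χ, j, he, hfrob, hcomm, hj, htr, hfd⟩ :=
    h3 F R (β ⟨z, hzO⟩) hzt hft hintR
  obtain ⟨O, π, hπ1, hπ2⟩ := ext_hom O₀ (j.comp β)
  have hincl : ∀ a : A, algebraMap L Λ a ∈ O := fun a => (hπ1 _ (hAO a a.2)).1
  have hcomp : ∀ a : A, π ⟨algebraMap L Λ a, hincl a⟩ = algebraMap k Λ' ((χ.comp α) a) := by
    intro a
    obtain ⟨h4, h5⟩ := hπ1 _ (hAO a a.2)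
    rw [RingHom.comp_apply, hαβ a _ rfl, hcomm] at h5
    exact h5
  obtain ⟨s, hsA, hsO, hsχ, hsπ⟩ : ∃ s : Spz L Λ k Λ', s.A = A ∧ s.O = O ∧
      (∀ a : A, s.c a = χ (α a)) ∧ (∀ y (hy : y ∈ O), s.v y = π ⟨y, hy⟩) := by
    refine ⟨⟨A, O, χ.comp α, π, hincl, hcomp⟩, rfl, rfl, ?_, ?_⟩
    · intro a
      exact c_eq _ a.2
    · intro y hy
      exact v_eq _ hy
  have hv : ∀ y (hy : y ∈ O₀), s.v y = j (β ⟨y, hy⟩) := by
    intro y hy
    obtain ⟨h4, h5⟩ := hπ1 y hy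
    rw [hsπ y h4, h5]
    rfl
  refine ⟨p, e₀, hp, k, Λ', inferInstance, inferInstance, inferInstance, hk, hkp, s, he, hsA,
    ?_, ?_, ?_, ?_, ?_, ?_⟩
  · intro y hy
    rw [hsO]
    exact (hπ1 y hy).1
  · intro y hy h0
    rw [hsO] at hy ⊢
    apply hπ2 y hy
    rw [hsπ y hy] at h0
    exact h0
  · intro a ha
    rw [hsA] at ha
    have h4 := hsχ ⟨a, ha⟩
    have h5 : s.c a = χ (α ⟨a, ha⟩) := h4
    rw [h5, ← map_pow, hfrob]
  · rw [hsχ D, Ne, map_eq_zero]
    exact hαD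
  · rw [hv z hzO]
    exact htr
  · rw [hv z hzO]
    exact hfd

/-! ### Evaluation of polynomials -/

section cal

variable {L Λ k Λ' : Type} [Field L] [Field Λ] [Algebra L Λ] [Field k] [Field Λ'] [Algebra k Λ']
  (s : Spz L Λ k Λ')

lemma v_neg {y : Λ} (hy : y ∈ s.O) : s.v (-y) = -s.v y := by
  rw [v_eq s hy, v_eq s (neg_mem hy), ← map_neg]
  rfl

lemma v_eval {z : Λ} (hz : z ∈ s.O) (P : L[X]) (hP : ∀ i, P.coeff i ∈ s.A) :
    P.eval₂ (algebraMap L Λ) z ∈ s.O ∧ ∃ Q : k[X], (∀ i, Q.coeff i = s.c (P.coeff i)) ∧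
      s.v (P.eval₂ (algebraMap L Λ) z) = aeval (s.v z) Q := by
  obtain ⟨P', rfl⟩ : ∃ P' : s.A[X], P'.map s.A.subtype = P := by
    rw [← mem_lifts, lifts_iff_coeff_lifts]
    intro i
    exact ⟨⟨_, hP i⟩, rfl⟩
  obtain ⟨ρ, hρ⟩ : ∃ ρ : s.A →+* s.O, ∀ a : s.A, ((ρ a : s.O) : Λ) = algebraMap L Λ a :=
    ⟨((algebraMap L Λ).comp s.A.subtype).codRestrict s.O s.incl, fun a => rfl⟩
  have h4 : s.O.subtype.comp ρ = (algebraMap L Λ).comp s.A.subtype := RingHom.ext hρ
  have h5 := hom_eval₂ P' ρ s.O.subtype ⟨z, hz⟩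
  rw [h4, ← eval₂_map] at h5
  have h7 : s.O.subtype ⟨z, hz⟩ = z := rfl
  rw [h7] at h5
  have h6 : (P'.map s.A.subtype).eval₂ (algebraMap L Λ) z ∈ s.O := by
    rw [← h5]
    exact (P'.eval₂ ρ ⟨z, hz⟩).2
  refine ⟨h6, P'.map s.χ, ?_, ?_⟩
  · intro i
    rw [coeff_map, coeff_map]
    exact (c_eq s (P'.coeff i).2).symm
  · rw [v_eq s h6, v_eq s hz]
    have h8 : (⟨_, h6⟩ : s.O) = P'.eval₂ ρ ⟨z, hz⟩ := Subtype.val_injective h5.symm
    rw [h8, hom_eval₂, aeval_def, eval₂_map]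
    congr 1
    refine RingHom.ext fun a => ?_
    have h9 : ρ a = ⟨algebraMap L Λ a, s.incl a⟩ := Subtype.val_injective (hρ a)
    rw [RingHom.comp_apply, h9]
    exact s.comp a

lemma v_eval_ne {z : Λ} (hz : z ∈ s.O) (htr : Transcendental k (s.v z)) (P : L[X])
    (hP : ∀ i, P.coeff i ∈ s.A) (i : ℕ) (hi : s.c (P.coeff i) ≠ 0) :
    s.v (P.eval₂ (algebraMap L Λ) z) ≠ 0 := by
  obtain ⟨-, Q, hQ, h⟩ := v_eval s hz P hP
  rw [h]
  intro h0
  refine htr ⟨Q, ?_, h0⟩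
  rintro rfl
  rw [← hQ, coeff_zero] at hi
  exact hi rfl

/-- The conclusion for one element. -/
lemma one {z : Λ} (hz : z ∈ s.O) (htr : Transcendental k (s.v z))
    (hinv : ∀ y ∈ s.O, s.v y ≠ 0 → y⁻¹ ∈ s.O) (y : Λ) (h : L[X]) (G : L[X][X])
    (hh : h ≠ 0) (hhz : h.eval₂ (algebraMap L Λ) z ≠ 0) (hG0 : G.coeff 0 ≠ 0)
    (hG : G.eval₂ (eval₂RingHom (algebraMap L Λ) z) (h.eval₂ (algebraMap L Λ) z * y) = 0)
    (hyO : h.eval₂ (algebraMap L Λ) z * y ∈ s.O)
    (hhA : ∀ i, h.coeff i ∈ s.A ∧ (h.coeff i ≠ 0 → s.c (h.coeff i) ≠ 0))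
    (hGA : ∀ i j, (G.coeff i).coeff j ∈ s.A ∧
      ((G.coeff i).coeff j ≠ 0 → s.c ((G.coeff i).coeff j) ≠ 0)) :
    y ∈ s.O ∧ s.v y ≠ 0 ∧ y⁻¹ ∈ s.O := by
  obtain ⟨a, ha⟩ : ∃ a, a = h.eval₂ (algebraMap L Λ) z := ⟨_, rfl⟩
  have haO : a ∈ s.O := by
    rw [ha]
    exact (v_eval s hz h fun i => (hhA i).1).1
  have hav : s.v a ≠ 0 := by
    rw [ha]
    exact v_eval_ne s hz htr h (fun i => (hhA i).1) h.natDegree
      ((hhA _).2 (leadingCoeff_ne_zero.2 hh))
  have haI := hinv a haO hav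
  rw [← ha] at hhz hG hyO
  obtain ⟨y₁, hy₁⟩ : ∃ y₁, y₁ = a * y := ⟨_, rfl⟩
  rw [← hy₁] at hG hyO
  have hyv : s.v y₁ ≠ 0 := by
    have h1 : (divX G).eval₂ (eval₂RingHom (algebraMap L Λ) z) y₁ * y₁ =
        -((G.coeff 0).eval₂ (algebraMap L Λ) z) := by
      have h2 := divX_mul_X_add G
      rw [← h2, eval₂_add, eval₂_mul, eval₂_X, eval₂_C] at hG
      exact eq_neg_of_add_eq_zero_left hG
    have h3 : (divX G).eval₂ (eval₂RingHom (algebraMap L Λ) z) y₁ ∈ s.O := by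
      rw [eval₂_eq_sum_range]
      refine sum_mem fun i _ => mul_mem ?_ (pow_mem hyO i)
      rw [coe_eval₂RingHom, coeff_divX]
      exact (v_eval s hz _ fun j => (hGA (i + 1) j).1).1
    have h4 := v_mul s h3 hyO
    rw [h1, v_neg s (v_eval s hz _ fun j => (hGA 0 j).1).1] at h4
    intro h0
    rw [h0, mul_zero, neg_eq_zero] at h4
    exact v_eval_ne s hz htr _ (fun j => (hGA 0 j).1) _
      ((hGA 0 _).2 (leadingCoeff_ne_zero.2 hG0)) h4
  have hy : y = y₁ * a⁻¹ := by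
    rw [hy₁]
    field_simp
  have hyO' : y ∈ s.O := by
    rw [hy]
    exact mul_mem hyO haI
  have hyv' : s.v y ≠ 0 := by
    intro h0
    rw [hy₁, v_mul s haO hyO', h0, mul_zero] at hyv
    exact hyv rfl
  exact ⟨hyO', hyv', hinv y hyO' hyv'⟩

end cal

lemma ft {k : Type} [Field k] (T : Finset k) (A : Subring k) (hA : A = Subring.closure (T : Set k)) :
    Algebra.FiniteType ℤ A := by
  subst hA
  have h := Subalgebra.fg_adjoin_finset (R := ℤ) T
  rw [Algebra.adjoin_int] at h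
  exact (Subalgebra.fg_iff_finiteType _).1 h

end e4Aux

open e4Aux

theorem e4 (h1 : E1Stmt) (h2 : E2Stmt) (h3 : E3Stmt) : E4Stmt := by
  intro L Λ _ _ _ z hz hfd CL E
  classical
  have hel : ∀ y : Λ, ∃ (h : L[X]) (G : L[X][X]), h ≠ 0 ∧ G.Monic ∧ G.coeff 0 ≠ 0 ∧ (y ≠ 0 →
      G.eval₂ (eval₂RingHom (algebraMap L Λ) z) (h.eval₂ (algebraMap L Λ) z * y) = 0) := by
    intro y
    by_cases hy : y = 0
    · refine ⟨1, 1, one_ne_zero, monic_one, ?_, fun h => absurd hy h⟩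
      rw [coeff_one_zero]
      exact one_ne_zero
    · obtain ⟨h, G, e1, e2, e3, e4⟩ := elt z hz y hy
      exact ⟨h, G, e1, e2, e3, fun _ => e4⟩
  choose h G hh hG hG0 hGe using hel
  obtain ⟨T, hT1, hT2, hT3⟩ : ∃ T : Finset L, (∀ a ∈ CL, a ∈ T) ∧
      (∀ y ∈ E, ∀ i, (h y).coeff i ≠ 0 → (h y).coeff i ∈ T) ∧
      (∀ y ∈ E, ∀ i j, ((G y).coeff i).coeff j ≠ 0 → ((G y).coeff i).coeff j ∈ T) := by
    refine ⟨CL ∪ E.biUnion fun y => (h y).support.image (h y).coeff ∪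
      (G y).support.biUnion fun i => ((G y).coeff i).support.image ((G y).coeff i).coeff,
      ?_, ?_, ?_⟩
    · intro a ha
      exact Finset.mem_union_left _ ha
    · intro y hy i hi
      apply Finset.mem_union_right
      rw [Finset.mem_biUnion]
      refine ⟨y, hy, Finset.mem_union_left _ ?_⟩
      exact Finset.mem_image_of_mem _ (mem_support_iff.2 hi)
    · intro y hy i j hij
      apply Finset.mem_union_right
      rw [Finset.mem_biUnion]
      refine ⟨y, hy, Finset.mem_union_right _ ?_⟩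
      rw [Finset.mem_biUnion]
      refine ⟨i, ?_, Finset.mem_image_of_mem _ (mem_support_iff.2 hij)⟩
      rw [mem_support_iff]
      intro h0
      rw [h0, coeff_zero] at hij
      exact hij rfl
  obtain ⟨A, hAdef⟩ : ∃ A, A = Subring.closure (T : Set L) := ⟨_, rfl⟩
  have hTA : ∀ a ∈ T, a ∈ A := by
    intro a ha
    rw [hAdef]
    exact Subring.subset_closure ha
  have hhA : ∀ y ∈ E, ∀ i, (h y).coeff i ∈ A := by
    intro y hy i
    by_cases h0 : (h y).coeff i = 0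
    · rw [h0]
      exact zero_mem A
    · exact hTA _ (hT2 y hy i h0)
  have hGA : ∀ y ∈ E, ∀ i j, ((G y).coeff i).coeff j ∈ A := by
    intro y hy i j
    by_cases h0 : ((G y).coeff i).coeff j = 0
    · rw [h0]
      exact zero_mem A
    · exact hTA _ (hT3 y hy i j h0)
  obtain ⟨O₀, hOdef⟩ : ∃ O₀, O₀ = Subring.closure
      (((T.image (algebraMap L Λ) ∪ {z}) ∪
        E.image fun y => (h y).eval₂ (algebraMap L Λ) z * y : Finset Λ) : Set Λ) := ⟨_, rfl⟩
  have hAO : ∀ a ∈ A, algebraMap L Λ a ∈ O₀ := by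
    have h5 : A ≤ O₀.comap (algebraMap L Λ) := by
      rw [hAdef, Subring.closure_le]
      intro a ha
      show algebraMap L Λ a ∈ O₀
      rw [hOdef]
      apply Subring.subset_closure
      exact Finset.mem_union_left _ (Finset.mem_union_left _ (Finset.mem_image_of_mem _ ha))
    exact h5
  have hzO : z ∈ O₀ := by
    rw [hOdef]
    apply Subring.subset_closure
    exact Finset.mem_union_left _ (Finset.mem_union_right _ (Finset.mem_singleton_self z))
  have hyO : ∀ y ∈ E, (h y).eval₂ (algebraMap L Λ) z * y ∈ O₀ := by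
    intro y hy
    rw [hOdef]
    apply Subring.subset_closure
    exact Finset.mem_union_right _ (Finset.mem_image_of_mem _ hy)
  obtain ⟨φ, hφ⟩ : ∃ φ, φ = eval₂RingHom ((algebraMap L Λ).comp A.subtype) z := ⟨_, rfl⟩
  have hint : ∀ y ∈ O₀, φ.IsIntegralElem y := by
    intro y hy
    rw [hOdef] at hy
    induction hy using Subring.closure_induction with
    | mem y hy =>
      rw [Finset.mem_coe, Finset.mem_union, Finset.mem_union] at hy
      rcases hy with (hy | hy) | hy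
      · obtain ⟨a, ha, rfl⟩ := Finset.mem_image.1 hy
        have h5 : algebraMap L Λ a = φ (C ⟨a, hTA a ha⟩) := by
          rw [hφ, coe_eval₂RingHom, eval₂_C]
          rfl
        rw [h5]
        exact RingHom.isIntegralElem_map φ
      · rw [Finset.mem_singleton] at hy
        have h5 : y = φ X := by
          rw [hφ, coe_eval₂RingHom, eval₂_X, hy]
        rw [h5]
        exact RingHom.isIntegralElem_map φ
      · obtain ⟨y', hy', rfl⟩ := Finset.mem_image.1 hy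
        by_cases h0 : y' = 0
        · rw [h0, mul_zero, ← map_zero φ]
          exact RingHom.isIntegralElem_map φ
        · obtain ⟨G', hG', -, hG'm⟩ := lifts_and_natDegree_eq_and_monic
            (f := mapRingHom A.subtype) (p := G y') (by
              rw [lifts_iff_coeff_lifts]
              intro i
              have h5 : (G y').coeff i ∈ lifts A.subtype := by
                rw [lifts_iff_coeff_lifts]
                intro j
                exact ⟨⟨_, hGA y' hy' i j⟩, rfl⟩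
              obtain ⟨q, hq⟩ := (mem_lifts _).1 h5
              exact ⟨q, hq⟩) (hG y')
          refine ⟨G', hG'm, ?_⟩
          have h5 := hGe y' h0
          rw [← hG', eval₂_map] at h5
          have h6 : (eval₂RingHom (algebraMap L Λ) z).comp (mapRingHom A.subtype) = φ := by
            rw [hφ]
            refine RingHom.ext fun P => ?_
            rw [RingHom.comp_apply, coe_eval₂RingHom, coe_mapRingHom, eval₂_map]
            rfl
          rw [h6] at h5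
          exact h5
    | zero =>
      rw [← map_zero φ]
      exact RingHom.isIntegralElem_map φ
    | one =>
      rw [← map_one φ]
      exact RingHom.isIntegralElem_map φ
    | add x y _ _ hx hy => exact hx.add φ hy
    | neg x _ hx => exact hx.neg φ
    | mul x y _ _ hx hy => exact hx.mul φ hy
  rw [hφ] at hint
  obtain ⟨D, hD0, hDdvd⟩ : ∃ D : A, D ≠ 0 ∧ ∀ a (ha : a ∈ T), a ≠ 0 →
      ∃ b : A, D = ⟨a, hTA a ha⟩ * b := by
    refine ⟨∏ a ∈ T.attach, if (a : L) = 0 then 1 else (⟨a, hTA a a.2⟩ : A), ?_, ?_⟩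
    · rw [Finset.prod_ne_zero_iff]
      intro a _
      split_ifs with h0
      · exact one_ne_zero
      · intro h5
        exact h0 (congrArg Subtype.val h5)
    · intro a ha h0
      have h5 := Finset.dvd_prod_of_mem
        (fun a : {x // x ∈ T} => if (a : L) = 0 then 1 else (⟨a, hTA a a.2⟩ : A))
        (Finset.mem_attach T ⟨a, ha⟩)
      obtain ⟨b, hb⟩ := h5
      refine ⟨b, hb.trans ?_⟩
      rw [if_neg h0]
  obtain ⟨p, e, hp, k, Λ', _, _, _, hk, hkp, s, he, hsA, hsO, hinv, hfrob, hsD, htr, hfin⟩ :=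
    core h1 h2 h3 z hz A (ft T A hAdef) O₀ (ft _ O₀ hOdef) hAO hzO hint D hD0
  subst hsA
  have hc : ∀ a ∈ T, a ≠ 0 → s.c a ≠ 0 := by
    intro a ha h0 h5
    obtain ⟨b, hb⟩ := hDdvd a ha h0
    have h6 : (D : L) = a * b := congrArg Subtype.val hb
    rw [h6, c_mul s (hTA a ha) b.2, h5, zero_mul] at hsD
    exact hsD rfl
  refine ⟨p, e, hp, k, Λ', inferInstance, inferInstance, inferInstance, hk, hkp, s, he,
    ⟨?_, ?_, hfrob⟩, hsO z hzO, htr, hfin⟩
  · intro a ha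
    exact ⟨hTA a (hT1 a ha), hc a (hT1 a ha)⟩
  · intro y hy
    by_cases hy0 : y = 0
    · rw [hy0]
      exact ⟨zero_mem _, fun h => absurd rfl h⟩
    · have hhz : (h y).eval₂ (algebraMap L Λ) z ≠ 0 := by
        intro h0
        exact hz ⟨h y, hh y, h0⟩
      obtain ⟨e1, e2, e3⟩ := one s (hsO z hzO) htr hinv y (h y) (G y) (hh y) hhz (hG0 y)
        (hGe y hy0) (hsO _ (hyO y hy))
        (fun i => ⟨hhA y hy i, fun h0 => hc _ (hT2 y hy i h0) h0⟩)
        (fun i j => ⟨hGA y hy i j, fun h0 => hc _ (hT3 y hy i j h0) h0⟩)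
      exact ⟨e1, fun _ => ⟨e2, e3⟩⟩

end Pool.Agent.Lib.MP_410da7_agA
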