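import Pool.Agent.Lib.MP_410da7_agA.SpecE

/-!
# MP_410da7_ag, C46, E5: calculus of the images of polynomials under a specialization
-/

set_option autoImplicit false

namespace Pool.Agent.Lib.MP_410da7_agA

open MvPolynomial

namespace e5Aux

variable {L Λ k Λ' : Type} [Field L] [Field Λ] [Algebra L Λ] [Field k] [Field Λ'] [Algebra k Λ']
  (s : Spz L Λ k Λ')

theorem c_mem {a : L} (h : a ∈ s.A) : s.c a = s.χ ⟨a, h⟩ := by
  unfold Spz.c
  rw [dif_pos h]

theorem c_coe (a : s.A) : s.c (a : L) = s.χ a := c_mem s a.2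

theorem c_zero : s.c 0 = 0 := by
  rw [c_mem s s.A.zero_mem]
  exact map_zero s.χ

theorem v_coe (y : s.O) : s.v (y : Λ) = s.π y := by
  unfold Spz.v
  rw [dif_pos y.2]

theorem coeff_red {V : Type} (G : MvPolynomial V L) (m : V →₀ ℕ) :
    coeff m (s.red G) = s.c (coeff m G) := by
  classical
  unfold Spz.red
  rw [coeff_sum]
  simp only [coeff_monomial]
  rw [Finset.sum_ite_eq' G.support m]
  split_ifs with h
  · rfl
  · rw [notMem_support_iff.1 h, c_zero]

theorem lift_In {V : Type} {G : MvPolynomial V L} (h : s.In G) :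
    ∃ H : MvPolynomial V s.A, G = map s.A.subtype H := by
  refine ⟨∑ m ∈ G.support, monomial m ⟨coeff m G, h m⟩, ?_⟩
  rw [map_sum]
  conv_lhs => rw [G.as_sum]
  refine Finset.sum_congr rfl fun m _ => ?_
  rw [map_monomial]
  rfl

theorem In_map {V : Type} (H : MvPolynomial V s.A) : s.In (map s.A.subtype H) := fun m => by
  rw [coeff_map]
  exact (coeff m H).2

theorem red_map {V : Type} (H : MvPolynomial V s.A) :
    s.red (map s.A.subtype H) = map s.χ H := by
  ext m
  rw [coeff_red, coeff_map, coeff_map]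
  exact c_coe s _

/-- The inclusion of the constants. -/
def inc : s.A →+* s.O where
  toFun a := ⟨algebraMap L Λ a, s.incl a⟩
  map_one' := Subtype.ext (by simp)
  map_mul' := fun a b => Subtype.ext (by simp)
  map_zero' := Subtype.ext (by simp)
  map_add' := fun a b => Subtype.ext (by simp)

theorem π_inc (a : s.A) : s.π (inc s a) = algebraMap k Λ' (s.χ a) := s.comp a

theorem aeval_map {V : Type} (H : MvPolynomial V s.A) (y : V → s.O) :
    aeval (fun l => (y l : Λ)) (map s.A.subtype H) = ((eval₂ (inc s) y H : s.O) : Λ) := by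
  have h1 : aeval (fun l => (y l : Λ)) (map s.A.subtype H) =
      eval₂ ((algebraMap L Λ).comp s.A.subtype) (fun l => (y l : Λ)) H := by
    rw [aeval_def, eval₂_map]
  have h2 : ((eval₂ (inc s) y H : s.O) : Λ) = s.O.subtype (eval₂ (inc s) y H) := rfl
  rw [h1, h2, hom_eval₂]
  rfl

theorem v_aeval {V : Type} (H : MvPolynomial V s.A) (y : V → s.O) :
    s.v (aeval (fun l => (y l : Λ)) (map s.A.subtype H)) =
      aeval (fun l => s.v (y l : Λ)) (map s.χ H) := by
  rw [aeval_map, v_coe, hom_eval₂, aeval_def, eval₂_map]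
  have h1 : s.π.comp (inc s) = (algebraMap k Λ').comp s.χ := by
    ext a
    exact π_inc s a
  have h2 : (fun i => s.π (y i) : V → Λ') = fun l => s.v (y l : Λ) := by
    funext l
    exact (v_coe s (y l)).symm
  rw [h1, h2]

end e5Aux

open e5Aux

theorem e5 : E5Stmt := by
  intro L Λ k Λ' _ _ _ _ _ _ s V
  refine ⟨?_, ?_, ?_, ?_, ?_, ?_, ?_, ?_⟩
  · intro G H hG hH
    obtain ⟨G, rfl⟩ := lift_In s hG
    obtain ⟨H, rfl⟩ := lift_In s hH
    rw [← map_add, ← map_mul, red_map, red_map, red_map, red_map]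
    exact ⟨In_map s _, In_map s _, map_add _ _ _, map_mul _ _ _⟩
  · have h0 : (0 : MvPolynomial V L) = map s.A.subtype 0 := (map_zero _).symm
    refine ⟨fun m => by rw [coeff_zero]; exact s.A.zero_mem, ?_⟩
    rw [h0, red_map, map_zero]
  · have h0 : (1 : MvPolynomial V L) = map s.A.subtype 1 := (map_one _).symm
    constructor
    · rw [h0]
      exact In_map s _
    · rw [h0, red_map, map_one]
  · intro i
    have h0 : (X i : MvPolynomial V L) = map s.A.subtype (X i) := (map_X _ _).symm
    constructor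
    · rw [h0]
      exact In_map s _
    · rw [h0, red_map, map_X]
  · intro G hG i
    obtain ⟨G, rfl⟩ := lift_In s hG
    rw [pderiv_map, red_map, red_map, pderiv_map]
    exact ⟨In_map s _, rfl⟩
  · intro G d hG m hm
    refine hG ?_
    intro h0
    apply hm
    rw [coeff_red, h0, c_zero]
  · exact fun G m => coeff_red s G m
  · intro G y hG hy
    obtain ⟨G, rfl⟩ := lift_In s hG
    have h1 := aeval_map s G (fun l => ⟨y l, hy l⟩)
    have h2 := v_aeval s G (fun l => ⟨y l, hy l⟩)
    rw [red_map]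
    refine ⟨?_, h2⟩
    have h3 : aeval y (map s.A.subtype G) = ((eval₂ (inc s) (fun l => ⟨y l, hy l⟩) G : s.O) : Λ) := h1
    rw [h3]
    exact (eval₂ (inc s) (fun l => ⟨y l, hy l⟩) G : s.O).2

end Pool.Agent.Lib.MP_410da7_agA
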