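import Pool.Agent.Lib.MP_410da7_agA.SpecE

/-!
# MP_410da7_ag, C46, E6a: transport of `RegFin` and `RegInf`
-/

set_option autoImplicit false

namespace Pool.Agent.Lib.MP_410da7_agA

open Polynomial

namespace e6aAux

variable {L Λ k Λ' : Type} [Field L] [Field Λ] [Algebra L Λ] [Field k] [Field Λ'] [Algebra k Λ']
  (s : Spz L Λ k Λ')

theorem c_mem {a : L} (h : a ∈ s.A) : s.c a = s.χ ⟨a, h⟩ := by
  unfold Spz.c
  rw [dif_pos h]

theorem c_coe (a : s.A) : s.c (a : L) = s.χ a := c_mem s a.2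

theorem v_coe (y : s.O) : s.v (y : Λ) = s.π y := by
  unfold Spz.v
  rw [dif_pos y.2]

theorem v_mem {y : Λ} (h : y ∈ s.O) : s.v y = s.π ⟨y, h⟩ := v_coe s ⟨y, h⟩

/-- The inclusion of the constants. -/
def inc : s.A →+* s.O where
  toFun a := ⟨algebraMap L Λ a, s.incl a⟩
  map_one' := Subtype.ext (by simp)
  map_mul' := fun a b => Subtype.ext (by simp)
  map_zero' := Subtype.ext (by simp)
  map_add' := fun a b => Subtype.ext (by simp)

theorem π_inc (a : s.A) : s.π (inc s a) = algebraMap k Λ' (s.χ a) := s.comp a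

/-- The coefficients of the coefficients. -/
noncomputable def cfs (G : Polynomial (Polynomial L)) : Finset L := by
  classical
  exact G.support.biUnion fun i => (G.coeff i).support.image fun j => (G.coeff i).coeff j

theorem mem_cfs (G : Polynomial (Polynomial L)) (i j : ℕ) (h : (G.coeff i).coeff j ≠ 0) :
    (G.coeff i).coeff j ∈ cfs G := by
  classical
  unfold cfs
  rw [Finset.mem_biUnion]
  refine ⟨i, ?_, Finset.mem_image.2 ⟨j, ?_, rfl⟩⟩
  · rw [mem_support_iff]
    intro h0
    rw [h0] at h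
    exact h (coeff_zero j)
  · rw [mem_support_iff]
    exact h

theorem lift2 (G : Polynomial (Polynomial L)) (h : ∀ i j, (G.coeff i).coeff j ∈ s.A) :
    ∃ G' : Polynomial (Polynomial s.A), G'.map (mapRingHom s.A.subtype) = G := by
  rw [← mem_lifts, lifts_iff_coeff_lifts]
  intro i
  have h1 : G.coeff i ∈ lifts s.A.subtype := by
    rw [lifts_iff_coeff_lifts]
    intro j
    exact ⟨⟨_, h i j⟩, rfl⟩
  obtain ⟨q, hq⟩ := (mem_lifts _).1 h1
  exact ⟨q, hq⟩

/-- The transported equation. -/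
theorem transport (G : Polynomial (Polynomial s.A)) (z c : s.O)
    (h : (G.map (mapRingHom s.A.subtype)).eval₂
      (Polynomial.aeval (z : Λ) : Polynomial L →ₐ[L] Λ).toRingHom (c : Λ) = 0) :
    (G.map (mapRingHom s.χ)).eval₂
      (Polynomial.aeval (s.π z) : Polynomial k →ₐ[k] Λ').toRingHom (s.π c) = 0 := by
  rw [eval₂_map] at h ⊢
  let φ : Polynomial s.A →+* s.O := eval₂RingHom (inc s) z
  have h1 : ((Polynomial.aeval (z : Λ) : Polynomial L →ₐ[L] Λ).toRingHom).comp
      (mapRingHom s.A.subtype) = s.O.subtype.comp φ := by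
    apply Polynomial.ringHom_ext
    · intro a
      show Polynomial.aeval (z : Λ) (mapRingHom s.A.subtype (C a)) = s.O.subtype (eval₂ (inc s) z (C a))
      rw [coe_mapRingHom, map_C, aeval_C, eval₂_C]
      rfl
    · show Polynomial.aeval (z : Λ) (mapRingHom s.A.subtype X) = s.O.subtype (eval₂ (inc s) z X)
      rw [coe_mapRingHom, map_X, aeval_X, eval₂_X]
      rfl
  have h2 : ((Polynomial.aeval (s.π z) : Polynomial k →ₐ[k] Λ').toRingHom).comp
      (mapRingHom s.χ) = s.π.comp φ := by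
    apply Polynomial.ringHom_ext
    · intro a
      show Polynomial.aeval (s.π z) (mapRingHom s.χ (C a)) = s.π (eval₂ (inc s) z (C a))
      rw [coe_mapRingHom, map_C, aeval_C, eval₂_C, π_inc]
    · show Polynomial.aeval (s.π z) (mapRingHom s.χ X) = s.π (eval₂ (inc s) z X)
      rw [coe_mapRingHom, map_X, aeval_X, eval₂_X]
  have h3 : s.O.subtype (G.eval₂ φ c) = 0 := by
    rw [hom_eval₂, ← h1]
    exact h
  have h4 : G.eval₂ φ c = 0 := Subtype.ext h3
  rw [h2, ← hom_eval₂, h4, map_zero]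

end e6aAux

open e6aAux

theorem e6a : E6aStmt := by
  intro L Λ _ _ _ z c hz
  classical
  constructor
  · rintro ⟨G, hG, hGc⟩
    refine ⟨cfs G, {z, c}, ?_⟩
    intro k Λ' _ _ _ s Q hok
    have hA : ∀ i j, (G.coeff i).coeff j ∈ s.A := by
      intro i j
      by_cases h0 : (G.coeff i).coeff j = 0
      · rw [h0]
        exact s.A.zero_mem
      · exact (hok.hC _ (mem_cfs G i j h0)).1
    obtain ⟨G', hG'⟩ := lift2 s G hA
    have hzO : z ∈ s.O := (hok.hE z (by simp)).1
    have hcO : c ∈ s.O := (hok.hE c (by simp)).1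
    have hinj : Function.Injective (mapRingHom s.A.subtype) :=
      map_injective _ Subtype.val_injective
    refine ⟨G'.map (mapRingHom s.χ), ?_, ?_⟩
    · have h1 : G'.Monic := by
        rw [← hG'] at hG
        exact (hinj.monic_map_iff).2 hG
      exact h1.map _
    · rw [v_mem s hzO, v_mem s hcO]
      refine transport s G' ⟨z, hzO⟩ ⟨c, hcO⟩ ?_
      rw [hG']
      exact hGc
  · rintro ⟨G, hG, hGc⟩
    refine ⟨cfs G, {z, c}, ?_⟩
    intro k Λ' _ _ _ s Q hok
    have hA : ∀ i j, (G.coeff i).coeff j ∈ s.A := by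
      intro i j
      by_cases h0 : (G.coeff i).coeff j = 0
      · rw [h0]
        exact s.A.zero_mem
      · exact (hok.hC _ (mem_cfs G i j h0)).1
    obtain ⟨G', hG'⟩ := lift2 s G hA
    have hzO : z ∈ s.O := (hok.hE z (by simp)).1
    have hcO : c ∈ s.O := (hok.hE c (by simp)).1
    obtain ⟨hz1, hziO⟩ := (hok.hE z (by simp)).2 hz
    have hinj : Function.Injective (mapRingHom s.A.subtype) :=
      map_injective _ Subtype.val_injective
    have hlc : G.leadingCoeff = mapRingHom s.A.subtype G'.leadingCoeff := by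
      rw [← hG', leadingCoeff_map_of_injective hinj]
    have h0 : (mapRingHom s.χ G'.leadingCoeff).coeff 0 ≠ 0 := by
      have h1 : G.leadingCoeff.coeff 0 = ((G'.leadingCoeff.coeff 0 : s.A) : L) := by
        rw [hlc, coe_mapRingHom, coeff_map]
        rfl
      rw [coe_mapRingHom, coeff_map, ← c_coe, ← h1]
      exact (hok.hC _ (mem_cfs G _ 0 hG)).2 hG
    have hne : mapRingHom s.χ G'.leadingCoeff ≠ 0 := by
      intro h1
      rw [h1] at h0
      exact h0 (coeff_zero 0)
    have hvz : (s.v z)⁻¹ = s.π ⟨z⁻¹, hziO⟩ := by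
      rw [v_mem s hzO]
      rw [inv_eq_iff_eq_inv]
      refine eq_inv_of_mul_eq_one_left ?_
      rw [← map_mul]
      have h1 : (⟨z, hzO⟩ : s.O) * ⟨z⁻¹, hziO⟩ = 1 := Subtype.ext (mul_inv_cancel₀ hz)
      rw [h1, map_one]
    refine ⟨G'.map (mapRingHom s.χ), ?_, ?_⟩
    · rw [leadingCoeff_map_of_leadingCoeff_ne_zero _ hne]
      exact h0
    · rw [hvz, v_mem s hcO]
      refine transport s G' ⟨z⁻¹, hziO⟩ ⟨c, hcO⟩ ?_
      rw [hG']
      exact hGc

end Pool.Agent.Lib.MP_410da7_agA
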