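import Pool.Agent.Lib.MP_410da7_agA.SpecE

/-!
# MP_410da7_ag, smooth affine varieties (C46): auxiliary lemmas for E6b and E6c

Calculus of the maps `s.c`, `s.v` and of `s.red` for a specialization `s`.
-/

set_option autoImplicit false

namespace Pool.Agent.Lib.MP_410da7_agA

open MvPolynomial Module

namespace e6Aux

variable {L Λ k Λ' : Type} [Field L] [Field Λ] [Algebra L Λ] [Field k] [Field Λ'] [Algebra k Λ']
  {s : Spz L Λ k Λ'}

theorem v_of {y : Λ} (h : y ∈ s.O) : s.v y = s.π ⟨y, h⟩ := dif_pos h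

theorem v_add {a b : Λ} (ha : a ∈ s.O) (hb : b ∈ s.O) : s.v (a + b) = s.v a + s.v b := by
  rw [v_of ha, v_of hb, v_of (s.O.add_mem ha hb), ← map_add]
  rfl

theorem v_mul {a b : Λ} (ha : a ∈ s.O) (hb : b ∈ s.O) : s.v (a * b) = s.v a * s.v b := by
  rw [v_of ha, v_of hb, v_of (s.O.mul_mem ha hb), ← map_mul]
  rfl

theorem v_one : s.v 1 = 1 := by
  rw [v_of s.O.one_mem]
  exact map_one s.π

theorem v_zero : s.v 0 = 0 := by
  rw [v_of s.O.zero_mem]
  exact map_zero s.π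

theorem v_pow {a : Λ} (ha : a ∈ s.O) (n : ℕ) : s.v (a ^ n) = s.v a ^ n := by
  induction n with
  | zero => rw [pow_zero, pow_zero, v_one]
  | succ n ih => rw [pow_succ, pow_succ, v_mul (s.O.pow_mem ha n) ha, ih]

theorem v_sum {ι : Type} (t : Finset ι) (f : ι → Λ) (h : ∀ i ∈ t, f i ∈ s.O) :
    s.v (∑ i ∈ t, f i) = ∑ i ∈ t, s.v (f i) := by
  classical
  induction t using Finset.induction_on with
  | empty => rw [Finset.sum_empty, Finset.sum_empty, v_zero]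
  | insert i t hi ih =>
    rw [Finset.sum_insert hi, Finset.sum_insert hi,
      v_add (h i (Finset.mem_insert_self i t))
        (s.O.sum_mem fun j hj => h j (Finset.mem_insert_of_mem hj)),
      ih fun j hj => h j (Finset.mem_insert_of_mem hj)]

/-- the units of `O` -/
structure Un (s : Spz L Λ k Λ') (y : Λ) : Prop where
  ne : y ≠ 0
  mem : y ∈ s.O
  inv : y⁻¹ ∈ s.O

theorem Un.v_inv {y : Λ} (h : Un s y) : s.v y⁻¹ = (s.v y)⁻¹ := by
  have h1 : s.v y * s.v y⁻¹ = 1 := by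
    rw [← v_mul h.mem h.inv, mul_inv_cancel₀ h.ne, v_one]
  exact eq_inv_of_mul_eq_one_right h1

theorem Un.vne {y : Λ} (h : Un s y) : s.v y ≠ 0 := by
  intro h0
  have h1 : s.v y * s.v y⁻¹ = 1 := by
    rw [← v_mul h.mem h.inv, mul_inv_cancel₀ h.ne, v_one]
  rw [h0, zero_mul] at h1
  exact zero_ne_one h1

theorem Un.symm {y : Λ} (h : Un s y) : Un s y⁻¹ :=
  ⟨inv_ne_zero h.ne, h.inv, by rw [inv_inv]; exact h.mem⟩

theorem Un.mul {a b : Λ} (ha : Un s a) (hb : Un s b) : Un s (a * b) :=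
  ⟨mul_ne_zero ha.ne hb.ne, s.O.mul_mem ha.mem hb.mem, by
    rw [mul_inv]
    exact s.O.mul_mem ha.inv hb.inv⟩

theorem Un.pow {a : Λ} (ha : Un s a) (n : ℕ) : Un s (a ^ n) :=
  ⟨pow_ne_zero n ha.ne, s.O.pow_mem ha.mem n, by
    rw [← inv_pow]
    exact s.O.pow_mem ha.inv n⟩

theorem Un.zpow {a : Λ} (ha : Un s a) (n : ℤ) : Un s (a ^ n) ∧ s.v (a ^ n) = s.v a ^ n := by
  rcases Int.eq_nat_or_neg n with ⟨m, rfl | rfl⟩
  · rw [zpow_natCast, zpow_natCast]
    exact ⟨ha.pow m, v_pow ha.mem m⟩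
  · rw [zpow_neg, zpow_neg, zpow_natCast, zpow_natCast]
    exact ⟨(ha.pow m).symm, by rw [(ha.pow m).v_inv, v_pow ha.mem m]⟩

theorem Un.div {a b : Λ} (ha : Un s a) (hb : Un s b) : Un s (a / b) := by
  rw [div_eq_mul_inv]
  exact ha.mul hb.symm

theorem div_mem {a b : Λ} (ha : a ∈ s.O) (hb : Un s b) : a / b ∈ s.O := by
  rw [div_eq_mul_inv]
  exact s.O.mul_mem ha hb.inv

theorem v_div {a b : Λ} (ha : a ∈ s.O) (hb : Un s b) : s.v (a / b) = s.v a / s.v b := by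
  rw [div_eq_mul_inv, div_eq_mul_inv, v_mul ha hb.inv, hb.v_inv]

theorem v_det {r : ℕ} (M : Matrix (Fin r) (Fin r) Λ) (h : ∀ i j, M i j ∈ s.O) :
    M.det ∈ s.O ∧ s.v M.det = (Matrix.of fun i j => s.v (M i j)).det := by
  have h1 : M = (Matrix.of fun i j => (⟨M i j, h i j⟩ : s.O)).map s.O.subtype := by
    ext i j
    rfl
  have h2 : M.det = s.O.subtype (Matrix.of fun i j => (⟨M i j, h i j⟩ : s.O)).det := by
    conv_lhs => rw [h1]
    rw [RingHom.map_det]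
    rfl
  have h3 : M.det ∈ s.O := by
    rw [h2]
    exact Subtype.property _
  refine ⟨h3, ?_⟩
  rw [v_of h3]
  have h4 : (⟨M.det, h3⟩ : s.O) = (Matrix.of fun i j => (⟨M i j, h i j⟩ : s.O)).det :=
    Subtype.ext h2
  rw [h4, RingHom.map_det]
  congr 1
  ext i j
  exact (v_of (h i j)).symm

/-! ### polynomials -/

open Classical in
/-- the coefficients of a polynomial -/
noncomputable def cf {V : Type} (G : MvPolynomial V L) : Finset L :=
  G.support.image fun m => coeff m G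

theorem mem_cf {V : Type} {G : MvPolynomial V L} {m : V →₀ ℕ} (h : m ∈ G.support) :
    coeff m G ∈ cf G := by
  classical
  unfold cf
  exact Finset.mem_image.2 ⟨m, h, rfl⟩

theorem in_of {V : Type} {G : MvPolynomial V L} (h : ∀ a ∈ cf G, a ∈ s.A) : s.In G := by
  intro m
  by_cases hm : m ∈ G.support
  · exact h _ (mem_cf hm)
  · rw [notMem_support_iff.1 hm]
    exact s.A.zero_mem

variable {V : Type}

theorem in_pow (h5 : E5Stmt) {G : MvPolynomial V L} (hG : s.In G) (n : ℕ) :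
    s.In (G ^ n) ∧ s.red (G ^ n) = s.red G ^ n := by
  obtain ⟨hmul, -, hone, -⟩ := h5 L Λ k Λ' s V
  induction n with
  | zero =>
    rw [pow_zero, pow_zero]
    exact hone
  | succ n ih =>
    obtain ⟨-, h1, -, h2⟩ := hmul _ _ ih.1 hG
    rw [pow_succ, pow_succ, h2, ih.2]
    exact ⟨h1, rfl⟩

theorem in_sum (h5 : E5Stmt) {ι : Type} (t : Finset ι) (f : ι → MvPolynomial V L)
    (h : ∀ i ∈ t, s.In (f i)) :
    s.In (∑ i ∈ t, f i) ∧ s.red (∑ i ∈ t, f i) = ∑ i ∈ t, s.red (f i) := by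
  classical
  obtain ⟨hmul, hzero, -⟩ := h5 L Λ k Λ' s V
  induction t using Finset.induction_on with
  | empty =>
    rw [Finset.sum_empty, Finset.sum_empty]
    exact hzero
  | insert i t hi ih =>
    obtain ⟨h1, h2⟩ := ih fun j hj => h j (Finset.mem_insert_of_mem hj)
    obtain ⟨h3, -, h4, -⟩ := hmul _ _ (h i (Finset.mem_insert_self i t)) h1
    rw [Finset.sum_insert hi, Finset.sum_insert hi, h4, h2]
    exact ⟨h3, rfl⟩

theorem in_mul (h5 : E5Stmt) {G H : MvPolynomial V L} (hG : s.In G) (hH : s.In H) :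
    s.In (G * H) ∧ s.red (G * H) = s.red G * s.red H := by
  obtain ⟨-, h1, -, h2⟩ := (h5 L Λ k Λ' s V).1 _ _ hG hH
  exact ⟨h1, h2⟩

theorem in_add (h5 : E5Stmt) {G H : MvPolynomial V L} (hG : s.In G) (hH : s.In H) :
    s.In (G + H) ∧ s.red (G + H) = s.red G + s.red H := by
  obtain ⟨h1, -, h2, -⟩ := (h5 L Λ k Λ' s V).1 _ _ hG hH
  exact ⟨h1, h2⟩

theorem in_X (h5 : E5Stmt) (i : V) : s.In (X i : MvPolynomial V L) ∧ s.red (X i) = X i :=
  (h5 L Λ k Λ' s V).2.2.2.1 i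

theorem v_aeval (h5 : E5Stmt) {G : MvPolynomial V L} {y : V → Λ} (hG : s.In G)
    (hy : ∀ l, y l ∈ s.O) :
    aeval y G ∈ s.O ∧ s.v (aeval y G) = aeval (fun l => s.v (y l)) (s.red G) :=
  (h5 L Λ k Λ' s V).2.2.2.2.2.2.2 G y hG hy

theorem fixed (h5 : E5Stmt) {G : MvPolynomial V L} {Q : ℕ} {CL : Finset L} {E : Finset Λ}
    (h : s.Ok Q CL E) (hG : s.In G) : FixedBy Q (s.red G) := by
  intro m
  rw [(h5 L Λ k Λ' s V).2.2.2.2.2.2.1 G m]
  exact h.frob _ (hG m)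

theorem hom (h5 : E5Stmt) {G : MvPolynomial V L} {d : ℕ} (h : G.IsHomogeneous d) :
    (s.red G).IsHomogeneous d := (h5 L Λ k Λ' s V).2.2.2.2.2.1 G d h

theorem v_minor (h5 : E5Stmt) {N κ r : ℕ} {F : Fin κ → MvPolynomial (Fin N) L}
    (I : Fin r → Fin N) {y : Fin N → Λ} (J : Fin r → Fin κ) (hF : ∀ j, s.In (F j))
    (hy : ∀ l, y l ∈ s.O) :
    minor F I y J ∈ s.O ∧
      s.v (minor F I y J) = minor (fun j => s.red (F j)) I (fun l => s.v (y l)) J := by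
  have h1 : ∀ i l, aeval y (pderiv (I l) (F (J i))) ∈ s.O ∧
      s.v (aeval y (pderiv (I l) (F (J i)))) =
        aeval (fun l => s.v (y l)) (pderiv (I l) (s.red (F (J i)))) := by
    intro i l
    obtain ⟨h2, h3⟩ := (h5 L Λ k Λ' s (Fin N)).2.2.2.2.1 (F (J i)) (hF (J i)) (I l)
    obtain ⟨h4, h6⟩ := v_aeval h5 h2 hy
    rw [h3] at h6
    exact ⟨h4, h6⟩
  obtain ⟨h2, h3⟩ := v_det (s := s) (Matrix.of fun i l => jac F I y (J i) l)
    (fun i l => (h1 i l).1)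
  refine ⟨h2, h3.trans ?_⟩
  unfold minor
  congr 1
  ext i l
  exact (h1 i l).2

theorem ok_mono {Q : ℕ} {CL CL' : Finset L} {E E' : Finset Λ} (h : s.Ok Q CL E)
    (hC : CL' ⊆ CL) (hE : E' ⊆ E) : s.Ok Q CL' E' :=
  ⟨fun a ha => h.hC a (hC ha), fun y hy => h.hE y (hE hy), h.frob⟩

theorem un_of {Q : ℕ} {CL : Finset L} {E : Finset Λ} (h : s.Ok Q CL E) {y : Λ} (hy : y ∈ E)
    (h0 : y ≠ 0) : Un s y := ⟨h0, (h.hE y hy).1, ((h.hE y hy).2 h0).2⟩

end e6Aux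

end Pool.Agent.Lib.MP_410da7_agA
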