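import Pool.Agent.Lib.MP_410da7_agA.SpecE
import Pool.Agent.Lib.MP_410da7_agA.E6Aux

/-!
# MP_410da7_ag, smooth affine varieties (C46), statement E6b: transport of `LogPoly` and `InfData`
-/

set_option autoImplicit false

namespace Pool.Agent.Lib.MP_410da7_agA

open MvPolynomial Module

namespace e6bAux

open e6Aux

variable {L Λ k Λ' : Type} [Field L] [Field Λ] [Algebra L Λ] [Field k] [Field Λ'] [Algebra k Λ']
  {s : Spz L Λ k Λ'}

/-- the transported relation -/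
theorem rel (h5 : E5Stmt) {M κ : ℕ} {F : Fin κ → MvPolynomial (Fin (M + 1)) L}
    {b₀ : Fin (M + 1)} (T : LogPoly F b₀) (w : Fin κ → MvPolynomial (Fin (M + 1)) L)
    (hw : ∑ j, w j * F j = X 0 * T.χ ^ T.N * X b₀ ^ T.E - T.a ^ T.lam * T.q)
    (ha : s.In T.a) (hχ : s.In T.χ) (hq : s.In T.q) (hwI : ∀ j, s.In (w j))
    (hF : ∀ j, s.In (F j)) :
    ∑ j, s.red (w j) * s.red (F j) =
      X 0 * s.red T.χ ^ T.N * X b₀ ^ T.E - s.red T.a ^ T.lam * s.red T.q := by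
  have h1 : X 0 * T.χ ^ T.N * X b₀ ^ T.E = ∑ j, w j * F j + T.a ^ T.lam * T.q := by
    rw [hw]
    ring
  have hX0 := in_X (s := s) h5 (0 : Fin (M + 1))
  have hXb := in_pow (s := s) h5 (in_X h5 b₀).1 T.E
  have hχN := in_pow h5 hχ T.N
  have hL1 := in_mul h5 hX0.1 hχN.1
  have hL2 := in_mul h5 hL1.1 hXb.1
  have hS := in_sum (s := s) h5 Finset.univ (fun j => w j * F j)
    (fun j _ => (in_mul h5 (hwI j) (hF j)).1)
  have haN := in_pow h5 ha T.lam
  have hR1 := in_mul h5 haN.1 hq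
  have hR2 := in_add h5 hS.1 hR1.1
  have h2 : s.red (X 0 * T.χ ^ T.N * X b₀ ^ T.E) =
      s.red (∑ j, w j * F j + T.a ^ T.lam * T.q) := by rw [h1]
  rw [hL2.2, hL1.2, hX0.2, hχN.2, hXb.2, (in_X h5 b₀).2, hR2.2, hS.2, hR1.2, haN.2] at h2
  rw [h2, add_sub_cancel_right]
  exact Finset.sum_congr rfl fun j _ => ((in_mul h5 (hwI j) (hF j)).2).symm

end e6bAux

open e6Aux e6bAux in
/-- E6b. Transport of `LogPoly` and `InfData`. -/
theorem e6b (h1 : E5Stmt) (h2 : E6aStmt) : E6bStmt := by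
  classical
  intro L Λ _ _ _ M κ r d n m₀ e₀ E₀ S y b₀ α ε T J x hz hα hI
  obtain ⟨w, hw⟩ := Ideal.mem_span_range_iff_exists_fun.1 T.rel
  obtain ⟨C1, E1, g1⟩ := (h2 L Λ (y b₀) _ hz).2 hI.ε_reg
  obtain ⟨C2, E2, g2⟩ := (h2 L Λ (y b₀) _ hz).2 hI.χ_reg
  obtain ⟨C3, E3, g3⟩ := (h2 L Λ (y b₀) _ hz).2 hI.τ_reg
  obtain ⟨C4, E4, g4⟩ := (h2 L Λ (y b₀) _ hz).2 hI.ζ_reg
  obtain ⟨C5, E5, g5⟩ := (h2 L Λ (y b₀) _ hz).2 hI.x_reg
  obtain ⟨CL, hCL⟩ : ∃ CL : Finset L, CL = cf T.a ∪ (cf T.χ ∪ (cf T.q ∪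
    (Finset.univ.biUnion (fun j => cf (w j)) ∪ (Finset.univ.biUnion (fun j => cf (S.F j)) ∪
    (C1 ∪ (C2 ∪ (C3 ∪ (C4 ∪ C5)))))))) := ⟨_, rfl⟩
  obtain ⟨E, hE⟩ : ∃ E : Finset Λ, E = Finset.univ.image y ∪ ({α, ε, x, aeval y T.χ,
    aeval y T.a, minor S.F S.I₀ y J} ∪ (E1 ∪ (E2 ∪ (E3 ∪ (E4 ∪ E5))))) := ⟨_, rfl⟩
  refine ⟨CL, E, ?_⟩
  intro k Λ' _ _ _ s Q hok S' hSF hSI
  -- membership
  have cmem : ∀ G : MvPolynomial (Fin (M + 1)) L, cf G ⊆ CL → s.In G := fun G hG =>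
    in_of fun a ha => (hok.hC a (hG ha)).1
  have hTa : s.In T.a := cmem _ fun a ha => by
    rw [hCL]
    simp only [Finset.mem_union]
    tauto
  have hTχ : s.In T.χ := cmem _ fun a ha => by
    rw [hCL]
    simp only [Finset.mem_union]
    tauto
  have hTq : s.In T.q := cmem _ fun a ha => by
    rw [hCL]
    simp only [Finset.mem_union]
    tauto
  have hwI : ∀ j, s.In (w j) := fun j => cmem _ fun a ha => by
    have : a ∈ Finset.univ.biUnion (fun j => cf (w j)) :=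
      Finset.mem_biUnion.2 ⟨j, Finset.mem_univ j, ha⟩
    rw [hCL]
    simp only [Finset.mem_union]
    tauto
  have hF : ∀ j, s.In (S.F j) := fun j => cmem _ fun a ha => by
    have : a ∈ Finset.univ.biUnion (fun j => cf (S.F j)) :=
      Finset.mem_biUnion.2 ⟨j, Finset.mem_univ j, ha⟩
    rw [hCL]
    simp only [Finset.mem_union]
    tauto
  have hC1 : C1 ⊆ CL := fun a ha => by
    rw [hCL]
    simp only [Finset.mem_union]
    tauto
  have hC2 : C2 ⊆ CL := fun a ha => by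
    rw [hCL]
    simp only [Finset.mem_union]
    tauto
  have hC3 : C3 ⊆ CL := fun a ha => by
    rw [hCL]
    simp only [Finset.mem_union]
    tauto
  have hC4 : C4 ⊆ CL := fun a ha => by
    rw [hCL]
    simp only [Finset.mem_union]
    tauto
  have hC5 : C5 ⊆ CL := fun a ha => by
    rw [hCL]
    simp only [Finset.mem_union]
    tauto
  have hE1 : E1 ⊆ E := fun a ha => by
    rw [hE]
    simp only [Finset.mem_union]
    tauto
  have hE2 : E2 ⊆ E := fun a ha => by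
    rw [hE]
    simp only [Finset.mem_union]
    tauto
  have hE3 : E3 ⊆ E := fun a ha => by
    rw [hE]
    simp only [Finset.mem_union]
    tauto
  have hE4 : E4 ⊆ E := fun a ha => by
    rw [hE]
    simp only [Finset.mem_union]
    tauto
  have hE5 : E5 ⊆ E := fun a ha => by
    rw [hE]
    simp only [Finset.mem_union]
    tauto
  have hyE : ∀ l, y l ∈ E := fun l => by
    rw [hE]
    exact Finset.mem_union_left _ (Finset.mem_image_of_mem _ (Finset.mem_univ l))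
  have hαE : α ∈ E := by rw [hE]; simp
  have hεE : ε ∈ E := by rw [hE]; simp
  have hxE : x ∈ E := by rw [hE]; simp
  have hχE : aeval y T.χ ∈ E := by rw [hE]; simp
  have haE : aeval y T.a ∈ E := by rw [hE]; simp
  have hJE : minor S.F S.I₀ y J ∈ E := by rw [hE]; simp
  have hy : ∀ l, y l ∈ s.O := fun l => (hok.hE _ (hyE l)).1
  have uz : Un s (y b₀) := un_of hok (hyE b₀) hz
  have uα : Un s α := un_of hok hαE hα
  have ux : Un s x := un_of hok hxE hI.x0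
  have uχ : Un s (aeval y T.χ) := un_of hok hχE hI.χ0
  have ua : Un s (aeval y T.a) := un_of hok haE hI.a0
  have uJ : Un s (minor S.F S.I₀ y J) := un_of hok hJE hI.J0
  have hε : ε ∈ s.O := (hok.hE _ hεE).1
  -- values
  have vχ := (v_aeval h1 hTχ hy).2
  have va := (v_aeval h1 hTa hy).2
  have hSF' : S'.F = fun j => s.red (S.F j) := funext hSF
  have vJ : s.v (minor S.F S.I₀ y J) = minor S'.F S'.I₀ (fun l => s.v (y l)) J := by
    rw [(v_minor h1 S.I₀ J hF hy).2, hSF', hSI]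
  -- the new data
  have hrel : X 0 * s.red T.χ ^ T.N * X b₀ ^ T.E - s.red T.a ^ T.lam * s.red T.q ∈
      Ideal.span (Set.range S'.F) := by
    refine Ideal.mem_span_range_iff_exists_fun.2 ⟨fun j => s.red (w j), ?_⟩
    rw [← rel h1 T w hw hTa hTχ hTq hwI hF, hSF']
  refine ⟨⟨s.red T.a, s.red T.χ, s.red T.q, T.e, T.e₁, T.e₂, T.N, T.E, T.lam, hom h1 T.ha,
    hom h1 T.hχ, hom h1 T.hq, T.deg, hrel⟩, fixed h1 hok hTa, fixed h1 hok hTχ, ?_⟩
  refine ⟨ux.vne, ?_, ?_, ?_, ?_, ?_, ?_, ?_, ?_⟩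
  · show aeval _ (s.red T.χ) ≠ 0
    rw [← vχ]
    exact uχ.vne
  · show aeval _ (s.red T.a) ≠ 0
    rw [← va]
    exact ua.vne
  · rw [← vJ]
    exact uJ.vne
  · exact g1 k Λ' s Q (ok_mono hok hC1 hE1)
  · have h3 := g2 k Λ' s Q (ok_mono hok hC2 hE2)
    have u1 : Un s (aeval y T.χ / y b₀ ^ T.e₁) := uχ.div (uz.pow _)
    rw [v_div hε u1, v_div uχ.mem (uz.pow _), v_pow uz.mem, vχ] at h3
    exact h3
  · have h3 := g3 k Λ' s Q (ok_mono hok hC3 hE3)
    have u1 : Un s (aeval y T.a / y b₀ ^ T.e) := ua.div (uz.pow _)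
    have u2 := uz.zpow (((n : ℤ) + 1 - r * ((d : ℤ) - 1)) * m₀)
    have u3 : Un s (α * minor S.F S.I₀ y J ^ m₀) := uα.mul (uJ.pow _)
    have u4 := u3.mul u2.1
    have u5 := u4.mul (u1.pow m₀)
    have u6 : Un s (tau S n m₀ e₀ y b₀ α T J x) := u5.div (ux.pow e₀)
    have h4 : s.v (tau S n m₀ e₀ y b₀ α T J x) = s.v α * s.v (minor S.F S.I₀ y J) ^ m₀ *
        s.v (y b₀) ^ (((n : ℤ) + 1 - r * ((d : ℤ) - 1)) * m₀) *
        (s.v (aeval y T.a) / s.v (y b₀) ^ T.e) ^ m₀ / s.v x ^ e₀ := by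
      unfold tau
      rw [v_div u5.mem (ux.pow e₀), v_mul u4.mem (u1.pow m₀).mem, v_mul u3.mem u2.1.mem,
        v_mul uα.mem (uJ.pow m₀).mem, v_pow uJ.mem, u2.2, v_pow u1.mem,
        v_div ua.mem (uz.pow T.e), v_pow uz.mem, v_pow ux.mem]
    rw [v_div hε u6, h4, vJ, va] at h3
    exact h3
  · have h3 := g4 k Λ' s Q (ok_mono hok hC4 hE4)
    have u1 : Un s (aeval y T.a / y b₀ ^ T.e) := ua.div (uz.pow _)
    have u2 : Un s ((aeval y T.a / y b₀ ^ T.e) ^ T.lam * y b₀) := (u1.pow _).mul uz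
    rw [v_mul hε u2.mem, v_mul (u1.pow _).mem uz.mem, v_pow u1.mem, v_div ua.mem (uz.pow _),
      v_pow uz.mem, va] at h3
    exact h3
  · have h3 := g5 k Λ' s Q (ok_mono hok hC5 hE5)
    have u1 : Un s (y b₀ / x ^ E₀) := uz.div (ux.pow _)
    rw [v_mul hε u1.mem, v_div uz.mem (ux.pow _), v_pow ux.mem] at h3
    exact h3

end Pool.Agent.Lib.MP_410da7_agA
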