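import Pool.Agent.Lib.MP_410da7_agA.SpecE
import Pool.Agent.Lib.MP_410da7_agA.E6Aux

/-!
# MP_410da7_ag, smooth affine varieties (C46), statement E6c: transport of the certificate
-/

set_option autoImplicit false

namespace Pool.Agent.Lib.MP_410da7_agA

open MvPolynomial Module

open e6Aux in
/-- E6c. Transport of the certificate. -/
theorem e6c (h1 : E5Stmt) (h2 : E6aStmt) (h3 : E6bStmt) : E6cStmt := by
  classical
  intro L Λ _ _ _ M κ r d n m₀ e₀ E₀ S y b₀ α hC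
  have hz : y b₀ ≠ 0 := by
    intro h0
    refine hC.trans ?_
    rw [h0]
    exact isAlgebraic_zero
  obtain ⟨c, hc, hsum⟩ := hC.c_fin
  obtain ⟨t, ε, hε, hinf⟩ := hC.c_inf
  choose T J x hI using hinf
  choose C1 E1 g1 using fun l => (h2 L Λ (y b₀) (y l) hz).1 (hC.y_fin l)
  choose C2 E2 g2 using fun l => (h2 L Λ (y b₀) (y l / y b₀) hz).2 (hC.y_inf l)
  choose C3 E3 g3 using fun J => (h2 L Λ (y b₀) (c J) hz).1 (hc J)
  choose C4 E4 g4 using fun j => h3 L Λ M κ r d n m₀ e₀ E₀ S y b₀ α (ε j) (T j) (J j) (x j) hz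
    hC.α0 (hI j)
  obtain ⟨CL, hCL⟩ : ∃ CL : Finset L, CL = cf S.g ∪ (Finset.univ.biUnion (fun j => cf (S.F j)) ∪
    (Finset.univ.biUnion (fun j => Finset.univ.biUnion fun i => cf (S.A j i)) ∪
    (Finset.univ.biUnion C1 ∪ (Finset.univ.biUnion C2 ∪ (Finset.univ.biUnion C3 ∪
    Finset.univ.biUnion C4))))) := ⟨_, rfl⟩
  obtain ⟨E, hE⟩ : ∃ E : Finset Λ, E = Finset.univ.image y ∪ ({α, aeval y S.g,
    minor S.F S.I₀ y S.J₀} ∪ (Finset.univ.image c ∪ (Finset.univ.image ε ∪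
    (Finset.univ.biUnion E1 ∪ (Finset.univ.biUnion E2 ∪ (Finset.univ.biUnion E3 ∪
    Finset.univ.biUnion E4)))))) := ⟨_, rfl⟩
  have hyE : ∀ l, y l ∈ E := fun l => by
    rw [hE]
    exact Finset.mem_union_left _ (Finset.mem_image_of_mem _ (Finset.mem_univ l))
  have hFC : ∀ j, cf (S.F j) ⊆ CL := fun j a ha => by
    have : a ∈ Finset.univ.biUnion (fun j => cf (S.F j)) :=
      Finset.mem_biUnion.2 ⟨j, Finset.mem_univ j, ha⟩
    rw [hCL]
    simp only [Finset.mem_union]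
    tauto
  have hAC : ∀ j i, cf (S.A j i) ⊆ CL := fun j i a ha => by
    have : a ∈ Finset.univ.biUnion (fun j => Finset.univ.biUnion fun i => cf (S.A j i)) :=
      Finset.mem_biUnion.2 ⟨j, Finset.mem_univ j, Finset.mem_biUnion.2 ⟨i, Finset.mem_univ i, ha⟩⟩
    rw [hCL]
    simp only [Finset.mem_union]
    tauto
  have hgC : cf S.g ⊆ CL := fun a ha => by
    rw [hCL]
    simp only [Finset.mem_union]
    tauto
  have hC1 : ∀ l, C1 l ⊆ CL := fun l a ha => by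
    have : a ∈ Finset.univ.biUnion C1 := Finset.mem_biUnion.2 ⟨l, Finset.mem_univ l, ha⟩
    rw [hCL]
    simp only [Finset.mem_union]
    tauto
  have hC2 : ∀ l, C2 l ⊆ CL := fun l a ha => by
    have : a ∈ Finset.univ.biUnion C2 := Finset.mem_biUnion.2 ⟨l, Finset.mem_univ l, ha⟩
    rw [hCL]
    simp only [Finset.mem_union]
    tauto
  have hC3 : ∀ l, C3 l ⊆ CL := fun l a ha => by
    have : a ∈ Finset.univ.biUnion C3 := Finset.mem_biUnion.2 ⟨l, Finset.mem_univ l, ha⟩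
    rw [hCL]
    simp only [Finset.mem_union]
    tauto
  have hC4 : ∀ l, C4 l ⊆ CL := fun l a ha => by
    have : a ∈ Finset.univ.biUnion C4 := Finset.mem_biUnion.2 ⟨l, Finset.mem_univ l, ha⟩
    rw [hCL]
    simp only [Finset.mem_union]
    tauto
  have hE1 : ∀ l, E1 l ⊆ E := fun l a ha => by
    have : a ∈ Finset.univ.biUnion E1 := Finset.mem_biUnion.2 ⟨l, Finset.mem_univ l, ha⟩
    rw [hE]
    simp only [Finset.mem_union]
    tauto
  have hE2 : ∀ l, E2 l ⊆ E := fun l a ha => by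
    have : a ∈ Finset.univ.biUnion E2 := Finset.mem_biUnion.2 ⟨l, Finset.mem_univ l, ha⟩
    rw [hE]
    simp only [Finset.mem_union]
    tauto
  have hE3 : ∀ l, E3 l ⊆ E := fun l a ha => by
    have : a ∈ Finset.univ.biUnion E3 := Finset.mem_biUnion.2 ⟨l, Finset.mem_univ l, ha⟩
    rw [hE]
    simp only [Finset.mem_union]
    tauto
  have hE4 : ∀ l, E4 l ⊆ E := fun l a ha => by
    have : a ∈ Finset.univ.biUnion E4 := Finset.mem_biUnion.2 ⟨l, Finset.mem_univ l, ha⟩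
    rw [hE]
    simp only [Finset.mem_union]
    tauto
  have hcE : ∀ J, c J ∈ E := fun J => by
    have : c J ∈ Finset.univ.image c := Finset.mem_image_of_mem _ (Finset.mem_univ J)
    rw [hE]
    simp only [Finset.mem_union]
    tauto
  have hεE : ∀ j, ε j ∈ E := fun j => by
    have : ε j ∈ Finset.univ.image ε := Finset.mem_image_of_mem _ (Finset.mem_univ j)
    rw [hE]
    simp only [Finset.mem_union]
    tauto
  have hαE : α ∈ E := by rw [hE]; simp
  have hgE : aeval y S.g ∈ E := by rw [hE]; simp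
  have hJE : minor S.F S.I₀ y S.J₀ ∈ E := by rw [hE]; simp
  refine ⟨CL, E, hyE, fun j m hm => hFC j (mem_cf hm), ?_⟩
  intro k Λ' _ _ _ s Q hok htr hfin
  have cmem : ∀ G : MvPolynomial (Fin (M + 1)) L, cf G ⊆ CL → s.In G := fun G hG =>
    in_of fun a ha => (hok.hC a (hG ha)).1
  have hF : ∀ j, s.In (S.F j) := fun j => cmem _ (hFC j)
  have hA : ∀ j i, s.In (S.A j i) := fun j i => cmem _ (hAC j i)
  have hg : s.In S.g := cmem _ hgC
  have hy : ∀ l, y l ∈ s.O := fun l => (hok.hE _ (hyE l)).1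
  have hcO : ∀ J, c J ∈ s.O := fun J => (hok.hE _ (hcE J)).1
  have hεO : ∀ j, ε j ∈ s.O := fun j => (hok.hE _ (hεE j)).1
  have uz : Un s (y b₀) := un_of hok (hyE b₀) hz
  have uα : Un s α := un_of hok hαE hC.α0
  have ug : Un s (aeval y S.g) := un_of hok hgE hC.g0
  have uJ : Un s (minor S.F S.I₀ y S.J₀) := un_of hok hJE hC.J0
  have hrel : ∀ j, s.red S.g * s.red (S.F j) = ∑ i, s.red (S.A j i) * s.red (S.F (S.J₀ i)) := by
    intro j
    rw [← (in_mul h1 hg (hF j)).2, S.rel j, (in_sum h1 Finset.univ _ fun i _ =>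
      (in_mul h1 (hA j i) (hF (S.J₀ i))).1).2]
    exact Finset.sum_congr rfl fun i _ => (in_mul h1 (hA j i) (hF (S.J₀ i))).2
  obtain ⟨S', hS', hSI, hSJ, hSg⟩ : ∃ S' : System k M κ r d, (S'.F = fun j => s.red (S.F j)) ∧
      S'.I₀ = S.I₀ ∧ S'.J₀ = S.J₀ ∧ S'.g = s.red S.g :=
    ⟨⟨fun j => s.red (S.F j), fun j => hom h1 (S.hom j), S.I₀, S.J₀, s.red S.g,
      fun j i => s.red (S.A j i), hrel⟩, rfl, rfl, rfl, rfl⟩
  have hminor : ∀ J : Fin r → Fin κ, s.v (minor S.F S.I₀ y J) =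
      minor S'.F S'.I₀ (fun l => s.v (y l)) J := by
    intro J
    rw [(v_minor h1 S.I₀ J hF hy).2, hS', hSI]
  have hmO : ∀ J : Fin r → Fin κ, minor S.F S.I₀ y J ∈ s.O := fun J =>
    (v_minor h1 S.I₀ J hF hy).1
  have hsumε : ∑ j, s.v (ε j) = 1 := by
    rw [← v_sum _ _ fun j _ => hεO j, hε, v_one]
  have key : ∀ j, ∃ (T' : LogPoly S'.F b₀) (J : Fin r → Fin κ) (x : Λ'), FixedBy Q T'.a ∧
      FixedBy Q T'.χ ∧ InfData S' n m₀ e₀ E₀ (fun l => s.v (y l)) b₀ (s.v α) (s.v (ε j)) T' J x := by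
    intro j
    obtain ⟨T', h4, h5, h6⟩ := g4 j k Λ' s Q (ok_mono hok (hC4 j) (hE4 j)) S'
      (fun j => by rw [hS']) hSI
    exact ⟨T', J j, s.v (x j), h4, h5, h6⟩
  refine ⟨S', fun j => by rw [hS'], ⟨?_, ?_, ?_, ?_⟩⟩
  · refine ⟨hC.dimM, ?_, ?_, ?_, ?_, htr, hfin, ?_, ?_, hC.m0, hC.e0, uα.vne, ?_, ?_⟩
    · show s.v (y 0) = 1
      rw [hC.y0, v_one]
    · intro j
      rw [hS', ← (v_aeval h1 (hF j) hy).2, hC.yF, v_zero]
    · rw [hSg, ← (v_aeval h1 hg hy).2]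
      exact ug.vne
    · rw [hSJ, ← hminor]
      exact uJ.vne
    · intro l
      exact g1 l k Λ' s Q (ok_mono hok (hC1 l) (hE1 l))
    · intro l
      have h4 := g2 l k Λ' s Q (ok_mono hok (hC2 l) (hE2 l))
      rw [v_div (hy l) uz] at h4
      exact h4
    · refine ⟨fun J => s.v (c J), fun J => g3 J k Λ' s Q (ok_mono hok (hC3 J) (hE3 J)), ?_⟩
      have h4 : ∀ J, c J * (α * minor S.F S.I₀ y J ^ m₀) ∈ s.O := fun J =>
        s.O.mul_mem (hcO J) (s.O.mul_mem uα.mem (s.O.pow_mem (hmO J) _))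
      have h5 : s.v (∑ J, c J * (α * minor S.F S.I₀ y J ^ m₀)) = 1 := by rw [hsum, v_one]
      rw [v_sum _ _ fun J _ => h4 J] at h5
      rw [← h5]
      refine Finset.sum_congr rfl fun J _ => ?_
      rw [v_mul (hcO J) (s.O.mul_mem uα.mem (s.O.pow_mem (hmO J) _)),
        v_mul uα.mem (s.O.pow_mem (hmO J) _), v_pow (hmO J), hminor]
    · refine ⟨t, fun j => s.v (ε j), hsumε, fun j => ?_⟩
      obtain ⟨T', J, x, -, -, h6⟩ := key j
      exact ⟨T', J, x, h6⟩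
  · intro j
    rw [hS']
    exact fixed h1 hok (hF j)
  · rw [hSg]
    exact fixed h1 hok hg
  · exact ⟨t, fun j => s.v (ε j), hsumε, key⟩

end Pool.Agent.Lib.MP_410da7_agA
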