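import Pool.Agent.Lib.MP_410da7_agA.SpecE

/-!
# MP_410da7_ag, C46, E7a: orders of regular elements
-/

set_option autoImplicit false

namespace Pool.Agent.Lib.MP_410da7_agA

open MvPolynomial Module

namespace e7aAux

variable {k Λ : Type} [Field k] [Field Λ] [Algebra k Λ]

theorem exists_ps {f : LaurentSeries k} (h : 0 ≤ f.order) :
    ∃ P : PowerSeries k, HahnSeries.ofPowerSeries ℤ k P = f := by
  refine ⟨PowerSeries.mk fun n => f.coeff n, ?_⟩
  ext i
  rw [PowerSeries.coeff_coe]
  split_ifs with hi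
  · exact (HahnSeries.coeff_eq_zero_of_lt_order (lt_of_lt_of_le hi h)).symm
  · rw [PowerSeries.coeff_mk]
    congr 1
    omega

theorem ord_inv (C : Curve k Λ) (w : C.pt) {y : Λ} (hy : y ≠ 0) :
    C.ord w y⁻¹ = -C.ord w y := by
  have h1 : C.exp w y ≠ 0 := fun h => hy ((map_eq_zero (C.exp w)).1 h)
  have h2 : C.exp w y⁻¹ ≠ 0 := fun h => inv_ne_zero hy ((map_eq_zero (C.exp w)).1 h)
  have h3 : C.exp w y * C.exp w y⁻¹ = 1 := by rw [← map_mul, mul_inv_cancel₀ hy, map_one]
  have h4 := HahnSeries.order_mul h1 h2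
  rw [h3, HahnSeries.order_one] at h4
  simp only [Curve.ord]
  omega

theorem main (C : Curve k Λ) (w : C.pt) {u c : Λ} {G : Polynomial (Polynomial k)}
    (hG : G.eval₂ (Polynomial.aeval u : Polynomial k →ₐ[k] Λ).toRingHom c = 0)
    (hu : 0 ≤ C.ord w u) (hc : C.ord w c < 0) : G.leadingCoeff.eval (C.cf w 0 u) = 0 := by
  have hc0 : c ≠ 0 := by
    rintro rfl
    simp [Curve.ord] at hc
  obtain ⟨U, hU⟩ := exists_ps (f := C.exp w u) hu
  have hci : 0 < C.ord w c⁻¹ := by rw [ord_inv C w hc0]; omega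
  obtain ⟨D, hD⟩ := exists_ps (f := C.exp w c⁻¹) hci.le
  let φ : Polynomial k →+* Λ := (Polynomial.aeval u : Polynomial k →ₐ[k] Λ).toRingHom
  let ψ : Polynomial k →+* PowerSeries k := Polynomial.eval₂RingHom PowerSeries.C U
  have hφψ : (HahnSeries.ofPowerSeries ℤ k).comp ψ = (C.exp w).comp φ := by
    refine Polynomial.ringHom_ext (fun a => ?_) ?_
    · simp only [RingHom.comp_apply, ψ, φ, Polynomial.coe_eval₂RingHom, Polynomial.eval₂_C,
        HahnSeries.ofPowerSeries_C]
      change _ = C.exp w (Polynomial.aeval u (Polynomial.C a))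
      rw [Polynomial.aeval_C, C.exp_alg]
    · simp only [RingHom.comp_apply, ψ, φ, Polynomial.coe_eval₂RingHom, Polynomial.eval₂_X, hU]
      change _ = C.exp w (Polynomial.aeval u Polynomial.X)
      rw [Polynomial.aeval_X]
  have hR : G.reverse.eval₂ φ c⁻¹ = 0 := by
    let _ : Invertible c := invertibleOfNonzero hc0
    have := (Polynomial.eval₂_reverse_eq_zero_iff φ c G).2 hG
    rwa [invOf_eq_inv] at this
  have hR' : G.reverse.eval₂ ψ D = 0 := by
    apply HahnSeries.ofPowerSeries_injective (Γ := ℤ)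
    rw [Polynomial.hom_eval₂, hφψ, hD, ← Polynomial.hom_eval₂, hR, map_zero, map_zero]
  have hD0 : PowerSeries.constantCoeff D = 0 := by
    rw [← PowerSeries.coeff_zero_eq_constantCoeff_apply,
      ← HahnSeries.ofPowerSeries_apply_coeff (Γ := ℤ), hD]
    exact HahnSeries.coeff_eq_zero_of_lt_order (by exact_mod_cast hci)
  have hU0 : PowerSeries.constantCoeff U = C.cf w 0 u := by
    rw [← PowerSeries.coeff_zero_eq_constantCoeff_apply,
      ← HahnSeries.ofPowerSeries_apply_coeff (Γ := ℤ), hU]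
    rfl
  have h1 := congrArg PowerSeries.constantCoeff hR'
  rw [Polynomial.hom_eval₂, hD0, Polynomial.eval₂_at_zero, Polynomial.coeff_zero_reverse,
    map_zero] at h1
  have h2 : (PowerSeries.constantCoeff (R := k)).comp ψ = Polynomial.evalRingHom (C.cf w 0 u) := by
    refine Polynomial.ringHom_ext (fun a => ?_) ?_
    · simp [ψ]
    · simp [ψ, hU0]
  rw [h2] at h1
  exact h1

end e7aAux

open e7aAux

theorem e7a : E7aStmt := by
  intro k Λ _ _ _ C z c w
  constructor
  · rintro ⟨G, hG, hG'⟩ hz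
    by_contra h
    push Not at h
    have h1 := main C w hG' hz h
    rw [hG.leadingCoeff, Polynomial.eval_one] at h1
    exact one_ne_zero h1
  · rintro ⟨G, hG, hG'⟩ hz
    by_contra h
    push Not at h
    have hz0 : z ≠ 0 := by
      rintro rfl
      simp [Curve.ord] at hz
    have h2 : 0 < C.ord w z⁻¹ := by rw [ord_inv C w hz0]; omega
    have h1 := main C w hG' h2.le h
    have h3 : C.cf w 0 z⁻¹ = 0 := HahnSeries.coeff_eq_zero_of_lt_order h2
    rw [h3, ← Polynomial.coeff_zero_eq_eval_zero] at h1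
    exact hG h1

end Pool.Agent.Lib.MP_410da7_agA
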