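import Pool.Agent.Lib.MP_410da7_agA.SpecE

/-!
# MP_410da7_ag, C46, E7b: the local inequalities at a point
-/

set_option autoImplicit false

namespace Pool.Agent.Lib.MP_410da7_agA

open MvPolynomial Module

namespace e7bAux

variable {k Λ : Type} [Field k] [Field Λ] [Algebra k Λ]

theorem exp_ne (C : Curve k Λ) (w : C.pt) {y : Λ} (hy : y ≠ 0) : C.exp w y ≠ 0 :=
  fun h => hy ((map_eq_zero (C.exp w)).1 h)

theorem ord_mul (C : Curve k Λ) (w : C.pt) {y z : Λ} (hy : y ≠ 0) (hz : z ≠ 0) :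
    C.ord w (y * z) = C.ord w y + C.ord w z := by
  simp only [Curve.ord]
  rw [map_mul, HahnSeries.order_mul (exp_ne C w hy) (exp_ne C w hz)]

theorem ord_pow (C : Curve k Λ) (w : C.pt) (y : Λ) (n : ℕ) :
    C.ord w (y ^ n) = n * C.ord w y := by
  simp only [Curve.ord]
  rw [map_pow, HahnSeries.order_pow, nsmul_eq_mul]

theorem ord_one (C : Curve k Λ) (w : C.pt) : C.ord w 1 = 0 := by
  simp only [Curve.ord]
  rw [map_one, HahnSeries.order_one]

theorem ord_inv (C : Curve k Λ) (w : C.pt) {y : Λ} (hy : y ≠ 0) :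
    C.ord w y⁻¹ = -C.ord w y := by
  have h4 := ord_mul C w hy (inv_ne_zero hy)
  rw [mul_inv_cancel₀ hy, ord_one] at h4
  omega

theorem ord_div (C : Curve k Λ) (w : C.pt) {y z : Λ} (hy : y ≠ 0) (hz : z ≠ 0) :
    C.ord w (y / z) = C.ord w y - C.ord w z := by
  rw [div_eq_mul_inv, ord_mul C w hy (inv_ne_zero hz), ord_inv C w hz]
  ring

theorem ord_zpow (C : Curve k Λ) (w : C.pt) {y : Λ} (hy : y ≠ 0) (n : ℤ) :
    C.ord w (y ^ n) = n * C.ord w y := by
  cases n with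
  | ofNat n =>
    rw [Int.ofNat_eq_natCast, zpow_natCast, ord_pow]
  | negSucc n =>
    rw [zpow_negSucc, ord_inv C w (pow_ne_zero _ hy), ord_pow, Int.negSucc_eq]
    push_cast
    ring

theorem ord_prod (C : Curve k Λ) (w : C.pt) {ι : Type} (s : Finset ι) (f : ι → Λ)
    (hf : ∀ i ∈ s, f i ≠ 0) : C.ord w (∏ i ∈ s, f i) = ∑ i ∈ s, C.ord w (f i) := by
  classical
  induction s using Finset.induction_on with
  | empty => simp [ord_one]
  | insert a s ha ih =>
    rw [Finset.prod_insert ha, Finset.sum_insert ha, ord_mul C w (hf a (Finset.mem_insert_self _ _))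
      (Finset.prod_ne_zero_iff.2 fun i hi => hf i (Finset.mem_insert_of_mem hi)),
      ih fun i hi => hf i (Finset.mem_insert_of_mem hi)]

theorem cf_lt (C : Curve k Λ) (w : C.pt) {y : Λ} {i : ℤ} (h : y ≠ 0 → i < C.ord w y) :
    C.cf w i y = 0 := by
  by_cases hy : y = 0
  · rw [hy, map_zero]
  · exact HahnSeries.coeff_eq_zero_of_lt_order (h hy)

theorem le_ord (C : Curve k Λ) (w : C.pt) {y : Λ} (hy : y ≠ 0) {j : ℤ}
    (h : ∀ i < j, C.cf w i y = 0) : j ≤ C.ord w y := by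
  by_contra h1
  push Not at h1
  exact exp_ne C w hy (HahnSeries.coeff_order_eq_zero.1 (h _ h1))

theorem exists_unit (C : Curve k Λ) (w : C.pt) {ι : Type} [Fintype ι] (f : ι → Λ)
    (h : ∑ i, f i = 1) : ∃ i, f i ≠ 0 ∧ C.ord w (f i) ≤ 0 := by
  by_contra h1
  push Not at h1
  have h2 : C.cf w 0 (∑ i, f i) = 0 := by
    rw [map_sum]
    exact Finset.sum_eq_zero fun i _ => cf_lt C w (h1 i)
  rw [h] at h2
  have h3 : C.cf w 0 1 = 1 := by
    change (C.exp w 1).coeff 0 = 1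
    rw [map_one, HahnSeries.coeff_one, if_pos rfl]
  rw [h3] at h2
  exact one_ne_zero h2

theorem hom_ge (C : Curve k Λ) (w : C.pt) {N e : ℕ} (P : ℤ) (y : Fin N → Λ)
    (hy : ∀ l, y l ≠ 0 → -P ≤ C.ord w (y l)) (G : MvPolynomial (Fin N) k)
    (hG : G.IsHomogeneous e) (h0 : aeval y G ≠ 0) : -(e * P) ≤ C.ord w (aeval y G) := by
  refine le_ord C w h0 fun i hi => ?_
  rw [aeval_def, eval₂_eq', map_sum]
  refine Finset.sum_eq_zero fun d hd => ?_
  rw [← Algebra.smul_def, map_smul]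
  have h1 : C.cf w i (∏ l, y l ^ d l) = 0 := by
    refine cf_lt C w fun h2 => ?_
    rw [Finset.prod_ne_zero_iff] at h2
    rw [ord_prod C w _ _ h2]
    have h3 : ∑ l, ((d l : ℤ) * (-P)) ≤ ∑ l, C.ord w (y l ^ d l) := by
      refine Finset.sum_le_sum fun l hl => ?_
      rw [ord_pow]
      rcases Nat.eq_zero_or_pos (d l) with h4 | h4
      · rw [h4]; simp
      · have h5 : y l ≠ 0 := by
          intro h6
          exact h2 l hl (by rw [h6, zero_pow h4.ne'])
        exact mul_le_mul_of_nonneg_left (hy l h5) (by positivity)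
    have h4 : ∑ l, (d l : ℤ) = e := by
      have h5 : d.degree = e := by
        rw [Finsupp.degree_eq_weight_one]
        exact hG (mem_support_iff.1 hd)
      rw [Finsupp.degree_eq_sum] at h5
      exact_mod_cast h5
    rw [← Finset.sum_mul, h4] at h3
    linarith
  rw [h1, smul_zero]

end e7bAux

open e7bAux

theorem e7b (h1 : E7aStmt) : E7bStmt := by
  intro k Λ _ _ _ C Q M κ r d n m₀ e₀ E₀ S y b₀ α hc w P hP
  have hz : y b₀ ≠ 0 := by
    intro h
    have := hc.cert.trans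
    rw [h] at this
    exact this isAlgebraic_zero
  have hα := hc.cert.α0
  rcases lt_or_ge (C.ord w (y b₀)) 0 with hlt | hge
  · -- a pole
    have hP' : P = -(C.ord w (y b₀)) := by rw [hP]; exact max_eq_right (by omega)
    have hPpos : 0 < P := by omega
    have hy : ∀ l, y l ≠ 0 → -P ≤ C.ord w (y l) := by
      intro l hl
      have h2 := (h1 k Λ C (y b₀) (y l / y b₀) w).2 (hc.cert.y_inf l) hlt
      rw [ord_div C w hl hz] at h2
      omega
    refine ⟨fun l i hi => cf_lt C w fun hl => lt_of_lt_of_le hi (hy l hl), ?_⟩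
    obtain ⟨t, ε, hε, hT⟩ := hc.inf
    obtain ⟨j, hj0, hj⟩ := exists_unit C w ε hε
    obtain ⟨T, J, x, hTa, hTχ, hI⟩ := hT j
    have hx0 := hI.x0
    have hχ0 := hI.χ0
    have ha0 := hI.a0
    have hJ0 := hI.J0
    have hε0 : C.ord w (ε j) = 0 :=
      le_antisymm hj ((h1 k Λ C (y b₀) (ε j) w).2 hI.ε_reg hlt)
    have g1 := (h1 k Λ C (y b₀) _ w).2 hI.χ_reg hlt
    have g2 := (h1 k Λ C (y b₀) _ w).2 hI.τ_reg hlt
    have g3 := (h1 k Λ C (y b₀) _ w).2 hI.ζ_reg hlt
    have g4 := (h1 k Λ C (y b₀) _ w).2 hI.x_reg hlt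
    have hza : aeval y T.a / y b₀ ^ T.e ≠ 0 := div_ne_zero ha0 (pow_ne_zero _ hz)
    have oza : C.ord w (aeval y T.a / y b₀ ^ T.e) = C.ord w (aeval y T.a) + T.e * P := by
      rw [ord_div C w ha0 (pow_ne_zero _ hz), ord_pow, hP']
      ring
    rw [ord_div C w hj0 (div_ne_zero hχ0 (pow_ne_zero _ hz)),
      ord_div C w hχ0 (pow_ne_zero _ hz), ord_pow, hε0] at g1
    rw [ord_mul C w hj0 (mul_ne_zero (pow_ne_zero _ hza) hz), ord_mul C w (pow_ne_zero _ hza) hz,
      ord_pow, oza, hε0] at g3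
    rw [ord_mul C w hj0 (div_ne_zero hz (pow_ne_zero _ hx0)), ord_div C w hz (pow_ne_zero _ hx0),
      ord_pow, hε0] at g4
    have n1 : α * minor S.F S.I₀ y J ^ m₀ ≠ 0 := mul_ne_zero hα (pow_ne_zero _ hJ0)
    have n2 : α * minor S.F S.I₀ y J ^ m₀ *
        y b₀ ^ (((n : ℤ) + 1 - r * ((d : ℤ) - 1)) * m₀) ≠ 0 := mul_ne_zero n1 (zpow_ne_zero _ hz)
    have n3 : α * minor S.F S.I₀ y J ^ m₀ *
        y b₀ ^ (((n : ℤ) + 1 - r * ((d : ℤ) - 1)) * m₀) *
        (aeval y T.a / y b₀ ^ T.e) ^ m₀ ≠ 0 := mul_ne_zero n2 (pow_ne_zero _ hza)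
    have n4 : tau S n m₀ e₀ y b₀ α T J x ≠ 0 := div_ne_zero n3 (pow_ne_zero _ hx0)
    have otau : C.ord w (tau S n m₀ e₀ y b₀ α T J x) =
        C.ord w α + m₀ * C.ord w (minor S.F S.I₀ y J) +
        (((n : ℤ) + 1 - r * ((d : ℤ) - 1)) * m₀) * C.ord w (y b₀) +
        m₀ * (C.ord w (aeval y T.a) + T.e * P) - e₀ * C.ord w x := by
      unfold tau
      rw [ord_div C w n3 (pow_ne_zero _ hx0), ord_mul C w n2 (pow_ne_zero _ hza),
        ord_mul C w n1 (zpow_ne_zero _ hz), ord_mul C w hα (pow_ne_zero _ hJ0), ord_pow, ord_zpow C w hz,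
        ord_pow, ord_pow, oza]
    rw [ord_div C w hj0 n4, otau, hε0] at g2
    have hχge := hom_ge C w P y hy T.χ T.hχ hχ0
    have hage := hom_ge C w P y hy T.a T.ha ha0
    refine ⟨J, C.ord w (aeval y T.a) + T.e * P, -(C.ord w x), hJ0, by linarith, ?_, ?_, ?_, ?_⟩
    · intro h; omega
    · nlinarith
    · have e1 : C.ord w (y b₀) = -P := by omega
      rw [e1] at g2
      nlinarith
    · intro _
      have e1 : C.ord w (y b₀) = -P := by omega
      rw [e1] at g1 g3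
      refine ⟨T, hTa, hTχ, hχ0, ?_, ?_, ?_⟩
      · nlinarith
      · intro i hi
        refine cf_lt C w fun _ => ?_
        linarith
      · nlinarith
  · -- a finite place
    have hP' : P = 0 := by rw [hP]; exact max_eq_left (by omega)
    refine ⟨fun l i hi => ?_, ?_⟩
    · refine HahnSeries.coeff_eq_zero_of_lt_order (lt_of_lt_of_le hi ?_)
      rw [hP', neg_zero]
      exact (h1 k Λ C (y b₀) (y l) w).1 (hc.cert.y_fin l) hge
    · obtain ⟨c, hcreg, hcsum⟩ := hc.cert.c_fin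
      obtain ⟨J, hJ0, hJ⟩ := exists_unit C w _ hcsum
      have hc0 : c J ≠ 0 := left_ne_zero_of_mul hJ0
      have ham : α * minor S.F S.I₀ y J ^ m₀ ≠ 0 := right_ne_zero_of_mul hJ0
      have hm : minor S.F S.I₀ y J ≠ 0 := by
        intro h
        rw [h, zero_pow (by have := hc.cert.m0; omega), mul_zero] at ham
        exact ham rfl
      have hcge := (h1 k Λ C (y b₀) (c J) w).1 (hcreg J) hge
      rw [ord_mul C w hc0 ham, ord_mul C w hα (pow_ne_zero _ hm), ord_pow] at hJ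
      refine ⟨J, 0, 0, hm, le_rfl, fun _ => ⟨rfl, rfl⟩, by rw [hP']; simp, ?_, fun h => by omega⟩
      rw [hP']
      simp only [mul_zero, add_zero, sub_zero]
      linarith

end Pool.Agent.Lib.MP_410da7_agA
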