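import Pool.Agent.Lib.MP_410da7_agA.SpecE

/-!
# MP_410da7_ag, C46, E8: the Nullstellensatz certificate for the nonexistence of polynomial curves
-/

set_option autoImplicit false

namespace Pool.Agent.Lib.MP_410da7_agA

open MvPolynomial Module

namespace e8Aux

variable {A₀ A A' : Type} [CommRing A₀] [CommRing A] [CommRing A'] {N B κ : ℕ}

/-- The curve with constant terms `y` and the higher coefficients `a`. -/
noncomputable def crv (y : Fin N → A) (a : Fin N × Fin B → A) (l : Fin N) : Polynomial A :=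
  Polynomial.C (y l) + ∑ m : Fin B, Polynomial.C (a (l, m)) * Polynomial.X ^ ((m : ℕ) + 1)

theorem crv_zero (y : Fin N → A) (a : Fin N × Fin B → A) (l : Fin N) :
    (crv y a l).coeff 0 = y l := by
  simp [crv, Polynomial.coeff_X_pow]

theorem crv_succ (y : Fin N → A) (a : Fin N × Fin B → A) (l : Fin N) (n : ℕ) :
    (crv y a l).coeff (n + 1) = if h : n < B then a (l, ⟨n, h⟩) else 0 := by
  rw [crv, Polynomial.coeff_add, Polynomial.coeff_C_succ, zero_add, Polynomial.finsetSum_coeff]
  simp only [Polynomial.coeff_C_mul, Polynomial.coeff_X_pow, add_left_inj, mul_ite, mul_one,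
    mul_zero]
  split_ifs with h
  · rw [Finset.sum_eq_single (⟨n, h⟩ : Fin B)]
    · simp
    · intro m _ hm
      rw [if_neg]
      intro h1
      exact hm (Fin.ext h1.symm)
    · intro h1
      exact absurd (Finset.mem_univ _) h1
  · refine Finset.sum_eq_zero fun m _ => ?_
    rw [if_neg]
    intro h1
    exact h (h1 ▸ m.2)

theorem crv_natDegree_le (y : Fin N → A) (a : Fin N × Fin B → A) (l : Fin N) :
    (crv y a l).natDegree ≤ B := by
  rw [Polynomial.natDegree_le_iff_coeff_eq_zero]
  intro n hn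
  obtain ⟨k, rfl⟩ : ∃ k, n = k + 1 := ⟨n - 1, by omega⟩
  rw [crv_succ, dif_neg (by omega)]

theorem crv_map (ψ : A →+* A') (y : Fin N → A) (a : Fin N × Fin B → A) (l : Fin N) :
    (crv y a l).map ψ = crv (fun l => ψ (y l)) (fun v => ψ (a v)) l := by
  simp [crv, Polynomial.map_sum]

theorem eq_crv (Y : Fin N → Polynomial A) (hY : ∀ l, (Y l).natDegree ≤ B) (l : Fin N) :
    Y l = crv (fun l => (Y l).coeff 0)
      (fun v : Fin N × Fin B => (Y v.1).coeff ((v.2 : ℕ) + 1)) l := by
  ext n
  cases n with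
  | zero => rw [crv_zero]
  | succ n =>
    rw [crv_succ]
    split_ifs with h
    · rfl
    · exact Polynomial.coeff_eq_zero_of_natDegree_lt (by have := hY l; omega)

/-- The value of `p` at the polynomials `Y`. -/
noncomputable def tv (f : A₀ →+* A) (Y : Fin N → Polynomial A) (p : MvPolynomial (Fin N) A₀) :
    Polynomial A := p.eval₂ (Polynomial.C.comp f) Y

theorem tv_map (ψ : A →+* A') (f : A₀ →+* A) (Y : Fin N → Polynomial A)
    (p : MvPolynomial (Fin N) A₀) :
    (tv f Y p).map ψ = tv (ψ.comp f) (fun l => (Y l).map ψ) p := by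
  unfold tv
  rw [← Polynomial.coe_mapRingHom, MvPolynomial.eval₂_comp_left]
  congr 1
  ext a
  simp

theorem tv_mapLeft (f : A₀ →+* A) (g : A →+* A') (Y : Fin N → Polynomial A')
    (p : MvPolynomial (Fin N) A₀) : tv g Y (map f p) = tv (g.comp f) Y p := by
  unfold tv
  rw [eval₂_map]
  rfl

/-- The generators of the ideal of the curves. -/
noncomputable def gen (y : Fin N → A) (F : Fin κ → MvPolynomial (Fin N) A) (l₀ : Fin N) :
    (Fin κ × ℕ) ⊕ Fin B → MvPolynomial (Fin N × Fin B) A
  | Sum.inl p => (tv C (crv (fun l => C (y l)) X) (F p.1)).coeff p.2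
  | Sum.inr m => X (l₀, m)

theorem gen_map (f : A →+* A') (y : Fin N → A) (F : Fin κ → MvPolynomial (Fin N) A) (l₀ : Fin N)
    (i : (Fin κ × ℕ) ⊕ Fin B) :
    map f (gen y F l₀ i) = gen (fun l => f (y l)) (fun j => map f (F j)) l₀ i := by
  rcases i with ⟨j, i⟩ | m
  · simp only [gen]
    rw [← Polynomial.coeff_map, tv_map, tv_mapLeft]
    congr 2
    · ext a
      simp
    · funext l
      rw [crv_map]
      simp
  · simp [gen]

theorem gen_eval (φ : MvPolynomial (Fin N × Fin B) A →+* A') (y : Fin N → A)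
    (F : Fin κ → MvPolynomial (Fin N) A) (l₀ : Fin N) (j : Fin κ) (i : ℕ) :
    φ (gen y F l₀ (Sum.inl (j, i))) =
      (tv (φ.comp C) (crv (fun l => φ (C (y l))) (fun v => φ (X v))) (F j)).coeff i := by
  simp only [gen]
  rw [← Polynomial.coeff_map, tv_map]
  congr 2
  funext l
  rw [crv_map]

end e8Aux

open e8Aux

theorem e8 : E8Stmt := by
  intro Λ _ N κ B F y l₀ hno
  classical
  -- the certificate
  have hcert : ∀ v : Fin N × Fin B, ∃ (K : ℕ)
      (c : ((Fin κ × ℕ) ⊕ Fin B) →₀ MvPolynomial (Fin N × Fin B) Λ),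
      (c.sum fun i a => a * gen y F l₀ i) = X v ^ K := by
    intro v
    have hrad : (X v : MvPolynomial (Fin N × Fin B) Λ) ∈
        (Ideal.span (Set.range (gen (B := B) y F l₀))).radical := by
      by_contra hnot
      rw [Ideal.radical_eq_sInf, Ideal.mem_sInf] at hnot
      push Not at hnot
      obtain ⟨J, ⟨hIJ, hJ⟩, hvJ⟩ := hnot
      apply hno
      let ψ : MvPolynomial (Fin N × Fin B) Λ →+* FractionRing (MvPolynomial (Fin N × Fin B) Λ ⧸ J) :=
        (algebraMap (MvPolynomial (Fin N × Fin B) Λ ⧸ J) _).comp (Ideal.Quotient.mk J)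
      have hψ : ∀ s, ψ s = 0 ↔ s ∈ J := by
        intro s
        simp only [ψ, RingHom.comp_apply]
        rw [map_eq_zero_iff _ (IsFractionRing.injective _ _), Ideal.Quotient.eq_zero_iff_mem]
      let _ : Algebra Λ (FractionRing (MvPolynomial (Fin N × Fin B) Λ ⧸ J)) :=
        (ψ.comp C).toAlgebra
      refine ⟨FractionRing (MvPolynomial (Fin N × Fin B) Λ ⧸ J), inferInstance,
        (ψ.comp C).toAlgebra, crv (fun l => ψ (C (y l))) (fun v => ψ (X v)), ?_, ?_,
        crv_natDegree_le _ _, ?_, ?_⟩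
      · intro j
        have h1 : aeval (crv (fun l => ψ (C (y l))) (fun v => ψ (X v))) (F j) =
            tv (ψ.comp C) (crv (fun l => ψ (C (y l))) (fun v => ψ (X v))) (F j) := rfl
        rw [h1]
        ext i
        rw [← gen_eval ψ y F l₀ j i, Polynomial.coeff_zero, hψ]
        exact hIJ (Ideal.subset_span ⟨_, rfl⟩)
      · rw [← Nat.le_zero, Polynomial.natDegree_le_iff_coeff_eq_zero]
        intro n hn
        obtain ⟨m, rfl⟩ : ∃ m, n = m + 1 := ⟨n - 1, by omega⟩
        rw [crv_succ]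
        split_ifs with h
        · rw [hψ]
          exact hIJ (Ideal.subset_span ⟨Sum.inr ⟨m, h⟩, rfl⟩)
        · rfl
      · refine ⟨v.1, ?_⟩
        by_contra h
        have h1 : (crv (fun l => ψ (C (y l))) (fun v => ψ (X v)) v.1).natDegree = 0 := by omega
        have h2 : (crv (fun l => ψ (C (y l))) (fun v => ψ (X v)) v.1).coeff ((v.2 : ℕ) + 1) = 0 :=
          Polynomial.coeff_eq_zero_of_natDegree_lt (by omega)
        rw [crv_succ, dif_pos v.2.2, hψ] at h2
        exact hvJ h2
      · intro l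
        rw [crv_zero]
        rfl
    obtain ⟨K, hK⟩ := hrad
    rw [Finsupp.mem_ideal_span_range_iff_exists_finsupp] at hK
    obtain ⟨c, hc⟩ := hK
    exact ⟨K, c, hc⟩
  choose K c hc using hcert
  refine ⟨Finset.univ.biUnion fun v => (c v).support.biUnion fun i =>
    (c v i).support.image fun m => coeff m (c v i), ?_⟩
  intro R hR k' _ ε F' hF' Y hY hY0 hYB hyY
  -- lifts to `R`
  have hlift : ∀ p : MvPolynomial (Fin N × Fin B) Λ, (∀ m ∈ p.support, coeff m p ∈ R) →
      ∃ q : MvPolynomial (Fin N × Fin B) R, map R.subtype q = p := by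
    intro p hp
    have h1 : p ∈ Set.range (map R.subtype) := by
      rw [mem_range_map_iff_coeffs_subset]
      intro a ha
      obtain ⟨m, hm, rfl⟩ := mem_coeffs_iff.1 ha
      exact ⟨⟨_, hp m hm⟩, rfl⟩
    exact h1
  have hcR : ∀ v i, ∃ q : MvPolynomial (Fin N × Fin B) R, map R.subtype q = c v i := by
    intro v i
    by_cases hi : i ∈ (c v).support
    · refine hlift _ fun m hm => hR _ ?_
      rw [Finset.mem_biUnion]
      refine ⟨v, Finset.mem_univ _, ?_⟩
      rw [Finset.mem_biUnion]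
      exact ⟨i, hi, Finset.mem_image_of_mem _ hm⟩
    · rw [Finsupp.notMem_support_iff] at hi
      exact ⟨0, by rw [hi, map_zero]⟩
  choose cR hcR using hcR
  have hFR : ∀ j, ∃ q : MvPolynomial (Fin N) R, map R.subtype q = F j ∧ map ε q = F' j := by
    intro j
    have h1 : F j ∈ Set.range (map (σ := Fin N) R.subtype) := by
      rw [mem_range_map_iff_coeffs_subset]
      intro a ha
      obtain ⟨m, hm, rfl⟩ := mem_coeffs_iff.1 ha
      exact ⟨⟨_, (hF' j m).1⟩, rfl⟩
    obtain ⟨q, hq⟩ := h1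
    refine ⟨q, hq, ?_⟩
    ext m
    obtain ⟨h, hm⟩ := hF' j m
    rw [coeff_map, ← hm]
    congr 1
    apply Subtype.ext
    change ((coeff m q : R) : Λ) = coeff m (F j)
    rw [← hq, coeff_map]
    rfl
  choose FR hFR hFR' using hFR
  have hyR : ∀ l, ∃ a : R, (a : Λ) = y l ∧ ε a = (Y l).coeff 0 := by
    intro l
    obtain ⟨h, hl⟩ := hyY l
    exact ⟨⟨y l, h⟩, rfl, hl⟩
  choose yR hyR hyR' using hyR
  -- the identity over `R`
  have hid : ∀ v, ∑ i ∈ (c v).support, cR v i * gen yR FR l₀ i = X v ^ K v := by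
    intro v
    apply map_injective R.subtype Subtype.val_injective
    rw [map_sum, map_pow, map_X, ← hc v, Finsupp.sum]
    refine Finset.sum_congr rfl fun i _ => ?_
    rw [map_mul, hcR, gen_map]
    congr 2
    · funext l
      exact hyR l
    · funext j
      exact hFR j
  -- evaluation
  let φ : MvPolynomial (Fin N × Fin B) R →+* k' :=
    eval₂Hom ε (fun v => (Y v.1).coeff ((v.2 : ℕ) + 1))
  have hφC : ∀ a : R, φ (C a) = ε a := fun a => eval₂Hom_C _ _ _
  have hφX : ∀ v, φ (X v) = (Y v.1).coeff ((v.2 : ℕ) + 1) := fun v => eval₂Hom_X' _ _ _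
  have hφ : ∀ i, φ (gen yR FR l₀ i) = 0 := by
    rintro (⟨j, i⟩ | m)
    · rw [gen_eval]
      have h1 : (crv (fun l => φ (C (yR l))) (fun v => φ (X v)) : Fin N → Polynomial k') = Y := by
        funext l
        rw [eq_crv Y hYB l]
        congr 1
        · funext l'
          rw [hφC, hyR']
        · funext v
          rw [hφX]
      have h2 : φ.comp C = ε := by
        ext a
        exact hφC a
      rw [h1, h2]
      have h3 : tv ε Y (FR j) = aeval Y (F' j) := by
        have h4 := tv_mapLeft ε (RingHom.id k') Y (FR j)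
        rw [hFR', RingHom.id_comp] at h4
        rw [← h4]
        rfl
      rw [h3, hY j, Polynomial.coeff_zero]
    · change φ (X (l₀, m)) = 0
      rw [hφX]
      exact Polynomial.coeff_eq_zero_of_natDegree_lt (by simp only; omega)
  intro l
  by_contra hl
  have hpos : 0 < (Y l).natDegree := Nat.pos_of_ne_zero hl
  obtain ⟨m, hm⟩ : ∃ m, (Y l).natDegree = m + 1 := ⟨(Y l).natDegree - 1, by omega⟩
  have hmB : m < B := by have := hYB l; omega
  have h1 := congrArg φ (hid (l, ⟨m, hmB⟩))
  rw [map_sum, map_pow, hφX] at h1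
  have h2 : ∑ i ∈ (c (l, ⟨m, hmB⟩)).support,
      φ (cR (l, ⟨m, hmB⟩) i * gen yR FR l₀ i) = 0 :=
    Finset.sum_eq_zero fun i _ => by rw [map_mul, hφ, mul_zero]
  rw [h2] at h1
  have h3 : (Y l).coeff (m + 1) = 0 := eq_zero_of_pow_eq_zero h1.symm
  rw [← hm, Polynomial.coeff_natDegree, Polynomial.leadingCoeff_eq_zero] at h3
  rw [h3, Polynomial.natDegree_zero] at hpos
  exact lt_irrefl _ hpos

end Pool.Agent.Lib.MP_410da7_agA
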