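import Pool.Agent.Lib.MP_410da7_agA.SpecE

/-!
# MP_410da7_ag, C46, E9: the end theorem of the blocks E, F, G
-/

set_option autoImplicit false

namespace Pool.Agent.Lib.MP_410da7_agA

open MvPolynomial Module

namespace efgAux

section val

variable {k Λ : Type} [Field k] [Field Λ] [Algebra k Λ]

theorem exists_ps {f : LaurentSeries k} (h : ∀ i < 0, f.coeff i = 0) :
    ∃ P : PowerSeries k, HahnSeries.ofPowerSeries ℤ k P = f := by
  refine ⟨PowerSeries.mk fun n => f.coeff n, ?_⟩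
  ext i
  rw [PowerSeries.coeff_coe]
  split_ifs with hi
  · exact (h i hi).symm
  · rw [PowerSeries.coeff_mk]
    congr 1
    omega

theorem coeff_mul_neg {f g : LaurentSeries k} (hf : ∀ i < 0, f.coeff i = 0)
    (hg : ∀ i < 0, g.coeff i = 0) : ∀ i < 0, (f * g).coeff i = 0 := by
  obtain ⟨P, rfl⟩ := exists_ps hf
  obtain ⟨Q, rfl⟩ := exists_ps hg
  intro i hi
  rw [← map_mul, PowerSeries.coeff_coe, if_pos hi]

theorem coeff_mul_zero {f g : LaurentSeries k} (hf : ∀ i < 0, f.coeff i = 0)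
    (hg : ∀ i < 0, g.coeff i = 0) : (f * g).coeff 0 = f.coeff 0 * g.coeff 0 := by
  obtain ⟨P, rfl⟩ := exists_ps hf
  obtain ⟨Q, rfl⟩ := exists_ps hg
  rw [← map_mul, show (0 : ℤ) = ((0 : ℕ) : ℤ) from rfl, HahnSeries.ofPowerSeries_apply_coeff,
    HahnSeries.ofPowerSeries_apply_coeff, HahnSeries.ofPowerSeries_apply_coeff]
  simp only [PowerSeries.coeff_zero_eq_constantCoeff_apply, map_mul]

/-- The functions which are regular at the point `w`. -/
noncomputable def vr (C : Curve k Λ) (w : C.pt) : Subring Λ where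
  carrier := {y | ∀ i < 0, (C.exp w y).coeff i = 0}
  mul_mem' := by
    intro a b ha hb i hi
    rw [map_mul]
    exact coeff_mul_neg ha hb i hi
  one_mem' := by
    intro i hi
    rw [map_one, HahnSeries.coeff_one, if_neg (by omega)]
  add_mem' := by
    intro a b ha hb i hi
    rw [map_add, HahnSeries.coeff_add, ha i hi, hb i hi, add_zero]
  zero_mem' := by
    intro i _
    rw [map_zero, HahnSeries.coeff_zero]
  neg_mem' := by
    intro a ha i hi
    rw [map_neg, HahnSeries.coeff_neg, ha i hi, neg_zero]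

/-- The value at the point `w`. -/
noncomputable def vh (C : Curve k Λ) (w : C.pt) : vr C w →+* k where
  toFun y := (C.exp w y).coeff 0
  map_one' := by
    change (C.exp w 1).coeff 0 = 1
    rw [map_one, HahnSeries.coeff_one, if_pos rfl]
  map_mul' a b := by
    change (C.exp w ((a : Λ) * b)).coeff 0 = _
    rw [map_mul]
    exact coeff_mul_zero a.2 b.2
  map_zero' := by
    change (C.exp w 0).coeff 0 = 0
    rw [map_zero, HahnSeries.coeff_zero]
  map_add' a b := by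
    change (C.exp w ((a : Λ) + b)).coeff 0 = _
    rw [map_add, HahnSeries.coeff_add]

theorem mem_vr_of_ord (C : Curve k Λ) (w : C.pt) {y : Λ} (h : 0 ≤ C.ord w y) : y ∈ vr C w :=
  fun _ hi => HahnSeries.coeff_eq_zero_of_lt_order (lt_of_lt_of_le hi h)

theorem alg_mem_vr (C : Curve k Λ) (w : C.pt) (c : k) : algebraMap k Λ c ∈ vr C w := by
  intro i hi
  rw [C.exp_alg, HahnSeries.C_apply, HahnSeries.coeff_single_of_ne (by omega)]

theorem cf_alg (C : Curve k Λ) (w : C.pt) (c : k) : (C.exp w (algebraMap k Λ c)).coeff 0 = c := by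
  rw [C.exp_alg, HahnSeries.C_apply, HahnSeries.coeff_single_same]

end val

section spz

variable {L Λ k Λ' : Type} [Field L] [Field Λ] [Algebra L Λ] [Field k] [Field Λ'] [Algebra k Λ']
  (s : Spz L Λ k Λ')

theorem v_eq {u : Λ} (h : u ∈ s.O) : s.v u = s.π ⟨u, h⟩ := by
  unfold Spz.v
  rw [dif_pos h]

theorem c_eq {a : L} (h : a ∈ s.A) : s.c a = s.χ ⟨a, h⟩ := by
  unfold Spz.c
  rw [dif_pos h]

theorem c_zero : s.c 0 = 0 := by
  rw [c_eq s s.A.zero_mem]
  exact map_zero s.χ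

theorem v_alg {a : L} (h : a ∈ s.A) : s.v (algebraMap L Λ a) = algebraMap k Λ' (s.c a) := by
  rw [v_eq s (s.incl ⟨a, h⟩), c_eq s h]
  exact s.comp ⟨a, h⟩

theorem coeff_red {V : Type} (G : MvPolynomial V L) (m : V →₀ ℕ) :
    coeff m (s.red G) = s.c (coeff m G) := by
  classical
  unfold Spz.red
  rw [coeff_sum]
  simp only [coeff_monomial]
  rw [Finset.sum_ite_eq' G.support m (fun m => s.c (coeff m G))]
  split_ifs with h
  · rfl
  · rw [notMem_support_iff.1 h, c_zero]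

theorem v_mul {a b : Λ} (ha : a ∈ s.O) (hb : b ∈ s.O) : s.v (a * b) = s.v a * s.v b := by
  rw [v_eq s (s.O.mul_mem ha hb), v_eq s ha, v_eq s hb, ← map_mul]
  rfl

theorem v_add {a b : Λ} (ha : a ∈ s.O) (hb : b ∈ s.O) : s.v (a + b) = s.v a + s.v b := by
  rw [v_eq s (s.O.add_mem ha hb), v_eq s ha, v_eq s hb, ← map_add]
  rfl

/-- The functions which specialize to functions regular at `w`. -/
noncomputable def rr (C : Curve k Λ') (w : C.pt) : Subring Λ where
  carrier := {u | u ∈ s.O ∧ s.v u ∈ vr C w}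
  mul_mem' := by
    rintro a b ⟨ha, ha'⟩ ⟨hb, hb'⟩
    refine ⟨s.O.mul_mem ha hb, ?_⟩
    rw [v_eq s (s.O.mul_mem ha hb)]
    rw [v_eq s ha] at ha'
    rw [v_eq s hb] at hb'
    have := (vr C w).mul_mem ha' hb'
    rwa [← map_mul] at this
  one_mem' := by
    refine ⟨s.O.one_mem, ?_⟩
    rw [v_eq s s.O.one_mem]
    have := (vr C w).one_mem
    rwa [← map_one s.π] at this
  add_mem' := by
    rintro a b ⟨ha, ha'⟩ ⟨hb, hb'⟩
    refine ⟨s.O.add_mem ha hb, ?_⟩
    rw [v_eq s (s.O.add_mem ha hb)]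
    rw [v_eq s ha] at ha'
    rw [v_eq s hb] at hb'
    have := (vr C w).add_mem ha' hb'
    rwa [← map_add] at this
  zero_mem' := by
    refine ⟨s.O.zero_mem, ?_⟩
    rw [v_eq s s.O.zero_mem]
    have := (vr C w).zero_mem
    rwa [← map_zero s.π] at this
  neg_mem' := by
    rintro a ⟨ha, ha'⟩
    refine ⟨s.O.neg_mem ha, ?_⟩
    rw [v_eq s (s.O.neg_mem ha)]
    rw [v_eq s ha] at ha'
    have := (vr C w).neg_mem ha'
    rwa [← map_neg] at this

/-- The specialization on `rr`. -/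
noncomputable def rh (C : Curve k Λ') (w : C.pt) : rr s C w →+* vr C w where
  toFun u := ⟨s.v u, u.2.2⟩
  map_one' := by
    apply Subtype.ext
    change s.v 1 = 1
    rw [v_eq s s.O.one_mem]
    exact map_one s.π
  map_mul' a b := Subtype.ext (v_mul s a.2.1 b.2.1)
  map_zero' := by
    apply Subtype.ext
    change s.v 0 = 0
    rw [v_eq s s.O.zero_mem]
    exact map_zero s.π
  map_add' a b := Subtype.ext (v_add s a.2.1 b.2.1)

end spz

theorem pow_fix {k : Type} [Field k] {a : k} {Q : ℕ} (h : a ^ Q = a) (m : ℕ) :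
    a ^ Q ^ m = a := by
  induction m with
  | zero => simp
  | succ m ih => rw [pow_succ, pow_mul, ih, h]

end efgAux

open efgAux

theorem efg (h1 : FF1Stmt) (h2 : FF5Stmt) (h3 : FF7Stmt) (h4 : FF10Stmt) (h5 : FG16Stmt)
    (h6 : E4Stmt) (h7 : E6cStmt) (h8 : E7cStmt) (h9 : E8Stmt) : EFGStmt := by
  intro L Λ _ _ _ _ M κ r d n m₀ e₀ E₀ B S y b₀ α hc hB
  classical
  by_contra hno
  -- E8
  obtain ⟨E₁, hE₁⟩ := h9 Λ (M + 1) κ B (fun j => map (algebraMap L Λ) (S.F j)) y 0 (by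
    rintro ⟨Ω, _, iΩ, Y, hY, hY0, hYB, hYl, hYy⟩
    apply hno
    let iL : Algebra L Ω := ((algebraMap Λ Ω).comp (algebraMap L Λ)).toAlgebra
    refine ⟨Ω, inferInstance, iL, iΩ, IsScalarTower.of_algebraMap_eq' rfl, Y, ?_, ?_, hYB, hYl,
      hYy⟩
    · intro j
      rw [← hY j, aeval_def, aeval_def, eval₂_map]
      rfl
    · rw [Polynomial.eq_C_of_natDegree_eq_zero hY0, hYy 0, hc.y0, map_one, map_one])
  -- E6c, E4
  obtain ⟨CL, E, hyE, hFC, hE⟩ := h7 L Λ M κ r d n m₀ e₀ E₀ S y b₀ α hc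
  obtain ⟨p, e, hp, k, Λ', i1, i2, i3, i4, i5, s, he, hOk, -, htr, hfd⟩ :=
    h6 L Λ (y b₀) hc.trans hc.fin CL (E ∪ E₁)
  have hOk' : s.Ok (p ^ e) CL E :=
    ⟨hOk.hC, fun u hu => hOk.hE u (Finset.mem_union_left _ hu), hOk.frob⟩
  obtain ⟨S', hS', hcQ⟩ := hE k Λ' s (p ^ e) hOk' htr hfd
  -- the curve
  obtain ⟨x, hx⟩ := h1 k Λ' (s.v (y b₀)) htr hfd
  obtain ⟨C, hC⟩ := h2 k Λ' x hx
  obtain ⟨hinf, hpole⟩ := h3 k Λ' C hC x hx
  obtain ⟨ℓ, μ, a', hPt, hlog, ha', hsum, hlt⟩ := h8 k Λ' C (p ^ e) M κ r d n m₀ e₀ E₀ B S'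
    (fun l => s.v (y l)) b₀ (s.v α) hcQ hB (hpole _ htr)
    (fun w => max 0 (-(C.ord w (s.v (y b₀))))) (fun _ => rfl)
  obtain ⟨P, hP⟩ : ∃ P : C.pt → ℤ, P = fun w => max 0 (-(C.ord w (s.v (y b₀)))) := ⟨_, rfl⟩
  rw [← hP] at hPt hsum hlt
  have hlog' : ∀ w, 0 < P w → ∃ T : LogPoly S'.F b₀, FixedBy (p ^ e) T.a ∧ FixedBy (p ^ e) T.χ ∧
      aeval (fun l => s.v (y l)) T.χ ≠ 0 ∧
      C.ord w (aeval (fun l => s.v (y l)) T.χ) = - (T.e₁ * P w) ∧
      (∀ i < μ w - T.e * P w, C.cf w i (aeval (fun l => s.v (y l)) T.a) = 0) ∧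
      P w ≤ T.lam * μ w := by
    intro w hw
    rw [hP] at hw ⊢
    exact hlog w hw
  obtain ⟨γ, hγ⟩ := h4 k Λ' C hC x hx
  -- the set of good points
  obtain ⟨U, hU⟩ : ∃ U : Set C.pt, U = {w | P w = 0 ∧ ∀ u ∈ E ∪ E₁, 0 ≤ C.ord w (s.v u)} :=
    ⟨_, rfl⟩
  have hUinf : U.Infinite := by
    have hfin : Uᶜ.Finite := by
      have h10 : ({w | P w ≠ 0} ∪ ⋃ u ∈ (E ∪ E₁ : Finset Λ),
          {w | C.ord w (s.v u) ≠ 0}).Finite := by
        refine hPt.Pfin.union (Set.Finite.biUnion (Finset.finite_toSet _) fun u _ => ?_)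
        by_cases hu : s.v u = 0
        · have h11 : {w | C.ord w (s.v u) ≠ 0} = ∅ := by
            ext w
            simp [hu, Curve.ord]
          rw [h11]
          exact Set.finite_empty
        · exact C.finite _ hu
      refine h10.subset fun w hw => ?_
      rw [hU, Set.mem_compl_iff, Set.mem_ofPred_eq] at hw
      by_cases hw0 : P w = 0
      · right
        by_contra h11
        apply hw
        refine ⟨hw0, fun u hu => ?_⟩
        by_contra h12
        apply h11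
        rw [Set.mem_iUnion₂]
        exact ⟨u, hu, fun h13 => h12 h13.ge⟩
      · left
        exact hw0
    intro hUf
    exact Set.infinite_univ (α := C.pt) (by
      rw [← Set.union_compl_self U]
      exact hUf.union hfin)
  obtain ⟨m, w, hwU, k', i6, i7, Yp, hYp, hYp0, hYpB, hYpl, hYpy⟩ := h5 k Λ' p e C M κ r d n S'
    (fun l => s.v (y l)) P ℓ μ b₀ hc.dimM he hcQ.F_fix hcQ.g_fix hPt hlog' a' γ B ha' hsum hlt
    (by
      intro m
      have h10 := hγ ((m : ℤ) • P) (hPt.Pfin.subset fun w hw h0 => hw (by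
        change (m : ℤ) • P w = 0
        rw [h0, smul_zero]))
      have h11 : ∑ᶠ w, ((m : ℤ) • P) w = (m : ℤ) * ∑ᶠ w, P w := by
        rw [mul_finsum]
        rfl
      rwa [h11] at h10)
    U hUinf (fun w hw => by rw [hU] at hw; exact hw.1)
  rw [hU] at hwU
  obtain ⟨-, hwU⟩ := hwU
  -- the homomorphism
  let ε : rr s C w →+* k' :=
    (algebraMap k k').comp ((iterateFrobenius k p (e * m)).comp ((vh C w).comp (rh s C w)))
  have hε : ∀ u : rr s C w, ε u = algebraMap k k' ((C.exp w (s.v u)).coeff 0 ^ (p ^ e) ^ m) := by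
    intro u
    rw [← pow_mul]
    rfl
  have hmem : ∀ u ∈ E ∪ E₁, u ∈ rr s C w := fun u hu =>
    ⟨(hOk.hE u hu).1, mem_vr_of_ord C w (hwU u hu)⟩
  have hA : ∀ j m', coeff m' (S.F j) ∈ s.A := by
    intro j m'
    by_cases h : m' ∈ (S.F j).support
    · exact (hOk.hC _ (hFC j m' h)).1
    · rw [notMem_support_iff.1 h]
      exact s.A.zero_mem
  have hfinal := hE₁ (rr s C w) (fun u hu => hmem u (Finset.mem_union_right _ hu)) k' ε
    (fun j => map (algebraMap k k') (S'.F j)) (by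
      intro j m'
      have h10 : algebraMap L Λ (coeff m' (S.F j)) ∈ rr s C w := by
        refine ⟨s.incl ⟨_, hA j m'⟩, ?_⟩
        rw [v_alg s (hA j m')]
        exact alg_mem_vr C w _
      have h11 : coeff m' (map (algebraMap L Λ) (S.F j)) = algebraMap L Λ (coeff m' (S.F j)) :=
        coeff_map _ _ _
      refine ⟨by rw [h11]; exact h10, ?_⟩
      rw [hε]
      simp only [h11]
      rw [v_alg s (hA j m'), cf_alg, coeff_map, hS' j, coeff_red, pow_fix (hOk.frob _ (hA j m'))])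
    Yp (by
      intro j
      rw [← hYp j, aeval_def, aeval_def, eval₂_map]
      rfl)
    (by rw [hYp0, Polynomial.natDegree_one]) hYpB (by
      intro l
      refine ⟨hmem _ (Finset.mem_union_left _ (hyE l)), ?_⟩
      rw [hε, hYpy l]
      rfl)
  obtain ⟨l, hl⟩ := hYpl
  rw [hfinal l] at hl
  exact lt_irrefl _ hl

end Pool.Agent.Lib.MP_410da7_agA
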