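import Pool.Agent.Lib.MP_410da7_agA.SpecF

/-! # MP_410da7_ag, C46, F1: a function without poles is a constant -/

set_option autoImplicit false

namespace Pool.Agent.Lib.MP_410da7_agA

open MvPolynomial Module

namespace f1Aux

variable {k Λ : Type} [Field k] [Field Λ] [Algebra k Λ]

theorem exp_ne (C : Curve k Λ) (w : C.pt) {y : Λ} (hy : y ≠ 0) : C.exp w y ≠ 0 :=
  (map_ne_zero (C.exp w)).2 hy

/-- the order is at least `m` if the coefficients below `m` are zero -/
theorem le_order (C : Curve k Λ) (w : C.pt) {y : Λ} (hy : y ≠ 0) {m : ℤ}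
    (h : ∀ i : ℤ, i < m → (C.exp w y).coeff i = 0) : m ≤ (C.exp w y).order := by
  by_contra h1
  exact exp_ne C w hy (HahnSeries.coeff_order_eq_zero.1 (h _ (not_le.1 h1)))

theorem sum_eq (C : Curve k Λ) {y : Λ} (hy : y ≠ 0) :
    ∑ w ∈ (C.finite y hy).toFinset, (C.exp w y).order = 0 := by
  have h := C.sum y hy
  rwa [finsum_eq_sum_of_support_subset (s := (C.finite y hy).toFinset)] at h
  intro w hw
  rw [Set.Finite.coe_toFinset]
  exact hw

end f1Aux

open f1Aux

theorem f1 : F1Stmt := by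
  intro k Λ _ _ _ C w₀ y hy
  set c : k := (C.exp w₀ y).coeff 0 with hc
  refine ⟨c, ?_⟩
  by_contra hne
  have hz : y - algebraMap k Λ c ≠ 0 := fun h => hne (sub_eq_zero.1 h).symm
  set z := y - algebraMap k Λ c with hzdef
  have hexp : ∀ w, C.exp w z = C.exp w y - HahnSeries.C c := by
    intro w
    rw [hzdef, map_sub, C.exp_alg]
  have hcoe : ∀ w (i : ℤ), i < 0 → (C.exp w z).coeff i = 0 := by
    intro w i hi
    rw [hexp, HahnSeries.coeff_sub, hy w i (by simpa using hi), HahnSeries.C_apply,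
      HahnSeries.coeff_single_of_ne (ne_of_lt hi), sub_zero]
  have h0 : (C.exp w₀ z).coeff 0 = 0 := by
    rw [hexp, HahnSeries.coeff_sub, HahnSeries.C_apply, HahnSeries.coeff_single_same, ← hc, sub_self]
  have hnn : ∀ w, 0 ≤ (C.exp w z).order := fun w => le_order C w hz (hcoe w)
  have h1 : (1 : ℤ) ≤ (C.exp w₀ z).order := by
    refine le_order C w₀ hz fun i hi => ?_
    rcases lt_or_eq_of_le (Int.lt_add_one_iff.1 (by simpa using hi) : i ≤ 0) with h | h
    · exact hcoe w₀ i h
    · rw [h]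
      exact h0
  have hs := sum_eq C hz
  rw [Finset.sum_eq_zero_iff_of_nonneg (fun w _ => hnn w)] at hs
  have hmem : w₀ ∈ (C.finite z hz).toFinset := by
    rw [Set.Finite.mem_toFinset]
    intro h
    rw [h] at h1
    omega
  have := hs w₀ hmem
  omega

end Pool.Agent.Lib.MP_410da7_agA
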