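import Pool.Agent.Lib.MP_410da7_agA.SpecF

/-!
# MP_410da7_ag, smooth affine varieties: F10

Coefficients of the values of a homogeneous polynomial at the generic point.
-/

set_option autoImplicit false

namespace Pool.Agent.Lib.MP_410da7_agA

open MvPolynomial Module

namespace f10Aux

variable {k Λ : Type} [Field k] [Field Λ] [Algebra k Λ]

/-- Products of functions in Riemann-Roch spaces. -/
lemma mul_mem (C : Curve k Λ) {P Q : C.pt → ℤ} {a b : Λ} (ha : a ∈ C.L P) (hb : b ∈ C.L Q) :
    a * b ∈ C.L (P + Q) := by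
  intro w i hi
  rw [map_mul, HahnSeries.coeff_mul]
  refine Finset.sum_eq_zero fun ij hij => ?_
  rw [Finset.mem_antidiagonal] at hij
  have h := hij.2.2
  rw [Pi.add_apply] at hi
  by_cases h1 : ij.1 < -P w
  · rw [ha w ij.1 h1, zero_mul]
  · have h2 : ij.2 < -Q w := by omega
    rw [hb w ij.2 h2, mul_zero]

lemma one_mem (C : Curve k Λ) : (1 : Λ) ∈ C.L 0 := by
  intro w i hi
  rw [map_one, HahnSeries.coeff_one, if_neg]
  rw [Pi.zero_apply] at hi
  omega

/-- All coefficients are in `L(P)`. -/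
def CL (C : Curve k Λ) {V : Type} (P : C.pt → ℤ) (p : MvPolynomial V Λ) : Prop :=
  ∀ m, coeff m p ∈ C.L P

lemma CL.mul {C : Curve k Λ} {V : Type} {P Q : C.pt → ℤ} {p q : MvPolynomial V Λ}
    (hp : CL C P p) (hq : CL C Q q) : CL C (P + Q) (p * q) := by
  classical
  intro m
  rw [coeff_mul]
  exact Submodule.sum_mem _ fun x _ => mul_mem C (hp _) (hq _)

lemma CL.one {C : Curve k Λ} {V : Type} : CL C 0 (1 : MvPolynomial V Λ) := by
  classical
  intro m
  rw [coeff_one]
  split_ifs
  · exact one_mem C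
  · exact Submodule.zero_mem _

lemma CL.pow {C : Curve k Λ} {V : Type} {P : C.pt → ℤ} {p : MvPolynomial V Λ}
    (hp : CL C P p) (n : ℕ) : CL C ((n : ℤ) • P) (p ^ n) := by
  induction n with
  | zero =>
    rw [pow_zero, Nat.cast_zero, zero_smul]
    exact CL.one
  | succ n ih =>
    rw [pow_succ, Nat.cast_succ, add_smul, one_smul]
    exact ih.mul hp

lemma CL.prod {C : Curve k Λ} {V ι : Type} {P : C.pt → ℤ} (s : Finset ι) (e : ι → ℕ)
    (p : ι → MvPolynomial V Λ) (hp : ∀ i, CL C P (p i)) :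
    CL C (((∑ i ∈ s, e i : ℕ) : ℤ) • P) (∏ i ∈ s, p i ^ e i) := by
  classical
  induction s using Finset.induction_on with
  | empty =>
    rw [Finset.prod_empty, Finset.sum_empty, Nat.cast_zero, zero_smul]
    exact CL.one
  | insert a s ha ih =>
    rw [Finset.prod_insert ha, Finset.sum_insert ha, Nat.cast_add, add_smul]
    exact ((hp a).pow _).mul ih

lemma CL.hpt {C : Curve k Λ} {N D : ℕ} {P : C.pt → ℤ} {Y : Fin N → Λ} {ω : Fin D → Λ}
    (hY : ∀ l, Y l ∈ C.L P) (hω : ∀ j, ω j ∈ C.L P) (l : Fin N) : CL C P (hpt Y ω l) := by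
  classical
  intro m
  rw [MP_410da7_agA.hpt, coeff_add, coeff_sum]
  refine Submodule.add_mem _ ?_ (Submodule.sum_mem _ fun j _ => ?_)
  · rw [coeff_C]
    split_ifs
    · exact hY l
    · exact Submodule.zero_mem _
  · rw [coeff_C_mul, coeff_X]
    split_ifs
    · rw [mul_one]
      exact hω j
    · rw [mul_zero]
      exact Submodule.zero_mem _

end f10Aux

open f10Aux in
theorem f10 : F10Stmt := by
  intro k Λ _ _ _ C N D d P Y ω hY hω G hG m
  rw [hval, aeval_def, eval₂_eq', coeff_sum]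
  refine Submodule.sum_mem _ fun e he => ?_
  have hd : ∑ i, e i = d := by
    by_contra hne
    rw [MvPolynomial.mem_support_iff] at he
    apply he
    apply hG.coeff_eq_zero
    rwa [Finsupp.degree_eq_sum]
  have h := CL.prod (C := C) (P := P) Finset.univ (fun i => e i) (hpt Y ω)
    (fun i => CL.hpt hY hω i) m
  rw [hd] at h
  rw [← Algebra.smul_def, coeff_smul]
  exact Submodule.smul_mem _ _ h

end Pool.Agent.Lib.MP_410da7_agA
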