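import Pool.Agent.Lib.MP_410da7_agA.SpecF

/-!
# MP_410da7_ag, smooth affine varieties: evaluation in Laurent series

Auxiliary facts for F11, F13, F14, G4: the ring homomorphism `Λ[a] → Ω((t))` given by the expansion
at a point `w` and a point `s` over `Ω`; the divisor `c_1 + ... + c_b`; the operation `push`.
-/

set_option autoImplicit false

namespace Pool.Agent.Lib.MP_410da7_agA

open MvPolynomial Module

namespace EvW

variable {k Λ : Type} [Field k] [Field Λ] [Algebra k Λ]

/-! ### The divisor `c_1 + ... + c_b` -/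

lemma ptDiv_nonneg {α : Type} {b : ℕ} (c : Fin b → α) (w : α) : 0 ≤ ptDiv c w := by
  classical
  unfold ptDiv
  refine Finset.sum_nonneg fun i _ => ?_
  split_ifs <;> simp

lemma ptDiv_apply {α : Type} {b : ℕ} {c : Fin b → α} (hc : Function.Injective c) (i : Fin b) :
    ptDiv c (c i) = 1 := by
  classical
  unfold ptDiv
  rw [Finset.sum_eq_single i]
  · simp
  · intro j _ hj
    exact if_neg fun h => hj (hc h)
  · intro h
    exact absurd (Finset.mem_univ _) h

lemma ptDiv_of_ne {α : Type} {b : ℕ} {c : Fin b → α} {w : α} (hw : ∀ i, c i ≠ w) :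
    ptDiv c w = 0 := by
  classical
  unfold ptDiv
  exact Finset.sum_eq_zero fun i _ => if_neg (hw i)

lemma L_mono (C : Curve k Λ) {D D' : C.pt → ℤ} (h : ∀ w, D w ≤ D' w) : C.L D ≤ C.L D' := by
  intro y hy w i hi
  exact hy w i (by have := h w; omega)

lemma L_sub_le (C : Curve k Λ) (P : C.pt → ℤ) {b : ℕ} (c : Fin b → C.pt) :
    C.L (P - ptDiv c) ≤ C.L P := by
  refine L_mono C fun w => ?_
  have := ptDiv_nonneg c w
  simp only [Pi.sub_apply]
  omega

/-! ### `push` -/

lemma coeff_push {V : Type} (φ : Λ →ₗ[k] k) (p : MvPolynomial V Λ) (m : V →₀ ℕ) :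
    coeff m (push φ p) = φ (coeff m p) := by
  classical
  rw [push, coeff_sum]
  simp only [coeff_monomial]
  rw [Finset.sum_ite_eq']
  split_ifs with h
  · rfl
  · rw [MvPolynomial.notMem_support_iff] at h
    rw [h, map_zero]

lemma push_mem_mx {V : Type} (φ : Λ →ₗ[k] k) (p : MvPolynomial V Λ) :
    push φ p ∈ mx V k ↔ φ (constantCoeff p) = 0 := by
  rw [mx, RingHom.mem_ker, constantCoeff_eq, constantCoeff_eq, coeff_push]

/-! ### The generic point -/

lemma constantCoeff_hpt {N D : ℕ} (Y : Fin N → Λ) (ω : Fin D → Λ) (l : Fin N) :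
    constantCoeff (hpt Y ω l) = Y l := by
  simp [hpt]

lemma constantCoeff_hval {N D : ℕ} (Y : Fin N → Λ) (ω : Fin D → Λ) (G : MvPolynomial (Fin N) k) :
    constantCoeff (hval Y ω G) = aeval Y G := by
  rw [hval, map_aeval, aeval_def, coe_eval₂Hom]
  congr 1
  · ext x
    exact constantCoeff_C (R := Λ) _ _
  · ext l
    exact constantCoeff_hpt Y ω l

/-! ### Laurent series -/

/-- The coefficientwise extension of a ring homomorphism. -/
noncomputable def mapL {k Ω : Type} [Field k] [Field Ω] (f : k →+* Ω) :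
    LaurentSeries k →+* LaurentSeries Ω where
  toFun x := HahnSeries.map x f
  map_one' := by
    ext i
    simp only [HahnSeries.map_coeff, HahnSeries.coeff_one]
    split_ifs <;> simp
  map_mul' x y := HahnSeries.map_mul (f : k →ₙ+* Ω)
  map_zero' := by
    ext i
    simp
  map_add' x y := by
    ext i
    simp

lemma mapL_coeff {k Ω : Type} [Field k] [Field Ω] (f : k →+* Ω) (x : LaurentSeries k) (i : ℤ) :
    (mapL f x).coeff i = f (x.coeff i) := rfl

lemma mapL_C {k Ω : Type} [Field k] [Field Ω] (f : k →+* Ω) (x : k) :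
    mapL f (HahnSeries.C x) = HahnSeries.C (f x) := by
  ext i
  rw [mapL_coeff, HahnSeries.C_apply, HahnSeries.C_apply]
  by_cases h : i = 0
  · subst h
    rw [HahnSeries.coeff_single_same, HahnSeries.coeff_single_same]
  · rw [HahnSeries.coeff_single_of_ne h, HahnSeries.coeff_single_of_ne h, map_zero]

variable {Ω : Type} [Field Ω] [Algebra k Ω]

/-- The evaluation `Λ[a] → Ω((t))`: the expansion at `w` on `Λ` and `a_v ↦ s_v`. -/
noncomputable def ev (C : Curve k Λ) (w : C.pt) {V : Type} (s : V → Ω) :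
    MvPolynomial V Λ →+* LaurentSeries Ω :=
  eval₂Hom ((mapL (algebraMap k Ω)).comp (C.exp w)) (fun v => HahnSeries.C (s v))

lemma ev_C (C : Curve k Λ) (w : C.pt) {V : Type} (s : V → Ω) (y : Λ) :
    ev C w s (MvPolynomial.C y) = mapL (algebraMap k Ω) (C.exp w y) := by
  simp [ev]

lemma ev_X (C : Curve k Λ) (w : C.pt) {V : Type} (s : V → Ω) (v : V) :
    ev C w s (X v) = HahnSeries.C (s v) := by
  simp [ev]

lemma ev_coeff (C : Curve k Λ) (w : C.pt) {V : Type} (s : V → Ω) (p : MvPolynomial V Λ) (i : ℤ) :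
    (ev C w s p).coeff i = aeval s (push (C.cf w i) p) := by
  rw [ev, coe_eval₂Hom, eval₂_eq, push, map_sum, HahnSeries.coeff_sum]
  refine Finset.sum_congr rfl fun m _ => ?_
  rw [aeval_monomial]
  have h : ∏ v ∈ m.support, (HahnSeries.C (s v) : LaurentSeries Ω) ^ m v =
      HahnSeries.C (m.prod fun v n => s v ^ n) := by
    rw [Finsupp.prod, map_prod]
    simp only [map_pow]
  rw [h, mul_comm, HahnSeries.C_mul_eq_smul, HahnSeries.coeff_smul, smul_eq_mul, mul_comm]
  rfl

lemma ev_map (C : Curve k Λ) (w : C.pt) {V : Type} (s : V → Ω) (q : MvPolynomial V k) :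
    ev C w s (MvPolynomial.map (algebraMap k Λ) q) = HahnSeries.C (aeval s q) := by
  have h : (ev C w s).comp (MvPolynomial.map (algebraMap k Λ)) =
      (HahnSeries.C : Ω →+* LaurentSeries Ω).comp (aeval s : MvPolynomial V k →ₐ[k] Ω) := by
    apply MvPolynomial.ringHom_ext
    · intro r
      simp only [RingHom.comp_apply, MvPolynomial.map_C, ev_C, C.exp_alg, mapL_C]
      simp
    · intro v
      simp only [RingHom.comp_apply, MvPolynomial.map_X, ev_X]
      simp
  exact RingHom.congr_fun h q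

lemma ev_ext (C : Curve k Λ) (w : C.pt) {V : Type} (s : V → Ω) {𝔓 : Ideal (MvPolynomial V k)}
    (hs : ∀ q ∈ 𝔓, aeval s q = 0) {p : MvPolynomial V Λ} (hp : p ∈ ext Λ 𝔓) :
    ev C w s p = 0 := by
  have h : ext Λ 𝔓 ≤ RingHom.ker (ev C w s) := by
    rw [ext, Ideal.map_le_iff_le_comap]
    intro q hq
    rw [Ideal.mem_comap, RingHom.mem_ker, ev_map, hs q hq, map_zero]
  exact h hp

/-- The evaluation of the value of a polynomial at the generic point. -/
lemma ev_hval (C : Curve k Λ) (w : C.pt) {N D : ℕ} (s : Fin N × Fin D → Ω) (Y : Fin N → Λ)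
    (ω : Fin D → Λ) (G : MvPolynomial (Fin N) k) :
    ev C w s (hval Y ω G) = eval₂ ((HahnSeries.C : Ω →+* LaurentSeries Ω).comp (algebraMap k Ω))
      (fun l => ev C w s (hpt Y ω l)) G := by
  rw [hval, map_aeval, coe_eval₂Hom]
  congr 1
  ext x i
  have : (algebraMap k (MvPolynomial (Fin N × Fin D) Λ)) x = MvPolynomial.C (algebraMap k Λ x) := rfl
  rw [RingHom.comp_apply, this, ev_C, C.exp_alg, mapL_C]
  rfl

lemma ev_hpt_coeff (C : Curve k Λ) (w : C.pt) {N D : ℕ} (s : Fin N × Fin D → Ω) (Y : Fin N → Λ)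
    (ω : Fin D → Λ) (l : Fin N) (i : ℤ) :
    (ev C w s (hpt Y ω l)).coeff i =
      algebraMap k Ω (C.cf w i (Y l)) + ∑ j, s (l, j) * algebraMap k Ω (C.cf w i (ω j)) := by
  rw [hpt, map_add, map_sum, HahnSeries.coeff_add, HahnSeries.coeff_sum, ev_C]
  congr 1
  refine Finset.sum_congr rfl fun j _ => ?_
  rw [map_mul, ev_C, ev_X, mul_comm, HahnSeries.C_mul_eq_smul, HahnSeries.coeff_smul, smul_eq_mul]
  rfl

end EvW

end Pool.Agent.Lib.MP_410da7_agA
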