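import Pool.Agent.Lib.MP_410da7_agA.SpecF
import Pool.Agent.Lib.MP_410da7_agA.EvW

/-!
# MP_410da7_ag, smooth affine varieties: F11

Coefficients of the values at the generic point, with fixed points.
-/

set_option autoImplicit false

namespace Pool.Agent.Lib.MP_410da7_agA

open MvPolynomial Module

namespace f11Aux

variable {k Λ : Type} [Field k] [Field Λ] [Algebra k Λ]

/-- The functions regular at `w`. -/
noncomputable def O (C : Curve k Λ) (w : C.pt) : Subalgebra k Λ where
  carrier := {y | ∀ i : ℤ, i < 0 → (C.exp w y).coeff i = 0}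
  add_mem' := by
    intro a b ha hb i hi
    rw [map_add, HahnSeries.coeff_add, ha i hi, hb i hi, add_zero]
  mul_mem' := by
    intro a b ha hb i hi
    rw [map_mul, HahnSeries.coeff_mul]
    refine Finset.sum_eq_zero fun ij hij => ?_
    rw [Finset.mem_antidiagonal] at hij
    have h := hij.2.2
    by_cases h1 : ij.1 < 0
    · rw [ha ij.1 h1, zero_mul]
    · have h2 : ij.2 < 0 := by omega
      rw [hb ij.2 h2, mul_zero]
  algebraMap_mem' := by
    intro r i hi
    rw [C.exp_alg, HahnSeries.C_apply, HahnSeries.coeff_single_of_ne (by omega)]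

/-- The value at `w`. -/
noncomputable def val (C : Curve k Λ) (w : C.pt) : O C w →ₐ[k] k where
  toFun y := (C.exp w (y : Λ)).coeff 0
  map_one' := by
    rw [OneMemClass.coe_one, map_one, HahnSeries.coeff_one, if_pos rfl]
  map_mul' a b := by
    rw [MulMemClass.coe_mul, map_mul, HahnSeries.coeff_mul]
    by_cases h0 : (C.exp w (a : Λ)).coeff 0 ≠ 0 ∧ (C.exp w (b : Λ)).coeff 0 ≠ 0
    · rw [Finset.sum_eq_single (0, 0)]
      · intro ij hij hne
        rw [Finset.mem_antidiagonal] at hij
        have h := hij.2.2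
        by_cases h1 : ij.1 < 0
        · rw [a.2 ij.1 h1, zero_mul]
        · by_cases h2 : ij.2 < 0
          · rw [b.2 ij.2 h2, mul_zero]
          · exact absurd (Prod.ext (by omega : ij.1 = 0) (by omega : ij.2 = 0)) hne
      · intro hn
        exact absurd (Finset.mem_antidiagonal.2 ⟨h0.1, h0.2, add_zero 0⟩) hn
    · have hz : (C.exp w (a : Λ)).coeff 0 * (C.exp w (b : Λ)).coeff 0 = 0 := by
        by_contra hne
        exact h0 ⟨left_ne_zero_of_mul hne, right_ne_zero_of_mul hne⟩
      rw [hz]
      refine Finset.sum_eq_zero fun ij hij => ?_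
      rw [Finset.mem_antidiagonal] at hij
      have h := hij.2.2
      by_cases h1 : ij.1 < 0
      · rw [a.2 ij.1 h1, zero_mul]
      · by_cases h2 : ij.2 < 0
        · rw [b.2 ij.2 h2, mul_zero]
        · have e1 : ij.1 = 0 := by omega
          have e2 : ij.2 = 0 := by omega
          rw [e1, e2, hz]
  map_zero' := by
    rw [ZeroMemClass.coe_zero, map_zero, HahnSeries.coeff_zero]
  map_add' a b := by
    rw [AddMemClass.coe_add, map_add, HahnSeries.coeff_add]
  commutes' r := by
    have h : ((algebraMap k (O C w) r : O C w) : Λ) = algebraMap k Λ r := rfl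
    rw [h, C.exp_alg, HahnSeries.C_apply, HahnSeries.coeff_single_same]
    rfl

/-- The value of `F(h)` at a point where the `ω_j` vanish. -/
lemma val_hval (C : Curve k Λ) (w : C.pt) {N D : ℕ} (Y : Fin N → Λ) (ω : Fin D → Λ)
    (hY : ∀ l, Y l ∈ O C w) (hω : ∀ j, ω j ∈ O C w) (hω0 : ∀ j, (C.exp w (ω j)).coeff 0 = 0)
    (F : MvPolynomial (Fin N) k) (hF : aeval Y F = 0) (m : Fin N × Fin D →₀ ℕ) :
    (C.exp w (coeff m (hval Y ω F))).coeff 0 = 0 := by
  -- the generic point over `O`
  let h' : Fin N → MvPolynomial (Fin N × Fin D) (O C w) := fun l =>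
    MvPolynomial.C ⟨Y l, hY l⟩ + ∑ j, MvPolynomial.C ⟨ω j, hω j⟩ * X (l, j)
  have e1 : MvPolynomial.mapAlgHom (O C w).val (aeval h' F) = hval Y ω F := by
    rw [hval, comp_aeval_apply]
    congr 2
    ext1 l
    simp only [h', hpt, map_add, map_sum, map_mul, mapAlgHom_apply, MvPolynomial.map_C, MvPolynomial.map_X]
    rfl
  have e3 : aeval (fun l => (⟨Y l, hY l⟩ : O C w)) F = 0 := by
    apply Subtype.val_injective
    have := comp_aeval_apply (fun l => (⟨Y l, hY l⟩ : O C w)) (O C w).val F
    exact this.trans hF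
  have e4 : aeval (fun l => val C w ⟨Y l, hY l⟩) F = 0 := by
    rw [← comp_aeval_apply, e3, map_zero]
  have e2 : MvPolynomial.mapAlgHom (val C w) (aeval h' F) = 0 := by
    rw [comp_aeval_apply]
    have : (fun i => (mapAlgHom (val C w)) (h' i)) =
        fun l => (MvPolynomial.C (val C w ⟨Y l, hY l⟩) : MvPolynomial (Fin N × Fin D) k) := by
      ext1 l
      have hz : ∀ j, val C w ⟨ω j, hω j⟩ = 0 := hω0
      simp only [h', map_add, map_sum, map_mul, mapAlgHom_apply, MvPolynomial.map_C, MvPolynomial.map_X]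
      rw [Finset.sum_eq_zero, add_zero]
      · rfl
      · intro j _
        have : ((val C w : O C w →ₐ[k] k) : O C w →+* k) ⟨ω j, hω j⟩ = 0 := hz j
        rw [this, map_zero, zero_mul]
    rw [this]
    have h5 := comp_aeval_apply (fun l => val C w ⟨Y l, hY l⟩)
      (Algebra.ofId k (MvPolynomial (Fin N × Fin D) k)) F
    rw [e4, map_zero] at h5
    exact h5.symm
  have h1 : coeff m (hval Y ω F) = ((coeff m (aeval h' F) : O C w) : Λ) := by
    rw [← e1, mapAlgHom_apply, coeff_map]
    rfl
  rw [h1]
  have h2 : val C w (coeff m (aeval h' F)) = 0 := by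
    have := congrArg (coeff m) e2
    rw [mapAlgHom_apply, coeff_map, coeff_zero] at this
    exact this
  exact h2

end f11Aux

open EvW f11Aux in
theorem f11 (hf10 : F10Stmt) : F11Stmt := by
  intro k Λ _ _ _ C N D d b P c hc hP hPc Y ω hY hω F hF hFY m
  have hω' : ∀ j, ω j ∈ C.L P := fun j => L_sub_le C P c (hω j)
  have h10 := hf10 k Λ C N D d P Y ω hY hω' F hF m
  intro w i hi
  by_cases hw : ∀ j, c j ≠ w
  · apply h10 w i
    rw [Pi.sub_apply, ptDiv_of_ne hw, sub_zero] at hi
    exact hi
  · push Not at hw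
    obtain ⟨j₀, rfl⟩ := hw
    rw [Pi.sub_apply, ptDiv_apply hc, Pi.smul_apply, hPc, smul_zero] at hi
    by_cases hi0 : i < 0
    · apply h10 (c j₀) i
      rw [Pi.smul_apply, hPc, smul_zero]
      omega
    · have : i = 0 := by omega
      subst this
      refine val_hval C (c j₀) Y ω ?_ ?_ ?_ F hFY m
      · intro l i' hi'
        apply hY l (c j₀) i'
        rw [hPc]
        omega
      · intro l i' hi'
        apply hω' l (c j₀) i'
        rw [hPc]
        omega
      · intro l
        apply hω l (c j₀) 0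
        rw [Pi.sub_apply, ptDiv_apply hc, hPc]
        omega

end Pool.Agent.Lib.MP_410da7_agA
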