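import Pool.Agent.Lib.MP_410da7_agA.SpecF

set_option autoImplicit false

namespace Pool.Agent.Lib.MP_410da7_agA

open MvPolynomial Module

namespace f12Aux

theorem coeff_push {k Λ V : Type} [Field k] [Field Λ] [Algebra k Λ] (φ : Λ →ₗ[k] k)
    (p : MvPolynomial V Λ) (n : V →₀ ℕ) : coeff n (push φ p) = φ (coeff n p) := by
  classical
  unfold push
  rw [coeff_sum]
  simp only [coeff_monomial]
  rw [Finset.sum_ite_eq' p.support n (fun m => φ (coeff m p))]
  split_ifs with h
  · rfl
  · rw [notMem_support_iff.1 h, map_zero]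

theorem const_hval {k Λ : Type} [Field k] [Field Λ] [Algebra k Λ] {N D : ℕ}
    (Y : Fin N → Λ) (ω : Fin D → Λ) (G : MvPolynomial (Fin N) k) :
    constantCoeff (hval Y ω G) = aeval Y G := by
  unfold hval
  have h : (constantCoeff : MvPolynomial (Fin N × Fin D) Λ →+* Λ).comp
      ((aeval (hpt Y ω) : MvPolynomial (Fin N) k →ₐ[k] MvPolynomial (Fin N × Fin D) Λ) :
        MvPolynomial (Fin N) k →+* MvPolynomial (Fin N × Fin D) Λ) =
      ((aeval Y : MvPolynomial (Fin N) k →ₐ[k] Λ) : MvPolynomial (Fin N) k →+* Λ) := by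
    apply MvPolynomial.ringHom_ext
    · intro c
      simp
    · intro i
      simp [hpt]
  have h2 := congrArg (fun f => f G) h
  simpa using h2

end f12Aux

open f12Aux in
theorem f12 (hf10 : F10Stmt) : F12Stmt := by
  intro k Λ _ _ _ C N D e μ P Y ω hY hω a ha w hv
  classical
  refine ⟨(fun i : ℤ => push (C.cf w i) (hval Y ω a)) ''
    (Finset.Ico (-(e * P w)) (-(e * P w) + μ) : Finset ℤ), ?_, ?_, ?_, ?_⟩
  · exact (Finset.finite_toSet _).image _
  · refine (Set.ncard_image_le (Finset.finite_toSet _)).trans ?_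
    rw [Set.ncard_coe_finset, Int.card_Ico]
    simp
  · rintro _ ⟨i, hi, rfl⟩
    have hi' := Finset.mem_Ico.1 (Finset.mem_coe.1 hi)
    show _ ∈ RingHom.ker _
    rw [RingHom.mem_ker]
    show coeff 0 _ = 0
    rw [coeff_push]
    have : coeff 0 (hval Y ω a) = aeval Y a := const_hval Y ω a
    rw [this]
    exact hv i (by linarith [hi'.2])
  · intro P' hP' i hi
    by_cases h : -(e * P w) ≤ i
    · exact hP' ⟨i, by
        rw [Finset.mem_coe, Finset.mem_Ico]
        exact ⟨h, by linarith⟩, rfl⟩
    · have : push (C.cf w i) (hval Y ω a) = 0 := by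
        ext n
        rw [coeff_push, coeff_zero]
        have h10 := hf10 k Λ C N D e P Y ω hY hω a ha n w i (by
          have : ((e : ℤ) • P) w = e * P w := by simp
          rw [this]
          omega)
        exact h10
      rw [this]
      exact P'.zero_mem

end Pool.Agent.Lib.MP_410da7_agA
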