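import Pool.Agent.Lib.MP_410da7_agA.SpecF
import Pool.Agent.Lib.MP_410da7_agA.EvW

/-!
# MP_410da7_ag, smooth affine varieties: F13

The coordinate `x_0` stays equal to `1`.
-/

set_option autoImplicit false

namespace Pool.Agent.Lib.MP_410da7_agA

open MvPolynomial Module

namespace f13Aux

open EvW

variable {k Λ : Type} [Field k] [Field Λ] [Algebra k Λ] {Ω : Type} [Field Ω] [Algebra k Ω]

lemma le_order {x : LaurentSeries Ω} (hx : x ≠ 0) {n : ℤ} (h : ∀ i < n, x.coeff i = 0) :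
    n ≤ x.order := by
  by_contra hlt
  push Not at hlt
  exact (HahnSeries.coeff_order_eq_zero.not.2 hx) (h _ hlt)

/-- The points of the quotient by a prime ideal. -/
lemma exists_point {V : Type} (𝔓 : Ideal (MvPolynomial V k)) [𝔓.IsPrime] :
    ∃ (Ω : Type) (_ : Field Ω) (_ : Algebra k Ω) (s : V → Ω), ∀ q, aeval s q = 0 ↔ q ∈ 𝔓 := by
  refine ⟨FractionRing (MvPolynomial V k ⧸ 𝔓), inferInstance, inferInstance,
    fun v => algebraMap (MvPolynomial V k ⧸ 𝔓) (FractionRing (MvPolynomial V k ⧸ 𝔓))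
      (Ideal.Quotient.mk 𝔓 (X v)), fun q => ?_⟩
  have h : aeval (fun v => algebraMap (MvPolynomial V k ⧸ 𝔓)
      (FractionRing (MvPolynomial V k ⧸ 𝔓)) (Ideal.Quotient.mk 𝔓 (X v))) q =
      algebraMap (MvPolynomial V k ⧸ 𝔓) (FractionRing (MvPolynomial V k ⧸ 𝔓))
        (Ideal.Quotient.mk 𝔓 q) := by
    have h2 := comp_aeval_apply (f := fun v : V => (X v : MvPolynomial V k))
      ((IsScalarTower.toAlgHom k (MvPolynomial V k ⧸ 𝔓)
        (FractionRing (MvPolynomial V k ⧸ 𝔓))).comp (Ideal.Quotient.mkₐ k 𝔓)) q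
    rw [aeval_X_left_apply] at h2
    exact h2.symm
  rw [h, ← Ideal.Quotient.eq_zero_iff_mem]
  exact (map_eq_zero_iff _ (IsFractionRing.injective _ _))

lemma low_coeff (hf10 : F10Stmt) (C : Curve k Λ) (w : C.pt) {N D d : ℕ} (P : C.pt → ℤ)
    {Y : Fin N → Λ} {ω : Fin D → Λ} (hY : ∀ l, Y l ∈ C.L P) (hω : ∀ j, ω j ∈ C.L P)
    {G : MvPolynomial (Fin N) k} (hG : G.IsHomogeneous d) (s : Fin N × Fin D → Ω) (i : ℤ)
    (hi : i < -(d * P w)) : (ev C w s (hval Y ω G)).coeff i = 0 := by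
  have h : push (C.cf w i) (hval Y ω G) = 0 := by
    ext m
    rw [coeff_push, coeff_zero]
    refine hf10 k Λ C N D d P Y ω hY hω G hG m w i ?_
    rw [Pi.smul_apply, smul_eq_mul]
    exact hi
  rw [ev_coeff, h, map_zero]

lemma order_ev (hf10 : F10Stmt) (C : Curve k Λ) (w : C.pt) {N D d : ℕ} (P : C.pt → ℤ)
    {Y : Fin N → Λ} {ω : Fin D → Λ} (hY : ∀ l, Y l ∈ C.L P) (hω : ∀ j, ω j ∈ C.L P)
    {G : MvPolynomial (Fin N) k} (hG : G.IsHomogeneous d) (s : Fin N × Fin D → Ω)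
    (hs : ∀ q, aeval s q = 0 → q ∈ mx (Fin N × Fin D) k) (h0 : aeval Y G ≠ 0)
    (hord : C.ord w (aeval Y G) = -(d * P w)) :
    ev C w s (hval Y ω G) ≠ 0 ∧ (ev C w s (hval Y ω G)).order = -(d * P w) := by
  have hc : (ev C w s (hval Y ω G)).coeff (-(d * P w)) ≠ 0 := by
    rw [ev_coeff]
    intro h
    have h1 := hs _ h
    rw [push_mem_mx, constantCoeff_hval] at h1
    have h2 : (C.exp w (aeval Y G)).coeff (C.exp w (aeval Y G)).order = 0 := by
      have : (C.exp w (aeval Y G)).order = -(d * P w) := hord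
      rw [this]
      exact h1
    rw [HahnSeries.coeff_order_eq_zero, map_eq_zero_iff _ (C.exp w).injective] at h2
    exact h0 h2
  have hne := HahnSeries.ne_zero_of_coeff_ne_zero hc
  refine ⟨hne, le_antisymm (HahnSeries.order_le_of_coeff_ne_zero hc) (le_order hne ?_)⟩
  exact low_coeff hf10 C w P hY hω hG s

/-- The relation at a pole: `ev (x_0(h))` has no pole. -/
lemma regular (hf10 : F10Stmt) (C : Curve k Λ) {M κ r d D : ℕ} {S : System k M κ r d}
    {Y : Fin (M + 1) → Λ} {P ℓ μ : C.pt → ℤ} {b₀ : Fin (M + 1)} (hD : PtData C S Y P ℓ μ b₀)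
    {ω : Fin D → Λ} (hω : ∀ j, ω j ∈ C.L P) {𝔓 : Ideal (MvPolynomial (Fin (M + 1) × Fin D) k)}
    (h𝔓 : 𝔓 ≤ mx (Fin (M + 1) × Fin D) k) (hF : ∀ j, hval Y ω (S.F j) ∈ ext Λ 𝔓)
    (s : Fin (M + 1) × Fin D → Ω) (hs : ∀ q, aeval s q = 0 ↔ q ∈ 𝔓) (w : C.pt) (hw : 0 < P w)
    (T : LogPoly S.F b₀) (hχ : aeval Y T.χ ≠ 0)
    (hχord : C.ord w (aeval Y T.χ) = - (T.e₁ * P w)) (hPT : P w ≤ T.lam * μ w)
    (hT : ∀ i < μ w - T.e * P w, push (C.cf w i) (hval Y ω T.a) ∈ 𝔓) (i : ℤ) (hi : i < 0) :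
    (ev C w s (hval Y ω (X 0 : MvPolynomial (Fin (M + 1)) k))).coeff i = 0 := by
  have hs' : ∀ q : MvPolynomial (Fin (M + 1) × Fin D) k, aeval s q = 0 →
      q ∈ mx (Fin (M + 1) × Fin D) k := fun q hq => h𝔓 ((hs q).1 hq)
  let Φ : MvPolynomial (Fin (M + 1)) k →+* LaurentSeries Ω :=
    (ev C w s).comp (aeval (hpt Y ω) : MvPolynomial (Fin (M + 1)) k →ₐ[k] _).toRingHom
  have hΦ : ∀ G, Φ G = ev C w s (hval Y ω G) := fun G => rfl
  have hker : Ideal.span (Set.range S.F) ≤ RingHom.ker Φ := by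
    rw [Ideal.span_le]
    rintro _ ⟨j, rfl⟩
    rw [SetLike.mem_coe, RingHom.mem_ker, hΦ]
    exact ev_ext C w s (fun q hq => (hs q).2 hq) (hF j)
  have hrel := hker T.rel
  rw [RingHom.mem_ker, map_sub, map_mul, map_mul, map_mul, map_pow, map_pow, map_pow,
    sub_eq_zero] at hrel
  obtain ⟨c0, cord⟩ := order_ev hf10 C w P hD.YP hω T.hχ s hs' hχ hχord
  obtain ⟨b0, bord⟩ := order_ev hf10 C w P hD.YP hω (isHomogeneous_X k b₀) s hs'
    (by rw [aeval_X]; exact (hD.Yb w hw).1)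
    (by rw [aeval_X, (hD.Yb w hw).2, Nat.cast_one, one_mul])
  rw [← hΦ] at c0 cord b0 bord ⊢
  by_cases hx : Φ (X 0) = 0
  · rw [hx, HahnSeries.coeff_zero]
  have hlam : T.lam ≠ 0 := by
    intro h
    rw [h, Nat.cast_zero, zero_mul] at hPT
    omega
  have hL : Φ (X 0) * Φ T.χ ^ T.N * Φ (X b₀) ^ T.E ≠ 0 :=
    mul_ne_zero (mul_ne_zero hx (pow_ne_zero _ c0)) (pow_ne_zero _ b0)
  have hR := hL
  rw [hrel] at hR
  have hq0 := right_ne_zero_of_mul hR
  have ha0 : Φ T.a ≠ 0 := fun h => left_ne_zero_of_mul hR (by rw [h, zero_pow hlam])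
  have hord := congrArg HahnSeries.order hrel
  rw [HahnSeries.order_mul (mul_ne_zero hx (pow_ne_zero _ c0)) (pow_ne_zero _ b0),
    HahnSeries.order_mul hx (pow_ne_zero _ c0), HahnSeries.order_mul (pow_ne_zero _ ha0) hq0,
    HahnSeries.order_pow, HahnSeries.order_pow, HahnSeries.order_pow, cord, bord] at hord
  have hqo : -(T.e₂ * P w) ≤ (Φ T.q).order :=
    le_order hq0 (low_coeff hf10 C w P hD.YP hω T.hq s)
  have hao : μ w - T.e * P w ≤ (Φ T.a).order := by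
    refine le_order ha0 fun i hi => ?_
    rw [hΦ, ev_coeff, hs]
    exact hT i hi
  have hdeg : (1 + T.N * T.e₁ + T.E : ℤ) = T.lam * T.e + T.e₂ := by
    exact_mod_cast T.deg
  have hlao : (T.lam : ℤ) * (μ w - T.e * P w) ≤ T.lam * (Φ T.a).order :=
    mul_le_mul_of_nonneg_left hao (by positivity)
  simp only [nsmul_eq_mul, Nat.cast_one] at hord
  have hdegP : (1 + T.N * T.e₁ + T.E : ℤ) * P w = (T.lam * T.e + T.e₂) * P w := by rw [hdeg]
  have h0 : 0 ≤ (Φ (X 0)).order := by nlinarith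
  exact HahnSeries.coeff_eq_zero_of_lt_order (lt_of_lt_of_le hi h0)

end f13Aux

open EvW f13Aux in
theorem f13 (hf1 : F1Stmt) (hf10 : F10Stmt) : F13Stmt := by
  intro k Λ _ _ _ C M κ r d b D S Y P ℓ μ b₀ hD c hc hb hPc ω hω hωL 𝔓 h𝔓p h𝔓 hF hlog j
  have := h𝔓p
  obtain ⟨Ω, _, _, s, hs⟩ := exists_point 𝔓
  have hωP : ∀ j, ω j ∈ C.L P := fun j => L_sub_le C P c (hωL j)
  -- no poles
  have hA : ∀ (w : C.pt) (i : ℤ), i < 0 → (ev C w s (hpt Y ω 0)).coeff i = 0 := by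
    intro w i hi
    have hX : hpt Y ω 0 = hval Y ω (X 0 : MvPolynomial (Fin (M + 1)) k) := by rw [hval, aeval_X]
    rw [hX]
    rcases (hD.P0 w).lt_or_eq with hw | hw
    · obtain ⟨T, h1, h2, h3, h4⟩ := hlog w hw
      exact regular hf10 C hD hωP h𝔓 hF s hs w hw T h1 h2 h3 h4 i hi
    · refine low_coeff hf10 C w P hD.YP hωP (isHomogeneous_X k 0) s i ?_
      rw [← hw, mul_zero, neg_zero]
      exact hi
  have hB : ∀ (w : C.pt) (i : ℤ), i < 0 →
      ∑ j, s (0, j) * algebraMap k Ω (C.cf w i (ω j)) = 0 := by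
    intro w i hi
    have h := hA w i hi
    rw [ev_hpt_coeff, hD.Y0] at h
    have h1 : C.cf w i 1 = 0 := by
      change (C.exp w 1).coeff i = 0
      rw [map_one, HahnSeries.coeff_one, if_neg (by omega)]
    rwa [h1, map_zero, zero_add] at h
  have hkey : ∀ φ : Dual k Ω, ∀ j, φ (s (0, j)) = 0 := by
    intro φ
    have hcf : ∀ (w : C.pt) (i : ℤ), C.cf w i (∑ j, φ (s (0, j)) • ω j) =
        φ (∑ j, s (0, j) * algebraMap k Ω (C.cf w i (ω j))) := by
      intro w i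
      rw [map_sum, map_sum]
      refine Finset.sum_congr rfl fun j _ => ?_
      rw [map_smul, smul_eq_mul, mul_comm (s (0, j)), ← Algebra.smul_def, map_smul, smul_eq_mul,
        mul_comm]
    obtain ⟨x, hx⟩ := hf1 k Λ C (c ⟨0, hb⟩) (∑ j, φ (s (0, j)) • ω j) (by
      intro w i hi
      change C.cf w i _ = 0
      rw [hcf, hB w i (by simpa using hi), map_zero])
    have hx0 : x = 0 := by
      have h0 : C.cf (c ⟨0, hb⟩) 0 (∑ j, φ (s (0, j)) • ω j) = 0 := by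
        rw [map_sum]
        refine Finset.sum_eq_zero fun j _ => ?_
        rw [map_smul]
        have : C.cf (c ⟨0, hb⟩) 0 (ω j) = 0 := by
          apply hωL j (c ⟨0, hb⟩) 0
          rw [Pi.sub_apply, ptDiv_apply hc, hPc]
          omega
        rw [this, smul_zero]
      rw [← hx] at h0
      have h1 : C.cf (c ⟨0, hb⟩) 0 (algebraMap k Λ x) = x := by
        change (C.exp _ (algebraMap k Λ x)).coeff 0 = x
        rw [C.exp_alg, HahnSeries.C_apply, HahnSeries.coeff_single_same]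
      rw [← h1]
      exact h0
    rw [hx0, map_zero] at hx
    exact fun j => (Fintype.linearIndependent_iff.1 hω) _ hx.symm j
  have hsj : s (0, j) = 0 := (forall_dual_apply_eq_zero_iff k _).1 fun φ => hkey φ j
  rw [← hs, aeval_X]
  exact hsj

end Pool.Agent.Lib.MP_410da7_agA
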