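import Pool.Agent.Lib.MP_410da7_agA.SpecF

set_option autoImplicit false

namespace Pool.Agent.Lib.MP_410da7_agA

open MvPolynomial Module

namespace f2Aux

variable {k Λ : Type} [Field k] [Field Λ] [Algebra k Λ]

theorem exp_ne (C : Curve k Λ) (w : C.pt) {y : Λ} (hy : y ≠ 0) : C.exp w y ≠ 0 := by
  intro h
  exact hy ((map_eq_zero (C.exp w)).1 h)

theorem ord_ge (C : Curve k Λ) {D : C.pt → ℤ} {y : Λ} (hy : y ∈ C.L D) (h0 : y ≠ 0) (w : C.pt) :
    -D w ≤ (C.exp w y).order := by
  by_contra h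
  have h1 : (C.exp w y).coeff (C.exp w y).order = 0 := hy w _ (by omega)
  have h2 := exp_ne C w h0
  exact HahnSeries.coeff_order_eq_zero.1 h1 |> h2

theorem ord_le (C : Curve k Λ) (w₀ : C.pt) {D : C.pt → ℤ} (hD : {w | 0 < D w}.Finite) {y : Λ}
    (hy : y ∈ C.L D) (h0 : y ≠ 0) : (C.exp w₀ y).order ≤ ∑ w ∈ hD.toFinset, D w := by
  classical
  have hs := C.sum y h0
  have hf := C.finite y h0
  set T : Finset C.pt := insert w₀ (hf.toFinset ∪ hD.toFinset) with hT
  have h1 : ∑ᶠ w, (C.exp w y).order = ∑ w ∈ T, (C.exp w y).order := by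
    refine finsum_eq_sum_of_support_subset _ ?_
    intro w hw
    rw [hT, Finset.coe_insert, Finset.coe_union]
    exact Or.inr (Or.inl (by simpa using hw))
  have h2 : w₀ ∈ T := Finset.mem_insert_self _ _
  rw [h1, ← Finset.add_sum_erase T _ h2] at hs
  have h3 : ∑ w ∈ T.erase w₀, -(D w) ≤ ∑ w ∈ T.erase w₀, (C.exp w y).order :=
    Finset.sum_le_sum fun w _ => ord_ge C hy h0 w
  have h4 : ∑ w ∈ T.erase w₀, D w ≤ ∑ w ∈ hD.toFinset, D w := by
    calc ∑ w ∈ T.erase w₀, D w ≤ ∑ w ∈ T, (if 0 < D w then D w else 0) := by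
          refine (Finset.sum_le_sum (g := fun w => if 0 < D w then D w else 0) fun w _ => ?_).trans
            (Finset.sum_le_sum_of_subset_of_nonneg (Finset.erase_subset _ _) fun w _ _ => ?_)
          · split_ifs with h
            · exact le_rfl
            · omega
          · split_ifs with h
            · exact h.le
            · exact le_rfl
      _ = ∑ w ∈ T.filter (fun w => 0 < D w), D w := (Finset.sum_filter _ _).symm
      _ = ∑ w ∈ hD.toFinset, D w := by
          congr 1
          ext w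
          rw [Finset.mem_filter, Set.Finite.mem_toFinset]
          constructor
          · exact fun h => h.2
          · intro h
            refine ⟨?_, h⟩
            rw [hT, Finset.mem_insert, Finset.mem_union]
            exact Or.inr (Or.inr (by simpa using h))
  rw [Finset.sum_neg_distrib] at h3
  linarith

end f2Aux

theorem f2 : F2Stmt := by
  intro k Λ _ _ _ C w₀ D hD
  set m : ℤ := ∑ w ∈ hD.toFinset, D w with hm
  let f : C.L D →ₗ[k] ((Finset.Icc (-D w₀) m : Finset ℤ) → k) :=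
    LinearMap.pi fun i => (C.cf w₀ (i : ℤ)).comp (C.L D).subtype
  refine FiniteDimensional.of_injective f ?_
  rw [← LinearMap.ker_eq_bot, LinearMap.ker_eq_bot']
  rintro ⟨y, hy⟩ h
  by_contra h0
  have hy0 : y ≠ 0 := fun h1 => h0 (Subtype.ext h1)
  have h1 := f2Aux.ord_ge C hy hy0 w₀
  have h2 := f2Aux.ord_le C w₀ hD hy hy0
  have h3 := congrFun h ⟨(C.exp w₀ y).order, Finset.mem_Icc.2 ⟨h1, h2⟩⟩
  have h4 : (C.exp w₀ y).coeff (C.exp w₀ y).order = 0 := h3
  exact f2Aux.exp_ne C w₀ hy0 (HahnSeries.coeff_order_eq_zero.1 h4)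

end Pool.Agent.Lib.MP_410da7_agA
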