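import Pool.Agent.Lib.MP_410da7_agA.SpecF

/-!
# MP_410da7_ag, block F: F3, the number of zeros of a function in `L(D)`
-/

set_option autoImplicit false

namespace Pool.Agent.Lib.MP_410da7_agA

open MvPolynomial Module

namespace f3Aux

variable {k Λ : Type} [Field k] [Field Λ] [Algebra k Λ]

theorem ord_ge (C : Curve k Λ) {D : C.pt → ℤ} {y : Λ} (hy : y ∈ C.L D) (h0 : y ≠ 0) (w : C.pt) :
    -D w ≤ C.ord w y := by
  by_contra hcon
  push Not at hcon
  have h1 : (C.exp w y).coeff (C.exp w y).order = 0 := hy w _ hcon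
  exact (map_ne_zero (C.exp w)).2 h0 (HahnSeries.coeff_order_eq_zero.1 h1)

end f3Aux

open f3Aux

theorem f3 : F3Stmt := by
  classical
  intro k Λ _ _ _ C D hD hfin b m c hc hDc y hy h0 hm
  have hs1 : (Function.support fun w => C.ord w y).Finite := C.finite y h0
  have hs2 : (Function.support D).Finite := hfin
  have hsum : ∑ᶠ w, (C.ord w y + D w) = ∑ᶠ w, D w := by
    rw [finsum_add_distrib hs1 hs2]
    have h1 : ∑ᶠ w, C.ord w y = 0 := C.sum y h0
    rw [h1, zero_add]
  rw [← hsum]
  set S : Finset C.pt := (hs1.toFinset ∪ hs2.toFinset) ∪ Finset.univ.image c with hS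
  have hsup : (Function.support fun w => C.ord w y + D w) ⊆ (S : Set C.pt) := by
    intro w hw
    rw [hS, Finset.coe_union, Finset.coe_union]
    left
    by_contra hcon
    rw [Set.mem_union, not_or] at hcon
    obtain ⟨h1, h2⟩ := hcon
    rw [Set.Finite.coe_toFinset, Function.mem_support, not_not] at h1 h2
    exact hw (by simp only [h1, h2, add_zero])
  rw [finsum_eq_sum_of_support_subset _ hsup]
  calc ((b * m : ℕ) : ℤ) = ∑ i : Fin b, (m : ℤ) := by simp
    _ ≤ ∑ i : Fin b, (C.ord (c i) y + D (c i)) := by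
        refine Finset.sum_le_sum fun i _ => ?_
        rw [hDc i, add_zero]
        exact hm i
    _ = ∑ w ∈ Finset.univ.image c, (C.ord w y + D w) := by
        rw [Finset.sum_image fun i _ j _ h => hc h]
    _ ≤ ∑ w ∈ S, (C.ord w y + D w) := by
        refine Finset.sum_le_sum_of_subset_of_nonneg Finset.subset_union_right fun w _ _ => ?_
        have := ord_ge C hy h0 w
        linarith

end Pool.Agent.Lib.MP_410da7_agA
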