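import Pool.Agent.Lib.MP_410da7_agA.SpecF

/-!
# MP_410da7_ag, block F: F4, `dim L(D) ≤ dim L(D - c_1 - ... - c_b) + b`
-/

set_option autoImplicit false

namespace Pool.Agent.Lib.MP_410da7_agA

open MvPolynomial Module

namespace f4Aux

theorem ptDiv_self {α : Type} {b : ℕ} {c : Fin b → α} (hc : Function.Injective c) (i : Fin b) :
    ptDiv c (c i) = 1 := by
  classical
  simp only [ptDiv]
  rw [Finset.sum_eq_single i]
  · simp
  · intro j _ hj
    rw [if_neg fun h => hj (hc h)]
  · intro h
    exact absurd (Finset.mem_univ i) h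

theorem ptDiv_ne {α : Type} {b : ℕ} {c : Fin b → α} {w : α} (h : ∀ i, c i ≠ w) :
    ptDiv c w = 0 := by
  classical
  simp only [ptDiv]
  exact Finset.sum_eq_zero fun i _ => if_neg (h i)

theorem ptDiv_nonneg {α : Type} {b : ℕ} (c : Fin b → α) (w : α) : 0 ≤ ptDiv c w := by
  classical
  simp only [ptDiv]
  exact Finset.sum_nonneg fun i _ => by split_ifs <;> simp

end f4Aux

open f4Aux

theorem f4 : F4Stmt := by
  intro k Λ _ _ _ C D hfd b c hc
  have := hfd
  let φ : C.L D →ₗ[k] (Fin b → k) :=
    LinearMap.pi fun i => (C.cf (c i) (-D (c i))).comp (C.L D).subtype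
  have h1 : C.L (D - ptDiv c) = (LinearMap.ker φ).map (C.L D).subtype := by
    ext y
    rw [Submodule.mem_map]
    constructor
    · intro hy
      have hyD : y ∈ C.L D := by
        intro w i hi
        refine hy w i ?_
        have := ptDiv_nonneg c w
        rw [Pi.sub_apply]
        linarith
      refine ⟨⟨y, hyD⟩, ?_, rfl⟩
      rw [LinearMap.mem_ker]
      funext i
      refine hy (c i) _ ?_
      rw [Pi.sub_apply, ptDiv_self hc i]
      linarith
    · rintro ⟨⟨z, hz⟩, hzk, rfl⟩
      rw [LinearMap.mem_ker] at hzk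
      intro w i hi
      rw [Pi.sub_apply] at hi
      by_cases hw : ∃ j, c j = w
      · obtain ⟨j, rfl⟩ := hw
        rw [ptDiv_self hc j] at hi
        rcases lt_or_eq_of_le (show i ≤ -D (c j) by omega) with h2 | h2
        · exact hz _ _ h2
        · rw [h2]
          exact congrFun hzk j
      · push Not at hw
        rw [ptDiv_ne hw] at hi
        exact hz _ _ (by omega)
  rw [h1, Submodule.finrank_map_subtype_eq]
  have h2 := LinearMap.finrank_range_add_finrank_ker φ
  have h3 : finrank k (LinearMap.range φ) ≤ b := by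
    have := Submodule.finrank_le (LinearMap.range φ)
    simpa using this
  omega

end Pool.Agent.Lib.MP_410da7_agA
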