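import Pool.Agent.Lib.MP_410da7_agA.SpecF

/-!
# C46, F6: number of equations
-/

set_option autoImplicit false

namespace Pool.Agent.Lib.MP_410da7_agA

open MvPolynomial Module

namespace f6Aux

variable {k Λ V : Type} [Field k] [Field Λ] [Algebra k Λ]

lemma coeff_push (φ : Λ →ₗ[k] k) (p : MvPolynomial V Λ) (m : V →₀ ℕ) :
    coeff m (push φ p) = φ (coeff m p) := by
  classical
  unfold push
  rw [coeff_sum]
  simp only [coeff_monomial]
  rw [Finset.sum_ite_eq']
  split_ifs with h
  · rfl
  · rw [notMem_support_iff.mp h, map_zero]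

lemma push_add (φ : Λ →ₗ[k] k) (p q : MvPolynomial V Λ) :
    push φ (p + q) = push φ p + push φ q := by
  ext m
  rw [coeff_push, coeff_add, coeff_add, coeff_push, coeff_push, map_add]

lemma push_zero (φ : Λ →ₗ[k] k) : push φ (0 : MvPolynomial V Λ) = 0 := by
  ext m
  rw [coeff_push, coeff_zero, coeff_zero, map_zero]

lemma push_mul_map (φ : Λ →ₗ[k] k) (q : MvPolynomial V Λ) (f : MvPolynomial V k) :
    push φ (q * MvPolynomial.map (algebraMap k Λ) f) = push φ q * f := by
  classical
  ext m
  rw [coeff_push, coeff_mul, coeff_mul, map_sum]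
  refine Finset.sum_congr rfl (fun x _ => ?_)
  rw [coeff_map, coeff_push, mul_comm, ← Algebra.smul_def, map_smul, smul_eq_mul, mul_comm]

lemma push_mem (φ : Λ →ₗ[k] k) (I : Ideal (MvPolynomial V k)) (p : MvPolynomial V Λ)
    (hp : p ∈ ext Λ I) : push φ p ∈ I := by
  have key : ∀ (ψ : Λ →ₗ[k] k) (q : MvPolynomial V Λ), push ψ (q * p) ∈ I := by
    unfold ext Ideal.map at hp
    induction hp using Submodule.span_induction with
    | mem x hx =>
      intro ψ q
      obtain ⟨f, hf, rfl⟩ := hx
      rw [push_mul_map]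
      exact Ideal.mul_mem_left _ _ hf
    | zero =>
      intro ψ q
      rw [mul_zero, push_zero]
      exact I.zero_mem
    | add x y _ _ hx hy =>
      intro ψ q
      rw [mul_add, push_add]
      exact I.add_mem (hx ψ q) (hy ψ q)
    | smul a x _ hx =>
      intro ψ q
      rw [smul_eq_mul, ← mul_assoc]
      exact hx ψ (q * a)
  have := key φ 1
  rwa [one_mul] at this

/-- the polynomial of a linear form -/
noncomputable def gam {κ : ℕ} (𝔽 : Fin κ → MvPolynomial V Λ) (l : (Fin κ → Λ) →ₗ[k] k) :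
    MvPolynomial V k :=
  ∑ j, push (l.comp (LinearMap.single k (fun _ : Fin κ => Λ) j)) (𝔽 j)

lemma coeff_gam {κ : ℕ} (𝔽 : Fin κ → MvPolynomial V Λ) (l : (Fin κ → Λ) →ₗ[k] k)
    (m : V →₀ ℕ) : coeff m (gam 𝔽 l) = l (fun j => coeff m (𝔽 j)) := by
  unfold gam
  rw [coeff_sum]
  simp only [coeff_push, LinearMap.comp_apply, LinearMap.single_apply]
  rw [← map_sum]
  congr 1
  exact Finset.univ_sum_single (fun j => coeff m (𝔽 j))

end f6Aux

open f6Aux in
theorem f6 : F6Stmt := by
  intro k Λ V _ _ _ _ κ r U hU 𝔽 hc h0 g₀ A₀ J₀ hrel T hT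
  -- the space `U^κ`
  set W : Submodule k (Fin κ → Λ) := Submodule.pi Set.univ (fun _ => U) with hW
  have hWmem : ∀ u, u ∈ W ↔ ∀ j, u j ∈ U := by
    intro u
    rw [hW, Submodule.mem_pi]
    exact ⟨fun h j => h j (Set.mem_univ _), fun h j _ => h j⟩
  have hWfin : FiniteDimensional k W := by
    let e : W →ₗ[k] (Fin κ → U) :=
      { toFun := fun u j => ⟨u.1 j, (hWmem u.1).mp u.2 j⟩
        map_add' := fun _ _ => rfl
        map_smul' := fun _ _ => rfl }
    have he : Function.Injective e := by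
      intro u v huv
      apply Subtype.ext
      funext j
      exact congrArg Subtype.val (congrFun huv j)
    exact FiniteDimensional.of_injective e he
  have hTW : T ≤ W := fun u hu => (hWmem u).mpr ((hT u).mp hu).1
  have hTfin : FiniteDimensional k T := Submodule.finiteDimensional_of_le hTW
  set f : (V →₀ ℕ) → (Fin κ → Λ) := fun m j => coeff m (𝔽 j) with hf
  have hfW : ∀ m, f m ∈ W := fun m => (hWmem _).mpr (fun j => hc j m)
  -- the map τ
  let τ : (Fin κ → Λ) →ₗ[k] (Fin κ → Λ) :=
    { toFun := fun u j => g₀ * u j - ∑ i, A₀ j i * u (J₀ i)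
      map_add' := by
        intro u v
        funext j
        simp only [Pi.add_apply, mul_add, Finset.sum_add_distrib]
        ring
      map_smul' := by
        intro c u
        funext j
        simp only [Pi.smul_apply, RingHom.id_apply, mul_smul_comm, smul_sub, Finset.smul_sum] }
  have hτ : ∀ u j, τ u j = g₀ * u j - ∑ i, A₀ j i * u (J₀ i) := fun _ _ => rfl
  set J : Ideal (MvPolynomial V k) := Ideal.span (Set.range (gam (k := k) 𝔽)) with hJ
  have hgJ : ∀ l, gam (k := k) 𝔽 l ∈ J := fun l => Ideal.subset_span ⟨l, rfl⟩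
  -- (1)
  have h1 : ∀ j, 𝔽 j ∈ ext Λ J := by
    intro j
    let bW := Module.finBasis k W
    have hext : ∀ i, ∃ l : (Fin κ → Λ) →ₗ[k] k, l.comp W.subtype = bW.coord i :=
      fun i => LinearMap.exists_extend (bW.coord i)
    choose l hl using hext
    have hw : ∀ w ∈ W, w = ∑ i, l i w • (bW i : Fin κ → Λ) := by
      intro w hw
      have e1 := bW.sum_repr ⟨w, hw⟩
      have e3 := congrArg Subtype.val e1
      rw [Submodule.coe_sum] at e3
      have e4 : ∀ i, bW.repr ⟨w, hw⟩ i = l i w := by
        intro i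
        have e5 := congrArg (fun g : W →ₗ[k] k => g ⟨w, hw⟩) (hl i)
        exact e5.symm
      simp only [Submodule.coe_smul, e4] at e3
      exact e3.symm
    have hF : 𝔽 j = ∑ i, C ((bW i : Fin κ → Λ) j) *
        MvPolynomial.map (algebraMap k Λ) (gam 𝔽 (l i)) := by
      ext m
      rw [coeff_sum]
      simp only [coeff_C_mul, coeff_map, coeff_gam]
      have e1 := congrFun (hw (f m) (hfW m)) j
      have e2 : coeff m (𝔽 j) = f m j := rfl
      rw [e2, e1, Finset.sum_apply]
      refine Finset.sum_congr rfl (fun i _ => ?_)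
      rw [Pi.smul_apply, Algebra.smul_def, mul_comm]
    rw [hF]
    refine Ideal.sum_mem _ (fun i _ => Ideal.mul_mem_left _ _ ?_)
    exact Ideal.mem_map_of_mem _ (hgJ _)
  -- (2)
  have h2 : ∀ l, gam (k := k) 𝔽 l ∈ mx V k := by
    intro l
    change constantCoeff (gam 𝔽 l) = 0
    rw [constantCoeff_eq, coeff_gam]
    have : (fun j => coeff (0 : V →₀ ℕ) (𝔽 j)) = 0 := by
      funext j
      exact h0 j
    rw [this, map_zero]
  -- (3)
  let bT := Module.finBasis k T
  have hextT : ∀ i, ∃ l : (Fin κ → Λ) →ₗ[k] k, l.comp T.subtype = bT.coord i :=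
    fun i => LinearMap.exists_extend (bT.coord i)
  choose μ hμ using hextT
  have hH := hrel J h1
  refine ⟨J, Set.range (fun i => gam 𝔽 (μ i)), h1, ?_, Set.finite_range _, ?_, ?_, ?_⟩
  · rw [hJ, Ideal.span_le]
    rintro _ ⟨l, rfl⟩
    exact h2 l
  · rintro _ ⟨i, rfl⟩
    exact h2 _
  · rw [← Set.image_univ]
    refine (Set.ncard_image_le Set.finite_univ).trans ?_
    rw [Set.ncard_univ, Nat.card_eq_fintype_card, Fintype.card_fin]
  · rw [hJ, Ideal.span_le, ← hJ]
    rintro _ ⟨l, rfl⟩
    -- the form which vanishes on `T`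
    set l' : (Fin κ → Λ) →ₗ[k] k := l - ∑ i, l (bT i : Fin κ → Λ) • μ i with hl'
    have hl'T : ∀ t ∈ T, l' t = 0 := by
      intro t ht
      have e1 := bT.sum_repr ⟨t, ht⟩
      have e2 : t = ∑ i, μ i t • (bT i : Fin κ → Λ) := by
        have e3 := congrArg Subtype.val e1
        rw [Submodule.coe_sum] at e3
        have e4 : ∀ i, bT.repr ⟨t, ht⟩ i = μ i t := by
          intro i
          have e5 := congrArg (fun g : T →ₗ[k] k => g ⟨t, ht⟩) (hμ i)
          exact e5.symm
        simp only [Submodule.coe_smul, e4] at e3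
        exact e3.symm
      have e6 : l t = ∑ i, l (bT i : Fin κ → Λ) * μ i t := by
        conv_lhs => rw [e2]
        rw [map_sum]
        refine Finset.sum_congr rfl (fun i _ => ?_)
        rw [map_smul, smul_eq_mul, mul_comm]
      rw [hl', LinearMap.sub_apply, LinearMap.sum_apply, e6]
      simp
    obtain ⟨φ, hφ⟩ : ∃ φ : (Fin κ → Λ) →ₗ[k] k, ∀ w ∈ W, l' w = φ (τ w) := by
      have e1 : l'.comp W.subtype ∈ (LinearMap.ker (τ.comp W.subtype)).dualAnnihilator := by
        rw [Submodule.mem_dualAnnihilator]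
        intro w hw
        rw [LinearMap.mem_ker] at hw
        apply hl'T
        rw [hT]
        refine ⟨(hWmem _).mp w.2, fun j => ?_⟩
        have e2 := congrFun hw j
        have e3 : τ w.1 j = 0 := e2
        rw [hτ] at e3
        exact sub_eq_zero.mp e3
      rw [← LinearMap.range_dualMap_eq_dualAnnihilator_ker] at e1
      obtain ⟨φ, hφ⟩ := e1
      refine ⟨φ, fun w hw => ?_⟩
      have e4 := congrArg (fun g : W →ₗ[k] k => g ⟨w, hw⟩) hφ
      exact e4.symm
    have hγ' : gam 𝔽 l' ∈ mx V k * J := by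
      have e1 : gam 𝔽 l' = ∑ j, push (φ.comp (LinearMap.single k (fun _ : Fin κ => Λ) j))
          (C g₀ * 𝔽 j - ∑ i, C (A₀ j i) * 𝔽 (J₀ i)) := by
        ext m
        rw [coeff_gam, hφ _ (hfW m), coeff_sum]
        simp only [coeff_push, LinearMap.comp_apply, LinearMap.single_apply]
        rw [← map_sum]
        congr 1
        rw [← Finset.univ_sum_single (τ (f m))]
        refine Finset.sum_congr rfl (fun j _ => ?_)
        congr 1
        rw [hτ, coeff_sub, coeff_C_mul, coeff_sum]
        simp only [coeff_C_mul]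
        rfl
      rw [e1]
      exact Ideal.sum_mem _ (fun j _ => push_mem _ _ _ (hH j))
    have hsplit : gam 𝔽 l = (∑ i, C (l (bT i : Fin κ → Λ)) * gam 𝔽 (μ i)) + gam 𝔽 l' := by
      ext m
      rw [coeff_add, coeff_sum]
      simp only [coeff_C_mul, coeff_gam]
      rw [hl', LinearMap.sub_apply, LinearMap.sum_apply]
      simp
    rw [SetLike.mem_coe, hsplit]
    refine Ideal.add_mem _ ?_ (Ideal.mem_sup_right hγ')
    refine Ideal.mem_sup_left (Ideal.sum_mem _ (fun i _ => Ideal.mul_mem_left _ _ ?_))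
    exact Ideal.subset_span ⟨i, rfl⟩

end Pool.Agent.Lib.MP_410da7_agA
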