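import Pool.Agent.Lib.MP_410da7_agA.SpecF

/-!
# MP_410da7_ag, block F: F8, the local index of a lattice over `k((t))`
-/

set_option autoImplicit false

namespace Pool.Agent.Lib.MP_410da7_agA

open MvPolynomial Module

namespace f8Aux

variable {k : Type} [Field k]

/-- The embedding of power series into Laurent series. -/
noncomputable def io (k : Type) [Field k] : PowerSeries k →+* LaurentSeries k :=
  HahnSeries.ofPowerSeries ℤ k

theorem io_inj : Function.Injective (io k) := HahnSeries.ofPowerSeries_injective

theorem io_coeff (p : PowerSeries k) (m : ℤ) :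
    (io k p).coeff m = if m < 0 then 0 else PowerSeries.coeff m.natAbs p :=
  PowerSeries.coeff_coe p m

theorem exists_io {f : LaurentSeries k} (h : ∀ m < 0, f.coeff m = 0) :
    ∃ p : PowerSeries k, io k p = f := by
  refine ⟨PowerSeries.mk fun n => f.coeff n, ?_⟩
  ext m
  rw [io_coeff]
  split_ifs with hm
  · rw [h m hm]
  · rw [PowerSeries.coeff_mk]
    congr 1
    omega

/-- The linear form of the induction step. -/
noncomputable def fm {r : ℕ} (M : Matrix (Fin r) (Fin r) (PowerSeries k)) (v : Fin r → k) :
    (Fin r → LaurentSeries k) →ₗ[k] k where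
  toFun ξ := ∑ i, v i * (((M.map (io k)).mulVec ξ) i).coeff 0
  map_add' a b := by
    rw [Matrix.mulVec_add, ← Finset.sum_add_distrib]
    refine Finset.sum_congr rfl fun i _ => ?_
    rw [Pi.add_apply, HahnSeries.coeff_add, mul_add]
  map_smul' c a := by
    have h1 : c • a = (HahnSeries.C c : LaurentSeries k) • a := by
      funext i
      rw [Pi.smul_apply, Pi.smul_apply, smul_eq_mul, HahnSeries.C_mul_eq_smul]
    rw [h1, Matrix.mulVec_smul, RingHom.id_apply, smul_eq_mul, Finset.mul_sum]
    refine Finset.sum_congr rfl fun i _ => ?_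
    rw [Pi.smul_apply, smul_eq_mul, HahnSeries.C_mul_eq_smul, HahnSeries.coeff_smul, smul_eq_mul]
    ring

theorem core (r : ℕ) : ∀ (n : ℕ) (M : Matrix (Fin r) (Fin r) (PowerSeries k))
    (u : (PowerSeries k)ˣ), M.det = (PowerSeries.X : PowerSeries k) ^ n * (u : PowerSeries k) →
    ∃ L : (Fin r → LaurentSeries k) →ₗ[k] (Fin n → k), ∀ (ξ : Fin r → LaurentSeries k)
      (η : Fin r → PowerSeries k), (M.map (io k)).mulVec ξ = (fun i => io k (η i)) → L ξ = 0 →
      ∃ ζ : Fin r → PowerSeries k, ξ = fun i => io k (ζ i) := by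
  intro n
  induction n with
  | zero =>
    intro M u hM
    refine ⟨0, fun ξ η h _ => ?_⟩
    rw [pow_zero, one_mul] at hM
    have hu : IsUnit M.det := by
      rw [hM]
      exact u.isUnit
    refine ⟨M⁻¹.mulVec η, ?_⟩
    have h1 : (M⁻¹.map (io k)).mulVec ((M.map (io k)).mulVec ξ) = ξ := by
      rw [Matrix.mulVec_mulVec, ← Matrix.map_mul, Matrix.nonsing_inv_mul M hu,
        Matrix.map_one _ (map_zero _) (map_one _), Matrix.one_mulVec]
    rw [← h1, h]
    funext i
    exact ((io k).map_mulVec M⁻¹ η i).symm
  | succ n ih =>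
    intro M u hM
    have h0 : ((PowerSeries.constantCoeff (R := k)).mapMatrix M).det = 0 := by
      rw [← RingHom.map_det, hM, map_mul, map_pow, PowerSeries.constantCoeff_X,
        zero_pow (Nat.succ_ne_zero n), zero_mul]
    obtain ⟨v, hv, hvM⟩ := Matrix.exists_vecMul_eq_zero_iff.2 h0
    obtain ⟨i0, hi0⟩ := Function.ne_iff.1 hv
    rw [Pi.zero_apply] at hi0
    have hq : ∀ j, ∃ q : PowerSeries k, ∑ i, PowerSeries.C (v i) * M i j = PowerSeries.X * q := by
      intro j
      have h2 := congrFun hvM j
      rw [Matrix.vecMul, dotProduct, Pi.zero_apply] at h2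
      refine PowerSeries.X_dvd_iff.2 ?_
      rw [map_sum]
      rw [← h2]
      refine Finset.sum_congr rfl fun i _ => ?_
      rw [map_mul, PowerSeries.constantCoeff_C]
      rfl
    choose q hq using hq
    have hrow : (∑ i, PowerSeries.C (v i) • M i) = (PowerSeries.X : PowerSeries k) • q := by
      funext j
      rw [Finset.sum_apply, Pi.smul_apply, smul_eq_mul, ← hq j]
      refine Finset.sum_congr rfl fun i _ => ?_
      rw [Pi.smul_apply, smul_eq_mul]
    have hdet : (M.updateRow i0 q).det = (PowerSeries.X : PowerSeries k) ^ n *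
        ((Units.map (PowerSeries.C (R := k)).toMonoidHom (Units.mk0 (v i0) hi0) * u :
          (PowerSeries k)ˣ) : PowerSeries k) := by
      have h3 := Matrix.det_updateRow_sum M i0 fun i => PowerSeries.C (v i)
      rw [hrow, Matrix.det_updateRow_smul, hM, smul_eq_mul] at h3
      refine mul_left_cancel₀ (PowerSeries.X_ne_zero (R := k)) ?_
      rw [h3, Units.val_mul, Units.coe_map, Units.val_mk0]
      change PowerSeries.C (v i0) * (PowerSeries.X ^ (n + 1) * (u : PowerSeries k)) =
        PowerSeries.X * (PowerSeries.X ^ n * (PowerSeries.C (v i0) * (u : PowerSeries k)))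
      ring
    obtain ⟨L, hL⟩ := ih (M.updateRow i0 q) _ hdet
    refine ⟨LinearMap.pi (Fin.cons (fm M v) fun i => (LinearMap.proj i).comp L), ?_⟩
    intro ξ η h hLξ
    have h4 : fm M v ξ = 0 := congrFun hLξ 0
    have h5 : L ξ = 0 := by
      funext i
      exact congrFun hLξ i.succ
    have h6 : PowerSeries.constantCoeff (∑ i, PowerSeries.C (v i) * η i) = 0 := by
      rw [map_sum, ← h4]
      change _ = ∑ i, v i * (((M.map (io k)).mulVec ξ) i).coeff 0
      refine Finset.sum_congr rfl fun i _ => ?_
      rw [map_mul, PowerSeries.constantCoeff_C, h, io_coeff, if_neg (lt_irrefl 0),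
        Int.natAbs_zero, PowerSeries.coeff_zero_eq_constantCoeff_apply]
    obtain ⟨q', hq'⟩ := PowerSeries.X_dvd_iff.2 h6
    refine hL ξ (Function.update η i0 q') ?_ h5
    funext i
    by_cases hi : i = i0
    · subst hi
      rw [Function.update_self]
      have h7 : io k PowerSeries.X ≠ 0 := by
        rw [Ne, map_eq_zero_iff _ io_inj]
        exact PowerSeries.X_ne_zero
      refine mul_left_cancel₀ h7 ?_
      rw [← map_mul, ← hq', map_sum]
      have h8 : io k PowerSeries.X * ((M.updateRow i q).map (io k)).mulVec ξ i =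
          ∑ j, io k (PowerSeries.X * q j) * ξ j := by
        rw [Matrix.mulVec, dotProduct, Finset.mul_sum]
        refine Finset.sum_congr rfl fun j _ => ?_
        rw [Matrix.map_apply, Matrix.updateRow_self, map_mul, mul_assoc]
      rw [h8]
      have h9 : ∀ i', io k (PowerSeries.C (v i') * η i') =
          ∑ j, io k (PowerSeries.C (v i') * M i' j) * ξ j := by
        intro i'
        have h10 := congrFun h i'
        rw [Matrix.mulVec, dotProduct] at h10
        rw [map_mul, ← h10, Finset.mul_sum]
        refine Finset.sum_congr rfl fun j _ => ?_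
        rw [Matrix.map_apply, map_mul, mul_assoc]
      simp only [h9]
      rw [Finset.sum_comm]
      refine Finset.sum_congr rfl fun j _ => ?_
      rw [← hq j, map_sum, Finset.sum_mul]
    · rw [Function.update_of_ne hi, ← congrFun h i, Matrix.mulVec, dotProduct, Matrix.mulVec,
        dotProduct]
      refine Finset.sum_congr rfl fun j _ => ?_
      rw [Matrix.map_apply, Matrix.map_apply, Matrix.updateRow_ne hi]

theorem sh (s m : ℤ) (f : LaurentSeries k) :
    ((HahnSeries.single s (1 : k) : LaurentSeries k) * f).coeff m = f.coeff (m - s) := by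
  rw [HahnSeries.coeff_single_mul, one_mul]

theorem single_ne (s : ℤ) : (HahnSeries.single s (1 : k) : LaurentSeries k) ≠ 0 :=
  HahnSeries.single_ne_zero one_ne_zero

theorem single_pow_order (s : ℤ) (r : ℕ) :
    ((HahnSeries.single s (1 : k) : LaurentSeries k) ^ r).order = r * s := by
  rw [HahnSeries.order_pow, HahnSeries.order_single one_ne_zero, nsmul_eq_mul]

theorem io_order_nonneg (p : PowerSeries k) : 0 ≤ (io k p).order := by
  by_contra hcon
  push Not at hcon
  have h1 : (io k p).coeff (io k p).order = 0 := by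
    rw [io_coeff, if_pos hcon]
  rw [HahnSeries.coeff_order_eq_zero] at h1
  rw [h1, HahnSeries.order_zero] at hcon
  exact lt_irrefl _ hcon

end f8Aux

open f8Aux

theorem f8 : F8Stmt := by
  intro k _ r G s δ hG hdet E _ _ ψ hadd hsmul hint E' hE'
  have hM : ∀ i j, ∃ p : PowerSeries k, io k p =
      (HahnSeries.single s (1 : k) : LaurentSeries k) * G i j := by
    intro i j
    refine exists_io fun m hm => ?_
    rw [sh]
    exact hG i j _ (by omega)
  choose M hM using hM
  have hMG : (Matrix.of M).map (io k) = (HahnSeries.single s (1 : k) : LaurentSeries k) • G := by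
    ext1 i j
    exact hM i j
  have hd : io k (Matrix.of M).det =
      (HahnSeries.single s (1 : k) : LaurentSeries k) ^ r * G.det := by
    rw [RingHom.map_det, RingHom.mapMatrix_apply, hMG, Matrix.det_smul, Fintype.card_fin]
  have hd0 : (Matrix.of M).det ≠ 0 := by
    intro h
    rw [h, map_zero] at hd
    exact mul_ne_zero (pow_ne_zero _ (single_ne s)) hdet hd.symm
  have hord : (io k (Matrix.of M).det).order = r * s + G.det.order := by
    rw [hd, HahnSeries.order_mul (pow_ne_zero _ (single_ne s)) hdet, single_pow_order]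
  set n : ℕ := (Matrix.of M).det.order.toNat with hn
  obtain ⟨u, hu⟩ := PowerSeries.isUnit_divided_by_X_pow_order hd0
  have hfac : (Matrix.of M).det = (PowerSeries.X : PowerSeries k) ^ n * (u : PowerSeries k) := by
    rw [hu, hn, PowerSeries.X_pow_order_mul_divXPowOrder]
  have hn' : (n : ℤ) ≤ G.det.order + r * s := by
    have h1 : (io k (Matrix.of M).det).order = n + (io k (u : PowerSeries k)).order := by
      rw [hfac, map_mul, HahnSeries.order_mul, map_pow]
      · congr 1
        have h2 : io k PowerSeries.X = HahnSeries.single 1 1 := HahnSeries.ofPowerSeries_X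
        rw [h2, single_pow_order, mul_one]
      · rw [Ne, map_eq_zero_iff _ io_inj]
        exact pow_ne_zero _ PowerSeries.X_ne_zero
      · rw [Ne, map_eq_zero_iff _ io_inj]
        exact u.ne_zero
    have h2 := io_order_nonneg (u : PowerSeries k)
    linarith
  obtain ⟨L, hL⟩ := core r n (Matrix.of M) u hfac
  let ψ' : E →ₗ[k] (Fin r → LaurentSeries k) :=
    { toFun := fun x i => (HahnSeries.single δ (1 : k) : LaurentSeries k) * ψ x i
      map_add' := by
        intro x y
        funext i
        rw [hadd, Pi.add_apply, Pi.add_apply, mul_add]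
      map_smul' := by
        intro c x
        funext i
        rw [hsmul, RingHom.id_apply, Pi.smul_apply, ← HahnSeries.C_mul_eq_smul]
        ring }
  have hψ' : ∀ x, ψ' x = (HahnSeries.single δ (1 : k) : LaurentSeries k) • ψ x := fun x => rfl
  have hker : LinearMap.ker (L.comp ψ') ≤ E' := by
    intro x hx
    rw [LinearMap.mem_ker, LinearMap.comp_apply] at hx
    have h3 : ∀ i, ∃ p : PowerSeries k, io k p =
        (((Matrix.of M).map (io k)).mulVec (ψ' x)) i := by
      intro i
      refine exists_io fun m hm => ?_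
      rw [hMG, hψ', Matrix.mulVec_smul, Matrix.smul_mulVec, Pi.smul_apply, Pi.smul_apply,
        smul_eq_mul, smul_eq_mul, sh, sh]
      exact hint x i _ (by omega)
    choose η hη using h3
    obtain ⟨ζ, hζ⟩ := hL (ψ' x) η (funext fun i => (hη i).symm) hx
    rw [hE']
    intro i m hm
    have h4 := congrFun hζ i
    rw [hψ', Pi.smul_apply, smul_eq_mul] at h4
    have h5 := sh δ (m + δ) (ψ x i)
    rw [add_sub_cancel_right, h4, io_coeff, if_pos (by omega)] at h5
    exact h5.symm
  have hfd : FiniteDimensional k (E ⧸ LinearMap.ker (L.comp ψ')) :=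
    Module.Finite.equiv (L.comp ψ').quotKerEquivRange.symm
  refine ⟨Module.Finite.of_surjective (Submodule.factor hker) (Submodule.factor_surjective hker),
    ?_⟩
  refine le_trans ?_ hn'
  have h6 : finrank k (E ⧸ E') ≤ finrank k (E ⧸ LinearMap.ker (L.comp ψ')) :=
    LinearMap.finrank_le_finrank_of_surjective (Submodule.factor_surjective hker)
  have h7 : finrank k (E ⧸ LinearMap.ker (L.comp ψ')) ≤ n := by
    rw [(L.comp ψ').quotKerEquivRange.finrank_eq]
    have := Submodule.finrank_le (LinearMap.range (L.comp ψ'))
    simpa using this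
  exact_mod_cast h6.trans h7

end Pool.Agent.Lib.MP_410da7_agA
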