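import Pool.Agent.Lib.MP_410da7_agA.SpecF

/-!
# MP_410da7_ag, block F: F9, the dimension of the space of equations
-/

set_option autoImplicit false

namespace Pool.Agent.Lib.MP_410da7_agA

open MvPolynomial Module

namespace f9Aux

variable {k Λ : Type} [Field k] [Field Λ] [Algebra k Λ]

/-- The linear map given by the matrix `Jac`. -/
def jl {κ r : ℕ} (k : Type) {Λ : Type} [Field k] [Field Λ] [Algebra k Λ]
    (Jac : Fin κ → Fin r → Λ) : (Fin r → Λ) →ₗ[k] (Fin κ → Λ) where
  toFun ξ j := ∑ l, Jac j l * ξ l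
  map_add' a b := by
    funext j
    rw [Pi.add_apply, ← Finset.sum_add_distrib]
    exact Finset.sum_congr rfl fun l _ => by rw [Pi.add_apply, mul_add]
  map_smul' c a := by
    funext j
    rw [RingHom.id_apply, Pi.smul_apply, Finset.smul_sum]
    exact Finset.sum_congr rfl fun l _ => by rw [Pi.smul_apply, mul_smul_comm]

theorem jl_apply {κ r : ℕ} (Jac : Fin κ → Fin r → Λ) (ξ : Fin r → Λ) (j : Fin κ) :
    jl k Jac ξ j = ∑ l, Jac j l * ξ l := rfl

theorem jl_rows {κ r : ℕ} (Jac : Fin κ → Fin r → Λ) (ξ : Fin r → Λ) (J : Fin r → Fin κ)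
    (i : Fin r) : jl k Jac ξ (J i) = (Matrix.of fun i l => Jac (J i) l).mulVec ξ i := rfl

theorem jl_inj {κ r : ℕ} {Jac : Fin κ → Fin r → Λ} {J₀ : Fin r → Fin κ}
    (h : (Matrix.of fun i l => Jac (J₀ i) l).det ≠ 0) : Function.Injective (jl k Jac) := by
  intro a b hab
  have h1 : (Matrix.of fun i l => Jac (J₀ i) l).mulVec a =
      (Matrix.of fun i l => Jac (J₀ i) l).mulVec b := by
    funext i
    exact congrFun hab (J₀ i)
  exact Matrix.mulVec_injective_iff_isUnit.2
    ((Matrix.isUnit_iff_isUnit_det _).2 (isUnit_iff_ne_zero.2 h)) h1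

theorem jl_surj {κ r : ℕ} {Jac : Fin κ → Fin r → Λ} {J₀ : Fin r → Fin κ}
    (h : (Matrix.of fun i l => Jac (J₀ i) l).det ≠ 0) {g₀ : Λ} {A₀ : Fin κ → Fin r → Λ}
    (hg : g₀ ≠ 0) (hrel : ∀ j l, g₀ * Jac j l = ∑ i, A₀ j i * Jac (J₀ i) l) (u : Fin κ → Λ)
    (hu : ∀ j, g₀ * u j = ∑ i, A₀ j i * u (J₀ i)) : ∃ ξ, jl k Jac ξ = u := by
  refine ⟨(Matrix.of fun i l => Jac (J₀ i) l)⁻¹.mulVec fun i => u (J₀ i), ?_⟩
  set ξ := (Matrix.of fun i l => Jac (J₀ i) l)⁻¹.mulVec fun i => u (J₀ i) with hξ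
  have h1 : ∀ i, ∑ l, Jac (J₀ i) l * ξ l = u (J₀ i) := by
    intro i
    have h2 : (Matrix.of fun i l => Jac (J₀ i) l).mulVec ξ = fun i => u (J₀ i) := by
      rw [hξ, Matrix.mulVec_mulVec, Matrix.mul_nonsing_inv _ (isUnit_iff_ne_zero.2 h),
        Matrix.one_mulVec]
    exact congrFun h2 i
  funext j
  refine mul_left_cancel₀ hg ?_
  rw [hu j, jl_apply, Finset.mul_sum]
  simp only [← mul_assoc, hrel, Finset.sum_mul]
  rw [Finset.sum_comm]
  refine Finset.sum_congr rfl fun i _ => ?_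
  rw [← h1 i, Finset.mul_sum]
  exact Finset.sum_congr rfl fun l _ => mul_assoc _ _ _

/-- The subspace of `B` of the elements with components in `t^(-δ) k[[t]]` at `w`. -/
def bw (C : Curve k Λ) {r : ℕ} (B : Submodule k (Fin r → Λ)) (D : C.pt → ℤ) (w : C.pt) :
    Submodule k B where
  carrier := {x | ∀ l, ∀ m < -D w, (C.exp w (x.1 l)).coeff m = 0}
  add_mem' := by
    intro a b ha hb l m hm
    change (C.exp w (a.1 l + b.1 l)).coeff m = 0
    rw [map_add, HahnSeries.coeff_add, ha l m hm, hb l m hm, add_zero]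
  zero_mem' := by
    intro l m _
    change (C.exp w 0).coeff m = 0
    rw [map_zero, HahnSeries.coeff_zero]
  smul_mem' := by
    intro c y hy l m hm
    change (C.exp w (c • y.1 l)).coeff m = 0
    rw [Algebra.smul_def, map_mul, C.exp_alg, HahnSeries.C_mul_eq_smul, HahnSeries.coeff_smul,
      hy l m hm, smul_zero]

theorem local_bound (hf8 : F8Stmt) (C : Curve k Λ) {κ r : ℕ} {Jac : Fin κ → Fin r → Λ}
    {D s : C.pt → ℤ} (hJac : ∀ j l, Jac j l ∈ C.L s) (B : Submodule k (Fin r → Λ))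
    (hB : ∀ ξ ∈ B, ∀ j, jl k Jac ξ j ∈ C.L (D + s)) (w : C.pt) (J : Fin r → Fin κ)
    (hJ : (Matrix.of fun i l => Jac (J i) l).det ≠ 0) :
    FiniteDimensional k (B ⧸ bw C B D w) ∧ (finrank k (B ⧸ bw C B D w) : ℤ) ≤
      C.ord w (Matrix.of fun i l => Jac (J i) l).det + r * s w := by
  have hd : ((Matrix.of fun i l => Jac (J i) l).map (C.exp w)).det =
      C.exp w (Matrix.of fun i l => Jac (J i) l).det := by
    rw [RingHom.map_det, RingHom.mapMatrix_apply]
  have h := hf8 k r ((Matrix.of fun i l => Jac (J i) l).map (C.exp w)) (s w) (D w)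
    (fun i j m hm => hJac (J i) j w m hm) (by rw [hd]; exact (map_ne_zero (C.exp w)).2 hJ)
    B (fun x l => C.exp w (x.1 l)) (fun x y => by
      funext l
      exact map_add (C.exp w) (x.1 l) (y.1 l)) (fun c x i => by
      change C.exp w (c • x.1 i) = _
      rw [Algebra.smul_def, map_mul, C.exp_alg]) (fun x i m hm => by
      have h1 : ((Matrix.of fun i l => Jac (J i) l).map (C.exp w)).mulVec
          (fun l => C.exp w (x.1 l)) i = C.exp w (jl k Jac x.1 (J i)) := by
        rw [jl_apply, map_sum, Matrix.mulVec, dotProduct]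
        refine Finset.sum_congr rfl fun l _ => ?_
        rw [map_mul]
        rfl
      rw [h1]
      exact hB x.1 x.2 (J i) w m hm) (bw C B D w) (fun x => Iff.rfl)
  rw [hd] at h
  exact h

theorem dimcount {k : Type} [Field k] {B : Type} [AddCommGroup B] [Module k B] {ι : Type}
    (W : Finset ι) (S : ι → Submodule k B) (N : ι → ℤ)
    (hS : ∀ w ∈ W, FiniteDimensional k (B ⧸ S w) ∧ (finrank k (B ⧸ S w) : ℤ) ≤ N w)
    {K : Type} [AddCommGroup K] [Module k K] [FiniteDimensional k K]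
    (A : Submodule k B) (hA : ∀ x, (∀ w ∈ W, x ∈ S w) → x ∈ A) (Ψ : A →ₗ[k] K)
    (hΨ : Function.Injective Ψ) :
    (finrank k B : ℤ) ≤ finrank k K + ∑ w ∈ W, N w := by
  classical
  let Θ : B →ₗ[k] (∀ w : {w // w ∈ W}, B ⧸ S w.1) := LinearMap.pi fun w => (S w.1).mkQ
  have hker : LinearMap.ker Θ ≤ A := by
    intro x hx
    refine hA x fun w hw => ?_
    rw [LinearMap.mem_ker] at hx
    have h2 : (S w).mkQ x = 0 := congrFun hx ⟨w, hw⟩
    rwa [Submodule.mkQ_apply, Submodule.Quotient.mk_eq_zero] at h2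
  have hinj : Function.Injective (Ψ.comp (Submodule.inclusion hker)) :=
    hΨ.comp (Submodule.inclusion_injective hker)
  have hkfd : Module.Finite k (LinearMap.ker Θ) := Module.Finite.of_injective _ hinj
  have hkdim : finrank k (LinearMap.ker Θ) ≤ finrank k K :=
    LinearMap.finrank_le_finrank_of_injective hinj
  have hinst : ∀ w : {w // w ∈ W}, Module.Finite k (B ⧸ S w.1) := fun w => (hS w.1 w.2).1
  have hrfd : Module.Finite k (LinearMap.range Θ) := inferInstance
  have hrdim : (finrank k (LinearMap.range Θ) : ℤ) ≤ ∑ w ∈ W, N w := by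
    have h1 := Submodule.finrank_le (LinearMap.range Θ)
    rw [finrank_pi_fintype] at h1
    have h2 : (∑ w : {w // w ∈ W}, (finrank k (B ⧸ S w.1) : ℤ)) ≤ ∑ w ∈ W, N w := by
      rw [← Finset.sum_coe_sort W]
      exact Finset.sum_le_sum fun w _ => (hS w.1 w.2).2
    refine le_trans ?_ h2
    exact_mod_cast h1
  have hqfd : Module.Finite k (B ⧸ LinearMap.ker Θ) :=
    Module.Finite.equiv Θ.quotKerEquivRange.symm
  have hBfd : Module.Finite k B := Module.Finite.of_submodule_quotient (LinearMap.ker Θ)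
  have hsum := LinearMap.finrank_range_add_finrank_ker Θ
  have h1 : (finrank k B : ℤ) = finrank k (LinearMap.range Θ) + finrank k (LinearMap.ker Θ) := by
    exact_mod_cast hsum.symm
  rw [h1]
  have h2 : (finrank k (LinearMap.ker Θ) : ℤ) ≤ finrank k K := by
    exact_mod_cast hkdim
  linarith

end f9Aux

open f9Aux

theorem f9 (hf8 : F8Stmt) : F9Stmt := by
  classical
  intro k Λ _ _ _ C κ r Jac D s ν hJac hfd hν hmin g₀ A₀ J₀ hg hJ₀ hrel T hT
  have := hfd
  set B : Submodule k (Fin r → Λ) := T.comap (jl k Jac) with hBdef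
  have hTB : B.map (jl k Jac) = T := by
    rw [hBdef, Submodule.map_comap_eq, inf_eq_right]
    intro u hu
    obtain ⟨ξ, hξ⟩ := jl_surj (k := k) hJ₀ hg hrel u ((hT u).1 hu).2
    exact ⟨ξ, hξ⟩
  have hfin : finrank k T = finrank k B := by
    rw [← hTB]
    exact (Submodule.equivMapOfInjective (jl k Jac) (jl_inj hJ₀) B).finrank_eq.symm
  rw [hfin]
  have hB : ∀ ξ ∈ B, ∀ j, jl k Jac ξ j ∈ C.L (D + s) := fun ξ hξ j => ((hT _).1 hξ).1 j
  have hloc : ∀ w, FiniteDimensional k (B ⧸ bw C B D w) ∧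
      (finrank k (B ⧸ bw C B D w) : ℤ) ≤ ν w := by
    intro w
    obtain ⟨J, hJ, hJν⟩ := hmin w
    obtain ⟨h1, h2⟩ := local_bound hf8 C hJac B hB w J hJ
    exact ⟨h1, h2.trans hJν⟩
  have htop : ∀ w, ν w = 0 → bw C B D w = ⊤ := by
    intro w hw
    obtain ⟨h1, h2⟩ := hloc w
    have h3 : finrank k (B ⧸ bw C B D w) = 0 := by
      have : (finrank k (B ⧸ bw C B D w) : ℤ) ≤ 0 := by rw [← hw]; exact h2
      exact_mod_cast le_antisymm this (by positivity)
    have h4 : Subsingleton (B ⧸ bw C B D w) := finrank_zero_iff.1 h3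
    exact Submodule.Quotient.subsingleton_iff.1 h4
  let A : Submodule k B :=
    { carrier := {x | ∀ l, x.1 l ∈ C.L D}
      add_mem' := fun ha hb l => (C.L D).add_mem (ha l) (hb l)
      zero_mem' := fun _ => (C.L D).zero_mem
      smul_mem' := fun c _ ha l => (C.L D).smul_mem c (ha l) }
  let Ψ : A →ₗ[k] (Fin r → C.L D) :=
    { toFun := fun x l => ⟨x.1.1 l, x.2 l⟩
      map_add' := fun x y => rfl
      map_smul' := fun c x => rfl }
  have hΨ : Function.Injective Ψ := by
    intro x y hxy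
    apply Subtype.ext
    apply Subtype.ext
    funext l
    exact congrArg Subtype.val (congrFun hxy l)
  have hA : ∀ x : B, (∀ w ∈ hν.toFinset, x ∈ bw C B D w) → x ∈ A := by
    intro x hx l w m hm
    have h1 : x ∈ bw C B D w := by
      by_cases hw : ν w = 0
      · rw [htop w hw]
        exact Submodule.mem_top
      · exact hx w (by rw [Set.Finite.mem_toFinset]; exact hw)
    exact h1 l m hm
  have h := dimcount hν.toFinset (bw C B D) ν (fun w _ => hloc w) A hA Ψ hΨ
  rw [finsum_eq_sum_of_support_toFinset_subset ν hν (le_refl _)]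
  have h2 : finrank k (Fin r → C.L D) = r * finrank k (C.L D) := by
    rw [finrank_pi_fintype]
    simp
  rw [h2] at h
  exact_mod_cast h

end Pool.Agent.Lib.MP_410da7_agA
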