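import Pool.Agent.Lib.MP_410da7_agA.SpecF0

/-!
# MP_410da7_ag, C46, block F0: separating elements exist
-/

set_option autoImplicit false

namespace Pool.Agent.Lib.MP_410da7_agA

open IntermediateField algebraAdjoinAdjoin

namespace ff1Aux

theorem ess {k Λ : Type} [Field k] [Field Λ] [Algebra k Λ] (z : Λ)
    (h : FiniteDimensional k⟮z⟯ Λ) : Algebra.EssFiniteType k Λ := by
  have h1 : Algebra.EssFiniteType k k⟮z⟯ := by
    rw [IntermediateField.essFiniteType_iff]
    exact ⟨{z}, by simp⟩
  exact Algebra.EssFiniteType.comp k k⟮z⟯ Λ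

theorem trdeg {k Λ : Type} [Field k] [Field Λ] [Algebra k Λ] (z : Λ) (hz : Transcendental k z)
    (h : FiniteDimensional k⟮z⟯ Λ) : Algebra.trdeg k Λ = 1 := by
  have hind : AlgebraicIndependent k (fun _ : Unit => z) :=
    algebraicIndependent_unique_type_iff.mpr hz
  have hr : Set.range (fun _ : Unit => z) = {z} := by ext; simp [eq_comm]
  have halg : Algebra.IsAlgebraic (Algebra.adjoin k (Set.range fun _ : Unit => z)) Λ := by
    rw [hr]
    have h2 : Algebra.IsAlgebraic k⟮z⟯ Λ := inferInstance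
    exact (IsFractionRing.comap_isAlgebraic_iff (A := Algebra.adjoin k {z}) (K := k⟮z⟯)
      (C := Λ)).mpr h2
  have hb := hind.isTranscendenceBasis_iff_isAlgebraic.mpr halg
  have := hb.lift_cardinalMk_eq_trdeg
  simpa using this.symm

end ff1Aux

theorem ff1 : FF1Stmt := by
  intro k Λ _ _ _ _ z hz hfd
  have hess : Algebra.EssFiniteType k Λ := ff1Aux.ess z hfd
  have htr := ff1Aux.trdeg z hz hfd
  obtain ⟨s, hs, hsep⟩ := exists_isTranscendenceBasis_and_isSeparable_of_perfectField k Λ
  have hcard := hs.cardinalMk_eq_trdeg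
  rw [htr] at hcard
  have hc1 : s.card = 1 := by
    rw [Cardinal.mk_coe_finset] at hcard
    exact_mod_cast hcard
  obtain ⟨x, rfl⟩ := Finset.card_eq_one.mp hc1
  have hx : Transcendental k x := hs.1.transcendental ⟨x, Finset.mem_singleton_self x⟩
  refine ⟨x, hx, ?_, ?_⟩
  · exact Pool.Agent.Lib.MP_cc17a8_ag.IsFunctionField.finiteDimensional ⟨htr, hess⟩ hx
  · rw [Finset.coe_singleton] at hsep
    exact hsep

end Pool.Agent.Lib.MP_410da7_agA
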