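import Pool.Agent.Lib.MP_410da7_agA.SpecF0

/-!
# MP_410da7_ag (C46), block F0, FF10: Riemann's inequality
-/

set_option autoImplicit false

namespace Pool.Agent.Lib.MP_410da7_agA

open MvPolynomial Module

namespace ff10Aux

variable {k Λ : Type} [Field k] [Field Λ] [Algebra k Λ]

theorem exp_ne (C : Curve k Λ) (w : C.pt) {y : Λ} (hy : y ≠ 0) : C.exp w y ≠ 0 := by
  intro h
  apply hy
  apply (C.exp w).injective
  rw [h, map_zero]

theorem ord_mul (C : Curve k Λ) (w : C.pt) {y z : Λ} (hy : y ≠ 0) (hz : z ≠ 0) :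
    C.ord w (y * z) = C.ord w y + C.ord w z := by
  unfold Curve.ord
  rw [map_mul]
  exact HahnSeries.order_mul (exp_ne C w hy) (exp_ne C w hz)

theorem ord_one (C : Curve k Λ) (w : C.pt) : C.ord w 1 = 0 := by
  unfold Curve.ord
  rw [map_one]
  exact HahnSeries.order_one

theorem ord_pow (C : Curve k Λ) (w : C.pt) {y : Λ} (hy : y ≠ 0) (n : ℕ) :
    C.ord w (y ^ n) = n * C.ord w y := by
  induction n with
  | zero => rw [pow_zero, ord_one]; simp
  | succ n ih =>
    rw [pow_succ, ord_mul C w (pow_ne_zero _ hy) hy, ih]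
    push_cast
    ring

theorem ord_prod (C : Curve k Λ) (w : C.pt) {ι : Type} (s : Finset ι) (f : ι → Λ)
    (hf : ∀ i ∈ s, f i ≠ 0) : C.ord w (∏ i ∈ s, f i) = ∑ i ∈ s, C.ord w (f i) := by
  classical
  induction s using Finset.induction_on with
  | empty => rw [Finset.prod_empty, Finset.sum_empty, ord_one]
  | insert i s hi ih =>
    rw [Finset.prod_insert hi, Finset.sum_insert hi,
      ord_mul C w (hf i (Finset.mem_insert_self i s)) (Finset.prod_ne_zero_iff.2
        fun j hj => hf j (Finset.mem_insert_of_mem hj)),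
      ih fun j hj => hf j (Finset.mem_insert_of_mem hj)]

theorem le_ord (C : Curve k Λ) (w : C.pt) {y : Λ} (hy : y ≠ 0) (n : ℤ) :
    n ≤ C.ord w y ↔ ∀ i : ℤ, i < n → (C.exp w y).coeff i = 0 := by
  unfold Curve.ord
  constructor
  · intro h i hi
    exact HahnSeries.coeff_eq_zero_of_lt_order (lt_of_lt_of_le hi h)
  · intro h
    by_contra hn
    rw [not_le] at hn
    exact exp_ne C w hy (HahnSeries.coeff_order_eq_zero.1 (h _ hn))

theorem mem_L (C : Curve k Λ) (D : C.pt → ℤ) {y : Λ} (hy : y ≠ 0) :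
    y ∈ C.L D ↔ ∀ w, -D w ≤ C.ord w y := by
  constructor
  · intro h w
    exact (le_ord C w hy _).2 (h w)
  · intro h w
    exact (le_ord C w hy _).1 (h w)

/-- the order of `x` minus a constant -/
theorem ord_sub_nonneg (C : Curve k Λ) (w : C.pt) {x : Λ} (hx : x ≠ 0) (a : k)
    (hne : x - algebraMap k Λ a ≠ 0) (h : 0 ≤ C.ord w x) :
    0 ≤ C.ord w (x - algebraMap k Λ a) := by
  rw [le_ord C w hx] at h
  rw [le_ord C w hne]
  intro i hi
  rw [map_sub, C.exp_alg, HahnSeries.coeff_sub, h i hi, HahnSeries.C_apply,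
    HahnSeries.coeff_single_of_ne hi.ne, sub_zero]

theorem ord_sub_pos (C : Curve k Λ) (w : C.pt) {x : Λ} (hx : x ≠ 0)
    (hne : x - algebraMap k Λ (C.cf w 0 x) ≠ 0) (h : 0 ≤ C.ord w x) :
    1 ≤ C.ord w (x - algebraMap k Λ (C.cf w 0 x)) := by
  rw [le_ord C w hx] at h
  rw [le_ord C w hne]
  intro i hi
  rw [map_sub, C.exp_alg, HahnSeries.coeff_sub, HahnSeries.C_apply]
  rcases (show i ≤ 0 by omega).lt_or_eq with h0 | h0
  · rw [h i h0, HahnSeries.coeff_single_of_ne h0.ne, sub_zero]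
  · subst h0
    rw [HahnSeries.coeff_single_same]
    exact sub_self _

end ff10Aux

open ff10Aux in
theorem ff10 (h1 : F2Stmt) (h2 : FF8Stmt) (h3 : FF9Stmt) : FF10Stmt := by
  classical
  intro k Λ _ _ _ C hC x hx
  obtain ⟨γ, hγ⟩ := h3 k Λ C hC x hx
  refine ⟨γ, fun D hD => ?_⟩
  have hxc : ∀ a : k, x - algebraMap k Λ a ≠ 0 := by
    intro a h
    rw [sub_eq_zero] at h
    apply hx.1
    rw [h]
    exact isAlgebraic_algebraMap a
  have hx0 : x ≠ 0 := by
    have := hxc 0
    rwa [map_zero, sub_zero] at this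
  set B : C.pt → ℤ := fun w => max 0 (-(C.ord w x)) with hB
  have hB0 : ∀ w, 0 ≤ B w := fun w => le_max_left _ _
  have hBx : ∀ w, B w = 0 → 0 ≤ C.ord w x := by
    intro w h
    have : -(C.ord w x) ≤ 0 := by
      rw [← h]
      exact le_max_right _ _
    omega
  have hfx : {w | C.ord w x ≠ 0}.Finite := C.finite x hx0
  have hBf : {w | B w ≠ 0}.Finite := by
    refine hfx.subset fun w hw hw' => hw ?_
    show max 0 (-(C.ord w x)) = 0
    rw [hw']
    simp
  -- the point
  have hpt : Nonempty C.pt := by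
    by_contra hemp
    rw [not_nonempty_iff] at hemp
    have h4 := hC.deg x hx
    rw [finsum_of_isEmpty] at h4
    have := hx.2.1
    have h5 : 0 < finrank (IntermediateField.adjoin k {x}) Λ := finrank_pos
    omega
  obtain ⟨w₀⟩ := hpt
  -- the function h
  have hSf : {w | B w = 0 ∧ 0 < D w}.Finite := hD.subset fun w hw hw' => by
    have := hw.2
    omega
  set S : Finset C.pt := hSf.toFinset with hS
  have hmS : ∀ w, w ∈ S ↔ B w = 0 ∧ 0 < D w := fun w => hSf.mem_toFinset
  set h : Λ := ∏ w ∈ S, (x - algebraMap k Λ (C.cf w 0 x)) ^ (D w).toNat with hh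
  have hfac : ∀ w ∈ S, (x - algebraMap k Λ (C.cf w 0 x)) ^ (D w).toNat ≠ 0 :=
    fun w _ => pow_ne_zero _ (hxc _)
  have hh0 : h ≠ 0 := Finset.prod_ne_zero_iff.2 hfac
  have hord : ∀ w, C.ord w h =
      ∑ v ∈ S, ((D v).toNat : ℤ) * C.ord w (x - algebraMap k Λ (C.cf v 0 x)) := by
    intro w
    rw [hh, ord_prod C w S _ hfac]
    exact Finset.sum_congr rfl fun v _ => ord_pow C w (hxc _) _
  have hterm : ∀ w, B w = 0 → ∀ v ∈ S,
      0 ≤ ((D v).toNat : ℤ) * C.ord w (x - algebraMap k Λ (C.cf v 0 x)) := by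
    intro w hw v _
    exact mul_nonneg (Int.natCast_nonneg _) (ord_sub_nonneg C w hx0 _ (hxc _) (hBx w hw))
  have hord0 : ∀ w, B w = 0 → 0 ≤ C.ord w h := by
    intro w hw
    rw [hord]
    exact Finset.sum_nonneg (hterm w hw)
  have hordD : ∀ w, B w = 0 → D w ≤ C.ord w h := by
    intro w hw
    by_cases hDw : 0 < D w
    · have hwS : w ∈ S := (hmS w).2 ⟨hw, hDw⟩
      rw [hord]
      have h5 := Finset.single_le_sum (hterm w hw) hwS
      have h6 := ord_sub_pos C w hx0 (hxc _) (hBx w hw)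
      have h7 : D w ≤ ((D w).toNat : ℤ) * C.ord w (x - algebraMap k Λ (C.cf w 0 x)) := by
        rw [Int.toNat_of_nonneg hDw.le]
        nlinarith
      exact h7.trans h5
    · have := hord0 w hw
      omega
  -- the number m
  set m : ℕ := ∑ w ∈ hBf.toFinset, (D w - C.ord w h).toNat with hm
  have hmw : ∀ w, D w ≤ m * B w + C.ord w h := by
    intro w
    by_cases hw : B w = 0
    · have := hordD w hw
      rw [hw]
      omega
    · have h5 : (D w - C.ord w h).toNat ≤ m :=
        Finset.single_le_sum (f := fun w => (D w - C.ord w h).toNat) (fun _ _ => Nat.zero_le _)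
          (hBf.mem_toFinset.2 hw)
      have h6 : 1 ≤ B w := by
        have := hB0 w
        omega
      have h7 : (m : ℤ) ≤ m * B w := le_mul_of_one_le_right (Int.natCast_nonneg m) h6
      omega
  set D' : C.pt → ℤ := fun w => m * B w + C.ord w h with hD'
  have hfh : {w | C.ord w h ≠ 0}.Finite := C.finite h hh0
  have hD'f : {w | D' w ≠ 0}.Finite := by
    refine (hBf.union hfh).subset fun w hw => ?_
    by_contra hcon
    rw [Set.mem_union, not_or] at hcon
    simp only [Set.mem_ofPred_eq, not_not] at hcon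
    apply hw
    show (m : ℤ) * B w + C.ord w h = 0
    rw [hcon.1, hcon.2]
    simp
  have hfd : FiniteDimensional k (C.L D') := h1 k Λ C w₀ D' (hD'f.subset fun w hw hw' => by
    have : 0 < D' w := hw
    omega)
  have h8 := h2 k Λ C D D' hmw ((hD.union hD'f).subset fun w hw => by
    by_contra hcon
    rw [Set.mem_union, not_or] at hcon
    simp only [Set.mem_ofPred_eq, not_not] at hcon
    apply hw
    rw [hcon.1, hcon.2]) hfd
  -- multiplication by h
  have h9 : finrank k (C.L (fun w => (m : ℤ) * max 0 (-(C.ord w x)))) ≤ finrank k (C.L D') := by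
    have hmem : ∀ y : C.L (fun w => (m : ℤ) * max 0 (-(C.ord w x))), (y : Λ) * h⁻¹ ∈ C.L D' := by
      intro y
      by_cases hy : (y : Λ) = 0
      · rw [hy, zero_mul]
        exact (C.L D').zero_mem
      · have hyh : (y : Λ) * h⁻¹ ≠ 0 := mul_ne_zero hy (inv_ne_zero hh0)
        rw [mem_L C D' hyh]
        intro w
        have h10 := (mem_L C _ hy).1 y.2 w
        have h11 := ord_mul C w hyh hh0
        rw [inv_mul_cancel_right₀ hh0] at h11
        show -((m : ℤ) * max 0 (-(C.ord w x)) + C.ord w h) ≤ _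
        omega
    let g : C.L (fun w => (m : ℤ) * max 0 (-(C.ord w x))) →ₗ[k] C.L D' :=
      LinearMap.codRestrict (C.L D')
        ((LinearMap.mulRight k h⁻¹).comp (Submodule.subtype _)) hmem
    apply LinearMap.finrank_le_finrank_of_injective (f := g)
    intro y z hyz
    have h12 : (y : Λ) * h⁻¹ = (z : Λ) * h⁻¹ := congrArg (fun z : C.L D' => (z : Λ)) hyz
    exact Subtype.ext (mul_right_cancel₀ (inv_ne_zero hh0) h12)
  have h10 := hγ m
  -- the sums
  set U : Finset C.pt := (hD.union (hBf.union hfh)).toFinset with hU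
  have hmU : ∀ w, w ∉ U → D w = 0 ∧ B w = 0 ∧ C.ord w h = 0 := by
    intro w hw
    rw [hU, Set.Finite.mem_toFinset, Set.mem_union, Set.mem_union, not_or, not_or] at hw
    simpa only [Set.mem_ofPred_eq, not_not] using hw
  have s1 : ∑ᶠ w, D w = ∑ w ∈ U, D w := finsum_eq_sum_of_support_subset _ fun w hw => by
    by_contra hcon
    exact hw (hmU w hcon).1
  have s2 : ∑ᶠ w, max 0 (-(C.ord w x)) = ∑ w ∈ U, B w :=
    finsum_eq_sum_of_support_subset _ fun w hw => by
      by_contra hcon
      exact hw (hmU w hcon).2.1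
  have s3 : ∑ w ∈ U, C.ord w h = 0 := by
    rw [← C.sum h hh0]
    exact (finsum_eq_sum_of_support_subset _ fun w hw => by
      by_contra hcon
      exact hw (hmU w hcon).2.2).symm
  have s4 : ∑ᶠ w, (D' w - D w) = ∑ w ∈ U, (D' w - D w) :=
    finsum_eq_sum_of_support_subset _ fun w hw => by
      by_contra hcon
      obtain ⟨c1, c2, c3⟩ := hmU w hcon
      apply hw
      show (m : ℤ) * B w + C.ord w h - D w = 0
      rw [c1, c2, c3]
      simp
  have s5 : ∑ w ∈ U, (D' w - D w) = m * ∑ w ∈ U, B w + ∑ w ∈ U, C.ord w h - ∑ w ∈ U, D w := by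
    rw [Finset.sum_sub_distrib, Finset.mul_sum, ← Finset.sum_add_distrib]
  rw [s2] at h10
  rw [s4, s5, s3] at h8
  rw [s1]
  have h11 : (finrank k (C.L (fun w => (m : ℤ) * max 0 (-(C.ord w x)))) : ℤ) ≤
      finrank k (C.L D') := by exact_mod_cast h9
  omega

end Pool.Agent.Lib.MP_410da7_agA
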