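import Pool.Agent.Lib.MP_410da7_agA.SpecF0

/-!
# MP_410da7_ag, C46, block F0: one of `f`, `f x` is separating
-/

set_option autoImplicit false

namespace Pool.Agent.Lib.MP_410da7_agA

open IntermediateField algebraAdjoinAdjoin

namespace ff2Aux

variable {k Λ : Type} [Field k] [Field Λ] [Algebra k Λ]

/-- The elements whose differential is a multiple of the differential of `g`. -/
noncomputable def N (k : Type) {Λ : Type} [Field k] [Field Λ] [Algebra k Λ] (g : Λ) :
    IntermediateField k Λ where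
  carrier := {a | KaehlerDifferential.D k Λ a ∈ Submodule.span Λ {KaehlerDifferential.D k Λ g}}
  mul_mem' := by
    intro a b ha hb
    rw [Set.mem_ofPred_eq] at ha hb ⊢
    rw [Derivation.leibniz]
    exact Submodule.add_mem _ (Submodule.smul_mem _ _ hb) (Submodule.smul_mem _ _ ha)
  add_mem' := by
    intro a b ha hb
    rw [Set.mem_ofPred_eq] at ha hb ⊢
    rw [map_add]
    exact Submodule.add_mem _ ha hb
  algebraMap_mem' := by
    intro r
    rw [Set.mem_ofPred_eq, Derivation.map_algebraMap]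
    exact Submodule.zero_mem _
  inv_mem' := by
    intro a ha
    change a ∈ {a | KaehlerDifferential.D k Λ a ∈
      Submodule.span Λ {KaehlerDifferential.D k Λ g}} at ha
    change a⁻¹ ∈ {a | KaehlerDifferential.D k Λ a ∈
      Submodule.span Λ {KaehlerDifferential.D k Λ g}}
    rw [Set.mem_ofPred_eq] at ha ⊢
    rw [Derivation.leibniz_inv]
    exact Submodule.smul_mem _ _ ha

theorem ker_le (g : Λ) : LinearMap.ker (KaehlerDifferential.map k k⟮g⟯ Λ Λ) ≤
    Submodule.span Λ {KaehlerDifferential.D k Λ g} := by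
  rw [← KaehlerDifferential.range_mapBaseChange]
  have hN : k⟮g⟯ ≤ N k g := by
    rw [IntermediateField.adjoin_simple_le_iff]
    exact Submodule.mem_span_singleton_self _
  have hmap : ∀ y : Ω[k⟮g⟯⁄k], KaehlerDifferential.map k k k⟮g⟯ Λ y ∈
      Submodule.span Λ {KaehlerDifferential.D k Λ g} := by
    intro y
    have hy : y ∈ Submodule.span k⟮g⟯ (Set.range (KaehlerDifferential.D k k⟮g⟯)) := by
      rw [KaehlerDifferential.span_range_derivation]; trivial
    induction hy using Submodule.span_induction with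
    | mem y hy =>
      obtain ⟨a, rfl⟩ := hy
      rw [KaehlerDifferential.map_D]
      exact hN a.2
    | zero => rw [map_zero]; exact Submodule.zero_mem _
    | add x y _ _ hx hy => rw [map_add]; exact Submodule.add_mem _ hx hy
    | smul a x _ hx =>
      rw [map_smul]
      have : a • KaehlerDifferential.map k k k⟮g⟯ Λ x = (a : Λ) • KaehlerDifferential.map k k k⟮g⟯ Λ x := rfl
      rw [this]
      exact Submodule.smul_mem _ _ hx
  rintro _ ⟨z, rfl⟩
  induction z with
  | zero => rw [map_zero]; exact Submodule.zero_mem _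
  | add x y hx hy => rw [map_add]; exact Submodule.add_mem _ hx hy
  | tmul x y =>
    rw [KaehlerDifferential.mapBaseChange_tmul]
    exact Submodule.smul_mem _ _ (hmap y)

theorem ess {z : Λ} (h : FiniteDimensional k⟮z⟯ Λ) : Algebra.EssFiniteType k Λ := by
  have h1 : Algebra.EssFiniteType k k⟮z⟯ := by
    rw [IntermediateField.essFiniteType_iff]
    exact ⟨{z}, by simp⟩
  exact Algebra.EssFiniteType.comp k k⟮z⟯ Λ

theorem trdeg {z : Λ} (hz : Transcendental k z)
    (h : FiniteDimensional k⟮z⟯ Λ) : Algebra.trdeg k Λ = 1 := by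
  have hind : AlgebraicIndependent k (fun _ : Unit => z) :=
    algebraicIndependent_unique_type_iff.mpr hz
  have hr : Set.range (fun _ : Unit => z) = {z} := by ext; simp [eq_comm]
  have halg : Algebra.IsAlgebraic (Algebra.adjoin k (Set.range fun _ : Unit => z)) Λ := by
    rw [hr]
    have h2 : Algebra.IsAlgebraic k⟮z⟯ Λ := inferInstance
    exact (IsFractionRing.comap_isAlgebraic_iff (A := Algebra.adjoin k {z}) (K := k⟮z⟯)
      (C := Λ)).mpr h2
  have hb := hind.isTranscendenceBasis_iff_isAlgebraic.mpr halg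
  have := hb.lift_cardinalMk_eq_trdeg
  simpa using this.symm

theorem span_eq {x : Λ} (hx : Sepg k x) (w : Ω[Λ⁄k]) :
    ∃ c : Λ, c • KaehlerDifferential.D k Λ x = w := by
  have := hx.2.2
  have h1 : Algebra.FormallyUnramified k⟮x⟯ Λ := Algebra.FormallyUnramified.of_isSeparable _ _
  have h2 : w ∈ LinearMap.ker (KaehlerDifferential.map k k⟮x⟯ Λ Λ) := by
    rw [LinearMap.mem_ker]
    exact Subsingleton.elim _ _
  exact Submodule.mem_span_singleton.mp (ker_le x h2)

theorem main [IsAlgClosed k] {x : Λ} (hx : Sepg k x) {g : Λ}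
    (hg : KaehlerDifferential.D k Λ g ≠ 0) : Sepg k g := by
  have hess : Algebra.EssFiniteType k Λ := ess hx.2.1
  have htr := trdeg hx.1 hx.2.1
  have hgt : Transcendental k g := by
    intro h
    have h1 : FiniteDimensional k k⟮g⟯ := IntermediateField.adjoin.finiteDimensional h.isIntegral
    have h2 : k⟮g⟯ = ⊥ := IntermediateField.eq_bot_of_isAlgClosed_of_isAlgebraic _
    have h3 : g ∈ k⟮g⟯ := IntermediateField.mem_adjoin_simple_self k g
    rw [h2, IntermediateField.mem_bot] at h3
    obtain ⟨a, rfl⟩ := h3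
    exact hg (Derivation.map_algebraMap _ a)
  refine ⟨hgt,
    Pool.Agent.Lib.MP_cc17a8_ag.IsFunctionField.finiteDimensional ⟨htr, hess⟩ hgt, ?_⟩
  obtain ⟨c, hc⟩ := span_eq hx (KaehlerDifferential.D k Λ g)
  have hc0 : c ≠ 0 := by
    rintro rfl
    rw [zero_smul] at hc
    exact hg hc.symm
  have h5 : Algebra.EssFiniteType k⟮g⟯ Λ := Algebra.EssFiniteType.of_comp k k⟮g⟯ Λ
  rw [← Algebra.FormallyUnramified.iff_isSeparable, Algebra.formallyUnramified_iff]
  have hzero : ∀ w : Ω[Λ⁄k], KaehlerDifferential.map k k⟮g⟯ Λ Λ w = 0 := by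
    intro w
    obtain ⟨e, he⟩ := span_eq hx w
    have hdx : KaehlerDifferential.D k Λ x = c⁻¹ • KaehlerDifferential.D k Λ g := by
      rw [← hc, smul_smul, inv_mul_cancel₀ hc0, one_smul]
    have hdg : KaehlerDifferential.map k k⟮g⟯ Λ Λ (KaehlerDifferential.D k Λ g) = 0 := by
      rw [KaehlerDifferential.map_D]
      have : algebraMap Λ Λ g = algebraMap k⟮g⟯ Λ ⟨g, IntermediateField.mem_adjoin_simple_self k g⟩ :=
        rfl
      rw [this, Derivation.map_algebraMap]
    rw [← he, hdx, map_smul, map_smul, hdg, smul_zero, smul_zero]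
  refine ⟨fun a b => ?_⟩
  obtain ⟨a, rfl⟩ := KaehlerDifferential.map_surjective k k⟮g⟯ Λ a
  obtain ⟨b, rfl⟩ := KaehlerDifferential.map_surjective k k⟮g⟯ Λ b
  rw [hzero, hzero]

theorem dx_ne [IsAlgClosed k] {x : Λ} (hx : Sepg k x) : KaehlerDifferential.D k Λ x ≠ 0 := by
  intro h
  have hess : Algebra.EssFiniteType k Λ := ess hx.2.1
  have h1 : Algebra.FormallyUnramified k Λ := by
    rw [Algebra.formallyUnramified_iff]
    refine ⟨fun a b => ?_⟩
    obtain ⟨c, rfl⟩ := span_eq hx a
    obtain ⟨d, rfl⟩ := span_eq hx b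
    rw [h, smul_zero, smul_zero]
  have h2 : Algebra.IsSeparable k Λ := Algebra.FormallyUnramified.isSeparable k Λ
  exact hx.1 (Algebra.IsSeparable.isAlgebraic k Λ |>.isAlgebraic x)

end ff2Aux

theorem ff2 : FF2Stmt := by
  intro k Λ _ _ _ _ x hx
  have hdx := ff2Aux.dx_ne hx
  have hx0 : x ≠ 0 := by
    rintro rfl
    exact hdx (map_zero _)
  refine ⟨?_, ?_⟩
  · apply ff2Aux.main hx
    rw [Derivation.leibniz_inv]
    intro h
    rcases smul_eq_zero.mp h with h | h
    · exact (neg_ne_zero.mpr (pow_ne_zero 2 (inv_ne_zero hx0))) h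
    · exact hdx h
  · intro f hf
    by_cases hdf : KaehlerDifferential.D k Λ f = 0
    · right
      apply ff2Aux.main hx
      rw [Derivation.leibniz, hdf, smul_zero, add_zero]
      exact smul_ne_zero hf hdx
    · left
      exact ff2Aux.main hx hdf

end Pool.Agent.Lib.MP_410da7_agA
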