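import Pool.Agent.Lib.MP_410da7_agA.SpecF0

/-!
# MP_410da7_ag, C46, block F0: zeros of a separating element
-/

set_option autoImplicit false

namespace Pool.Agent.Lib.MP_410da7_agA

open IntermediateField algebraAdjoinAdjoin Polynomial Pool.Agent.Lib.MP_cc17a8_ag

namespace ff3Aux

theorem res {k S F : Type} [Field k] [CommRing S] [IsDedekindDomain S] [Field F] [Algebra k S]
    [Algebra S F] [Algebra k F] [IsScalarTower k S F] [IsFractionRing S F]
    (v : ValuationSubring F) (hvtop : v ≠ ⊤) (hS : ∀ s : S, algebraMap S F s ∈ v)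
    (hres : ∀ a : S, ∃ α : k, a - algebraMap k S α ∈ cen v hS) :
    ∀ y ∈ v, ∃ c : k, y = algebraMap k F c ∨ (y - algebraMap k F c)⁻¹ ∉ v := by
  intro y hy
  obtain ⟨-, hloc⟩ := isLocalization_of_place v hvtop hS
  let _ : Algebra S v := (algOf v hS).toAlgebra
  obtain ⟨⟨a, s⟩, has⟩ := IsLocalization.surj (cen v hS).primeCompl (⟨y, hy⟩ : v)
  obtain ⟨α, hα⟩ := hres a
  obtain ⟨β, hβ⟩ := hres (s : S)
  have hβ0 : β ≠ 0 := by
    rintro rfl
    apply s.2
    rw [map_zero, sub_zero] at hβ
    exact hβ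
  have hα' : algebraMap S v (a - algebraMap k S α) ∈ IsLocalRing.maximalIdeal v := hα
  have hβ' : algebraMap S v ((s : S) - algebraMap k S β) ∈ IsLocalRing.maximalIdeal v := hβ
  let kv : k →+* v := (algebraMap S v).comp (algebraMap k S)
  have hkv : ∀ c : k, ((kv c : v) : F) = algebraMap k F c := by
    intro c
    rw [IsScalarTower.algebraMap_apply k S F]
    rfl
  refine ⟨α / β, ?_⟩
  by_cases hyc : y = algebraMap k F (α / β)
  · exact Or.inl hyc
  right
  intro hinv
  have hm : (⟨y, hy⟩ : v) - kv (α / β) ∈ IsLocalRing.maximalIdeal v := by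
    have h1 : kv β * ((⟨y, hy⟩ : v) - kv (α / β)) =
        algebraMap S v (a - algebraMap k S α) -
          algebraMap S v ((s : S) - algebraMap k S β) * ⟨y, hy⟩ := by
      have h2 : kv β * kv (α / β) = kv α := by
        rw [← map_mul, mul_div_cancel₀ _ hβ0]
      have h3 : (⟨y, hy⟩ : v) * algebraMap S v (s : S) = algebraMap S v a := has
      rw [mul_sub, h2, map_sub, map_sub, ← h3]
      change kv β * ⟨y, hy⟩ - kv α = (⟨y, hy⟩ * algebraMap S v (s : S) - kv α) -
        (algebraMap S v (s : S) - kv β) * ⟨y, hy⟩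
      ring
    have h4 : kv β⁻¹ * (kv β * ((⟨y, hy⟩ : v) - kv (α / β))) = (⟨y, hy⟩ : v) - kv (α / β) := by
      rw [← mul_assoc, ← map_mul, inv_mul_cancel₀ hβ0, map_one, one_mul]
    rw [← h4, h1]
    exact Ideal.mul_mem_left _ _ (Ideal.sub_mem _ hα' (Ideal.mul_mem_right _ _ hβ'))
  rw [IsLocalRing.mem_maximalIdeal, mem_nonunits_iff] at hm
  apply hm
  refine IsUnit.of_mul_eq_one (⟨(y - algebraMap k F (α / β))⁻¹, hinv⟩ : v) ?_
  apply Subtype.ext
  change (y - ((kv (α / β) : v) : F)) * (y - algebraMap k F (α / β))⁻¹ = 1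
  rw [hkv]
  exact mul_inv_cancel₀ (sub_ne_zero.mpr hyc)

theorem core {k A S F : Type} [Field k] [IsAlgClosed k] [CommRing A] [IsDomain A] [Algebra k A]
    [CommRing S] [IsDedekindDomain S] [Algebra k S] [Algebra A S] [IsScalarTower k A S] [Field F]
    [Algebra S F] [Algebra A F] [Algebra k F] [IsScalarTower A S F] [IsScalarTower k S F]
    [IsFractionRing S F] [Module.Finite A S] [Module.Flat A S] [Module.IsTorsionFree A S]
    (f0 : A) (hf0 : f0 ≠ 0) (hmax : (Ideal.span {f0}).IsMaximal)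
    (hksurj : Function.Surjective (algebraMap k (A ⧸ Ideal.span {f0}))) :
    {v : ValuationSubring F | (∀ s : S, algebraMap S F s ∈ v) ∧ (algebraMap A F f0)⁻¹ ∉ v}.Finite ∧
    (∀ v ∈ {v : ValuationSubring F |
        (∀ s : S, algebraMap S F s ∈ v) ∧ (algebraMap A F f0)⁻¹ ∉ v},
      IsDiscreteValuationRing v ∧ ∀ y ∈ v, ∃ c : k, y = algebraMap k F c ∨
        (y - algebraMap k F c)⁻¹ ∉ v) ∧
    ∑ᶠ v ∈ {v : ValuationSubring F |
        (∀ s : S, algebraMap S F s ∈ v) ∧ (algebraMap A F f0)⁻¹ ∉ v},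
      ordAt v (algebraMap A F f0) = Module.finrank A S := by
  have hbij : ∀ q : Ideal S, q.IsPrime → (hqo : q.LiesOver (Ideal.span {f0})) →
      Function.Bijective (algebraMap (A ⧸ Ideal.span {f0}) (S ⧸ q)) := by
    intro q hq hqo
    have hqm : q.IsMaximal := Ideal.IsMaximal.of_liesOver_isMaximal q (Ideal.span {f0})
    let _ : Field (A ⧸ Ideal.span {f0}) := Ideal.Quotient.field _
    let _ : Field (S ⧸ q) := Ideal.Quotient.field _
    have hac : IsAlgClosed (A ⧸ Ideal.span {f0}) :=
      IsAlgClosed.of_ringEquiv k _ (RingEquiv.ofBijective (algebraMap k (A ⧸ Ideal.span {f0}))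
        ⟨(algebraMap k (A ⧸ Ideal.span {f0})).injective, hksurj⟩)
    exact IsAlgClosed.algebraMap_bijective_of_isIntegral
  have hin : ∀ q ∈ (Ideal.span {f0}).primesOver S, q.inertiaDeg A = 1 := by
    rintro q ⟨hq, hqo⟩
    have hqm : q.IsMaximal := Ideal.IsMaximal.of_liesOver_isMaximal q (Ideal.span {f0})
    rw [Ideal.inertiaDeg_eq_of_isMaximal (Ideal.span {f0}) q]
    let _ : Field (A ⧸ Ideal.span {f0}) := Ideal.Quotient.field _
    let _ : Field (S ⧸ q) := Ideal.Quotient.field _
    rw [← (AlgEquiv.ofBijective (Algebra.ofId (A ⧸ Ideal.span {f0}) (S ⧸ q))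
      (hbij q hq hqo)).toLinearEquiv.finrank_eq]
    exact Module.finrank_self _
  have hres : ∀ q : Ideal S, q.IsPrime → q.LiesOver (Ideal.span {f0}) → ∀ a : S, ∃ α : k,
      a - algebraMap k S α ∈ q := by
    intro q hq hqo a
    obtain ⟨y, hy⟩ := (hbij q hq hqo).2 (Ideal.Quotient.mk q a)
    obtain ⟨α, rfl⟩ := hksurj y
    refine ⟨α, ?_⟩
    rw [← Ideal.Quotient.eq, ← hy, IsScalarTower.algebraMap_apply k A (A ⧸ Ideal.span {f0}),
      Ideal.Quotient.algebraMap_eq, Ideal.Quotient.algebraMap_mk_of_liesOver,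
      ← IsScalarTower.algebraMap_apply]
  have key := sum_zeros (F := F) (A := A) (S := S) f0 hf0 hmax hin
  refine ⟨key.1, ?_, key.2⟩
  intro v hv'
  have hvtop : v ≠ ⊤ := by
    rintro rfl
    exact hv'.2 (ValuationSubring.mem_top _)
  refine ⟨isDVR_of_place (S := S) hvtop hv'.1, ?_⟩
  have hover : (cen v hv'.1).LiesOver (Ideal.span {f0}) := by
    constructor
    have h1 : Ideal.span {f0} ≤ (cen v hv'.1).under A := by
      rw [Ideal.span_le, Set.singleton_subset_iff, SetLike.mem_coe, Ideal.under_def,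
        Ideal.mem_comap, mem_cen_iff]
      right
      rw [← IsScalarTower.algebraMap_apply]
      exact hv'.2
    exact hmax.eq_of_le (Ideal.IsPrime.ne_top inferInstance) h1
  exact res v hvtop hv'.1 (hres _ inferInstance hover)

/-- The quotient of `k[f]` by `f`. -/
theorem quot {k F : Type} [Field k] [Field F] [Algebra k F] {f : F} (hf : Transcendental k f) :
    IsPrincipalIdealRing (Algebra.adjoin k {f}) ∧
    (Ideal.span {(⟨f, Algebra.self_mem_adjoin_singleton k f⟩ : Algebra.adjoin k {f})}).IsMaximal ∧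
    Function.Surjective (algebraMap k (Algebra.adjoin k {f} ⧸
      Ideal.span {(⟨f, Algebra.self_mem_adjoin_singleton k f⟩ : Algebra.adjoin k {f})})) := by
  let eA : k[X] ≃ₐ[k] Algebra.adjoin k {f} := Polynomial.algEquivOfTranscendental k f hf
  have heA : ∀ P : k[X], ((eA P : Algebra.adjoin k {f}) : F) = aeval f P := by
    intro P
    have h := Polynomial.algEquivOfTranscendental_apply (R := k) f hf P
    change ((Polynomial.algEquivOfTranscendental k f hf P : Algebra.adjoin k {f}) : F) = _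
    rw [h]
    exact Polynomial.aeval_subalgebra_coe P (Algebra.adjoin k {f}) _
  have heAX : eA X = ⟨f, Algebra.self_mem_adjoin_singleton k f⟩ := by
    apply Subtype.ext
    rw [heA]; simp
  have hPID : IsPrincipalIdealRing (Algebra.adjoin k {f}) :=
    IsPrincipalIdealRing.of_surjective eA.toRingEquiv eA.surjective
  have hspan : Ideal.span {(⟨f, Algebra.self_mem_adjoin_singleton k f⟩ : Algebra.adjoin k {f})} =
      Ideal.map eA.toRingEquiv (Ideal.span {(X : k[X])}) := by
    rw [Ideal.map_span, Set.image_singleton]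
    congr 2
    exact heAX.symm
  have hXmax : (Ideal.span {(X : k[X])}).IsMaximal :=
    PrincipalIdealRing.isMaximal_of_irreducible Polynomial.irreducible_X
  refine ⟨hPID, ?_, ?_⟩
  · rw [hspan]
    exact Ideal.map_isMaximal_of_equiv eA.toRingEquiv
  · intro y
    obtain ⟨y, rfl⟩ := Ideal.Quotient.mk_surjective y
    obtain ⟨P, rfl⟩ := eA.surjective y
    refine ⟨P.coeff 0, ?_⟩
    rw [IsScalarTower.algebraMap_apply k (Algebra.adjoin k {f}) _, Ideal.Quotient.algebraMap_eq,
      Ideal.Quotient.eq, hspan, ← eA.commutes]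
    change eA _ - eA P ∈ _
    rw [← map_sub]
    refine Ideal.mem_map_of_mem eA.toRingEquiv (I := Ideal.span {(X : k[X])}) ?_
    rw [Ideal.mem_span_singleton, X_dvd_iff]
    simp

theorem main {k F S : Type} [Field k] [Field F] [Algebra k F] [IsAlgClosed k] (f : F)
    (hsep : Sepg k f) [CommRing S] [IsDomain S] [Algebra k S] [Algebra (Algebra.adjoin k {f}) S]
    [Algebra S F] [IsScalarTower (Algebra.adjoin k {f}) S F] [IsScalarTower k S F]
    [IsScalarTower k (Algebra.adjoin k {f}) S]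
    [IsIntegralClosure S (Algebra.adjoin k {f}) F] [Module.IsTorsionFree (Algebra.adjoin k {f}) S] :
    {v : ValuationSubring F | (∀ a : k, algebraMap k F a ∈ v) ∧ f ∈ v ∧ f⁻¹ ∉ v}.Finite ∧
    (∀ v ∈ {v : ValuationSubring F | (∀ a : k, algebraMap k F a ∈ v) ∧ f ∈ v ∧ f⁻¹ ∉ v},
      IsDiscreteValuationRing v ∧ ∀ y ∈ v, ∃ c : k, y = algebraMap k F c ∨
        (y - algebraMap k F c)⁻¹ ∉ v) ∧
    ∑ᶠ v ∈ {v : ValuationSubring F | (∀ a : k, algebraMap k F a ∈ v) ∧ f ∈ v ∧ f⁻¹ ∉ v},
      ordAt v f = Module.finrank k⟮f⟯ F := by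
  have hf : Transcendental k f := hsep.1
  have hfd : FiniteDimensional k⟮f⟯ F := hsep.2.1
  have hsp : Algebra.IsSeparable k⟮f⟯ F := hsep.2.2
  let f0 : Algebra.adjoin k {f} := ⟨f, Algebra.self_mem_adjoin_singleton k f⟩
  obtain ⟨hPID, hmax, hksurj⟩ := ff3Aux.quot hf
  have hDed : IsDedekindDomain S :=
    IsIntegralClosure.isDedekindDomain (Algebra.adjoin k {f}) k⟮f⟯ F S
  have hfin : Module.Finite (Algebra.adjoin k {f}) S :=
    IsIntegralClosure.finite (Algebra.adjoin k {f}) k⟮f⟯ F S
  have hrank : Module.finrank (Algebra.adjoin k {f}) S = Module.finrank k⟮f⟯ F :=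
    IsIntegralClosure.rank (Algebra.adjoin k {f}) k⟮f⟯ F S
  have hfrac : IsFractionRing S F :=
    IsIntegralClosure.isFractionRing_of_finite_extension (Algebra.adjoin k {f}) k⟮f⟯ F S
  have hfree : Module.Free (Algebra.adjoin k {f}) S :=
    IsIntegralClosure.module_free (Algebra.adjoin k {f}) k⟮f⟯ F S
  have hf00 : f ≠ 0 := by
    rintro rfl
    exact hf (isAlgebraic_zero)
  have hf0 : f0 ≠ 0 := fun h => hf00 (congrArg Subtype.val h)
  have key := ff3Aux.core (k := k) (F := F) (A := Algebra.adjoin k {f}) (S := S) f0 hf0 hmax hksurj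
  have hfF : algebraMap (Algebra.adjoin k {f}) F f0 = f := rfl
  have hset : {v : ValuationSubring F | (∀ s : S, algebraMap S F s ∈ v) ∧
        (algebraMap (Algebra.adjoin k {f}) F f0)⁻¹ ∉ v}
      = {v : ValuationSubring F | (∀ a : k, algebraMap k F a ∈ v) ∧ f ∈ v ∧ f⁻¹ ∉ v} := by
    ext v
    rw [hfF]
    constructor
    · rintro ⟨h1, h2⟩
      refine ⟨fun a => ?_, ?_, h2⟩
      · have := h1 (algebraMap k S a)
        rw [← IsScalarTower.algebraMap_apply] at this
        exact this
      · have := h1 (algebraMap (Algebra.adjoin k {f}) S f0)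
        rw [← IsScalarTower.algebraMap_apply, hfF] at this
        exact this
    · rintro ⟨h1, h2, h3⟩
      refine ⟨?_, h3⟩
      have hA : ∀ a : Algebra.adjoin k {f}, (a : F) ∈ v := by
        intro a
        let vs : Subalgebra k F := { v.toSubring with algebraMap_mem' := h1 }
        have : Algebra.adjoin k {f} ≤ vs := by
          rw [Algebra.adjoin_le_iff, Set.singleton_subset_iff]
          exact h2
        exact this a.2
      intro s
      have hs : IsIntegral (Algebra.adjoin k {f}) (algebraMap S F s) :=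
        (IsIntegralClosure.isIntegral_iff (A := S)).mpr ⟨s, rfl⟩
      let _ : Algebra (Algebra.adjoin k {f}) v :=
        (RingHom.codRestrict (algebraMap (Algebra.adjoin k {f}) F) v.toSubring hA).toAlgebra
      have : IsScalarTower (Algebra.adjoin k {f}) v F := IsScalarTower.of_algebraMap_eq fun _ => rfl
      have hs' : IsIntegral v (algebraMap S F s) := hs.tower_top
      obtain ⟨y, hy⟩ := IsIntegrallyClosed.isIntegral_iff.mp hs'
      have : algebraMap S F s = (y : F) := hy.symm
      rw [this]; exact y.2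
  rw [hset, hrank] at key
  exact key

end ff3Aux

theorem ff3 : FF3Stmt := by
  intro k F _ _ _ _ f hsep
  exact ff3Aux.main (S := integralClosure (Algebra.adjoin k {f}) F) f hsep

end Pool.Agent.Lib.MP_410da7_agA
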