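import Pool.Agent.Lib.MP_410da7_agA.SpecF0

/-!
# MP_410da7_ag, C46, block F0: expansions at a discrete valuation ring with residue field `k`
-/

set_option autoImplicit false

namespace Pool.Agent.Lib.MP_410da7_agA

open Pool.Agent.Lib.MP_cc17a8_ag

namespace ff4Aux

open PowerSeries

variable {k R : Type} [Field k] [CommRing R] [IsDomain R] [IsDiscreteValuationRing R]

/-- `p` is the expansion of `y` in powers of `t`. -/
def Rel (h : k →+* R) (t y : R) (p : PowerSeries k) : Prop :=
  ∀ n, t ^ n ∣ y - ((PowerSeries.trunc n p).eval₂ h t)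

theorem exi (h : k →+* R) (t : R) (hres : ∀ y : R, ∃ c : k, t ∣ y - h c) (y : R) :
    ∃ p, Rel h t y p := by
  choose c hc using hres
  choose δ hδ using hc
  refine ⟨PowerSeries.mk (fun n => c (δ^[n] y)), fun n => ?_⟩
  rw [PowerSeries.eval₂_trunc_eq_sum_range]
  have key : ∀ n, y - ∑ i ∈ Finset.range n,
      h (PowerSeries.coeff i (PowerSeries.mk (fun n => c (δ^[n] y)))) * t ^ i =
        t ^ n * δ^[n] y := by
    intro n
    induction n with
    | zero => simp
    | succ n ih =>
      rw [Finset.sum_range_succ, ← sub_sub, ih, PowerSeries.coeff_mk, Function.iterate_succ_apply',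
        pow_succ, mul_assoc, ← hδ, mul_sub, mul_comm (h _) (t ^ n)]
  rw [key n]
  exact Dvd.intro _ rfl

theorem uni (h : k →+* R) {t : R} (ht : Irreducible t) {y : R} {p q : PowerSeries k}
    (hp : Rel h t y p) (hq : Rel h t y q) : p = q := by
  ext n
  induction n using Nat.strong_induction_on with
  | _ n ih =>
    have h1 := dvd_sub (hq (n + 1)) (hp (n + 1))
    rw [PowerSeries.eval₂_trunc_eq_sum_range, PowerSeries.eval₂_trunc_eq_sum_range,
      Finset.sum_range_succ, Finset.sum_range_succ] at h1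
    have h2 : ∑ i ∈ Finset.range n, h (PowerSeries.coeff i q) * t ^ i =
        ∑ i ∈ Finset.range n, h (PowerSeries.coeff i p) * t ^ i := by
      refine Finset.sum_congr rfl fun i hi => ?_
      rw [ih i (Finset.mem_range.mp hi)]
    rw [h2] at h1
    have h3 : t ^ n * t ∣ t ^ n * h (PowerSeries.coeff n p - PowerSeries.coeff n q) := by
      rw [← pow_succ]
      convert h1 using 1
      rw [map_sub]
      ring
    have h4 := (mul_dvd_mul_iff_left (pow_ne_zero n ht.ne_zero)).mp h3
    by_contra hne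
    have h5 : IsUnit (PowerSeries.coeff n p - PowerSeries.coeff n q) :=
      isUnit_iff_ne_zero.mpr (sub_ne_zero.mpr hne)
    exact ht.not_isUnit (isUnit_of_dvd_unit h4 (h5.map h))

theorem relC (h : k →+* R) (t : R) (c : k) : Rel h t (h c) (PowerSeries.C c) := by
  intro n
  rcases n with _ | n
  · rw [pow_zero]; exact one_dvd _
  · rw [PowerSeries.trunc_C, Polynomial.eval₂_C, sub_self]
    exact dvd_zero _

theorem relX (h : k →+* R) (t : R) : Rel h t t PowerSeries.X := by
  intro n
  rcases n with _ | _ | n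
  · rw [pow_zero]; exact one_dvd _
  · rw [PowerSeries.eval₂_trunc_eq_sum_range]
    simp
  · rw [PowerSeries.trunc_X, Polynomial.eval₂_X, sub_self]
    exact dvd_zero _

theorem relAdd (h : k →+* R) (t : R) {y z : R} {p q : PowerSeries k}
    (hp : Rel h t y p) (hq : Rel h t z q) : Rel h t (y + z) (p + q) := by
  intro n
  rw [map_add, Polynomial.eval₂_add]
  have := dvd_add (hp n) (hq n)
  convert this using 1
  ring

theorem relMul (h : k →+* R) (t : R) {y z : R} {p q : PowerSeries k}
    (hp : Rel h t y p) (hq : Rel h t z q) : Rel h t (y * z) (p * q) := by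
  intro n
  have h1 : Polynomial.X ^ n ∣
      (PowerSeries.trunc n p * PowerSeries.trunc n q - PowerSeries.trunc n (p * q)) := by
    rw [Polynomial.X_pow_dvd_iff]
    intro d hd
    rw [Polynomial.coeff_sub, PowerSeries.coeff_trunc, if_pos hd,
      PowerSeries.coeff_mul_eq_coeff_trunc_mul_trunc p q hd, ← Polynomial.coe_mul,
      Polynomial.coeff_coe, sub_self]
  have h2 := map_dvd (Polynomial.eval₂RingHom h t) h1
  rw [map_pow, map_sub, map_mul, Polynomial.coe_eval₂RingHom, Polynomial.eval₂_X] at h2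
  have h3 := dvd_add (dvd_add (Dvd.dvd.mul_right (hp n) z)
    (Dvd.dvd.mul_left (hq n) ((PowerSeries.trunc n p).eval₂ h t))) h2
  convert h3 using 1
  ring

theorem exi_hom (h : k →+* R) {t : R} (ht : Irreducible t)
    (hres : ∀ y : R, ∃ c : k, t ∣ y - h c) :
    ∃ φ : R →+* PowerSeries k, Function.Injective φ ∧ (∀ c, φ (h c) = PowerSeries.C c) ∧
      φ t = PowerSeries.X := by
  choose f hf using exi h t hres
  have u : ∀ {y : R} {p : PowerSeries k}, Rel h t y p → f y = p := fun hp => uni h ht (hf _) hp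
  let φ : R →+* PowerSeries k :=
    { toFun := f
      map_one' := u (by simpa using relC h t 1)
      map_mul' := fun y z => u (relMul h t (hf y) (hf z))
      map_zero' := u (by simpa using relC h t 0)
      map_add' := fun y z => u (relAdd h t (hf y) (hf z)) }
  refine ⟨φ, ?_, fun c => u (relC h t c), u (relX h t)⟩
  rw [injective_iff_map_eq_zero]
  intro y hy
  by_contra hy0
  obtain ⟨n, w, hw⟩ := IsDiscreteValuationRing.eq_unit_mul_pow_irreducible hy0 ht
  have h1 : Rel h t y 0 := by
    have := hf y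
    have h2 : f y = 0 := hy
    rwa [h2] at this
  have h3 := h1 (n + 1)
  rw [map_zero, Polynomial.eval₂_zero, sub_zero, hw, pow_succ, mul_comm (w : R)] at h3
  have h4 := (mul_dvd_mul_iff_left (pow_ne_zero n ht.ne_zero)).mp h3
  exact ht.not_isUnit (isUnit_of_dvd_unit h4 w.isUnit)

theorem order_nonneg (p : PowerSeries k) : 0 ≤ (HahnSeries.ofPowerSeries ℤ k p).order := by
  by_cases hp : HahnSeries.ofPowerSeries ℤ k p = 0
  · rw [hp, HahnSeries.order_zero]
  · by_contra h
    push Not at h
    have h1 := HahnSeries.coeff_order_eq_zero.not.mpr hp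
    apply h1
    have h2 := PowerSeries.coeff_coe p (HahnSeries.ofPowerSeries ℤ k p).order
    rw [if_pos h] at h2
    exact h2

end ff4Aux

theorem ff4 : FF4Stmt := by
  intro k Λ _ _ _ v hv hk hr
  let h : k →+* v := (algebraMap k Λ).codRestrict v.toSubring hk
  have hh : ∀ c : k, ((h c : v) : Λ) = algebraMap k Λ c := fun _ => rfl
  obtain ⟨t, ht⟩ := IsDiscreteValuationRing.exists_irreducible v
  have hres : ∀ y : v, ∃ c : k, t ∣ y - h c := by
    intro y
    obtain ⟨c, hc⟩ := hr y y.2
    refine ⟨c, ?_⟩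
    rw [← Ideal.mem_span_singleton, ← ht.maximalIdeal_eq, IsLocalRing.mem_maximalIdeal,
      mem_nonunits_iff]
    rintro ⟨u, hu⟩
    rcases hc with hc | hc
    · have : (u : v) = 0 := by
        rw [hu, sub_eq_zero]
        exact Subtype.ext hc
      exact u.ne_zero this
    · apply hc
      have h3 : ((u⁻¹ : vˣ) : v) * u = 1 := by simp
      have h4 : (((u⁻¹ : vˣ) : v) : Λ) * ((y : Λ) - algebraMap k Λ c) = 1 := by
        have := congrArg Subtype.val h3
        rw [hu] at this
        exact this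
      have h5 : ((y : Λ) - algebraMap k Λ c)⁻¹ = (((u⁻¹ : vˣ) : v) : Λ) := by
        rw [eq_comm]; exact eq_inv_of_mul_eq_one_left h4
      rw [h5]; exact SetLike.coe_mem _
  obtain ⟨φ, hinj, hC, hX⟩ := ff4Aux.exi_hom h ht hres
  let ψ : v →+* LaurentSeries k := (HahnSeries.ofPowerSeries ℤ k).comp φ
  have hψ : Function.Injective ψ :=
    HahnSeries.ofPowerSeries_injective.comp hinj
  let e : Λ →+* LaurentSeries k := IsFractionRing.lift (A := v) (K := Λ) hψ
  have he : ∀ y : v, e (y : Λ) = ψ y := fun y => IsFractionRing.lift_algebraMap hψ y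
  have e0 : ∀ y : Λ, y ≠ 0 → e y ≠ 0 := fun y hy => by
    rw [Ne, map_eq_zero]; exact hy
  have emul : ∀ y z : Λ, y ≠ 0 → z ≠ 0 → (e (y * z)).order = (e y).order + (e z).order := by
    intro y z hy hz
    rw [map_mul, HahnSeries.order_mul (e0 y hy) (e0 z hz)]
  have eone : (e 1).order = 0 := by rw [map_one, HahnSeries.order_one]
  have einv : ∀ y : Λ, y ≠ 0 → (e y⁻¹).order = - (e y).order := by
    intro y hy
    have := emul y y⁻¹ hy (inv_ne_zero hy)
    rw [mul_inv_cancel₀ hy, eone] at this
    omega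
  have enn : ∀ y ∈ v, 0 ≤ (e y).order := by
    intro y hy
    have := he ⟨y, hy⟩
    change e y = _ at this
    rw [this]
    exact ff4Aux.order_nonneg _
  have ht0 : (t : Λ) ≠ 0 := fun h0 => ht.ne_zero (Subtype.ext h0)
  have et : (e (t : Λ)).order = 1 := by
    rw [he]
    change (HahnSeries.ofPowerSeries ℤ k (φ t)).order = 1
    rw [hX, HahnSeries.ofPowerSeries_X, HahnSeries.order_single one_ne_zero]
  have ot : ordAt v (t : Λ) = 1 := by
    rw [ordAt_eq_toNat v t.2 ht0]
    have : (⟨(t : Λ), t.2⟩ : v) = t := rfl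
    rw [this, Ring.ord_eq_addVal, IsDiscreteValuationRing.addVal_uniformizer ht]
    simp
  have epow : ∀ n : ℕ, (e ((t : Λ) ^ n)).order = n ∧ ordAt v ((t : Λ) ^ n) = n := by
    intro n
    induction n with
    | zero => simp [eone, ordAt_one]
    | succ n ih =>
      rw [pow_succ, emul _ _ (pow_ne_zero n ht0) ht0, ordAt_mul v (pow_ne_zero n ht0) ht0,
        ih.1, ih.2, et, ot]
      push_cast
      exact ⟨rfl, rfl⟩
  have main : ∀ y ∈ v, y ≠ 0 → (e y).order = ordAt v y := by
    intro y hy hy0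
    have hy00 : (⟨y, hy⟩ : v) ≠ 0 := fun h0 => hy0 (congrArg Subtype.val h0)
    obtain ⟨n, u, hu⟩ := IsDiscreteValuationRing.eq_unit_mul_pow_irreducible hy00 ht
    have hyu : y = ((u : v) : Λ) * (t : Λ) ^ n := congrArg Subtype.val hu
    have hu0 : ((u : v) : Λ) ≠ 0 := fun h0 => u.ne_zero (Subtype.ext h0)
    have hui : ((u : v) : Λ)⁻¹ ∈ v := by
      have h3 : ((u⁻¹ : vˣ) : v) * u = 1 := by simp
      have h4 : (((u⁻¹ : vˣ) : v) : Λ) * ((u : v) : Λ) = 1 := congrArg Subtype.val h3
      have h5 : ((u : v) : Λ)⁻¹ = (((u⁻¹ : vˣ) : v) : Λ) := by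
        rw [eq_comm]; exact eq_inv_of_mul_eq_one_left h4
      rw [h5]; exact SetLike.coe_mem _
    have hu1 : (e ((u : v) : Λ)).order = 0 := by
      have a1 := enn _ (u : v).2
      have a2 := enn _ hui
      rw [einv _ hu0] at a2
      omega
    have hu2 : ordAt v ((u : v) : Λ) = 0 := ordAt_eq_zero v (u : v).2 hui
    rw [hyu, emul _ _ hu0 (pow_ne_zero n ht0), ordAt_mul v hu0 (pow_ne_zero n ht0), hu1, hu2,
      (epow n).1, (epow n).2]
  have main2 : ∀ y, (e y).order = ordAt v y := by
    intro y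
    by_cases hy0 : y = 0
    · rw [hy0, map_zero, HahnSeries.order_zero, ordAt_eq]
      simp
    by_cases hy : y ∈ v
    · exact main y hy hy0
    · have hy' : y⁻¹ ∈ v := (v.mem_or_inv_mem y).resolve_left hy
      have := main _ hy' (inv_ne_zero hy0)
      rw [einv y hy0, ordAt_inv] at this
      omega
  refine ⟨e, ?_, ?_, main2⟩
  · intro c
    rw [← hh, he]
    change HahnSeries.ofPowerSeries ℤ k (φ (h c)) = _
    rw [hC, HahnSeries.ofPowerSeries_C]
  · intro y
    refine ⟨enn y, fun hy => ?_⟩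
    by_contra hyv
    have hy0 : y ≠ 0 := by
      rintro rfl
      exact hyv v.zero_mem
    have hy' : y⁻¹ ∈ v := (v.mem_or_inv_mem y).resolve_left hyv
    have := ordAt_pos v hy' (inv_ne_zero hy0) (by rwa [inv_inv])
    rw [ordAt_inv, ← main2] at this
    omega

end Pool.Agent.Lib.MP_410da7_agA
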