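import Pool.Agent.Lib.MP_410da7_agA.SpecF0

/-!
# MP_410da7_ag (C46), block F0: the curve of a function field
-/

set_option autoImplicit false

namespace Pool.Agent.Lib.MP_410da7_agA

open Module Pool.Agent.Lib.MP_cc17a8_ag

namespace ff5Aux

variable {k Λ : Type} [Field k] [Field Λ] [Algebra k Λ]

/-- the zeros of `f` -/
def Z (k : Type) {Λ : Type} [Field k] [Field Λ] [Algebra k Λ] (f : Λ) :
    Set (ValuationSubring Λ) :=
  {v : ValuationSubring Λ | (∀ a : k, algebraMap k Λ a ∈ v) ∧ f ∈ v ∧ f⁻¹ ∉ v}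

/-- the places -/
def Pl (k Λ : Type) [Field k] [Field Λ] [Algebra k Λ] : Set (ValuationSubring Λ) :=
  {v : ValuationSubring Λ | (∀ a : k, algebraMap k Λ a ∈ v) ∧ v ≠ ⊤}

theorem ne_zero_of_sepg {x : Λ} (hx : Sepg k x) : x ≠ 0 := by
  rintro rfl
  exact hx.1 isAlgebraic_zero

theorem pl_of_Z {v : ValuationSubring Λ} {f : Λ} (h : v ∈ Z k f) : v ∈ Pl k Λ := by
  refine ⟨h.1, ?_⟩
  rintro rfl
  exact h.2.2 (ValuationSubring.mem_top _)

theorem exists_zero [IsAlgClosed k] (h2 : FF2Stmt) {x : Λ} (hx : Sepg k x)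
    {v : ValuationSubring Λ} (hv : v ∈ Pl k Λ) : ∃ g : Λ, Sepg k g ∧ v ∈ Z k g := by
  have h : ∃ f, f ∉ v := by
    by_contra h
    push Not at h
    exact hv.2 (eq_top_iff.mpr fun y _ => h y)
  obtain ⟨f, hf⟩ := h
  have hg : f⁻¹ ∈ v := (v.mem_or_inv_mem f).resolve_left hf
  have hf0 : f ≠ 0 := by
    rintro rfl
    exact hf v.zero_mem
  have hg0 : f⁻¹ ≠ 0 := inv_ne_zero hf0
  have hgi : (f⁻¹)⁻¹ ∉ v := by rwa [inv_inv]
  obtain ⟨x', hx', hxv⟩ : ∃ x' : Λ, Sepg k x' ∧ x' ∈ v := by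
    rcases v.mem_or_inv_mem x with h | h
    · exact ⟨x, hx, h⟩
    · exact ⟨x⁻¹, (h2 k Λ x hx).1, h⟩
  rcases (h2 k Λ x' hx').2 f⁻¹ hg0 with h | h
  · exact ⟨f⁻¹, h, hv.1, hg, hgi⟩
  · refine ⟨f⁻¹ * x', h, hv.1, v.mul_mem _ _ hg hxv, ?_⟩
    intro h3
    apply hgi
    have h4 : (f⁻¹)⁻¹ = (f⁻¹ * x')⁻¹ * x' := by
      have := ne_zero_of_sepg hx'
      field_simp
    rw [h4]
    exact v.mul_mem _ _ h3 hxv

theorem place [IsAlgClosed k] (h2 : FF2Stmt) (h3 : FF3Stmt) {x : Λ} (hx : Sepg k x)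
    {v : ValuationSubring Λ} (hv : v ∈ Pl k Λ) :
    IsDiscreteValuationRing v ∧ ∀ y ∈ v, ∃ c : k, y = algebraMap k Λ c ∨
        (y - algebraMap k Λ c)⁻¹ ∉ v := by
  obtain ⟨g, hg, hvg⟩ := exists_zero h2 hx hv
  exact (h3 k Λ g hg).2.1 v hvg

theorem zero_or [IsAlgClosed k] (h2 : FF2Stmt) (h3 : FF3Stmt) {x : Λ} (hx : Sepg k x)
    {v : ValuationSubring Λ} (hv : v ∈ Pl k Λ) (y : Λ) :
    ordAt v y = 0 ∨ v ∈ Z k y ∨ v ∈ Z k y⁻¹ := by
  have := (place h2 h3 hx hv).1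
  by_cases h4 : y ∈ v
  · by_cases h5 : y⁻¹ ∈ v
    · exact Or.inl (ordAt_eq_zero v h4 h5)
    · exact Or.inr (Or.inl ⟨hv.1, h4, h5⟩)
  · refine Or.inr (Or.inr ⟨hv.1, (v.mem_or_inv_mem y).resolve_left h4, by rwa [inv_inv]⟩)

theorem finite_sepg [IsAlgClosed k] (h2 : FF2Stmt) (h3 : FF3Stmt) {x : Λ} (hx : Sepg k x) :
    {w : Pl k Λ | ordAt (w : ValuationSubring Λ) x ≠ 0}.Finite := by
  have hz := (h3 k Λ x hx).1
  have hp := (h3 k Λ x⁻¹ (h2 k Λ x hx).1).1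
  have h4 : ((fun w : Pl k Λ => (w : ValuationSubring Λ)) ⁻¹' (Z k x ∪ Z k x⁻¹)).Finite :=
    (hz.union hp).preimage (Subtype.val_injective.injOn)
  refine h4.subset ?_
  intro w hw
  exact (zero_or h2 h3 hx w.2 x).resolve_left hw

theorem finite_all [IsAlgClosed k] (h2 : FF2Stmt) (h3 : FF3Stmt) {x : Λ} (hx : Sepg k x)
    {y : Λ} (hy : y ≠ 0) : {w : Pl k Λ | ordAt (w : ValuationSubring Λ) y ≠ 0}.Finite := by
  rcases (h2 k Λ x hx).2 y hy with h | h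
  · exact finite_sepg h2 h3 h
  · refine ((finite_sepg h2 h3 h).union (finite_sepg h2 h3 hx)).subset ?_
    intro w hw
    have := (place h2 h3 hx w.2).1
    by_contra h4
    rw [Set.mem_union, not_or] at h4
    apply hw
    have h5 : ordAt (w : ValuationSubring Λ) (y * x) = 0 := by
      by_contra h6
      exact h4.1 h6
    have h6 : ordAt (w : ValuationSubring Λ) x = 0 := by
      by_contra h7
      exact h4.2 h7
    rw [ordAt_mul _ hy (ne_zero_of_sepg hx), h6, add_zero] at h5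
    exact h5

theorem adj_inv (x : Λ) : IntermediateField.adjoin k {x} = IntermediateField.adjoin k {x⁻¹} := by
  apply le_antisymm
  · rw [IntermediateField.adjoin_simple_le_iff]
    have := inv_mem (IntermediateField.mem_adjoin_simple_self k x⁻¹)
    rwa [inv_inv] at this
  · rw [IntermediateField.adjoin_simple_le_iff]
    exact inv_mem (IntermediateField.mem_adjoin_simple_self k x)

theorem fin_inv (x : Λ) : finrank (IntermediateField.adjoin k {x}) Λ =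
    finrank (IntermediateField.adjoin k {x⁻¹}) Λ := by
  rw [adj_inv x]

theorem sum_sepg [IsAlgClosed k] (h2 : FF2Stmt) (h3 : FF3Stmt) {x : Λ} (hx : Sepg k x) :
    ∑ᶠ w : Pl k Λ, ordAt (w : ValuationSubring Λ) x = 0 := by
  rw [finsum_set_coe_eq_finsum_mem (Pl k Λ) (f := fun v => ordAt v x)]
  have hz := h3 k Λ x hx
  have hp := h3 k Λ x⁻¹ (h2 k Λ x hx).1
  change (Z k x).Finite ∧ (∀ v ∈ Z k x, _) ∧ ∑ᶠ v ∈ Z k x, ordAt v x = _ at hz
  change (Z k x⁻¹).Finite ∧ (∀ v ∈ Z k x⁻¹, _) ∧ ∑ᶠ v ∈ Z k x⁻¹, ordAt v x⁻¹ = _ at hp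
  have h4 : ∑ᶠ v ∈ Pl k Λ, ordAt v x = ∑ᶠ v ∈ Z k x ∪ Z k x⁻¹, ordAt v x := by
    apply finsum_mem_inter_support_eq'
    intro v hv
    rw [Function.mem_support] at hv
    constructor
    · intro h
      exact (zero_or h2 h3 hx h x).resolve_left hv
    · rintro (h | h)
      · exact pl_of_Z h
      · exact pl_of_Z h
  have h5 : Disjoint (Z k x) (Z k x⁻¹) := by
    rw [Set.disjoint_left]
    rintro v ⟨-, h, h'⟩ ⟨-, h'', -⟩
    exact h' h''
  have h6 : ∑ᶠ v ∈ Z k x⁻¹, ordAt v x = - ∑ᶠ v ∈ Z k x⁻¹, ordAt v x⁻¹ := by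
    rw [← finsum_mem_neg_distrib _ hp.1]
    apply finsum_mem_congr rfl
    intro v hv
    have := (hp.2.1 v hv).1
    rw [ordAt_inv, neg_neg]
  rw [h4, finsum_mem_union h5 hz.1 hp.1, h6, hz.2.2, hp.2.2, fin_inv x]
  exact add_neg_cancel _

theorem sum_all [IsAlgClosed k] (h2 : FF2Stmt) (h3 : FF3Stmt) {x : Λ} (hx : Sepg k x)
    {y : Λ} (hy : y ≠ 0) : ∑ᶠ w : Pl k Λ, ordAt (w : ValuationSubring Λ) y = 0 := by
  rcases (h2 k Λ x hx).2 y hy with h | h
  · exact sum_sepg h2 h3 h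
  · have h4 : ∀ w : Pl k Λ, ordAt (w : ValuationSubring Λ) y =
        ordAt (w : ValuationSubring Λ) (y * x) - ordAt (w : ValuationSubring Λ) x := by
      intro w
      have := (place h2 h3 hx w.2).1
      rw [ordAt_mul _ hy (ne_zero_of_sepg hx)]
      ring
    rw [finsum_congr h4, finsum_sub_distrib (finite_sepg h2 h3 h) (finite_sepg h2 h3 hx),
      sum_sepg h2 h3 h, sum_sepg h2 h3 hx, sub_zero]

theorem sum_poles [IsAlgClosed k] (h2 : FF2Stmt) (h3 : FF3Stmt) {x : Λ} (hx : Sepg k x) :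
    ∑ᶠ w : Pl k Λ, max 0 (-(ordAt (w : ValuationSubring Λ) x)) =
      finrank (IntermediateField.adjoin k {x}) Λ := by
  rw [finsum_set_coe_eq_finsum_mem (Pl k Λ) (f := fun v => max 0 (-(ordAt v x)))]
  have hp := h3 k Λ x⁻¹ (h2 k Λ x hx).1
  change (Z k x⁻¹).Finite ∧ (∀ v ∈ Z k x⁻¹, _) ∧ ∑ᶠ v ∈ Z k x⁻¹, ordAt v x⁻¹ = _ at hp
  have h4 : ∑ᶠ v ∈ Pl k Λ, max 0 (-(ordAt v x)) = ∑ᶠ v ∈ Z k x⁻¹, max 0 (-(ordAt v x)) := by
    apply finsum_mem_inter_support_eq'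
    intro v hv
    rw [Function.mem_support] at hv
    constructor
    · intro h
      have := (place h2 h3 hx h).1
      by_cases h5 : x ∈ v
      · exact absurd (max_eq_left (by have := ordAt_nonneg v h5; omega)) hv
      · exact ⟨h.1, (v.mem_or_inv_mem x).resolve_left h5, by rwa [inv_inv]⟩
    · intro h
      exact pl_of_Z h
  have h5 : ∑ᶠ v ∈ Z k x⁻¹, max 0 (-(ordAt v x)) = ∑ᶠ v ∈ Z k x⁻¹, ordAt v x⁻¹ := by
    apply finsum_mem_congr rfl
    intro v hv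
    have := (hp.2.1 v hv).1
    rw [← ordAt_inv]
    exact max_eq_right (ordAt_nonneg v hv.2.1)
  rw [h4, h5, hp.2.2, fin_inv x]

theorem exists_unif (v : ValuationSubring Λ) [IsDiscreteValuationRing v] :
    ∃ t : Λ, ordAt v t = 1 := by
  obtain ⟨t, ht⟩ := IsDiscreteValuationRing.exists_irreducible v
  refine ⟨(t : Λ), ?_⟩
  have ht0 : (t : Λ) ≠ 0 := by
    intro h
    exact ht.ne_zero (Subtype.ext h)
  rw [ordAt_eq_toNat v t.2 ht0]
  have h1 : Ring.ord v t = 1 := by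
    rw [Ring.ord_eq_addVal]
    exact IsDiscreteValuationRing.addVal_uniformizer ht
  have h2 : (⟨(t : Λ), t.2⟩ : v) = t := rfl
  rw [h2, h1]
  rfl

end ff5Aux

open ff5Aux

theorem ff5 (h1 : FF2Stmt) (h2 : FF3Stmt) (h3 : FF4Stmt) : FF5Stmt := by
  intro k Λ _ _ _ _ x hx
  have key : ∀ w : Pl k Λ, ∃ e : Λ →+* LaurentSeries k,
      (∀ c : k, e (algebraMap k Λ c) = HahnSeries.C c) ∧
      (∀ y, y ∈ (w : ValuationSubring Λ) ↔ 0 ≤ (e y).order) ∧
      ∀ y, (e y).order = ordAt (w : ValuationSubring Λ) y := by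
    intro w
    have hw := place h1 h2 hx w.2
    exact h3 k Λ w hw.1 w.2.1 hw.2
  choose e he1 he2 he3 using key
  let C : Curve k Λ :=
    { pt := Pl k Λ
      exp := e
      exp_alg := he1
      finite := by
        intro y hy
        have h4 := finite_all h1 h2 hx hy
        refine h4.subset ?_
        intro w hw
        change ordAt (w : ValuationSubring Λ) y ≠ 0
        rw [← he3]
        exact hw
      sum := by
        intro y hy
        rw [finsum_congr (fun w => he3 w y)]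
        exact sum_all h1 h2 hx hy }
  have hC : ∀ (w : Pl k Λ) (y : Λ), C.ord w y = ordAt (w : ValuationSubring Λ) y :=
    fun w y => he3 w y
  have hC2 : ∀ (w : Pl k Λ) (y : Λ), y ∈ (w : ValuationSubring Λ) ↔ 0 ≤ C.ord w y :=
    fun w y => he2 w y
  refine ⟨C, ?_, ?_, ?_, ?_⟩
  · intro w w' h
    apply Subtype.ext
    ext y
    exact (hC2 w y).trans ((h y).trans (hC2 w' y).symm)
  · intro w
    have := (place h1 h2 hx w.2).1
    obtain ⟨t, ht⟩ := exists_unif (w : ValuationSubring Λ)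
    exact ⟨t, (hC w t).trans ht⟩
  · intro V hV hT
    exact ⟨⟨V, hV, hT⟩, fun y => hC2 ⟨V, hV, hT⟩ y⟩
  · intro z hz
    have h4 : ∀ w : Pl k Λ, max 0 (-(C.ord w z)) = max 0 (-(ordAt (w : ValuationSubring Λ) z)) :=
      fun w => by rw [hC w z]
    exact (finsum_congr h4).trans (sum_poles h1 h2 hz)

end Pool.Agent.Lib.MP_410da7_agA
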