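import Pool.Agent.Lib.MP_410da7_agA.SpecF0

/-! # MP_410da7_ag, C46, FF6: integral elements and orders -/

set_option autoImplicit false

namespace Pool.Agent.Lib.MP_410da7_agA

open MvPolynomial Module

namespace ff6Aux

variable {k Λ : Type} [Field k] [Field Λ] [Algebra k Λ]

theorem ord_zero (C : Curve k Λ) (w : C.pt) : C.ord w 0 = 0 := by
  unfold Curve.ord
  rw [map_zero, HahnSeries.order_zero]

theorem ord_alg (C : Curve k Λ) (w : C.pt) (c : k) : C.ord w (algebraMap k Λ c) = 0 := by
  unfold Curve.ord
  rw [C.exp_alg, HahnSeries.order_C]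

theorem ord_mul (C : Curve k Λ) (w : C.pt) {a b : Λ} (ha : a ≠ 0) (hb : b ≠ 0) :
    C.ord w (a * b) = C.ord w a + C.ord w b := by
  unfold Curve.ord
  rw [map_mul, HahnSeries.order_mul ((map_ne_zero (C.exp w)).2 ha) ((map_ne_zero (C.exp w)).2 hb)]

theorem ord_neg (C : Curve k Λ) (w : C.pt) (a : Λ) : C.ord w (-a) = C.ord w a := by
  unfold Curve.ord
  rw [map_neg, HahnSeries.order_neg]

theorem ord_inv (C : Curve k Λ) (w : C.pt) {a : Λ} (ha : a ≠ 0) :
    C.ord w a⁻¹ = - C.ord w a := by
  have h1 := ord_mul C w ha (inv_ne_zero ha)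
  rw [mul_inv_cancel₀ ha] at h1
  have h2 : C.ord w 1 = 0 := by
    rw [← map_one (algebraMap k Λ)]
    exact ord_alg C w 1
  omega

theorem ord_add (C : Curve k Λ) (w : C.pt) {a b : Λ} (h : a + b ≠ 0) :
    min (C.ord w a) (C.ord w b) ≤ C.ord w (a + b) := by
  unfold Curve.ord
  rw [map_add]
  refine HahnSeries.min_order_le_order_add ?_
  rw [← map_add]
  exact (map_ne_zero (C.exp w)).2 h

/-- the valuation ring of a point -/
def vr (C : Curve k Λ) (w : C.pt) : ValuationSubring Λ where
  carrier := {y | 0 ≤ C.ord w y}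
  mul_mem' := by
    intro a b ha hb
    by_cases h1 : a = 0
    · simp only [h1, zero_mul, Set.mem_setOf_eq, ord_zero, le_refl]
    · by_cases h2 : b = 0
      · simp only [h2, mul_zero, Set.mem_setOf_eq, ord_zero, le_refl]
      · show 0 ≤ C.ord w (a * b)
        rw [ord_mul C w h1 h2]
        exact add_nonneg ha hb
  one_mem' := by
    show 0 ≤ C.ord w 1
    rw [← map_one (algebraMap k Λ), ord_alg]
  add_mem' := by
    intro a b ha hb
    by_cases h : a + b = 0
    · simp only [h, Set.mem_setOf_eq, ord_zero, le_refl]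
    · exact (le_min ha hb).trans (ord_add C w h)
  zero_mem' := (ord_zero C w).ge
  neg_mem' := by
    intro a ha
    show 0 ≤ C.ord w (-a)
    rw [ord_neg]
    exact ha
  mem_or_inv_mem' := by
    intro a
    by_cases h : a = 0
    · left
      simp only [h, Set.mem_setOf_eq, ord_zero, le_refl]
    · rcases le_total 0 (C.ord w a) with h1 | h1
      · exact Or.inl h1
      · right
        show 0 ≤ C.ord w a⁻¹
        rw [ord_inv C w h]
        omega

theorem mem_vr (C : Curve k Λ) (w : C.pt) (y : Λ) : y ∈ vr C w ↔ 0 ≤ C.ord w y := Iff.rfl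

end ff6Aux

open ff6Aux

theorem ff6 : FF6Stmt := by
  intro k Λ _ _ _ C z y
  constructor
  · intro hy w hw
    have hsub : ∀ a : Algebra.adjoin k {z}, (a : Λ) ∈ (vr C w).toSubring := by
      rintro ⟨a, ha⟩
      show a ∈ vr C w
      refine Algebra.adjoin_induction (p := fun a _ => a ∈ vr C w) ?_ ?_ ?_ ?_ ha
      · intro a ha
        rw [Set.mem_singleton_iff] at ha
        subst ha
        exact hw
      · intro c
        rw [mem_vr, ord_alg]
      · exact fun _ _ _ _ h h' => add_mem h h'
      · exact fun _ _ _ _ h h' => mul_mem h h'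
    let φ : Algebra.adjoin k {z} →+* (vr C w) :=
      ((Algebra.adjoin k {z}).val.toRingHom).codRestrict (vr C w).toSubring hsub
    have h1 : IsIntegral (vr C w) ((RingHom.id Λ) y) := by
      refine IsIntegral.map_of_comp_eq φ (RingHom.id Λ) ?_ hy
      ext a
      rfl
    obtain ⟨y', hy'⟩ := IsIntegrallyClosed.isIntegral_iff.1 h1
    have h2 : y = (y' : Λ) := hy'.symm
    rw [h2]
    exact y'.2
  · intro hC hy
    set s : Set Λ := (Algebra.adjoin k {z} : Set Λ) with hs
    have hmem : y ∈ (integralClosure (Subring.closure s) Λ).toSubring := by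
      rw [← iInf_valuationSubring_superset (s := s), Subring.mem_iInf]
      rintro ⟨V, hV⟩
      show y ∈ V
      by_cases hT : V = ⊤
      · rw [hT]
        exact ValuationSubring.mem_top y
      · have hk : ∀ c : k, algebraMap k Λ c ∈ V := fun c =>
          hV (show algebraMap k Λ c ∈ s from (Algebra.adjoin k {z}).algebraMap_mem c)
        obtain ⟨w, hw⟩ := hC.all V hk hT
        rw [hw]
        refine hy w ((hw z).1 (hV ?_))
        exact Algebra.subset_adjoin (Set.mem_singleton z)
    have hint : IsIntegral (Subring.closure s) y := hmem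
    have hle : ∀ a : Subring.closure s, (a : Λ) ∈ Algebra.adjoin k {z} := by
      intro a
      have h1 : Subring.closure s ≤ (Algebra.adjoin k {z}).toSubring :=
        Subring.closure_le.2 (fun _ h => h)
      exact h1 a.2
    let φ : Subring.closure s →+* Algebra.adjoin k {z} :=
      (Subring.closure s).subtype.codRestrict (Algebra.adjoin k {z}) hle
    have h1 : IsIntegral (Algebra.adjoin k {z}) ((RingHom.id Λ) y) := by
      refine IsIntegral.map_of_comp_eq φ (RingHom.id Λ) ?_ hint
      ext a
      rfl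
    exact h1

end Pool.Agent.Lib.MP_410da7_agA
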