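import Pool.Agent.Lib.MP_410da7_agA.SpecF0

/-! # MP_410da7_ag, C46, FF7: infinitely many points, transcendental elements have poles -/

set_option autoImplicit false

namespace Pool.Agent.Lib.MP_410da7_agA

open MvPolynomial Module

namespace ff7Aux

variable {k Λ : Type} [Field k] [Field Λ] [Algebra k Λ]

theorem ord_alg (C : Curve k Λ) (w : C.pt) (c : k) : C.ord w (algebraMap k Λ c) = 0 := by
  unfold Curve.ord
  rw [C.exp_alg, HahnSeries.order_C]

theorem ord_mul (C : Curve k Λ) (w : C.pt) {a b : Λ} (ha : a ≠ 0) (hb : b ≠ 0) :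
    C.ord w (a * b) = C.ord w a + C.ord w b := by
  unfold Curve.ord
  rw [map_mul, HahnSeries.order_mul ((map_ne_zero (C.exp w)).2 ha) ((map_ne_zero (C.exp w)).2 hb)]

theorem ord_inv (C : Curve k Λ) (w : C.pt) {a : Λ} (ha : a ≠ 0) :
    C.ord w a⁻¹ = - C.ord w a := by
  have h1 := ord_mul C w ha (inv_ne_zero ha)
  rw [mul_inv_cancel₀ ha] at h1
  have h2 : C.ord w 1 = 0 := by
    rw [← map_one (algebraMap k Λ)]
    exact ord_alg C w 1
  omega

theorem ord_neg (C : Curve k Λ) (w : C.pt) (a : Λ) : C.ord w (-a) = C.ord w a := by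
  unfold Curve.ord
  rw [map_neg, HahnSeries.order_neg]

theorem ord_add (C : Curve k Λ) (w : C.pt) {a b : Λ} (h : a + b ≠ 0) :
    min (C.ord w a) (C.ord w b) ≤ C.ord w (a + b) := by
  unfold Curve.ord
  rw [map_add]
  refine HahnSeries.min_order_le_order_add ?_
  rw [← map_add]
  exact (map_ne_zero (C.exp w)).2 h

theorem pole (h1 : F1Stmt) (C : Curve k Λ) (w₀ : C.pt) {z : Λ} (hz : Transcendental k z) :
    ∃ w, C.ord w z < 0 := by
  by_contra hno
  push_neg at hno
  obtain ⟨c, hc⟩ := h1 k Λ C w₀ z (by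
    intro w i hi
    refine HahnSeries.coeff_eq_zero_of_lt_order ?_
    have h2 : i < 0 := by simpa using hi
    exact lt_of_lt_of_le h2 (hno w))
  exact hz (hc ▸ isAlgebraic_algebraMap c)

end ff7Aux

open ff7Aux

theorem ff7 (h1 : F1Stmt) : FF7Stmt := by
  intro k Λ _ _ _ _ C hC x hx
  obtain ⟨htr, hfd, hsep⟩ := id hx
  -- a point
  have hw₀ : ∃ w₀ : C.pt, True := by
    by_contra hno
    have h2 := hC.deg x hx
    have h3 : IsEmpty C.pt := ⟨fun w => hno ⟨w, trivial⟩⟩
    rw [finsum_of_isEmpty] at h2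
    have h4 : 0 < finrank (IntermediateField.adjoin k {x}) Λ := finrank_pos
    omega
  obtain ⟨w₀, -⟩ := hw₀
  refine ⟨?_, fun z hz => pole h1 C w₀ hz⟩
  have hne : ∀ a : k, x - algebraMap k Λ a ≠ 0 := by
    intro a h
    exact htr ((sub_eq_zero.1 h) ▸ isAlgebraic_algebraMap a)
  have hta : ∀ a : k, Transcendental k (x - algebraMap k Λ a)⁻¹ := by
    intro a h
    have h2 : IsAlgebraic k (x - algebraMap k Λ a) := by
      have := h.inv
      rwa [inv_inv] at this
    have h3 : IsAlgebraic k (x - algebraMap k Λ a + algebraMap k Λ a) :=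
      h2.add (isAlgebraic_algebraMap a)
    rw [sub_add_cancel] at h3
    exact htr h3
  choose w hw using fun a => pole h1 C w₀ (hta a)
  have hw' : ∀ a, 0 < C.ord (w a) (x - algebraMap k Λ a) := by
    intro a
    have := hw a
    rw [ord_inv C _ (hne a)] at this
    omega
  have hinj : Function.Injective w := by
    intro a b hab
    by_contra hne'
    have h2 := hw' a
    have h3 := hw' b
    rw [← hab] at h3
    have h4 : (x - algebraMap k Λ a) + (-(x - algebraMap k Λ b)) = algebraMap k Λ (b - a) := by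
      rw [map_sub]
      ring
    have h5 : algebraMap k Λ (b - a) ≠ 0 := by
      rw [map_ne_zero]
      exact sub_ne_zero.2 (fun h => hne' h.symm)
    have h6 := ord_add C (w a) (h4 ▸ h5)
    rw [h4, ord_alg, ord_neg] at h6
    have h7 := lt_min h2 h3
    omega
  have hk : Infinite k := IsAlgClosed.instInfinite
  exact Infinite.of_injective w hinj

end Pool.Agent.Lib.MP_410da7_agA
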