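import Pool.Agent.Lib.MP_410da7_agA.SpecF0

/-!
# MP_410da7_ag (C46), block F0, FF8: the dimension of `L(D')` for larger divisors
-/

set_option autoImplicit false

namespace Pool.Agent.Lib.MP_410da7_agA

open MvPolynomial Module

namespace ff8Aux

variable {k Λ : Type} [Field k] [Field Λ] [Algebra k Λ]

theorem mono (C : Curve k Λ) {D D' : C.pt → ℤ} (h : ∀ w, D w ≤ D' w) : C.L D ≤ C.L D' := by
  intro y hy w i hi
  exact hy w i (by have := h w; omega)

end ff8Aux

theorem ff8 : FF8Stmt := by
  classical
  intro k Λ _ _ _ C D D' hDD hfin hfd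
  let T : Finset C.pt := hfin.toFinset
  have hT : ∀ w, w ∈ T ↔ D w ≠ D' w := fun w => hfin.mem_toFinset
  let ι := Σ w : T, Fin (D' w - D w).toNat
  let Φ : Λ →ₗ[k] (ι → k) := LinearMap.pi (fun p => C.cf p.1 (-D' p.1 + (p.2 : ℕ)))
  let f : C.L D' →ₗ[k] (ι → k) := Φ.comp (C.L D').subtype
  have hLD : FiniteDimensional k (C.L D) := Submodule.finiteDimensional_of_le (ff8Aux.mono C hDD)
  have hker : ∀ x : LinearMap.ker f, (x.1 : Λ) ∈ C.L D := by
    intro x w i hi
    by_cases h1 : i < -D' w
    · exact x.1.2 w i h1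
    · by_cases hw : w ∈ T
      · have h2 : f x.1 = 0 := x.2
        have hj : (i + D' w).toNat < (D' w - D w).toNat := by
          have := hDD w
          omega
        have h3 := congrFun h2 ⟨⟨w, hw⟩, ⟨(i + D' w).toNat, hj⟩⟩
        have h4 : (C.exp w (x.1 : Λ)).coeff (-D' w + ((i + D' w).toNat : ℤ)) = 0 := h3
        have h5 : -D' w + ((i + D' w).toNat : ℤ) = i := by
          have := hDD w
          omega
        rwa [h5] at h4
      · rw [hT, not_not] at hw
        exact absurd (by rw [← hw]; exact hi) h1
  have h1 := LinearMap.finrank_range_add_finrank_ker f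
  have h2 : finrank k (LinearMap.ker f) ≤ finrank k (C.L D) := by
    let g : LinearMap.ker f →ₗ[k] C.L D :=
      LinearMap.codRestrict (C.L D) ((C.L D').subtype.comp (LinearMap.ker f).subtype) hker
    apply LinearMap.finrank_le_finrank_of_injective (f := g)
    intro x y hxy
    have h3 : (x.1 : Λ) = y.1 := congrArg (fun z : C.L D => (z : Λ)) hxy
    exact Subtype.ext (Subtype.ext h3)
  have h3 : finrank k (LinearMap.range f) ≤ Fintype.card ι := by
    refine (Submodule.finrank_le _).trans ?_
    rw [Module.finrank_fintype_fun_eq_card]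
  have h4 : (Fintype.card ι : ℤ) = ∑ᶠ w, (D' w - D w) := by
    rw [finsum_eq_sum_of_support_subset (s := T)]
    · rw [Fintype.card_sigma]
      push_cast
      rw [← Finset.sum_coe_sort T (fun w => D' w - D w)]
      refine Finset.sum_congr rfl fun w _ => ?_
      rw [Fintype.card_fin]
      have := hDD w
      omega
    · intro w hw
      rw [Function.mem_support] at hw
      exact (hT w).2 (fun h => hw (by rw [h, sub_self]))
  rw [← h4]
  omega

end Pool.Agent.Lib.MP_410da7_agA
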