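import Pool.Agent.Lib.MP_410da7_agA.SpecF

/-!
# MP_410da7_ag, smooth affine varieties (C46): FG15, the Frobenius twist of the data
-/

set_option autoImplicit false

namespace Pool.Agent.Lib.MP_410da7_agA

open MvPolynomial Module

namespace fG15Aux

/-- A polynomial fixed by `Q` is fixed by the ring homomorphism `x ↦ x^(Q^m)`. -/
theorem fixedBy_iff {k V : Type} [Field k] (p : ℕ) [Fact p.Prime] [CharP k p] (n : ℕ)
    (G : MvPolynomial V k) :
    FixedBy (p ^ n) G ↔ MvPolynomial.map (iterateFrobenius k p n) G = G := by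
  constructor
  · intro h
    ext m
    rw [coeff_map, iterateFrobenius_def]
    exact h m
  · intro h m
    have h1 := congrArg (coeff m) h
    rw [coeff_map, iterateFrobenius_def] at h1
    exact h1

theorem fixedBy_pow {k V : Type} [Field k] (Q m : ℕ) {G : MvPolynomial V k}
    (h : FixedBy Q G) : FixedBy (Q ^ m) G := by
  intro a
  induction m with
  | zero => simp
  | succ m ih => rw [pow_succ, pow_mul, ih, h a]

/-- `G(y^q) = G(y)^q`. -/
theorem aeval_pow {k Λ V : Type} [Field k] [Field Λ] [Algebra k Λ] (p : ℕ) [Fact p.Prime]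
    [CharP k p] (n : ℕ) {G : MvPolynomial V k} (h : FixedBy (p ^ n) G) (y : V → Λ) :
    aeval (fun l => y l ^ p ^ n) G = (aeval y G) ^ p ^ n := by
  haveI : CharP Λ p := charP_of_injective_algebraMap (algebraMap k Λ).injective p
  have h1 : (aeval y G) ^ p ^ n = iterateFrobenius Λ p n (aeval y G) := by
    rw [iterateFrobenius_def]
  rw [h1, aeval_def, aeval_def, eval₂_comp_left]
  have h2 : (iterateFrobenius Λ p n).comp (algebraMap k Λ)
      = (algebraMap k Λ).comp (iterateFrobenius k p n) := by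
    ext c
    rw [RingHom.comp_apply, RingHom.comp_apply, iterateFrobenius_def, iterateFrobenius_def,
      map_pow]
  rw [h2, ← eval₂_map, (fixedBy_iff p n G).1 h]
  rfl

theorem fixedBy_pderiv {k V : Type} [Field k] (p : ℕ) [Fact p.Prime] [CharP k p] (n : ℕ)
    {G : MvPolynomial V k} (h : FixedBy (p ^ n) G) (i : V) : FixedBy (p ^ n) (pderiv i G) := by
  rw [fixedBy_iff] at h ⊢
  rw [← pderiv_map, h]

theorem minor_pow {k Λ : Type} [Field k] [Field Λ] [Algebra k Λ] (p : ℕ) [Fact p.Prime]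
    [CharP k p] (n : ℕ) {N κ r : ℕ} {F : Fin κ → MvPolynomial (Fin N) k}
    (hF : ∀ j, FixedBy (p ^ n) (F j)) (I : Fin r → Fin N) (y : Fin N → Λ) (J : Fin r → Fin κ) :
    minor F I (fun l => y l ^ p ^ n) J = (minor F I y J) ^ p ^ n := by
  haveI : CharP Λ p := charP_of_injective_algebraMap (algebraMap k Λ).injective p
  have h1 : (minor F I y J) ^ p ^ n = iterateFrobenius Λ p n (minor F I y J) := by
    rw [iterateFrobenius_def]
  rw [h1]
  unfold minor
  rw [RingHom.map_det]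
  congr 1
  ext i l
  rw [RingHom.mapMatrix_apply, Matrix.map_apply, Matrix.of_apply, Matrix.of_apply,
    iterateFrobenius_def]
  exact aeval_pow p n (fixedBy_pderiv p n (hF (J i)) (I l)) y

theorem ord_pow {k Λ : Type} [Field k] [Field Λ] [Algebra k Λ] (C : Curve k Λ) (w : C.pt)
    (x : Λ) (q : ℕ) : C.ord w (x ^ q) = q * C.ord w x := by
  unfold Curve.ord
  rw [map_pow, HahnSeries.order_pow, nsmul_eq_mul]

/-- If the expansion of `x` starts in degree `a`, then that of `x^q` starts in degree `q a`. -/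
theorem coeff_pow {k : Type} [Field k] (x : LaurentSeries k) (a : ℤ) (q : ℕ) (hq : q ≠ 0)
    (h : ∀ i < a, x.coeff i = 0) : ∀ i < q * a, (x ^ q).coeff i = 0 := by
  intro i hi
  by_cases hx : x = 0
  · rw [hx, zero_pow hq, HahnSeries.coeff_zero]
  · apply HahnSeries.coeff_eq_zero_of_lt_order
    rw [HahnSeries.order_pow, nsmul_eq_mul]
    have h1 : a ≤ x.order := by
      by_contra hc
      exact hx (HahnSeries.coeff_order_eq_zero.1 (h _ (not_le.1 hc)))
    have h2 : (q : ℤ) * a ≤ q * x.order :=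
      mul_le_mul_of_nonneg_left h1 (Int.natCast_nonneg q)
    omega

end fG15Aux

open fG15Aux in
theorem fG15 : FG15Stmt := by
  intro k Λ _ _ _ p e₀ _ _ C M κ r d S y P ℓ μ b₀ m he hF hg hD hT
  have hp : (p ^ e₀) ^ m = p ^ (e₀ * m) := by rw [pow_mul]
  have hfix : ∀ G : MvPolynomial (Fin (M + 1)) k, FixedBy (p ^ e₀) G →
      FixedBy (p ^ (e₀ * m)) G := fun G h => by
    rw [← hp]; exact fixedBy_pow _ m h
  have hcast : ((p : ℤ) ^ e₀) ^ m = ((p ^ (e₀ * m) : ℕ) : ℤ) := by
    rw [← hp]; push_cast; rfl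
  have hq0 : p ^ (e₀ * m) ≠ 0 := pow_ne_zero _ (Fact.out : p.Prime).ne_zero
  have hgen : ∀ G : MvPolynomial (Fin (M + 1)) k, FixedBy (p ^ e₀) G →
      aeval (fun l => y l ^ p ^ (e₀ * m)) G = (aeval y G) ^ p ^ (e₀ * m) := fun G h =>
    aeval_pow (Λ := Λ) p (e₀ * m) (hfix G h) y
  have hmin : ∀ J : Fin r → Fin κ, minor S.F S.I₀ (fun l => y l ^ p ^ (e₀ * m)) J
      = (minor S.F S.I₀ y J) ^ p ^ (e₀ * m) := fun J =>
    minor_pow (Λ := Λ) p (e₀ * m) (fun j => hfix _ (hF j)) S.I₀ y J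
  rw [hcast, hp]
  clear hp hfix hcast
  generalize p ^ (e₀ * m) = q at hq0 hgen hmin ⊢
  have hqpos : (0 : ℤ) < q := by exact_mod_cast Nat.pos_of_ne_zero hq0
  have hsm : ∀ (D : C.pt → ℤ) (w : C.pt), ((q : ℤ) • D) w = q * D w := fun D w => by
    rw [Pi.smul_apply, smul_eq_mul]
  have hpos : ∀ (D : C.pt → ℤ) (w : C.pt), 0 < ((q : ℤ) • D) w → 0 < D w := fun D w h => by
    rw [hsm] at h
    exact (mul_pos_iff_of_pos_left hqpos).1 h
  have hfin : ∀ (D : C.pt → ℤ), {w | D w ≠ 0}.Finite → {w | ((q : ℤ) • D) w ≠ 0}.Finite := by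
    intro D h
    refine h.subset fun w hw => ?_
    rw [Set.mem_setOf_eq, hsm] at hw
    exact right_ne_zero_of_mul hw
  refine
    { Y0 := by
        show y 0 ^ q = 1
        rw [hD.Y0, one_pow]
      YF := fun j => by rw [hgen _ (hF j), hD.YF j, zero_pow hq0]
      gY := by rw [hgen _ hg]; exact pow_ne_zero _ hD.gY
      mY := by rw [hmin]; exact pow_ne_zero _ hD.mY
      P0 := fun w => by rw [hsm]; exact mul_nonneg hqpos.le (hD.P0 w)
      Pfin := hfin P hD.Pfin
      YP := ?_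
      Yb := ?_
      ℓfin := hfin ℓ hD.ℓfin
      hℓ := ?_
      μ0 := fun w => by rw [hsm]; exact mul_nonneg hqpos.le (hD.μ0 w)
      μP := ?_
      log := ?_ }
  · intro l w i hi
    rw [hsm] at hi
    rw [map_pow]
    refine coeff_pow _ (- P w) q hq0 (fun j hj => hD.YP l w j hj) i ?_
    linarith
  · intro w hw
    obtain ⟨h1, h2⟩ := hD.Yb w (hpos P w hw)
    refine ⟨pow_ne_zero _ h1, ?_⟩
    rw [ord_pow, h2, hsm]
    ring
  · intro w
    obtain ⟨J, h1, h2⟩ := hD.hℓ w
    refine ⟨J, ?_, ?_⟩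
    · rw [hmin]; exact pow_ne_zero _ h1
    · rw [hmin, ord_pow, hsm, hsm]
      have h3 := mul_le_mul_of_nonneg_left h2 hqpos.le
      linarith
  · intro w hw
    rw [hsm] at hw ⊢
    rw [hD.μP w ((mul_eq_zero.1 hw).resolve_left hqpos.ne'), mul_zero]
  · intro w hw
    obtain ⟨T, ha, hχ, h1, h2, h3, h4⟩ := hT w (hpos P w hw)
    refine ⟨T, ?_, ?_, ?_, ?_⟩
    · rw [hgen _ hχ]; exact pow_ne_zero _ h1
    · rw [hgen _ hχ, ord_pow, h2, hsm]
      ring
    · intro i hi
      rw [hgen _ ha]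
      show (C.exp w (aeval y T.a ^ q)).coeff i = 0
      rw [map_pow]
      refine coeff_pow _ (μ w - T.e * P w) q hq0 (fun j hj => h3 j hj) i ?_
      rw [hsm, hsm] at hi
      linarith
    · rw [hsm, hsm]
      have h5 := mul_le_mul_of_nonneg_left h4 hqpos.le
      linarith

end Pool.Agent.Lib.MP_410da7_agA
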