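import Pool.Agent.Lib.MP_410da7_agA.SpecF

/-!
# C46, G1: nonvanishing of a Taylor coefficient over an extension field
-/

set_option autoImplicit false

namespace Pool.Agent.Lib.MP_410da7_agA

open MvPolynomial Module

namespace g1Aux

lemma ptDiv_nonneg {α : Type} {b : ℕ} (c : Fin b → α) (w : α) : 0 ≤ ptDiv c w := by
  unfold ptDiv
  refine Finset.sum_nonneg (fun i _ => ?_)
  split_ifs <;> norm_num

lemma one_le_ptDiv {α : Type} {b : ℕ} (c : Fin b → α) (i : Fin b) : 1 ≤ ptDiv c (c i) := by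
  classical
  unfold ptDiv
  have h : (if c i = c i then (1 : ℤ) else 0) ≤ ∑ j, if c j = c i then (1 : ℤ) else 0 :=
    Finset.single_le_sum (f := fun j => if c j = c i then (1 : ℤ) else 0)
      (fun j _ => by split_ifs <;> norm_num) (Finset.mem_univ i)
  rw [if_pos rfl] at h
  convert h

end g1Aux

theorem g1 (hf3 : F3Stmt) : G1Stmt := by
  intro k Λ k' _ _ _ _ _ C D b B P hP hPfin c hc hPc hsum ω hω hωL ρ hρ
  by_contra hcon
  push Not at hcon
  obtain ⟨j0, hj0⟩ : ∃ j, ρ j ≠ 0 := by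
    by_contra h
    push Not at h
    exact hρ (funext h)
  obtain ⟨φ, hφ⟩ : ∃ φ : k' →ₗ[k] k, φ (ρ j0) ≠ 0 := by
    by_contra h
    push Not at h
    exact hj0 ((Module.forall_dual_apply_eq_zero_iff k (ρ j0)).mp h)
  set y : Λ := ∑ j, φ (ρ j) • ω j with hy
  have hy0 : y ≠ 0 := by
    intro h0
    have := Fintype.linearIndependent_iff.mp hω (fun j => φ (ρ j)) h0 j0
    exact hφ this
  have hyL : y ∈ C.L (P - ptDiv c) :=
    Submodule.sum_mem _ (fun j _ => Submodule.smul_mem _ _ (hωL j))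
  have hyP : y ∈ C.L P := by
    intro w i hi
    apply hyL w i
    have := g1Aux.ptDiv_nonneg c w
    simp only [Pi.sub_apply]
    omega
  have hcoef : ∀ i (m : ℕ), 1 ≤ m → m ≤ B → C.cf (c i) m y = 0 := by
    intro i m h1 h2
    have h3 := hcon i m h1 h2
    rw [hy, map_sum]
    have h4 : ∀ j, C.cf (c i) m (φ (ρ j) • ω j)
        = φ (ρ j * algebraMap k k' (C.cf (c i) m (ω j))) := by
      intro j
      rw [map_smul, mul_comm, ← Algebra.smul_def, map_smul, smul_eq_mul, smul_eq_mul, mul_comm]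
    rw [Finset.sum_congr rfl (fun j _ => h4 j), ← map_sum, h3, map_zero]
  have hord : ∀ i, ((B + 1 : ℕ) : ℤ) ≤ C.ord (c i) y := by
    intro i
    by_contra hlt
    push Not at hlt
    have hne : C.exp (c i) y ≠ 0 := by
      rw [Ne, map_eq_zero]
      exact hy0
    have hcn : (C.exp (c i) y).coeff (C.exp (c i) y).order ≠ 0 :=
      HahnSeries.coeff_order_eq_zero.not.mpr hne
    apply hcn
    change (C.exp (c i) y).order < ((B + 1 : ℕ) : ℤ) at hlt
    rcases le_or_gt (C.exp (c i) y).order 0 with h1 | h1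
    · apply hyL (c i)
      have := g1Aux.one_le_ptDiv c i
      simp only [Pi.sub_apply, hPc i]
      omega
    · obtain ⟨m, hm⟩ := Int.eq_ofNat_of_zero_le h1.le
      have h2 := hcoef i m (by omega) (by omega)
      rw [hm]
      exact h2
  have h5 := hf3 k Λ C P hP hPfin b (B + 1) c hc hPc y hyP hy0 hord
  push_cast at h5
  have h6 : ((b : ℤ) * (B + 1)) = (B + 1) * b := mul_comm _ _
  rw [h6] at h5
  exact absurd (h5.trans_lt hsum) (lt_irrefl _)

end Pool.Agent.Lib.MP_410da7_agA
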