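import Pool.Agent.Lib.MP_410da7_agA.SpecF

/-!
# C46, G2: scaling of power series
-/

set_option autoImplicit false

namespace Pool.Agent.Lib.MP_410da7_agA

theorem g2 : G2Stmt := by
  intro Ω _ _ 𝒱 N B H θ hθ h0 hle hex
  set val := 𝒱.valuation with hval
  obtain ⟨ls, ms, hms1, hmsB, hms⟩ := hex
  -- the common exponent
  set M := B.factorial with hM
  have hdvd : ∀ m, 1 ≤ m → m ≤ B → m * (M / m) = M := fun m h1 h2 =>
    Nat.mul_div_cancel' (Nat.dvd_factorial h1 h2)
  have hMpos : 0 < M := Nat.factorial_pos _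
  have hMm : ∀ m, 1 ≤ m → m ≤ B → M / m ≠ 0 := by
    intro m h1 h2 h3
    have := hdvd m h1 h2
    rw [h3, mul_zero] at this
    omega
  -- the maximum
  let S : Finset (Fin N × ℕ) := Finset.univ ×ˢ Finset.Icc 1 B
  let W : Fin N × ℕ → 𝒱.ValueGroup := fun x => val (PowerSeries.coeff x.2 (H x.1)) ^ (M / x.2)
  have hS : (ls, ms) ∈ S := by
    simp only [S, Finset.mem_product, Finset.mem_univ, Finset.mem_Icc, true_and]
    exact ⟨hms1, hmsB⟩
  obtain ⟨⟨l1, m1⟩, hx, hmax⟩ := S.exists_max_image W ⟨_, hS⟩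
  simp only [S, Finset.mem_product, Finset.mem_univ, Finset.mem_Icc, true_and] at hx
  obtain ⟨hm11, hm1B⟩ := hx
  have hW : ∀ l m, 1 ≤ m → m ≤ B → val (PowerSeries.coeff m (H l)) ^ (M / m)
      ≤ val (PowerSeries.coeff m1 (H l1)) ^ (M / m1) := by
    intro l m h1 h2
    refine hmax (l, m) ?_
    simp only [S, Finset.mem_product, Finset.mem_univ, Finset.mem_Icc, true_and]
    exact ⟨h1, h2⟩
  have hne : PowerSeries.coeff m1 (H l1) ≠ 0 := by
    intro hz
    have h1 := hW ls ms hms1 hmsB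
    rw [hz, map_zero, zero_pow (hMm m1 hm11 hm1B), hms] at h1
    have h2 : val θ ^ (M / ms) = 0 := le_antisymm h1 zero_le
    have h3 := eq_zero_of_pow_eq_zero h2
    rw [h3] at hθ
    exact absurd hθ (not_lt.mpr zero_le_one)
  obtain ⟨τ, hτ⟩ := IsAlgClosed.exists_pow_nat_eq (PowerSeries.coeff m1 (H l1))⁻¹
    (Nat.lt_of_lt_of_le Nat.zero_lt_one hm11)
  have hτ0 : τ ≠ 0 := by
    intro hz
    rw [hz, zero_pow (by omega)] at hτ
    exact inv_ne_zero hne hτ.symm
  have hτ1 : val (PowerSeries.coeff m1 (H l1)) * val τ ^ m1 = 1 := by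
    rw [← map_pow, hτ, ← map_mul, mul_inv_cancel₀ hne, map_one]
  -- coefficients up to B
  have hB : ∀ l m, 1 ≤ m → m ≤ B → val (PowerSeries.coeff m (H l)) * val τ ^ m ≤ 1 := by
    intro l m h1 h2
    have h3 : (val (PowerSeries.coeff m (H l)) * val τ ^ m) ^ (M / m) ≤ 1 := by
      rw [mul_pow, ← pow_mul, hdvd m h1 h2]
      calc val (PowerSeries.coeff m (H l)) ^ (M / m) * val τ ^ M
          ≤ val (PowerSeries.coeff m1 (H l1)) ^ (M / m1) * val τ ^ M :=
            mul_le_mul_left (hW l m h1 h2) _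
        _ = (val (PowerSeries.coeff m1 (H l1)) * val τ ^ m1) ^ (M / m1) := by
            rw [mul_pow, ← pow_mul, hdvd m1 hm11 hm1B]
        _ = 1 := by rw [hτ1, one_pow]
    exact (pow_le_one_iff (hMm m h1 h2)).mp h3
  have hτlt : val τ < 1 := by
    have h1 := hB ls ms hms1 hmsB
    rw [hms] at h1
    by_contra hcon
    push Not at hcon
    have h2 : 1 ≤ val τ ^ ms := one_le_pow_of_one_le' hcon ms
    have h3 : val θ ≤ val θ * val τ ^ ms := le_mul_of_one_le_right' h2
    exact absurd (hθ.trans_le (h3.trans h1)) (lt_irrefl _)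
  have hbig : ∀ l m, B < m → val (PowerSeries.coeff m (H l)) * val τ ^ m < 1 := by
    intro l m hm
    have h1 := hB ls ms hms1 hmsB
    rw [hms] at h1
    have h2 : val τ ^ m = val τ ^ ms * val τ ^ (m - ms) := by
      rw [← pow_add]
      congr 1
      omega
    calc val (PowerSeries.coeff m (H l)) * val τ ^ m ≤ val θ * val τ ^ m :=
          mul_le_mul_left (hle l m (by omega)) _
      _ = (val θ * val τ ^ ms) * val τ ^ (m - ms) := by rw [h2, mul_assoc]
      _ ≤ 1 * val τ ^ (m - ms) := mul_le_mul_left h1 _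
      _ = val τ ^ (m - ms) := one_mul _
      _ < 1 := pow_lt_one' hτlt (by omega)
  refine ⟨τ, hτ0, hτlt, ?_, ?_, l1, m1, hm11, hm1B, ?_⟩
  · intro l m
    rw [map_mul, map_pow]
    rcases Nat.eq_zero_or_pos m with rfl | hm
    · rw [pow_zero, mul_one]
      exact (𝒱.valuation_le_one_iff _).mpr (h0 l)
    · rcases le_or_gt m B with h | h
      · exact hB l m hm h
      · exact (hbig l m h).le
  · intro l m hm
    rw [map_mul, map_pow]
    exact hbig l m hm
  · rw [map_mul, map_pow]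
    exact hτ1

end Pool.Agent.Lib.MP_410da7_agA
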