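import Pool.Agent.Lib.MP_410da7_agA.SpecF
import Pool.Agent.Lib.MP_410da7_agA.EvW

/-!
# MP_410da7_ag, smooth affine varieties: G4

Degeneration to a nonconstant polynomial curve.
-/

set_option autoImplicit false

namespace Pool.Agent.Lib.MP_410da7_agA

open MvPolynomial Module

namespace g4Aux

open EvW

variable {k Λ : Type} [Field k] [Field Λ] [Algebra k Λ] {Ω : Type} [Field Ω] [Algebra k Ω]

/-- The power series of the coordinate `l`. -/
noncomputable def Hs (C : Curve k Λ) (w : C.pt) {N D : ℕ} (s : Fin N × Fin D → Ω) (Y : Fin N → Λ)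
    (ω : Fin D → Λ) (l : Fin N) : PowerSeries Ω :=
  PowerSeries.mk fun m => (ev C w s (hpt Y ω l)).coeff (m : ℤ)

lemma Hs_coeff (C : Curve k Λ) (w : C.pt) {N D : ℕ} (s : Fin N × Fin D → Ω) (Y : Fin N → Λ)
    (ω : Fin D → Λ) (l : Fin N) (m : ℕ) :
    PowerSeries.coeff m (Hs C w s Y ω l) =
      algebraMap k Ω (C.cf w m (Y l)) + ∑ j, s (l, j) * algebraMap k Ω (C.cf w m (ω j)) := by
  rw [Hs, PowerSeries.coeff_mk, ev_hpt_coeff]

lemma ofPowerSeries_Hs (C : Curve k Λ) (w : C.pt) {N D : ℕ} (s : Fin N × Fin D → Ω)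
    (Y : Fin N → Λ) (ω : Fin D → Λ) (l : Fin N)
    (hY : ∀ i < 0, C.cf w i (Y l) = 0) (hω : ∀ j, ∀ i < 0, C.cf w i (ω j) = 0) :
    HahnSeries.ofPowerSeries ℤ Ω (Hs C w s Y ω l) = ev C w s (hpt Y ω l) := by
  ext i
  rcases lt_or_ge i 0 with hi | hi
  · rw [ev_hpt_coeff, hY i hi, map_zero, zero_add]
    rw [Finset.sum_eq_zero fun j _ => by rw [hω j i hi, map_zero, mul_zero]]
    rw [HahnSeries.ofPowerSeries_apply]
    apply HahnSeries.embDomain_of_notMem_range
    rintro ⟨n, hn⟩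
    have : ((n : ℕ) : ℤ) = i := by simpa using hn
    omega
  · obtain ⟨n, rfl⟩ := Int.eq_ofNat_of_zero_le hi
    refine (HahnSeries.ofPowerSeries_apply_coeff (Γ := ℤ) (Hs C w s Y ω l) n).trans ?_
    rw [Hs, PowerSeries.coeff_mk]

/-- The equations. -/
lemma eval_Hs (C : Curve k Λ) (w : C.pt) {N D : ℕ} (s : Fin N × Fin D → Ω)
    (Y : Fin N → Λ) (ω : Fin D → Λ)
    (hY : ∀ l, ∀ i < 0, C.cf w i (Y l) = 0) (hω : ∀ j, ∀ i < 0, C.cf w i (ω j) = 0)
    (F : MvPolynomial (Fin N) k) (hF : ev C w s (hval Y ω F) = 0) :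
    eval₂ ((PowerSeries.C : Ω →+* PowerSeries Ω).comp (algebraMap k Ω)) (Hs C w s Y ω) F = 0 := by
  apply HahnSeries.ofPowerSeries_injective (Γ := ℤ)
  rw [map_zero, MvPolynomial.eval₂_comp_left, ← hF, ev_hval]
  congr 1
  · ext x : 1
    simp only [RingHom.comp_apply, HahnSeries.ofPowerSeries_C]
  · ext l : 1
    exact ofPowerSeries_Hs C w s Y ω l (hY l) hω

/-- Reduction: from power series over `Ω` with the equations to polynomials over the residue
field. -/
lemma reduce {Ω : Type} [Field Ω] [Algebra k Ω] (𝒱 : ValuationSubring Ω)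
    (hk : ∀ c : k, algebraMap k Ω c ∈ 𝒱) {N κ B : ℕ} (F : Fin κ → MvPolynomial (Fin N) k)
    (H : Fin N → PowerSeries Ω)
    (hH : ∀ j, eval₂ ((PowerSeries.C : Ω →+* PowerSeries Ω).comp (algebraMap k Ω)) H (F j) = 0)
    (τ : Ω) (h1 : ∀ l m, PowerSeries.coeff m (H l) * τ ^ m ∈ 𝒱)
    (h2 : ∀ l m, B < m → 𝒱.valuation (PowerSeries.coeff m (H l) * τ ^ m) < 1) :
    ∀ j, eval₂ ((Polynomial.C : IsLocalRing.ResidueField 𝒱 →+* _).comp
      ((IsLocalRing.residue 𝒱).comp ((algebraMap k Ω).codRestrict 𝒱.toSubring hk)))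
      (fun l => PowerSeries.trunc (B + 1)
        (PowerSeries.mk fun m => IsLocalRing.residue 𝒱 ⟨_, h1 l m⟩)) (F j) = 0 := by
  intro j
  have e2 := congrArg (PowerSeries.rescale τ) (hH j)
  rw [map_zero, MvPolynomial.eval₂_comp_left] at e2
  let K : Fin N → PowerSeries 𝒱 := fun l => PowerSeries.mk fun m => ⟨_, h1 l m⟩
  have e3 : eval₂ ((PowerSeries.C : 𝒱 →+* PowerSeries 𝒱).comp
      ((algebraMap k Ω).codRestrict 𝒱.toSubring hk)) K (F j) = 0 := by
    have hinj : Function.Injective (PowerSeries.map 𝒱.subtype) := by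
      intro x y hxy
      ext n : 1
      have := congrArg (PowerSeries.coeff n) hxy
      rw [PowerSeries.coeff_map, PowerSeries.coeff_map] at this
      exact Subtype.val_injective this
    apply hinj
    rw [map_zero, MvPolynomial.eval₂_comp_left, ← e2]
    congr 1
    · ext x : 1
      simp only [RingHom.comp_apply, PowerSeries.map_C]
      ext n
      rw [PowerSeries.coeff_rescale, PowerSeries.coeff_C, PowerSeries.coeff_C]
      split_ifs with h
      · rw [h, pow_zero, one_mul]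
        rfl
      · rw [mul_zero]
    · ext l m : 2
      simp only [Function.comp_apply, K, PowerSeries.coeff_map, PowerSeries.coeff_mk,
        PowerSeries.coeff_rescale]
      exact mul_comm _ _
  have e4 := congrArg (PowerSeries.map (IsLocalRing.residue 𝒱)) e3
  rw [map_zero, MvPolynomial.eval₂_comp_left] at e4
  apply Polynomial.coe_injective
  have e5 := MvPolynomial.eval₂_comp_left
    (Polynomial.coeToPowerSeries.ringHom (R := IsLocalRing.ResidueField 𝒱))
    ((Polynomial.C : IsLocalRing.ResidueField 𝒱 →+* _).comp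
      ((IsLocalRing.residue 𝒱).comp ((algebraMap k Ω).codRestrict 𝒱.toSubring hk)))
    (fun l => PowerSeries.trunc (B + 1)
        (PowerSeries.mk fun m => IsLocalRing.residue 𝒱 ⟨_, h1 l m⟩)) (F j)
  rw [Polynomial.coeToPowerSeries.ringHom_apply] at e5
  rw [e5, Polynomial.coe_zero, ← e4]
  congr 1
  · ext x : 1
    simp only [RingHom.comp_apply, Polynomial.coeToPowerSeries.ringHom_apply, Polynomial.coe_C,
      PowerSeries.map_C]
  · ext l m : 2
    simp only [Function.comp_apply, K, PowerSeries.coeff_map, PowerSeries.coeff_mk,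
      Polynomial.coeToPowerSeries.ringHom_apply, Polynomial.coeff_coe, PowerSeries.coeff_trunc]
    split_ifs with h
    · rfl
    · symm
      rw [IsLocalRing.residue_eq_zero_iff, ValuationSubring.valuation_lt_one_iff]
      exact h2 l m (by omega)

end g4Aux

open EvW g4Aux in
theorem g4 (hg1 : G1Stmt) (hg2 : G2Stmt) (hg3 : G3Stmt) : G4Stmt := by
  classical
  intro k Λ _ _ _ C N κ D b B F Y P hP hPfin hY c hc hPc hsum ω hω hωL 𝔓 hp hmx hne hF
  obtain ⟨Ω, _, _, _, s, 𝒱, hs, hk, v₁, hv₁⟩ := hg3 k (Fin N × Fin D) 𝔓 hp hmx hne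
  have hωP : ∀ j, ω j ∈ C.L P := fun j => L_sub_le C P c (hωL j)
  -- the maximal coordinate
  have : Nonempty (Fin N × Fin D) := ⟨v₁⟩
  obtain ⟨v₀, hv₀⟩ := Finite.exists_max (fun v => 𝒱.valuation (s v))
  have hθ : 1 < 𝒱.valuation (s v₀) := by
    have h2 : ¬ 𝒱.valuation (s v₁) ≤ 1 := fun h => hv₁ ((𝒱.valuation_le_one_iff _).1 h)
    exact lt_of_lt_of_le (not_le.1 h2) (hv₀ v₁)
  have hθ0 : s v₀ ≠ 0 := by
    intro h
    rw [h, map_zero] at hθ
    exact not_lt_zero hθ
  have hle1 : ∀ x : k, 𝒱.valuation (algebraMap k Ω x) ≤ 1 := fun x =>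
    (𝒱.valuation_le_one_iff _).2 (hk x)
  let ι : k →+* 𝒱 := (algebraMap k Ω).codRestrict 𝒱.toSubring hk
  let _ : Algebra k (IsLocalRing.ResidueField 𝒱) := ((IsLocalRing.residue 𝒱).comp ι).toAlgebra
  have hρmem : ∀ j, s (v₀.1, j) / s v₀ ∈ 𝒱 := by
    intro j
    rw [← 𝒱.valuation_le_one_iff, map_div₀]
    exact div_le_one_of_le₀ (hv₀ _) zero_le
  let ρ : Fin D → IsLocalRing.ResidueField 𝒱 := fun j => IsLocalRing.residue 𝒱 ⟨_, hρmem j⟩
  have hρ : ρ ≠ 0 := by
    intro h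
    have h1 := congrFun h v₀.2
    have h2 : (⟨_, hρmem v₀.2⟩ : 𝒱) = 1 := Subtype.ext (div_self hθ0)
    simp only [ρ, Pi.zero_apply] at h1
    rw [h2, map_one] at h1
    exact one_ne_zero h1
  obtain ⟨i, m, hm1, hmB, hm⟩ := hg1 k Λ (IsLocalRing.ResidueField 𝒱) C D b B P hP hPfin c hc hPc
    hsum ω hω hωL ρ hρ
  have hYi : ∀ l, ∀ i' < 0, C.cf (c i) i' (Y l) = 0 := by
    intro l i' hi'
    apply hY l (c i) i'
    rw [hPc, neg_zero]
    exact hi'
  have hωi : ∀ j, ∀ i' < 1, C.cf (c i) i' (ω j) = 0 := by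
    intro j i' hi'
    apply hωL j (c i) i'
    rw [Pi.sub_apply, hPc, ptDiv_apply hc]
    omega
  -- the power series
  have hbd : ∀ l m, 𝒱.valuation (PowerSeries.coeff m (Hs C (c i) s Y ω l)) ≤
      𝒱.valuation (s v₀) := by
    intro l m
    rw [Hs_coeff]
    refine 𝒱.valuation.map_add_le ((hle1 _).trans hθ.le) (𝒱.valuation.map_sum_le fun j _ => ?_)
    rw [map_mul]
    exact (mul_le_mul' (hv₀ _) (hle1 _)).trans_eq (mul_one _)
  have heq : 𝒱.valuation (PowerSeries.coeff m (Hs C (c i) s Y ω v₀.1)) = 𝒱.valuation (s v₀) := by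
    rw [Hs_coeff]
    let e : 𝒱 := ∑ j, ⟨_, hρmem j⟩ * ι (C.cf (c i) m (ω j))
    have he : IsLocalRing.residue 𝒱 e ≠ 0 := by
      have h1 : IsLocalRing.residue 𝒱 e = ∑ j, ρ j *
          algebraMap k (IsLocalRing.ResidueField 𝒱) (C.cf (c i) m (ω j)) := by
        simp only [e, map_sum, map_mul]
        rfl
      rw [h1]
      exact hm
    have he1 : 𝒱.valuation e = 1 := by
      rw [← ValuationSubring.valuation_eq_one_iff]
      by_contra h
      exact he ((IsLocalRing.residue_eq_zero_iff _).2 ((IsLocalRing.mem_maximalIdeal _).2 h))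
    have hse : ∑ j, s (v₀.1, j) * algebraMap k Ω (C.cf (c i) m (ω j)) = s v₀ * (e : Ω) := by
      have h2 : (e : Ω) = ∑ j, s (v₀.1, j) / s v₀ * algebraMap k Ω (C.cf (c i) m (ω j)) := by
        change 𝒱.subtype e = _
        simp only [e, map_sum, map_mul]
        rfl
      rw [h2, Finset.mul_sum]
      refine Finset.sum_congr rfl fun j _ => ?_
      rw [← mul_assoc, mul_div_cancel₀ _ hθ0]
    rw [hse, Valuation.map_add_eq_of_lt_right, map_mul, he1, mul_one]
    rw [map_mul, he1, mul_one]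
    exact lt_of_le_of_lt (hle1 _) hθ
  obtain ⟨τ, hτ0, hτ1, t1, t2, l₁, m₁, t3, t4, t5⟩ := hg2 Ω 𝒱 N B (Hs C (c i) s Y ω) (s v₀) hθ
    (by
      intro l
      rw [Hs_coeff, Finset.sum_eq_zero, add_zero]
      · exact hk _
      · intro j _
        have : C.cf (c i) ((0 : ℕ) : ℤ) (ω j) = 0 := hωi j _ (by simp)
        rw [this, map_zero, mul_zero])
    (fun l m _ => hbd l m) ⟨v₀.1, m, hm1, hmB, heq⟩
  have h1 : ∀ l m, PowerSeries.coeff m (Hs C (c i) s Y ω l) * τ ^ m ∈ 𝒱 := fun l m =>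
    (𝒱.valuation_le_one_iff _).1 (t1 l m)
  have hred := reduce 𝒱 hk (B := B) F (Hs C (c i) s Y ω)
    (fun j => eval_Hs C (c i) s Y ω hYi (fun j i' hi' => hωi j i' (by omega)) (F j)
      (ev_ext C (c i) s (fun q hq => (hs q).1 hq) (hF j))) τ h1 t2
  have hcoeff : ∀ l m, (PowerSeries.trunc (B + 1)
      (PowerSeries.mk fun m => IsLocalRing.residue 𝒱 ⟨_, h1 l m⟩)).coeff m =
      if m < B + 1 then IsLocalRing.residue 𝒱 ⟨_, h1 l m⟩ else 0 := by
    intro l m
    rw [PowerSeries.coeff_trunc, PowerSeries.coeff_mk]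
  refine ⟨i, IsLocalRing.ResidueField 𝒱, inferInstance, inferInstance, fun l =>
    PowerSeries.trunc (B + 1) (PowerSeries.mk fun m => IsLocalRing.residue 𝒱 ⟨_, h1 l m⟩),
    fun j => ?_, fun l => ?_, ⟨l₁, ?_⟩, fun l => ?_, fun l hl => ?_⟩
  · rw [aeval_def]
    exact hred j
  · exact Nat.lt_succ_iff.1 (PowerSeries.natDegree_trunc_lt _ _)
  · refine lt_of_lt_of_le (Nat.lt_of_lt_of_le Nat.zero_lt_one t3)
      (Polynomial.le_natDegree_of_ne_zero (n := m₁) ?_)
    rw [hcoeff, if_pos (by omega)]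
    intro h
    rw [IsLocalRing.residue_eq_zero_iff, ValuationSubring.valuation_lt_one_iff] at h
    exact absurd t5 (ne_of_lt h)
  · rw [hcoeff, if_pos (by omega)]
    have h2 : (⟨_, h1 l 0⟩ : 𝒱) = ι (C.cf (c i) 0 (Y l)) := by
      apply Subtype.ext
      change PowerSeries.coeff 0 (Hs C (c i) s Y ω l) * τ ^ 0 = algebraMap k Ω _
      rw [Hs_coeff, Finset.sum_eq_zero, add_zero, pow_zero, mul_one]
      · rfl
      · intro j _
        have : C.cf (c i) ((0 : ℕ) : ℤ) (ω j) = 0 := hωi j _ (by simp)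
        rw [this, map_zero, mul_zero]
    rw [h2]
    rfl
  · rw [← Nat.le_zero, Polynomial.natDegree_le_iff_coeff_eq_zero]
    intro n hn
    rw [hcoeff]
    split_ifs with h
    · rw [IsLocalRing.residue_eq_zero_iff, ValuationSubring.valuation_lt_one_iff]
      change 𝒱.valuation (PowerSeries.coeff n (Hs C (c i) s Y ω l) * τ ^ n) < 1
      rw [Hs_coeff, Finset.sum_eq_zero, add_zero, map_mul, map_pow]
      · exact lt_of_le_of_lt (mul_le_of_le_one_left' (hle1 _)) (pow_lt_one₀ zero_le hτ1 (by omega))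
      · intro j _
        have h3 := (hs _).1 (hl j)
        rw [aeval_X] at h3
        rw [h3, zero_mul]
    · rfl

end Pool.Agent.Lib.MP_410da7_agA
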