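import Pool.Agent.Lib.MP_410da7_agA.SpecD
import Pool.Agent.Lib.MP_410da7_ag.CutDown

/-!
# H1: a polynomial curve through the generic point gives `𝔸¹`-uniruledness
-/

set_option autoImplicit false

namespace Pool.Agent.Lib.MP_410da7_agA

open Pool.Agent.Lib.MP_410da7_ag (A1Uniruled a1Uniruled_of_family)

namespace h1Aux

open TensorProduct

/-- Specialization of a finitely generated extension to an algebraic one. -/
theorem exists_quot {R A : Type} [CommRing R] [IsDomain R] [Algebra ℂ R] [CommRing A] [IsDomain A]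
    [Algebra ℂ A] (hA : Algebra.FiniteType ℂ A) (e : R →ₐ[ℂ] A) (he : Function.Injective e) :
    ∃ P : Ideal A, P.IsPrime ∧ Algebra.trdeg ℂ (A ⧸ P) = Algebra.trdeg ℂ R ∧
      ∀ r : R, e r ∈ P → r = 0 := by
  let algRA : Algebra R A := e.toRingHom.toAlgebra
  have tow1 : IsScalarTower ℂ R A := IsScalarTower.of_algebraMap_eq' e.comp_algebraMap.symm
  have hRA : Function.Injective (algebraMap R A) := he
  have : FaithfulSMul R A := (faithfulSMul_iff_algebraMap_injective _ _).2 hRA
  have hft : Algebra.FiniteType R A := Algebra.FiniteType.of_restrictScalars_finiteType ℂ R A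
  let K := FractionRing R
  let B := K ⊗[R] A
  have hB : Nontrivial B := by
    let E := FractionRing A
    have hRE : Function.Injective (algebraMap R E) := by
      rw [IsScalarTower.algebraMap_eq R A E]
      exact (IsFractionRing.injective A E).comp hRA
    let f1 : K →ₐ[R] E := IsFractionRing.liftAlgHom (g := Algebra.ofId R E) hRE
    let f2 : A →ₐ[R] E := IsScalarTower.toAlgHom R A E
    let f : B →ₐ[R] E := Algebra.TensorProduct.lift f1 f2 (fun _ _ => Commute.all _ _)
    exact f.toRingHom.domain_nontrivial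
  obtain ⟨𝔪, hm⟩ := Ideal.exists_maximal B
  let κ := B ⧸ 𝔪
  let fκ : Field κ := Ideal.Quotient.field 𝔪
  have ftB : Algebra.FiniteType K B := inferInstance
  have ftκ : Algebra.FiniteType K κ :=
    Algebra.FiniteType.of_surjective (Ideal.Quotient.mkₐ K 𝔪) (Ideal.Quotient.mkₐ_surjective K 𝔪)
  have finκ : Module.Finite K κ := finite_of_finite_type_of_isJacobsonRing K κ
  have algκ : Algebra.IsAlgebraic K κ := inferInstance
  have towκ : IsScalarTower R K κ := inferInstance
  have algRκ : Algebra.IsAlgebraic R κ := (IsFractionRing.comap_isAlgebraic_iff (K := K)).mpr algκ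
  let g₀ : A →ₐ[R] κ := (Ideal.Quotient.mkₐ R 𝔪).comp Algebra.TensorProduct.includeRight
  let P : Ideal A := RingHom.ker g₀
  have hP : P.IsPrime := RingHom.ker_isPrime _
  have hRP : ∀ r : R, e r ∈ P → r = 0 := by
    intro r hr
    have h1 : g₀ (algebraMap R A r) = 0 := hr
    rw [g₀.commutes, IsScalarTower.algebraMap_apply R K κ, map_eq_zero] at h1
    exact (IsFractionRing.injective R K) (by rw [h1, map_zero])
  refine ⟨P, hP, ?_, hRP⟩
  have hinj : Function.Injective (algebraMap R (A ⧸ P)) := by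
    rw [injective_iff_map_eq_zero]
    intro r hr
    refine hRP r (Ideal.Quotient.eq_zero_iff_mem.1 ?_)
    exact hr
  have : FaithfulSMul R (A ⧸ P) := (faithfulSMul_iff_algebraMap_injective _ _).2 hinj
  have halg : Algebra.IsAlgebraic R (A ⧸ P) := by
    constructor
    intro x
    obtain ⟨a, rfl⟩ := Ideal.Quotient.mk_surjective x
    obtain ⟨p, hp, hp'⟩ := algRκ.isAlgebraic (g₀ a)
    refine ⟨p, hp, ?_⟩
    rw [Polynomial.aeval_algHom_apply] at hp'
    have h2 : Polynomial.aeval a p ∈ P := hp'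
    have h3 : Polynomial.aeval (Ideal.Quotient.mkₐ R P a) p =
        Ideal.Quotient.mkₐ R P (Polynomial.aeval a p) := Polynomial.aeval_algHom_apply _ _ _
    exact h3.trans (Ideal.Quotient.eq_zero_iff_mem.2 h2)
  have tow2 : IsScalarTower ℂ R (A ⧸ P) := inferInstance
  have h1 : Algebra.trdeg ℂ R + Algebra.trdeg R (A ⧸ P) = Algebra.trdeg ℂ (A ⧸ P) :=
    trdeg_add_eq ℂ R
  rw [trdeg_eq_zero (R := R) (A := A ⧸ P), add_zero] at h1
  exact h1.symm

end h1Aux

open h1Aux

theorem h1 : H1Stmt := by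
  classical
  intro R _ _ _ hR Ω' _ _ φ h0 a ha
  obtain ⟨s, hs⟩ := hR.out
  set b : Ω' := (φ a).leadingCoeff with hb
  have hb0 : b ≠ 0 := by
    rw [hb, Ne, Polynomial.leadingCoeff_eq_zero]
    rintro h
    rw [h, Polynomial.natDegree_zero] at ha
    exact lt_irrefl _ ha
  let T : Finset Ω' := (s.biUnion fun x => (φ x).coeffs) ∪ {b⁻¹}
  let A := Algebra.adjoin ℂ (T : Set Ω')
  have hA : Algebra.FiniteType ℂ A :=
    (Subalgebra.fg_iff_finiteType _).mp (Subalgebra.fg_adjoin_finset T)
  let ι : Polynomial A →ₐ[ℂ] Polynomial Ω' := Polynomial.mapAlgHom A.val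
  have hι : Function.Injective ι := Polynomial.map_injective _ Subtype.coe_injective
  have hιc : ∀ (q : Polynomial A) (i : ℕ), (ι q).coeff i = ((q.coeff i : A) : Ω') := fun q i =>
    Polynomial.coeff_map _ _
  have hrange : ∀ r : R, φ r ∈ ι.range := by
    have h1 : (⊤ : Subalgebra ℂ R) ≤ ι.range.comap φ := by
      rw [← hs, Algebra.adjoin_le_iff]
      intro x hx
      have h2 : φ x ∈ Polynomial.lifts (algebraMap A Ω') := by
        rw [Polynomial.lifts_iff_coeff_lifts]
        intro i
        by_cases hi : (φ x).coeff i = 0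
        · exact ⟨0, by rw [hi, map_zero]⟩
        · refine ⟨⟨(φ x).coeff i, Algebra.subset_adjoin ?_⟩, rfl⟩
          rw [Finset.mem_coe]
          exact Finset.mem_union_left _ (Finset.mem_biUnion.mpr ⟨x, hx,
            Polynomial.coeff_mem_coeffs hi⟩)
      obtain ⟨q, hq⟩ := h2
      exact ⟨q, hq⟩
    intro r
    exact h1 (Algebra.mem_top (x := r))
  let φ' : R →ₐ[ℂ] Polynomial A :=
    ((AlgEquiv.ofInjective ι hι).symm : ι.range →ₐ[ℂ] Polynomial A).comp (φ.codRestrict ι.range hrange)
  have hφ' : ∀ r, ι (φ' r) = φ r := by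
    intro r
    have h1 := (AlgEquiv.ofInjective ι hι).apply_symm_apply (φ.codRestrict ι.range hrange r)
    exact congrArg Subtype.val h1
  let ev : Polynomial A →ₐ[ℂ] A := (Polynomial.aeval (R := A) (0 : A)).restrictScalars ℂ
  have hev : ∀ q, ev q = q.coeff 0 := fun q => by
    show Polynomial.aeval (0 : A) q = _
    rw [Polynomial.coe_aeval_eq_eval, Polynomial.coeff_zero_eq_eval_zero]
  let e : R →ₐ[ℂ] A := ev.comp φ'
  have he : Function.Injective e := by
    rw [injective_iff_map_eq_zero]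
    intro r hr
    by_contra hne
    refine h0 r hne ?_
    rw [← hφ' r, hιc]
    have h1 : (φ' r).coeff 0 = 0 := (hev _).symm.trans hr
    rw [h1]
    rfl
  obtain ⟨P, hP, hd, hPR⟩ := exists_quot hA e he
  have hA' : Algebra.FiniteType ℂ (A ⧸ P) :=
    Algebra.FiniteType.of_surjective (Ideal.Quotient.mkₐ ℂ P) (Ideal.Quotient.mkₐ_surjective ℂ P)
  let ψ : R →ₐ[ℂ] Polynomial (A ⧸ P) := (Polynomial.mapAlgHom (Ideal.Quotient.mkₐ ℂ P)).comp φ'
  have hψc : ∀ r i, (ψ r).coeff i = Ideal.Quotient.mk P ((φ' r).coeff i) := fun r i =>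
    Polynomial.coeff_map _ _
  have hψ : Function.Injective ψ := by
    rw [injective_iff_map_eq_zero]
    intro r hr
    refine hPR r ?_
    have h1 : (ψ r).coeff 0 = 0 := by rw [hr, Polynomial.coeff_zero]
    rw [hψc] at h1
    have h2 : e r = (φ' r).coeff 0 := hev _
    rw [h2]
    exact Ideal.Quotient.eq_zero_iff_mem.1 h1
  have hdeg : (φ' a).natDegree = (φ a).natDegree := by
    rw [← hφ' a]
    exact (Polynomial.natDegree_map_eq_of_injective Subtype.coe_injective _).symm
  have hlead : ((φ' a).leadingCoeff : Ω') = b := by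
    rw [hb, Polynomial.leadingCoeff, Polynomial.leadingCoeff, ← hιc, hφ', hdeg]
  have hu : IsUnit (φ' a).leadingCoeff := by
    have h2 : b⁻¹ ∈ A := Algebra.subset_adjoin (by
      rw [Finset.mem_coe]
      exact Finset.mem_union_right _ (Finset.mem_singleton_self _))
    refine IsUnit.of_mul_eq_one ⟨b⁻¹, h2⟩ (Subtype.ext ?_)
    show ((φ' a).leadingCoeff : Ω') * b⁻¹ = 1
    rw [hlead]
    exact mul_inv_cancel₀ hb0
  have hu' : IsUnit (Ideal.Quotient.mk P (φ' a).leadingCoeff) := hu.map _
  have hψd : (ψ a).natDegree = (φ' a).natDegree :=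
    Polynomial.natDegree_map_of_leadingCoeff_ne_zero _ hu'.ne_zero
  refine a1Uniruled_of_family hR hA' hd ψ hψ a (by rw [hψd, hdeg]; exact ha) ?_
  rw [Polynomial.leadingCoeff, hψc, hψd]
  exact hu'

end Pool.Agent.Lib.MP_410da7_agA
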