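import Pool.Agent.Lib.MP_410da7_agA.SpecD
import Pool.Agent.Lib.MP_410da7_agA.VCert4

/-!
# MP_410da7_ag, smooth affine varieties: H2

The theorem on curves: a smooth affine variety with a negative curve is `𝔸¹`-uniruled.
-/

set_option autoImplicit false

namespace Pool.Agent.Lib.MP_410da7_agA

open MvPolynomial KaehlerDifferential WithZero Module
open Pool.Agent.Lib.MP_410da7_ag (A1Uniruled)

namespace h2Aux

/-- Algebra homomorphisms from an algebra with generators `y`. -/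
lemma exists_lift {R B : Type} [CommRing R] [Algebra ℂ R] [CommRing B] [Algebra ℂ B] {M : ℕ}
    (y : Fin M → R) (hy : Algebra.adjoin ℂ (Set.range y) = ⊤) (Y : Fin M → B)
    (h : ∀ P : MvPolynomial (Fin M) ℂ, aeval y P = 0 → aeval Y P = 0) :
    ∃ φ : R →ₐ[ℂ] B, ∀ l, φ (y l) = Y l := by
  have hsurj : Function.Surjective (aeval y : MvPolynomial (Fin M) ℂ →ₐ[ℂ] R) := by
    rw [← AlgHom.range_eq_top, ← Algebra.adjoin_range_eq_range_aeval, hy]
  refine ⟨AlgHom.liftOfSurjective (aeval y) hsurj (aeval Y) (fun P hP => h P hP), fun l => ?_⟩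
  have h1 := AlgHom.liftOfSurjective_apply (aeval y) hsurj (aeval Y) (fun P hP => h P hP) (X l)
  rwa [aeval_X, aeval_X] at h1

end h2Aux

open h2Aux in
theorem h2 (hd18 : D18Stmt) (hefg : EFGStmt) (hh1 : H1Stmt) : H2Stmt := by
  intro R K _ _ _ _ _ _ _ _ _ n N m₀ e₀ Ψ x hx hsit L Λ _ _ _ _ _ _ _ _ a hN
  obtain ⟨M, κ, r, d, E₀, S, y, b, α, hV, hy, hker⟩ := hd18 R K n N m₀ e₀ Ψ x hx hsit L Λ a hN
  have : CharZero L := charZero_of_injective_algebraMap (algebraMap ℂ L).injective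
  have hC := cert_of_vcert S n m₀ e₀ E₀ _ b α hV
  have hB : (n + 1) * E₀ * m₀ < ((n + 1) * E₀ * m₀ + 1) * e₀ := by
    have := hV.e0
    calc (n + 1) * E₀ * m₀ < ((n + 1) * E₀ * m₀ + 1) * 1 := by omega
      _ ≤ ((n + 1) * E₀ * m₀ + 1) * e₀ := Nat.mul_le_mul_left _ this
  obtain ⟨Λ', _, _, _, _, Yp, y1, y2, y3, ⟨l₀, y4⟩, y5⟩ := hefg L Λ M κ r d n m₀ e₀ E₀
    ((n + 1) * E₀ * m₀) S _ b α hC hB
  let _ : Algebra ℂ Λ' := ((algebraMap Λ Λ').comp (algebraMap ℂ Λ)).toAlgebra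
  have : IsScalarTower ℂ Λ Λ' := IsScalarTower.of_algebraMap_eq (fun _ => rfl)
  have : IsScalarTower ℂ L Λ' := IsScalarTower.of_algebraMap_eq (fun c => by
    rw [IsScalarTower.algebraMap_apply ℂ Λ Λ', IsScalarTower.algebraMap_apply L Λ Λ',
      IsScalarTower.algebraMap_apply ℂ L Λ])
  obtain ⟨φ, hφ⟩ := exists_lift y hy Yp (fun P hP => by
    have h1 : Ideal.span (Set.range S.F ∪ {X 0 - 1}) ≤
        RingHom.ker (aeval Yp : MvPolynomial (Fin (M + 1)) L →ₐ[L] Polynomial Λ') := by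
      rw [Ideal.span_le]
      rintro q (⟨j, rfl⟩ | hq)
      · exact y1 j
      · rw [Set.mem_singleton_iff] at hq
        rw [hq, SetLike.mem_coe, RingHom.mem_ker, map_sub, aeval_X, y2, map_one, sub_self]
    have h2 := h1 (hker P hP)
    rw [RingHom.mem_ker, aeval_map_algebraMap] at h2
    exact h2)
  -- the value at `0`
  let cc : Polynomial Λ' →ₐ[ℂ] Λ' :=
    (Polynomial.aeval (R := Λ') (0 : Λ')).restrictScalars ℂ
  let g : R →ₐ[ℂ] Λ' := (IsScalarTower.toAlgHom ℂ Λ Λ').comp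
    ((IsScalarTower.toAlgHom ℂ K Λ).comp (IsScalarTower.toAlgHom ℂ R K))
  have hcg : cc.comp φ = g := by
    refine AlgHom.ext_of_adjoin_eq_top hy ?_
    rintro _ ⟨l, rfl⟩
    rw [AlgHom.comp_apply, hφ]
    have h1 : cc (Yp l) = (Yp l).coeff 0 := (Polynomial.coeff_zero_eq_aeval_zero (Yp l)).symm
    rw [h1, y5 l]
    rfl
  refine hh1 R ?_ Λ' φ (fun c hc => ?_) (y l₀) (by rw [hφ]; exact y4)
  · refine ⟨⟨(Set.finite_range x).toFinset, ?_⟩⟩
    rw [Set.Finite.coe_toFinset]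
    exact hx
  · have h1 : (φ c).coeff 0 = g c := by
      rw [← hcg, AlgHom.comp_apply]
      exact Polynomial.coeff_zero_eq_aeval_zero (φ c)
    rw [h1]
    intro h2
    apply hc
    apply IsFractionRing.injective R K
    apply (algebraMap K Λ).injective
    apply (algebraMap Λ Λ').injective
    rw [map_zero, map_zero, map_zero]
    exact h2

end Pool.Agent.Lib.MP_410da7_agA
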