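import Pool.Agent.Lib.MP_410da7_agA.SDefs

/-!
# MP_410da7_ag, smooth affine varieties (C46): blocks A, B, C

Block A: the bigraded ring of sections of `m (K + D) + e H` and its threshold.
Block B: above the threshold there are no fixed divisors.
Block C: the generic curve, on which the section `a₀` of minimal slope has no zeros.
-/

set_option autoImplicit false

namespace Pool.Agent.Lib.MP_410da7_agA

open MvPolynomial KaehlerDifferential WithZero Module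
open Pool.Agent.Lib.MP_410da7_ag (regDiff logDiff regGens logGens A1Uniruled LogKodairaNegInf dim)

/-! ## Block A -/

/-- A0. A function that is bounded by `1` at every valuation is a constant.
PROOF. Let `F ∈ K` be not in `ℂ`; then it is transcendental over `ℂ` (`ℂ` algebraically closed). Take a
transcendence basis of `K/ℂ` containing `F`, `F' = ℂ(the others)`, the discrete valuation ring
`O = F'[1/F]_{(1/F)}` of `F'(F)` and the integral closure of `F'[1/F]` in `K` (a Dedekind domain with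
fraction field `K`, `K` is finite over `F'(F)`), a prime `𝔭` over `(1/F)` and the valuation `v` of `𝔭`
(`IsDedekindDomain.HeightOneSpectrum.valuation`): `v(1/F) < 1`, `v` is trivial on `ℂ`. But
`v F ≤ size^0 * v(Ψ θ)^0 = 1`. (`K/ℂ` is finitely generated by `Sit.gen`.) -/
def A0Stmt : Prop :=
  ∀ (K : Type) [Field K] [Algebra ℂ K] (n N : ℕ) (Ψ : Ω[K⁄ℂ] [⋀^Fin n]→ₗ[K] K) (x : Fin N → K),
    Sit Ψ x → ∀ F ∈ Sec Ψ x 0 0, ∃ c : ℂ, F = algebraMap ℂ K c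

/-- A1. Operations on sections.
PROOF. Of two frames at `v` use the one with the larger value `v (Ψ θ)`. `x_l`: if `v` has a center then
`size = 1`; in general `v (x_l) ≤ size x v`. -/
def A1Stmt : Prop :=
  ∀ (K : Type) [Field K] [Algebra ℂ K] (n N : ℕ) (Ψ : Ω[K⁄ℂ] [⋀^Fin n]→ₗ[K] K) (x : Fin N → K),
    (∀ m e, (0 : K) ∈ Sec Ψ x m e) ∧ ((1 : K) ∈ Sec Ψ x 0 0) ∧
    (∀ m e, ∀ F ∈ Sec Ψ x m e, ∀ G ∈ Sec Ψ x m e, F + G ∈ Sec Ψ x m e) ∧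
    (∀ m e, ∀ F ∈ Sec Ψ x m e, ∀ c : ℂ, c • F ∈ Sec Ψ x m e) ∧
    (∀ m e m' e', ∀ F ∈ Sec Ψ x m e, ∀ G ∈ Sec Ψ x m' e', F * G ∈ Sec Ψ x (m + m') (e + e')) ∧
    (∀ m e e', e ≤ e' → Sec Ψ x m e ⊆ Sec Ψ x m e') ∧
    (∀ m e l, ∀ F ∈ Sec Ψ x m e, x l * F ∈ Sec Ψ x m (e + 1))

/-- A2. Homogeneous generators.
PROOF. By A1 every `p ∈ adj Ψ x` has `p.coeff ε ∈ Sec (ε 0) (ε 1)`. Let `T` be a finite set of
generators, and let the `g_i` be the nonzero coefficients of the elements of `T`, in their degrees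
`(m_i, e_i)`; the `C g_i * X 0 ^ m_i * X 1 ^ e_i` are in `adj Ψ x` and generate it. For `F ∈ Sec m' e'`
the element `C F * X 0 ^ m' * X 1 ^ e'` is a `ℂ`-linear combination of the products
`∏ (C g_i X 0 ^ m_i X 1 ^ e_i)^{a_i}`; take the coefficient at `(m', e')`. -/
def A2Stmt : Prop :=
  ∀ (K : Type) [Field K] [Algebra ℂ K] (n N : ℕ) (Ψ : Ω[K⁄ℂ] [⋀^Fin n]→ₗ[K] K) (x : Fin N → K),
    (adj Ψ x).FG → ∃ (s : ℕ) (m e : Fin s → ℕ) (g : Fin s → K), Gens Ψ x s m e g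

/-- A3. Integral closedness.
PROOF. Let `v` be trivial on `ℂ`. Among frames for the `c_i` choose `θ` with the largest `v (Ψ θ)`:
`v (c_i) ≤ (size^e v(Ψθ)^m)^(d-i)`. From `v(b)^d ≤ max v(c_i) v(b)^i` there is `i < d` with
`v(b)^(d-i) ≤ v(c_i)` (or `b = 0`), so `v(b) ≤ size^e v(Ψθ)^m`. -/
def A3Stmt : Prop :=
  ∀ (K : Type) [Field K] [Algebra ℂ K] (n N : ℕ) (Ψ : Ω[K⁄ℂ] [⋀^Fin n]→ₗ[K] K) (x : Fin N → K)
    (m e d : ℕ) (b : K) (c : Fin d → K), 1 ≤ d →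
    (∀ i : Fin d, c i ∈ Sec Ψ x ((d - (i : ℕ)) * m) ((d - (i : ℕ)) * e)) →
    b ^ d = ∑ i : Fin d, c i * b ^ (i : ℕ) →
    b ∈ Sec Ψ x m e

/-- A4. `K + D + n H` has a section.
PROOF. `n` of the `x_l` are a transcendence basis of `K/ℂ` (`Sit.gen`), their differentials are a basis
of `Ω[K⁄ℂ]` (characteristic `0`), so `F = Ψ(dx_{l_1}, ..., dx_{l_n}) ≠ 0`. If `v` has a center on `X`
these differentials are regular. Otherwise `size = v(x_{l*}) > 1`, and `dx_l / x_{l*}` is zero or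
`(x_l/x_{l*}) dx_l/x_l`, logarithmic; `F = x_{l*}^n Ψ(dx_{l_i}/x_{l*})`. -/
def A4Stmt : Prop :=
  ∀ (K : Type) [Field K] [Algebra ℂ K] (n N : ℕ) (Ψ : Ω[K⁄ℂ] [⋀^Fin n]→ₗ[K] K) (x : Fin N → K),
    Sit Ψ x → ∃ F ∈ Sec Ψ x 1 n, F ≠ 0

/-- A5. The threshold.
PROOF. The generators with `m_i ≥ 1` have `e_i ≥ 1` (`Sec m_i 0 = {0}`, `g_i ≠ 0`). There is one: by A4
a nonzero section of degree `(1, n)` is a combination of monomials in the `g_i` with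
`∑ a_i m_i = 1`. Take `i` with `e_i/m_i` minimal. If `0 ≠ F ∈ Sec m e` then some exponent vector `a` has
`∑ a_i m_i = m`, `∑ a_i e_i = e`, so `m e₀ = ∑ a_i m_i e₀ ≤ ∑ a_i e_i m₀ = e m₀`. -/
def A5Stmt : Prop :=
  ∀ (K : Type) [Field K] [Algebra ℂ K] (n N : ℕ) (Ψ : Ω[K⁄ℂ] [⋀^Fin n]→ₗ[K] K) (x : Fin N → K)
    (s : ℕ) (m e : Fin s → ℕ) (g : Fin s → K), Sit Ψ x → Gens Ψ x s m e g →
    (∃ F ∈ Sec Ψ x 1 n, F ≠ 0) → (∀ k : ℕ, 1 ≤ k → ∀ F ∈ Sec Ψ x k 0, F = 0) →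
    ∃ i, 1 ≤ m i ∧ 1 ≤ e i ∧ ∀ m' e' : ℕ, ∀ F ∈ Sec Ψ x m' e', F ≠ 0 → m' * e i ≤ e' * m i

/-- A6. Gordan's lemma (one equation).
PROOF. The set of the minimal nonzero solutions is finite (Dickson's lemma,
`Set.PartiallyWellOrderedOn` / `Pi` instances for `Fin s → ℕ`); the difference of a solution and a
smaller solution is a solution; induction on `∑ a_i`. -/
def A6Stmt : Prop :=
  ∀ (s : ℕ) (p q : Fin s → ℕ), ∃ (r : ℕ) (t : Fin r → Fin s → ℕ),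
    (∀ j, ∑ i, t j i * p i = ∑ i, t j i * q i) ∧
    ∀ a : Fin s → ℕ, ∑ i, a i * p i = ∑ i, a i * q i → ∃ c : Fin r → ℕ, a = ∑ j, c j • t j

/-- A7. The slope slightly above the threshold. With `m₀, e₀ = m i, e i` of A5, `a₀ = g i`.
PROOF. Let `T > m_i` for all `i`, and `(m', e') = (m₀ T, e₀ T + 1)`. (1) Every exponent vector `a` with
`∑ a_i (m_i, e_i) = k (m', e')`, `k ≥ 1`, contains a generator with `m_i ≥ 1`, `e_i m₀ = m_i e₀`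
(otherwise `∑ a_i (e_i m₀ - m_i e₀) ≥ ∑_{m_i ≥ 1} a_i`, this is `> k m₀` because
`∑ a_i m_i = k m₀ T` and `m_i < T`; but it is `= k m₀`). (2) By A6 (equation
`∑ a_i e_i m' = ∑ a_i m_i e'`) the exponent vectors of slope `e'/m'` are sums of finitely many `t_j`, of
degrees `k_j (m'_red, e'_red)`; note that `∑ a_i (m_i, e_i) = k' (m'/d, e'/d)`, `d = gcd(m', e')`
(here `d` divides `m₀`). Let `D` be a common multiple of the `k_j ≠ 0` and of `m₀`, and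
`(m₁, e₁) = D (m'/d, e'/d)` (take `D` a multiple of `d m₀` so that `(m₁, e₁)` is a multiple of
`(m', e')`). `int`: for a monomial `g^{t_j}` of degree `k_j (m'/d, e'/d)`, `k_j ≥ 1`, its power
`D/k_j` is in `Sec m₁ e₁`, so `v(g^{t_j})^D ≤ v(b₁)^{k_j}`; if `k_j = 0` then `g^{t_j} ∈ Sec 0 0` and
`v ≤ 1`. A monomial `b` of degree `k (m₁, e₁)` is a product of these, `v(b)^D ≤ v(b₁)^{k D}`. The
elements of `Sec (k m₁) (k e₁)` are linear combinations of such monomials. `split`: (1), with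
`a = g_i`. `fin`: the generators of degree `(0,0)` are constants (A0), so finitely many monomials
suffice; add `a₀`-multiples if necessary so that the family consists of nonzero elements (drop the
zero ones; `Sec m₁ e₁ ≠ 0`). `coord`: `c₀ = a₀^(m₁/m₀) ∈ Sec m₁ (e₁ - 1)` because
`(m₁/m₀) e₀ < e₁`; A1. -/
def A7Stmt : Prop :=
  ∀ (K : Type) [Field K] [Algebra ℂ K] (n N : ℕ) (Ψ : Ω[K⁄ℂ] [⋀^Fin n]→ₗ[K] K) (x : Fin N → K)
    (s : ℕ) (m e : Fin s → ℕ) (g : Fin s → K) (i : Fin s), Sit Ψ x → Gens Ψ x s m e g →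
    1 ≤ m i → 1 ≤ e i → (∀ m' e' : ℕ, ∀ F ∈ Sec Ψ x m' e', F ≠ 0 → m' * e i ≤ e' * m i) →
    ∃ m₁ e₁ : ℕ, Thr Ψ x (m i) (e i) m₁ e₁ (g i)

/-- A8. `Q` is a field.
PROOF. `a/b + a'/b' = (a b' + a' b)/(b b')` etc. with A1; `m e₀ = e m₀` and `m' e₀ = e' m₀` add up. -/
def A8Stmt : Prop :=
  ∀ (K : Type) [Field K] [Algebra ℂ K] (n N : ℕ) (Ψ : Ω[K⁄ℂ] [⋀^Fin n]→ₗ[K] K) (x : Fin N → K)
    (m₀ e₀ : ℕ), ∃ Q : IntermediateField ℂ K, (Q : Set K) = Qset Ψ x m₀ e₀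

/-- A9. `trdeg Q < n`.
PROOF. Otherwise `K` is algebraic over `Q`. For every `l`: `∑_{i ≤ d} q_i x_l^i = 0`, `q_i ∈ Q`,
`q_d ≠ 0`; multiply by the product `B` of the denominators of the `q_i`: `c_i = q_i B ∈ Sec m e` with
`m e₀ = e m₀`, `c_d ≠ 0`. `b = c_d x_l` satisfies `b^d = - ∑_{i<d} c_i c_d^(d-1-i) b^i`, so A3 (if
`d ≥ 1`) gives `c_d x_l ∈ Sec m e`. Multiply the `c_d` for all `l` and `a₀`: `c₀ ≠ 0`,
`c₀ ∈ Sec m e`, `x_l c₀ ∈ Sec m e` for all `l`, `m ≥ 1`, `m e₀ = e m₀`, so `e ≥ 1`. Then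
`c₀ ∈ Sec m (e-1)`: at `v` with `size = 1` clear, at `v` with `size = v(x_l) > 1` use
`x_l c₀ ∈ Sec m e`. This contradicts the minimality: `m e₀ ≤ (e-1) m₀ < e m₀`. -/
def A9Stmt : Prop :=
  ∀ (K : Type) [Field K] [Algebra ℂ K] (n N : ℕ) (Ψ : Ω[K⁄ℂ] [⋀^Fin n]→ₗ[K] K) (x : Fin N → K)
    (m₀ e₀ : ℕ) (a₀ : K), Sit Ψ x → 1 ≤ m₀ → 1 ≤ e₀ → a₀ ∈ Sec Ψ x m₀ e₀ → a₀ ≠ 0 →
    (∀ m e : ℕ, ∀ F ∈ Sec Ψ x m e, F ≠ 0 → m * e₀ ≤ e * m₀) →
    ∀ Q : IntermediateField ℂ K, (Q : Set K) = Qset Ψ x m₀ e₀ →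
    Algebra.trdeg ℂ Q < Algebra.trdeg ℂ K

/-! ## Block B -/

/-- B1. The valuation ring is a localization of `A`.
PROOF. `F = ℂ(t_1, ..., t_{n-1}) ⊆ K`, a rational function field, `v` is trivial on it; elements of
`F` are quotients of elements of `A` of value `1`. `trdeg_F K = 1`. Some `s ∈ A` is transcendental over
`F` (`K` is generated by `A`). `O' =` integral closure of `F[s]` in `K`: a Dedekind domain with
fraction field `K` (`K/F(s)` finite). Every `f ∈ O'` is `f = a/p`, `a ∈ A`, `p ∈ ℂ[t] \ 0 ⊆ A`: it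
satisfies a monic equation over `F[s]`, multiply by a power of a common denominator in `ℂ[t]` and use
that `A` is integrally closed. So `v ≤ 1` on `O'`; `𝔭 = {f ∈ O' : v f < 1}` is a nonzero prime (if it
is zero, `v` is trivial). `O'_𝔭` is a discrete valuation ring contained in the valuation ring of `v`:
for `f ∈ K` with `v f ≤ 1`: if `f ∉ O'_𝔭` then `1/f ∈ 𝔭 O'_𝔭` and `v(1/f) < 1`, contradiction. So
`f = o/h`, `o, h ∈ O'`, `v h = 1`, hence the claim. -/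
def B1Stmt : Prop :=
  ∀ (K : Type) [Field K] [Algebra ℂ K] (n N : ℕ) (x : Fin N → K),
    IntermediateField.adjoin ℂ (Set.range x) = ⊤ → 1 ≤ n → Algebra.trdeg ℂ K = n →
    ∀ (A : Subalgebra ℂ K), (∀ f : K, IsIntegral A f → f ∈ A) →
    IntermediateField.adjoin ℂ (A : Set K) = ⊤ →
    ∀ (v : Valuation K ℤᵐ⁰), Triv v → (∃ f : K, f ≠ 0 ∧ v f ≠ 1) → (∀ a ∈ A, v a ≤ 1) →
    ∀ (t : Fin (n - 1) → K), (∀ i, t i ∈ A) → ResIndep v t →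
    ∀ f : K, v f ≤ 1 → ∃ h ∈ A, v h = 1 ∧ h * f ∈ A

/-- B2. Differentials with few poles, over `A`.
PROOF. Generators `a db` with `v a, v b ≤ 1`: `a = p/h`, `b = q/h'` (`p, q, h, h' ∈ A`,
`v h = v h' = 1`), `h h'^2 a db = p (h' dq - q dh')`. Generators `(a/b) db`: `b = π^j u`, `v u = 1`
(`π` generates the value group: `v f < 1 → v f ≤ v π`), `db/b = j dπ/π + du/u`, `u = p/q`,
`v p = v q = 1`, `du/u = dp/p - dq/q`. Sums: multiply the `h`s. Induction on the closure. -/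
def B2Stmt : Prop :=
  ∀ (K : Type) [Field K] [Algebra ℂ K] (A : Subalgebra ℂ K) (v : Valuation K ℤᵐ⁰) (π : K),
    (∀ a ∈ A, v a ≤ 1) → (∀ f : K, v f ≤ 1 → ∃ h ∈ A, v h = 1 ∧ h * f ∈ A) →
    π ≠ 0 → v π < 1 → (∀ f : K, v f < 1 → v f ≤ v π) →
    (∀ θ ∈ regDiff v, ∃ h ∈ A, v h = 1 ∧
      h • θ ∈ AddSubgroup.closure {η : Ω[K⁄ℂ] | ∃ a ∈ A, ∃ b ∈ A, η = a • D ℂ K b}) ∧
    (∀ θ ∈ logDiff v, ∃ h ∈ A, v h = 1 ∧ ∃ c ∈ A,
      h • θ - (c / π) • D ℂ K π ∈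
        AddSubgroup.closure {η : Ω[K⁄ℂ] | ∃ a ∈ A, ∃ b ∈ A, η = a • D ℂ K b})

/-- B3. The elements of `A = Ratio b₁` and their differentials at an arbitrary valuation `u`. `b_*` is
a section of degree `(m₁, e₁)` of maximal value at `u`, `δ = b₁/b_*`.
PROOF. `a = c/b₁^k`, `c ∈ Sec (k m₁) (k e₁)`, `u(c) ≤ u(b_*)^k` (`Thr.int`), so `δ^k a = c/b_*^k` has
value `≤ 1`, `u δ ≤ 1`; `δ^(k+1) da = δ d(δ^k a) - k δ^k a dδ` is regular (`regDiff` is closed under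
multiplication by elements of value `≤ 1`). `E = k + 1`; larger `E` work as well. -/
def B3Stmt : Prop :=
  ∀ (K : Type) [Field K] [Algebra ℂ K] (n N : ℕ) (Ψ : Ω[K⁄ℂ] [⋀^Fin n]→ₗ[K] K) (x : Fin N → K)
    (m₀ e₀ m₁ e₁ : ℕ) (a₀ : K), Thr Ψ x m₀ e₀ m₁ e₁ a₀ → ∀ b₁ ∈ Sec Ψ x m₁ e₁, b₁ ≠ 0 →
    ∀ a ∈ Ratio Ψ x m₁ e₁ b₁, ∃ E : ℕ, ∀ E' : ℕ, E ≤ E' → ∀ u : Valuation K ℤᵐ⁰, Triv u →
      ∀ b' ∈ Sec Ψ x m₁ e₁, b' ≠ 0 → (∀ b ∈ Sec Ψ x m₁ e₁, u b ≤ u b') →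
      u ((b₁ / b') ^ E' * a) ≤ 1 ∧ (b₁ / b') ^ E' • D ℂ K a ∈ regDiff u

/-- B4. `Ratio b₁` is an integrally closed subalgebra of `K` and generates `K`; if `b₁` is maximal at
`v` then it is contained in the valuation ring.
PROOF. Subalgebra: `c/b₁^k + c'/b₁^k' = (c b₁^k' + c' b₁^k)/b₁^(k+k')`, A1. Integrally closed: if
`f^d = ∑_{i<d} a_i f^i`, `a_i = c_i/b₁^{k_i}`, `k ≥ k_i`, then `b = f b₁^k` satisfies
`b^d = ∑ (a_i b₁^(k(d-i))) b^i` with `a_i b₁^(k(d-i)) ∈ Sec ((d-i) k m₁) ((d-i) k e₁)`; A3. Generates: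
`x_l = (x_l c₀/b₁)/(c₀/b₁)` by `Thr.coord`, and `Sit.gen`. The last claim is `Thr.int`. -/
def B4Stmt : Prop :=
  ∀ (K : Type) [Field K] [Algebra ℂ K] (n N : ℕ) (Ψ : Ω[K⁄ℂ] [⋀^Fin n]→ₗ[K] K) (x : Fin N → K)
    (m₀ e₀ m₁ e₁ : ℕ) (a₀ : K), Sit Ψ x → Thr Ψ x m₀ e₀ m₁ e₁ a₀ → ∀ b₁ ∈ Sec Ψ x m₁ e₁, b₁ ≠ 0 →
    ∃ A : Subalgebra ℂ K, (A : Set K) = Ratio Ψ x m₁ e₁ b₁ ∧ (∀ f : K, IsIntegral A f → f ∈ A) ∧
      IntermediateField.adjoin ℂ (A : Set K) = ⊤ ∧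
      ∀ v : Valuation K ℤᵐ⁰, Triv v → (∀ b ∈ Sec Ψ x m₁ e₁, v b ≤ v b₁) → ∀ a ∈ A, v a ≤ 1

/-- B5. If the section `a₀` has a zero at `v` (trivial on `Q`) then every section of degree
`(m₁, e₁)` has one.
PROOF. By `Thr.split` `b₁` is a sum of products `a c`, `a ∈ Sec m' e'`, `m' e₀ = e' m₀`, `m' ≥ 1`,
`c ∈ Sec m'' e''`. `a^m₀` and `a₀^m'` are in `Sec (m₀ m') (m₀ e')` (`m₀ e' = m' e₀`), so their quotient
is in `Q`: `v(a)^m₀ = v(a₀)^m' < (size^e₀ v(Ψθ)^m₀)^m' = (size^e' v(Ψθ)^m')^m₀` (if `a ≠ 0`), so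
`v(a) < size^e' v(Ψθ)^m'`. With a frame for `c`, and the better one `θ'` of all the frames:
`v(a c) < size^e₁ v(Ψθ')^m₁`; finite sums. -/
def B5Stmt : Prop :=
  ∀ (K : Type) [Field K] [Algebra ℂ K] (n N : ℕ) (Ψ : Ω[K⁄ℂ] [⋀^Fin n]→ₗ[K] K) (x : Fin N → K)
    (m₀ e₀ m₁ e₁ : ℕ) (a₀ : K), Thr Ψ x m₀ e₀ m₁ e₁ a₀ → ∀ v : Valuation K ℤᵐ⁰, Triv v →
    (∀ q ∈ Qset Ψ x m₀ e₀, q ≠ 0 → v q = 1) → ¬ NoZero Ψ x m₀ e₀ a₀ v →
    ∀ b ∈ Sec Ψ x m₁ e₁, ∃ θ : Fin n → Ω[K⁄ℂ], Frame x v θ ∧ v b < size x v ^ e₁ * v (Ψ θ) ^ m₁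

/-- B6. NO FIXED DIVISORS. A valuation `v` trivial on `Q`, with `n - 1` elements of `A = Ratio b₁` with
independent residues (`b₁` of maximal value at `v`) is not a zero of `a₀`.
PROOF. Suppose it is. B4, B1: `A`, `v f ≤ 1 → ∃ h ∈ A, v h = 1, h f ∈ A`. Choose `π ∈ A` with
`v π < 1` maximal (values in `ℤᵐ⁰`; a uniformizer times a suitable `h`). By B5
`v(b₁) ≤ v(π) size^e₁ v(Ψθ)^m₁`, `θ` a frame at `v`. Let `x_* = 1` if `v` has a center and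
`x_* = x_l` with `v(x_l) = size x v > 1` otherwise: `b₁/π = x_*^e₁ g Ψ(θ)^m₁`, `v g ≤ 1`. If `v` has no
center, let `h'' ∈ A`, `v h'' = 1`, `a'' = h''/(x_* π) ∈ A`. By B2 there is `h ∈ A`, `v h = 1`, such that
`θ''_i = h θ_i` is in the group of the `a da'` (`a, a' ∈ A`), plus `(c_i h''/π) dπ` with `c_i ∈ A` if `v`
has no center (multiply by `h''`), and `h_g g = g' ∈ A`, `v h_g = 1`. With `h~ = h_g h^(n m₁)`:
`h~ b₁/π = x_*^e₁ g' Ψ(θ'')^m₁`. CLAIM: for large `E`, `F = h~ b₁^(E+1)/π ∈ Sec ((E+1) m₁) ((E+1) e₁)`.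
Let `u` be any valuation trivial on `ℂ`, `b_*` maximal at `u` (`Thr.fin`), `δ = b₁/b_*`. By B3, for large
`E₀` (independent of `u`), `δ^E₀ θ''_i` is in `regDiff u`, up to the term `δ^E₀ (c_i h''/π) dπ`, which is
in `logDiff u`, and if `u` has a center it is `δ^E₀ c_i a'' x_* dπ`, in `regDiff u` (`u(x_*) ≤ 1`). So
`δ^E₀ θ''` is a frame at `u`, `u(x_*) ≤ size x u`, `u(δ^E₀ g') ≤ 1`, hence
`u(h~ b₁/π) u(δ)^((n m₁ + 1) E₀) ≤ size^e₁ u(Ψ θ_u)^m₁`; with `E = (n m₁ + 1) E₀` multiply by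
`u(b_*)^E ≤ (size^e₁ u(Ψθ_*)^m₁)^E` and take the better frame. Then `F/b₁^(E+1) = h~/π ∈ Ratio b₁ = A`,
but `v(h~/π) > 1`: contradiction. -/
def B6Stmt : Prop :=
  ∀ (K : Type) [Field K] [Algebra ℂ K] (n N : ℕ) (Ψ : Ω[K⁄ℂ] [⋀^Fin n]→ₗ[K] K) (x : Fin N → K)
    (m₀ e₀ m₁ e₁ : ℕ) (a₀ : K), Sit Ψ x → 1 ≤ n → Thr Ψ x m₀ e₀ m₁ e₁ a₀ →
    ∀ v : Valuation K ℤᵐ⁰, Triv v → (∃ f : K, f ≠ 0 ∧ v f ≠ 1) →
    (∀ q ∈ Qset Ψ x m₀ e₀, q ≠ 0 → v q = 1) →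
    ∀ b₁ ∈ Sec Ψ x m₁ e₁, b₁ ≠ 0 → (∀ b ∈ Sec Ψ x m₁ e₁, v b ≤ v b₁) →
    ∀ t : Fin (n - 1) → K, (∀ i, t i ∈ Ratio Ψ x m₁ e₁ b₁) → ResIndep v t →
    NoZero Ψ x m₀ e₀ a₀ v

/-! ## Block C -/

/-- C1. One generic hyperplane section.
PROOF. Let `P(T_0, T_1, ..., T_s) ≠ 0` over `F` with `P(- ∑ β_j X_j, X) = 0` in `E[X]`. For
`ξ ∈ F^s` substitute `X = ξ`: `P(- ∑ ξ_j β_j, ξ) = 0`, so `∑ ξ_j β_j` is algebraic over `F` whenever
`P(T_0, ξ) ≠ 0`. Choose `ξ` with `P(T_0, ξ) ≠ 0` and `P(T_0, ξ + e_j) ≠ 0` (`F` is infinite: the product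
of two nonzero polynomials in `ξ`, a nonzero coefficient of `P` as a polynomial in `T_0`, and its
translate). The difference `β_j` is algebraic over `F`, contradiction. -/
def C1Stmt : Prop :=
  ∀ (F E : Type) [Field F] [Field E] [Algebra F E] [CharZero F] (s : ℕ) (β : Fin s → E),
    (∃ j, Transcendental F (β j)) →
    AlgebraicIndependent F (fun o : Option (Fin s) =>
      (o.elim (-∑ j, C (β j) * X j) (fun j => X j) : MvPolynomial (Fin s) E))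

/-- C2. The step. From the generic curve with `ρ` equations to `ρ + 1`.
PROOF. Some `β_j = b_j/b_0` is transcendental over `L` (the `β_j` generate `K` over `ℂ`, `K` generates
`Λ` over `L`, and `trdeg_L Λ ≥ 1`). `Λ' = FractionRing (MvPolynomial (Fin s) Λ)`,
`L' = L(X_1, ..., X_s, u_0)`, `u_0 = - ∑ β_j X_j`, the new row is `(u_0, X_1, ..., X_s)`. By C1
`trdeg_ℂ L' = trdeg_ℂ L + s + 1`; `trdeg_L Λ' = trdeg_L Λ + s = trdeg_{L'} Λ' + s + 1`. -/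
def C2Stmt : Prop :=
  ∀ (K : Type) [Field K] [Algebra ℂ K] (Q : IntermediateField ℂ K) (n s ρ : ℕ)
    (b : Fin (s + 1) → K), (∀ j, b j ≠ 0) → Algebra.trdeg ℂ K = n →
    IntermediateField.adjoin ℂ (Set.range fun j => b j / b 0) = ⊤ →
    ∀ (L Λ : Type) [Field L] [Field Λ] [Algebra ℂ L] [Algebra L Λ] [Algebra K Λ] [Algebra ℂ Λ]
    [IsScalarTower ℂ L Λ] [IsScalarTower ℂ K Λ] (u : Fin ρ → Fin (s + 1) → L),
    GCurve Q b L Λ u → 1 ≤ Algebra.trdeg L Λ →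
    ∃ (L' Λ' : Type) (_ : Field L') (_ : Field Λ') (_ : Algebra ℂ L') (_ : Algebra L' Λ')
      (_ : Algebra K Λ') (_ : Algebra ℂ Λ') (_ : IsScalarTower ℂ L' Λ') (_ : IsScalarTower ℂ K Λ')
      (u' : Fin (ρ + 1) → Fin (s + 1) → L'), GCurve Q b L' Λ' u'

/-- C3. The generic curve.
PROOF. Start: `ρ = 0`, `L = Q`, `Λ = K`. C2, `ρ → n - 1 - κ`, `κ = trdeg Q`: as long as
`κ + ρ < n - 1`, `trdeg_L Λ = n - κ - ρ ≥ 2`. -/
def C3Stmt : Prop :=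
  ∀ (K : Type) [Field K] [Algebra ℂ K] (Q : IntermediateField ℂ K) (n N s : ℕ) (x : Fin N → K)
    (b : Fin (s + 1) → K), (∀ j, b j ≠ 0) → Algebra.trdeg ℂ K = n →
    IntermediateField.adjoin ℂ (Set.range x) = ⊤ →
    Algebra.trdeg ℂ Q < Algebra.trdeg ℂ K →
    IntermediateField.adjoin ℂ (Set.range fun j => b j / b 0) = ⊤ →
    ∃ (ρ : ℕ) (L Λ : Type) (_ : Field L) (_ : Field Λ) (_ : Algebra ℂ L) (_ : Algebra L Λ)
      (_ : Algebra K Λ) (_ : Algebra ℂ Λ) (_ : IsScalarTower ℂ L Λ) (_ : IsScalarTower ℂ K Λ)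
      (u : Fin ρ → Fin (s + 1) → L), GCurve Q b L Λ u ∧ Algebra.trdeg L Λ = 1

/-- C4. Independent residues inside a generating set.
PROOF. In the residue field `κ_v` of `v` (an extension of `ℂ`, `v` is trivial on `ℂ`) the residues of
the `t_i` are algebraically independent over `ℂ` and in the subfield generated by the residues of `S`.
This subfield has a transcendence basis inside the residues of `S`
(`exists_isTranscendenceBasis_subset` ...), with at least `m` elements; lift `m` of them to `S`.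
`ResIndep v t` is the algebraic independence of the residues: a polynomial in elements of the
valuation ring with complex coefficients is in the valuation ring, and it is a unit iff its residue
is not zero. -/
def C4Stmt : Prop :=
  ∀ (K : Type) [Field K] [Algebra ℂ K] (v : Valuation K ℤᵐ⁰), Triv v → ∀ (S : Set K),
    (∀ f ∈ S, v f ≤ 1) → ∀ (m : ℕ) (t : Fin m → K), ResIndep v t →
    (∀ i, ∃ f ∈ S, ∃ g ∈ S, v g = 1 ∧ t i = f / g) →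
    ∃ t' : Fin m → K, (∀ i, t' i ∈ S) ∧ ResIndep v t'

/-- C5. Places of the generic curve: there are `n - 1` elements with independent residues among the
elements of `Q` and the `b_j/b_{j*}`.
PROOF. Let `κ_w` be the residue field of `w`; it contains `L`, and is algebraic over `L` (if
`s ∈ Λ`, `w s = 1`, had residue transcendental over `L`, then `w` would be trivial on `L(s)` and, `Λ`
being algebraic over `L(s)`, trivial). Let `β_j` be the residue of `b_j/b_{j*}`, `β_{j*} = 1`. From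
`rel`: `u_{i j*} = - ∑_{j ≠ j*} u_{i j} β_j` in `κ_w`, so `L` is contained in the subfield of `κ_w`
generated over `ℂ` by (the residues of) `Q`, the `β_j` and the `ρ s` elements `u_{i j}`, `j ≠ j*`.
`trdeg L = κ + ρ (s + 1)`, so the subfield `Q(β)` has `trdeg ≥ κ + ρ = n - 1`. A transcendence basis of
`Q(β)` can be chosen among the residues of `Q` and the `β_j`. -/
def C5Stmt : Prop :=
  ∀ (K : Type) [Field K] [Algebra ℂ K] (Q : IntermediateField ℂ K) (n s ρ : ℕ)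
    (b : Fin (s + 1) → K), (∀ j, b j ≠ 0) → Algebra.trdeg ℂ K = n →
    ∀ (L Λ : Type) [Field L] [Field Λ] [Algebra ℂ L] [Algebra L Λ] [Algebra K Λ] [Algebra ℂ Λ]
    [IsScalarTower ℂ L Λ] [IsScalarTower ℂ K Λ] (u : Fin ρ → Fin (s + 1) → L),
    GCurve Q b L Λ u → Algebra.trdeg L Λ = 1 → ∀ w : Valuation Λ ℤᵐ⁰,
    (∀ c : L, c ≠ 0 → w (algebraMap L Λ c) = 1) → (∃ f : Λ, f ≠ 0 ∧ w f ≠ 1) →
    ∀ j₀ : Fin (s + 1), (∀ j, w (algebraMap K Λ (b j)) ≤ w (algebraMap K Λ (b j₀))) →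
    ∃ t : Fin (n - 1) → K, (∀ i, t i ∈ Q ∨ ∃ j, t i = b j / b j₀) ∧
      ResIndep (w.comap (algebraMap K Λ)) t

/-- C6. The elements of `Q` are quotients of elements of `Ratio b₁` of value `1` at `v`, if `v` is
trivial on `Q` and `b₁` is maximal at `v`.
PROOF. `q = 0`: `f = 0`, `g = 1`. Let `0 ≠ q = a/b`, `a, b ∈ Sec m e`, `m e₀ = e m₀`; multiplying both by
`a₀` we may assume `m ≥ 1`. `b₁` is a combination of products `a' c` as in `Thr.split`; one of them has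
`v(a' c) = v(b₁)` (one is `≥` by the ultrametric inequality, all are `≤` by maximality since
`a' c ∈ Sec m₁ e₁`), `a' ∈ Sec m' e'`, `m' ≥ 1`, `c ∈ Sec m'' e''`. Let `r = m m₀ ≥ 1`. Then `a'^r` and
`b^(m₀ m')` are both in `Sec (r m') (r e')` (because `e m₀ m' = m e₀ m' = m e' m₀`), with
`(r m') e₀ = (r e') m₀`, so their quotient is in `Q`. Put `f = a b^(m₀ m' - 1) c^r / b₁^r`,
`g = b^(m₀ m') c^r / b₁^r`: elements of `Ratio b₁` with `k = r`, `f/g = q`, and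
`v g = v(b^(m₀ m')/a'^r) (v(a' c)/v(b₁))^r = 1`, `v f = v q v g = 1`. -/
def C6Stmt : Prop :=
  ∀ (K : Type) [Field K] [Algebra ℂ K] (n N : ℕ) (Ψ : Ω[K⁄ℂ] [⋀^Fin n]→ₗ[K] K) (x : Fin N → K)
    (m₀ e₀ m₁ e₁ : ℕ) (a₀ : K), Sit Ψ x → Thr Ψ x m₀ e₀ m₁ e₁ a₀ →
    ∀ v : Valuation K ℤᵐ⁰, Triv v → (∀ q ∈ Qset Ψ x m₀ e₀, q ≠ 0 → v q = 1) →
    ∀ b₁ ∈ Sec Ψ x m₁ e₁, b₁ ≠ 0 → (∀ b ∈ Sec Ψ x m₁ e₁, v b ≤ v b₁) →
    ∀ q ∈ Qset Ψ x m₀ e₀, ∃ f ∈ Ratio Ψ x m₁ e₁ b₁, ∃ g ∈ Ratio Ψ x m₁ e₁ b₁,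
      v f ≤ 1 ∧ v g = 1 ∧ q = f / g

/-- ABC. THE NEGATIVE CURVE (the end of the blocks A, B, C).
PROOF. A2: generators. A4, A5: `i`, `m₀, e₀, a₀ = g i`. A7: `(m₁, e₁)`, `Thr`. A8, A9: `Q`,
`trdeg Q < n` (so `n ≥ 1`). Let `b_0, ..., b_s` be the spanning family of `Thr.fin` (nonempty because of
`Thr.coord`; its quotients generate `K`, by `Thr.coord` and `Sit.gen`: `x_l = (x_l c₀)/c₀`, both in the
span). C3: `L, Λ, u`. Let `w` be trivial on `L`, `v = w|K`; `v` is trivial on `ℂ` and on `Q`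
(`GCurve.q`). `b_{j*}` maximal among the `b_j`, hence among all of `Sec m₁ e₁`. If `w` is trivial, the
claims are clear (`v` has a center; `size = 1`, all values `≤ 1`, `w a = 1`). Otherwise C5, then C4
with `S = Ratio b_{j*}` (C6; the `b_j/b_{j*}` are in `Ratio b_{j*}`, and `1 ∈ Ratio`): `t` in
`Ratio b_{j*}`. If `v` is nontrivial, B6. If `v` is trivial: `NoZero` holds (values `≤ 1`, `a₀ ≠ 0`) and `v`
has a center. `a = ` the image of `a₀`. `NegCurve.res`: `t`. -/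
def ABCStmt : Prop :=
  ∀ (K : Type) [Field K] [Algebra ℂ K] (n N : ℕ) (Ψ : Ω[K⁄ℂ] [⋀^Fin n]→ₗ[K] K) (x : Fin N → K),
    Sit Ψ x → (adj Ψ x).FG → (∀ k : ℕ, 1 ≤ k → ∀ F ∈ Sec Ψ x k 0, F = 0) →
    ∃ (m₀ e₀ : ℕ) (L Λ : Type) (_ : Field L) (_ : Field Λ) (_ : Algebra ℂ L) (_ : Algebra L Λ)
      (_ : Algebra K Λ) (_ : Algebra ℂ Λ) (_ : IsScalarTower ℂ L Λ) (_ : IsScalarTower ℂ K Λ)
      (a : Λ), NegCurve Ψ x m₀ e₀ L Λ a

end Pool.Agent.Lib.MP_410da7_agA
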