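import Pool.Agent.Lib.MP_410da7_agA.SpecD
import Pool.Agent.Lib.MP_410da7_agA.SpecA

/-!
# MP_410da7_ag, smooth affine varieties: H3
-/

set_option autoImplicit false

namespace Pool.Agent.Lib.MP_410da7_agA

theorem h3 (habc : ABCStmt) (hh2 : H2Stmt) : H3Stmt := by
  intro R K _ _ _ _ _ _ _ _ _ n N Ψ x hx hsit hfg hvan
  obtain ⟨m₀, e₀, L, Λ, _, _, _, _, _, _, _, _, a, hN⟩ := habc K n N Ψ _ hsit hfg hvan
  exact hh2 R K n N m₀ e₀ Ψ x hx hsit L Λ a hN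

end Pool.Agent.Lib.MP_410da7_agA
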