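import Pool.Agent.Lib.MP_410da7_agA.ABC
import Pool.Agent.Lib.MP_410da7_agA.A0
import Pool.Agent.Lib.MP_410da7_agA.A1
import Pool.Agent.Lib.MP_410da7_agA.A2
import Pool.Agent.Lib.MP_410da7_agA.A3
import Pool.Agent.Lib.MP_410da7_agA.A4
import Pool.Agent.Lib.MP_410da7_agA.A5
import Pool.Agent.Lib.MP_410da7_agA.A6
import Pool.Agent.Lib.MP_410da7_agA.A7
import Pool.Agent.Lib.MP_410da7_agA.A8
import Pool.Agent.Lib.MP_410da7_agA.A9
import Pool.Agent.Lib.MP_410da7_agA.B4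
import Pool.Agent.Lib.MP_410da7_agA.B6
import Pool.Agent.Lib.MP_410da7_agA.C1
import Pool.Agent.Lib.MP_410da7_agA.C2
import Pool.Agent.Lib.MP_410da7_agA.C3
import Pool.Agent.Lib.MP_410da7_agA.C4
import Pool.Agent.Lib.MP_410da7_agA.C5
import Pool.Agent.Lib.MP_410da7_agA.C6
import Pool.Agent.Lib.MP_410da7_agA.F1
import Pool.Agent.Lib.MP_410da7_agA.F2
import Pool.Agent.Lib.MP_410da7_agA.F3
import Pool.Agent.Lib.MP_410da7_agA.F4
import Pool.Agent.Lib.MP_410da7_agA.F5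
import Pool.Agent.Lib.MP_410da7_agA.F6
import Pool.Agent.Lib.MP_410da7_agA.F7
import Pool.Agent.Lib.MP_410da7_agA.F8
import Pool.Agent.Lib.MP_410da7_agA.F9
import Pool.Agent.Lib.MP_410da7_agA.F10
import Pool.Agent.Lib.MP_410da7_agA.F11
import Pool.Agent.Lib.MP_410da7_agA.F12
import Pool.Agent.Lib.MP_410da7_agA.F13
import Pool.Agent.Lib.MP_410da7_agA.F14
import Pool.Agent.Lib.MP_410da7_agA.G1
import Pool.Agent.Lib.MP_410da7_agA.G2
import Pool.Agent.Lib.MP_410da7_agA.G3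
import Pool.Agent.Lib.MP_410da7_agA.G4
import Pool.Agent.Lib.MP_410da7_agA.FG15
import Pool.Agent.Lib.MP_410da7_agA.FG16
import Pool.Agent.Lib.MP_410da7_agA.FF1
import Pool.Agent.Lib.MP_410da7_agA.FF2
import Pool.Agent.Lib.MP_410da7_agA.FF3
import Pool.Agent.Lib.MP_410da7_agA.FF4
import Pool.Agent.Lib.MP_410da7_agA.FF5
import Pool.Agent.Lib.MP_410da7_agA.FF6
import Pool.Agent.Lib.MP_410da7_agA.FF7
import Pool.Agent.Lib.MP_410da7_agA.FF8
import Pool.Agent.Lib.MP_410da7_agA.FF9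
import Pool.Agent.Lib.MP_410da7_agA.FF10
import Pool.Agent.Lib.MP_410da7_agA.E1
import Pool.Agent.Lib.MP_410da7_agA.E2
import Pool.Agent.Lib.MP_410da7_agA.E3
import Pool.Agent.Lib.MP_410da7_agA.E4
import Pool.Agent.Lib.MP_410da7_agA.E5
import Pool.Agent.Lib.MP_410da7_agA.E6a
import Pool.Agent.Lib.MP_410da7_agA.E6b
import Pool.Agent.Lib.MP_410da7_agA.E6c
import Pool.Agent.Lib.MP_410da7_agA.E7a
import Pool.Agent.Lib.MP_410da7_agA.E7b
import Pool.Agent.Lib.MP_410da7_agA.E7c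
import Pool.Agent.Lib.MP_410da7_agA.E8
import Pool.Agent.Lib.MP_410da7_agA.E9
import Pool.Agent.Lib.MP_410da7_agA.D1
import Pool.Agent.Lib.MP_410da7_agA.D2
import Pool.Agent.Lib.MP_410da7_agA.D3
import Pool.Agent.Lib.MP_410da7_agA.D4
import Pool.Agent.Lib.MP_410da7_agA.D5
import Pool.Agent.Lib.MP_410da7_agA.D6
import Pool.Agent.Lib.MP_410da7_agA.D7
import Pool.Agent.Lib.MP_410da7_agA.D8
import Pool.Agent.Lib.MP_410da7_agA.D9
import Pool.Agent.Lib.MP_410da7_agA.D10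
import Pool.Agent.Lib.MP_410da7_agA.D11
import Pool.Agent.Lib.MP_410da7_agA.D12
import Pool.Agent.Lib.MP_410da7_agA.D13
import Pool.Agent.Lib.MP_410da7_agA.D14
import Pool.Agent.Lib.MP_410da7_agA.D15
import Pool.Agent.Lib.MP_410da7_agA.D16
import Pool.Agent.Lib.MP_410da7_agA.D17
import Pool.Agent.Lib.MP_410da7_agA.D18
import Pool.Agent.Lib.MP_410da7_agA.H1
import Pool.Agent.Lib.MP_410da7_agA.H2
import Pool.Agent.Lib.MP_410da7_agA.H3
import Pool.Agent.Lib.MP_410da7_agA.FinalA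

/-!
# MP_410da7_ag, smooth affine varieties (C46): assembly
-/

set_option autoImplicit false

namespace Pool.Agent.Lib.MP_410da7_agA

theorem abcAll : ABCStmt :=
  abc a1 (a2 a1) a4 a5 (a7 a0 a1 a6) (a8 a1) (a9 a1 a3) (b6 a1 (b4 a1 a3)) (c3 (c2 c1)) c4 c5
    (c6 a1)

theorem fg16All : FG16Stmt :=
  fG16 f4 (f14 f2 f5 f6 f7 (f9 f8) f10 (f11 f10) (f12 f10) (f13 f1 f10)) fG15
    (g4 (g1 f3) g2 g3)

theorem efgAll : EFGStmt :=
  efg ff1 (ff5 ff2 ff3 ff4) (ff7 f1) (ff10 f2 ff8 (ff9 f2 ff6)) fg16All (e4 e1 e2 e3)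
    (e6c e5 e6a (e6b e5 e6a)) (e7c (e7b e7a)) e8

theorem h2All : H2Stmt :=
  h2 (d18 d1 d2 (d4 d3) d5 (d7 d5 d6) (d9 d8) d10 (d16 d1 (d9 d8) d10 (d11 d5))
    (d17 (d9 d8) d10 (d13 d5 d12) (d14 d5 d12) (d15 d5))) efgAll h1

theorem h3All : H3Stmt :=
  h3 abcAll h2All

end Pool.Agent.Lib.MP_410da7_agA
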