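import Pool.Agent.Lib.MP_410da7_agA.SpecA

/-!
# C46, B3: elements of `Ratio b₁` and their differentials at an arbitrary valuation
-/

set_option autoImplicit false

namespace Pool.Agent.Lib.MP_410da7_agA

open MvPolynomial KaehlerDifferential WithZero Module
open Pool.Agent.Lib.MP_410da7_ag (regDiff logDiff regGens logGens)

section

variable {K : Type} [Field K] [Algebra ℂ K]

theorem b3_reg_smul {v : Valuation K ℤᵐ⁰} {a : K} (ha : v a ≤ 1) {θ : Ω[K⁄ℂ]}
    (hθ : θ ∈ regDiff v) : a • θ ∈ regDiff v := by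
  induction hθ using AddSubgroup.closure_induction with
  | mem θ h =>
    obtain ⟨p, q, hp, hq, rfl⟩ := h
    rw [smul_smul]
    refine AddSubgroup.subset_closure ⟨a * p, q, ?_, hq, rfl⟩
    rw [map_mul]; exact mul_le_one' ha hp
  | zero => rw [smul_zero]; exact zero_mem _
  | add x y _ _ hx hy => rw [smul_add]; exact add_mem hx hy
  | neg x _ hx => rw [smul_neg]; exact neg_mem hx

theorem b3_log_smul {v : Valuation K ℤᵐ⁰} {a : K} (ha : v a ≤ 1) {θ : Ω[K⁄ℂ]}
    (hθ : θ ∈ logDiff v) : a • θ ∈ logDiff v := by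
  induction hθ using AddSubgroup.closure_induction with
  | mem θ h =>
    rcases h with ⟨p, q, hp, hq, rfl⟩ | ⟨p, q, hp, hq, rfl⟩
    · rw [smul_smul]
      refine AddSubgroup.subset_closure (Or.inl ⟨a * p, q, ?_, hq, rfl⟩)
      rw [map_mul]; exact mul_le_one' ha hp
    · rw [smul_smul]
      refine AddSubgroup.subset_closure (Or.inr ⟨a * p, q, ?_, hq, by rw [mul_div_assoc]⟩)
      rw [map_mul]; exact mul_le_one' ha hp
  | zero => rw [smul_zero]; exact zero_mem _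
  | add x y _ _ hx hy => rw [smul_add]; exact add_mem hx hy
  | neg x _ hx => rw [smul_neg]; exact neg_mem hx

theorem b3_reg_D {v : Valuation K ℤᵐ⁰} {a b : K} (ha : v a ≤ 1) (hb : v b ≤ 1) :
    a • D ℂ K b ∈ regDiff v :=
  AddSubgroup.subset_closure ⟨a, b, ha, hb, rfl⟩

omit [Algebra ℂ K] in
theorem b3_natCast_le (v : Valuation K ℤᵐ⁰) (k : ℕ) : v (k : K) ≤ 1 := by
  induction k with
  | zero => simp
  | succ k ih =>
    rw [Nat.cast_succ]
    refine (v.map_add _ _).trans (max_le ih ?_)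
    rw [map_one]

end

theorem b3 : B3Stmt := by
  intro K _ _ n N Ψ x m₀ e₀ m₁ e₁ a₀ hT b₁ hb₁ hb₁0 a ha
  obtain ⟨k, c, hc, rfl⟩ := ha
  refine ⟨k + 1, fun E' hE' u hu b' hb' hb'0 hmax => ?_⟩
  have hub' : u b' ≠ 0 := (Valuation.ne_zero_iff _).mpr hb'0
  set δ : K := b₁ / b' with hδ
  have hδ0 : δ ≠ 0 := div_ne_zero hb₁0 hb'0
  have hδ1 : u δ ≤ 1 := by
    rw [hδ, map_div₀]
    exact div_le_one_of_le₀ (hmax b₁ hb₁) zero_le
  set g : K := δ ^ k * (c / b₁ ^ k) with hg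
  have hg' : g = c / b' ^ k := by
    rw [hg, hδ, div_pow]
    field_simp
  have hg1 : u g ≤ 1 := by
    rw [hg', map_div₀, map_pow]
    exact div_le_one_of_le₀ (hT.int u hu b' hb' hmax k c hc) zero_le
  obtain ⟨j, rfl⟩ : ∃ j, E' = j + 1 + k := ⟨E' - (k + 1), by omega⟩
  have h1 : δ ^ (j + 1 + k) * (c / b₁ ^ k) = δ ^ (j + 1) * g := by
    rw [pow_add, mul_assoc, hg]
  refine ⟨?_, ?_⟩
  · rw [h1, map_mul, map_pow]
    exact mul_le_one' (pow_le_one' hδ1 _) hg1
  · have h2 : D ℂ K g = δ ^ k • D ℂ K (c / b₁ ^ k) + (c / b₁ ^ k) • D ℂ K (δ ^ k) := by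
      rw [hg, Derivation.leibniz]
    have h3 : δ ^ (j + 1 + k) • D ℂ K (c / b₁ ^ k) =
        δ ^ j • (δ • D ℂ K g - ((k : K) * g) • D ℂ K δ) := by
      rw [h2, Derivation.leibniz_pow, hg]
      generalize D ℂ K (c / b₁ ^ k) = ω
      generalize c / b₁ ^ k = w
      rcases Nat.eq_zero_or_pos k with hk | hk
      · subst hk
        simp only [Nat.cast_zero, zero_mul, zero_smul, sub_zero, smul_zero, add_zero, pow_zero,
          one_smul]
        rw [smul_smul, ← pow_succ]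
      · obtain ⟨k', rfl⟩ : ∃ k', k = k' + 1 := ⟨k - 1, by omega⟩
        rw [Nat.add_sub_cancel]
        module
    rw [h3]
    apply b3_reg_smul (by rw [map_pow]; exact pow_le_one' hδ1 _)
    refine sub_mem (b3_reg_D hδ1 hg1) (b3_reg_D ?_ hδ1)
    rw [map_mul]
    exact mul_le_one' (b3_natCast_le u k) hg1

end Pool.Agent.Lib.MP_410da7_agA
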