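import Pool.Agent.Lib.MP_410da7_agA.SpecA

/-!
# MP_410da7_ag, smooth affine varieties (C46): B4, the affine ring of the sections above the threshold
-/

set_option autoImplicit false

namespace Pool.Agent.Lib.MP_410da7_agA

open KaehlerDifferential WithZero

namespace b4Aux

variable {K : Type} [Field K] [Algebra ℂ K] {n N : ℕ} {Ψ : Ω[K⁄ℂ] [⋀^Fin n]→ₗ[K] K}
  {x : Fin N → K} {m₁ e₁ : ℕ} {b₁ : K}

theorem pow_mem_sec (ha1 : A1Stmt) (hb : b₁ ∈ Sec Ψ x m₁ e₁) (k : ℕ) :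
    b₁ ^ k ∈ Sec Ψ x (k * m₁) (k * e₁) := by
  obtain ⟨h0, h1, hadd, hsmul, hmul, hmono, hx⟩ := ha1 K n N Ψ x
  induction k with
  | zero => rw [zero_mul, zero_mul, pow_zero]; exact h1
  | succ k ih =>
    rw [add_mul, add_mul, one_mul, one_mul, pow_succ]
    exact hmul _ _ _ _ _ ih _ hb

theorem mul_mem_sec (ha1 : A1Stmt) {k k' : ℕ} {c c' : K} (h : c ∈ Sec Ψ x (k * m₁) (k * e₁))
    (h' : c' ∈ Sec Ψ x (k' * m₁) (k' * e₁)) : c * c' ∈ Sec Ψ x ((k + k') * m₁) ((k + k') * e₁) := by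
  obtain ⟨h0, h1, hadd, hsmul, hmul, hmono, hx⟩ := ha1 K n N Ψ x
  rw [add_mul, add_mul]
  exact hmul _ _ _ _ _ h _ h'

/-- `Ratio` as a subalgebra. -/
def ratAlg (ha1 : A1Stmt) (Ψ : Ω[K⁄ℂ] [⋀^Fin n]→ₗ[K] K) (x : Fin N → K) {m₁ e₁ : ℕ} {b₁ : K}
    (hb : b₁ ∈ Sec Ψ x m₁ e₁) (hb0 : b₁ ≠ 0) : Subalgebra ℂ K where
  carrier := Ratio Ψ x m₁ e₁ b₁
  mul_mem' := by
    rintro _ _ ⟨k, c, hc, rfl⟩ ⟨k', c', hc', rfl⟩
    exact ⟨k + k', c * c', mul_mem_sec ha1 hc hc', by rw [div_mul_div_comm, pow_add]⟩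
  add_mem' := by
    obtain ⟨h0, h1, hadd, hsmul, hmul, hmono, hx⟩ := ha1 K n N Ψ x
    rintro _ _ ⟨k, c, hc, rfl⟩ ⟨k', c', hc', rfl⟩
    exact ⟨k + k', c * b₁ ^ k' + b₁ ^ k * c', hadd _ _ _ (mul_mem_sec ha1 hc (pow_mem_sec ha1 hb k'))
      _ (mul_mem_sec ha1 (pow_mem_sec ha1 hb k) hc'), by
      rw [div_add_div _ _ (pow_ne_zero k hb0) (pow_ne_zero k' hb0), pow_add]⟩
  algebraMap_mem' := by
    obtain ⟨h0, h1, hadd, hsmul, hmul, hmono, hx⟩ := ha1 K n N Ψ x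
    intro c
    refine ⟨0, c • (1 : K), ?_, ?_⟩
    · rw [zero_mul, zero_mul]
      exact hsmul _ _ _ h1 c
    · rw [pow_zero, div_one, Algebra.smul_def, mul_one]

theorem ratio_pow (ha1 : A1Stmt) (hb : b₁ ∈ Sec Ψ x m₁ e₁) (hb0 : b₁ ≠ 0) {a : K}
    (ha : a ∈ Ratio Ψ x m₁ e₁ b₁) :
    ∃ k₀ : ℕ, ∀ k, k₀ ≤ k → a * b₁ ^ k ∈ Sec Ψ x (k * m₁) (k * e₁) := by
  obtain ⟨k₀, c, hc, rfl⟩ := ha
  refine ⟨k₀, fun k hk => ?_⟩
  obtain ⟨j, rfl⟩ := Nat.exists_eq_add_of_le hk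
  have h : c / b₁ ^ k₀ * b₁ ^ (k₀ + j) = c * b₁ ^ j := by
    rw [pow_add, ← mul_assoc, div_mul_cancel₀ _ (pow_ne_zero _ hb0)]
  rw [h]
  exact mul_mem_sec ha1 hc (pow_mem_sec ha1 hb j)

end b4Aux

open b4Aux in
theorem b4 (ha1 : A1Stmt) (ha3 : A3Stmt) : B4Stmt := by
  intro K _ _ n N Ψ x m₀ e₀ m₁ e₁ a₀ hS hT b₁ hb hb0
  obtain ⟨h0, h1, hadd, hsmul, hmul, hmono, hx⟩ := ha1 K n N Ψ x
  refine ⟨ratAlg ha1 Ψ x hb hb0, rfl, ?_, ?_, ?_⟩
  · rintro f ⟨p, hp, hpf⟩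
    rw [Polynomial.eval₂_eq_sum_range, Finset.sum_range_succ, hp.coeff_natDegree, map_one,
      one_mul] at hpf
    have hd : 1 ≤ p.natDegree := by
      by_contra hd
      have hd0 : p.natDegree = 0 := by omega
      rw [hd0, Finset.range_zero, Finset.sum_empty, pow_zero, zero_add] at hpf
      exact one_ne_zero hpf
    have hch : ∀ i : ℕ, ∃ k₀ : ℕ, ∀ k, k₀ ≤ k →
        (algebraMap (ratAlg ha1 Ψ x hb hb0) K (p.coeff i)) * b₁ ^ k ∈ Sec Ψ x (k * m₁) (k * e₁) :=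
      fun i => ratio_pow ha1 hb hb0 (p.coeff i).2
    choose k₀ hk₀ using hch
    set k : ℕ := ∑ i ∈ Finset.range p.natDegree, k₀ i with hk
    have hle : ∀ i, i < p.natDegree → k₀ i ≤ (p.natDegree - i) * k := by
      intro i hi
      have h2 : k₀ i ≤ k := Finset.single_le_sum (f := k₀) (fun _ _ => Nat.zero_le _)
        (Finset.mem_range.2 hi)
      have h3 : 1 * k ≤ (p.natDegree - i) * k := Nat.mul_le_mul_right _ (by omega)
      omega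
    have hmain : f * b₁ ^ k ∈ Sec Ψ x (k * m₁) (k * e₁) := by
      refine ha3 K n N Ψ x (k * m₁) (k * e₁) p.natDegree (f * b₁ ^ k)
        (fun i => (-1 : ℂ) • (algebraMap (ratAlg ha1 Ψ x hb hb0) K (p.coeff i) *
          b₁ ^ ((p.natDegree - (i : ℕ)) * k))) hd ?_ ?_
      · intro i
        rw [← mul_assoc, ← mul_assoc]
        exact hsmul _ _ _ (hk₀ i _ (hle i i.2)) _
      · rw [mul_pow, eq_neg_of_add_eq_zero_right hpf, Finset.sum_range, neg_mul, Finset.sum_mul,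
          ← Finset.sum_neg_distrib]
        refine Finset.sum_congr rfl fun i _ => ?_
        have h4 : (b₁ ^ k) ^ p.natDegree = b₁ ^ ((p.natDegree - (i : ℕ)) * k) * (b₁ ^ k) ^ (i : ℕ) := by
          rw [← pow_mul, ← pow_mul, ← pow_add]
          congr 1
          have h5 := i.2
          rw [mul_comm k, mul_comm k, ← add_mul]
          congr 1
          omega
        rw [h4, neg_smul, one_smul, mul_pow]
        ring
    exact ⟨k, f * b₁ ^ k, hmain, (mul_div_cancel_right₀ _ (pow_ne_zero _ hb0)).symm⟩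
  · rw [eq_top_iff, ← hS.gen, IntermediateField.adjoin_le_iff]
    rintro _ ⟨l, rfl⟩
    obtain ⟨c₀, hc₀, hc₀0, hl⟩ := hT.coord
    have hmem : ∀ c ∈ Sec Ψ x m₁ e₁, c / b₁ ∈ IntermediateField.adjoin ℂ
        ((ratAlg ha1 Ψ x hb hb0 : Subalgebra ℂ K) : Set K) := fun c hc =>
      IntermediateField.subset_adjoin _ _ ⟨1, c, by rw [one_mul, one_mul]; exact hc, by rw [pow_one]⟩
    have h2 := div_mem (hmem _ (hl l)) (hmem _ hc₀)
    rw [div_div_div_cancel_right₀ hb0, mul_div_cancel_right₀ _ hc₀0] at h2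
    exact h2
  · rintro v hv hmax _ ⟨k, c, hc, rfl⟩
    rw [map_div₀, map_pow]
    have hvb : v b₁ ^ k ≠ 0 := pow_ne_zero _ ((Valuation.ne_zero_iff v).2 hb0)
    exact (div_le_one₀ (zero_lt_iff.2 hvb)).2 (hT.int v hv b₁ hb hmax k c hc)

end Pool.Agent.Lib.MP_410da7_agA
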