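import Pool.Agent.Lib.MP_410da7_agA.SpecA

/-!
# C46, B5: if the section `a₀` has a zero at `v`, so has every section of degree `(m₁, e₁)`
-/

set_option autoImplicit false

namespace Pool.Agent.Lib.MP_410da7_agA

open MvPolynomial KaehlerDifferential WithZero Module

section

variable {K : Type} [Field K] [Algebra ℂ K] {n N : ℕ} {Ψ : Ω[K⁄ℂ] [⋀^Fin n]→ₗ[K] K}
  {x : Fin N → K}

theorem b5_secPow (hA1 : A1Stmt) {m e : ℕ} {F : K} (hF : F ∈ Sec Ψ x m e) (k : ℕ) :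
    F ^ k ∈ Sec Ψ x (k * m) (k * e) := by
  obtain ⟨-, h1, -, -, hmul, -, -⟩ := hA1 K n N Ψ x
  induction k with
  | zero => simpa using h1
  | succ k ih =>
    rw [pow_succ, Nat.succ_mul, Nat.succ_mul]
    exact hmul _ _ _ _ _ ih _ hF

omit [Algebra ℂ K] in
theorem b5_one_le_size (v : Valuation K ℤᵐ⁰) : 1 ≤ size x v := le_sup_right

theorem b5_triv_smul_le {v : Valuation K ℤᵐ⁰} (hv : Triv v) (c : ℂ) (f : K) : v (c • f) ≤ v f := by
  rw [Algebra.smul_def, map_mul]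
  by_cases hc : c = 0
  · rw [hc, map_zero, map_zero, zero_mul]; exact zero_le
  · rw [hv c hc, one_mul]

end

theorem b5 (hA1 : A1Stmt) : B5Stmt := by
  intro K _ _ n N Ψ x m₀ e₀ m₁ e₁ a₀ hT v hv hQ hnz b hb
  have hm0 : m₀ ≠ 0 := by have := hT.m0; omega
  rw [NoZero] at hnz
  push Not at hnz
  obtain ⟨θ₀, hθ₀, hlt⟩ := hnz
  have hs0 : size x v ≠ 0 := fun h => by
    have := b5_one_le_size (x := x) v
    rw [h] at this
    exact absurd this (by simp)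
  have hΨ0 : v (Ψ θ₀) ≠ 0 := by
    intro h
    rw [h, zero_pow hm0, mul_zero] at hlt
    exact not_lt_zero hlt
  have key : ∀ f ∈ Submodule.span ℂ
      {f : K | ∃ m' e' m'' e'' : ℕ, 1 ≤ m' ∧ m' * e₀ = e' * m₀ ∧ m' + m'' = m₁ ∧ e' + e'' = e₁ ∧
        ∃ a ∈ Sec Ψ x m' e', ∃ c ∈ Sec Ψ x m'' e'', f = a * c},
      ∃ θ : Fin n → Ω[K⁄ℂ], Frame x v θ ∧ v (Ψ θ) ≠ 0 ∧ v f < size x v ^ e₁ * v (Ψ θ) ^ m₁ := by
    intro f hf
    induction hf using Submodule.span_induction with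
    | zero =>
      refine ⟨θ₀, hθ₀, hΨ0, ?_⟩
      rw [map_zero]
      exact zero_lt_iff.mpr (mul_ne_zero (pow_ne_zero _ hs0) (pow_ne_zero _ hΨ0))
    | add f g _ _ hf hg =>
      obtain ⟨θ, hθ, h0, h1⟩ := hf
      obtain ⟨θ', hθ', h0', h1'⟩ := hg
      rcases le_total (v (Ψ θ)) (v (Ψ θ')) with hle | hle
      · refine ⟨θ', hθ', h0', ?_⟩
        refine lt_of_le_of_lt (v.map_add f g) (max_lt (lt_of_lt_of_le h1 ?_) h1')
        exact mul_le_mul_right (pow_le_pow_left' hle _) _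
      · refine ⟨θ, hθ, h0, ?_⟩
        refine lt_of_le_of_lt (v.map_add f g) (max_lt h1 (lt_of_lt_of_le h1' ?_))
        exact mul_le_mul_right (pow_le_pow_left' hle _) _
    | smul c f _ hf =>
      obtain ⟨θ, hθ, h0, h1⟩ := hf
      exact ⟨θ, hθ, h0, lt_of_le_of_lt (b5_triv_smul_le hv c f) h1⟩
    | mem f hf =>
      obtain ⟨m', e', m'', e'', hm', hsl, hm, he, a, ha, c, hc, rfl⟩ := hf
      by_cases ha0 : a = 0
      · refine ⟨θ₀, hθ₀, hΨ0, ?_⟩
        rw [ha0, zero_mul, map_zero]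
        exact zero_lt_iff.mpr (mul_ne_zero (pow_ne_zero _ hs0) (pow_ne_zero _ hΨ0))
      by_cases hc0 : c = 0
      · refine ⟨θ₀, hθ₀, hΨ0, ?_⟩
        rw [hc0, mul_zero, map_zero]
        exact zero_lt_iff.mpr (mul_ne_zero (pow_ne_zero _ hs0) (pow_ne_zero _ hΨ0))
      have hq : a ^ m₀ / a₀ ^ m' ∈ Qset Ψ x m₀ e₀ := by
        refine ⟨m₀ * m', m₀ * e', by rw [mul_assoc, hsl]; ring, a ^ m₀, b5_secPow hA1 ha m₀, a₀ ^ m',
          ?_, pow_ne_zero _ hT.ne, rfl⟩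
        have := b5_secPow hA1 hT.mem m'
        rw [hsl] at this
        rwa [mul_comm m₀ m', mul_comm m₀ e']
      have hva : v a ^ m₀ = v a₀ ^ m' := by
        have h1 := hQ _ hq (div_ne_zero (pow_ne_zero _ ha0) (pow_ne_zero _ hT.ne))
        rw [map_div₀, map_pow, map_pow, div_eq_one_iff_eq] at h1
        · exact h1
        · exact pow_ne_zero _ ((Valuation.ne_zero_iff _).mpr hT.ne)
      have hva' : v a < size x v ^ e' * v (Ψ θ₀) ^ m' := by
        rw [← pow_lt_pow_iff_left₀ zero_le zero_le hm0, hva]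
        have h2 : (size x v ^ e' * v (Ψ θ₀) ^ m') ^ m₀ =
            (size x v ^ e₀ * v (Ψ θ₀) ^ m₀) ^ m' := by
          rw [mul_pow, mul_pow, ← pow_mul, ← pow_mul, ← pow_mul, ← pow_mul, ← hsl, mul_comm m' e₀,
            mul_comm m' m₀]
        rw [h2]
        exact pow_lt_pow_left₀ hlt zero_le (by omega)
      obtain ⟨θc, hθc, hvc⟩ := hc v hv
      have hvc0 : v c ≠ 0 := (Valuation.ne_zero_iff _).mpr hc0
      -- the better frame
      obtain ⟨θ', hθ', h0', hle1, hle2⟩ : ∃ θ' : Fin n → Ω[K⁄ℂ], Frame x v θ' ∧ v (Ψ θ') ≠ 0 ∧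
          v (Ψ θ₀) ≤ v (Ψ θ') ∧ v (Ψ θc) ≤ v (Ψ θ') := by
        rcases le_total (v (Ψ θ₀)) (v (Ψ θc)) with hle | hle
        · exact ⟨θc, hθc, fun h => hΨ0 (le_zero_iff.mp (h ▸ hle)), hle, le_rfl⟩
        · exact ⟨θ₀, hθ₀, hΨ0, le_rfl, hle⟩
      refine ⟨θ', hθ', h0', ?_⟩
      rw [map_mul]
      calc v a * v c < (size x v ^ e' * v (Ψ θ₀) ^ m') * v c :=
            mul_lt_mul_of_pos_right hva' (zero_lt_iff.mpr hvc0)
        _ ≤ (size x v ^ e' * v (Ψ θ') ^ m') * (size x v ^ e'' * v (Ψ θ') ^ m'') := by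
            refine mul_le_mul' (mul_le_mul_right (pow_le_pow_left' hle1 _) _)
              (hvc.trans (mul_le_mul_right (pow_le_pow_left' hle2 _) _))
        _ = size x v ^ e₁ * v (Ψ θ') ^ m₁ := by
            rw [← hm, ← he, pow_add, pow_add]
            exact mul_mul_mul_comm _ _ _ _
  obtain ⟨θ, hθ, -, h⟩ := key b (hT.split b hb)
  exact ⟨θ, hθ, h⟩

end Pool.Agent.Lib.MP_410da7_agA
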