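import Pool.Agent.Lib.MP_410da7_agA.SpecF

/-!
# MP_410da7_ag, smooth affine varieties (C46): the certificate

The interface between block D (which produces it in characteristic zero) and the blocks E, F, G
(which consume it). Everything is a finite list of identities over a pair of fields `k ⊆ Λ`, so that
it can be specialized to positive characteristic.
-/

set_option autoImplicit false

namespace Pool.Agent.Lib.MP_410da7_agA

open MvPolynomial

section

variable (k : Type) {Λ : Type} [Field k] [Field Λ] [Algebra k Λ]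

/-- `c` is integral over `k[z]` (regular at all the places where `z` is regular). -/
def RegFin (z c : Λ) : Prop :=
  ∃ G : Polynomial (Polynomial k), G.Monic ∧
    G.eval₂ (Polynomial.aeval z : Polynomial k →ₐ[k] Λ).toRingHom c = 0

/-- `c` is integral over the localization of `k[1/z]` at `(1/z)` (regular at all the places where `z`
has a pole): it satisfies a polynomial equation over `k[1/z]` whose leading coefficient does not vanish
at `1/z = 0`. -/
def RegInf (z c : Λ) : Prop :=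
  ∃ G : Polynomial (Polynomial k), G.leadingCoeff.coeff 0 ≠ 0 ∧
    G.eval₂ (Polynomial.aeval z⁻¹ : Polynomial k →ₐ[k] Λ).toRingHom c = 0

end

/-- The function which compares, at infinity, the form with coefficient `α` with the generator
of the log canonical bundle: `α Δ^{m₀} z^{(n+1-r(d-1)) m₀} (a(y)/z^e)^{m₀} / x^{e₀}`. -/
noncomputable def tau {k Λ : Type} [Field k] [Field Λ] [Algebra k Λ] {M κ r d : ℕ}
    (S : System k M κ r d) (n m₀ e₀ : ℕ) (y : Fin (M + 1) → Λ) (b₀ : Fin (M + 1)) (α : Λ)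
    (T : LogPoly S.F b₀) (J : Fin r → Fin κ) (x : Λ) : Λ :=
  α * minor S.F S.I₀ y J ^ m₀ * y b₀ ^ (((n : ℤ) + 1 - r * ((d : ℤ) - 1)) * m₀) *
    (aeval y T.a / y b₀ ^ T.e) ^ m₀ / x ^ e₀

/-- The local data at the places at infinity, attached to the function `ε`: wherever `ε` is a unit (at
a place at infinity), `χ(y)/z^{e₁}` is a unit, `tau` has no zero, `ζ^lam z` has no pole
(`ζ = a(y)/z^e`), and `z/x^{E₀}` has no pole. -/
structure InfData {k Λ : Type} [Field k] [Field Λ] [Algebra k Λ] {M κ r d : ℕ}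
    (S : System k M κ r d) (n m₀ e₀ E₀ : ℕ) (y : Fin (M + 1) → Λ) (b₀ : Fin (M + 1)) (α : Λ)
    (ε : Λ) (T : LogPoly S.F b₀) (J : Fin r → Fin κ) (x : Λ) : Prop where
  x0 : x ≠ 0
  χ0 : aeval y T.χ ≠ 0
  a0 : aeval y T.a ≠ 0
  J0 : minor S.F S.I₀ y J ≠ 0
  ε_reg : RegInf k (y b₀) ε
  χ_reg : RegInf k (y b₀) (ε / (aeval y T.χ / y b₀ ^ T.e₁))
  τ_reg : RegInf k (y b₀) (ε / tau S n m₀ e₀ y b₀ α T J x)
  ζ_reg : RegInf k (y b₀) (ε * ((aeval y T.a / y b₀ ^ T.e) ^ T.lam * y b₀))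
  x_reg : RegInf k (y b₀) (ε * (y b₀ / x ^ E₀))

/-- THE CERTIFICATE. `z = y b₀`; `α` is the coefficient of the form with respect to
`(dy_{I₀ᶜ})^{m₀}`. Finite places: `∑_J c_J α Δ_J^{m₀} = 1` with `c_J` regular at the finite places.
Places at infinity: a partition of unity `∑ ε_j = 1` with local data. -/
structure Cert {k Λ : Type} [Field k] [Field Λ] [Algebra k Λ] {M κ r d : ℕ}
    (S : System k M κ r d) (n m₀ e₀ E₀ : ℕ) (y : Fin (M + 1) → Λ) (b₀ : Fin (M + 1)) (α : Λ) :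
    Prop where
  dimM : M = n + r
  y0 : y 0 = 1
  yF : ∀ j, aeval y (S.F j) = 0
  g0 : aeval y S.g ≠ 0
  J0 : minor S.F S.I₀ y S.J₀ ≠ 0
  trans : Transcendental k (y b₀)
  fin : FiniteDimensional (IntermediateField.adjoin k {y b₀}) Λ
  y_fin : ∀ l, RegFin k (y b₀) (y l)
  y_inf : ∀ l, RegInf k (y b₀) (y l / y b₀)
  m0 : 1 ≤ m₀
  e0 : 1 ≤ e₀
  α0 : α ≠ 0
  c_fin : ∃ c : (Fin r → Fin κ) → Λ, (∀ J, RegFin k (y b₀) (c J)) ∧
    ∑ J, c J * (α * minor S.F S.I₀ y J ^ m₀) = 1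
  c_inf : ∃ (s : ℕ) (ε : Fin s → Λ), ∑ j, ε j = 1 ∧
    ∀ j, ∃ (T : LogPoly S.F b₀) (J : Fin r → Fin κ) (x : Λ),
      InfData S n m₀ e₀ E₀ y b₀ α (ε j) T J x

/-- EFG, THE END THEOREM OF THE BLOCKS E, F, G: a certificate in characteristic zero gives, for
`B` with `(n+1) E₀ m₀ < (B+1) e₀`, a nonconstant polynomial curve of degree at most `B` through the
generic point `y`, over an extension field. -/
def EFGStmt : Prop :=
  ∀ (L Λ : Type) [Field L] [CharZero L] [Field Λ] [Algebra L Λ] (M κ r d n m₀ e₀ E₀ B : ℕ)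
    (S : System L M κ r d) (y : Fin (M + 1) → Λ) (b₀ : Fin (M + 1)) (α : Λ),
    Cert S n m₀ e₀ E₀ y b₀ α → (n + 1) * E₀ * m₀ < (B + 1) * e₀ →
    ∃ (Λ' : Type) (_ : Field Λ') (_ : Algebra L Λ') (_ : Algebra Λ Λ') (_ : IsScalarTower L Λ Λ')
      (Yp : Fin (M + 1) → Polynomial Λ'),
      (∀ j, aeval Yp (S.F j) = 0) ∧ Yp 0 = 1 ∧ (∀ l, (Yp l).natDegree ≤ B) ∧
      (∃ l, 0 < (Yp l).natDegree) ∧ ∀ l, (Yp l).coeff 0 = algebraMap Λ Λ' (y l)

end Pool.Agent.Lib.MP_410da7_agA
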