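import Pool.Agent.Lib.MP_410da7_agA.SpecD

/-!
# MP_410da7_ag, smooth affine varieties (C46), D10: scaling of `coneDet`
-/

set_option autoImplicit false

namespace Pool.Agent.Lib.MP_410da7_agA

open MvPolynomial KaehlerDifferential Module

namespace d10Aux

variable {K M : Type} [Field K] [AddCommGroup M] [Module K M] {n : ℕ}

/-- The wedge product of the first coordinate on `K × M` (times `c`) and an alternating form. -/
noncomputable def wed (c : K) (Φ : (K × M) [⋀^Fin n]→ₗ[K] K) : (K × M) [⋀^Fin (n + 1)]→ₗ[K] K :=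
  AlternatingMap.alternatizeUncurryFin
    ((c • LinearMap.fst K K M).smulRight Φ)

theorem wed_apply (c : K) (Φ : (K × M) [⋀^Fin n]→ₗ[K] K) (v : Fin (n + 1) → K × M) :
    wed c Φ v = ∑ i : Fin (n + 1), (-1) ^ (i : ℕ) * (c * (v i).1) *
      Φ (fun a => v (i.succAbove a)) := by
  unfold wed
  rw [AlternatingMap.alternatizeUncurryFin_apply]
  refine Finset.sum_congr rfl fun i _ => ?_
  have : i.removeNth v = fun a => v (i.succAbove a) := rfl
  rw [this]
  simp [mul_assoc]

/-- The map `(a, ω) ↦ g ω + a u`. -/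
def lin (g : K) (u : M) : K × M →ₗ[K] M :=
  g • LinearMap.snd K K M + (LinearMap.fst K K M).smulRight u

theorem lin_apply (g : K) (u : M) (a : K) (ω : M) : lin g u (a, ω) = g • ω + a • u := by
  simp [lin]

theorem wed_lin (g : K) (u : M) (Ψ : M [⋀^Fin n]→ₗ[K] K) :
    wed g (Ψ.compLinearMap (lin g u)) =
      g ^ (n + 1) • wed 1 (Ψ.compLinearMap (LinearMap.snd K K M)) := by
  classical
  set B : Basis (Unit ⊕ Basis.ofVectorSpaceIndex K M) K (K × M) :=
    (Basis.singleton Unit K).prod (Basis.ofVectorSpace K M) with hB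
  have hinl : ∀ t : Unit, B (Sum.inl t) = (1, 0) := by
    intro t
    simp [hB]
  have hinr : ∀ t, B (Sum.inr t) = (0, Basis.ofVectorSpace K M t) := by
    intro t
    simp [hB]
  refine Basis.ext_alternating B fun v hv => ?_
  rw [AlternatingMap.smul_apply, wed_apply, wed_apply, smul_eq_mul]
  by_cases h : ∃ i t, v i = Sum.inl t
  · obtain ⟨i, t, ht⟩ := h
    have h0 : ∀ j, j ≠ i → ∃ s, v j = Sum.inr s := by
      intro j hj
      rcases hvj : v j with s | s
      · exact absurd (hv (hvj.trans (by rw [ht]))) hj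
      · exact ⟨s, rfl⟩
    have h1 : ∀ j, j ≠ i → (B (v j)).1 = 0 := by
      intro j hj
      obtain ⟨s, hs⟩ := h0 j hj
      rw [hs, hinr]
    rw [Finset.sum_eq_single i (fun j _ hj => by rw [h1 j hj]; ring)
      (fun hi => absurd (Finset.mem_univ i) hi),
      Finset.sum_eq_single i (fun j _ hj => by rw [h1 j hj]; ring)
      (fun hi => absurd (Finset.mem_univ i) hi), ht, hinl]
    have h2 : (fun a => lin g u (B (v (i.succAbove a)))) =
        fun a => g • LinearMap.snd K K M (B (v (i.succAbove a))) := by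
      funext a
      obtain ⟨s, hs⟩ := h0 _ (Fin.succAbove_ne i a)
      rw [hs, hinr, lin_apply, zero_smul, add_zero]
      rfl
    have h3 : (Ψ.compLinearMap (lin g u)) (fun a => B (v (i.succAbove a))) =
        g ^ n * (Ψ.compLinearMap (LinearMap.snd K K M)) (fun a => B (v (i.succAbove a))) := by
      rw [AlternatingMap.compLinearMap_apply, AlternatingMap.compLinearMap_apply]
      change Ψ (fun a => lin g u (B (v (i.succAbove a)))) = _
      rw [h2]
      have := Ψ.toMultilinearMap.map_smul_univ (fun _ => g)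
        (fun a => LinearMap.snd K K M (B (v (i.succAbove a))))
      simp only [Finset.prod_const, Finset.card_univ, Fintype.card_fin, smul_eq_mul] at this
      exact this
    rw [h3, pow_succ]
    ring
  · push Not at h
    have h1 : ∀ j, (B (v j)).1 = 0 := by
      intro j
      rcases hvj : v j with s | s
      · exact absurd hvj (h j s)
      · rw [hinr]
    simp [h1]

end d10Aux

theorem d10 : D10Stmt := by
  intro K _ _ n M Ψ Y S
  constructor
  · intro g
    have h := congrArg (fun A : (K × Ω[K⁄ℂ]) [⋀^Fin (n + 1)]→ₗ[K] K =>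
      A (fun i => (Y (S i), D ℂ K (Y (S i))))) (d10Aux.wed_lin g (D ℂ K g) Ψ)
    simp only [AlternatingMap.smul_apply, d10Aux.wed_apply, smul_eq_mul] at h
    unfold coneDet
    calc ∑ i : Fin (n + 1), (-1) ^ (i : ℕ) * (g * Y (S i)) *
          Ψ (fun a => D ℂ K (g * Y (S (i.succAbove a))))
        = ∑ i : Fin (n + 1), (-1) ^ (i : ℕ) * (g * Y (S i)) *
          (Ψ.compLinearMap (d10Aux.lin g (D ℂ K g)))
            (fun a => (Y (S (i.succAbove a)), D ℂ K (Y (S (i.succAbove a))))) := by
          refine Finset.sum_congr rfl fun i _ => ?_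
          rw [AlternatingMap.compLinearMap_apply]
          congr 2
          funext a
          rw [d10Aux.lin_apply, Derivation.leibniz]
      _ = g ^ (n + 1) * ∑ i : Fin (n + 1), (-1) ^ (i : ℕ) * (1 * Y (S i)) *
          (Ψ.compLinearMap (LinearMap.snd K K _))
            (fun a => (Y (S (i.succAbove a)), D ℂ K (Y (S (i.succAbove a))))) := h
      _ = _ := by
          congr 1
          refine Finset.sum_congr rfl fun i _ => ?_
          rw [AlternatingMap.compLinearMap_apply, one_mul]
          rfl
  · intro h1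
    unfold coneDet
    rw [Fin.sum_univ_succ, Finset.sum_eq_zero, add_zero, h1]
    · simp only [Fin.val_zero, pow_zero, one_mul, Fin.succAbove_zero]
    · intro i _
      obtain ⟨m, rfl⟩ : ∃ m, n = m + 1 := ⟨n - 1, by have := i.pos; omega⟩
      have h2 : D ℂ K (Y (S ((i.succ).succAbove 0))) = 0 := by
        rw [Fin.succ_succAbove_zero, h1]
        exact Derivation.map_one_eq_zero _
      have h3 : Ψ (fun a => D ℂ K (Y (S ((i.succ).succAbove a)))) = 0 :=
        Ψ.map_coord_zero (0 : Fin (m + 1)) h2
      rw [h3, mul_zero]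

end Pool.Agent.Lib.MP_410da7_agA
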