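import Mathlib

/-!
# MP_410da7_ag, smooth affine varieties: definitions for the blocks F and G

Blocks F and G: curves on a variety over an algebraically closed field `k` (of any characteristic),
dimension count and degeneration.
-/

set_option autoImplicit false

namespace Pool.Agent.Lib.MP_410da7_agA

open MvPolynomial

/-- A smooth projective curve over `k` with function field `Λ`: its points, and the expansions of
the rational functions at the points (with respect to chosen uniformizers); principal divisors are
finite and of degree zero. -/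
structure Curve (k Λ : Type) [Field k] [Field Λ] [Algebra k Λ] where
  /-- the points -/
  pt : Type
  /-- the expansion at a point -/
  exp : pt → Λ →+* LaurentSeries k
  exp_alg : ∀ w (c : k), exp w (algebraMap k Λ c) = HahnSeries.C c
  finite : ∀ y : Λ, y ≠ 0 → {w | (exp w y).order ≠ 0}.Finite
  sum : ∀ y : Λ, y ≠ 0 → ∑ᶠ w, (exp w y).order = 0

variable {k Λ : Type} [Field k] [Field Λ] [Algebra k Λ]

/-- The order of a rational function at a point (`0` for the zero function). -/
noncomputable def Curve.ord (C : Curve k Λ) (w : C.pt) (y : Λ) : ℤ := (C.exp w y).order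

/-- The Riemann-Roch space `L(D)`: the functions with `ord_w y ≥ - D w` at all points `w`. -/
def Curve.L (C : Curve k Λ) (D : C.pt → ℤ) : Submodule k Λ where
  carrier := {y | ∀ w, ∀ i : ℤ, i < -D w → (C.exp w y).coeff i = 0}
  add_mem' := by
    intro a b ha hb w i hi
    rw [map_add, HahnSeries.coeff_add, ha w i hi, hb w i hi, add_zero]
  zero_mem' := by
    intro w i _
    rw [map_zero, HahnSeries.coeff_zero]
  smul_mem' := by
    intro c y hy w i hi
    rw [Algebra.smul_def, map_mul, C.exp_alg, HahnSeries.C_mul_eq_smul, HahnSeries.coeff_smul, hy w i hi, smul_zero]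

/-- The divisor `c_1 + ... + c_b`. -/
noncomputable def ptDiv {α : Type} {b : ℕ} (c : Fin b → α) : α → ℤ := by
  classical
  exact fun w => ∑ i, if c i = w then 1 else 0

/-- The ideal of the origin in `k[a_v : v ∈ V]`. -/
noncomputable def mx (V k : Type) [Field k] : Ideal (MvPolynomial V k) :=
  RingHom.ker (constantCoeff : MvPolynomial V k →+* k)

/-- The extension of an ideal of `k[a]` to `Λ[a]`. -/
noncomputable def ext {V : Type} (Λ : Type) {k : Type} [Field k] [Field Λ] [Algebra k Λ]
    (J : Ideal (MvPolynomial V k)) : Ideal (MvPolynomial V Λ) :=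
  J.map (MvPolynomial.map (algebraMap k Λ))

/-- The generic point `Y_l + ∑_j ω_j a_{l,j}` (coordinates in `Λ[a]`) near the point `Y`. -/
noncomputable def hpt {N D : ℕ} (Y : Fin N → Λ) (ω : Fin D → Λ) :
    Fin N → MvPolynomial (Fin N × Fin D) Λ :=
  fun l => C (Y l) + ∑ j, C (ω j) * X (l, j)

/-- The value of a polynomial at the generic point near `Y`. -/
noncomputable def hval {N D : ℕ} (Y : Fin N → Λ) (ω : Fin D → Λ) (G : MvPolynomial (Fin N) k) :
    MvPolynomial (Fin N × Fin D) Λ :=
  aeval (hpt Y ω) G

/-- The coefficientwise image of a polynomial with coefficients in `Λ` under a `k`-linear form. -/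
noncomputable def push {V : Type} (φ : Λ →ₗ[k] k) (p : MvPolynomial V Λ) : MvPolynomial V k :=
  ∑ m ∈ p.support, monomial m (φ (p.coeff m))

/-- The `κ × r` matrix of the partial derivatives of the `F j` with respect to the variables
`I l`, at the point `Y`. -/
noncomputable def jac {N κ r : ℕ} (F : Fin κ → MvPolynomial (Fin N) k) (I : Fin r → Fin N)
    (Y : Fin N → Λ) (j : Fin κ) (l : Fin r) : Λ :=
  aeval Y (pderiv (I l) (F j))

/-- The `r × r` minor of `jac` with rows `J`. -/
noncomputable def minor {N κ r : ℕ} (F : Fin κ → MvPolynomial (Fin N) k) (I : Fin r → Fin N)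
    (Y : Fin N → Λ) (J : Fin r → Fin κ) : Λ :=
  (Matrix.of fun i l => jac F I Y (J i) l).det

end Pool.Agent.Lib.MP_410da7_agA
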