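import Pool.Agent.Lib.MP_410da7_agA.SpecF

/-!
# C46, F5: Krull and Nakayama
-/

set_option autoImplicit false

namespace Pool.Agent.Lib.MP_410da7_agA

open MvPolynomial

namespace f5Aux

/-- set the variables in `S` to zero -/
noncomputable def zeroVars (k : Type*) {ι : Type*} [Field k] [DecidableEq ι] (S : Finset ι) :
    MvPolynomial ι k →ₐ[k] MvPolynomial ι k :=
  aeval (fun j => if j ∈ S then 0 else X j)

lemma card_le_height (k : Type*) {ι : Type*} [Field k] [DecidableEq ι] (S : Finset ι) :
    (S.card : ℕ∞) ≤ (RingHom.ker (zeroVars k S)).height := by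
  induction S using Finset.induction_on with
  | empty => simp
  | insert a S ha ih =>
    have hlt : RingHom.ker (zeroVars k S) < RingHom.ker (zeroVars k (insert a S)) := by
      refine lt_of_le_of_ne ?_ ?_
      · intro p hp
        rw [RingHom.mem_ker] at hp ⊢
        have hcomp : (zeroVars k {a}).comp (zeroVars k S) =
            zeroVars k (insert a S) := by
          ext j : 1
          simp only [zeroVars, AlgHom.comp_apply, aeval_X]
          by_cases hj : j ∈ S
          · simp [hj]
          · by_cases hja : j = a
            · subst hja; simp [hj]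
            · simp [hj, hja]
        rw [← hcomp, AlgHom.comp_apply, hp, map_zero]
      · intro heq
        have h1 : (X a : MvPolynomial ι k) ∈ RingHom.ker (zeroVars k (insert a S)) := by
          rw [RingHom.mem_ker]
          simp [zeroVars]
        rw [← heq, RingHom.mem_ker] at h1
        simp [zeroVars, ha] at h1
    have h1 : (RingHom.ker (zeroVars k S)).IsPrime := RingHom.ker_isPrime _
    have h2 : (RingHom.ker (zeroVars k (insert a S))).IsPrime := RingHom.ker_isPrime _
    have h3 := Ideal.height_add_one_le_of_lt_of_isPrime hlt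
    rw [Finset.card_insert_of_notMem ha, Nat.cast_add, Nat.cast_one]
    exact (add_le_add_left ih 1).trans h3

lemma mx_height {V k : Type} [Field k] [Fintype V] :
    (Fintype.card V : ℕ∞) ≤ (mx V k).height := by
  classical
  have h1 : RingHom.ker (zeroVars k (Finset.univ : Finset V)) = mx V k := by
    ext p
    rw [RingHom.mem_ker]
    have h2 : zeroVars k (Finset.univ : Finset V) p = C (constantCoeff p) := by
      unfold zeroVars
      simp only [Finset.mem_univ, if_true]
      rw [MvPolynomial.aeval_zero']
      rfl
    rw [h2, map_eq_zero_iff _ (C_injective V k)]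
    rfl
  rw [← h1]
  have h3 := card_le_height k (Finset.univ : Finset V)
  rwa [Finset.card_univ] at h3

lemma mx_prime (V k : Type) [Field k] : (mx V k).IsPrime := RingHom.ker_isPrime _

end f5Aux

theorem f5 : F5Stmt := by
  intro k V _ _ J G hG hJ hGm hcard hJG
  have hmx := f5Aux.mx_prime V k
  have hle : Ideal.span G ≤ mx V k := Ideal.span_le.mpr hGm
  obtain ⟨P, hP, hPm⟩ := Ideal.exists_minimalPrimes_le hle
  have hPp : P.IsPrime := hP.1.1
  have hGP : Ideal.span G ≤ P := hP.1.2
  refine ⟨P, hPp, hPm, ?_, ?_, fun x hx => hGP (Ideal.subset_span hx)⟩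
  · rintro rfl
    have h1 := Ideal.height_le_card_of_mem_minimalPrimes_span hG hP
    have h2 := f5Aux.mx_height (V := V) (k := k)
    have h3 : (Fintype.card V : ℕ∞) ≤ (G.ncard : ℕ∞) := h2.trans h1
    have h4 : Fintype.card V ≤ G.ncard := by exact_mod_cast h3
    omega
  · obtain ⟨s, hs, hs'⟩ := Submodule.exists_sub_one_mem_and_smul_le_of_fg_of_le_sup
      (I := mx V k) (N := Ideal.span G) (N' := J) (P := J) (IsNoetherian.noetherian J) le_rfl hJG
    intro x hx
    have h1 : s * x ∈ Ideal.span G := hs' (Submodule.smul_mem_pointwise_smul x s J hx)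
    have h2 : s * x ∈ P := hGP h1
    rcases hPp.mem_or_mem h2 with h3 | h3
    · exfalso
      have h4 : s ∈ mx V k := hPm h3
      have h5 : (1 : MvPolynomial V k) ∈ mx V k := by
        have : (1 : MvPolynomial V k) = s - (s - 1) := by ring
        rw [this]
        exact Ideal.sub_mem _ h4 hs
      exact hmx.ne_top ((Ideal.eq_top_iff_one _).mpr h5)
    · exact h3

end Pool.Agent.Lib.MP_410da7_agA
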