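import Pool.Agent.Lib.MP_410da7_agA.SpecF0

/-!
# MP_410da7_ag, C46, FF9: Riemann's inequality for the multiples of the divisor of poles of `x`
-/

set_option autoImplicit false

namespace Pool.Agent.Lib.MP_410da7_agA

open MvPolynomial Module
open IntermediateField algebraAdjoinAdjoin

namespace ff9Aux

theorem li_pow {k K : Type} [Field k] [Field K] [Algebra k K] {x : K}
    (hx : Transcendental k x) (m : ℕ) : LinearIndependent k (fun i : Fin m => x ^ (i : ℕ)) := by
  have h1 : LinearIndependent k (fun i : ℕ => x ^ i) := by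
    have h2 := (Polynomial.basisMonomials k).linearIndependent.map' (Polynomial.aeval x).toLinearMap
      (by
        rw [LinearMap.ker_eq_bot]
        exact transcendental_iff_injective.mp hx)
    have h3 : (fun i : ℕ => x ^ i) =
        ((Polynomial.aeval (R := k) x).toLinearMap ∘ (Polynomial.basisMonomials k)) := by
      funext i
      simp
    rw [h3]
    exact h2
  exact h1.comp _ Fin.val_injective

variable {k Λ : Type} [Field k] [Field Λ] [Algebra k Λ]

theorem mem_L (C : Curve k Λ) {D : C.pt → ℤ} {y : Λ} (h : ∀ w, -D w ≤ C.ord w y) : y ∈ C.L D :=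
  fun w _ hi => HahnSeries.coeff_eq_zero_of_lt_order (lt_of_lt_of_le hi (h w))

theorem ord_mul (C : Curve k Λ) (w : C.pt) {y z : Λ} (hy : y ≠ 0) (hz : z ≠ 0) :
    C.ord w (y * z) = C.ord w y + C.ord w z := by
  have h1 : C.exp w y ≠ 0 := fun h => hy ((map_eq_zero (C.exp w)).1 h)
  have h2 : C.exp w z ≠ 0 := fun h => hz ((map_eq_zero (C.exp w)).1 h)
  simp only [Curve.ord]
  rw [map_mul, HahnSeries.order_mul h1 h2]

theorem ord_pow (C : Curve k Λ) (w : C.pt) (y : Λ) (n : ℕ) :
    C.ord w (y ^ n) = n * C.ord w y := by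
  simp only [Curve.ord]
  rw [map_pow, HahnSeries.order_pow, nsmul_eq_mul]

end ff9Aux

open ff9Aux

theorem ff9 (h1 : F2Stmt) (h2 : FF6Stmt) : FF9Stmt := by
  intro k Λ _ _ _ C hC x hx
  classical
  have hd := hC.deg x hx
  obtain ⟨hxt, hfd, -⟩ := hx
  have hx0 : x ≠ 0 := by
    rintro rfl
    exact hxt isAlgebraic_zero
  have hd0 : 0 < finrank k⟮x⟯ Λ := Module.finrank_pos
  have hw : Nonempty C.pt := by
    by_contra h
    rw [not_nonempty_iff] at h
    rw [finsum_of_isEmpty] at hd
    omega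
  obtain ⟨w0⟩ := hw
  obtain ⟨s, b, hb⟩ := FiniteDimensional.exists_is_basis_integral (Algebra.adjoin k {x}) k⟮x⟯ Λ
  have hcard : Fintype.card s = finrank k⟮x⟯ Λ := (Module.finrank_eq_card_basis b).symm
  have hfin : {w | C.ord w x ≠ 0}.Finite := C.finite x hx0
  -- the bound at the poles of `x`
  obtain ⟨e, he⟩ : ∃ e : ℕ, ∀ j w, C.ord w x < 0 → -(e : ℤ) ≤ C.ord w (b j) := by
    refine ⟨∑ j, ∑ w ∈ hfin.toFinset, (C.ord w (b j)).natAbs, fun j w hw => ?_⟩
    have hwT : w ∈ hfin.toFinset := by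
      rw [Set.Finite.mem_toFinset]
      exact hw.ne
    have h3 : (C.ord w (b j)).natAbs ≤ ∑ w ∈ hfin.toFinset, (C.ord w (b j)).natAbs :=
      Finset.single_le_sum (f := fun w => (C.ord w (b j)).natAbs) (fun _ _ => Nat.zero_le _) hwT
    have h4 : ∑ w ∈ hfin.toFinset, (C.ord w (b j)).natAbs ≤
        ∑ j, ∑ w ∈ hfin.toFinset, (C.ord w (b j)).natAbs :=
      Finset.single_le_sum (f := fun j => ∑ w ∈ hfin.toFinset, (C.ord w (b j)).natAbs)
        (fun _ _ => Nat.zero_le _) (Finset.mem_univ j)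
    omega
  refine ⟨(finrank k⟮x⟯ Λ : ℤ) * e, fun m => ?_⟩
  rw [hd]
  rcases lt_or_ge m e with hme | hme
  · have h3 : (m : ℤ) * (finrank k⟮x⟯ Λ : ℤ) ≤ (finrank k⟮x⟯ Λ : ℤ) * e := by
      rw [mul_comm]
      exact mul_le_mul_of_nonneg_left (by exact_mod_cast hme.le) (by positivity)
    have h4 : (0 : ℤ) ≤ finrank k (C.L (fun w => (m : ℤ) * max 0 (-(C.ord w x)))) := by positivity
    linarith
  · obtain ⟨n, rfl⟩ := Nat.exists_eq_add_of_le hme
    have hL : FiniteDimensional k
        (C.L (fun w => ((e + n : ℕ) : ℤ) * max 0 (-(C.ord w x)))) := by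
      refine h1 k Λ C w0 _ (hfin.subset ?_)
      intro w hw
      change 0 < ((e + n : ℕ) : ℤ) * max 0 (-(C.ord w x)) at hw
      intro h0
      rw [h0] at hw
      simp at hw
    have hKx : Transcendental k (⟨x, IntermediateField.mem_adjoin_simple_self k x⟩ : k⟮x⟯) := by
      intro h
      exact hxt (h.algebraMap (A := Λ))
    have hli := linearIndependent_smul (li_pow hKx (n + 1)) b.linearIndependent
    let f : Fin (n + 1) × s → Λ := fun p => x ^ (p.1 : ℕ) * b p.2
    have hf : LinearIndependent k f := by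
      convert hli using 1
      ext p
      simp [f, Algebra.smul_def, IntermediateField.algebraMap_apply]
    have hmem : ∀ p, f p ∈ C.L (fun w => ((e + n : ℕ) : ℤ) * max 0 (-(C.ord w x))) := by
      rintro ⟨i, j⟩
      refine mem_L C fun w => ?_
      have hb0 : b j ≠ 0 := b.ne_zero j
      change _ ≤ C.ord w (x ^ (i : ℕ) * b j)
      rw [ord_mul C w (pow_ne_zero _ hx0) hb0, ord_pow]
      rcases lt_or_ge (C.ord w x) 0 with hlt | hge
      · rw [max_eq_right (by omega)]
        have h3 := he j w hlt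
        have hi : ((i : ℕ) : ℤ) ≤ n := by have := i.2; omega
        push_cast
        have h4 : (n : ℤ) * C.ord w x ≤ ((i : ℕ) : ℤ) * C.ord w x :=
          mul_le_mul_of_nonpos_right hi hlt.le
        have h5 : (e : ℤ) * C.ord w x ≤ (e : ℤ) * (-1) :=
          mul_le_mul_of_nonneg_left (by omega) (by positivity)
        nlinarith
      · rw [max_eq_left (by omega)]
        have h3 := (h2 k Λ C x (b j)).1 (hb j) w hge
        have h4 : 0 ≤ ((i : ℕ) : ℤ) * C.ord w x := mul_nonneg (by positivity) hge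
        simp only [mul_zero, neg_zero]
        omega
    let g : Fin (n + 1) × s → C.L (fun w => ((e + n : ℕ) : ℤ) * max 0 (-(C.ord w x))) :=
      fun p => ⟨f p, hmem p⟩
    have hg : LinearIndependent k g := by
      refine LinearIndependent.of_comp (Submodule.subtype _) ?_
      exact hf
    have h3 := hg.fintype_card_le_finrank
    rw [Fintype.card_prod, Fintype.card_fin, hcard] at h3
    have h4 : ((n + 1 : ℕ) : ℤ) * (finrank k⟮x⟯ Λ : ℤ) ≤
        (finrank k (C.L (fun w => ((e + n : ℕ) : ℤ) * max 0 (-(C.ord w x)))) : ℤ) := by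
      exact_mod_cast h3
    push_cast at h4 ⊢
    nlinarith

end Pool.Agent.Lib.MP_410da7_agA
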