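import Pool.Agent.Lib.MP_410da7_ag.Defs

/-!
# MP_410da7_ag: definitions for the theorem on smooth affine varieties

`R` is the coordinate ring of an affine complex variety `X` with coordinate functions
`x_1, ..., x_N` (generators of `R`), and `K` is its function field. `Xbar` is a smooth
compactification of `X` with simple normal crossings boundary `D` on which the `x_l` generate a line
bundle: `H` is the divisor `max(0, - ord x_l)` at infinity (the pull-back of the hyperplane at
infinity). The sections of `m (K + D) + e H` are described by their local behaviour at all the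
`ℤ`-valued valuations of `K/ℂ`.
-/

set_option autoImplicit false

namespace Pool.Agent.Lib.MP_410da7_agA

open MvPolynomial KaehlerDifferential WithZero
open Pool.Agent.Lib.MP_410da7_ag (regDiff logDiff)

section

variable {K : Type} [Field K] [Algebra ℂ K]

/-- `max(1, |x_1|, ..., |x_N|)` for the valuation `v`: its `e`-th power bounds the functions with
poles at most `e H`. -/
noncomputable def height {N : ℕ} (x : Fin N → K) (v : Valuation K ℤᵐ⁰) : ℤᵐ⁰ :=
  (Finset.univ.sup fun l => v (x l)) ⊔ 1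

/-- The rational `m`-canonical form `F η ^ m` (`η` the rational form of top degree with
`θ₁ ∧ ⋯ ∧ θ_n = Ψ (θ₁,…,θ_n) η` for all `θ`) is at the valuation `v` a section of `m (K + D) + e H`: it
can be written as `G (θ₁ ∧ ⋯ ∧ θ_n) ^ m` where `v G ≤ max(1, |x_1|, ..., |x_N|) ^ e` and the
differentials `θᵢ` have at most logarithmic poles at `v`, and are regular at `v` in case `v` has a
center on `X` (that is, `R` is contained in the valuation ring). For `e = 0` this is `AdmissibleAt`. -/
def SectionAt (R : Type) [CommRing R] [Algebra R K] {n N : ℕ} (Ψ : Ω[K⁄ℂ] [⋀^Fin n]→ₗ[K] K)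
    (x : Fin N → R) (m e : ℕ) (F : K) (v : Valuation K ℤᵐ⁰) : Prop :=
  ∃ (θ : Fin n → Ω[K⁄ℂ]) (G : K),
    (∀ i, θ i ∈ logDiff v) ∧ ((∀ a : R, v (algebraMap R K a) ≤ 1) → ∀ i, θ i ∈ regDiff v) ∧
    v G ≤ height (fun l => algebraMap R K (x l)) v ^ e ∧ F = G * Ψ θ ^ m

/-- `F η ^ m` is a section of `m (K + D) + e H`. -/
def IsSection (R : Type) [CommRing R] [Algebra R K] {n N : ℕ} (Ψ : Ω[K⁄ℂ] [⋀^Fin n]→ₗ[K] K)
    (x : Fin N → R) (m e : ℕ) (F : K) : Prop :=
  ∀ v : Valuation K ℤᵐ⁰, (∀ c : ℂ, c ≠ 0 → v (algebraMap ℂ K c) = 1) → SectionAt R Ψ x m e F v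

/-- The adjoint ring `⊕_{m, e ≥ 0} H⁰(Xbar, m (K + D) + e H)`, as a subring of `K[s, t]`: it is
generated by the `F s ^ m t ^ e` for the sections `F η ^ m` of `m (K + D) + e H`. -/
noncomputable def adjointRing (R : Type) [CommRing R] [Algebra R K] {n N : ℕ}
    (Ψ : Ω[K⁄ℂ] [⋀^Fin n]→ₗ[K] K) (x : Fin N → R) : Subalgebra ℂ (MvPolynomial (Fin 2) K) :=
  Algebra.adjoin ℂ {p | ∃ (m e : ℕ) (F : K), IsSection R Ψ x m e F ∧ p = C F * X 0 ^ m * X 1 ^ e}

end

end Pool.Agent.Lib.MP_410da7_agA
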