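import Pool.Agent.Lib.MP_410da7_agA.SpecD
import Pool.Agent.Lib.MP_410da7_agA.Statement
import Pool.Agent.Lib.MP_410da7_ag.DMain

/-!
# MP_410da7_ag, smooth affine varieties (C46): from `Sec` to the statement
-/

set_option autoImplicit false

namespace Pool.Agent.Lib.MP_410da7_agA

open MvPolynomial KaehlerDifferential WithZero
open Pool.Agent.Lib.MP_410da7_ag (regDiff logDiff A1Uniruled LogKodairaNegInf dim AdmissibleAt
  logKodairaNegInf_of_a1Uniruled)

section

variable {R K : Type} [CommRing R] [IsDomain R] [Algebra ℂ R] [Field K] [Algebra R K]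
  [Algebra ℂ K] [IsScalarTower ℂ R K] {n N : ℕ}

theorem cent_iff (x : Fin N → R) (hx : Algebra.adjoin ℂ (Set.range x) = ⊤)
    (v : Valuation K ℤᵐ⁰) (hv : Triv v) :
    Cent (fun l => algebraMap R K (x l)) v ↔ ∀ a : R, v (algebraMap R K a) ≤ 1 := by
  constructor
  · intro h a
    have ha : a ∈ Algebra.adjoin ℂ (Set.range x) := by rw [hx]; trivial
    induction ha using Algebra.adjoin_induction with
    | mem y hy =>
      obtain ⟨l, rfl⟩ := hy
      exact h l
    | algebraMap c =>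
      rw [← IsScalarTower.algebraMap_apply]
      rcases eq_or_ne c 0 with rfl | hc
      · rw [map_zero, map_zero]
        exact zero_le_one
      · exact le_of_eq (hv c hc)
    | add p q _ _ hp hq =>
      rw [map_add]
      exact (v.map_add _ _).trans (max_le hp hq)
    | mul p q _ _ hp hq =>
      rw [map_mul, map_mul]
      exact mul_le_one' hp hq
  · intro h l
    exact h (x l)

theorem mem_sec_iff (Ψ : Ω[K⁄ℂ] [⋀^Fin n]→ₗ[K] K) (x : Fin N → R)
    (hx : Algebra.adjoin ℂ (Set.range x) = ⊤) (m e : ℕ) (F : K) :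
    F ∈ Sec Ψ (fun l => algebraMap R K (x l)) m e ↔ IsSection R Ψ x m e F := by
  constructor
  · intro h v hv
    obtain ⟨θ, ⟨h1, h2⟩, h3⟩ := h v hv
    rcases eq_or_ne (Ψ θ) 0 with h0 | h0
    · rcases Nat.eq_zero_or_pos m with rfl | hm
      · refine ⟨θ, F, h1, fun hc => h2 ((cent_iff x hx v hv).2 hc), ?_, ?_⟩
        · rw [pow_zero, mul_one] at h3
          exact h3
        · rw [pow_zero, mul_one]
      · rw [h0, map_zero, zero_pow hm.ne', mul_zero, le_zero_iff, map_eq_zero] at h3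
        refine ⟨θ, 0, h1, fun hc => h2 ((cent_iff x hx v hv).2 hc), ?_, ?_⟩
        · rw [map_zero]
          exact zero_le
        · rw [h3, zero_mul]
    · refine ⟨θ, F / Ψ θ ^ m, h1, fun hc => h2 ((cent_iff x hx v hv).2 hc), ?_, ?_⟩
      · rw [map_div₀, map_pow]
        have h4 : 0 < v (Ψ θ) ^ m := pow_pos (zero_lt_iff.2 (by rwa [ne_eq, map_eq_zero])) m
        rw [div_le_iff₀ h4]
        exact h3
      · rw [div_mul_cancel₀ _ (pow_ne_zero m h0)]
  · intro h v hv
    obtain ⟨θ, G, h1, h2, h3, h4⟩ := h v hv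
    refine ⟨θ, ⟨h1, fun hc => h2 ((cent_iff x hx v hv).1 hc)⟩, ?_⟩
    rw [h4, map_mul, map_pow]
    exact mul_le_mul_left h3 _

theorem adj_eq (Ψ : Ω[K⁄ℂ] [⋀^Fin n]→ₗ[K] K) (x : Fin N → R)
    (hx : Algebra.adjoin ℂ (Set.range x) = ⊤) :
    adj Ψ (fun l => algebraMap R K (x l)) = adjointRing R Ψ x := by
  unfold adj adjointRing
  congr 1
  ext p
  constructor
  · rintro ⟨m, e, F, hF, rfl⟩
    exact ⟨m, e, F, (mem_sec_iff Ψ x hx m e F).1 hF, rfl⟩
  · rintro ⟨m, e, F, hF, rfl⟩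
    exact ⟨m, e, F, (mem_sec_iff Ψ x hx m e F).2 hF, rfl⟩

theorem sit_of [IsFractionRing R K] (x : Fin N → R) (hx : Algebra.adjoin ℂ (Set.range x) = ⊤)
    (Ψ : Ω[K⁄ℂ] [⋀^Fin (dim R)]→ₗ[K] K) (hΨ : Ψ ≠ 0) :
    Sit Ψ (fun l => algebraMap R K (x l)) := by
  have hft : Algebra.FiniteType ℂ R := by
    constructor
    rw [Subalgebra.fg_def]
    exact ⟨Set.range x, Set.finite_range x, hx⟩
  have := hft
  have hfin : Algebra.trdeg ℂ R < Cardinal.aleph0 :=
    trdeg_lt_aleph0_of_finiteType (R := ℂ) (S := R)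
  refine ⟨?_, ?_, hΨ⟩
  · rw [eq_top_iff]
    intro f _
    obtain ⟨a, b, hb, rfl⟩ := IsFractionRing.div_surjective (A := R) f
    have h1 : ∀ c : R, algebraMap R K c ∈
        IntermediateField.adjoin ℂ (Set.range fun l => algebraMap R K (x l)) := by
      intro c
      have hc : c ∈ Algebra.adjoin ℂ (Set.range x) := by rw [hx]; trivial
      induction hc using Algebra.adjoin_induction with
      | mem y hy =>
        obtain ⟨l, rfl⟩ := hy
        exact IntermediateField.subset_adjoin _ _ ⟨l, rfl⟩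
      | algebraMap c =>
        rw [← IsScalarTower.algebraMap_apply]
        exact IntermediateField.algebraMap_mem _ c
      | add p q _ _ hp hq =>
        rw [map_add]
        exact add_mem hp hq
      | mul p q _ _ hp hq =>
        rw [map_mul]
        exact mul_mem hp hq
    exact div_mem (h1 a) (h1 b)
  · have h2 : Algebra.trdeg ℂ K = Algebra.trdeg ℂ R := by
      have : Algebra.IsAlgebraic R K := IsLocalization.isAlgebraic _ (nonZeroDivisors R)
      have : FaithfulSMul R K := (faithfulSMul_iff_algebraMap_injective _ _).2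
        (IsFractionRing.injective R K)
      have h3 : Algebra.trdeg ℂ R + Algebra.trdeg R K = Algebra.trdeg ℂ K := trdeg_add_eq ℂ R
      have h4 : Algebra.trdeg R K = 0 := trdeg_eq_zero
      rw [h4, add_zero] at h3
      exact h3.symm
    rw [h2, dim, Cardinal.cast_toNat_of_lt_aleph0 hfin]

end

/-- The theorem, from H3. -/
theorem affine_of_h3 (h3 : H3Stmt) (R K : Type) [CommRing R] [IsDomain R] [Algebra ℂ R]
    [Algebra.Smooth ℂ R] [Field K] [Algebra R K] [IsFractionRing R K] [Algebra ℂ K]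
    [IsScalarTower ℂ R K] {N : ℕ} (x : Fin N → R) (hx : Algebra.adjoin ℂ (Set.range x) = ⊤)
    (Ψ : Ω[K⁄ℂ] [⋀^Fin (dim R)]→ₗ[K] K) (hΨ : Ψ ≠ 0) (hfg : (adjointRing R Ψ x).FG) :
    A1Uniruled R ↔ LogKodairaNegInf R K := by
  refine ⟨logKodairaNegInf_of_a1Uniruled, fun h => ?_⟩
  refine h3 R K (dim R) N Ψ x hx (sit_of x hx Ψ hΨ) ?_ ?_
  · rw [adj_eq Ψ x hx]
    exact hfg
  · intro k hk F hF
    refine h Ψ k F hΨ hk fun v hv => ?_
    obtain ⟨θ, G, h1, h2, h3, h4⟩ := (mem_sec_iff Ψ x hx k 0 F).1 hF v hv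
    refine ⟨θ, G, h1, h2, ?_, h4⟩
    rw [pow_zero] at h3
    exact h3

end Pool.Agent.Lib.MP_410da7_agA
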