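import Pool.Agent.Lib.MP_410da7_agA.SpecF

/-!
# C46, G3: existence of the valuation ring
-/

set_option autoImplicit false

namespace Pool.Agent.Lib.MP_410da7_agA

open MvPolynomial

theorem g3 : G3Stmt := by
  intro k V _ _ 𝔓 hP hle hne
  have : IsDomain (MvPolynomial V k ⧸ 𝔓) := Ideal.Quotient.isDomain 𝔓
  let S := MvPolynomial V k ⧸ 𝔓
  let K := FractionRing S
  let Ω := AlgebraicClosure K
  let φ : S →ₐ[k] Ω := (IsScalarTower.toAlgHom k K Ω).comp (IsScalarTower.toAlgHom k S K)
  have hφ : Function.Injective φ :=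
    (FaithfulSMul.algebraMap_injective K Ω).comp (IsFractionRing.injective S K)
  let π : MvPolynomial V k →ₐ[k] S := Ideal.Quotient.mkₐ k 𝔓
  have hπ : ∀ p, π p = 0 ↔ p ∈ 𝔓 := fun p => Ideal.Quotient.eq_zero_iff_mem
  let s : V → Ω := fun v => φ (π (X v))
  have hs : ∀ p, aeval s p = φ (π p) := by
    intro p
    have h1 : (aeval s : MvPolynomial V k →ₐ[k] Ω) = φ.comp π := by
      apply MvPolynomial.algHom_ext
      intro v
      simp [s]
    rw [h1]
    rfl
  have hker : ∀ p, p ∈ 𝔓 ↔ aeval s p = 0 := by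
    intro p
    rw [hs, ← hπ]
    constructor
    · intro h
      rw [h, map_zero]
    · intro h
      exact hφ (by rw [h, map_zero])
  -- a variable outside 𝔓
  obtain ⟨v, hv⟩ : ∃ v, (X v : MvPolynomial V k) ∉ 𝔓 := by
    by_contra hcon
    push Not at hcon
    apply hne
    apply le_antisymm hle
    intro p hp
    have h1 : constantCoeff p = 0 := hp
    have h2 : π p = 0 := by
      have h3 : π = (Algebra.ofId k S).comp (aeval (fun _ : V => (0 : k))) := by
        apply MvPolynomial.algHom_ext
        intro w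
        rw [AlgHom.comp_apply, aeval_X, map_zero]
        exact (hπ _).mpr (hcon w)
      rw [h3, AlgHom.comp_apply]
      have h4 : aeval (fun _ : V => (0 : k)) p = constantCoeff p := by
        rw [MvPolynomial.aeval_zero']
        rfl
      rw [h4, h1, map_zero]
    exact (hπ p).mp h2
  have hx0 : π (X v) ≠ 0 := fun h => hv ((hπ _).mp h)
  have hnint : ¬ IsIntegral k (s v) := by
    intro hint
    have h1 : IsIntegral k (π (X v)) := (isIntegral_algHom_iff φ hφ).mp hint
    have h2 : IsUnit (π (X v)) := h1.isUnit hx0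
    have h3 : ∀ a ∈ 𝔓, (constantCoeff : MvPolynomial V k →+* k) a = 0 := fun a ha => hle ha
    have h4 := h2.map (Ideal.Quotient.lift 𝔓 (constantCoeff : MvPolynomial V k →+* k) h3)
    have h5 : Ideal.Quotient.lift 𝔓 (constantCoeff : MvPolynomial V k →+* k) h3 (π (X v)) = 0 := by
      change Ideal.Quotient.lift 𝔓 _ h3 (Ideal.Quotient.mk 𝔓 (X v)) = 0
      rw [Ideal.Quotient.lift_mk]
      simp
    rw [h5] at h4
    exact not_isUnit_zero h4
  have hnotin : s v ∉ (integralClosure k Ω).toSubring := hnint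
  obtain ⟨𝒱, h𝒱, hsv⟩ := Subring.exists_le_valuationSubring_of_isIntegrallyClosedIn hnotin
  refine ⟨Ω, inferInstance, inferInstance, inferInstance, s, 𝒱, hker, fun c => ?_, v, hsv⟩
  exact h𝒱 (show algebraMap k Ω c ∈ integralClosure k Ω from isIntegral_algebraMap)

end Pool.Agent.Lib.MP_410da7_agA
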