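import Pool.Agent.Lib.MP_410da7_agA.SpecD
import Pool.Agent.Lib.MP_410da7_ag.DMain

/-!
# MP_410da7_ag, smooth affine varieties (C46): H4, the twisted vanishing
-/

set_option autoImplicit false

namespace Pool.Agent.Lib.MP_410da7_agA

namespace h4Aux

open KaehlerDifferential WithZero Polynomial
open Pool.Agent.Lib.MP_410da7_ag

section core

variable {K L : Type} [Field K] [Algebra ℂ K] [Field L] [Algebra ℂ L] [Algebra K (RatFunc L)]
  [IsScalarTower ℂ K (RatFunc L)]

open Classical in
theorem core_vanish_tw {d : ℕ} {ι : Type} [Fintype ι] (δ : ι → Derivation ℂ L L)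
    (e : Fin d ≃ Option ι) {m A : ℕ} (hm : A < m) (F : K) (η : ⋀[K]^d Ω[K⁄ℂ])
    (hfin : ∀ p : IsDedekindDomain.HeightOneSpectrum L[X],
      ∃ (θ : Fin d → Ω[K⁄ℂ]) (c : K),
        (∀ i, θ i ∈ regDiff ((p.valuation (RatFunc L)).comap (algebraMap K (RatFunc L)))) ∧
        exteriorPower.ιMulti K d θ = c • η ∧
        p.valuation (RatFunc L) (algebraMap K (RatFunc L) F) ≤
          p.valuation (RatFunc L) (algebraMap K (RatFunc L) c) ^ m)
    (hinf : ∃ (θ : Fin d → Ω[K⁄ℂ]) (c : K),
        (∀ i, θ i ∈ logDiff ((RatFunc.inftyValuation L).comap (algebraMap K (RatFunc L)))) ∧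
        exteriorPower.ιMulti K d θ = c • η ∧
        RatFunc.inftyValuation L (algebraMap K (RatFunc L) F) ≤
          exp (A : ℤ) * RatFunc.inftyValuation L (algebraMap K (RatFunc L) c) ^ m) :
    algebraMap K (RatFunc L) F * (exteriorPower.alternatingMapLinearEquiv
      (detForm K fun j => extDer (famDer δ (e j))) η) ^ m = 0 := by
  set κ := exteriorPower.alternatingMapLinearEquiv
      (detForm K fun j => extDer (famDer δ (e j))) η with hκ
  have key : ∀ (θ : Fin d → Ω[K⁄ℂ]) (c : K), exteriorPower.ιMulti K d θ = c • η →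
      detForm K (fun j => extDer (famDer δ (e j))) θ = algebraMap K (RatFunc L) c * κ := by
    intro θ c h
    rw [← exteriorPower.alternatingMapLinearEquiv_apply_ιMulti, h, map_smul, Algebra.smul_def]
  have hint : ∀ p : IsDedekindDomain.HeightOneSpectrum L[X],
      p.valuation (RatFunc L) (algebraMap K (RatFunc L) F * κ ^ m) ≤ 1 := by
    intro p
    obtain ⟨θ, c, hθ, hc, hG⟩ := hfin p
    have h1 : p.valuation (RatFunc L) (algebraMap K (RatFunc L) F * κ ^ m) ≤
        p.valuation (RatFunc L) (detForm K (fun j => extDer (famDer δ (e j))) θ) ^ m := by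
      rw [key θ c hc, map_mul, map_mul, map_pow, mul_pow]
      exact mul_le_mul_left hG _
    refine h1.trans (pow_le_one' ?_ m)
    rw [detForm_apply]
    refine det_le_one _ _ fun i j => ?_
    exact pull_reg _ _ (extDer_valuation_le _ p) _ (hθ i)
  have hinf' : RatFunc.inftyValuation L
      (RatFunc.X ^ m * (algebraMap K (RatFunc L) F * κ ^ m)) ≤ exp (A : ℤ) := by
    obtain ⟨θ, c, hθ, hc, hG⟩ := hinf
    have h1 : RatFunc.inftyValuation L
        (RatFunc.X ^ m * (algebraMap K (RatFunc L) F * κ ^ m)) ≤ exp (A : ℤ) *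
        RatFunc.inftyValuation L (detForm K (fun j => extDer (famDer' δ (e j))) θ) ^ m := by
      rw [detForm_famDer', key θ c hc]
      simp only [map_mul, map_pow, mul_pow]
      calc _ ≤ RatFunc.inftyValuation L RatFunc.X ^ m *
            ((exp (A : ℤ) * RatFunc.inftyValuation L (algebraMap K (RatFunc L) c) ^ m) *
              RatFunc.inftyValuation L κ ^ m) := by
            gcongr
        _ = _ := by ac_rfl
    have h2 : RatFunc.inftyValuation L (detForm K (fun j => extDer (famDer' δ (e j))) θ) ^ m ≤ 1 := by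
      refine pow_le_one' ?_ m
      rw [detForm_apply]
      refine det_le_one _ _ fun i j => ?_
      exact pull_log _ _ (extDer_infty_le _ (famDer'_natDegree _ _)) _ (hθ i)
    calc _ ≤ _ := h1
      _ ≤ exp (A : ℤ) * 1 := by gcongr
      _ = _ := mul_one _
  obtain ⟨Q, hQ⟩ := IsDedekindDomain.HeightOneSpectrum.mem_integers_of_valuation_le_one
    (RatFunc L) _ hint
  rw [← hQ] at hinf' ⊢
  by_cases hQ0 : Q = 0
  · simp [hQ0]
  exfalso
  rw [map_mul, map_pow, RatFunc.inftyValuation.X, RatFunc.inftyValuation_apply,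
    RatFunc.inftyValuation.polynomial _ hQ0, ← exp_nsmul, ← exp_add, exp_le_exp] at hinf'
  simp at hinf'
  omega

end core

theorem dmain_tw {R K L : Type} [CommRing R] [IsDomain R] [Algebra ℂ R] [Field K] [Algebra R K]
    [IsFractionRing R K] [Algebra ℂ K] [IsScalarTower ℂ R K] [Field L] [Algebra ℂ L]
    (ψ : R →ₐ[ℂ] L[X]) (hψ : Function.Injective ψ) {n : ℕ}
    (hn : Algebra.trdeg ℂ R = (n : Cardinal)) {ι : Type} [Fintype ι] (y : ι → L)
    (hy : IsTranscendenceBasis ℂ y) (hcard : Fintype.card ι + 1 = n)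
    (htr : Algebra.trdeg ℂ (RatFunc L) ≤ (n : Cardinal))
    {N : ℕ} (x : Fin N → R) (δ₀ : ℕ) (hδ₀ : ∀ l, (ψ (x l)).natDegree ≤ δ₀)
    {m e₀ : ℕ} (hm : e₀ * δ₀ < m) (F : K) (η : ⋀[K]^n Ω[K⁄ℂ]) (hη : η ≠ 0)
    (hF : ∀ v : Valuation K ℤᵐ⁰, Triv v →
      ∃ (θ : Fin n → Ω[K⁄ℂ]) (c : K), Frame (fun l => algebraMap R K (x l)) v θ ∧
        exteriorPower.ιMulti K n θ = c • η ∧
        v F ≤ size (fun l => algebraMap R K (x l)) v ^ e₀ * v c ^ m) : F = 0 := by
  classical
  let ψ' : R →ₐ[ℂ] RatFunc L := (IsScalarTower.toAlgHom ℂ L[X] (RatFunc L)).comp ψ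
  have hψ' : Function.Injective ψ' := by
    have h1 : Function.Injective (algebraMap L[X] (RatFunc L)) :=
      IsFractionRing.injective L[X] (RatFunc L)
    exact h1.comp hψ
  let Φ : K →ₐ[ℂ] RatFunc L := IsFractionRing.liftAlgHom hψ'
  have hΦ : ∀ a : R, Φ (algebraMap R K a) = algebraMap L[X] (RatFunc L) (ψ a) := by
    intro a
    simp [Φ, ψ']
  letI : Algebra K (RatFunc L) := Φ.toRingHom.toAlgebra
  haveI : IsScalarTower ℂ K (RatFunc L) := IsScalarTower.of_algebraMap_eq fun c => by
    change _ = Φ (algebraMap ℂ K c)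
    rw [AlgHom.commutes]
  have halg : ∀ a : K, algebraMap K (RatFunc L) a = Φ a := fun a => rfl
  obtain ⟨u, hu⟩ := exists_basis_fin hn K
  have hfin := finrank_top_eq_one u hu
  have hu2 : IsTranscendenceBasis ℂ (fun i => algebraMap K (RatFunc L) (u i)) := by
    have h1 : AlgebraicIndependent ℂ (fun i => algebraMap K (RatFunc L) (u i)) := by
      exact hu.1.map' (f := Φ) Φ.toRingHom.injective
    refine AlgebraicIndependent.isTranscendenceBasis_of_trdeg_le_of_finite h1 ?_
    rw [Cardinal.mk_fintype, Fintype.card_fin]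
    exact htr
  let e : Fin n ≃ Option ι := Fintype.equivOfCardEq (by simp [hcard])
  obtain ⟨δ, hδ⟩ := exists_dual_der _ hy
  have hne := detForm_ne_zero (K := K) _ δ hδ e u hu2
  have hvan := core_vanish_tw (K := K) δ e hm F η ?_ ?_
  · rcases mul_eq_zero.1 hvan with h | h
    · exact (map_eq_zero _).1 h
    · exfalso
      have h := eq_zero_of_pow_eq_zero h
      obtain ⟨c, hc⟩ := (finrank_eq_one_iff_of_nonzero' η hη).1 hfin
        (exteriorPower.ιMulti K n (fun i => D ℂ K (u i)))
      apply hne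
      rw [← exteriorPower.alternatingMapLinearEquiv_apply_ιMulti, ← hc, map_smul, h, smul_zero]
  · intro p
    obtain ⟨θ, c, h1, h3, h4⟩ := hF ((p.valuation (RatFunc L)).comap
      (algebraMap K (RatFunc L))) (by
        intro c hc
        change p.valuation (RatFunc L) (Φ (algebraMap ℂ K c)) = 1
        rw [AlgHom.commutes, IsScalarTower.algebraMap_apply ℂ L[X] (RatFunc L),
          p.valuation_eq_one_iff_notMem]
        intro hmem
        apply p.isPrime.ne_top
        refine Ideal.eq_top_of_isUnit_mem _ hmem ?_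
        exact (IsUnit.mk0 c hc).map (algebraMap ℂ L[X]))
    have hcent : Cent (fun l => algebraMap R K (x l))
        ((p.valuation (RatFunc L)).comap (algebraMap K (RatFunc L))) := by
      intro l
      rw [Valuation.comap_apply, halg, hΦ]
      exact p.valuation_le_one _
    refine ⟨θ, c, h1.2 hcent, h3, ?_⟩
    have hs : size (fun l => algebraMap R K (x l))
        ((p.valuation (RatFunc L)).comap (algebraMap K (RatFunc L))) = 1 := by
      unfold size
      exact sup_eq_right.2 (Finset.sup_le fun l _ => hcent l)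
    rw [hs, one_pow, one_mul] at h4
    exact h4
  · obtain ⟨θ, c, h1, h3, h4⟩ := hF ((RatFunc.inftyValuation L).comap
      (algebraMap K (RatFunc L))) (by
        intro c hc
        change RatFunc.inftyValuation L (Φ (algebraMap ℂ K c)) = 1
        rw [AlgHom.commutes, IsScalarTower.algebraMap_apply ℂ L (RatFunc L)]
        exact RatFunc.inftyValuation.C L (by simpa using hc))
    refine ⟨θ, c, h1.1, h3, ?_⟩
    have hs : size (fun l => algebraMap R K (x l))
        ((RatFunc.inftyValuation L).comap (algebraMap K (RatFunc L))) ≤ exp (δ₀ : ℤ) := by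
      unfold size
      refine sup_le (Finset.sup_le fun l _ => ?_) ?_
      · rw [Valuation.comap_apply, halg, hΦ]
        by_cases h0 : ψ (x l) = 0
        · rw [h0, map_zero, map_zero]
          exact zero_le
        · rw [RatFunc.inftyValuation_apply, RatFunc.inftyValuation.polynomial _ h0, exp_le_exp]
          exact_mod_cast hδ₀ l
      · rw [← exp_zero, exp_le_exp]
        positivity
    have h5 : size (fun l => algebraMap R K (x l))
        ((RatFunc.inftyValuation L).comap (algebraMap K (RatFunc L))) ^ e₀ ≤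
          exp ((e₀ * δ₀ : ℕ) : ℤ) := by
      calc _ ≤ exp (δ₀ : ℤ) ^ e₀ := pow_le_pow_left' hs e₀
        _ = exp ((e₀ * δ₀ : ℕ) : ℤ) := by
          rw [← exp_nsmul]
          congr 1
    calc _ ≤ _ := h4
      _ ≤ _ := mul_le_mul_left h5 _

end h4Aux

open h4Aux in
open Pool.Agent.Lib.MP_410da7_ag in
theorem h4 : H4Stmt := by
  intro R K _ _ _ _ _ _ _ _ n N Ψ x _hx hsit hun
  obtain ⟨B, _, _, _, hBft, hBd, φ, hφ, -⟩ := hun
  haveI := isAlgebraic_fractionRing B
  haveI : Algebra.IsAlgebraic R K := IsLocalization.isAlgebraic _ (nonZeroDivisors R)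
  have hnK : Algebra.trdeg ℂ R = (n : Cardinal) := by
    have h1 : Algebra.trdeg ℂ R + Algebra.trdeg R K = Algebra.trdeg ℂ K := by
      haveI : FaithfulSMul R K := (faithfulSMul_iff_algebraMap_injective _ _).2
        (IsFractionRing.injective R K)
      haveI : FaithfulSMul ℂ R := (faithfulSMul_iff_algebraMap_injective _ _).2
        (algebraMap ℂ R).injective
      exact trdeg_add_eq ℂ R
    have h2 : Algebra.trdeg R K = 0 := trdeg_eq_zero
    rw [h2, add_zero, hsit.trdeg] at h1
    exact h1
  have hBfin : Algebra.trdeg ℂ B < Cardinal.aleph0 := trdeg_lt_aleph0_of_finiteType (R := ℂ) (S := B)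
  obtain ⟨s, hs⟩ := exists_isTranscendenceBasis ℂ B
  have hscard := hs.cardinalMk_eq_trdeg
  haveI : Finite s := by
    rw [← Cardinal.lt_aleph0_iff_finite, hscard]; exact hBfin
  haveI : Fintype s := Fintype.ofFinite s
  have hy : IsTranscendenceBasis ℂ (fun i : s => algebraMap B (FractionRing B) (i : B)) :=
    hs.algebraMap_comp (A := FractionRing B)
  have hcard : Fintype.card s + 1 = n := by
    have h1 : Algebra.trdeg ℂ R = ((Fintype.card s + 1 : ℕ) : Cardinal) := by
      rw [← hBd, ← hscard, Cardinal.mk_fintype]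
      push_cast
      rfl
    rw [hnK] at h1
    exact_mod_cast h1.symm
  obtain ⟨u, hu⟩ := exists_basis_fin hnK K
  obtain ⟨b, hb⟩ := exists_kaehlerBasis u hu
  obtain ⟨η, hη, hη'⟩ := exists_eta_of_psi b Ψ hsit.Ψ0
  refine ⟨(Finset.univ.sup fun l => (φ (x l)).natDegree) ⊔ 1, le_sup_right, ?_⟩
  intro m e hme F hF
  refine dmain_tw (K := K)
    ((Polynomial.mapAlgHom (IsScalarTower.toAlgHom ℂ B (FractionRing B))).comp φ) ?_ hnK
    (fun i : s => algebraMap B (FractionRing B) (i : B)) hy hcard ?_ x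
    ((Finset.univ.sup fun l => (φ (x l)).natDegree) ⊔ 1) ?_ hme F η hη ?_
  · have h1 : Function.Injective (Polynomial.map (algebraMap B (FractionRing B))) :=
      Polynomial.map_injective _ (IsFractionRing.injective B (FractionRing B))
    exact h1.comp hφ
  · rw [trdeg_ratFunc, hBd, hnK]
  · intro l
    refine le_trans ?_ (le_trans (Finset.le_sup (f := fun l => (φ (x l)).natDegree)
      (Finset.mem_univ l)) le_sup_left)
    exact Polynomial.natDegree_map_le
  · intro v hv
    obtain ⟨θ, h1, h2⟩ := hF v hv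
    exact ⟨θ, Ψ θ, h1, hη' θ, h2⟩

end Pool.Agent.Lib.MP_410da7_agA
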