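import Pool.Agent.Lib.MP_410da7_agA.B6
import Pool.Agent.Lib.MP_410da7_ag.DMain

/-!
# C46, H5: `𝔸¹`-uniruled varieties have negative curves. Part a: the form on `L(t)`
-/

set_option autoImplicit false

namespace Pool.Agent.Lib.MP_410da7_agA

open KaehlerDifferential WithZero Polynomial Module
open Pool.Agent.Lib.MP_410da7_ag

section

variable {K : Type} [Field K] [Algebra ℂ K]

/-- Frames depend only on the valuation ring. -/
theorem h5_reg_congr {v v' : Valuation K ℤᵐ⁰} (h : ∀ a, v a ≤ 1 ↔ v' a ≤ 1) :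
    regDiff v = regDiff v' := by
  have h1 : regGens v = regGens v' := by
    ext θ
    constructor
    · rintro ⟨a, b, ha, hb, rfl⟩
      exact ⟨a, b, (h a).mp ha, (h b).mp hb, rfl⟩
    · rintro ⟨a, b, ha, hb, rfl⟩
      exact ⟨a, b, (h a).mpr ha, (h b).mpr hb, rfl⟩
  rw [regDiff, regDiff, h1]

theorem h5_log_congr {v v' : Valuation K ℤᵐ⁰} (h : ∀ a, v a ≤ 1 ↔ v' a ≤ 1) :
    logDiff v = logDiff v' := by
  have h1 : regGens v = regGens v' := by
    ext θ
    constructor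
    · rintro ⟨a, b, ha, hb, rfl⟩
      exact ⟨a, b, (h a).mp ha, (h b).mp hb, rfl⟩
    · rintro ⟨a, b, ha, hb, rfl⟩
      exact ⟨a, b, (h a).mpr ha, (h b).mpr hb, rfl⟩
  have h2 : logGens v = logGens v' := by
    ext θ
    constructor
    · rintro ⟨a, b, ha, hb, rfl⟩
      exact ⟨a, b, (h a).mp ha, hb, rfl⟩
    · rintro ⟨a, b, ha, hb, rfl⟩
      exact ⟨a, b, (h a).mpr ha, hb, rfl⟩
  rw [logDiff, logDiff, h1, h2]

theorem h5_frame_congr {n N : ℕ} (x : Fin N → K) {v v' : Valuation K ℤᵐ⁰}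
    (h : ∀ a, v a ≤ 1 ↔ v' a ≤ 1) {θ : Fin n → Ω[K⁄ℂ]} (hθ : Frame x v θ) : Frame x v' θ := by
  refine ⟨fun i => ?_, fun hc i => ?_⟩
  · rw [← h5_log_congr h]; exact hθ.1 i
  · rw [← h5_reg_congr h]
    exact hθ.2 (fun l => (h _).mpr (hc l)) i

end

section form

variable {K L : Type} [Field K] [Algebra ℂ K] [Field L] [Algebra ℂ L] [Algebra K (RatFunc L)]
  [IsScalarTower ℂ K (RatFunc L)]

/-- The constant `κ`: `detForm = κ Ψ`. -/
theorem h5_kappa {n : ℕ} {ι : Type} [Fintype ι] (y : ι → L) (hy : IsTranscendenceBasis ℂ y)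
    (e : Fin n ≃ Option ι) (u : Fin n → K) (hu : IsTranscendenceBasis ℂ u)
    (hu2 : IsTranscendenceBasis ℂ (fun i => algebraMap K (RatFunc L) (u i)))
    (Ψ : Ω[K⁄ℂ] [⋀^Fin n]→ₗ[K] K) (hΨ : Ψ ≠ 0) :
    ∃ (δ : ι → Derivation ℂ L L) (κ : RatFunc L), κ ≠ 0 ∧ ∀ θ : Fin n → Ω[K⁄ℂ],
      detForm K (fun j => extDer (famDer δ (e j))) θ = algebraMap K (RatFunc L) (Ψ θ) * κ := by
  classical
  obtain ⟨δ, hδ⟩ := exists_dual_der _ hy
  have hne := detForm_ne_zero (K := K) _ δ hδ e u hu2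
  obtain ⟨b, hb⟩ := exists_kaehlerBasis u hu
  obtain ⟨η, hη, hη'⟩ := exists_eta_of_psi b Ψ hΨ
  refine ⟨δ, exteriorPower.alternatingMapLinearEquiv
      (detForm K fun j => extDer (famDer δ (e j))) η, ?_, ?_⟩
  · intro h0
    apply hne
    rw [← exteriorPower.alternatingMapLinearEquiv_apply_ιMulti, hη', map_smul, h0, smul_zero]
  · intro θ
    rw [← exteriorPower.alternatingMapLinearEquiv_apply_ιMulti, hη', map_smul, Algebra.smul_def]

end form

end Pool.Agent.Lib.MP_410da7_agA
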