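import Pool.Agent.Lib.MP_410da7_agA.H5a
import Mathlib.NumberTheory.RatFunc.Ostrowski

/-!
# C46, H5 part b: valuation subrings of `L(t)`
-/

set_option autoImplicit false

namespace Pool.Agent.Lib.MP_410da7_agA

open KaehlerDifferential WithZero Polynomial Module
open Pool.Agent.Lib.MP_410da7_ag
open Pool.Agent.Lib.MP_cc17a8_ag (cen mem_cen_iff isLocalization_of_place)

section

variable {L : Type} [Field L]

open Classical in
theorem h5_class (A : ValuationSubring (RatFunc L))
    (hA : ∀ c : L, algebraMap L (RatFunc L) c ∈ A) :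
    (∀ f, f ∈ A) ∨
    (∃ p : IsDedekindDomain.HeightOneSpectrum L[X], ∀ f, f ∈ A ↔ p.valuation (RatFunc L) f ≤ 1) ∨
    (∀ f, f ∈ A ↔ RatFunc.inftyValuation L f ≤ 1) := by
  by_cases hX : (RatFunc.X : RatFunc L) ∈ A
  · by_cases htop : A = ⊤
    · left
      intro f
      rw [htop]; exact ValuationSubring.mem_top _
    right; left
    have hS : ∀ s : L[X], algebraMap L[X] (RatFunc L) s ∈ A := by
      intro s
      induction s using Polynomial.induction_on' with
      | add p q hp hq => rw [map_add]; exact A.add_mem _ _ hp hq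
      | monomial n a =>
        rw [← Polynomial.C_mul_X_pow_eq_monomial, map_mul, map_pow, RatFunc.algebraMap_X]
        exact A.mul_mem _ _ (hA a) (pow_mem hX n)
    obtain ⟨hne, -⟩ := isLocalization_of_place A htop hS
    let p : IsDedekindDomain.HeightOneSpectrum L[X] := ⟨cen A hS, inferInstance, hne⟩
    have hpA : ∀ s : L[X], s ∉ p.asIdeal → p.valuation (RatFunc L) (algebraMap L[X] _ s) = 1 :=
      fun s hs => (p.valuation_eq_one_iff_notMem).mpr hs
    have hfin : ∀ f ∈ A, p.valuation (RatFunc L) f ≤ 1 := by
      intro f hf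
      obtain ⟨s, hs, c, hc⟩ := vcert_denom A hS f hf
      have h1 := congrArg (p.valuation (RatFunc L)) hc
      rw [map_mul, hpA s hs, one_mul] at h1
      rw [h1]; exact p.valuation_le_one c
    refine ⟨p, fun f => ⟨hfin f, fun hf => ?_⟩⟩
    by_contra hfA
    have hf0 : f ≠ 0 := by rintro rfl; exact hfA A.zero_mem
    have hinv : f⁻¹ ∈ A := (A.mem_or_inv_mem f).resolve_left hfA
    obtain ⟨s, hs, c, hc⟩ := vcert_denom A hS f⁻¹ hinv
    have hcp : c ∈ p.asIdeal := by
      change c ∈ cen A hS
      rw [mem_cen_iff]
      right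
      intro hcA
      apply hfA
      have h1 : f = algebraMap L[X] (RatFunc L) s * (algebraMap L[X] (RatFunc L) c)⁻¹ := by
        rw [← hc]
        have hs0 : algebraMap L[X] (RatFunc L) s ≠ 0 := by
          rw [Ne, IsFractionRing.to_map_eq_zero_iff]
          rintro rfl
          exact hs (Ideal.zero_mem _)
        field_simp
      rw [h1]
      exact A.mul_mem _ _ (hS s) hcA
    have h2 := (p.valuation_lt_one_iff_mem (K := RatFunc L) c).mpr hcp
    have h1 := congrArg (p.valuation (RatFunc L)) hc
    rw [map_mul, hpA s hs, one_mul, map_inv₀] at h1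
    rw [← h1] at h2
    have h3 : p.valuation (RatFunc L) f ≠ 0 := (Valuation.ne_zero_iff _).mpr hf0
    have h4 := (inv_lt_one₀ (zero_lt_iff.mpr h3)).mp h2
    exact absurd hf (not_le.mpr h4)
  · right; right
    have htriv : A.valuation.IsTrivialOn L := by
      constructor
      intro c hc
      have h1 : A.valuation (algebraMap L (RatFunc L) c) ≤ 1 := (A.valuation_le_one_iff _).mpr (hA c)
      have h2 : A.valuation (algebraMap L (RatFunc L) c)⁻¹ ≤ 1 := by
        rw [A.valuation_le_one_iff, ← map_inv₀]; exact hA c⁻¹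
      rw [map_inv₀] at h2
      have h0 : A.valuation (algebraMap L (RatFunc L) c) ≠ 0 := by
        rw [Valuation.ne_zero_iff]
        simpa using hc
      apply le_antisymm h1
      exact (inv_le_one₀ (zero_lt_iff.mpr h0)).mp h2
    have hlt : 1 < A.valuation RatFunc.X := by
      rw [← not_le]
      intro h
      exact hX ((A.valuation_le_one_iff _).mp h)
    have h1 := RatFunc.valuation_isEquiv_inftyValuation_of_one_lt_valuation_X hlt
    intro f
    rw [← A.valuation_le_one_iff]
    exact Valuation.isEquiv_iff_val_le_one.mp h1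

open Classical in
theorem h5_infty_const (c : L) : RatFunc.inftyValuation L (algebraMap L (RatFunc L) c) ≤ 1 := by
  by_cases hc : c = 0
  · rw [hc, map_zero, map_zero]; exact zero_le
  · have := RatFunc.inftyValuation.C L hc
    exact this.le

open Classical in
theorem h5_infty_const_eq {c : L} (hc : c ≠ 0) :
    RatFunc.inftyValuation L (algebraMap L (RatFunc L) c) = 1 :=
  RatFunc.inftyValuation.C L hc

open Classical in
/-- The residue at infinity. -/
theorem h5_res (f : RatFunc L) (hf : RatFunc.inftyValuation L f ≤ 1) :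
    ∃ c : L, RatFunc.inftyValuation L (f - algebraMap L (RatFunc L) c) < 1 := by
  have hd : f.denom ≠ 0 := f.denom_ne_zero
  have hfd := RatFunc.num_div_denom f
  set v := RatFunc.inftyValuation L with hv
  have hvd : v (algebraMap L[X] (RatFunc L) f.denom) = exp (f.denom.natDegree : ℤ) := by
    rw [hv, RatFunc.inftyValuation_apply, RatFunc.inftyValuation.polynomial _ hd]
  have hdd : algebraMap L[X] (RatFunc L) f.denom ≠ 0 := by simpa using hd
  have hnum : v (algebraMap L[X] (RatFunc L) f.num) ≤ exp (f.denom.natDegree : ℤ) := by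
    rw [← hvd]
    have h1 : algebraMap L[X] (RatFunc L) f.num = f * algebraMap L[X] (RatFunc L) f.denom :=
      (div_eq_iff hdd).mp hfd
    rw [h1, map_mul]
    exact mul_le_of_le_one_left' hf
  have hdeg : f.num.natDegree ≤ f.denom.natDegree := by
    by_cases hn : f.num = 0
    · rw [hn]; simp
    · rw [hv, RatFunc.inftyValuation_apply, RatFunc.inftyValuation.polynomial _ hn,
        exp_le_exp] at hnum
      exact_mod_cast hnum
  set c : L := f.num.coeff f.denom.natDegree / f.denom.leadingCoeff with hc
  have hlc : f.denom.leadingCoeff ≠ 0 := Polynomial.leadingCoeff_ne_zero.mpr hd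
  refine ⟨c, ?_⟩
  set q : L[X] := f.num - C c * f.denom with hq
  have h1 : f - algebraMap L (RatFunc L) c =
      algebraMap L[X] (RatFunc L) q / algebraMap L[X] (RatFunc L) f.denom := by
    rw [hq, map_sub, map_mul, sub_div, hfd, mul_div_assoc, div_self hdd, mul_one]
    rfl
  rw [h1, map_div₀, hvd]
  by_cases hq0 : q = 0
  · rw [hq0, map_zero, map_zero, zero_div]; exact zero_lt_one
  rw [hv, RatFunc.inftyValuation_apply, RatFunc.inftyValuation.polynomial _ hq0,
    ← exp_sub, ← exp_zero, exp_lt_exp]
  have h2 : q.natDegree ≤ f.denom.natDegree := by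
    rw [hq]
    refine (Polynomial.natDegree_sub_le _ _).trans (max_le hdeg ?_)
    exact (Polynomial.natDegree_C_mul_le _ _)
  have h3 : q.coeff f.denom.natDegree = 0 := by
    rw [hq, Polynomial.coeff_sub, Polynomial.coeff_C_mul, Polynomial.coeff_natDegree, hc]
    field_simp
    ring
  have h4 : q.natDegree ≠ f.denom.natDegree := by
    intro h
    rw [← h, Polynomial.coeff_natDegree] at h3
    exact hq0 (Polynomial.leadingCoeff_eq_zero.mp h3)
  have h5 : q.natDegree < f.denom.natDegree := lt_of_le_of_ne h2 h4
  have h6 : (q.natDegree : ℤ) < f.denom.natDegree := by exact_mod_cast h5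
  linarith

end

section

variable {K L : Type} [Field K] [Algebra ℂ K] [Field L] [Algebra ℂ L] [Algebra K (RatFunc L)]
  [IsScalarTower ℂ K (RatFunc L)]

open Classical in
/-- The residues at infinity of the elements of `K`. -/
noncomputable def h5_S (K L : Type) [Field K] [Algebra ℂ K] [Field L] [Algebra ℂ L]
    [Algebra K (RatFunc L)] [IsScalarTower ℂ K (RatFunc L)] : IntermediateField ℂ L where
  carrier := {c | ∃ f : K, RatFunc.inftyValuation L
    (algebraMap K (RatFunc L) f - algebraMap L (RatFunc L) c) < 1}
  mul_mem' := by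
    rintro a b ⟨f, hf⟩ ⟨g, hg⟩
    refine ⟨f * g, ?_⟩
    have h1 : algebraMap K (RatFunc L) (f * g) - algebraMap L (RatFunc L) (a * b) =
        (algebraMap K (RatFunc L) f - algebraMap L (RatFunc L) a) * algebraMap K (RatFunc L) g +
        algebraMap L (RatFunc L) a * (algebraMap K (RatFunc L) g - algebraMap L (RatFunc L) b) := by
      rw [map_mul, map_mul]; ring
    have hg1 : RatFunc.inftyValuation L (algebraMap K (RatFunc L) g) ≤ 1 := by
      have h2 : algebraMap K (RatFunc L) g = (algebraMap K (RatFunc L) g -
        algebraMap L (RatFunc L) b) + algebraMap L (RatFunc L) b := by ring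
      rw [h2]
      exact (Valuation.map_add _ _ _).trans (max_le hg.le (h5_infty_const b))
    rw [h1]
    refine lt_of_le_of_lt (Valuation.map_add _ _ _) (max_lt ?_ ?_)
    · rw [map_mul]; exact lt_of_le_of_lt (mul_le_of_le_one_right' hg1) hf
    · rw [map_mul]; exact lt_of_le_of_lt (mul_le_of_le_one_left' (h5_infty_const a)) hg
  add_mem' := by
    rintro a b ⟨f, hf⟩ ⟨g, hg⟩
    refine ⟨f + g, ?_⟩
    have h1 : algebraMap K (RatFunc L) (f + g) - algebraMap L (RatFunc L) (a + b) =
        (algebraMap K (RatFunc L) f - algebraMap L (RatFunc L) a) +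
        (algebraMap K (RatFunc L) g - algebraMap L (RatFunc L) b) := by
      rw [map_add, map_add]; ring
    rw [h1]
    exact lt_of_le_of_lt (Valuation.map_add _ _ _) (max_lt hf hg)
  algebraMap_mem' := by
    intro c
    refine ⟨algebraMap ℂ K c, ?_⟩
    rw [← IsScalarTower.algebraMap_apply ℂ K (RatFunc L), ← IsScalarTower.algebraMap_apply ℂ L
      (RatFunc L), sub_self, map_zero]
    exact zero_lt_one
  inv_mem' := by
    rintro a ⟨f, hf⟩
    by_cases ha : a = 0
    · refine ⟨0, ?_⟩
      rw [ha, inv_zero, map_zero, map_zero, sub_zero, map_zero]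
      exact zero_lt_one
    have hva := h5_infty_const_eq ha
    have hvf : RatFunc.inftyValuation L (algebraMap K (RatFunc L) f) = 1 := by
      have h2 : algebraMap K (RatFunc L) f = (algebraMap K (RatFunc L) f -
        algebraMap L (RatFunc L) a) + algebraMap L (RatFunc L) a := by ring
      rw [h2, Valuation.map_add_eq_of_lt_right _ (by rw [hva]; exact hf), hva]
    have hf0 : algebraMap K (RatFunc L) f ≠ 0 := by
      intro h
      rw [h, map_zero] at hvf
      exact zero_ne_one hvf
    have ha0 : algebraMap L (RatFunc L) a ≠ 0 := by simpa using ha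
    refine ⟨f⁻¹, ?_⟩
    have h1 : algebraMap K (RatFunc L) f⁻¹ - algebraMap L (RatFunc L) a⁻¹ =
        -((algebraMap K (RatFunc L) f - algebraMap L (RatFunc L) a) /
          (algebraMap K (RatFunc L) f * algebraMap L (RatFunc L) a)) := by
      rw [map_inv₀, map_inv₀]; field_simp; ring
    rw [h1, Valuation.map_neg, map_div₀, map_mul, hvf, hva, one_mul, div_one]
    exact hf

open Classical in
theorem h5_mem_S (c : L) : c ∈ h5_S K L ↔ ∃ f : K, RatFunc.inftyValuation L
    (algebraMap K (RatFunc L) f - algebraMap L (RatFunc L) c) < 1 := Iff.rfl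

theorem h5_S_algebraic (halg : ∀ α : L, IsAlgebraic K (algebraMap L (RatFunc L) α)) (α : L) :
    IsAlgebraic (h5_S K L) α := by
  classical
  obtain ⟨P, hP0, hP⟩ := halg α
  have hne : P.support.Nonempty := by
    rwa [Polynomial.support_nonempty]
  obtain ⟨j, hj, hmax⟩ := Finset.exists_max_image P.support
    (fun i => RatFunc.inftyValuation L (algebraMap K (RatFunc L) (P.coeff i))) hne
  have hPj : P.coeff j ≠ 0 := Polynomial.mem_support_iff.mp hj
  have hPj' : algebraMap K (RatFunc L) (P.coeff j) ≠ 0 := by simpa using hPj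
  have hvj : RatFunc.inftyValuation L (algebraMap K (RatFunc L) (P.coeff j)) ≠ 0 :=
    (Valuation.ne_zero_iff _).mpr hPj'
  have hle : ∀ i, RatFunc.inftyValuation L
      (algebraMap K (RatFunc L) (P.coeff i / P.coeff j)) ≤ 1 := by
    intro i
    rw [map_div₀, map_div₀]
    by_cases hi : i ∈ P.support
    · exact div_le_one_of_le₀ (hmax i hi) zero_le
    · rw [Polynomial.notMem_support_iff.mp hi, map_zero, map_zero, zero_div]; exact zero_le
  choose c hc using fun i => h5_res _ (hle i)
  have hcS : ∀ i, c i ∈ h5_S K L := fun i => ⟨_, hc i⟩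
  -- the leading relation
  have hsum : ∑ i ∈ P.support, c i * α ^ i = 0 := by
    by_contra h0
    have h1 := h5_infty_const_eq h0
    have h2 : algebraMap L (RatFunc L) (∑ i ∈ P.support, c i * α ^ i) =
        -∑ i ∈ P.support, (algebraMap K (RatFunc L) (P.coeff i / P.coeff j) -
          algebraMap L (RatFunc L) (c i)) * algebraMap L (RatFunc L) α ^ i := by
      have h3 : ∑ i ∈ P.support, algebraMap K (RatFunc L) (P.coeff i / P.coeff j) *
          algebraMap L (RatFunc L) α ^ i = 0 := by
        rw [Polynomial.aeval_def, Polynomial.eval₂_eq_sum, Polynomial.sum_def] at hP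
        have h4 : ∑ i ∈ P.support, algebraMap K (RatFunc L) (P.coeff i / P.coeff j) *
            algebraMap L (RatFunc L) α ^ i = (algebraMap K (RatFunc L) (P.coeff j))⁻¹ *
            ∑ i ∈ P.support, algebraMap K (RatFunc L) (P.coeff i) *
              algebraMap L (RatFunc L) α ^ i := by
          rw [Finset.mul_sum]
          refine Finset.sum_congr rfl fun i _ => ?_
          rw [map_div₀]; field_simp
        rw [h4, hP, mul_zero]
      rw [map_sum]
      simp_rw [sub_mul, map_mul, map_pow]
      rw [Finset.sum_sub_distrib, h3, zero_sub, neg_neg]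
    rw [h2, Valuation.map_neg] at h1
    have h3 : RatFunc.inftyValuation L (∑ i ∈ P.support,
        (algebraMap K (RatFunc L) (P.coeff i / P.coeff j) -
          algebraMap L (RatFunc L) (c i)) * algebraMap L (RatFunc L) α ^ i) < 1 := by
      refine Valuation.map_sum_lt _ one_ne_zero fun i _ => ?_
      rw [map_mul, map_pow]
      exact lt_of_le_of_lt (mul_le_of_le_one_right' (pow_le_one' (h5_infty_const α) _)) (hc i)
    rw [h1] at h3
    exact lt_irrefl _ h3
  refine ⟨∑ i ∈ P.support, Polynomial.monomial i (⟨c i, hcS i⟩ : h5_S K L), ?_, ?_⟩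
  · intro h0
    have h1 := congrArg (fun q : (h5_S K L)[X] => q.coeff j) h0
    simp only [Polynomial.finsetSum_coeff, Polynomial.coeff_monomial, Polynomial.coeff_zero] at h1
    rw [Finset.sum_ite_eq' P.support j, if_pos hj] at h1
    have hcj : c j = 0 := congrArg Subtype.val h1
    have h2 := hc j
    rw [hcj, div_self hPj, map_one, map_zero, sub_zero, map_one] at h2
    exact lt_irrefl _ h2
  · rw [map_sum, ← hsum]
    refine Finset.sum_congr rfl fun i _ => ?_
    rw [Polynomial.aeval_monomial]
    rfl

open Classical in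
theorem h5_indep (halg : ∀ α : L, IsAlgebraic K (algebraMap L (RatFunc L) α)) {m : ℕ}
    (htr : Algebra.trdeg ℂ L = m) :
    ∃ t : Fin m → K, ∀ p : MvPolynomial (Fin m) ℂ, p ≠ 0 →
      RatFunc.inftyValuation L (algebraMap K (RatFunc L) (MvPolynomial.aeval t p)) = 1 := by
  have hA : Algebra.IsAlgebraic (h5_S K L) L := ⟨h5_S_algebraic halg⟩
  have h1 : Algebra.trdeg ℂ (h5_S K L) = m := by
    have h2 := trdeg_add_eq ℂ (h5_S K L) (A := L)
    rw [trdeg_eq_zero (R := h5_S K L) (A := L), add_zero, htr] at h2
    exact h2
  obtain ⟨s, hs⟩ := exists_isTranscendenceBasis ℂ (h5_S K L)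
  have hcard := hs.cardinalMk_eq_trdeg
  rw [h1] at hcard
  have hfin : Finite s := by
    rw [← Cardinal.lt_aleph0_iff_finite, hcard]; exact Cardinal.natCast_lt_aleph0
  have : Fintype s := Fintype.ofFinite s
  have hc : Fintype.card s = m := by
    rw [Cardinal.mk_fintype] at hcard
    exact_mod_cast hcard
  let e : Fin m ≃ s := (Fintype.equivFinOfCardEq hc).symm
  have hind : AlgebraicIndependent ℂ (fun i => ((e i : h5_S K L) : L)) := by
    have h2 := hs.1.comp e e.injective
    exact h2.map' (f := (h5_S K L).val) Subtype.val_injective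
  choose t ht using fun i => (h5_mem_S (K := K) ((e i : h5_S K L) : L)).mp (e i : h5_S K L).2
  refine ⟨t, fun p hp => ?_⟩
  set c : Fin m → L := fun i => ((e i : h5_S K L) : L) with hcdef
  have hpc : MvPolynomial.aeval c p ≠ 0 := by
    intro h
    exact hp ((algebraicIndependent_iff.mp hind) p h)
  -- the difference is small
  have hct : ∀ i, RatFunc.inftyValuation L (algebraMap K (RatFunc L) (t i)) ≤ 1 := by
    intro i
    have h4 : algebraMap K (RatFunc L) (t i) = (algebraMap K (RatFunc L) (t i) -
      algebraMap L (RatFunc L) (c i)) + algebraMap L (RatFunc L) (c i) := by ring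
    rw [h4]
    exact (Valuation.map_add _ _ _).trans (max_le (ht i).le (h5_infty_const _))
  have hdiff : ∀ p : MvPolynomial (Fin m) ℂ,
      RatFunc.inftyValuation L (algebraMap K (RatFunc L) (MvPolynomial.aeval t p) -
      algebraMap L (RatFunc L) (MvPolynomial.aeval c p)) < 1 := by
    intro p
    induction p using MvPolynomial.induction_on with
    | C a =>
      rw [MvPolynomial.aeval_C, MvPolynomial.aeval_C,
        ← IsScalarTower.algebraMap_apply ℂ K (RatFunc L), ← IsScalarTower.algebraMap_apply ℂ L
        (RatFunc L), sub_self, map_zero]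
      exact zero_lt_one
    | add p q hp hq =>
      have h1 : algebraMap K (RatFunc L) (MvPolynomial.aeval t (p + q)) -
          algebraMap L (RatFunc L) (MvPolynomial.aeval c (p + q)) =
          (algebraMap K (RatFunc L) (MvPolynomial.aeval t p) -
          algebraMap L (RatFunc L) (MvPolynomial.aeval c p)) +
          (algebraMap K (RatFunc L) (MvPolynomial.aeval t q) -
          algebraMap L (RatFunc L) (MvPolynomial.aeval c q)) := by
        simp only [map_add]; ring
      rw [h1]
      exact lt_of_le_of_lt (Valuation.map_add _ _ _) (max_lt hp hq)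
    | mul_X p i hp =>
      have h1 : algebraMap K (RatFunc L) (MvPolynomial.aeval t (p * MvPolynomial.X i)) -
          algebraMap L (RatFunc L) (MvPolynomial.aeval c (p * MvPolynomial.X i)) =
          (algebraMap K (RatFunc L) (MvPolynomial.aeval t p) -
          algebraMap L (RatFunc L) (MvPolynomial.aeval c p)) * algebraMap K (RatFunc L) (t i) +
          algebraMap L (RatFunc L) (MvPolynomial.aeval c p) *
          (algebraMap K (RatFunc L) (t i) - algebraMap L (RatFunc L) (c i)) := by
        simp only [map_mul, MvPolynomial.aeval_X]; ring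
      rw [h1]
      refine lt_of_le_of_lt (Valuation.map_add _ _ _) (max_lt ?_ ?_)
      · rw [map_mul]; exact lt_of_le_of_lt (mul_le_of_le_one_right' (hct i)) hp
      · rw [map_mul]; exact lt_of_le_of_lt (mul_le_of_le_one_left' (h5_infty_const _)) (ht i)
  have h4 : algebraMap K (RatFunc L) (MvPolynomial.aeval t p) =
      (algebraMap K (RatFunc L) (MvPolynomial.aeval t p) -
      algebraMap L (RatFunc L) (MvPolynomial.aeval c p)) +
      algebraMap L (RatFunc L) (MvPolynomial.aeval c p) := by ring
  rw [h4, Valuation.map_add_eq_of_lt_right _ (by rw [h5_infty_const_eq hpc]; exact hdiff p),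
    h5_infty_const_eq hpc]

end

end Pool.Agent.Lib.MP_410da7_agA
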