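import Pool.Agent.Lib.MP_410da7_agA.H5b

/-!
# C46, H5 part c: valuations and norms
-/

set_option autoImplicit false

namespace Pool.Agent.Lib.MP_410da7_agA

section

variable {Λ E : Type} [Field Λ] [Field E] [Algebra Λ E]

/-- Every valuation subring of `Λ` is the trace of a valuation subring of the extension `E`. -/
theorem h5_ext (E : Type) [Field E] [Algebra Λ E] (V : ValuationSubring Λ) :
    ∃ A : ValuationSubring E, ∀ y : Λ, algebraMap Λ E y ∈ A ↔ y ∈ V := by
  let f : V →+* E := (algebraMap Λ E).comp V.subtype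
  obtain ⟨A, h, hloc⟩ := IsLocalRing.exists_factor_valuationRing f
  refine ⟨A, fun y => ⟨fun hy => ?_, fun hy => h ⟨y, hy⟩⟩⟩
  by_contra hyV
  have hy0 : y ≠ 0 := by rintro rfl; exact hyV V.zero_mem
  have hinv : y⁻¹ ∈ V := (V.mem_or_inv_mem y).resolve_left hyV
  have h1 : IsUnit ((f.codRestrict A.toSubring h) ⟨y⁻¹, hinv⟩) := by
    refine IsUnit.of_mul_eq_one ⟨algebraMap Λ E y, hy⟩ ?_
    apply Subtype.ext
    change algebraMap Λ E y⁻¹ * algebraMap Λ E y = 1
    rw [← map_mul, inv_mul_cancel₀ hy0, map_one]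
  have h2 := hloc.map_nonunit _ h1
  obtain ⟨z, hz⟩ := h2.exists_right_inv
  have hz' : y⁻¹ * (z : Λ) = 1 := congrArg Subtype.val hz
  have hz'' : (z : Λ) = y := by
    field_simp at hz'
    exact hz'
  rw [← hz''] at hyV
  exact hyV z.2

theorem h5_norm [FiniteDimensional Λ E] [Algebra.IsSeparable Λ E] (V : ValuationSubring Λ)
    (g : Λ) (κ : E)
    (h : ∀ A : ValuationSubring E, (∀ y : Λ, algebraMap Λ E y ∈ A ↔ y ∈ V) →
      algebraMap Λ E g * κ ∈ A) :
    g ^ Module.finrank Λ E * Algebra.norm Λ κ ∈ V := by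
  obtain ⟨A, hA⟩ := h5_ext (AlgebraicClosure Λ) V
  rw [← hA, map_mul, map_pow, Algebra.norm_eq_prod_embeddings Λ (AlgebraicClosure Λ) κ,
    ← AlgHom.card Λ E (AlgebraicClosure Λ), ← Finset.card_univ, ← Finset.prod_const,
    ← Finset.prod_mul_distrib]
  refine prod_mem fun σ _ => ?_
  have h1 := h (A.comap (σ : E →+* AlgebraicClosure Λ)) (fun y => by
    rw [ValuationSubring.mem_comap, ← hA]
    change σ (algebraMap Λ E y) ∈ A ↔ _
    rw [σ.commutes])
  rw [ValuationSubring.mem_comap] at h1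
  change σ (algebraMap Λ E g * κ) ∈ A at h1
  rwa [map_mul, σ.commutes] at h1

end

end Pool.Agent.Lib.MP_410da7_agA
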