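import Pool.Agent.Lib.MP_410da7_agA.NG4

/-!
# C46, block N, GEO 5: from the abstract Theorem N to the end theorem of block N
-/

set_option autoImplicit false

namespace Pool.Agent.Lib.MP_410da7_agA

open MvPolynomial KaehlerDifferential WithZero Module

/-- The interface with the abstract Theorem N: if `m (P - Q) + e H` has no sections for `e δ < m` then
there is a covering family of curves on which `m₀ (P - Q) + H` is negative. -/
def NThmIf : Prop :=
  ∀ (K : Type) [Field K] [Algebra ℂ K] (n : ℕ) (P Q H : Row K) (δ : ℕ),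
    Algebra.trdeg ℂ K = n → 1 ≤ n → (∃ T : Set K, T.Finite ∧ IntermediateField.adjoin ℂ T = ⊤) →
    Bir P → Bir Q → Bir H → (∃ j, P.b j = 1) → (∃ j, Q.b j = 1) → (∃ j, H.b j = 1) → 1 ≤ δ →
    (∀ m e : ℕ, 1 ≤ m → e * δ < m → ∀ F : K, (∀ v : Valuation K ℤᵐ⁰, Triv v →
      v F * rsize Q _ v ^ m ≤ rsize P _ v ^ m * rsize H _ v ^ e) → F = 0) →
    ∃ (m₀ : ℕ) (L Λ : Type) (_ : Field L) (_ : Field Λ) (_ : Algebra ℂ L) (_ : Algebra L Λ)
      (_ : Algebra K Λ) (_ : Algebra ℂ Λ) (_ : IsScalarTower ℂ L Λ) (_ : IsScalarTower ℂ K Λ)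
      (a : Λ), 1 ≤ m₀ ∧ a ≠ 0 ∧ Algebra.trdeg L Λ = 1 ∧
      (∃ T : Set Λ, T.Finite ∧ IntermediateField.adjoin L T = ⊤) ∧
      IntermediateField.adjoin L (Set.range (algebraMap K Λ)) = ⊤ ∧
      ∀ w : Valuation Λ ℤᵐ⁰, (∀ c : L, c ≠ 0 → w (algebraMap L Λ c) = 1) →
        rsize H _ (w.comap (algebraMap K Λ)) * rsize P _ (w.comap (algebraMap K Λ)) ^ m₀ ≤
          w a * rsize Q _ (w.comap (algebraMap K Λ)) ^ m₀

theorem ng_nstmt (hN : NThmIf) (hDL7 : DL7Stmt) : NStmt := by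
  intro K _ _ n N δ Ψ x hS hL hδ hvan
  rcases Nat.eq_zero_or_pos n with rfl | hn
  · -- dimension zero
    exfalso
    obtain ⟨θ, hθ⟩ : ∃ θ : Fin 0 → Ω[K⁄ℂ], Ψ θ ≠ 0 := by
      by_contra hcon
      push Not at hcon
      exact hS.Ψ0 (AlternatingMap.ext fun θ => hcon θ)
    refine hθ (hvan 1 0 (by omega) (Ψ θ) fun v hv => ⟨θ, ⟨fun i => i.elim0, fun _ i => i.elim0⟩, ?_⟩)
    rw [pow_zero, one_mul, pow_one]
  obtain ⟨P, Q, g, hg, hP, hQ, hP1, hQ1, hgeo⟩ := ng_geo Ψ x hS hL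
  obtain ⟨m₀, L, Λ, i1, i2, i3, i4, i5, i6, i7, i8, a, hm₀, ha, htr, hfg, hgen, hw⟩ :=
    hN K n P Q (rowH x) δ hS.trdeg hn ⟨_, Set.finite_range x, hS.gen⟩ hP hQ (bir_rowH x hS.gen)
      hP1 hQ1 ⟨0, rfl⟩ hδ (by
        intro m e hm hem F hF
        have h1 : F * g ^ m ∈ Sec Ψ x m e := by
          intro v hv
          obtain ⟨b, z, lam, hLS⟩ := hL v hv
          obtain ⟨θ, hθ, hΨθ⟩ := hDL7 K n N Ψ x b v z lam hv hLS
          refine ⟨θ, hθ, ?_⟩
          have h2 := hF v hv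
          have h3 := hgeo v hv b z lam hLS
          have hQ0 : rsize Q _ v ≠ 0 := rsize_ne_zero Q v
          rw [rsize_rowH] at h2
          have h4 : v (F * g ^ m) * rsize Q _ v ^ m ≤
              size x v ^ e * v (Ψ θ) ^ m * rsize Q _ v ^ m := by
            calc v (F * g ^ m) * rsize Q _ v ^ m
                = (v F * rsize Q _ v ^ m) * v g ^ m := by
                  rw [map_mul, map_pow]; ac_rfl
              _ ≤ (rsize P _ v ^ m * size x v ^ e) * v g ^ m := mul_le_mul' h2 le_rfl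
              _ = size x v ^ e * (v g * rsize P _ v) ^ m := by
                  rw [mul_pow, mul_comm (v g ^ m), ← mul_assoc, mul_comm (size x v ^ e)]
              _ = size x v ^ e * (v (Ψ θ) * rsize Q _ v) ^ m := by rw [← h3, hΨθ]
              _ = size x v ^ e * v (Ψ θ) ^ m * rsize Q _ v ^ m := by
                  rw [mul_pow, mul_assoc]
          exact (mul_le_mul_iff_of_pos_right (pow_pos (zero_lt_iff.mpr hQ0) m)).mp h4
        have h5 := hvan m e hem _ h1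
        exact (mul_eq_zero.mp h5).resolve_right (pow_ne_zero m hg))
  refine ⟨m₀, 1, L, Λ, i1, i2, i3, i4, i5, i6, i7, i8, a * algebraMap K Λ (g ^ m₀), hm₀, le_rfl,
    mul_ne_zero ha (by simpa using pow_ne_zero m₀ hg), htr, hfg, hgen, ?_⟩
  intro w hwL b z lam hLS
  set v := w.comap (algebraMap K Λ) with hv
  have hvT : Triv v := by
    intro c hc
    rw [hv, Valuation.comap_apply, ← IsScalarTower.algebraMap_apply ℂ K Λ,
      IsScalarTower.algebraMap_apply ℂ L Λ]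
    exact hwL _ (by simpa using hc)
  have h2 := hw w hwL
  rw [← hv, rsize_rowH] at h2
  have h3 := hgeo v hvT b z lam hLS
  have hQ0 : rsize Q _ v ≠ 0 := rsize_ne_zero Q v
  have hg' : w (algebraMap K Λ (g ^ m₀)) = v g ^ m₀ := by
    rw [map_pow, map_pow, hv, Valuation.comap_apply]
  have h4 : size x v ^ 1 * kSize Ψ v z lam ^ m₀ * rsize Q _ v ^ m₀ ≤
      w (a * algebraMap K Λ (g ^ m₀)) * rsize Q _ v ^ m₀ := by
    calc size x v ^ 1 * kSize Ψ v z lam ^ m₀ * rsize Q _ v ^ m₀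
        = size x v * (kSize Ψ v z lam * rsize Q _ v) ^ m₀ := by
          rw [pow_one, mul_pow, mul_assoc]
      _ = (size x v * rsize P _ v ^ m₀) * v g ^ m₀ := by
          rw [h3, mul_pow]; ac_rfl
      _ ≤ (w a * rsize Q _ v ^ m₀) * v g ^ m₀ := mul_le_mul' h2 le_rfl
      _ = w (a * algebraMap K Λ (g ^ m₀)) * rsize Q _ v ^ m₀ := by
          rw [map_mul, hg']; ac_rfl
  exact (mul_le_mul_iff_of_pos_right (pow_pos (zero_lt_iff.mpr hQ0) m₀)).mp h4

end Pool.Agent.Lib.MP_410da7_agA
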