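import Pool.Agent.Lib.MP_410da7_agA.Cert
import Pool.Agent.Lib.MP_cc17a8_ag.PlacesDedekind

/-!
# MP_410da7_ag, smooth affine varieties (C46): the certificate in terms of valuation rings

`VCert` is the form of the certificate which block D produces: statements about the valuation
subrings `V` of `Λ` which contain the field of constants `k`. In characteristic zero it implies the
identities `Cert` (`cert_of_vcert`).
-/

set_option autoImplicit false

namespace Pool.Agent.Lib.MP_410da7_agA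

open MvPolynomial Module

/-- THE CERTIFICATE IN TERMS OF VALUATION RINGS. `z = y b₀`; `V` runs through the valuation subrings
of `Λ` which contain `k`; the `V` with `z ∈ V` are the finite places (and `Λ` itself), the `V` with
`z ∉ V` are the places at infinity. `α` is the coefficient of the form with respect to
`(dy_{I₀ᶜ})^{m₀}`. -/
structure VCert {k Λ : Type} [Field k] [Field Λ] [Algebra k Λ] {M κ r d : ℕ}
    (S : System k M κ r d) (n m₀ e₀ E₀ : ℕ) (y : Fin (M + 1) → Λ) (b₀ : Fin (M + 1)) (α : Λ) :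
    Prop where
  dimM : M = n + r
  y0 : y 0 = 1
  yF : ∀ j, aeval y (S.F j) = 0
  g0 : aeval y S.g ≠ 0
  J0 : minor S.F S.I₀ y S.J₀ ≠ 0
  trans : Transcendental k (y b₀)
  fin : FiniteDimensional (IntermediateField.adjoin k {y b₀}) Λ
  m0 : 1 ≤ m₀
  e0 : 1 ≤ e₀
  α0 : α ≠ 0
  y_fin : ∀ V : ValuationSubring Λ, (∀ c : k, algebraMap k Λ c ∈ V) → y b₀ ∈ V → ∀ l, y l ∈ V
  y_inf : ∀ V : ValuationSubring Λ, (∀ c : k, algebraMap k Λ c ∈ V) → y b₀ ∉ V →
    ∀ l, y l / y b₀ ∈ V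
  c_fin : ∀ V : ValuationSubring Λ, (∀ c : k, algebraMap k Λ c ∈ V) → y b₀ ∈ V →
    ∃ J : Fin r → Fin κ, minor S.F S.I₀ y J ≠ 0 ∧ (α * minor S.F S.I₀ y J ^ m₀)⁻¹ ∈ V
  c_inf : ∀ V : ValuationSubring Λ, (∀ c : k, algebraMap k Λ c ∈ V) → y b₀ ∉ V →
    ∃ (T : LogPoly S.F b₀) (J : Fin r → Fin κ) (x : Λ), x ≠ 0 ∧ aeval y T.χ ≠ 0 ∧
      aeval y T.a ≠ 0 ∧ minor S.F S.I₀ y J ≠ 0 ∧ (aeval y T.χ / y b₀ ^ T.e₁)⁻¹ ∈ V ∧
      (tau S n m₀ e₀ y b₀ α T J x)⁻¹ ∈ V ∧ (aeval y T.a / y b₀ ^ T.e) ^ T.lam * y b₀ ∈ V ∧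
      y b₀ / x ^ E₀ ∈ V

end Pool.Agent.Lib.MP_410da7_agA
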