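import Pool.Agent.Lib.MP_410da7_agA.SDefs
import Pool.Agent.Lib.MP_410da7_agA.VCert

/-!
# MP_410da7_ag, smooth affine varieties (C46): block D

From the negative curve (`NegCurve`) and the smoothness of `X` to the certificate (`VCert`), and the
final theorem.
-/

set_option autoImplicit false

namespace Pool.Agent.Lib.MP_410da7_agA

open MvPolynomial KaehlerDifferential WithZero Module
open Pool.Agent.Lib.MP_410da7_ag (regDiff logDiff regGens logGens A1Uniruled LogKodairaNegInf dim)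

/-! ## Definitions -/

/-- `s = y / y_b`: the affine coordinates on the chart `y_b ≠ 0`. -/
noncomputable def aff {K : Type} [Field K] {M : ℕ} (y : Fin (M + 1) → K) (b : Fin (M + 1)) :
    Fin (M + 1) → K :=
  fun l => y l / y b

/-- The projective model with coordinates `y` is regular at the center of `v`: `y_b` has maximal value,
and every element `f` of the valuation ring is a quotient of polynomials in the `y_l/y_b`, with
denominator a unit. -/
structure Chart {K : Type} [Field K] [Algebra ℂ K] {M : ℕ} (y : Fin (M + 1) → K)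
    (b : Fin (M + 1)) (v : Valuation K ℤᵐ⁰) : Prop where
  ne : y b ≠ 0
  max : ∀ l, v (y l) ≤ v (y b)
  loc : ∀ f : K, v f ≤ 1 → ∃ P Q : MvPolynomial (Fin (M + 1)) ℂ,
    v (aeval (aff y b) Q) = 1 ∧ f * aeval (aff y b) Q = aeval (aff y b) P

/-- Homogenization with respect to the variable `X_b`, in degree `e`: `∑ c_m X^m X_b^(e - |m|)`. -/
noncomputable def hom {k : Type} [CommRing k] {M : ℕ} (b : Fin (M + 1)) (e : ℕ)
    (P : MvPolynomial (Fin (M + 1)) k) : MvPolynomial (Fin (M + 1)) k :=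
  ∑ m ∈ P.support, monomial m (P.coeff m) * X b ^ (e - m.degree)

/-- The equations of the projective model: homogeneous of degree `d`, vanishing at `y`, and every
homogeneous polynomial that vanishes at `y` is in the ideal `(F)` after multiplication by `X_b^d`, for
every variable `X_b`. -/
structure Eqs {k K : Type} [Field k] [Field K] [Algebra k K] {M κ : ℕ} (d : ℕ)
    (y : Fin (M + 1) → K) (F : Fin κ → MvPolynomial (Fin (M + 1)) k) : Prop where
  hom : ∀ j, (F j).IsHomogeneous d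
  zero : ∀ j, aeval y (F j) = 0
  gen : ∀ (e : ℕ) (G : MvPolynomial (Fin (M + 1)) k), G.IsHomogeneous e → aeval y G = 0 →
    ∀ b, X b ^ d * G ∈ Ideal.span (Set.range F)

/-- `det [Y_S; (dY)_S]`, with `Ψ` as the determinant of the differentials:
`∑_i (-1)^i Y_{S i} Ψ(dY_{S 0}, ..., omit i, ..., dY_{S n})`. -/
noncomputable def coneDet {K : Type} [Field K] [Algebra ℂ K] {n M : ℕ}
    (Ψ : Ω[K⁄ℂ] [⋀^Fin n]→ₗ[K] K) (Y : Fin (M + 1) → K) (S : Fin (n + 1) → Fin (M + 1)) : K :=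
  ∑ i : Fin (n + 1), (-1) ^ (i : ℕ) * Y (S i) * Ψ (fun a => D ℂ K (Y (S (i.succAbove a))))

/-! ## Valuation rings of the generic curve -/

/-- D1. Valuation subrings of `Λ` containing `L` are given by valuations with values in `ℤᵐ⁰`.
PROOF. `V = Λ`: the trivial valuation. Otherwise let `f ∉ V`, `s = 1/f ∈ 𝔪_V`; `s` is transcendental
over `L` (a valuation ring containing `L` contains the elements algebraic over `L`, and `f` would be
one), `Λ` is finite over `L(s)`; let `O` be the integral closure of `L[s]` in `Λ`, a Dedekind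
domain with fraction field `Λ`, `O ⊆ V`, `𝔭 = O ∩ 𝔪_V ∋ s`, `O_𝔭 ⊆ V` is a discrete valuation ring and
`V ≠ Λ`, so `V = O_𝔭`; `w` = the valuation of `𝔭`. (See also
`Pool.Agent.Lib.MP_cc17a8_ag.PlacesDedekind`.) -/
def D1Stmt : Prop :=
  ∀ (L Λ : Type) [Field L] [Field Λ] [Algebra L Λ] [CharZero L], Algebra.trdeg L Λ = 1 →
    (∃ T : Set Λ, T.Finite ∧ IntermediateField.adjoin L T = ⊤) →
    ∀ V : ValuationSubring Λ, (∀ c : L, algebraMap L Λ c ∈ V) →
    ∃ w : Valuation Λ ℤᵐ⁰, (∀ c : L, c ≠ 0 → w (algebraMap L Λ c) = 1) ∧ ∀ f, f ∈ V ↔ w f ≤ 1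

/-- D2. Finitely many places at infinity.
PROOF. For every `l` with `x_l` transcendental over `L`: the `V` with `x_l ∉ V` contain `1/x_l` in their
maximal ideal, so they are the localizations of the integral closure of `L[1/x_l]` in `Λ` (Dedekind) at
the finitely many primes which contain `1/x_l`. If `x_l` is algebraic over `L` then `x_l ∈ V` always. -/
def D2Stmt : Prop :=
  ∀ (L Λ : Type) [Field L] [Field Λ] [Algebra L Λ] [CharZero L], Algebra.trdeg L Λ = 1 →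
    (∃ T : Set Λ, T.Finite ∧ IntermediateField.adjoin L T = ⊤) → ∀ (N : ℕ) (x : Fin N → Λ),
    ∃ (s : ℕ) (w : Fin s → Valuation Λ ℤᵐ⁰),
      (∀ j, ∀ c : L, c ≠ 0 → w j (algebraMap L Λ c) = 1) ∧ (∀ j, ∃ l, 1 < w j (x l)) ∧
      ∀ V : ValuationSubring Λ, (∀ c : L, algebraMap L Λ c ∈ V) → (∃ l, x l ∉ V) →
        ∃ j, ∀ f, f ∈ V ↔ w j f ≤ 1

/-! ## The projective model -/

/-- D3. The valuation ring of a divisor is essentially of finite type.
PROOF. (Compare B1.) `F = ℂ(t_1, ..., t_{n-1}) ⊆ K`, `v` is trivial on `F`, `trdeg_F K = 1`. Choose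
`s ∈ K` transcendental over `F` with `v s ≤ 1` (`s` or `1/s`), `O'` = the integral closure of `F[s]` in
`K`, a finite `F[s]`-module, generated by `c_1, ..., c_k`, Dedekind; `O' ⊆ O_v` (`O_v` is integrally
closed), `𝔭 = O' ∩ 𝔪_v ≠ 0` (`v` nontrivial), `O_v = O'_𝔭`. So `f = o/h`, `o, h ∈ O'`, `v h = 1`. The
coefficients in `F` have a common denominator `p(t)`, `v(p(t)) = 1`: `f = P(a)/Q(a)` with
`a = (t, s, c)`. -/
def D3Stmt : Prop :=
  ∀ (K : Type) [Field K] [Algebra ℂ K] (n N : ℕ) (x : Fin N → K),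
    IntermediateField.adjoin ℂ (Set.range x) = ⊤ → 1 ≤ n → Algebra.trdeg ℂ K = n →
    ∀ (v : Valuation K ℤᵐ⁰), Triv v → (∃ f : K, f ≠ 0 ∧ v f ≠ 1) →
    ∀ (t : Fin (n - 1) → K), ResIndep v t →
    ∃ (k : ℕ) (a : Fin k → K), (∀ i, v (a i) ≤ 1) ∧ ∀ f : K, v f ≤ 1 →
      ∃ P Q : MvPolynomial (Fin k) ℂ, v (aeval a Q) = 1 ∧ f * aeval a Q = aeval a P

/-- D4. The projective model: coordinates `y_0 = 1, ..., y_M` which generate `R`, with the chosen
coordinate `y_b` of maximal value at all the given valuations, and regular there.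
PROOF. (1) For one `v = v_j`: D3 gives `a_1..a_k`; write `a_i = f_i/f_0`, `f_i ∈ R`, and multiply
`f_0, ..., f_k` by a power of an `x_l` with `v(x_l) > 1` so that `v(f_0) ≥ 1`. The finite family
`G_j = {1, f_0, ..., f_k}` has `f_0` of maximal value, and its ratios `g/f_0` contain the `a_i`. (2) `G` =
all products `g_1 ... g_s x'`, `g_j ∈ G_j`, `x' ∈ {1, x_1, ..., x_N}`. At `v_j` a product of maximal
elements is maximal and its ratios contain the ratios of `G_j`, so the `a_i` for `v_j`. (3) Take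
`z = ∑ c_g g`, `c_g ∈ ℂ`, such that `v_j(z)` is the maximal value for all `j`: the `c` for which this
fails at `v_j` form a proper subspace (the residue of `z/g_*` is a nonzero linear form in `c`),
finitely many proper subspaces do not cover `ℂ^G`. `y` = the enumeration of `G` with `y_0 = 1`, and `z`
in addition as `y_b`. `Chart.loc`: a polynomial in the `g/g_*` is, multiplied by a power of
`g_*/z` (a unit at `v_j`, and a coordinate `y_l/z`), a polynomial in the `y_l/z`. The `x_l` are among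
the `y_l`, so the `y_l` generate `R`. -/
def D4Stmt : Prop :=
  ∀ (R K : Type) [CommRing R] [IsDomain R] [Algebra ℂ R] [Field K] [Algebra R K]
    [IsFractionRing R K] [Algebra ℂ K] [IsScalarTower ℂ R K] (n N s : ℕ) (x : Fin N → R),
    Algebra.adjoin ℂ (Set.range x) = ⊤ → 1 ≤ n → Algebra.trdeg ℂ K = n →
    ∀ (v : Fin s → Valuation K ℤᵐ⁰), (∀ j, Triv (v j)) → (∀ j, ∃ l, 1 < v j (algebraMap R K (x l))) →
    (∀ j, ∃ t : Fin (n - 1) → K, ResIndep (v j) t) →
    ∃ (M : ℕ) (y : Fin (M + 1) → R) (b : Fin (M + 1)), y 0 = 1 ∧ y b ≠ 0 ∧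
      (∀ l, ∃ l', y l' = x l) ∧ ∀ j, Chart (fun l => algebraMap R K (y l)) b (v j)

/-! ## Equations -/

/-- D5. Homogenization.
PROOF. Termwise. The last claim: `aeval y (hom b e P)` is `∑ c_m y^m y_b^(e-|m|)`. -/
def D5Stmt : Prop :=
  ∀ (k K : Type) [Field k] [Field K] [Algebra k K] (M : ℕ) (b : Fin (M + 1)) (e : ℕ)
    (P : MvPolynomial (Fin (M + 1)) k), P.totalDegree ≤ e →
    (hom b e P).IsHomogeneous e ∧
    ∀ y : Fin (M + 1) → K, y b ≠ 0 → aeval y (hom b e P) = y b ^ e * aeval (aff y b) P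

/-- D6. Local complete intersection at the generic point (triangular system).
PROOF. Choose `I : Fin r → Fin M` such that the `y_l`, `l ∉ range I`, are a transcendence basis of `K/k`.
Let `K_i = k(y_l : l ∉ range I, or l = I 0, ..., I (i-1))`. `P_i ∈ k[X]` in the variables
`l ∉ range I`, `I 0, ..., I i`, a minimal polynomial of `y_{I i}` over `K_i`, denominators cleared
(`P_i(y) = 0`, of minimal degree in `X_{I i}`, leading coefficient `c_i` with `c_i(y) ≠ 0`,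
`∂P_i/∂X_{I i}(y) ≠ 0` because of characteristic zero). The matrix `∂_{I l} P_i(y)` is triangular with
nonzero diagonal. If `G(y) = 0`: divide by `P_{r-1}` in `X_{I (r-1)}`:
`c_{r-1}^a G ≡ ∑_t G_t X_{I (r-1)}^t` with `t < deg`, the `G_t` not involving `X_{I (r-1)}`; by minimality
`G_t(y) = 0`, and by induction `g_t G_t ∈ (P_0, ..., P_{r-2})`, `g_t(y) ≠ 0`; take the product of the
`g_t` and `c_{r-1}^a`. -/
def D6Stmt : Prop :=
  ∀ (k K : Type) [Field k] [Field K] [Algebra k K] [CharZero k] (n M : ℕ) (y : Fin M → K),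
    IntermediateField.adjoin k (Set.range y) = ⊤ → Algebra.trdeg k K = n →
    ∃ (r : ℕ) (I : Fin r → Fin M) (P : Fin r → MvPolynomial (Fin M) k), M = n + r ∧
      Function.Injective I ∧ (∀ i, aeval y (P i) = 0) ∧
      (Matrix.of fun i l => aeval y (pderiv (I l) (P i))).det ≠ 0 ∧
      ∀ G : MvPolynomial (Fin M) k, aeval y G = 0 → ∃ g : MvPolynomial (Fin M) k,
        aeval y g ≠ 0 ∧ g * G ∈ Ideal.span (Set.range P)

/-- D7. The system of equations of the projective model.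
PROOF. The ideal of `k[X_0..X_M]` generated by the homogeneous polynomials vanishing at `y` is generated
by finitely many homogeneous `G_i` of degrees `d_i`. D6 for `(y_1, ..., y_M)` (`y_0 = 1`) gives `r, I, P_i`
in the variables `X_1..X_M`; `P_i^h = hom 0 e_i P_i`. Let `d` be larger than all `d_i`, `e_i`, and
`F` = all `X^ε G_i` with `|ε| = d - d_i`, and the `X_0^(d - e_i) P_i^h` (in the first `r` places, `J₀`).
`Eqs.gen`: `G = ∑ H_i G_i`, `X_b^d G = ∑ H_i X_b^{d_i} (X_b^(d-d_i) G_i)`. `I₀ = ` `succ ∘ I`. The minor: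
`∂_{I₀ l}(X_0^(d-e_i) P_i^h)(y) = ∂_{I l} P_i(y)` (`y_0 = 1`). The relation: for each `j` the polynomial
`F_j(1, X_1..X_M)` vanishes at `y`, so `g_j F_j(1, X) = ∑ A_{j,i} P_i`; a common `g`; homogenize
(every polynomial `H(X_0..X_M)` homogeneous of degree `e` is `hom 0 e` of `H(1, X)`):
`X_0^a hom(g) F_j = ∑ X_0^{...} hom(A_{j,i}) F_{J₀ i}` for large `a`. (`hom` is multiplicative up to
powers of `X_0`.) -/
def D7Stmt : Prop :=
  ∀ (k K : Type) [Field k] [Field K] [Algebra k K] [CharZero k] (n M : ℕ) (y : Fin (M + 1) → K),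
    y 0 = 1 → IntermediateField.adjoin k (Set.range y) = ⊤ → Algebra.trdeg k K = n →
    ∃ (κ r d : ℕ) (S : System k M κ r d), M = n + r ∧ Eqs d y S.F ∧ Function.Injective S.I₀ ∧
      (∀ l, S.I₀ l ≠ 0) ∧ aeval y S.g ≠ 0 ∧ minor S.F S.I₀ y S.J₀ ≠ 0

/-! ## Minors -/

/-- D8. Complementary minors.
PROOF. Let `G` be the square matrix with the rows of `A` and the unit vectors `e_{e(inr b)}`, and `Z` the
square matrix with the columns unit vectors `e_{e'(inl a)}` and the columns of `Bᵀ`. `G Z` is block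
triangular with diagonal blocks `A_{e' inl}` and `(B_{e inr})ᵀ`; `det G = ± det A_{e inl}`,
`det Z = ± det B_{e' inr}`. -/
def D8Stmt : Prop :=
  ∀ (K : Type) [Field K] (p q m : ℕ) (A : Matrix (Fin p) (Fin m) K) (B : Matrix (Fin q) (Fin m) K),
    A * B.transpose = 0 → ∀ (e e' : Fin p ⊕ Fin q ≃ Fin m),
    (A.submatrix id (e ∘ Sum.inl)).det * (B.submatrix id (e' ∘ Sum.inr)).det =
        (A.submatrix id (e' ∘ Sum.inl)).det * (B.submatrix id (e ∘ Sum.inr)).det ∨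
    (A.submatrix id (e ∘ Sum.inl)).det * (B.submatrix id (e' ∘ Sum.inr)).det =
        -((A.submatrix id (e' ∘ Sum.inl)).det * (B.submatrix id (e ∘ Sum.inr)).det)

/-- D9. The forms on the cone and the minors of the Jacobian matrix.
PROOF. Choose a basis of `Ω[K⁄ℂ]` (dimension `n`), `dY_l = (c_{1,l}, ..., c_{n,l})`,
`Ψ(dY_{l_1}, ..., dY_{l_n}) = c det(c_{a, l_b})`; `coneDet Ψ Y S = c det [Y_S; c_S]` (expansion along the
first row). `A = [Y; c]` is `(n+1) × (M+1)`, `B = (∂_l F_{J i}(Y))`; `A Bᵀ = 0`: Euler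
(`∑ Y_l ∂_l F = d F = 0`), and the differential of `F_j(Y) = 0`. D8. -/
def D9Stmt : Prop :=
  ∀ (K : Type) [Field K] [Algebra ℂ K] (n M r κ d : ℕ), Algebra.trdeg ℂ K = n →
    (∃ T : Set K, T.Finite ∧ IntermediateField.adjoin ℂ T = ⊤) → M = n + r →
    ∀ (Ψ : Ω[K⁄ℂ] [⋀^Fin n]→ₗ[K] K) (F : Fin κ → MvPolynomial (Fin (M + 1)) ℂ)
      (Y : Fin (M + 1) → K), (∀ j, (F j).IsHomogeneous d) → (∀ j, aeval Y (F j) = 0) →
    ∀ (J : Fin r → Fin κ) (e e' : Fin (n + 1) ⊕ Fin r ≃ Fin (M + 1)) (v : Valuation K ℤᵐ⁰),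
      v (coneDet Ψ Y (e ∘ Sum.inl)) * v (minor F (e' ∘ Sum.inr) Y J) =
        v (coneDet Ψ Y (e' ∘ Sum.inl)) * v (minor F (e ∘ Sum.inr) Y J)

/-- D10. Scaling and normalization of `coneDet`.
PROOF. `d(gY_l) = g dY_l + Y_l dg`: in `coneDet Ψ (gY) S` (a determinant, in coordinates) subtract
multiples of the first row; or expand: the terms with one `dg` cancel in pairs. If `S 0 = b` and
`Y_b = 1` then `dY_b = 0`, only the term `i = 0` remains. -/
def D10Stmt : Prop :=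
  ∀ (K : Type) [Field K] [Algebra ℂ K] (n M : ℕ) (Ψ : Ω[K⁄ℂ] [⋀^Fin n]→ₗ[K] K)
    (Y : Fin (M + 1) → K) (S : Fin (n + 1) → Fin (M + 1)),
    (∀ g : K, coneDet Ψ (fun l => g * Y l) S = g ^ (n + 1) * coneDet Ψ Y S) ∧
    (Y (S 0) = 1 → coneDet Ψ Y S = Ψ (fun a => D ℂ K (Y (S a.succ))))

/-- D11. Regularity at a finite place. For `X` smooth, at every valuation with center on `X` some minor
of the Jacobian matrix, in `r` of the variables `X_1, ..., X_M`, is a unit.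
PROOF. `𝔭 = {a ∈ R : v a < 1}`, `κ(𝔭)` its residue field. `Ω[R⁄ℂ]` is projective (`Algebra.Smooth`), `R`
is a domain, so `κ(𝔭) ⊗ Ω[R⁄ℂ]` has the dimension of `K ⊗ Ω[R⁄ℂ] = Ω[K⁄ℂ]`, which is `n`. `R` is
`ℂ[X_1..X_M]/(F_j(1, X))` (`Eqs.gen` with `b = 0`, after homogenization), so `Ω[R⁄ℂ]` is the cokernel of
the transposed Jacobian matrix `(∂_l F_j(y))_{j, l ≥ 1}`. Hence this matrix has rank `M - n = r` modulo
`𝔭`, and some `r × r` minor is not in `𝔭`; `v` of it is `1`. `e` is an enumeration with the complement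
of the columns, starting with `0`. -/
def D11Stmt : Prop :=
  ∀ (R K : Type) [CommRing R] [IsDomain R] [Algebra ℂ R] [Algebra.Smooth ℂ R] [Field K]
    [Algebra R K] [IsFractionRing R K] [Algebra ℂ K] [IsScalarTower ℂ R K] (n M r κ d : ℕ)
    (y : Fin (M + 1) → R) (F : Fin κ → MvPolynomial (Fin (M + 1)) ℂ), M = n + r →
    Algebra.trdeg ℂ K = n → Algebra.adjoin ℂ (Set.range y) = ⊤ → y 0 = 1 →
    Eqs d (fun l => algebraMap R K (y l)) F →
    ∀ v : Valuation K ℤᵐ⁰, Triv v → (∀ a : R, v (algebraMap R K a) ≤ 1) →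
    ∃ (J : Fin r → Fin κ) (e : Fin (n + 1) ⊕ Fin r ≃ Fin (M + 1)), e (Sum.inl 0) = 0 ∧
      v (minor F (e ∘ Sum.inr) (fun l => algebraMap R K (y l)) J) = 1

/-- D12. Derivations of the valuation ring of a divisor into its residue field.
`κ` is a field, `res` the residue map on the valuation ring of `v` (`res f = 0 ↔ v f < 1`), `ζ` generates
the maximal ideal. (1) A `ℂ`-derivation `δ : O_v → κ` with `δ t_i = 0` (`t` with independent residues,
`n - 1 = trdeg K - 1` elements) and `δ ζ = 0` vanishes.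
PROOF. `f ∈ 𝔪_v`: `f = ζ f'`, `δ f = res(f') δ ζ + res(ζ) δ f' = 0`. So `δ` factors through the residue
field `κ_v ⊆ κ`. `κ_v` is algebraic over `ℂ(t)`: otherwise there are `n` elements with independent
residues, `v` would be trivial on a subfield over which `K` is algebraic, so trivial. For `f ∈ O_v` take
the minimal polynomial of its residue over `ℂ(t)`: `p(t, f) ∈ 𝔪_v` with `∂p/∂f ∉ 𝔪_v` (characteristic
zero), so `0 = δ(p(t, f)) = res(∂p/∂f) δ f` (the derivatives by the `t_i` do not contribute). -/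
def D12Stmt : Prop :=
  ∀ (K : Type) [Field K] [Algebra ℂ K] (n : ℕ), Algebra.trdeg ℂ K = n → 1 ≤ n →
    ∀ (v : Valuation K ℤᵐ⁰), Triv v → ∀ (t : Fin (n - 1) → K), ResIndep v t →
    ∀ (ζ : K), ζ ≠ 0 → v ζ < 1 → (∀ f : K, v f < 1 → v f ≤ v ζ) →
    ∀ (κ : Type) [Field κ] [Algebra ℂ κ] (res : v.integer →+* κ),
    (∀ c : ℂ, ∀ h : algebraMap ℂ K c ∈ v.integer, res ⟨algebraMap ℂ K c, h⟩ = algebraMap ℂ κ c) →
    (∀ f : v.integer, res f = 0 ↔ v (f : K) < 1) →
    ∀ (δ : v.integer → κ), (∀ f g, δ (f + g) = δ f + δ g) →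
    (∀ f g, δ (f * g) = res f * δ g + res g * δ f) →
    (∀ c : ℂ, ∀ h : algebraMap ℂ K c ∈ v.integer, δ ⟨algebraMap ℂ K c, h⟩ = 0) →
    (∀ i, ∀ h : t i ∈ v.integer, δ ⟨t i, h⟩ = 0) → (∀ h : ζ ∈ v.integer, δ ⟨ζ, h⟩ = 0) →
    ∀ f, δ f = 0

/-- D13. Regularity at a place at infinity. With `s = aff y b`: some `r × r` minor of the Jacobian
matrix at `s`, in `r` of the variables different from `X_b`, is a unit at `v`.
PROOF. `κ` = the residue field of `v`, entries of the matrix `(∂_l F_j(s))`, `l ≠ b`, are in `O_v`. If all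
`r × r` minors are in the maximal ideal, the reduced matrix has rank `< r`, so the space of the
`ξ ∈ κ^{l ≠ b}` with `∑_l res(∂_l F_j(s)) ξ_l = 0` for all `j` has dimension `> M - r = n`. Such a `ξ`
defines a derivation `δ : O_v → κ` with `δ s_l = ξ_l`: on `ℂ[s]` by
`δ(P(s)) = ∑_l res(∂_l P(s)) ξ_l` (well defined: if `P(s) = 0` then `hom b e P` vanishes at `y`, so
`X_b^d hom b e P ∈ (F)` by `Eqs.gen`; put `X_b = 1`: `P(X, X_b = 1) ∈ (F(X, X_b = 1))`), and on
`O_v = ℂ[s]_𝔭` (`Chart.loc`) by the quotient rule. By D12 a derivation is determined by its values on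
`t_1..t_{n-1}, ζ`, so the dimension is `≤ n`. Contradiction. -/
def D13Stmt : Prop :=
  ∀ (K : Type) [Field K] [Algebra ℂ K] (n M r κ d : ℕ) (y : Fin (M + 1) → K) (b : Fin (M + 1))
    (F : Fin κ → MvPolynomial (Fin (M + 1)) ℂ), M = n + r → 1 ≤ n → Algebra.trdeg ℂ K = n →
    Eqs d y F → ∀ v : Valuation K ℤᵐ⁰, Triv v → (∃ f : K, f ≠ 0 ∧ v f ≠ 1) → Chart y b v →
    ∀ (t : Fin (n - 1) → K), ResIndep v t →
    ∃ (J : Fin r → Fin κ) (e : Fin (n + 1) ⊕ Fin r ≃ Fin (M + 1)), e (Sum.inl 0) = b ∧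
      v (minor F (e ∘ Sum.inr) (aff y b) J) = 1

/-- D14. The logarithmic frame at a place at infinity. `J, e` as in D13, `ζ = a(s)` a generator of the
maximal ideal. There is a frame with `v(Ψ θ) v(ζ) = v(Ψ(ds_{e inl 1}, ..., ds_{e inl n}))`.
PROOF. As in D13 the derivations `O_v → κ` are the `ξ ∈ κ^{l ≠ b}` in the kernel of the reduced Jacobian
matrix, which has a unit minor in the columns `e inr`: so `ξ` is determined by `ξ_l`, `l = e (inl (a+1))`.
(1) The differentials: `∑_l ∂_l F_{J i}(s) ds_l = 0`, so by Cramer `ds_m`, `m ∈ range (e inr)`, is a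
combination with coefficients in `O_v` of the `ds_{e inl (a+1)}`; hence
`dζ = ∑_a u_a ds_{e inl (a+1)}`, `u_a ∈ O_v`, and `δ ζ = ∑ res(u_a) δ(s_{e inl (a+1)})` for every
derivation `δ`. (2) Some `u_a` is a unit: otherwise `δ ζ = 0` for all `δ`; but the space of the `δ` has
dimension `≥ M - r = n` (the reduced matrix has rank `≤ r`, since the matrix has rank `≤ r` over `K`:
its rows are orthogonal to `n` independent vectors), and the `δ` with `δ ζ = 0` are determined by the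
`n - 1` values `δ t_i` (D12). (3) `θ_a = dζ/ζ` for one `a` with `u_a` a unit, `θ_{a'} = ds_{e inl (a'+1)}`
for the others: `Ψ θ = u_a Ψ(ds)/ζ`. -/
def D14Stmt : Prop :=
  ∀ (K : Type) [Field K] [Algebra ℂ K] (n M r κ d : ℕ) (Ψ : Ω[K⁄ℂ] [⋀^Fin n]→ₗ[K] K)
    (y : Fin (M + 1) → K) (b : Fin (M + 1)) (F : Fin κ → MvPolynomial (Fin (M + 1)) ℂ),
    M = n + r → 1 ≤ n → Algebra.trdeg ℂ K = n →
    (∃ T : Set K, T.Finite ∧ IntermediateField.adjoin ℂ T = ⊤) → Ψ ≠ 0 →
    Eqs d y F → ∀ v : Valuation K ℤᵐ⁰, Triv v → (∃ f : K, f ≠ 0 ∧ v f ≠ 1) → Chart y b v →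
    ∀ (t : Fin (n - 1) → K), ResIndep v t →
    ∀ (J : Fin r → Fin κ) (e : Fin (n + 1) ⊕ Fin r ≃ Fin (M + 1)), e (Sum.inl 0) = b →
      v (minor F (e ∘ Sum.inr) (aff y b) J) = 1 →
    ∀ ζ : K, ζ ≠ 0 → v ζ < 1 → (∀ f : K, v f < 1 → v f ≤ v ζ) →
    ∃ θ : Fin n → Ω[K⁄ℂ], (∀ i, θ i ∈ logDiff v) ∧
      v (Ψ θ) * v ζ = v (Ψ (fun a => D ℂ K (aff y b (e (Sum.inl a.succ)))))

/-- D15. The relation `x_0 χ^N x_b^E = a^λ q` at a place at infinity.
PROOF. Let `ϖ` be a uniformizer of `v`, `ϖ Q₁(s) = P₁(s)`, `v(Q₁(s)) = 1` (`Chart.loc`): `ζ = P₁(s)` is a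
uniformizer. `s_0 = 1/y_b`, `v(s_0) = v(ζ)^lam`, `lam ≥ 1`; `f = s_0/ζ^lam` has value `1`:
`f Q(s) = P(s)`, `v(Q(s)) = v(P(s)) = 1`. Let `a = hom b e P₁`, `χ = hom b e₁ Q`, `q' = hom b e' P` (D5).
`s_0 Q(s) = ζ^lam P(s)` gives `χ(y)/y_b^(e₁+1) = (a(y)/y_b^e)^lam q'(y)/y_b^e'`, i.e. (`y_0 = 1`) the
homogeneous polynomial `X_0 χ X_b^(lam e + e') - a^lam q' X_b^(e₁+1)` vanishes at `y`; multiply by `X_b^d`
(`Eqs.gen`). `N = 1`, `E = lam e + e' + d`, `q = q' X_b^(e₁+1+d)`, `e₂ = e' + e₁ + 1 + d`. -/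
def D15Stmt : Prop :=
  ∀ (K : Type) [Field K] [Algebra ℂ K] (M κ d : ℕ) (y : Fin (M + 1) → K) (b : Fin (M + 1))
    (F : Fin κ → MvPolynomial (Fin (M + 1)) ℂ), y 0 = 1 → Eqs d y F →
    ∀ v : Valuation K ℤᵐ⁰, Triv v → Chart y b v → 1 < v (y b) →
    ∃ T : LogPoly F b, v (aeval y T.χ / y b ^ T.e₁) = 1 ∧ aeval y T.a ≠ 0 ∧
      v (aeval y T.a / y b ^ T.e) < 1 ∧ (∀ f : K, v f < 1 → v f ≤ v (aeval y T.a / y b ^ T.e)) ∧
      v (aeval y T.a / y b ^ T.e) ^ T.lam * v (y b) = 1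

/-! ## The certificate -/

/-- The data of the projective model over `K`, as produced by D4 and D7. -/
structure Model (R K : Type) [CommRing R] [Algebra ℂ R] [Field K] [Algebra R K] [Algebra ℂ K]
    {N M κ r d : ℕ} (n : ℕ) (x : Fin N → R) (y : Fin (M + 1) → R) (b : Fin (M + 1))
    (S : System ℂ M κ r d) : Prop where
  y0 : y 0 = 1
  yb : y b ≠ 0
  xy : ∀ l, ∃ l', y l' = x l
  dimM : M = n + r
  eqs : Eqs d (fun l => algebraMap R K (y l)) S.F
  inj : Function.Injective S.I₀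
  I0 : ∀ l, S.I₀ l ≠ 0
  g0 : aeval (fun l => algebraMap R K (y l)) S.g ≠ 0
  J0 : minor S.F S.I₀ (fun l => algebraMap R K (y l)) S.J₀ ≠ 0

/-- Base change of a system to a larger field of constants. -/
noncomputable def System.map {k M κ r d} [Field k] (S : System k M κ r d) (k' : Type) [Field k']
    [Algebra k k'] : System k' M κ r d where
  F j := MvPolynomial.map (algebraMap k k') (S.F j)
  hom j := (S.hom j).map _
  I₀ := S.I₀
  J₀ := S.J₀
  g := MvPolynomial.map (algebraMap k k') S.g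
  A j i := MvPolynomial.map (algebraMap k k') (S.A j i)
  rel j := by rw [← map_mul, S.rel j, map_sum]; simp only [map_mul]

/-- D16. Finite places. With `e₀'` an enumeration of the complement of `I₀`, `0` first:
`α = a / Ψ(dy_{S₀})^m₀`.
PROOF. D1: `w` for `V`, `v = w|K` has a center on `X` (`x_l ∈ V` for all `l`), `R ⊆ V`. D11: `J`, `e` with
`e inl 0 = 0` and `v(minor) = 1`. `θ = (dy_{e inl (a+1)})` is a frame (regular, `y_l ∈ R`), so
`v(Ψ θ)^m₀ ≤ w a` (`size = 1`). D9 for `Y = y`, with D10 (`Y_0 = 1`):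
`v(Ψ(dy_{S₀})) v(minor F (e inr)) = v(Ψ θ) v(minor F I₀)`, so `v(minor F I₀) = v(Ψ(dy_{S₀}))/v(Ψθ) ≠ 0`
and `w(α minor^m₀) = w(a) / v(Ψ θ)^m₀ ≥ 1`. -/
def D16Stmt : Prop :=
  ∀ (R K : Type) [CommRing R] [IsDomain R] [Algebra ℂ R] [Algebra.Smooth ℂ R] [Field K]
    [Algebra R K] [IsFractionRing R K] [Algebra ℂ K] [IsScalarTower ℂ R K] (n N M κ r d m₀ e₀ : ℕ)
    (Ψ : Ω[K⁄ℂ] [⋀^Fin n]→ₗ[K] K) (x : Fin N → R) (y : Fin (M + 1) → R) (b : Fin (M + 1))
    (S : System ℂ M κ r d), Algebra.adjoin ℂ (Set.range x) = ⊤ →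
    Sit Ψ (fun l => algebraMap R K (x l)) → Model R K n x y b S →
    ∀ (L Λ : Type) [Field L] [Field Λ] [Algebra ℂ L] [Algebra L Λ] [Algebra K Λ] [Algebra ℂ Λ]
      [IsScalarTower ℂ L Λ] [IsScalarTower ℂ K Λ] (a : Λ),
    NegCurve Ψ (fun l => algebraMap R K (x l)) m₀ e₀ L Λ a →
    ∀ (e' : Fin (n + 1) ⊕ Fin r ≃ Fin (M + 1)), e' (Sum.inl 0) = 0 → e' ∘ Sum.inr = S.I₀ →
    ∀ V : ValuationSubring Λ, (∀ c : L, algebraMap L Λ c ∈ V) →
      (∀ l, algebraMap K Λ (algebraMap R K (x l)) ∈ V) →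
      ∃ J : Fin r → Fin κ, minor S.F S.I₀ (fun l => algebraMap R K (y l)) J ≠ 0 ∧
        (a / algebraMap K Λ (Ψ fun i => D ℂ K (algebraMap R K (y (e' (Sum.inl i.succ))))) ^ m₀ *
          algebraMap K Λ (minor S.F S.I₀ (fun l => algebraMap R K (y l)) J) ^ m₀)⁻¹ ∈ V

/-- D17. Places at infinity, over `K`: the function `tau`.
PROOF. `v = w|K`, `Chart y b v`; D13: `J, e`; D15: `T`, `ζ = a(y)/y_b^e`; D14: `θ`, a frame at `v` (`v` has no
center). `NegCurve.noZero`: `size^e₀ v(Ψθ)^m₀ ≤ w a`, `size = v(x_l)` for some `l`. With `s = y/y_b`,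
`S' = e inl`, `S₀ = e' inl`: D10: `v(Ψ(ds_{S'})) = v(coneDet Ψ s S') = v(y_b)^(-(n+1)) v(coneDet Ψ y S')`;
D9: `v(coneDet Ψ y S') v(minor I₀) = v(Ψ(dy_{S₀})) v(minor F (e inr) y J)`, and
`minor F I y J = y_b^(r(d-1)) minor F I s J` (homogeneous of degree `d - 1`; if `d = 0` then all
derivatives are zero and `r = 0`). So `v(Ψ(ds_{S'})) v(minor I₀) = v(y_b)^(r(d-1)-(n+1)) v(Ψ(dy_{S₀}))`
and `w(tau) = w(a) v(ζ)^m₀ / (v(Ψ(ds_{S'}))^m₀ size^e₀) = w(a)/(v(Ψθ)^m₀ size^e₀) ≥ 1`, for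
`tau` with `α = a/Ψ(dy_{S₀})^m₀` and `x = x_l`. `E₀`: `y_b` is a polynomial of degree `≤ E₀` in the `x_l`. -/
def D17Stmt : Prop :=
  ∀ (R K : Type) [CommRing R] [IsDomain R] [Algebra ℂ R] [Field K]
    [Algebra R K] [IsFractionRing R K] [Algebra ℂ K] [IsScalarTower ℂ R K]
    (n N M κ r d m₀ e₀ : ℕ)
    (Ψ : Ω[K⁄ℂ] [⋀^Fin n]→ₗ[K] K) (x : Fin N → R) (y : Fin (M + 1) → R) (b : Fin (M + 1))
    (S : System ℂ M κ r d), Algebra.adjoin ℂ (Set.range x) = ⊤ →
    Sit Ψ (fun l => algebraMap R K (x l)) → Model R K n x y b S →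
    ∃ E₀ : ℕ, 1 ≤ E₀ ∧
    ∀ (L Λ : Type) [Field L] [Field Λ] [Algebra ℂ L] [Algebra L Λ] [Algebra K Λ] [Algebra ℂ Λ]
      [IsScalarTower ℂ L Λ] [IsScalarTower ℂ K Λ] (a : Λ),
    NegCurve Ψ (fun l => algebraMap R K (x l)) m₀ e₀ L Λ a →
    ∀ (e' : Fin (n + 1) ⊕ Fin r ≃ Fin (M + 1)), e' (Sum.inl 0) = 0 → e' ∘ Sum.inr = S.I₀ →
    ∀ w : Valuation Λ ℤᵐ⁰, (∀ c : L, c ≠ 0 → w (algebraMap L Λ c) = 1) →
      (∃ l, 1 < w (algebraMap K Λ (algebraMap R K (x l)))) →
      Chart (fun l => algebraMap R K (y l)) b (w.comap (algebraMap K Λ)) →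
      ∃ (T : LogPoly S.F b) (J : Fin r → Fin κ) (l : Fin N), x l ≠ 0 ∧
        w (algebraMap K Λ (aeval (fun l => algebraMap R K (y l)) T.χ /
          algebraMap R K (y b) ^ T.e₁)) = 1 ∧
        aeval (fun l => algebraMap R K (y l)) T.a ≠ 0 ∧
        minor S.F S.I₀ (fun l => algebraMap R K (y l)) J ≠ 0 ∧
        w (algebraMap K Λ ((aeval (fun l => algebraMap R K (y l)) T.a /
          algebraMap R K (y b) ^ T.e) ^ T.lam * algebraMap R K (y b))) = 1 ∧
        w (algebraMap K Λ (algebraMap R K (y b) / algebraMap R K (x l) ^ E₀)) ≤ 1 ∧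
        1 ≤ w (a / algebraMap K Λ
            (Ψ fun i => D ℂ K (algebraMap R K (y (e' (Sum.inl i.succ))))) ^ m₀ *
          algebraMap K Λ (minor S.F S.I₀ (fun l => algebraMap R K (y l)) J ^ m₀ *
            algebraMap R K (y b) ^ (((n : ℤ) + 1 - r * ((d : ℤ) - 1)) * m₀) *
            (aeval (fun l => algebraMap R K (y l)) T.a / algebraMap R K (y b) ^ T.e) ^ m₀ /
            algebraMap R K (x l) ^ e₀))

/-- D18. THE CERTIFICATE.
PROOF. D2: the finitely many `w_j` at infinity; `NegCurve.res`; D4 for the `w_j|K`; D7 over `ℂ` (the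
`y_l` generate `K`, `trdeg = n`; `n ≥ 1` because `Λ` is not algebraic over `L`, so `K ≠ ℂ`): `Model`.
`α = a/Ψ(dy_{S₀})^m₀`, `Ψ(dy_{S₀}) ≠ 0`: the `y_l`, `l ∉ I₀`, `l ≠ 0`, have differentials generating
`Ω[K⁄ℂ]` because the minor `J₀` is not zero (Cramer). `S.map L`: evaluations at `y` do not change.
`y_fin`, `y_inf`: `V` with all `x_l ∈ V` contains `R`; otherwise `V` is the ring of some `w_j`, where
`w_j(y_b)` is the maximum of the `w_j(y_l)`, `> 1` (the `x_l` are among the `y_l`). So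
`y_b ∈ V ↔ all x_l ∈ V`. `trans`: some `x_l` is transcendental over `L` (`K` generates `Λ`), there is a
`V` with `x_l ∉ V` (`1/x_l` is not a unit of `L[1/x_l]`: a valuation ring dominating it), so `y_b ∉ V`,
and algebraic elements are in all `V`. `fin`: `Λ/L` is finitely generated of degree `1`. `c_fin`: D16.
`c_inf`: D17. The last claim: `P(y) = 0`; `hom 0 e P` vanishes at `y` (`y_0 = 1`, D5), so
`X_0^d hom 0 e P ∈ (F)` and `P ≡ X_0^d hom 0 e P` modulo `X_0 - 1`. -/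
def D18Stmt : Prop :=
  ∀ (R K : Type) [CommRing R] [IsDomain R] [Algebra ℂ R] [Algebra.Smooth ℂ R] [Field K]
    [Algebra R K] [IsFractionRing R K] [Algebra ℂ K] [IsScalarTower ℂ R K] (n N m₀ e₀ : ℕ)
    (Ψ : Ω[K⁄ℂ] [⋀^Fin n]→ₗ[K] K) (x : Fin N → R), Algebra.adjoin ℂ (Set.range x) = ⊤ →
    Sit Ψ (fun l => algebraMap R K (x l)) →
    ∀ (L Λ : Type) [Field L] [Field Λ] [Algebra ℂ L] [Algebra L Λ] [Algebra K Λ] [Algebra ℂ Λ]
      [IsScalarTower ℂ L Λ] [IsScalarTower ℂ K Λ] (a : Λ),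
    NegCurve Ψ (fun l => algebraMap R K (x l)) m₀ e₀ L Λ a →
    ∃ (M κ r d E₀ : ℕ) (S : System L M κ r d) (y : Fin (M + 1) → R) (b : Fin (M + 1)) (α : Λ),
      VCert S n m₀ e₀ E₀ (fun l => algebraMap K Λ (algebraMap R K (y l))) b α ∧
      Algebra.adjoin ℂ (Set.range y) = ⊤ ∧
      ∀ P : MvPolynomial (Fin (M + 1)) ℂ, aeval y P = 0 →
        MvPolynomial.map (algebraMap ℂ L) P ∈ Ideal.span (Set.range S.F ∪ {X 0 - 1})

/-! ## The end -/

/-- H1. A nonconstant polynomial curve over some field through the generic point gives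
`𝔸¹`-uniruledness.
PROOF. Let `A ⊆ Ω` be generated over `ℂ` by the coefficients of the `φ(x_l)` (`x_l` generators of `R`) and
the inverse of the leading coefficient of `φ a₁`, `deg φ(a₁) > 0`. `R → A`, `c ↦ φ(c)(0)`, is injective.
Localize `A` at the nonzero elements of `R`: a finitely generated algebra over `Frac R`, take a maximal
ideal (its residue field is finite over `Frac R`), `P` its preimage in `A`. `A/P` is a finitely
generated domain, algebraic over `R ⊆ A/P`, so `trdeg` is that of `R`; `R → (A/P)[t]` is injective (at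
`t = 0`) and the leading coefficient of the image of `a₁` is a unit. Then
`Pool.Agent.Lib.MP_410da7_ag.a1Uniruled_of_family` (CutDown.lean; there is also
`exists_prime_over_generic`). -/
def H1Stmt : Prop :=
  ∀ (R : Type) [CommRing R] [IsDomain R] [Algebra ℂ R], Algebra.FiniteType ℂ R →
    ∀ (Ω' : Type) [Field Ω'] [Algebra ℂ Ω'] (φ : R →ₐ[ℂ] Polynomial Ω'),
    (∀ c : R, c ≠ 0 → (φ c).coeff 0 ≠ 0) → ∀ a : R, 0 < (φ a).natDegree → A1Uniruled R

/-- H2. THE THEOREM ON CURVES: a smooth affine variety with a negative curve is `𝔸¹`-uniruled.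
PROOF. D18, `cert_of_vcert`, EFG with a large `B`: `Yp` over `Λ'`. `φ : R → Λ'[t]`, `y_l ↦ Yp_l`: well
defined by the last claim of D18 (`F_j(Yp) = 0`, `Yp_0 = 1`), `φ(c)(0) = c ∈ K ⊆ Λ'`, some `φ(y_l)` is not
constant. H1. -/
def H2Stmt : Prop :=
  ∀ (R K : Type) [CommRing R] [IsDomain R] [Algebra ℂ R] [Algebra.Smooth ℂ R] [Field K]
    [Algebra R K] [IsFractionRing R K] [Algebra ℂ K] [IsScalarTower ℂ R K] (n N m₀ e₀ : ℕ)
    (Ψ : Ω[K⁄ℂ] [⋀^Fin n]→ₗ[K] K) (x : Fin N → R), Algebra.adjoin ℂ (Set.range x) = ⊤ →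
    Sit Ψ (fun l => algebraMap R K (x l)) →
    ∀ (L Λ : Type) [Field L] [Field Λ] [Algebra ℂ L] [Algebra L Λ] [Algebra K Λ] [Algebra ℂ Λ]
      [IsScalarTower ℂ L Λ] [IsScalarTower ℂ K Λ] (a : Λ),
    NegCurve Ψ (fun l => algebraMap R K (x l)) m₀ e₀ L Λ a → A1Uniruled R

/-- H3. THE MAIN THEOREM in terms of `Sec`: if the bigraded ring is finitely generated and all the
logarithmic plurigenera vanish then `X` is `𝔸¹`-uniruled.
PROOF. ABC, H2. -/
def H3Stmt : Prop :=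
  ∀ (R K : Type) [CommRing R] [IsDomain R] [Algebra ℂ R] [Algebra.Smooth ℂ R] [Field K]
    [Algebra R K] [IsFractionRing R K] [Algebra ℂ K] [IsScalarTower ℂ R K] (n N : ℕ)
    (Ψ : Ω[K⁄ℂ] [⋀^Fin n]→ₗ[K] K) (x : Fin N → R), Algebra.adjoin ℂ (Set.range x) = ⊤ →
    Sit Ψ (fun l => algebraMap R K (x l)) → (adj Ψ (fun l => algebraMap R K (x l))).FG →
    (∀ k : ℕ, 1 ≤ k → ∀ F ∈ Sec Ψ (fun l => algebraMap R K (x l)) k 0, F = 0) → A1Uniruled R

/-- H4. TWISTED VANISHING (the converse direction, uniform): if `X` is `𝔸¹`-uniruled then there is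
`δ ≥ 1` such that `m (K + D) + e H` has no sections for `e δ < m`.
PROOF. As in `logKodairaNegInf_of_a1Uniruled` (`Pool.Agent.Lib.MP_410da7_ag.DMain`; Pull, RegCase,
LogCase): `φ : R → B[t]` injective, `trdeg B = n - 1`, some degree positive; `K → E = Frac(B)(t)` is a
finite extension. Let `δ` be the maximum of the degrees of the `φ(x_l)` (`≥ 1`). Pull back
`F η^m`, `F ∈ Sec m e`, to a form `h (β₁ ∧ ... ∧ β_{n-1} ∧ dt)^m` with `h ∈ E`, the `β_i` a basis of the
differentials of `Frac B`: at the valuation of every monic irreducible polynomial in `t` over `Frac B`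
the restriction to `K` has a center on `X`, so the form is regular there and `h` has no pole; at
`t = ∞` the frame has logarithmic poles at most (`dt = t dt/t`), `size ≤ |t|^δ`, so
`|h| ≤ |t|^(δ e) |t|^(-m)`. So `h` is a polynomial of negative degree if `δ e < m`: `h = 0`. -/
def H4Stmt : Prop :=
  ∀ (R K : Type) [CommRing R] [IsDomain R] [Algebra ℂ R] [Field K]
    [Algebra R K] [IsFractionRing R K] [Algebra ℂ K] [IsScalarTower ℂ R K] (n N : ℕ)
    (Ψ : Ω[K⁄ℂ] [⋀^Fin n]→ₗ[K] K) (x : Fin N → R), Algebra.adjoin ℂ (Set.range x) = ⊤ →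
    Sit Ψ (fun l => algebraMap R K (x l)) → A1Uniruled R →
    ∃ δ : ℕ, 1 ≤ δ ∧ ∀ m e : ℕ, e * δ < m → ∀ F ∈ Sec Ψ (fun l => algebraMap R K (x l)) m e, F = 0

end Pool.Agent.Lib.MP_410da7_agA
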