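import Pool.Agent.Lib.MP_410da7_agA.SDefs

/-!
# C46, block N: definitions

`K` is a function field over `ℂ`. A row is a finite family of elements of `K` (a linear system). All
generic members of all rows (infinitely many for every row) are taken in one ambient field `Ω`, which is
generated over `K` by independent variables: `u i j`, `i` an index (a row and a number). For a set `I`
of indices, `Fl u I` is the field of constants and `El u I` the function field of the intersection of
the generic members `∑ j, u i j * b_j = 0`, `i ∈ I`.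
-/

set_option autoImplicit false

namespace Pool.Agent.Lib.MP_410da7_agA

/-- A finite family of elements of `K`, the first one nonzero. -/
structure Row (K : Type) [Field K] where
  /-- the number of elements minus one -/
  s : ℕ
  /-- the elements -/
  b : Fin (s + 1) → K
  ne : b 0 ≠ 0

/-- The indices of the generic hyperplanes: a row and a number. -/
abbrev NIdx (K : Type) [Field K] := Row K × ℕ

/-- A function on the valuations of `K` (with arbitrary value groups). -/
abbrev NSize (K : Type) [Field K] :=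
  ∀ (Γ : Type) [LinearOrderedCommGroupWithZero Γ], Valuation K Γ → Γ

section row

variable {K : Type} [Field K]

/-- The size of a row at a valuation: the maximum of the values. -/
noncomputable def rsize (r : Row K) : NSize K := fun _ _ v =>
  Finset.univ.sup' ⟨0, Finset.mem_univ 0⟩ fun j => v (r.b j)

/-- The function `1`. -/
noncomputable def none1 (K : Type) [Field K] : NSize K := fun _ _ _ => 1

/-- The function `N |r|^e`, `e` an integer. -/
noncomputable def nmul (N : NSize K) (r : Row K) (e : ℤ) : NSize K := fun Γ _ v =>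
  N Γ v * rsize r Γ v ^ e

/-- The span of a row. -/
noncomputable def rspan [Algebra ℂ K] (r : Row K) : Submodule ℂ K :=
  Submodule.span ℂ (Set.range r.b)

/-- The quotients of the elements of the row generate `K`. -/
def Bir [Algebra ℂ K] (r : Row K) : Prop :=
  IntermediateField.adjoin ℂ (Set.range fun j => r.b j / r.b 0) = ⊤

theorem le_rsize (r : Row K) (j : Fin (r.s + 1)) {Γ : Type} [LinearOrderedCommGroupWithZero Γ]
    (v : Valuation K Γ) : v (r.b j) ≤ rsize r Γ v :=
  Finset.le_sup' (f := fun j => v (r.b j)) (Finset.mem_univ j)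

theorem exists_rsize (r : Row K) {Γ : Type} [LinearOrderedCommGroupWithZero Γ]
    (v : Valuation K Γ) : ∃ j, rsize r Γ v = v (r.b j) := by
  obtain ⟨j, -, hj⟩ := Finset.exists_mem_eq_sup' (s := Finset.univ)
    ⟨(0 : Fin (r.s + 1)), Finset.mem_univ 0⟩ (fun j => v (r.b j))
  exact ⟨j, hj⟩

theorem rsize_le (r : Row K) {Γ : Type} [LinearOrderedCommGroupWithZero Γ]
    (v : Valuation K Γ) {c : Γ} (h : ∀ j, v (r.b j) ≤ c) : rsize r Γ v ≤ c :=
  Finset.sup'_le _ _ fun j _ => h j

theorem rsize_ne_zero (r : Row K) {Γ : Type} [LinearOrderedCommGroupWithZero Γ]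
    (v : Valuation K Γ) : rsize r Γ v ≠ 0 := by
  intro h
  have h1 := le_rsize r 0 v
  rw [h, le_zero_iff, Valuation.zero_iff] at h1
  exact r.ne h1

theorem one_le_rsize (r : Row K) (h : ∃ j, r.b j = 1) {Γ : Type} [LinearOrderedCommGroupWithZero Γ]
    (v : Valuation K Γ) : 1 ≤ rsize r Γ v := by
  obtain ⟨j, hj⟩ := h
  have h1 := le_rsize r j v
  rwa [hj, map_one] at h1

theorem nmul_nmul (N : NSize K) (r : Row K) (e e' : ℤ) :
    nmul (nmul N r e) r e' = nmul N r (e + e') := by
  funext Γ _ v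
  rw [nmul, nmul, nmul, mul_assoc, ← zpow_add₀ (rsize_ne_zero r v)]

theorem nmul_zero (N : NSize K) (r : Row K) : nmul N r 0 = N := by
  funext Γ _ v
  rw [nmul, zpow_zero, mul_one]

theorem nmul_comm (N : NSize K) (r r' : Row K) (e e' : ℤ) :
    nmul (nmul N r e) r' e' = nmul (nmul N r' e') r e := by
  funext Γ _ v
  rw [nmul, nmul, nmul, nmul, mul_right_comm]

end row

variable {K Ω : Type} [Field K] [Algebra ℂ K] [Field Ω] [Algebra ℂ Ω] [Algebra K Ω]
  [IsScalarTower ℂ K Ω]

/-- The ambient field. -/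
structure Amb (u : (i : NIdx K) → Fin (i.1.s + 1) → Ω) : Prop where
  rel : ∀ i : NIdx K, ∑ j, u i j * algebraMap K Ω (i.1.b j) = 0
  ind : AlgebraicIndependent K (fun p : (Σ i : NIdx K, Fin i.1.s) => u p.1 p.2.succ)
  gen : IntermediateField.adjoin K
    (Set.range fun p : (Σ i : NIdx K, Fin i.1.s) => u p.1 p.2.succ) = ⊤

/-- The coefficients of the generic members with index in `I`. -/
def NCo (u : (i : NIdx K) → Fin (i.1.s + 1) → Ω) (I : Set (NIdx K)) : Set Ω :=
  {c | ∃ i ∈ I, ∃ j, c = u i j}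

/-- The field of constants. -/
noncomputable def Fl (u : (i : NIdx K) → Fin (i.1.s + 1) → Ω) (I : Set (NIdx K)) :
    IntermediateField ℂ Ω :=
  IntermediateField.adjoin ℂ (NCo u I)

/-- The function field. -/
noncomputable def El (u : (i : NIdx K) → Fin (i.1.s + 1) → Ω) (I : Set (NIdx K)) :
    IntermediateField ℂ Ω :=
  IntermediateField.adjoin ℂ (Set.range (algebraMap K Ω) ∪ NCo u I)

omit [Algebra ℂ K] [IsScalarTower ℂ K Ω] in
theorem Fl_le_El (u : (i : NIdx K) → Fin (i.1.s + 1) → Ω) (I : Set (NIdx K)) :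
    Fl u I ≤ El u I :=
  IntermediateField.adjoin.mono _ _ _ Set.subset_union_right

omit [Algebra ℂ K] [IsScalarTower ℂ K Ω] in
theorem NCo_mono (u : (i : NIdx K) → Fin (i.1.s + 1) → Ω) {I I' : Set (NIdx K)} (h : I ⊆ I') :
    NCo u I ⊆ NCo u I' := by
  rintro c ⟨i, hi, j, rfl⟩
  exact ⟨i, h hi, j, rfl⟩

omit [Algebra ℂ K] [IsScalarTower ℂ K Ω] in
theorem Fl_mono (u : (i : NIdx K) → Fin (i.1.s + 1) → Ω) {I I' : Set (NIdx K)} (h : I ⊆ I') :
    Fl u I ≤ Fl u I' :=
  IntermediateField.adjoin.mono _ _ _ (NCo_mono u h)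

omit [Algebra ℂ K] [IsScalarTower ℂ K Ω] in
theorem El_mono (u : (i : NIdx K) → Fin (i.1.s + 1) → Ω) {I I' : Set (NIdx K)} (h : I ⊆ I') :
    El u I ≤ El u I' :=
  IntermediateField.adjoin.mono _ _ _ (Set.union_subset_union_right _ (NCo_mono u h))

omit [Algebra ℂ K] [IsScalarTower ℂ K Ω] in
theorem mem_El (u : (i : NIdx K) → Fin (i.1.s + 1) → Ω) (I : Set (NIdx K)) (a : K) :
    algebraMap K Ω a ∈ El u I :=
  IntermediateField.subset_adjoin _ _ (Or.inl ⟨a, rfl⟩)

omit [Algebra ℂ K] [IsScalarTower ℂ K Ω] in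
theorem mem_Fl (u : (i : NIdx K) → Fin (i.1.s + 1) → Ω) {I : Set (NIdx K)} {i : NIdx K} (hi : i ∈ I)
    (j : Fin (i.1.s + 1)) : u i j ∈ Fl u I :=
  IntermediateField.subset_adjoin _ _ ⟨i, hi, j, rfl⟩

/-- The function field, as a vector space over the field of constants. -/
noncomputable def Em (u : (i : NIdx K) → Fin (i.1.s + 1) → Ω) (I : Set (NIdx K)) :
    Submodule (Fl u I) Ω where
  carrier := {f | f ∈ El u I}
  zero_mem' := (El u I).zero_mem
  add_mem' := (El u I).add_mem
  smul_mem' := fun c f hf => by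
    change ((c : Ω) * f) ∈ El u I
    exact (El u I).mul_mem (Fl_le_El u I c.2) hf

/-- The valuation is trivial on the constants. -/
def FTriv (u : (i : NIdx K) → Fin (i.1.s + 1) → Ω) (I : Set (NIdx K)) {Γ : Type}
    [LinearOrderedCommGroupWithZero Γ] (w : Valuation Ω Γ) : Prop :=
  ∀ c ∈ Fl u I, c ≠ 0 → w c = 1

/-- The sections: the elements of the function field with `|f| ≤ N` at all valuations which are
trivial on the constants. -/
noncomputable def H0 (u : (i : NIdx K) → Fin (i.1.s + 1) → Ω) (I : Set (NIdx K)) (N : NSize K) :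
    Submodule (Fl u I) Ω where
  carrier := {f | f ∈ El u I ∧ ∀ (Γ : Type) [LinearOrderedCommGroupWithZero Γ] (w : Valuation Ω Γ),
    FTriv u I w → w f ≤ N Γ (w.comap (algebraMap K Ω))}
  zero_mem' := ⟨(El u I).zero_mem, fun Γ _ w _ => by rw [map_zero]; exact zero_le⟩
  add_mem' := fun {f g} hf hg => ⟨(El u I).add_mem hf.1 hg.1, fun Γ _ w hw =>
    (w.map_add f g).trans (max_le (hf.2 Γ w hw) (hg.2 Γ w hw))⟩
  smul_mem' := fun c f hf => by
    refine ⟨(El u I).mul_mem (Fl_le_El u I c.2) hf.1, fun Γ _ w hw => ?_⟩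
    change w ((c : Ω) * f) ≤ _
    rw [map_mul]
    by_cases hc : (c : Ω) = 0
    · rw [hc, map_zero, zero_mul]; exact zero_le
    · rw [hw c c.2 hc, one_mul]; exact hf.2 Γ w hw

/-- The dimension of the space of sections. -/
noncomputable def hh (u : (i : NIdx K) → Fin (i.1.s + 1) → Ω) (I : Set (NIdx K)) (N : NSize K) : ℕ :=
  Module.finrank (Fl u I) (H0 u I N)

/-- The space of sections is finite dimensional. -/
def HFin (u : (i : NIdx K) → Fin (i.1.s + 1) → Ω) (I : Set (NIdx K)) (N : NSize K) : Prop :=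
  FiniteDimensional (Fl u I) (H0 u I N)

/-- The space spanned by `A` over the constants. -/
noncomputable def NSp (u : (i : NIdx K) → Fin (i.1.s + 1) → Ω) (I : Set (NIdx K))
    (A : Submodule ℂ K) : Submodule (Fl u I) Ω :=
  Submodule.span (Fl u I) (algebraMap K Ω '' (A : Set K))

/-- Its dimension. -/
noncomputable def dd (u : (i : NIdx K) → Fin (i.1.s + 1) → Ω) (I : Set (NIdx K))
    (A : Submodule ℂ K) : ℕ :=
  Module.finrank (Fl u I) (NSp u I A)

/-- The degree of the function field over the constants. -/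
noncomputable def dg (u : (i : NIdx K) → Fin (i.1.s + 1) → Ω) (I : Set (NIdx K)) : ℕ :=
  Module.finrank (Fl u I) (Em u I)

/-- The copies of the row `r` with numbers in `T`. -/
def copies (r : Row K) (T : Finset ℕ) : Set (NIdx K) := {i | i.1 = r ∧ i.2 ∈ T}

/-- The generic member of the row `r` can be cut out of the variety `El u I`: some quotient of two
elements of the row is transcendental over the constants. -/
def Cuts (u : (i : NIdx K) → Fin (i.1.s + 1) → Ω) (I : Set (NIdx K)) (r : Row K) : Prop :=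
  ∃ j, Transcendental (Fl u I) (algebraMap K Ω (r.b j / r.b 0))

omit [IsScalarTower ℂ K Ω] in
theorem H0_mono (u : (i : NIdx K) → Fin (i.1.s + 1) → Ω) (I : Set (NIdx K)) {N N' : NSize K}
    (h : ∀ (Γ : Type) [LinearOrderedCommGroupWithZero Γ] (v : Valuation K Γ), N Γ v ≤ N' Γ v) :
    H0 u I N ≤ H0 u I N' := fun _ hf => ⟨hf.1, fun Γ _ w hw => (hf.2 Γ w hw).trans (h Γ _)⟩

omit [IsScalarTower ℂ K Ω] in
theorem H0_subset (u : (i : NIdx K) → Fin (i.1.s + 1) → Ω) {I I' : Set (NIdx K)} (h : I ⊆ I')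
    {N : NSize K} {f : Ω} (hf : f ∈ H0 u I N) : f ∈ H0 u I' N :=
  ⟨El_mono u h hf.1, fun Γ _ w hw => hf.2 Γ w fun c hc => hw c (Fl_mono u h hc)⟩

/-- The elements of `K` which are sections at the level of `K`. -/
noncomputable def SK (u : (i : NIdx K) → Fin (i.1.s + 1) → Ω) (N : NSize K) : Submodule ℂ K where
  carrier := {a | algebraMap K Ω a ∈ H0 u ∅ N}
  zero_mem' := by
    change algebraMap K Ω 0 ∈ H0 u ∅ N
    rw [map_zero]; exact (H0 u ∅ N).zero_mem
  add_mem' := fun {a b} ha hb => by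
    change algebraMap K Ω (a + b) ∈ H0 u ∅ N
    rw [map_add]; exact (H0 u ∅ N).add_mem ha hb
  smul_mem' := fun c a ha => by
    change algebraMap K Ω (c • a) ∈ H0 u ∅ N
    have h1 : algebraMap K Ω (c • a) = (algebraMap ℂ (Fl u ∅) c) • algebraMap K Ω a := by
      rw [Algebra.smul_def, map_mul, ← IsScalarTower.algebraMap_apply ℂ K Ω]
      rfl
    rw [h1]
    exact (H0 u ∅ N).smul_mem _ ha

/-- The size function of `m (P - Q) + e H`. -/
noncomputable def SN (P Q H : Row K) (m : ℕ) (e : ℤ) : NSize K :=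
  nmul (nmul (nmul (none1 K) P m) Q (-(m : ℤ))) H e

/-- `S(m, e)`: the sections of `m (P - Q) + e H`. -/
noncomputable def SS (u : (i : NIdx K) → Fin (i.1.s + 1) → Ω) (P Q H : Row K) (m e : ℕ) :
    Submodule ℂ K := SK u (SN P Q H m e)

/-- The situation of block N. -/
structure NSit (n : ℕ) (P Q H : Row K) : Prop where
  n1 : 1 ≤ n
  trdeg : Algebra.trdeg ℂ K = n
  birP : Bir P
  birQ : Bir Q
  birH : Bir H
  oneP : ∃ j, P.b j = 1
  oneQ : ∃ j, Q.b j = 1
  oneH : ∃ j, H.b j = 1

/-- `n - 1` copies of the row `M`. -/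
def cpM (n : ℕ) (M : Row K) : Set (NIdx K) := copies M (Finset.Icc 3 (n + 1))

end Pool.Agent.Lib.MP_410da7_agA
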