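import Mathlib

/-!
# C46, block N: Fujita approximation

Let `K` be a finite extension of the rational function field `C(y_1, …, y_n)`, `C` algebraically closed.
If `h ∈ B` and `h y_i ∈ B` for all `i` then `k^n dim A ≤ dim (A B^n)^k` for all `k` prime to the
factorial of `[K : C(y)]` (`NFStmt`, `nf`). For suitable `x_1, …, x_n` in place of the `y_i` this is true
for all `k ≥ 1` (`NFAllStmt`, `nfAll`; `NFBStmt`, `nfB`).

Proof. There is a valuation ring of `K` containing `C` at which the polynomials in `y` are ordered by the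
lexicographic degree. Its residue field is `C`, so every finite dimensional `A` has a basis with
distinct values; the products `f_a^k h^(nk) ∏ y_i^(r_i)`, `0 ≤ r_i < k`, have distinct values. The value
group is free of rank `n`; for all `k` one takes `x_i` whose values are a basis of it.
-/

set_option autoImplicit false

namespace Pool.Agent.Lib.MP_410da7_agA

open MvPolynomial

section Val

variable {C K : Type*} [Field C] [Field K] [Algebra C K] {n : ℕ} (y : Fin n → K)

/-- The order of the degrees. -/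
private noncomputable def mo (n : ℕ) : MonomialOrder (Fin n) := MonomialOrder.lex

/-- The degree in the linearly ordered monoid. -/
private noncomputable def dg (f : MvPolynomial (Fin n) C) : WithBot (mo n).syn :=
  (mo n).toWithBotSyn ((mo n).withBotDegree f)

private theorem dg_mul (f g : MvPolynomial (Fin n) C) : dg (f * g) = dg f + dg g := by
  unfold dg
  rw [MonomialOrder.withBotDegree_mul, map_add]

private theorem dg_add (f g : MvPolynomial (Fin n) C) : dg (f + g) ≤ max (dg f) (dg g) := by
  unfold dg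
  exact (mo n).withBotDegree_add_le (f := f) (g := g)

private theorem dg_zero : dg (0 : MvPolynomial (Fin n) C) = ⊥ := by
  unfold dg
  rw [MonomialOrder.withBotDegree_zero, MonomialOrder.toWithBotSyn_apply_bot]

private theorem dg_ne {f : MvPolynomial (Fin n) C} (hf : f ≠ 0) :
    dg f = (((mo n).toSyn ((mo n).degree f) : (mo n).syn) : WithBot (mo n).syn) := by
  unfold dg
  rw [((mo n).withBotDegree_eq_coe_degree_iff (f := f)).2 hf, MonomialOrder.toWithBotSyn_apply_coe]

private theorem dg_ne_bot {f : MvPolynomial (Fin n) C} : dg f ≠ ⊥ ↔ f ≠ 0 := by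
  constructor
  · rintro h rfl
    exact h dg_zero
  · intro h
    rw [dg_ne h]
    exact WithBot.coe_ne_bot

private theorem dg_C {c : C} (hc : c ≠ 0) : dg (MvPolynomial.C c : MvPolynomial (Fin n) C) = 0 := by
  have h : (MvPolynomial.C c : MvPolynomial (Fin n) C) ≠ 0 := by
    rw [Ne, C_eq_zero]
    exact hc
  rw [dg_ne h, MonomialOrder.degree_C, map_zero]
  rfl

private theorem dg_one : dg (1 : MvPolynomial (Fin n) C) = 0 := by
  rw [← C_1]
  exact dg_C one_ne_zero

private theorem nf_ex (hy : AlgebraicIndependent C y) :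
    ∃ B : ValuationSubring K, (∀ c : C, algebraMap C K c ∈ B) ∧
      ∀ f g : MvPolynomial (Fin n) C, dg f < dg g → B.valuation (aeval y f / aeval y g) < 1 := by
  have hinj : Function.Injective (aeval y : MvPolynomial (Fin n) C →ₐ[C] K) := hy
  have hne : ∀ g : MvPolynomial (Fin n) C, g ≠ 0 → aeval y g ≠ 0 := by
    intro g hg h
    exact hg (hinj (by rw [h, map_zero]))
  let A : Subring K :=
    { carrier := {x | ∃ f g : MvPolynomial (Fin n) C, g ≠ 0 ∧ x * aeval y g = aeval y f ∧
        dg f ≤ dg g}
      zero_mem' := ⟨0, 1, one_ne_zero, by simp, by rw [dg_zero]; exact bot_le⟩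
      one_mem' := ⟨1, 1, one_ne_zero, by simp, le_rfl⟩
      mul_mem' := by
        rintro x x' ⟨f, g, hg, h1, h2⟩ ⟨f', g', hg', h1', h2'⟩
        refine ⟨f * f', g * g', mul_ne_zero hg hg', ?_, ?_⟩
        · rw [map_mul, map_mul, ← h1, ← h1']
          ring
        · rw [dg_mul, dg_mul]
          exact add_le_add h2 h2'
      add_mem' := by
        rintro x x' ⟨f, g, hg, h1, h2⟩ ⟨f', g', hg', h1', h2'⟩
        refine ⟨f * g' + f' * g, g * g', mul_ne_zero hg hg', ?_, ?_⟩
        · rw [map_mul, map_add, map_mul, map_mul, ← h1, ← h1']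
          ring
        · refine (dg_add _ _).trans ?_
          rw [dg_mul, dg_mul, dg_mul]
          refine max_le (add_le_add h2 le_rfl) ?_
          rw [add_comm (dg g)]
          exact add_le_add h2' le_rfl
      neg_mem' := by
        rintro x ⟨f, g, hg, h1, h2⟩
        refine ⟨MvPolynomial.C (-1) * f, g, hg, ?_, ?_⟩
        · rw [map_mul, aeval_C, map_neg, map_one, ← h1]
          ring
        · rw [dg_mul, dg_C (neg_ne_zero.2 one_ne_zero), zero_add]
          exact h2 }
  have hA : ∀ x, x ∈ A ↔ ∃ f g : MvPolynomial (Fin n) C, g ≠ 0 ∧ x * aeval y g = aeval y f ∧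
        dg f ≤ dg g := fun x => Iff.rfl
  let I : Ideal A :=
    { carrier := {x | ∃ f g : MvPolynomial (Fin n) C, x.1 * aeval y g = aeval y f ∧
        dg f < dg g}
      zero_mem' := ⟨0, 1, by simp, by rw [dg_zero, dg_one]; exact WithBot.bot_lt_coe _⟩
      add_mem' := by
        rintro ⟨x, hx⟩ ⟨x', hx'⟩ ⟨f, g, h1, h2⟩ ⟨f', g', h1', h2'⟩
        have hg : dg g ≠ ⊥ := ne_bot_of_gt h2
        have hg' : dg g' ≠ ⊥ := ne_bot_of_gt h2'
        simp only at h1 h1'
        refine ⟨f * g' + f' * g, g * g', ?_, ?_⟩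
        · change (x + x') * aeval y (g * g') = aeval y (f * g' + f' * g)
          rw [map_mul, map_add, map_mul, map_mul, ← h1, ← h1']
          ring
        · refine (dg_add _ _).trans_lt ?_
          rw [dg_mul, dg_mul, dg_mul]
          refine max_lt ((WithBot.add_lt_add_iff_right hg').2 h2) ?_
          rw [add_comm (dg g)]
          exact (WithBot.add_lt_add_iff_right hg).2 h2'
      smul_mem' := by
        rintro ⟨a, f', g', hg', h1', h2'⟩ ⟨x, hx⟩ ⟨f, g, h1, h2⟩
        simp only at h1
        refine ⟨f' * f, g' * g, ?_, ?_⟩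
        · change a * x * aeval y (g' * g) = aeval y (f' * f)
          rw [map_mul, map_mul, ← h1, ← h1']
          ring
        · rw [dg_mul, dg_mul]
          exact (add_le_add h2' le_rfl).trans_lt
            ((WithBot.add_lt_add_iff_left (dg_ne_bot.2 hg')).2 h2) }
  have hI : ∀ x, x ∈ I ↔ ∃ f g : MvPolynomial (Fin n) C, x.1 * aeval y g = aeval y f ∧
        dg f < dg g := fun x => Iff.rfl
  have hItop : I ≠ ⊤ := by
    rw [Ne, Ideal.eq_top_iff_one, hI]
    rintro ⟨f, g, h1, h2⟩
    have h3 : g = f := hinj (by rw [← h1]; simp)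
    rw [h3] at h2
    exact lt_irrefl _ h2
  obtain ⟨B, hAB, hIB⟩ := Ideal.image_subset_nonunits_valuationSubring I hItop
  refine ⟨B, ?_, ?_⟩
  · intro c
    apply hAB
    rw [hA]
    by_cases hc : c = 0
    · exact ⟨0, 1, one_ne_zero, by simp [hc], by rw [dg_zero]; exact bot_le⟩
    · refine ⟨MvPolynomial.C c, 1, one_ne_zero, by simp, ?_⟩
      rw [dg_C hc, dg_one]
  · intro f g hfg
    have hg : g ≠ 0 := dg_ne_bot.1 (ne_bot_of_gt hfg)
    have hx : aeval y f / aeval y g * aeval y g = aeval y f := div_mul_cancel₀ _ (hne g hg)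
    have hxA : aeval y f / aeval y g ∈ A := ⟨f, g, hg, hx, hfg.le⟩
    have hxI : (⟨_, hxA⟩ : A) ∈ I := ⟨f, g, hx, hfg⟩
    have := hIB ⟨_, hxI, rfl⟩
    exact (ValuationSubring.mem_nonunits_iff B).1 this

/-- The value of a monomial. -/
private noncomputable def mn (α : Fin n →₀ ℕ) : K := aeval y (monomial α (1 : C))

private theorem mn_eq (α : Fin n →₀ ℕ) : mn (C := C) y α = ∏ i, y i ^ α i := by
  unfold mn
  rw [aeval_monomial, map_one, one_mul, Finsupp.prod_fintype _ _ (fun i => pow_zero _)]

variable {y}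

private theorem nf_cst {B : ValuationSubring K} (hB : ∀ c : C, algebraMap C K c ∈ B) {c : C}
    (hc : c ≠ 0) : B.valuation (algebraMap C K c) = 1 := by
  have h1 : B.valuation (algebraMap C K c) ≤ 1 := (B.valuation_le_one_iff _).2 (hB c)
  have h2 : B.valuation (algebraMap C K c⁻¹) ≤ 1 := (B.valuation_le_one_iff _).2 (hB c⁻¹)
  have h3 : B.valuation (algebraMap C K c) * B.valuation (algebraMap C K c⁻¹) = 1 := by
    rw [← map_mul, ← map_mul, mul_inv_cancel₀ hc, map_one, map_one]
  refine le_antisymm h1 ?_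
  rw [← h3]
  exact mul_le_of_le_one_right' h2

private theorem nf_ne (hy : AlgebraicIndependent C y) {g : MvPolynomial (Fin n) C} (hg : g ≠ 0) :
    aeval y g ≠ 0 := by
  have hinj : Function.Injective (aeval y : MvPolynomial (Fin n) C →ₐ[C] K) := hy
  intro h
  exact hg (hinj (by rw [h, map_zero]))

private theorem nf_mn_ne (hy : AlgebraicIndependent C y) (α : Fin n →₀ ℕ) :
    mn (C := C) y α ≠ 0 := by
  apply nf_ne hy
  rw [Ne, monomial_eq_zero]
  exact one_ne_zero

private theorem dg_mn (α : Fin n →₀ ℕ) :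
    dg (monomial α (1 : C)) = (((mo n).toSyn α : (mo n).syn) : WithBot (mo n).syn) := by
  classical
  have h : (monomial α (1 : C)) ≠ 0 := by
    rw [Ne, monomial_eq_zero]
    exact one_ne_zero
  rw [dg_ne h, MonomialOrder.degree_monomial, if_neg one_ne_zero]

/-- The leading term. -/
private theorem nf_lead (hy : AlgebraicIndependent C y) {B : ValuationSubring K}
    (hlt : ∀ f g : MvPolynomial (Fin n) C, dg f < dg g →
      B.valuation (aeval y f / aeval y g) < 1)
    {f : MvPolynomial (Fin n) C} (hf : f ≠ 0) :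
    ∃ (α : Fin n →₀ ℕ) (c : C), c ≠ 0 ∧
      B.valuation (aeval y f - algebraMap C K c * mn (C := C) y α)
        < B.valuation (mn (C := C) y α) := by
  refine ⟨(mo n).degree f, (mo n).leadingCoeff f, (mo n).leadingCoeff_ne_zero_iff.2 hf, ?_⟩
  have h1 : dg (f - (mo n).leadingTerm f) < dg (monomial ((mo n).degree f) (1 : C)) := by
    rw [dg_mn]
    by_cases h0 : f - (mo n).leadingTerm f = 0
    · rw [h0, dg_zero]
      exact WithBot.bot_lt_coe _
    · rw [dg_ne h0, WithBot.coe_lt_coe]
      have h2 := (mo n).degree_ne_zero_of_sub_leadingTerm_ne_zero h0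
      exact (mo n).degree_sub_leadingTerm_lt_degree h2
  have h2 := hlt _ _ h1
  have h3 : aeval y f - algebraMap C K ((mo n).leadingCoeff f) * mn (C := C) y ((mo n).degree f)
      = aeval y (f - (mo n).leadingTerm f) := by
    unfold mn
    rw [map_sub]
    congr 1
    unfold MonomialOrder.leadingTerm
    rw [aeval_monomial, aeval_monomial, map_one, one_mul]
  rw [h3]
  have h4 : B.valuation (mn (C := C) y ((mo n).degree f)) ≠ 0 := by
    rw [Ne, map_eq_zero]
    exact nf_mn_ne hy _
  rw [map_div₀] at h2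
  exact (div_lt_one₀ (zero_lt_iff.2 h4)).1 h2

private theorem nf_lead_eq (_hy : AlgebraicIndependent C y) {B : ValuationSubring K}
    (hB : ∀ c : C, algebraMap C K c ∈ B) {x : K} {α : Fin n →₀ ℕ} {c : C} (hc : c ≠ 0)
    (h : B.valuation (x - algebraMap C K c * mn (C := C) y α)
        < B.valuation (mn (C := C) y α)) :
    B.valuation x = B.valuation (mn (C := C) y α) := by
  have h1 : B.valuation (algebraMap C K c * mn (C := C) y α)
      = B.valuation (mn (C := C) y α) := by
    rw [map_mul, nf_cst hB hc, one_mul]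
  rw [← h1] at h ⊢
  have h2 := B.valuation.map_add_eq_of_lt_left h
  rw [add_sub_cancel] at h2
  exact h2

private theorem nf_mn_inj (hy : AlgebraicIndependent C y) {B : ValuationSubring K}
    (hlt : ∀ f g : MvPolynomial (Fin n) C, dg f < dg g →
      B.valuation (aeval y f / aeval y g) < 1) {α β : Fin n →₀ ℕ}
    (h : B.valuation (mn (C := C) y α) = B.valuation (mn (C := C) y β)) : α = β := by
  have key : ∀ α β : Fin n →₀ ℕ, (mo n).toSyn α < (mo n).toSyn β →
      B.valuation (mn (C := C) y α) < B.valuation (mn (C := C) y β) := by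
    intro α β hab
    have h1 : dg (monomial α (1 : C)) < dg (monomial β (1 : C)) := by
      rw [dg_mn, dg_mn, WithBot.coe_lt_coe]
      exact hab
    have h2 := hlt _ _ h1
    rw [map_div₀] at h2
    have h4 : B.valuation (mn (C := C) y β) ≠ 0 := by
      rw [Ne, map_eq_zero]
      exact nf_mn_ne hy _
    exact (div_lt_one₀ (zero_lt_iff.2 h4)).1 h2
  rcases lt_trichotomy ((mo n).toSyn α) ((mo n).toSyn β) with h1 | h1 | h1
  · exact absurd h (key _ _ h1).ne
  · exact (mo n).toSyn.injective h1
  · exact absurd h.symm (key _ _ h1).ne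

private theorem mn_add (α β : Fin n →₀ ℕ) :
    mn (C := C) y (α + β) = mn (C := C) y α * mn (C := C) y β := by
  unfold mn
  rw [← map_mul, monomial_mul, one_mul]

private theorem mn_smul (m : ℕ) (α : Fin n →₀ ℕ) :
    mn (C := C) y (m • α) = mn (C := C) y α ^ m := by
  unfold mn
  rw [← map_pow, monomial_pow, one_pow]

/-- A sum of elements with different values is not zero. -/
private theorem nf_sum {ι : Type*} {Γ : Type*} [LinearOrderedCommGroupWithZero Γ]
    (v : Valuation K Γ) (s : Finset ι) (x : ι → K)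
    (hx : ∀ i ∈ s, x i ≠ 0) (hd : ∀ i ∈ s, ∀ j ∈ s, v (x i) = v (x j) → i = j)
    (hs : s.Nonempty) : ∑ i ∈ s, x i ≠ 0 := by
  classical
  obtain ⟨i₀, hi₀, hmax⟩ := s.exists_max_image (fun i => v (x i)) hs
  intro h
  rw [← Finset.add_sum_erase s x hi₀] at h
  have h1 : v (∑ i ∈ s.erase i₀, x i) < v (x i₀) := by
    apply v.map_sum_lt
    · rw [Ne, map_eq_zero]
      exact hx i₀ hi₀
    · intro i hi
      have hi1 := Finset.mem_of_mem_erase hi
      have hi2 := Finset.ne_of_mem_erase hi
      exact lt_of_le_of_ne (hmax i hi1) (fun h2 => hi2 (hd i hi1 i₀ hi₀ h2))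
  have h2 := v.map_add_eq_of_lt_left h1
  rw [h, map_zero] at h2
  exact hx i₀ hi₀ ((map_eq_zero v).1 h2.symm)

end Val

section Fin

variable {C K : Type*} [Field C] [Field K] [Algebra C K] {n : ℕ} {y : Fin n → K}

private theorem nf_frac {x : K} (hx : x ∈ IntermediateField.adjoin C (Set.range y))
    (h0 : x ≠ 0) : ∃ f g : MvPolynomial (Fin n) C, f ≠ 0 ∧ g ≠ 0 ∧ x = aeval y f / aeval y g := by
  rw [IntermediateField.mem_adjoin_range_iff] at hx
  obtain ⟨f, g, h⟩ := hx
  refine ⟨f, g, ?_, ?_, h⟩
  · rintro rfl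
    rw [map_zero, zero_div] at h
    exact h0 h
  · rintro rfl
    rw [map_zero, div_zero] at h
    exact h0 h

private theorem nf_vF (hy : AlgebraicIndependent C y) {B : ValuationSubring K}
    (hB : ∀ c : C, algebraMap C K c ∈ B)
    (hlt : ∀ f g : MvPolynomial (Fin n) C, dg f < dg g →
      B.valuation (aeval y f / aeval y g) < 1) {x : K}
    (hx : x ∈ IntermediateField.adjoin C (Set.range y)) (h0 : x ≠ 0) :
    ∃ α β : Fin n →₀ ℕ, B.valuation x * B.valuation (mn (C := C) y β)
      = B.valuation (mn (C := C) y α) := by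
  obtain ⟨f, g, hf, hg, rfl⟩ := nf_frac hx h0
  obtain ⟨α, c, hc, h1⟩ := nf_lead hy hlt hf
  obtain ⟨β, c', hc', h2⟩ := nf_lead hy hlt hg
  refine ⟨α, β, ?_⟩
  rw [← nf_lead_eq hy hB hc h1, ← nf_lead_eq hy hB hc' h2, ← map_mul,
    div_mul_cancel₀ _ (nf_ne hy hg)]

private theorem nf_val (hy : AlgebraicIndependent C y) {B : ValuationSubring K}
    (hB : ∀ c : C, algebraMap C K c ∈ B)
    (hlt : ∀ f g : MvPolynomial (Fin n) C, dg f < dg g →
      B.valuation (aeval y f / aeval y g) < 1)
    [FiniteDimensional (IntermediateField.adjoin C (Set.range y)) K] {z : K} (hz : z ≠ 0) :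
    ∃ e, 1 ≤ e ∧ e ≤ Module.finrank (IntermediateField.adjoin C (Set.range y)) K ∧
      ∃ α β : Fin n →₀ ℕ, B.valuation z ^ e * B.valuation (mn (C := C) y β)
        = B.valuation (mn (C := C) y α) := by
  set F := IntermediateField.adjoin C (Set.range y) with hF
  have hint : IsIntegral F z := IsIntegral.of_finite F z
  set p := minpoly F z with hp
  have hp0 : p ≠ 0 := minpoly.ne_zero hint
  have hdeg : p.natDegree ≤ Module.finrank F K := minpoly.natDegree_le z
  have hsum : ∑ i ∈ p.support, algebraMap F K (p.coeff i) * z ^ i = 0 := by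
    have h1 : Polynomial.aeval z p = 0 := minpoly.aeval F z
    rw [Polynomial.aeval_def, Polynomial.eval₂_eq_sum, Polynomial.sum_def] at h1
    exact h1
  have hv0 : B.valuation z ≠ 0 := by
    rw [Ne, map_eq_zero]
    exact hz
  have hcoeff : ∀ i ∈ p.support, algebraMap F K (p.coeff i) ≠ 0 := by
    intro i hi
    rw [Ne, map_eq_zero]
    exact Polynomial.mem_support_iff.1 hi
  have key : ∃ i ∈ p.support, ∃ j ∈ p.support, i < j ∧
      B.valuation (algebraMap F K (p.coeff i) * z ^ i) =
        B.valuation (algebraMap F K (p.coeff j) * z ^ j) := by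
    by_contra hcon
    push Not at hcon
    refine nf_sum B.valuation p.support (fun i => algebraMap F K (p.coeff i) * z ^ i) ?_ ?_ ?_ hsum
    · intro i hi
      exact mul_ne_zero (hcoeff i hi) (pow_ne_zero _ hz)
    · intro i hi j hj hij
      rcases lt_trichotomy i j with h | h | h
      · exact absurd hij (hcon i hi j hj h)
      · exact h
      · exact absurd hij.symm (hcon j hj i hi h)
    · rwa [Polynomial.support_nonempty]
  obtain ⟨i, hi, j, hj, hij, hval⟩ := key
  obtain ⟨α, β, h1⟩ := nf_vF hy hB hlt (p.coeff i).2 (hcoeff i hi)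
  obtain ⟨α', β', h2⟩ := nf_vF hy hB hlt (p.coeff j).2 (hcoeff j hj)
  refine ⟨j - i, by omega, ?_, α + β', β + α', ?_⟩
  · exact (Nat.sub_le j i).trans ((Polynomial.le_natDegree_of_mem_supp j hj).trans hdeg)
  · have h3 : B.valuation ((p.coeff i : F) : K) =
        B.valuation ((p.coeff j : F) : K) * B.valuation z ^ (j - i) := by
      rw [map_mul, map_mul, map_pow, map_pow] at hval
      have h4 : B.valuation z ^ j = B.valuation z ^ (j - i) * B.valuation z ^ i := by
        rw [← pow_add, Nat.sub_add_cancel hij.le]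
      rw [h4, ← mul_assoc] at hval
      exact mul_right_cancel₀ (pow_ne_zero _ hv0) hval
    rw [mn_add, mn_add, map_mul, map_mul, ← h1, ← h2, h3]
    ac_rfl


/-- The residue field on the field generated by the variables. -/
private theorem nf_resF (hy : AlgebraicIndependent C y) {B : ValuationSubring K}
    (hB : ∀ c : C, algebraMap C K c ∈ B)
    (hlt : ∀ f g : MvPolynomial (Fin n) C, dg f < dg g →
      B.valuation (aeval y f / aeval y g) < 1) {x : K}
    (hx : x ∈ IntermediateField.adjoin C (Set.range y)) (hv : B.valuation x ≤ 1) :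
    ∃ γ : C, B.valuation (x - algebraMap C K γ) < 1 := by
  by_cases h0 : x = 0
  · refine ⟨0, ?_⟩
    rw [h0, map_zero, sub_zero, map_zero]
    exact zero_lt_one
  obtain ⟨f, g, hf, hg, hxfg⟩ := nf_frac hx h0
  obtain ⟨α, c, hc, h1⟩ := nf_lead hy hlt hf
  obtain ⟨β, c', hc', h2⟩ := nf_lead hy hlt hg
  have hvf := nf_lead_eq hy hB hc h1
  have hvg := nf_lead_eq hy hB hc' h2
  have hg0 : B.valuation (aeval y g) ≠ 0 := by
    rw [Ne, map_eq_zero]
    exact nf_ne hy hg
  have hle : B.valuation (aeval y f) ≤ B.valuation (aeval y g) := by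
    rw [hxfg, map_div₀] at hv
    exact (div_le_one₀ (zero_lt_iff.2 hg0)).1 hv
  rcases hle.lt_or_eq with hlt' | heq
  · refine ⟨0, ?_⟩
    rw [map_zero, sub_zero, hxfg, map_div₀]
    exact (div_lt_one₀ (zero_lt_iff.2 hg0)).2 hlt'
  · have hab : α = β := nf_mn_inj hy hlt (by rw [← hvf, ← hvg, heq])
    subst hab
    refine ⟨c / c', ?_⟩
    have hcK : algebraMap C K c' ≠ 0 := by
      rw [Ne, map_eq_zero]
      exact hc'
    have hgK : aeval y g ≠ 0 := nf_ne hy hg
    have h3 : x - algebraMap C K (c / c') =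
        ((aeval y f - algebraMap C K c * mn (C := C) y α) -
          algebraMap C K (c / c') * (aeval y g - algebraMap C K c' * mn (C := C) y α)) /
        aeval y g := by
      rw [hxfg, map_div₀]
      field_simp
      ring
    rw [h3, map_div₀]
    refine (div_lt_one₀ (zero_lt_iff.2 hg0)).2 ?_
    refine (B.valuation.map_sub _ _).trans_lt (max_lt ?_ ?_)
    · rw [hvg]
      exact h1
    · rw [map_mul, nf_cst hB (div_ne_zero hc hc'), one_mul, hvg]
      exact h2

/-- The residue field. -/
private theorem nf_res [IsAlgClosed C] (hy : AlgebraicIndependent C y) {B : ValuationSubring K}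
    (hB : ∀ c : C, algebraMap C K c ∈ B)
    (hlt : ∀ f g : MvPolynomial (Fin n) C, dg f < dg g →
      B.valuation (aeval y f / aeval y g) < 1)
    [FiniteDimensional (IntermediateField.adjoin C (Set.range y)) K] {z : K}
    (hz : B.valuation z ≤ 1) : ∃ γ : C, B.valuation (z - algebraMap C K γ) < 1 := by
  set F := IntermediateField.adjoin C (Set.range y) with hF
  have hint : IsIntegral F z := IsIntegral.of_finite F z
  set p := minpoly F z with hp
  have hp0 : p ≠ 0 := minpoly.ne_zero hint
  have hsum : ∑ i ∈ p.support, ((p.coeff i : F) : K) * z ^ i = 0 := by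
    have h1 : Polynomial.aeval z p = 0 := minpoly.aeval F z
    rw [Polynomial.aeval_def, Polynomial.eval₂_eq_sum, Polynomial.sum_def] at h1
    exact h1
  obtain ⟨i₀, hi₀, hmax⟩ := p.support.exists_max_image
    (fun i => B.valuation ((p.coeff i : F) : K)) (Polynomial.support_nonempty.2 hp0)
  have ha0 : ((p.coeff i₀ : F) : K) ≠ 0 := by
    intro h
    exact Polynomial.mem_support_iff.1 hi₀ (Subtype.ext h)
  have hva0 : B.valuation ((p.coeff i₀ : F) : K) ≠ 0 := by
    rw [Ne, map_eq_zero]
    exact ha0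
  have hb : ∀ i, ∃ γ : C, i ∈ p.support →
      B.valuation (((p.coeff i : F) : K) / ((p.coeff i₀ : F) : K) - algebraMap C K γ) < 1 := by
    intro i
    by_cases hi : i ∈ p.support
    · obtain ⟨γ, hγ⟩ := nf_resF hy hB hlt
        (x := ((p.coeff i : F) : K) / ((p.coeff i₀ : F) : K))
        (F.div_mem (p.coeff i).2 (p.coeff i₀).2) (by
          rw [map_div₀]
          exact (div_le_one₀ (zero_lt_iff.2 hva0)).2 (hmax i hi))
      exact ⟨γ, fun _ => hγ⟩
    · exact ⟨0, fun h => absurd h hi⟩
  choose γ hγ using hb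
  have hγ0 : γ i₀ ≠ 0 := by
    intro h
    have h1 := hγ i₀ hi₀
    rw [h, map_zero, sub_zero, div_self ha0, map_one] at h1
    exact lt_irrefl _ h1
  set q : Polynomial C := ∑ i ∈ p.support, Polynomial.monomial i (γ i) with hq
  have hq0 : q ≠ 0 := by
    intro h
    have h1 : q.coeff i₀ = γ i₀ := by
      rw [hq, Polynomial.finsetSum_coeff, Finset.sum_eq_single i₀]
      · rw [Polynomial.coeff_monomial, if_pos rfl]
      · intro j _ hj
        rw [Polynomial.coeff_monomial, if_neg hj]
      · intro h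
        exact absurd hi₀ h
    rw [h, Polynomial.coeff_zero] at h1
    exact hγ0 h1.symm
  have hqz : B.valuation (Polynomial.aeval z q) < 1 := by
    have h1 : Polynomial.aeval z q = ∑ i ∈ p.support,
        (algebraMap C K (γ i) - ((p.coeff i : F) : K) / ((p.coeff i₀ : F) : K)) * z ^ i := by
      have h2 : ∑ i ∈ p.support, ((p.coeff i : F) : K) / ((p.coeff i₀ : F) : K) * z ^ i = 0 := by
        have h3 : ∑ i ∈ p.support, ((p.coeff i : F) : K) / ((p.coeff i₀ : F) : K) * z ^ i =
            (∑ i ∈ p.support, ((p.coeff i : F) : K) * z ^ i) / ((p.coeff i₀ : F) : K) := by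
          rw [Finset.sum_div]
          refine Finset.sum_congr rfl fun i _ => ?_
          rw [div_mul_eq_mul_div]
        rw [h3, hsum, zero_div]
      rw [hq, map_sum]
      simp only [sub_mul, Finset.sum_sub_distrib, h2, sub_zero]
      refine Finset.sum_congr rfl fun i _ => ?_
      rw [Polynomial.aeval_monomial]
    rw [h1]
    apply B.valuation.map_sum_lt one_ne_zero
    intro i hi
    rw [map_mul, map_pow, Valuation.map_sub_swap]
    exact mul_lt_one_of_lt_of_le (hγ i hi) (pow_le_one' hz i)
  by_contra hcon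
  push Not at hcon
  have hall : ∀ ρ : C, B.valuation (z - algebraMap C K ρ) ≠ 0 := fun ρ =>
    ne_of_gt (zero_lt_one.trans_le (hcon ρ))
  have hsplit := IsAlgClosed.splits q
  have hprod : Polynomial.aeval z q = algebraMap C K q.leadingCoeff *
      (q.roots.map (fun ρ => z - algebraMap C K ρ)).prod := by
    conv_lhs => rw [hsplit.eq_prod_roots]
    rw [map_mul, Polynomial.aeval_C, map_multiset_prod, Multiset.map_map]
    congr 3
    funext ρ
    simp
  have hge : ∀ s : Multiset C, 1 ≤ B.valuation (s.map (fun ρ => z - algebraMap C K ρ)).prod := by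
    intro s
    induction s using Multiset.induction_on with
    | empty => simp
    | cons a s ih =>
      rw [Multiset.map_cons, Multiset.prod_cons, map_mul]
      exact one_le_mul (hcon a) ih
  rw [hprod, map_mul, nf_cst hB (Polynomial.leadingCoeff_ne_zero.2 hq0), one_mul] at hqz
  exact absurd hqz (not_lt.2 (hge _))

end Fin

section Basis

variable {C K : Type*} [Field C] [Field K] [Algebra C K]

/-- Elements with distinct values are linearly independent. -/
private theorem nf_indep {Γ : Type*} [LinearOrderedCommGroupWithZero Γ] (v : Valuation K Γ)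
    (hC : ∀ c : C, c ≠ 0 → v (algebraMap C K c) = 1) {ι : Type*} (x : ι → K)
    (hx : ∀ i, x i ≠ 0) (hd : Function.Injective fun i => v (x i)) : LinearIndependent C x := by
  classical
  rw [linearIndependent_iff']
  intro s g hg i hi
  by_contra hne
  have h1 : ∑ j ∈ s.filter (fun j => g j ≠ 0), g j • x j = 0 := by
    rw [← hg]
    refine Finset.sum_subset (Finset.filter_subset _ _) fun j hj hj' => ?_
    have : g j = 0 := by
      by_contra h
      exact hj' (Finset.mem_filter.2 ⟨hj, h⟩)
    rw [this, zero_smul]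
  have hval : ∀ j, g j ≠ 0 → v (g j • x j) = v (x j) := by
    intro j hj
    rw [Algebra.smul_def, map_mul, hC _ hj, one_mul]
  refine nf_sum v (s.filter (fun j => g j ≠ 0)) (fun j => g j • x j) ?_ ?_
    ⟨i, Finset.mem_filter.2 ⟨hi, hne⟩⟩ h1
  · intro j hj
    exact smul_ne_zero (Finset.mem_filter.1 hj).2 (hx j)
  · intro j hj k hk hjk
    apply hd
    change v (x j) = v (x k)
    rw [← hval j (Finset.mem_filter.1 hj).2, ← hval k (Finset.mem_filter.1 hk).2]
    exact hjk

/-- The elements of `A` smaller than `x`. -/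
private noncomputable def nfLt {Γ : Type*} [LinearOrderedCommGroupWithZero Γ] (v : Valuation K Γ)
    (hC : ∀ c : C, c ≠ 0 → v (algebraMap C K c) = 1) (A : Submodule C K) (x : K) (hx : x ≠ 0) :
    Submodule C K where
  carrier := {a | a ∈ A ∧ v a < v x}
  zero_mem' := ⟨A.zero_mem, by
    rw [map_zero, zero_lt_iff, Ne, map_eq_zero]
    exact hx⟩
  add_mem' := fun {a b} ha hb => ⟨A.add_mem ha.1 hb.1,
    (v.map_add a b).trans_lt (max_lt ha.2 hb.2)⟩
  smul_mem' := fun c a ha => ⟨A.smul_mem c ha.1, by
    by_cases hc : c = 0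
    · rw [hc, zero_smul, map_zero, zero_lt_iff, Ne, map_eq_zero]
      exact hx
    · rw [Algebra.smul_def, map_mul, hC c hc, one_mul]
      exact ha.2⟩

/-- A basis with distinct values. -/
private theorem nf_basis {Γ : Type*} [LinearOrderedCommGroupWithZero Γ] (v : Valuation K Γ)
    (hC : ∀ c : C, c ≠ 0 → v (algebraMap C K c) = 1)
    (hres : ∀ z : K, v z ≤ 1 → ∃ γ : C, v (z - algebraMap C K γ) < 1) :
    ∀ (N : ℕ) (A : Submodule C K), A.FG → N ≤ Module.finrank C A →
      ∃ f : Fin N → K, (∀ i, f i ∈ A) ∧ (∀ i, f i ≠ 0) ∧ Function.Injective fun i => v (f i) := by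
  intro N
  induction N with
  | zero =>
    intro A _ _
    exact ⟨Fin.elim0, fun i => i.elim0, fun i => i.elim0, fun i => i.elim0⟩
  | succ N ih =>
    intro A hA hN
    obtain ⟨S, hS⟩ := hA
    have hS0 : S.Nonempty := by
      by_contra h
      rw [Finset.not_nonempty_iff_eq_empty] at h
      rw [h, Finset.coe_empty, Submodule.span_empty] at hS
      rw [← hS, finrank_bot] at hN
      omega
    obtain ⟨x, hxS, hmax⟩ := S.exists_max_image (fun s => v s) hS0
    have hle : ∀ a ∈ A, v a ≤ v x := by
      intro a ha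
      rw [← hS] at ha
      induction ha using Submodule.span_induction with
      | mem s hs => exact hmax s hs
      | zero =>
        rw [map_zero]
        exact zero_le
      | add a b _ _ ha hb => exact (v.map_add a b).trans (max_le ha hb)
      | smul c a _ ha =>
        by_cases hc : c = 0
        · rw [hc, zero_smul, map_zero]
          exact zero_le
        · rw [Algebra.smul_def, map_mul, hC c hc, one_mul]
          exact ha
    have hxA : x ∈ A := by
      rw [← hS]
      exact Submodule.subset_span hxS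
    have hx0 : x ≠ 0 := by
      rintro rfl
      have hbot : A = ⊥ := by
        rw [eq_bot_iff]
        intro a ha
        have h1 := hle a ha
        rw [map_zero, le_zero_iff, map_eq_zero] at h1
        rw [Submodule.mem_bot, h1]
      rw [hbot, finrank_bot] at hN
      omega
    have hvx : v x ≠ 0 := by
      rw [Ne, map_eq_zero]
      exact hx0
    set A' := nfLt v hC A x hx0 with hA'
    have hsup : A ≤ Submodule.span C {x} ⊔ A' := by
      intro a ha
      have h1 : v (a / x) ≤ 1 := by
        rw [map_div₀]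
        exact (div_le_one₀ (zero_lt_iff.2 hvx)).2 (hle a ha)
      obtain ⟨γ, hγ⟩ := hres _ h1
      rw [Submodule.mem_sup]
      refine ⟨γ • x, Submodule.smul_mem _ _ (Submodule.mem_span_singleton_self x), a - γ • x,
        ⟨A.sub_mem ha (A.smul_mem _ hxA), ?_⟩, by ring⟩
      have h2 : a - γ • x = (a / x - algebraMap C K γ) * x := by
        rw [Algebra.smul_def, sub_mul, div_mul_cancel₀ _ hx0]
      rw [h2, map_mul]
      exact mul_lt_of_lt_one_left (zero_lt_iff.2 hvx) hγ
    have hAfg : A.FG := ⟨S, hS⟩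
    have : Module.Finite C A := Module.Finite.iff_fg.2 hAfg
    have hA'A : A' ≤ A := fun a ha => ha.1
    have : Module.Finite C A' := Submodule.finiteDimensional_of_le hA'A
    have hfin : Module.finrank C A ≤ 1 + Module.finrank C A' := by
      have h1 : Module.finrank C A ≤ Module.finrank C ↥(Submodule.span C {x} ⊔ A') :=
        Submodule.finrank_mono hsup
      have h2 := Submodule.finrank_add_le_finrank_add_finrank (Submodule.span C {x}) A'
      have h3 : Module.finrank C (Submodule.span C {x}) ≤ 1 := by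
        have := finrank_span_singleton (K := C) hx0
        omega
      omega
    obtain ⟨f, hfA, hf0, hfd⟩ := ih A' (Module.Finite.iff_fg.1 inferInstance) (by omega)
    refine ⟨Fin.cons x f, ?_, ?_, ?_⟩
    · intro i
      refine Fin.cases hxA (fun j => ?_) i
      exact (hfA j).1
    · intro i
      refine Fin.cases hx0 (fun j => ?_) i
      exact hf0 j
    · intro i j hij
      revert hij
      refine Fin.cases ?_ (fun i => ?_) i
      · refine Fin.cases ?_ (fun j => ?_) j
        · exact fun _ => rfl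
        · intro h
          have : v x = v (f j) := h
          exact absurd this.symm (hfA j).2.ne
      · refine Fin.cases ?_ (fun j => ?_) j
        · intro h
          have : v (f i) = v x := h
          exact absurd this (hfA i).2.ne
        · intro h
          have : v (f i) = v (f j) := h
          rw [hfd this]

end Basis

/-- **Fujita approximation in one step.** -/
def NFStmt : Prop :=
  ∀ (C K : Type) [Field C] [IsAlgClosed C] [Field K] [Algebra C K] (n : ℕ) (y : Fin n → K),
    AlgebraicIndependent C y →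
    FiniteDimensional (IntermediateField.adjoin C (Set.range y)) K →
    ∃ D : ℕ, 0 < D ∧ ∀ A B : Submodule C K, A.FG → B.FG → ∀ h : K, h ∈ B → h ≠ 0 →
      (∀ i, h * y i ∈ B) → ∀ k : ℕ, 0 < k → Nat.Coprime k D →
        k ^ n * Module.finrank C A ≤ Module.finrank C ↥((A * B ^ n) ^ k)

section Final

variable {C K : Type*} [Field C] [Field K] [Algebra C K] {n : ℕ} {y : Fin n → K}

private theorem nf_pow_inj {Γ : Type*} [LinearOrderedCommGroupWithZero Γ] {a b : Γ} {k : ℕ}
    (hk : k ≠ 0) (h : a ^ k = b ^ k) : a = b :=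
  (pow_left_inj₀ zero_le zero_le hk).1 h

private theorem nf_mem (B : Submodule C K) {h : K} (hB : h ∈ B) (hy : ∀ i, h * y i ∈ B)
    (k : ℕ) (r : Fin n → Fin k) :
    h ^ (n * k) * ∏ i, y i ^ (r i : ℕ) ∈ B ^ (n * k) := by
  have h1 : ∀ s : Finset (Fin n), h ^ (s.card * k) * ∏ i ∈ s, y i ^ (r i : ℕ) ∈ B ^ (s.card * k) := by
    classical
    intro s
    induction s using Finset.induction_on with
    | empty =>
      simp
    | insert i s hi ih =>
      rw [Finset.card_insert_of_notMem hi, Finset.prod_insert hi, add_mul, one_mul, pow_add, pow_add]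
      have h2 : h ^ (s.card * k) * h ^ k * (y i ^ (r i : ℕ) * ∏ j ∈ s, y j ^ (r j : ℕ)) =
          (h ^ (s.card * k) * ∏ j ∈ s, y j ^ (r j : ℕ)) * (h ^ k * y i ^ (r i : ℕ)) := by
        ring
      rw [h2]
      refine Submodule.mul_mem_mul ih ?_
      have h3 : h ^ k * y i ^ (r i : ℕ) = h ^ (k - (r i : ℕ)) * (h * y i) ^ (r i : ℕ) := by
        have hrk : (r i : ℕ) ≤ k := (r i).2.le
        rw [mul_pow, ← mul_assoc, ← pow_add, Nat.sub_add_cancel hrk]
      have h4 : B ^ k = B ^ (k - (r i : ℕ)) * B ^ (r i : ℕ) := by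
        rw [← pow_add, Nat.sub_add_cancel (r i).2.le]
      rw [h3, h4]
      exact Submodule.mul_mem_mul (Submodule.pow_mem_pow _ hB _) (Submodule.pow_mem_pow _ (hy i) _)
  have h2 := h1 Finset.univ
  rwa [Finset.card_univ, Fintype.card_fin] at h2

/-- The exponent vector. -/
private noncomputable def nfr {k : ℕ} (r : Fin n → Fin k) : Fin n →₀ ℕ :=
  Finsupp.equivFunOnFinite.symm fun i => (r i : ℕ)

private theorem nfr_apply {k : ℕ} (r : Fin n → Fin k) (i : Fin n) : nfr r i = (r i : ℕ) := rfl

private theorem nf_y_ne (hy : AlgebraicIndependent C y) (i : Fin n) : y i ≠ 0 := by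
  have := nf_mn_ne (y := y) hy (Finsupp.single i 1)
  rw [mn_eq] at this
  intro h0
  apply this
  refine Finset.prod_eq_zero (Finset.mem_univ i) ?_
  rw [h0, Finsupp.single_eq_same, pow_one]

private theorem nf_mn_val (V : ValuationSubring K) (α : Fin n →₀ ℕ) :
    V.valuation (mn (C := C) y α) = ∏ i, V.valuation (y i) ^ α i := by
  rw [mn_eq, map_prod]
  simp only [map_pow]

/-- The counting step: the values are distinct. -/
private theorem nf_dist (hy : AlgebraicIndependent C y) {B : ValuationSubring K}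
    (hB : ∀ c : C, algebraMap C K c ∈ B)
    (hlt : ∀ f g : MvPolynomial (Fin n) C, dg f < dg g →
      B.valuation (aeval y f / aeval y g) < 1)
    [FiniteDimensional (IntermediateField.adjoin C (Set.range y)) K] {k : ℕ}
    (hk : 0 < k) (hcop : Nat.Coprime k
      (Module.finrank (IntermediateField.adjoin C (Set.range y)) K).factorial)
    {a a' : K} (ha : a ≠ 0) (ha' : a' ≠ 0) (r r' : Fin n → Fin k)
    (h : B.valuation a ^ k * B.valuation (mn (C := C) y (nfr r)) =
      B.valuation a' ^ k * B.valuation (mn (C := C) y (nfr r'))) :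
    B.valuation a = B.valuation a' ∧ r = r' := by
  have hz : a / a' ≠ 0 := div_ne_zero ha ha'
  have hva' : B.valuation a' ≠ 0 := by
    rw [Ne, map_eq_zero]
    exact ha'
  have hvz : B.valuation (a / a') ≠ 0 := by
    rw [Ne, map_eq_zero]
    exact hz
  obtain ⟨e, he1, he2, α, β, he⟩ := nf_val hy hB hlt hz
  obtain ⟨e', hee⟩ : e ∣ (Module.finrank (IntermediateField.adjoin C (Set.range y)) K).factorial :=
    Nat.dvd_factorial he1 he2
  set D := (Module.finrank (IntermediateField.adjoin C (Set.range y)) K).factorial with hD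
  have h2 : B.valuation (a / a') ^ k * B.valuation (mn (C := C) y (nfr r)) =
      B.valuation (mn (C := C) y (nfr r')) := by
    have h3 : B.valuation a = B.valuation (a / a') * B.valuation a' := by
      rw [← map_mul, div_mul_cancel₀ _ ha']
    rw [h3, mul_pow, mul_right_comm, mul_comm] at h
    exact mul_left_cancel₀ (pow_ne_zero _ hva') h
  have hr : r = r' := by
    have h4 : B.valuation (a / a') ^ (k * D) * B.valuation (mn (C := C) y (D • nfr r)) =
        B.valuation (mn (C := C) y (D • nfr r')) := by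
      rw [mn_smul, mn_smul, map_pow, map_pow, ← h2, mul_pow, ← pow_mul]
    have h5 : B.valuation (a / a') ^ (k * D) * B.valuation (mn (C := C) y ((k * e') • β)) =
        B.valuation (mn (C := C) y ((k * e') • α)) := by
      rw [mn_smul, mn_smul, map_pow, map_pow, ← he, mul_pow, ← pow_mul, hee]
      congr 2
      ring
    have h6 : B.valuation (mn (C := C) y (D • nfr r + (k * e') • α)) =
        B.valuation (mn (C := C) y (D • nfr r' + (k * e') • β)) := by
      rw [mn_add, mn_add, map_mul, map_mul, ← h4, ← h5]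
      ac_rfl
    have h7 := nf_mn_inj hy hlt h6
    funext i
    have h8 := DFunLike.congr_fun h7 i
    simp only [Finsupp.add_apply, Finsupp.smul_apply, nfr_apply, smul_eq_mul] at h8
    have h9 : D * (r i : ℕ) ≡ D * (r' i : ℕ) [MOD k] := by
      have h10 : D * (r i : ℕ) + k * (e' * α i) ≡ D * (r' i : ℕ) + k * (e' * β i) [MOD k] := by
        rw [← mul_assoc, ← mul_assoc, h8]
      have h11 : D * (r i : ℕ) + k * (e' * α i) ≡ D * (r i : ℕ) [MOD k] := by
        rw [Nat.ModEq, Nat.add_mul_mod_self_left]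
      have h12 : D * (r' i : ℕ) + k * (e' * β i) ≡ D * (r' i : ℕ) [MOD k] := by
        rw [Nat.ModEq, Nat.add_mul_mod_self_left]
      exact h11.symm.trans (h10.trans h12)
    have h13 : (r i : ℕ) ≡ (r' i : ℕ) [MOD k] := Nat.ModEq.cancel_left_of_coprime hcop h9
    exact Fin.ext (Nat.ModEq.eq_of_lt_of_lt h13 (r i).2 (r' i).2)
  refine ⟨?_, hr⟩
  rw [hr] at h
  have h14 : B.valuation (mn (C := C) y (nfr r')) ≠ 0 := by
    rw [Ne, map_eq_zero]
    exact nf_mn_ne hy _
  exact nf_pow_inj hk.ne' (mul_right_cancel₀ h14 h)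

/-- The count. -/
private theorem nf_count {Γ : Type*} [LinearOrderedCommGroupWithZero Γ] (v : Valuation K Γ)
    (hC : ∀ c : C, c ≠ 0 → v (algebraMap C K c) = 1)
    (hres : ∀ z : K, v z ≤ 1 → ∃ γ : C, v (z - algebraMap C K γ) < 1) (x : Fin n → K)
    (hx : ∀ i, x i ≠ 0) {k : ℕ}
    (hdist : ∀ a a' : K, a ≠ 0 → a' ≠ 0 → ∀ r r' : Fin n → Fin k,
      v a ^ k * ∏ i, v (x i) ^ (r i : ℕ) = v a' ^ k * ∏ i, v (x i) ^ (r' i : ℕ) →
        v a = v a' ∧ r = r')
    (A B : Submodule C K) (hA : A.FG) (hB : B.FG) {h : K} (hhB : h ∈ B) (hh0 : h ≠ 0)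
    (hhx : ∀ i, h * x i ∈ B) :
    k ^ n * Module.finrank C A ≤ Module.finrank C ↥((A * B ^ n) ^ k) := by
  obtain ⟨f, hfA, hf0, hfd⟩ := nf_basis v hC hres (Module.finrank C A) A hA le_rfl
  let E : Fin (Module.finrank C A) × (Fin n → Fin k) → K := fun p =>
    f p.1 ^ k * (h ^ (n * k) * ∏ i, x i ^ (p.2 i : ℕ))
  have hEv : ∀ p, v (E p) = v (h ^ (n * k)) *
      (v (f p.1) ^ k * ∏ i, v (x i) ^ (p.2 i : ℕ)) := by
    intro p
    have h1 : E p = h ^ (n * k) * (f p.1 ^ k * ∏ i, x i ^ (p.2 i : ℕ)) := by
      change f p.1 ^ k * (h ^ (n * k) * ∏ i, x i ^ (p.2 i : ℕ)) = _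
      ring
    rw [h1, map_mul, map_mul, map_pow v (f p.1), map_prod]
    simp only [map_pow]
  have hE0 : ∀ p, E p ≠ 0 := by
    intro p
    refine mul_ne_zero (pow_ne_zero _ (hf0 _)) (mul_ne_zero (pow_ne_zero _ hh0) ?_)
    exact Finset.prod_ne_zero_iff.2 fun i _ => pow_ne_zero _ (hx i)
  have hEd : Function.Injective fun p => v (E p) := by
    rintro ⟨a, r⟩ ⟨a', r'⟩ hab
    simp only [hEv] at hab
    have h1 : v (h ^ (n * k)) ≠ 0 := by
      rw [Ne, map_eq_zero]
      exact pow_ne_zero _ hh0
    have h2 := mul_left_cancel₀ h1 hab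
    obtain ⟨h3, h4⟩ := hdist _ _ (hf0 a) (hf0 a') r r' h2
    rw [hfd h3, h4]
  have hEm : ∀ p, E p ∈ (A * B ^ n) ^ k := by
    intro p
    rw [mul_pow, ← pow_mul]
    exact Submodule.mul_mem_mul (Submodule.pow_mem_pow _ (hfA _) _) (nf_mem B hhB hhx k p.2)
  have hli := nf_indep v hC E hE0 hEd
  have hfg : ((A * B ^ n) ^ k).FG := (hA.mul (hB.pow n)).pow k
  have : Module.Finite C ↥((A * B ^ n) ^ k) := Module.Finite.iff_fg.2 hfg
  have hli2 : LinearIndependent C (fun p => (⟨E p, hEm p⟩ : ↥((A * B ^ n) ^ k))) := by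
    refine LinearIndependent.of_comp ((A * B ^ n) ^ k).subtype ?_
    exact hli
  have h5 := hli2.fintype_card_le_finrank
  rw [Fintype.card_prod, Fintype.card_fun, Fintype.card_fin, Fintype.card_fin,
    Fintype.card_fin] at h5
  rw [mul_comm]
  exact h5

private theorem nf_main [IsAlgClosed C] (hy : AlgebraicIndependent C y)
    [FiniteDimensional (IntermediateField.adjoin C (Set.range y)) K] :
    ∃ D : ℕ, 0 < D ∧ ∀ A B : Submodule C K, A.FG → B.FG → ∀ h : K, h ∈ B → h ≠ 0 →
      (∀ i, h * y i ∈ B) → ∀ k : ℕ, 0 < k → Nat.Coprime k D →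
        k ^ n * Module.finrank C A ≤ Module.finrank C ↥((A * B ^ n) ^ k) := by
  obtain ⟨V, hV, hlt⟩ := nf_ex (K := K) y hy
  have hC : ∀ c : C, c ≠ 0 → V.valuation (algebraMap C K c) = 1 := fun c hc => nf_cst hV hc
  refine ⟨(Module.finrank (IntermediateField.adjoin C (Set.range y)) K).factorial,
    Nat.factorial_pos _, ?_⟩
  intro A B hA hB h hhB hh0 hhy k hk hcop
  refine nf_count V.valuation hC (fun z hz => nf_res hy hV hlt hz) y (nf_y_ne hy) ?_ A B hA hB
    hhB hh0 hhy
  intro a a' ha ha' r r' hrr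
  refine nf_dist hy hV hlt hk hcop ha ha' r r' ?_
  rw [nf_mn_val, nf_mn_val]
  exact hrr

end Final

section AllK

variable {C K : Type*} [Field C] [Field K] [Algebra C K] {n : ℕ} {y : Fin n → K}

/-- A group between a lattice and a multiple of it. -/
private theorem nf_free {G : Type*} [AddCommGroup G] (D : ℕ) (hD : 0 < D) (n : ℕ)
    (htf : ∀ g : G, ∀ m : ℕ, m ≠ 0 → m • g = 0 → g = 0)
    (φ : (Fin n → ℤ) →ₗ[ℤ] G) (hφ : Function.Injective φ)
    (hDφ : ∀ g : G, D • g ∈ LinearMap.range φ) : Nonempty (Module.Basis (Fin n) ℤ G) := by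
  let e := LinearEquiv.ofInjective φ hφ
  let μ : G →ₗ[ℤ] LinearMap.range φ :=
    LinearMap.codRestrict _ (D • LinearMap.id) (fun g => by
      change D • g ∈ _
      exact hDφ g)
  let ψ : G →ₗ[ℤ] (Fin n → ℤ) := e.symm.toLinearMap ∘ₗ μ
  have hψ : Function.Injective ψ := by
    rw [← LinearMap.ker_eq_bot, LinearMap.ker_eq_bot']
    intro g hg
    have h1 : μ g = 0 := e.symm.map_eq_zero_iff.1 hg
    have h2 : D • g = 0 := congrArg Subtype.val h1
    exact htf g D hD.ne' h2
  have hfin : Module.Finite ℤ G := Module.Finite.of_injective ψ hψ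
  have hfree : Module.Free ℤ G := Module.Free.of_equiv (LinearEquiv.ofInjective ψ hψ).symm
  have hr : Module.finrank ℤ G = n := by
    apply le_antisymm
    · have := LinearMap.finrank_le_finrank_of_injective hψ
      simpa using this
    · have := LinearMap.finrank_le_finrank_of_injective hφ
      simpa using this
  exact ⟨Module.finBasisOfFinrankEq ℤ G hr⟩

/-- The unit of the value group given by a nonzero element. -/
private noncomputable def vu (V : ValuationSubring K) {x : K} (hx : x ≠ 0) : V.ValueGroupˣ :=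
  Units.mk0 (V.valuation x) (by rw [Ne, map_eq_zero]; exact hx)

private theorem vu_val (V : ValuationSubring K) {x : K} (hx : x ≠ 0) :
    ((vu V hx : V.ValueGroupˣ) : V.ValueGroup) = V.valuation x := rfl

private theorem nf_gbasis (hy : AlgebraicIndependent C y) {V : ValuationSubring K}
    (hV : ∀ c : C, algebraMap C K c ∈ V)
    (hlt : ∀ f g : MvPolynomial (Fin n) C, dg f < dg g →
      V.valuation (aeval y f / aeval y g) < 1)
    [FiniteDimensional (IntermediateField.adjoin C (Set.range y)) K] :
    Nonempty (Module.Basis (Fin n) ℤ (Additive V.ValueGroupˣ)) := by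
  let w : Fin n → Additive V.ValueGroupˣ := fun i => Additive.ofMul (vu V (nf_y_ne hy i))
  let φ : (Fin n → ℤ) →ₗ[ℤ] Additive V.ValueGroupˣ := Fintype.linearCombination ℤ w
  have hφα : ∀ α : Fin n → ℤ, φ α = ∑ i, α i • w i := fun α => by
    rw [Fintype.linearCombination_apply]
  have hW : ∀ α : Fin n →₀ ℕ, φ (fun i => (α i : ℤ)) =
      Additive.ofMul (vu V (nf_mn_ne (C := C) hy α)) := by
    intro α
    rw [hφα]
    apply Additive.toMul.injective
    rw [toMul_sum]
    apply Units.ext
    rw [toMul_ofMul, vu_val, nf_mn_val, Units.coe_prod]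
    refine Finset.prod_congr rfl fun i _ => ?_
    rw [natCast_zsmul, toMul_nsmul, Units.val_pow_eq_pow_val]
    rfl
  refine nf_free (Module.finrank (IntermediateField.adjoin C (Set.range y)) K).factorial
    (Nat.factorial_pos _) n ?_ φ ?_ ?_
  · intro g m hm hg
    have h1 : (Additive.toMul g) ^ m = 1 := by
      rw [← toMul_nsmul, hg, toMul_zero]
    have h2 : ((Additive.toMul g : V.ValueGroupˣ) : V.ValueGroup) ^ m = 1 ^ m := by
      rw [← Units.val_pow_eq_pow_val, h1, one_pow, Units.val_one]
    have h3 := nf_pow_inj hm h2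
    apply Additive.toMul.injective
    exact Units.ext h3
  · rw [← LinearMap.ker_eq_bot, LinearMap.ker_eq_bot']
    intro α hα
    let β : Fin n →₀ ℕ := Finsupp.equivFunOnFinite.symm fun i => (α i).toNat
    let γ : Fin n →₀ ℕ := Finsupp.equivFunOnFinite.symm fun i => (-α i).toNat
    have h1 : α + (fun i => (γ i : ℤ)) = fun i => (β i : ℤ) := by
      funext i
      change α i + ((-α i).toNat : ℤ) = ((α i).toNat : ℤ)
      omega
    have h2 : φ (fun i => (γ i : ℤ)) = φ (fun i => (β i : ℤ)) := by
      rw [← h1, map_add, hα, zero_add]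
    rw [hW, hW] at h2
    have h3 : V.valuation (mn (C := C) y γ) = V.valuation (mn (C := C) y β) := by
      have h4 := congrArg (fun g => ((Additive.toMul g : V.ValueGroupˣ) : V.ValueGroup)) h2
      exact h4
    have h5 := nf_mn_inj hy hlt h3
    rw [h5] at h1
    have h6 : α = 0 := by
      funext i
      have := congrFun h1 i
      change α i + (β i : ℤ) = (β i : ℤ) at this
      change α i = 0
      omega
    exact h6
  · intro g
    obtain ⟨z, hz⟩ := V.valuation_surjective ((Additive.toMul g : V.ValueGroupˣ) : V.ValueGroup)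
    have hz0 : z ≠ 0 := by
      rintro rfl
      rw [map_zero] at hz
      exact (Additive.toMul g).ne_zero hz.symm
    obtain ⟨e, he1, he2, α, β, he⟩ := nf_val hy hV hlt hz0
    obtain ⟨e', hee⟩ : e ∣
        (Module.finrank (IntermediateField.adjoin C (Set.range y)) K).factorial :=
      Nat.dvd_factorial he1 he2
    have h1 : e • g + φ (fun i => (β i : ℤ)) = φ (fun i => (α i : ℤ)) := by
      rw [hW, hW]
      apply Additive.toMul.injective
      apply Units.ext
      rw [toMul_add, toMul_nsmul, Units.val_mul, Units.val_pow_eq_pow_val, ← hz, toMul_ofMul,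
        toMul_ofMul, vu_val, vu_val]
      exact he
    have h2 : e • g ∈ LinearMap.range φ := by
      have h3 : e • g = φ (fun i => (α i : ℤ)) - φ (fun i => (β i : ℤ)) := by
        rw [← h1, add_sub_cancel_right]
      rw [h3]
      exact Submodule.sub_mem _ ⟨_, rfl⟩ ⟨_, rfl⟩
    rw [hee, mul_comm, mul_smul]
    exact Submodule.smul_of_tower_mem _ e' h2

private theorem nf_dist' {V : ValuationSubring K}
    (b : Module.Basis (Fin n) ℤ (Additive V.ValueGroupˣ)) (x : Fin n → K)
    (hx : ∀ i, V.valuation (x i) = ((Additive.toMul (b i) : V.ValueGroupˣ) : V.ValueGroup))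
    {k : ℕ} (hk : 0 < k) {a a' : K} (ha : a ≠ 0) (ha' : a' ≠ 0) (r r' : Fin n → Fin k)
    (h : V.valuation a ^ k * ∏ i, V.valuation (x i) ^ (r i : ℕ) =
      V.valuation a' ^ k * ∏ i, V.valuation (x i) ^ (r' i : ℕ)) :
    V.valuation a = V.valuation a' ∧ r = r' := by
  have hval : ∀ (a : K) (ha : a ≠ 0) (r : Fin n → Fin k),
      ((Additive.toMul (k • Additive.ofMul (vu V ha) + ∑ i, (r i : ℕ) • b i) :
        V.ValueGroupˣ) : V.ValueGroup) =
      V.valuation a ^ k * ∏ i, V.valuation (x i) ^ (r i : ℕ) := by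
    intro a ha r
    rw [toMul_add, toMul_nsmul, toMul_sum, Units.val_mul, Units.val_pow_eq_pow_val,
      Units.coe_prod, toMul_ofMul, vu_val]
    congr 1
    refine Finset.prod_congr rfl fun i _ => ?_
    rw [toMul_nsmul, Units.val_pow_eq_pow_val, hx]
  have h1 : k • Additive.ofMul (vu V ha) + ∑ i, (r i : ℕ) • b i =
      k • Additive.ofMul (vu V ha') + ∑ i, (r' i : ℕ) • b i := by
    apply Additive.toMul.injective
    apply Units.ext
    rw [hval, hval, h]
  have hr : r = r' := by
    funext j
    have hco : ∀ r : Fin n → Fin k, b.coord j (∑ i, (r i : ℕ) • b i) = ((r j : ℕ) : ℤ) := by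
      intro r
      rw [map_sum, Finset.sum_eq_single j]
      · rw [map_nsmul, Module.Basis.coord_apply, Module.Basis.repr_self, Finsupp.single_eq_same]
        simp
      · intro i _ hij
        rw [map_nsmul, Module.Basis.coord_apply, Module.Basis.repr_self,
          Finsupp.single_eq_of_ne (Ne.symm hij), smul_zero]
      · intro h
        exact absurd (Finset.mem_univ _) h
    have h2 := congrArg (b.coord j) h1
    rw [map_add, map_add, hco, hco, map_nsmul, map_nsmul, nsmul_eq_mul, nsmul_eq_mul] at h2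
    have h3 : ((r j : ℕ) : ℤ) ≡ ((r' j : ℕ) : ℤ) [ZMOD (k : ℤ)] := by
      rw [Int.modEq_iff_dvd]
      refine ⟨b.coord j (Additive.ofMul (vu V ha)) - b.coord j (Additive.ofMul (vu V ha')), ?_⟩
      rw [mul_sub]
      linarith
    rw [Int.natCast_modEq_iff] at h3
    exact Fin.ext (Nat.ModEq.eq_of_lt_of_lt h3 (r j).2 (r' j).2)
  refine ⟨?_, hr⟩
  rw [hr] at h
  have h14 : ∏ i, V.valuation (x i) ^ (r' i : ℕ) ≠ 0 := by
    refine Finset.prod_ne_zero_iff.2 fun i _ => pow_ne_zero _ ?_
    rw [hx]
    exact Units.ne_zero _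
  exact nf_pow_inj hk.ne' (mul_right_cancel₀ h14 h)

private theorem nf_all [IsAlgClosed C] (hy : AlgebraicIndependent C y)
    [FiniteDimensional (IntermediateField.adjoin C (Set.range y)) K] :
    ∃ x : Fin n → K, (∀ i, x i ≠ 0) ∧ ∀ A B : Submodule C K, A.FG → B.FG → ∀ h : K, h ∈ B →
      h ≠ 0 → (∀ i, h * x i ∈ B) → ∀ k : ℕ, 0 < k →
        k ^ n * Module.finrank C A ≤ Module.finrank C ↥((A * B ^ n) ^ k) := by
  obtain ⟨V, hV, hlt⟩ := nf_ex (K := K) y hy
  have hC : ∀ c : C, c ≠ 0 → V.valuation (algebraMap C K c) = 1 := fun c hc => nf_cst hV hc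
  obtain ⟨b⟩ := nf_gbasis hy hV hlt
  have hex : ∀ i, ∃ x : K, V.valuation x =
      ((Additive.toMul (b i) : V.ValueGroupˣ) : V.ValueGroup) := fun i =>
    V.valuation_surjective _
  choose x hx using hex
  have hx0 : ∀ i, x i ≠ 0 := by
    intro i h0
    have h1 := hx i
    rw [h0, map_zero] at h1
    exact Units.ne_zero _ h1.symm
  refine ⟨x, hx0, ?_⟩
  intro A B hA hB h hhB hh0 hhx k hk
  exact nf_count V.valuation hC (fun z hz => nf_res hy hV hlt hz) x hx0
    (fun a a' ha ha' r r' h => nf_dist' b x hx hk ha ha' r r' h) A B hA hB hhB hh0 hhx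

end AllK

/-- **Fujita approximation in one step**, for all `k`. -/
def NFAllStmt : Prop :=
  ∀ (C K : Type) [Field C] [IsAlgClosed C] [Field K] [Algebra C K] (n : ℕ),
    (∃ T : Finset K, IntermediateField.adjoin C (T : Set K) = ⊤) → Algebra.trdeg C K = n →
    ∃ x : Fin n → K, (∀ i, x i ≠ 0) ∧ ∀ A B : Submodule C K, A.FG → B.FG → ∀ h : K, h ∈ B →
      h ≠ 0 → (∀ i, h * x i ∈ B) → ∀ k : ℕ, 0 < k →
        k ^ n * Module.finrank C A ≤ Module.finrank C ↥((A * B ^ n) ^ k)

/-- **Fujita approximation in one step**, with one space `B` for all spaces `A`. -/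
def NFBStmt : Prop :=
  ∀ (C K : Type) [Field C] [IsAlgClosed C] [Field K] [Algebra C K] (n : ℕ),
    (∃ T : Finset K, IntermediateField.adjoin C (T : Set K) = ⊤) → Algebra.trdeg C K = n →
    ∃ B : Submodule C K, B.FG ∧ (1 : K) ∈ B ∧ ∀ A : Submodule C K, A.FG → ∀ k : ℕ, 0 < k →
      k ^ n * Module.finrank C A ≤ Module.finrank C ↥((A * B ^ n) ^ k)

theorem nf : NFStmt := by
  intro C K _ _ _ _ n y hy hfin
  exact nf_main hy

theorem nfAll : NFAllStmt := by
  intro C K _ _ _ _ n hT htr
  obtain ⟨T, hT⟩ := hT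
  obtain ⟨s, hs⟩ := exists_isTranscendenceBasis C K
  have hcard : Cardinal.mk s = n := hs.cardinalMk_eq_trdeg.trans htr
  obtain ⟨e⟩ : Nonempty (Fin n ≃ s) := by
    rw [← Cardinal.eq, hcard, Cardinal.mk_fin]
  let y : Fin n → K := fun i => (e i : K)
  have hy : IsTranscendenceBasis C y := hs.comp_equiv e
  have halg : Algebra.IsAlgebraic (IntermediateField.adjoin C (Set.range y)) K :=
    hy.isAlgebraic_field
  have hfin : FiniteDimensional (IntermediateField.adjoin C (Set.range y)) K := by
    have h1 : IntermediateField.adjoin (IntermediateField.adjoin C (Set.range y)) (T : Set K)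
        = ⊤ := by
      rw [eq_top_iff]
      intro z _
      have hz : z ∈ IntermediateField.adjoin C (T : Set K) := by
        rw [hT]
        trivial
      have h2 : IntermediateField.adjoin C (T : Set K) ≤ (IntermediateField.adjoin
          (IntermediateField.adjoin C (Set.range y)) (T : Set K)).restrictScalars C := by
        rw [IntermediateField.adjoin_le_iff]
        exact IntermediateField.subset_adjoin _ _
      exact h2 hz
    have h3 : FiniteDimensional (IntermediateField.adjoin C (Set.range y))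
        (IntermediateField.adjoin (IntermediateField.adjoin C (Set.range y)) (T : Set K)) :=
      IntermediateField.finiteDimensional_adjoin fun z _ =>
        (Algebra.IsAlgebraic.isAlgebraic z).isIntegral
    rw [h1] at h3
    exact Module.Finite.equiv IntermediateField.topEquiv.toLinearEquiv
  exact nf_all hy.1

theorem nfB : NFBStmt := by
  intro C K _ _ _ _ n hT htr
  obtain ⟨x, _, hx⟩ := nfAll C K n hT htr
  classical
  refine ⟨Submodule.span C (insert 1 (Set.range x)), ?_, ?_, ?_⟩
  · exact Submodule.fg_span ((Set.finite_range x).insert 1)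
  · exact Submodule.subset_span (Set.mem_insert _ _)
  · intro A hA k hk
    refine hx A _ hA (Submodule.fg_span ((Set.finite_range x).insert 1)) 1
      (Submodule.subset_span (Set.mem_insert _ _)) one_ne_zero ?_ k hk
    intro i
    rw [one_mul]
    exact Submodule.subset_span (Set.mem_insert_of_mem _ ⟨i, rfl⟩)

end Pool.Agent.Lib.MP_410da7_agA
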