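import Pool.Agent.Lib.MP_410da7_agA.ND

/-!
# C46, block N, GEO 1: rows
-/

set_option autoImplicit false

namespace Pool.Agent.Lib.MP_410da7_agA

open scoped Pointwise

section

variable {K : Type} [Field K]

/-- Every finite set with a nonzero element is the range of a row. -/
theorem exists_row (S : Set K) (hS : S.Finite) (h0 : ∃ a ∈ S, a ≠ 0) :
    ∃ r : Row K, Set.range r.b = S := by
  obtain ⟨a, haS, ha0⟩ := h0
  have : Finite S := hS.to_subtype
  have : Fintype S := Fintype.ofFinite S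
  let e : Fin (Fintype.card S) ≃ S := (Fintype.equivFin S).symm
  refine ⟨⟨Fintype.card S, Fin.cons a fun j => (e j : K), ?_⟩, ?_⟩
  · rw [Fin.cons_zero]; exact ha0
  · change Set.range (Fin.cons a fun j => (e j : K) : Fin (Fintype.card S + 1) → K) = S
    rw [Fin.range_cons]
    ext c
    constructor
    · rintro (rfl | ⟨j, rfl⟩)
      · exact haS
      · exact (e j).2
    · intro hc
      refine Or.inr ⟨e.symm ⟨c, hc⟩, ?_⟩
      simp only [Equiv.apply_symm_apply]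

/-- The size of a row depends only on its elements. -/
theorem rsize_eq {r : Row K} {Γ : Type} [LinearOrderedCommGroupWithZero Γ] (v : Valuation K Γ)
    {c : Γ} (h1 : ∀ a ∈ Set.range r.b, v a ≤ c) (h2 : ∃ a ∈ Set.range r.b, v a = c) :
    rsize r Γ v = c := by
  refine le_antisymm (rsize_le r v fun j => h1 _ ⟨j, rfl⟩) ?_
  obtain ⟨_, ⟨j, rfl⟩, h⟩ := h2
  rw [← h]; exact le_rsize r j v

/-- The product of two rows. -/
theorem exists_row_mul (r r' : Row K) : ∃ r'' : Row K, Set.range r''.b =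
    Set.range r.b * Set.range r'.b ∧
    ∀ (Γ : Type) [LinearOrderedCommGroupWithZero Γ] (v : Valuation K Γ),
      rsize r'' Γ v = rsize r Γ v * rsize r' Γ v := by
  obtain ⟨r'', h⟩ := exists_row (Set.range r.b * Set.range r'.b)
    ((Set.finite_range _).mul (Set.finite_range _))
    ⟨r.b 0 * r'.b 0, Set.mul_mem_mul ⟨0, rfl⟩ ⟨0, rfl⟩, mul_ne_zero r.ne r'.ne⟩
  refine ⟨r'', h, fun Γ _ v => rsize_eq v ?_ ?_⟩
  · rw [h]
    rintro _ ⟨_, ⟨j, rfl⟩, _, ⟨k, rfl⟩, rfl⟩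
    simp only [map_mul]
    exact mul_le_mul' (le_rsize r j v) (le_rsize r' k v)
  · rw [h]
    obtain ⟨j, hj⟩ := exists_rsize r v
    obtain ⟨k, hk⟩ := exists_rsize r' v
    refine ⟨r.b j * r'.b k, Set.mul_mem_mul ⟨j, rfl⟩ ⟨k, rfl⟩, ?_⟩
    rw [map_mul, hj, hk]

/-- A multiple of a row. -/
theorem exists_row_smul (c : K) (hc : c ≠ 0) (r : Row K) : ∃ r'' : Row K,
    Set.range r''.b = (fun a => c * a) '' Set.range r.b ∧
    ∀ (Γ : Type) [LinearOrderedCommGroupWithZero Γ] (v : Valuation K Γ),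
      rsize r'' Γ v = v c * rsize r Γ v := by
  refine ⟨⟨r.s, fun j => c * r.b j, mul_ne_zero hc r.ne⟩, ?_, fun Γ _ v => ?_⟩
  · rw [← Set.range_comp]; rfl
  · refine rsize_eq v ?_ ?_
    · rintro _ ⟨j, rfl⟩
      change v (c * r.b j) ≤ _
      rw [map_mul]
      exact mul_le_mul_right (le_rsize r j v) _
    · obtain ⟨j, hj⟩ := exists_rsize r v
      refine ⟨c * r.b j, ⟨j, rfl⟩, ?_⟩
      rw [map_mul, hj]

/-- Powers of a row. -/
theorem exists_row_pow (r : Row K) (t : ℕ) : ∃ r'' : Row K,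
    ((∃ j, r.b j = 1) → ∃ j, r''.b j = 1) ∧
    ∀ (Γ : Type) [LinearOrderedCommGroupWithZero Γ] (v : Valuation K Γ),
      rsize r'' Γ v = rsize r Γ v ^ t := by
  induction t with
  | zero =>
    refine ⟨⟨0, fun _ => 1, one_ne_zero⟩, fun _ => ⟨0, rfl⟩, fun Γ _ v => ?_⟩
    rw [pow_zero]
    exact rsize_eq v (by rintro _ ⟨j, rfl⟩; change v 1 ≤ 1; rw [map_one])
      ⟨1, ⟨0, rfl⟩, map_one v⟩
  | succ t ih =>
    obtain ⟨r1, h1, h2⟩ := ih
    obtain ⟨r2, h3, h4⟩ := exists_row_mul r1 r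
    refine ⟨r2, fun hr => ?_, fun Γ _ v => ?_⟩
    · obtain ⟨j, hj⟩ := h1 hr
      obtain ⟨k, hk⟩ := hr
      have : (1 : K) ∈ Set.range r2.b := by
        rw [h3]
        exact ⟨r1.b j, ⟨j, rfl⟩, r.b k, ⟨k, rfl⟩, by simp only [hj, hk, mul_one]⟩
      exact this
    · rw [h4, h2, pow_succ]

/-- A row which contains `1` and a generating row containing `1`... generates. -/
theorem bir_of_subset [Algebra ℂ K] {r r' : Row K} (h1 : ∃ j, r.b j = 1)
    (h : Set.range r.b ⊆ Set.range r'.b) (hr : Bir r) : Bir r' := by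
  rw [Bir, eq_top_iff, ← (show _ = ⊤ from hr), IntermediateField.adjoin_le_iff]
  have key : ∀ j, r.b j ∈ IntermediateField.adjoin ℂ (Set.range fun j => r'.b j / r'.b 0) := by
    intro j
    obtain ⟨k, hk⟩ := h ⟨j, rfl⟩
    obtain ⟨j1, hj1⟩ := h1
    obtain ⟨k1, hk1⟩ := h ⟨j1, rfl⟩
    have e1 : r.b j = (r'.b k / r'.b 0) / (r'.b k1 / r'.b 0) := by
      have h2 : r'.b k1 = 1 := by rw [hk1, hj1]
      have h3 := r'.ne
      rw [hk, h2]
      field_simp
    rw [e1]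
    exact div_mem (IntermediateField.subset_adjoin _ _ ⟨k, rfl⟩)
      (IntermediateField.subset_adjoin _ _ ⟨k1, rfl⟩)
  rintro _ ⟨j, rfl⟩
  exact div_mem (key j) (key 0)

end

end Pool.Agent.Lib.MP_410da7_agA
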