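import Pool.Agent.Lib.MP_410da7_agA.NG1
import Pool.Agent.Lib.MP_410da7_agA.A4
import Pool.Agent.Lib.MP_410da7_agA.D9
import Pool.Agent.Lib.MP_410da7_agA.D10
import Pool.Agent.Lib.MP_410da7_agA.L.SpecDL

/-!
# C46, block N, GEO 2: the linear system of the canonical divisor
-/

set_option autoImplicit false

namespace Pool.Agent.Lib.MP_410da7_agA

open MvPolynomial KaehlerDifferential WithZero Module

section

variable {K : Type} [Field K] [Algebra ℂ K]

theorem ng_triv_C {v : Valuation K ℤᵐ⁰} (hv : Triv v) (c : ℂ) : v (algebraMap ℂ K c) ≤ 1 := by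
  by_cases hc : c = 0
  · rw [hc, map_zero, map_zero]; exact zero_le
  · exact (hv c hc).le

theorem ng_aeval_le {ι : Type} {v : Valuation K ℤᵐ⁰} (hv : Triv v) (s : ι → K)
    (hs : ∀ l, v (s l) ≤ 1) (P : MvPolynomial ι ℂ) : v (aeval s P) ≤ 1 := by
  induction P using MvPolynomial.induction_on with
  | C a => rw [aeval_C]; exact ng_triv_C hv a
  | add p q hp hq => rw [map_add]; exact (v.map_add _ _).trans (max_le hp hq)
  | mul_X p l hp =>
    rw [map_mul, aeval_X, map_mul]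
    exact mul_le_one' hp (hs l)

variable {M : ℕ} {Y : Fin (M + 1) → K} {b : Fin (M + 1)} {v : Valuation K ℤᵐ⁰}

theorem ng_aff_le (hne : Y b ≠ 0) (hmax : ∀ l, v (Y l) ≤ v (Y b)) (l : Fin (M + 1)) :
    v (aff Y b l) ≤ 1 := by
  rw [aff, map_div₀]
  have h0 : 0 < v (Y b) := by rw [zero_lt_iff, Ne, Valuation.zero_iff]; exact hne
  rw [div_le_one₀ h0]
  exact hmax l

theorem ng_locRing_le (hv : Triv v) (hne : Y b ≠ 0) (hmax : ∀ l, v (Y l) ≤ v (Y b)) {f : K}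
    (hf : f ∈ locRing Y b v) : v f ≤ 1 := by
  obtain ⟨P, Q, hQ, hf⟩ := hf
  have h1 := congrArg v hf
  rw [map_mul, hQ, mul_one] at h1
  rw [h1]
  exact ng_aeval_le hv _ (ng_aff_le hne hmax) P

theorem ng_aff_mem (l : Fin (M + 1)) : aff Y b l ∈ locRing Y b v :=
  ⟨X l, 1, by rw [map_one, map_one], by rw [map_one, mul_one, aeval_X]⟩

/-- The multilinear estimate. -/
theorem ng_psi_le {n : ℕ} {ι : Type} [Fintype ι] (Ψ : Ω[K⁄ℂ] [⋀^Fin n]→ₗ[K] K) (η : ι → Ω[K⁄ℂ])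
    (ω : Fin n → Ω[K⁄ℂ]) (c : Fin n → ι → K) (v : Valuation K ℤᵐ⁰) (hc : ∀ i l, v (c i l) ≤ 1)
    (hω : ∀ i, ω i = ∑ l, c i l • η l) (B : ℤᵐ⁰) (hB : ∀ f : Fin n → ι, v (Ψ (fun i => η (f i))) ≤ B) :
    v (Ψ ω) ≤ B := by
  classical
  have h1 : Ψ ω = ∑ f : Fin n → ι, (∏ i, c i (f i)) * Ψ (fun i => η (f i)) := by
    have h2 : ω = fun i => ∑ l, c i l • η l := funext hω
    rw [h2]
    have h3 := (Ψ : MultilinearMap K (fun _ : Fin n => Ω[K⁄ℂ]) K).map_sum
      (fun i l => c i l • η l)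
    rw [AlternatingMap.coe_multilinearMap] at h3
    rw [h3]
    refine Finset.sum_congr rfl fun f _ => ?_
    have h4 := (Ψ : MultilinearMap K (fun _ : Fin n => Ω[K⁄ℂ]) K).map_smul_univ
      (fun i => c i (f i)) (fun i => η (f i))
    rw [AlternatingMap.coe_multilinearMap] at h4
    rw [h4, smul_eq_mul]
  rw [h1]
  refine v.map_sum_le fun f _ => ?_
  rw [map_mul, map_prod]
  calc (∏ i, v (c i (f i))) * v (Ψ fun i => η (f i)) ≤ 1 * B :=
        mul_le_mul' (Finset.prod_le_one' fun i _ => hc i (f i)) (hB f)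
    _ = B := one_mul B

theorem ng_psi_perm {n : ℕ} (Ψ : Ω[K⁄ℂ] [⋀^Fin n]→ₗ[K] K) (η : Fin n → Ω[K⁄ℂ])
    (v : Valuation K ℤᵐ⁰) (f : Fin n → Fin n) :
    v (Ψ (fun i => η (f i))) ≤ v (Ψ η) := by
  by_cases hf : Function.Injective f
  · let σ : Equiv.Perm (Fin n) := Equiv.ofBijective f (Finite.injective_iff_bijective.1 hf)
    have h1 : Ψ (fun i => η (f i)) = Equiv.Perm.sign σ • Ψ η := Ψ.map_perm η σ
    rw [h1]
    rcases Int.units_eq_one_or (Equiv.Perm.sign σ) with h | h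
    · rw [h, one_smul]
    · rw [h, Units.neg_smul, one_smul, Valuation.map_neg]
  · rw [Function.Injective] at hf
    push Not at hf
    obtain ⟨i, j, hij, hne⟩ := hf
    rw [Ψ.map_eq_zero_of_eq _ (by rw [hij]) hne, map_zero]
    exact zero_le

/-- The differentials of the affine coordinates are combinations of the `dz_i`. -/
theorem ng_ds {n : ℕ} {z : Fin n → K} {lam : Fin n → ℕ} (hv : Triv v)
    (h : LSAt Y b v z lam) (f : K) (hf : f ∈ locRing Y b v) :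
    ∃ c : Fin n → K, (∀ i, v (c i) ≤ 1) ∧ D ℂ K f = ∑ i, c i • D ℂ K (z i) := by
  let O := locRing Y b v
  have h1 : D ℂ O ⟨f, hf⟩ ∈ Submodule.span O {ω : Ω[O⁄ℂ] |
    ∃ i, ∃ h : z i ∈ O, ω = D ℂ O ⟨z i, h⟩} := by
    rw [h.coord]; trivial
  have key : ∀ ω ∈ Submodule.span O {ω : Ω[O⁄ℂ] | ∃ i, ∃ h : z i ∈ O, ω = D ℂ O ⟨z i, h⟩},
      ∃ c : Fin n → K, (∀ i, v (c i) ≤ 1) ∧
        KaehlerDifferential.map ℂ ℂ O K ω = ∑ i, c i • D ℂ K (z i) := by
    intro ω hω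
    induction hω using Submodule.span_induction with
    | mem ω hω =>
      obtain ⟨i, hi, rfl⟩ := hω
      classical
      refine ⟨fun j => if j = i then 1 else 0, fun j => ?_, ?_⟩
      · dsimp only
        split_ifs
        · rw [map_one]
        · rw [map_zero]; exact zero_le
      · rw [KaehlerDifferential.map_D]
        simp only [ite_smul, one_smul, zero_smul, Finset.sum_ite_eq', Finset.mem_univ, if_true]
        rfl
    | zero => exact ⟨0, fun i => by rw [Pi.zero_apply, map_zero]; exact zero_le, by simp⟩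
    | add ω ω' _ _ h1 h2 =>
      obtain ⟨c, hc, e⟩ := h1
      obtain ⟨c', hc', e'⟩ := h2
      refine ⟨c + c', fun i => (v.map_add _ _).trans (max_le (hc i) (hc' i)), ?_⟩
      rw [map_add, e, e', ← Finset.sum_add_distrib]
      exact Finset.sum_congr rfl fun i _ => by rw [Pi.add_apply, add_smul]
    | smul a ω _ h1 =>
      obtain ⟨c, hc, e⟩ := h1
      refine ⟨fun i => (a : K) * c i, fun i => ?_, ?_⟩
      · rw [map_mul]; exact mul_le_one' (ng_locRing_le hv h.ne h.max a.2) (hc i)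
      · rw [map_smul, e, Finset.smul_sum]
        refine Finset.sum_congr rfl fun i _ => ?_
        rw [mul_smul]
        rfl
  obtain ⟨c, hc, e⟩ := key _ h1
  refine ⟨c, hc, ?_⟩
  rw [← e, KaehlerDifferential.map_D]
  rfl

/-- The `dz_i` are combinations of the differentials of the affine coordinates. -/
theorem ng_dz (hv : Triv v) (hne : Y b ≠ 0) (hmax : ∀ l, v (Y l) ≤ v (Y b)) (f : K)
    (hf : f ∈ locRing Y b v) :
    ∃ c : Fin (M + 1) → K, (∀ l, v (c l) ≤ 1) ∧ D ℂ K f = ∑ l, c l • D ℂ K (aff Y b l) := by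
  have hf1 := ng_locRing_le hv hne hmax hf
  obtain ⟨P, Q, hQ, hfPQ⟩ := hf
  have hs := ng_aff_le hne hmax
  have hQ0 : aeval (aff Y b) Q ≠ 0 := by
    intro h0
    rw [h0, map_zero] at hQ
    exact zero_ne_one hQ
  refine ⟨fun l => (aeval (aff Y b) Q)⁻¹ *
    (aeval (aff Y b) (pderiv l P) - f * aeval (aff Y b) (pderiv l Q)), fun l => ?_, ?_⟩
  · rw [map_mul, map_inv₀, hQ, inv_one, one_mul]
    refine (v.map_sub _ _).trans (max_le (ng_aeval_le hv _ hs _) ?_)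
    rw [map_mul]
    exact mul_le_one' hf1 (ng_aeval_le hv _ hs _)
  · have h1 := congrArg (D ℂ K) hfPQ
    rw [Derivation.leibniz, d9Aux.D_aeval, d9Aux.D_aeval] at h1
    have h2 : aeval (aff Y b) Q • D ℂ K f = ∑ l, (aeval (aff Y b) (pderiv l P) -
        f * aeval (aff Y b) (pderiv l Q)) • D ℂ K (aff Y b l) := by
      have h3 : aeval (aff Y b) Q • D ℂ K f =
          (∑ l, aeval (aff Y b) (pderiv l P) • D ℂ K (aff Y b l)) -
          f • ∑ l, aeval (aff Y b) (pderiv l Q) • D ℂ K (aff Y b l) := by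
        rw [← h1]; abel
      rw [h3, Finset.smul_sum, ← Finset.sum_sub_distrib]
      exact Finset.sum_congr rfl fun l _ => by rw [sub_smul, mul_smul]
    have h4 : D ℂ K f = (aeval (aff Y b) Q)⁻¹ • (aeval (aff Y b) Q • D ℂ K f) := by
      rw [smul_smul, inv_mul_cancel₀ hQ0, one_smul]
    rw [h4, h2, Finset.smul_sum]
    exact Finset.sum_congr rfl fun l _ => by rw [mul_smul]

theorem ng_cone_le {n : ℕ} (Ψ : Ω[K⁄ℂ] [⋀^Fin n]→ₗ[K] K) {z : Fin n → K} {lam : Fin n → ℕ}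
    (hv : Triv v) (h : LSAt Y b v z lam) (S : Fin (n + 1) → Fin (M + 1)) :
    v (coneDet Ψ (aff Y b) S) ≤ v (Ψ fun i => D ℂ K (z i)) := by
  unfold coneDet
  refine v.map_sum_le fun i _ => ?_
  rw [map_mul, map_mul, map_pow, Valuation.map_neg, map_one, one_pow, one_mul]
  refine (mul_le_mul' (ng_aff_le h.ne h.max _) le_rfl).trans ?_
  rw [one_mul]
  choose c hc hD using fun a : Fin n => ng_ds hv h (aff Y b (S (i.succAbove a))) (ng_aff_mem _)
  exact ng_psi_le Ψ (fun i => D ℂ K (z i)) _ c v hc hD _ fun f =>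
    ng_psi_perm Ψ (fun i => D ℂ K (z i)) v f

theorem ng_le_cone {n : ℕ} (Ψ : Ω[K⁄ℂ] [⋀^Fin n]→ₗ[K] K) {z : Fin n → K} {lam : Fin n → ℕ}
    (hv : Triv v) (h : LSAt Y b v z lam) (B : ℤᵐ⁰)
    (hB : ∀ S : Fin (n + 1) → Fin (M + 1), v (coneDet Ψ (aff Y b) S) ≤ B) :
    v (Ψ fun i => D ℂ K (z i)) ≤ B := by
  choose c hc hD using fun i : Fin n => ng_dz hv h.ne h.max (z i) (h.mem i)
  refine ng_psi_le Ψ (fun l => D ℂ K (aff Y b l)) _ c v hc hD B fun f => ?_
  have h1 := hB (Fin.cons b f)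
  have h2 := (d10 K n M Ψ (aff Y b) (Fin.cons b f)).2 (by
    rw [Fin.cons_zero, aff, div_self h.ne])
  rw [h2] at h1
  simpa only [Fin.cons_succ] using h1

/-- The size of the system of the `coneDet`s. -/
theorem ng_cone_eq {n : ℕ} (Ψ : Ω[K⁄ℂ] [⋀^Fin n]→ₗ[K] K) {z : Fin n → K} {lam : Fin n → ℕ}
    (hv : Triv v) (h : LSAt Y b v z lam) :
    (∀ S : Fin (n + 1) → Fin (M + 1), v (coneDet Ψ Y S) ≤
      v (Y b) ^ (n + 1) * v (Ψ fun i => D ℂ K (z i))) ∧
    ∃ S : Fin (n + 1) → Fin (M + 1), v (coneDet Ψ Y S) =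
      v (Y b) ^ (n + 1) * v (Ψ fun i => D ℂ K (z i)) := by
  have hY : Y = fun l => Y b * aff Y b l := by
    funext l
    rw [aff, mul_div_cancel₀ _ h.ne]
  have hsc : ∀ S, v (coneDet Ψ Y S) = v (Y b) ^ (n + 1) * v (coneDet Ψ (aff Y b) S) := by
    intro S
    have h1 := (d10 K n M Ψ (aff Y b) S).1 (Y b)
    rw [← hY] at h1
    rw [h1, map_mul, map_pow]
  obtain ⟨S, -, hS⟩ := Finset.exists_max_image (Finset.univ : Finset (Fin (n + 1) → Fin (M + 1)))
    (fun S => v (coneDet Ψ (aff Y b) S)) ⟨fun _ => b, Finset.mem_univ _⟩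
  have h1 : v (coneDet Ψ (aff Y b) S) = v (Ψ fun i => D ℂ K (z i)) :=
    le_antisymm (ng_cone_le Ψ hv h S) (ng_le_cone Ψ hv h _ fun S' => hS S' (Finset.mem_univ _))
  refine ⟨fun S' => ?_, S, ?_⟩
  · rw [hsc]
    exact mul_le_mul_right (ng_cone_le Ψ hv h S') _
  · rw [hsc, h1]

theorem ng_size_eq {N : ℕ} (x : Fin N → K) {b : Fin (N + 1)} {v : Valuation K ℤᵐ⁰}
    (hmax : ∀ l, v (cons1 x l) ≤ v (cons1 x b)) : size x v = v (cons1 x b) := by
  have h1 : v (cons1 x b) ≤ size x v := by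
    refine Fin.cases ?_ (fun l => ?_) b
    · rw [cons1, Fin.cons_zero, map_one]; exact le_sup_right
    · rw [cons1, Fin.cons_succ]
      exact (Finset.le_sup (f := fun l => v (x l)) (Finset.mem_univ l)).trans le_sup_left
  refine le_antisymm ?_ h1
  refine sup_le (Finset.sup_le fun l _ => ?_) ?_
  · have := hmax l.succ
    rwa [cons1, Fin.cons_succ] at this
  · have := hmax 0
    rwa [cons1, Fin.cons_zero, map_one] at this

/-- The system of the canonical divisor. -/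
theorem ng_WK {n N : ℕ} (Ψ : Ω[K⁄ℂ] [⋀^Fin n]→ₗ[K] K) (x : Fin N → K) (hS : Sit Ψ x) :
    ∃ W : Row K, ∀ (v : Valuation K ℤᵐ⁰), Triv v → ∀ (b : Fin (N + 1)) (z : Fin n → K)
      (lam : Fin n → ℕ), LSAt (cons1 x) b v z lam →
      rsize W _ v = size x v ^ (n + 1) * v (Ψ fun i => D ℂ K (z i)) := by
  obtain ⟨l, hl⟩ := a4Aux.exists_ne hS.gen hS.Ψ0
  obtain ⟨W, hW⟩ := exists_row (Set.range fun S : Fin (n + 1) → Fin (N + 1) =>
    coneDet Ψ (cons1 x) S) (Set.finite_range _) ⟨_, ⟨Fin.cons 0 fun i => (l i).succ, rfl⟩, by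
      have h2 := (d10 K n N Ψ (cons1 x) (Fin.cons 0 fun i => (l i).succ)).2 (by
        rw [Fin.cons_zero, cons1, Fin.cons_zero])
      change coneDet Ψ (cons1 x) (Fin.cons 0 fun i => (l i).succ) ≠ 0
      rw [h2]
      exact hl⟩
  refine ⟨W, fun v hv b z lam h => ?_⟩
  rw [ng_size_eq x h.max]
  obtain ⟨h1, S, h2⟩ := ng_cone_eq Ψ hv h
  refine rsize_eq v ?_ ⟨coneDet Ψ (cons1 x) S, ?_, h2⟩
  · rw [hW]
    rintro _ ⟨S, rfl⟩
    exact h1 S
  · rw [hW]; exact ⟨S, rfl⟩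

end

end Pool.Agent.Lib.MP_410da7_agA
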