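import Pool.Agent.Lib.MP_410da7_agA.NG2
import Pool.Agent.Lib.MP_410da7_agA.D5

/-!
# C46, block N, GEO 3: the linear system of the boundary
-/

set_option autoImplicit false

namespace Pool.Agent.Lib.MP_410da7_agA

open MvPolynomial KaehlerDifferential WithZero Module

section

variable {K : Type} [Field K] [Algebra ℂ K] {M : ℕ} {Y : Fin (M + 1) → K} {b : Fin (M + 1)}
  {v : Valuation K ℤᵐ⁰}

theorem ng_hom_aeval {t : ℕ} {G : MvPolynomial (Fin (M + 1)) ℂ} (hG : G.IsHomogeneous t)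
    (hb : Y b ≠ 0) : aeval Y G = Y b ^ t * aeval (aff Y b) G := by
  rw [aeval_def, aeval_def, eval₂_eq', eval₂_eq', Finset.mul_sum]
  refine Finset.sum_congr rfl fun d hd => ?_
  have h1 : d.degree = t := by
    have := hG (mem_support_iff.mp hd)
    rw [← this]
    simp [Finsupp.degree, Finsupp.weight_apply, Finsupp.sum]
  have h2 : ∏ i, Y i ^ d i = Y b ^ t * ∏ i, aff Y b i ^ d i := by
    have h3 : Y b ^ t = ∏ i, Y b ^ d i := by
      rw [Finset.prod_pow_eq_pow_sum, ← h1, Finsupp.degree_eq_sum]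
    rw [h3, ← Finset.prod_mul_distrib]
    refine Finset.prod_congr rfl fun i _ => ?_
    rw [aff, ← mul_pow, mul_div_cancel₀ _ hb]
  rw [h2]; ring

/-- The homogeneous polynomials of degree `t` which vanish on the boundary. -/
def Dset (Y : Fin (M + 1) → K) (t : ℕ) : Set (MvPolynomial (Fin (M + 1)) ℂ) :=
  {G | G.IsHomogeneous t ∧ ∃ (m d : ℕ) (G' : MvPolynomial (Fin (M + 1)) ℂ), G'.IsHomogeneous d ∧
    t * m = d + 1 ∧ aeval Y G ^ m = aeval Y G'}

/-- The product of the equations of the boundary components. -/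
noncomputable def zet {n : ℕ} (z : Fin n → K) (lam : Fin n → ℕ) : K :=
  ∏ i, if lam i = 0 then 1 else z i

theorem ng_zet_v {n : ℕ} (v : Valuation K ℤᵐ⁰) (z : Fin n → K) (lam : Fin n → ℕ) :
    v (zet z lam) = ∏ i, if lam i = 0 then 1 else v (z i) := by
  rw [zet, map_prod]
  refine Finset.prod_congr rfl fun i _ => ?_
  split_ifs
  · rw [map_one]
  · rfl

theorem ng_D_le {n : ℕ} {z : Fin n → K} {lam : Fin n → ℕ} (hv : Triv v) (hY0 : Y 0 = 1)
    (h : LSAt Y b v z lam) {t : ℕ} {G : MvPolynomial (Fin (M + 1)) ℂ} (hG : G ∈ Dset Y t) :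
    v (aeval Y G) ≤ v (Y b) ^ t * v (zet z lam) := by
  obtain ⟨hG1, m, d, G', hG', htm, he⟩ := hG
  rw [ng_hom_aeval hG1 h.ne, ng_hom_aeval hG' h.ne] at he
  have hmem : ∀ P : MvPolynomial (Fin (M + 1)) ℂ, aeval (aff Y b) P ∈ locRing Y b v := fun P =>
    ⟨P, 1, by rw [map_one, map_one], by rw [map_one, mul_one]⟩
  have h1 : aeval (aff Y b) G ^ m = aeval (aff Y b) G' * (Y 0 / Y b) := by
    rw [mul_pow, ← pow_mul, htm, pow_succ, mul_assoc] at he
    have h2 := mul_left_cancel₀ (pow_ne_zero d h.ne) he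
    rw [← h2, hY0, mul_one_div, mul_comm (Y b), mul_div_cancel_right₀ _ h.ne]
  obtain ⟨g, hg, hfg⟩ := h.rad _ (hmem G) m ⟨_, hmem G', h1⟩
  rw [ng_hom_aeval hG1 h.ne, map_mul, map_pow, hfg, map_mul]
  refine mul_le_mul_right ?_ _
  calc v g * v (∏ i, if lam i = 0 then 1 else z i) ≤ 1 * v (zet z lam) :=
        mul_le_mul' (ng_locRing_le hv h.ne h.max hg) le_rfl
    _ = v (zet z lam) := one_mul _

theorem ng_locRing_inv {f : K} (hf : f ∈ locRing Y b v) (hv1 : v f = 1) :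
    f⁻¹ ∈ locRing Y b v := by
  obtain ⟨P, Q, hQ, hfPQ⟩ := hf
  have hf0 : f ≠ 0 := by
    rintro rfl
    rw [map_zero] at hv1
    exact zero_ne_one hv1
  refine ⟨Q, P, ?_, ?_⟩
  · rw [← hfPQ, map_mul, hv1, hQ, one_mul]
  · rw [← hfPQ, ← mul_assoc, inv_mul_cancel₀ hf0, one_mul]

theorem ng_zet_mem {n : ℕ} {z : Fin n → K} {lam : Fin n → ℕ} (h : LSAt Y b v z lam) :
    zet z lam ∈ locRing Y b v := by
  refine prod_mem fun i _ => ?_
  split_ifs
  · exact one_mem _
  · exact h.mem i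

theorem ng_zet_ne {n : ℕ} {z : Fin n → K} {lam : Fin n → ℕ} (hY0 : Y 0 = 1)
    (h : LSAt Y b v z lam) : zet z lam ≠ 0 := by
  obtain ⟨u, -, -, hbd⟩ := h.bd
  have h1 : ∏ i, z i ^ lam i ≠ 0 := by
    intro h0
    rw [h0, mul_zero, hY0] at hbd
    exact one_div_ne_zero h.ne hbd
  rw [Finset.prod_ne_zero_iff] at h1
  refine Finset.prod_ne_zero_iff.mpr fun i hi => ?_
  split_ifs with h2
  · exact one_ne_zero
  · intro h0
    exact h1 i hi (by rw [h0, zero_pow h2])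

/-- A power of the reduced equation is a multiple of the hyperplane section. -/
theorem ng_zet_pow {n : ℕ} {z : Fin n → K} {lam : Fin n → ℕ} (h : LSAt Y b v z lam) :
    ∃ L : ℕ, 1 ≤ L ∧ ∃ g ∈ locRing Y b v, zet z lam ^ L = g * (Y 0 / Y b) := by
  obtain ⟨u, hu, hu1, hbd⟩ := h.bd
  have hu0 : u ≠ 0 := by
    rintro rfl
    rw [map_zero] at hu1
    exact zero_ne_one hu1
  refine ⟨(∑ i, lam i) + 1, Nat.succ_le_succ (Nat.zero_le _), u⁻¹ *
    ∏ i, (if lam i = 0 then 1 else z i ^ ((∑ i, lam i) + 1 - lam i)), ?_, ?_⟩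
  · refine mul_mem (ng_locRing_inv hu hu1) (prod_mem fun i _ => ?_)
    split_ifs
    · exact one_mem _
    · exact pow_mem (h.mem i) _
  · have h1 : u⁻¹ * (∏ i, (if lam i = 0 then 1 else z i ^ ((∑ i, lam i) + 1 - lam i))) *
        (u * ∏ i, z i ^ lam i) =
        (∏ i, (if lam i = 0 then 1 else z i ^ ((∑ i, lam i) + 1 - lam i))) * ∏ i, z i ^ lam i := by
      field_simp
    rw [hbd, h1, zet, ← Finset.prod_pow, ← Finset.prod_mul_distrib]
    refine Finset.prod_congr rfl fun i _ => ?_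
    have h2 : lam i ≤ ∑ i, lam i := Finset.single_le_sum (fun j _ => Nat.zero_le (lam j))
      (Finset.mem_univ i)
    split_ifs with h3
    · rw [h3, one_pow, pow_zero, one_mul]
    · rw [← pow_add]
      congr 1
      omega

theorem ng_D_eq {n : ℕ} {z : Fin n → K} {lam : Fin n → ℕ} (hY0 : Y 0 = 1)
    (h : LSAt Y b v z lam) :
    ∃ (t : ℕ) (G : MvPolynomial (Fin (M + 1)) ℂ), G ∈ Dset Y t ∧
      v (aeval Y G) = v (Y b) ^ t * v (zet z lam) := by
  obtain ⟨P1, Q1, hQ1, hz⟩ := ng_zet_mem h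
  obtain ⟨L, hL, g, hg, hpow⟩ := ng_zet_pow h
  obtain ⟨P2, Q2, hQ2, hg2⟩ := hg
  set s := aff Y b with hs
  let G0 := P1 * Q2
  let G1 := P2 * Q1 ^ L * Q2 ^ (L - 1)
  have h1 : aeval s G0 ^ L = (1 / Y b) * aeval s G1 := by
    have hL' : L = L - 1 + 1 := by omega
    have e1 : aeval s P1 ^ L * aeval s Q2 = (1 / Y b) * (aeval s P2 * aeval s Q1 ^ L) := by
      rw [← hz, mul_pow, hpow, ← hg2, hY0]
      ring
    calc aeval s G0 ^ L = (aeval s P1 ^ L * aeval s Q2) * aeval s Q2 ^ (L - 1) := by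
          change aeval s (P1 * Q2) ^ L = _
          rw [map_mul, mul_pow, mul_assoc]
          congr 1
          rw [← pow_succ', ← hL']
      _ = (1 / Y b) * aeval s G1 := by
          rw [e1]
          change _ = (1 / Y b) * aeval s (P2 * Q1 ^ L * Q2 ^ (L - 1))
          rw [map_mul, map_mul, map_pow, map_pow]
          ring
  let e := G0.totalDegree + G1.totalDegree + 1
  have he1 : G0.totalDegree ≤ e := by omega
  have heL : e ≤ e * L := Nat.le_mul_of_pos_right _ hL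
  have he2 : G1.totalDegree ≤ e * L - 1 := by omega
  obtain ⟨hG, hG'⟩ := d5 ℂ K M b e G0 he1
  obtain ⟨hH, hH'⟩ := d5 ℂ K M b (e * L - 1) G1 he2
  refine ⟨e, hom b e G0, ⟨hG, L, e * L - 1, hom b (e * L - 1) G1, hH, by omega, ?_⟩, ?_⟩
  · rw [hG' Y h.ne, hH' Y h.ne, mul_pow, ← pow_mul, h1]
    have h2 : e * L = e * L - 1 + 1 := by omega
    have h3 : Y b ^ (e * L) = Y b ^ (e * L - 1) * Y b := by
      rw [← pow_succ, ← h2]
    rw [h3]
    have := h.ne
    field_simp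
    rfl
  · rw [hG' Y h.ne, map_mul, map_pow]
    congr 1
    change v (aeval s (P1 * Q2)) = _
    rw [map_mul, map_mul, hQ2, mul_one, ← hz, map_mul, hQ1, mul_one]

end

end Pool.Agent.Lib.MP_410da7_agA
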