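import Pool.Agent.Lib.MP_410da7_agA.NG3

/-!
# C46, block N, GEO 4: the linear system of the boundary, end; the rows `P` and `Q`
-/

set_option autoImplicit false

namespace Pool.Agent.Lib.MP_410da7_agA

open MvPolynomial KaehlerDifferential WithZero Module

section

variable {K : Type} [Field K] [Algebra ℂ K]

theorem ng_WD {n N : ℕ} (x : Fin N → K) (hL : LogSmoothEmb n x) :
    ∃ (t₀ : ℕ) (W : Row K), ∀ (v : Valuation K ℤᵐ⁰), Triv v → ∀ (b : Fin (N + 1)) (z : Fin n → K)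
      (lam : Fin n → ℕ), LSAt (cons1 x) b v z lam →
      rsize W _ v = size x v ^ t₀ * v (zet z lam) := by
  classical
  set Y := cons1 x with hYdef
  have hY0 : Y 0 = 1 := by rw [hYdef, cons1, Fin.cons_zero]
  let U : Set (MvPolynomial (Fin (N + 1)) ℂ) := {G | ∃ t, G ∈ Dset Y t}
  have hfg : (Submodule.span (MvPolynomial (Fin (N + 1)) ℂ) U).FG := IsNoetherian.noetherian _
  rw [Submodule.fg_span_iff_fg_span_finset_subset] at hfg
  obtain ⟨F, hFU, hspan⟩ := hfg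
  let dgr : MvPolynomial (Fin (N + 1)) ℂ → ℕ := fun G =>
    if h : ∃ t, G ∈ Dset Y t then h.choose else 0
  have hdgr : ∀ G ∈ F, G ∈ Dset Y (dgr G) := by
    intro G hG
    have h := hFU hG
    change ∃ t, G ∈ Dset Y t at h
    have h2 : dgr G = h.choose := dif_pos h
    rw [h2]; exact h.choose_spec
  let t₀ := F.sup dgr
  have ht₀ : ∀ G ∈ F, dgr G ≤ t₀ := fun G hG => Finset.le_sup hG
  let T : Set K := {c | ∃ G ∈ F, ∃ l, c = Y l ^ (t₀ - dgr G) * aeval Y G}
  have hTfin : T.Finite := by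
    have h1 : T = ⋃ G ∈ F, Set.range fun l => Y l ^ (t₀ - dgr G) * aeval Y G := by
      ext c
      simp only [T, Set.mem_ofPred_eq, Set.mem_iUnion, Set.mem_range, exists_prop]
      constructor
      · rintro ⟨G, hG, l, rfl⟩; exact ⟨G, hG, l, rfl⟩
      · rintro ⟨G, hG, l, rfl⟩; exact ⟨G, hG, l, rfl⟩
    rw [h1]
    exact F.finite_toSet.biUnion fun G _ => Set.finite_range _
  -- the estimates
  have hle : ∀ (v : Valuation K ℤᵐ⁰), Triv v → ∀ (b : Fin (N + 1)) (z : Fin n → K)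
      (lam : Fin n → ℕ), LSAt Y b v z lam → ∀ c ∈ T, v c ≤ v (Y b) ^ t₀ * v (zet z lam) := by
    rintro v hv b z lam h _ ⟨G, hG, l, rfl⟩
    rw [map_mul, map_pow]
    calc v (Y l) ^ (t₀ - dgr G) * v (aeval Y G)
        ≤ v (Y b) ^ (t₀ - dgr G) * (v (Y b) ^ dgr G * v (zet z lam)) :=
          mul_le_mul' (pow_le_pow_left' (h.max l) _) (ng_D_le hv hY0 h (hdgr G hG))
      _ = v (Y b) ^ t₀ * v (zet z lam) := by
          rw [← mul_assoc, ← pow_add, Nat.sub_add_cancel (ht₀ G hG)]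
  have hex : ∀ (v : Valuation K ℤᵐ⁰), Triv v → ∀ (b : Fin (N + 1)) (z : Fin n → K)
      (lam : Fin n → ℕ), LSAt Y b v z lam → ∃ c ∈ T, v c = v (Y b) ^ t₀ * v (zet z lam) := by
    intro v hv b z lam h
    obtain ⟨t, G', hG', he⟩ := ng_D_eq (b := b) (v := v) hY0 h
    have hYb : 0 < v (Y b) := by rw [zero_lt_iff, Ne, Valuation.zero_iff]; exact h.ne
    have hz0 : 0 < v (zet z lam) := by
      rw [zero_lt_iff, Ne, Valuation.zero_iff]; exact ng_zet_ne hY0 h
    rw [ng_hom_aeval hG'.1 h.ne, map_mul, map_pow] at he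
    have he' : v (aeval (aff Y b) G') = v (zet z lam) :=
      mul_left_cancel₀ (pow_pos hYb t).ne' he
    -- some generator has the right value
    have hgen : ∃ G ∈ F, v (zet z lam) ≤ v (aeval (aff Y b) G) := by
      by_contra hcon
      push Not at hcon
      have hmem : G' ∈ Submodule.span (MvPolynomial (Fin (N + 1)) ℂ)
          (F : Set (MvPolynomial (Fin (N + 1)) ℂ)) := by
        rw [← hspan]; exact Submodule.subset_span ⟨t, hG'⟩
      have key : ∀ P ∈ Submodule.span (MvPolynomial (Fin (N + 1)) ℂ)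
          (F : Set (MvPolynomial (Fin (N + 1)) ℂ)), v (aeval (aff Y b) P) < v (zet z lam) := by
        intro P hP
        induction hP using Submodule.span_induction with
        | mem P hP => exact hcon P hP
        | zero => rw [map_zero, map_zero]; exact hz0
        | add P P' _ _ h1 h2 =>
          rw [map_add]; exact lt_of_le_of_lt (v.map_add _ _) (max_lt h1 h2)
        | smul a P _ h1 =>
          rw [smul_eq_mul, map_mul, map_mul]
          calc v (aeval (aff Y b) a) * v (aeval (aff Y b) P) ≤ 1 * v (aeval (aff Y b) P) :=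
                mul_le_mul' (ng_aeval_le hv _ (ng_aff_le h.ne h.max) a) le_rfl
            _ < v (zet z lam) := by rw [one_mul]; exact h1
      exact absurd he' (key G' hmem).ne
    obtain ⟨G, hG, hGv⟩ := hgen
    refine ⟨Y b ^ (t₀ - dgr G) * aeval Y G, ⟨G, hG, b, rfl⟩, ?_⟩
    have h1 := ng_D_le hv hY0 h (hdgr G hG)
    have h2 : v (Y b) ^ dgr G * v (zet z lam) ≤ v (aeval Y G) := by
      rw [ng_hom_aeval (hdgr G hG).1 h.ne, map_mul, map_pow]
      exact mul_le_mul_right hGv _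
    rw [map_mul, map_pow, le_antisymm h1 h2, ← mul_assoc, ← pow_add,
      Nat.sub_add_cancel (ht₀ G hG)]
  have hT0 : ∃ a ∈ T, a ≠ 0 := by
    have htriv : Triv (1 : Valuation K ℤᵐ⁰) := by
      intro c hc
      exact Valuation.one_apply_of_ne_zero (by simpa using hc)
    obtain ⟨b, z, lam, h⟩ := hL 1 htriv
    obtain ⟨c, hc, hvc⟩ := hex 1 htriv b z lam h
    refine ⟨c, hc, ?_⟩
    rintro rfl
    rw [map_zero] at hvc
    have h1 : (1 : Valuation K ℤᵐ⁰) (Y b) ≠ 0 := by rw [Ne, Valuation.zero_iff]; exact h.ne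
    have h2 : (1 : Valuation K ℤᵐ⁰) (zet z lam) ≠ 0 := by
      rw [Ne, Valuation.zero_iff]; exact ng_zet_ne hY0 h
    exact mul_ne_zero (pow_ne_zero _ h1) h2 hvc.symm
  obtain ⟨W, hW⟩ := exists_row T hTfin hT0
  refine ⟨t₀, W, fun v hv b z lam h => ?_⟩
  rw [ng_size_eq x h.max]
  refine rsize_eq v ?_ ?_
  · rw [hW]; exact hle v hv b z lam h
  · rw [hW]; exact hex v hv b z lam h

/-- The row `(1, x_1, ..., x_N)`. -/
def rowH {N : ℕ} (x : Fin N → K) : Row K :=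
  ⟨N, Fin.cons 1 x, by rw [Fin.cons_zero]; exact one_ne_zero⟩

omit [Algebra ℂ K] in
theorem rsize_rowH {N : ℕ} (x : Fin N → K) (v : Valuation K ℤᵐ⁰) :
    rsize (rowH x) _ v = size x v := by
  refine le_antisymm (rsize_le _ v fun j => ?_) ?_
  · refine Fin.cases ?_ (fun l => ?_) j
    · change v 1 ≤ _
      rw [map_one]; exact le_sup_right
    · change v (x l) ≤ _
      exact (Finset.le_sup (f := fun l => v (x l)) (Finset.mem_univ l)).trans le_sup_left
  · refine sup_le (Finset.sup_le fun l _ => ?_) ?_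
    · exact le_rsize (rowH x) l.succ v
    · exact one_le_rsize (rowH x) ⟨0, rfl⟩ v

theorem bir_rowH {N : ℕ} (x : Fin N → K) (hx : IntermediateField.adjoin ℂ (Set.range x) = ⊤) :
    Bir (rowH x) := by
  rw [Bir, eq_top_iff, ← hx, IntermediateField.adjoin_le_iff]
  rintro _ ⟨l, rfl⟩
  refine IntermediateField.subset_adjoin _ _ ⟨l.succ, ?_⟩
  change x l / 1 = x l
  rw [div_one]

/-- A row with the size `|W| |H|^(t+1) / |p|`, containing `H`. -/
theorem ng_row {N : ℕ} (x : Fin N → K) (hx : IntermediateField.adjoin ℂ (Set.range x) = ⊤)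
    (W : Row K) (t : ℕ) : ∃ (P : Row K) (p : K), p ≠ 0 ∧ Bir P ∧ (∃ j, P.b j = 1) ∧
    ∀ v : Valuation K ℤᵐ⁰, v p * rsize P _ v = rsize W _ v * size x v ^ (t + 1) := by
  obtain ⟨W', hW', hW's⟩ := exists_row_smul (W.b 0)⁻¹ (inv_ne_zero W.ne) W
  obtain ⟨Ht, hHt, hHts⟩ := exists_row_pow (rowH x) t
  obtain ⟨W2, hW2, hW2s⟩ := exists_row_mul W' Ht
  obtain ⟨P, hP, hPs⟩ := exists_row_mul W2 (rowH x)
  have h1 : (1 : K) ∈ Set.range W2.b := by
    rw [hW2]
    obtain ⟨j, hj⟩ := hHt ⟨0, rfl⟩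
    refine ⟨1, ?_, 1, ⟨j, hj⟩, mul_one 1⟩
    rw [hW']
    exact ⟨W.b 0, ⟨0, rfl⟩, inv_mul_cancel₀ W.ne⟩
  have hsub : Set.range (rowH x).b ⊆ Set.range P.b := by
    rw [hP]
    rintro _ ⟨j, rfl⟩
    exact ⟨1, h1, (rowH x).b j, ⟨j, rfl⟩, one_mul _⟩
  refine ⟨P, W.b 0, W.ne, bir_of_subset ⟨0, rfl⟩ hsub (bir_rowH x hx), ?_, fun v => ?_⟩
  · obtain ⟨j, hj⟩ := hsub ⟨0, rfl⟩
    exact ⟨j, hj⟩
  · rw [hPs, hW2s, hW's, hHts, rsize_rowH, map_inv₀, pow_succ]
    have h0 : v (W.b 0) ≠ 0 := by rw [Ne, Valuation.zero_iff]; exact W.ne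
    field_simp

/-- GEO. The canonical divisor of the pair as a difference of two rows. -/
theorem ng_geo {n N : ℕ} (Ψ : Ω[K⁄ℂ] [⋀^Fin n]→ₗ[K] K) (x : Fin N → K) (hS : Sit Ψ x)
    (hL : LogSmoothEmb n x) : ∃ (P Q : Row K) (g : K), g ≠ 0 ∧ Bir P ∧ Bir Q ∧
    (∃ j, P.b j = 1) ∧ (∃ j, Q.b j = 1) ∧
    ∀ (v : Valuation K ℤᵐ⁰), Triv v → ∀ (b : Fin (N + 1)) (z : Fin n → K)
      (lam : Fin n → ℕ), LSAt (cons1 x) b v z lam →
      kSize Ψ v z lam * rsize Q _ v = v g * rsize P _ v := by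
  obtain ⟨WK, hWK⟩ := ng_WK Ψ x hS
  obtain ⟨t₀, WD, hWD⟩ := ng_WD x hL
  obtain ⟨P, p, hp, hP1, hP2, hPs⟩ := ng_row x hS.gen WK t₀
  obtain ⟨Q, q, hq, hQ1, hQ2, hQs⟩ := ng_row x hS.gen WD (n + 1)
  refine ⟨P, Q, p / q, div_ne_zero hp hq, hP1, hQ1, hP2, hQ2, fun v hv b z lam h => ?_⟩
  have h1 := hPs v
  have h2 := hQs v
  rw [hWK v hv b z lam h] at h1
  rw [hWD v hv b z lam h] at h2
  have hY0 : cons1 x 0 = 1 := by rw [cons1, Fin.cons_zero]
  have hp0 : v p ≠ 0 := by rw [Ne, Valuation.zero_iff]; exact hp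
  have hq0 : v q ≠ 0 := by rw [Ne, Valuation.zero_iff]; exact hq
  have hz0 : v (zet z lam) ≠ 0 := by rw [Ne, Valuation.zero_iff]; exact ng_zet_ne hY0 h
  have hs0 : size x v ≠ 0 := by
    have : (1 : ℤᵐ⁰) ≤ size x v := le_sup_right
    intro h0
    rw [h0] at this
    exact absurd this (by simp)
  have hk : kSize Ψ v z lam = v (Ψ fun i => D ℂ K (z i)) / v (zet z lam) := by
    rw [kSize, ng_zet_v]
  have e1 : rsize P _ v = v (Ψ fun i => D ℂ K (z i)) * size x v ^ (n + t₀ + 2) / v p := by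
    have h3 : size x v ^ (n + 1) * v (Ψ fun i => D ℂ K (z i)) * size x v ^ (t₀ + 1) =
        v (Ψ fun i => D ℂ K (z i)) * size x v ^ (n + t₀ + 2) := by
      rw [mul_comm (size x v ^ (n + 1)), mul_assoc, ← pow_add]
      congr 2
      omega
    rw [← h3, ← h1, mul_div_cancel_left₀ _ hp0]
  have e2 : rsize Q _ v = v (zet z lam) * size x v ^ (n + t₀ + 2) / v q := by
    have h3 : size x v ^ t₀ * v (zet z lam) * size x v ^ (n + 1 + 1) =
        v (zet z lam) * size x v ^ (n + t₀ + 2) := by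
      rw [mul_comm (size x v ^ t₀), mul_assoc, ← pow_add]
      congr 2
      omega
    rw [← h3, ← h2, mul_div_cancel_left₀ _ hq0]
  rw [hk, e1, e2, map_div₀]
  field_simp

end

end Pool.Agent.Lib.MP_410da7_agA
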