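import Pool.Agent.Lib.MP_410da7_ag.Defs

/-!
# MP_410da7_ag, smooth affine varieties (C46): definitions for the blocks A, B, C, D

`K` is the function field of the affine variety `X` with coordinate functions `x_1, ..., x_N ∈ K`
(`K` is generated by the `x_l`), `n = dim X`, and `Ψ` is a nonzero alternating form on the
`n`-dimensional space of differentials of `K`.
-/

set_option autoImplicit false

namespace Pool.Agent.Lib.MP_410da7_agA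

open MvPolynomial KaehlerDifferential WithZero
open Pool.Agent.Lib.MP_410da7_ag (regDiff logDiff A1Uniruled LogKodairaNegInf dim)

section

variable {K : Type} [Field K] [Algebra ℂ K] {n N : ℕ}

/-- The valuation is trivial on `ℂ`. -/
def Triv (v : Valuation K ℤᵐ⁰) : Prop := ∀ c : ℂ, c ≠ 0 → v (algebraMap ℂ K c) = 1

/-- `max(1, |x_1|, ..., |x_N|)`. -/
noncomputable def size (x : Fin N → K) (v : Valuation K ℤᵐ⁰) : ℤᵐ⁰ :=
  (Finset.univ.sup fun l => v (x l)) ⊔ 1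

/-- The valuation has a center on `X`. -/
def Cent (x : Fin N → K) (v : Valuation K ℤᵐ⁰) : Prop := ∀ l, v (x l) ≤ 1

/-- The differentials have at most logarithmic poles at `v`, and are regular at `v` if `v` has a center
on `X`. -/
def Frame (x : Fin N → K) (v : Valuation K ℤᵐ⁰) (θ : Fin n → Ω[K⁄ℂ]) : Prop :=
  (∀ i, θ i ∈ logDiff v) ∧ (Cent x v → ∀ i, θ i ∈ regDiff v)

/-- The sections of `m (K + D) + e H`: the `F ∈ K` such that the rational `m`-canonical form `F η^m`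
(`η` the rational form of top degree with `θ₁ ∧ ... ∧ θ_n = Ψ(θ) η`) is, at every valuation, a multiple
of `(θ₁ ∧ ... ∧ θ_n)^m`, `θ` a frame, by a function bounded by `max(1, |x_l|)^e`. -/
def Sec (Ψ : Ω[K⁄ℂ] [⋀^Fin n]→ₗ[K] K) (x : Fin N → K) (m e : ℕ) : Set K :=
  {F | ∀ v : Valuation K ℤᵐ⁰, Triv v →
    ∃ θ : Fin n → Ω[K⁄ℂ], Frame x v θ ∧ v F ≤ size x v ^ e * v (Ψ θ) ^ m}

/-- The section `a₀` of `m₀ (K + D) + e₀ H` (a rational section, only its local behaviour at `v`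
matters) has no zero at `v`. -/
def NoZero (Ψ : Ω[K⁄ℂ] [⋀^Fin n]→ₗ[K] K) (x : Fin N → K) (m₀ e₀ : ℕ) (a₀ : K)
    (v : Valuation K ℤᵐ⁰) : Prop :=
  ∀ θ : Fin n → Ω[K⁄ℂ], Frame x v θ → size x v ^ e₀ * v (Ψ θ) ^ m₀ ≤ v a₀

/-- The elements `t` of `K` have algebraically independent residues at `v`: every nonzero polynomial
in them is a unit. -/
def ResIndep {ι : Type} (v : Valuation K ℤᵐ⁰) (t : ι → K) : Prop :=
  ∀ p : MvPolynomial ι ℂ, p ≠ 0 → v (aeval t p) = 1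

/-- The setting: `K = ℂ(x_1, ..., x_N)`, `n = dim X`, `Ψ ≠ 0`. -/
structure Sit (Ψ : Ω[K⁄ℂ] [⋀^Fin n]→ₗ[K] K) (x : Fin N → K) : Prop where
  gen : IntermediateField.adjoin ℂ (Set.range x) = ⊤
  trdeg : Algebra.trdeg ℂ K = n
  Ψ0 : Ψ ≠ 0

/-- The functions `a/b`, `a` and `b` sections of `m (K + D) + e H` with `e/m = e₀/m₀`. -/
def Qset (Ψ : Ω[K⁄ℂ] [⋀^Fin n]→ₗ[K] K) (x : Fin N → K) (m₀ e₀ : ℕ) : Set K :=
  {q | ∃ m e : ℕ, m * e₀ = e * m₀ ∧ ∃ a ∈ Sec Ψ x m e, ∃ b ∈ Sec Ψ x m e, b ≠ 0 ∧ q = a / b}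

/-- The functions `c/b^k`, `c` a section of `k (m₁ (K + D) + e₁ H)`. -/
def Ratio (Ψ : Ω[K⁄ℂ] [⋀^Fin n]→ₗ[K] K) (x : Fin N → K) (m₁ e₁ : ℕ) (b : K) : Set K :=
  {f | ∃ k : ℕ, ∃ c ∈ Sec Ψ x (k * m₁) (k * e₁), f = c / b ^ k}

/-- Generators of the bigraded ring `⊕ V_{m,e}`, `V_{m,e} = Sec Ψ x m e`. -/
structure Gens (Ψ : Ω[K⁄ℂ] [⋀^Fin n]→ₗ[K] K) (x : Fin N → K) (s : ℕ) (m e : Fin s → ℕ)
    (g : Fin s → K) : Prop where
  mem : ∀ i, g i ∈ Sec Ψ x (m i) (e i)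
  ne : ∀ i, g i ≠ 0
  span : ∀ (m' e' : ℕ), ∀ F ∈ Sec Ψ x m' e', F ∈ Submodule.span ℂ
    {f : K | ∃ a : Fin s → ℕ, ∑ i, a i * m i = m' ∧ ∑ i, a i * e i = e' ∧ f = ∏ i, g i ^ a i}

/-- The data at the threshold: `a₀` has minimal slope `e₀/m₀ > 0`; the slope `e₁/m₁` is slightly
larger. -/
structure Thr (Ψ : Ω[K⁄ℂ] [⋀^Fin n]→ₗ[K] K) (x : Fin N → K) (m₀ e₀ m₁ e₁ : ℕ) (a₀ : K) :
    Prop where
  m0 : 1 ≤ m₀
  e0 : 1 ≤ e₀
  m1 : 1 ≤ m₁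
  mem : a₀ ∈ Sec Ψ x m₀ e₀
  ne : a₀ ≠ 0
  /-- `e₀/m₀` is the minimal slope -/
  min : ∀ m e : ℕ, ∀ F ∈ Sec Ψ x m e, F ≠ 0 → m * e₀ ≤ e * m₀
  /-- every section of slope `e₁/m₁` comes, at every valuation, from sections of degree `(m₁, e₁)` -/
  int : ∀ v : Valuation K ℤᵐ⁰, Triv v → ∀ b₁ ∈ Sec Ψ x m₁ e₁, (∀ b ∈ Sec Ψ x m₁ e₁, v b ≤ v b₁) →
    ∀ k : ℕ, ∀ b ∈ Sec Ψ x (k * m₁) (k * e₁), v b ≤ v b₁ ^ k
  /-- every section of degree `(m₁, e₁)` is a sum of products with a factor of minimal slope -/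
  split : ∀ b ∈ Sec Ψ x m₁ e₁, b ∈ Submodule.span ℂ
    {f : K | ∃ m' e' m'' e'' : ℕ, 1 ≤ m' ∧ m' * e₀ = e' * m₀ ∧ m' + m'' = m₁ ∧ e' + e'' = e₁ ∧
      ∃ a ∈ Sec Ψ x m' e', ∃ c ∈ Sec Ψ x m'' e'', f = a * c}
  /-- the sections of degree `(m₁, e₁)` are a finite dimensional space -/
  fin : ∃ (s : ℕ) (b : Fin s → K), (∀ i, b i ∈ Sec Ψ x m₁ e₁) ∧ (∀ i, b i ≠ 0) ∧
    Sec Ψ x m₁ e₁ ⊆ Submodule.span ℂ (Set.range b)
  /-- the coordinates are quotients of sections of degree `(m₁, e₁)` -/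
  coord : ∃ c₀ ∈ Sec Ψ x m₁ e₁, c₀ ≠ 0 ∧ ∀ l, x l * c₀ ∈ Sec Ψ x m₁ e₁

/-- The bigraded ring `⊕ V_{m,e}`, as a subalgebra of `K[s, t]`: it is generated by the `F s^m t^e`,
`F ∈ V_{m,e}`. -/
noncomputable def adj (Ψ : Ω[K⁄ℂ] [⋀^Fin n]→ₗ[K] K) (x : Fin N → K) :
    Subalgebra ℂ (MvPolynomial (Fin 2) K) :=
  Algebra.adjoin ℂ {p | ∃ m e : ℕ, ∃ F ∈ Sec Ψ x m e, p = C F * X 0 ^ m * X 1 ^ e}

/-- A family of curves through the generic point of `X` which is negative for `K + D`: the generic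
curve has the function field `Λ` over `L`; `K ⊆ Λ`, and the rational section `a` of
`m₀ (K + D) + e₀ H` (with `e₀ ≥ 1`) has no zero at any place of `Λ/L`. At the places at infinity the
curve meets the boundary in the generic point of a divisor. -/
structure NegCurve (Ψ : Ω[K⁄ℂ] [⋀^Fin n]→ₗ[K] K) (x : Fin N → K) (m₀ e₀ : ℕ) (L Λ : Type)
    [Field L] [Field Λ] [Algebra ℂ L] [Algebra L Λ] [Algebra K Λ] [Algebra ℂ Λ]
    [IsScalarTower ℂ L Λ] [IsScalarTower ℂ K Λ] (a : Λ) : Prop where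
  m0 : 1 ≤ m₀
  e0 : 1 ≤ e₀
  a0 : a ≠ 0
  trdeg : Algebra.trdeg L Λ = 1
  fg : ∃ T : Set Λ, T.Finite ∧ IntermediateField.adjoin L T = ⊤
  gen : IntermediateField.adjoin L (Set.range (algebraMap K Λ)) = ⊤
  noZero : ∀ w : Valuation Λ ℤᵐ⁰, (∀ c : L, c ≠ 0 → w (algebraMap L Λ c) = 1) →
    ∀ θ : Fin n → Ω[K⁄ℂ], Frame x (w.comap (algebraMap K Λ)) θ →
      size x (w.comap (algebraMap K Λ)) ^ e₀ * w (algebraMap K Λ (Ψ θ)) ^ m₀ ≤ w a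
  res : ∀ w : Valuation Λ ℤᵐ⁰, (∀ c : L, c ≠ 0 → w (algebraMap L Λ c) = 1) →
    ¬ Cent x (w.comap (algebraMap K Λ)) →
    ∃ t : Fin (n - 1) → K, ResIndep (w.comap (algebraMap K Λ)) t

/-- The generic curve which is cut out by `ρ` generic elements of the linear system spanned by
`b_0, ..., b_s`, relative to the field `Q`. -/
structure GCurve (Q : IntermediateField ℂ K) {s ρ : ℕ} (b : Fin (s + 1) → K) (L Λ : Type)
    [Field L] [Field Λ] [Algebra ℂ L] [Algebra L Λ] [Algebra K Λ] [Algebra ℂ Λ]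
    [IsScalarTower ℂ L Λ] [IsScalarTower ℂ K Λ] (u : Fin ρ → Fin (s + 1) → L) : Prop where
  q : ∀ q ∈ Q, ∃ c : L, algebraMap L Λ c = algebraMap K Λ q
  genL : IntermediateField.adjoin ℂ ({c : L | ∃ q ∈ Q, algebraMap L Λ c = algebraMap K Λ q} ∪
    {c : L | ∃ i j, c = u i j}) = ⊤
  genΛ : IntermediateField.adjoin L (Set.range (algebraMap K Λ)) = ⊤
  rel : ∀ i, ∑ j, algebraMap L Λ (u i j) * algebraMap K Λ (b j) = 0
  trdegL : Algebra.trdeg ℂ L = Algebra.trdeg ℂ Q + ((ρ * (s + 1) : ℕ) : Cardinal)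
  trdegΛ : Algebra.trdeg L Λ + Algebra.trdeg ℂ Q + (ρ : Cardinal) = Algebra.trdeg ℂ K
  fg : ∃ T : Set Λ, T.Finite ∧ IntermediateField.adjoin L T = ⊤

end

end Pool.Agent.Lib.MP_410da7_agA
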