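import Pool.Agent.Lib.MP_410da7_agA.SpecF0
import Pool.Agent.Lib.MP_410da7_agA.Cert

/-!
# MP_410da7_ag, smooth affine varieties (C46): block E, specialization to characteristic p

From a certificate (`Cert`) over a pair of fields `L ⊆ Λ` to a certificate over `k ⊆ Λ'`, `k`
algebraically closed of characteristic `p`; numerical consequences on the curve of `Λ' / k`; the
Nullstellensatz certificate for the nonexistence of polynomial curves; and the end theorem `EFGStmt`.

Every statement is a `def ... : Prop`; a task proves `theorem <name> : <Stmt>` (or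
`theorem <name> (h : <OtherStmt>) : <Stmt>`) in its own module.
-/

set_option autoImplicit false

namespace Pool.Agent.Lib.MP_410da7_agA

open MvPolynomial Module

/-- A specialization of the pair `L ⊆ Λ` to the pair `k ⊆ Λ'`: compatible ring homomorphisms defined
on subrings `A ⊆ L` and `O ⊆ Λ`. -/
structure Spz (L Λ k Λ' : Type) [Field L] [Field Λ] [Algebra L Λ] [Field k] [Field Λ']
    [Algebra k Λ'] where
  A : Subring L
  O : Subring Λ
  χ : A →+* k
  π : O →+* Λ'
  incl : ∀ a : A, algebraMap L Λ a ∈ O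
  comp : ∀ a : A, π ⟨algebraMap L Λ a, incl a⟩ = algebraMap k Λ' (χ a)

section

variable {L Λ k Λ' : Type} [Field L] [Field Λ] [Algebra L Λ] [Field k] [Field Λ'] [Algebra k Λ']

open Classical in
/-- The map on the constants (`0` outside of `A`). -/
noncomputable def Spz.c (s : Spz L Λ k Λ') (a : L) : k := if h : a ∈ s.A then s.χ ⟨a, h⟩ else 0

open Classical in
/-- The map on the functions (`0` outside of `O`). -/
noncomputable def Spz.v (s : Spz L Λ k Λ') (y : Λ) : Λ' := if h : y ∈ s.O then s.π ⟨y, h⟩ else 0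

/-- The coefficients of the polynomial are in `A`. -/
def Spz.In (s : Spz L Λ k Λ') {V : Type} (G : MvPolynomial V L) : Prop := ∀ m, coeff m G ∈ s.A

/-- The image of a polynomial. -/
noncomputable def Spz.red (s : Spz L Λ k Λ') {V : Type} (G : MvPolynomial V L) :
    MvPolynomial V k :=
  ∑ m ∈ G.support, monomial m (s.c (coeff m G))

/-- The specialization is defined on the elements of the finite sets and does not kill the nonzero
ones; the images of the constants are fixed by `x ↦ x^Q`. -/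
structure Spz.Ok (s : Spz L Λ k Λ') (Q : ℕ) (CL : Finset L) (E : Finset Λ) : Prop where
  hC : ∀ a ∈ CL, a ∈ s.A ∧ (a ≠ 0 → s.c a ≠ 0)
  hE : ∀ y ∈ E, y ∈ s.O ∧ (y ≠ 0 → s.v y ≠ 0 ∧ y⁻¹ ∈ s.O)
  frob : ∀ a ∈ s.A, s.c a ^ Q = s.c a

end

/-! ## Existence of the specialization -/

/-- E1. Finite residue fields.
PROOF. `A[1/a]` is a nonzero finitely generated `ℤ`-algebra; take a maximal ideal `M` of it; its residue
field is a field of finite type over `ℤ`, hence finite (see `Pool.Agent.Lib.MP_16285c_ag.Place`,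
`finField`, or `Pool.Agent.Lib.MP_8f66f0_al_Dennis.Residue`). `𝔪` = the preimage of `M` in `A`: `A / 𝔪`
embeds into the residue field, so it is a finite domain, hence a field. `a` is a unit modulo `M`. -/
def E1Stmt : Prop :=
  ∀ (A : Type) [CommRing A] [IsDomain A], Algebra.FiniteType ℤ A → ∀ a : A, a ≠ 0 →
    ∃ 𝔪 : Ideal A, 𝔪.IsMaximal ∧ Finite (A ⧸ 𝔪) ∧ a ∉ 𝔪

/-- E2. Lying over.
PROOF. The ring homomorphism `A[X] → O`, `P ↦ P(z)`, is injective (`z` is transcendental over `L`) and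
integral by hypothesis. The ideal `{P : all coefficients in 𝔪}` of `A[X]` is prime
(`Ideal.isPrime_map_C_of_isPrime`, `Ideal.mem_map_C_iff`); lying over
(`Ideal.exists_ideal_over_prime_of_isIntegral`) gives a prime `𝔮` of `O` whose preimage in `A[X]` is this
ideal. -/
def E2Stmt : Prop :=
  ∀ (L Λ : Type) [Field L] [Field Λ] [Algebra L Λ] (z : Λ), Transcendental L z →
    ∀ (A : Subring L) (O : Subring Λ), (∀ a ∈ A, algebraMap L Λ a ∈ O) → z ∈ O →
    (∀ y ∈ O, ∃ G : Polynomial (Polynomial A), G.Monic ∧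
      G.eval₂ (Polynomial.eval₂RingHom ((algebraMap L Λ).comp A.subtype) z) y = 0) →
    ∀ (𝔪 : Ideal A), 𝔪.IsPrime → ∃ 𝔮 : Ideal O, 𝔮.IsPrime ∧
      ∀ (P : Polynomial A) (y : O), (y : Λ) = P.eval₂ ((algebraMap L Λ).comp A.subtype) z →
        (y ∈ 𝔮 ↔ ∀ i, P.coeff i ∈ 𝔪)

/-- E3. The fields `k` and `Λ'`.
PROOF. `Ω` = an algebraic closure of the field of fractions of `R`; `k` = the algebraic closure of `F` in
`Ω` (`algebraicClosure F Ω`, an intermediate field, algebraically closed because `Ω` is); `Λ'` = the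
subfield of `Ω` generated by `k` and the image of `R` (`IntermediateField.adjoin k (Set.range _)`);
`p` = the characteristic, `p ^ e₀` = the number of elements of `F` (`FiniteField.card'`,
`FiniteField.pow_card`). `z` is transcendental over `k`: `k / F` is algebraic, so if `z` were algebraic over
`k` it would be algebraic over `F`, but `R → Ω` is injective. `Λ'` is generated over `k(z)` by finitely
many elements (generators of the `F`-algebra `R`), which are integral over `F[z]`: finite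
(`IntermediateField.finiteDimensional_adjoin`). -/
def E3Stmt : Prop :=
  ∀ (F R : Type) [Field F] [Finite F] [CommRing R] [IsDomain R] [Algebra F R] (z : R),
    Transcendental F z → Algebra.FiniteType F R →
    (∀ y : R, IsIntegral (Algebra.adjoin F {z}) y) →
    ∃ (p e₀ : ℕ) (_ : Fact p.Prime) (k Λ' : Type) (_ : Field k) (_ : Field Λ') (_ : Algebra k Λ')
      (_ : IsAlgClosed k) (_ : CharP k p) (χ : F →+* k) (j : R →+* Λ'),
      0 < e₀ ∧ (∀ a : F, a ^ p ^ e₀ = a) ∧
      (∀ a : F, j (algebraMap F R a) = algebraMap k Λ' (χ a)) ∧ Function.Injective j ∧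
      Transcendental k (j z) ∧ FiniteDimensional (IntermediateField.adjoin k {j z}) Λ'

/-- E4. THE SPECIALIZATION LEMMA.
PROOF. For `0 ≠ y ∈ E` there is `0 ≠ h_y ∈ L[X]` such that `y₁ = h_y(z) y` is integral over `L[z]`
(`exists_integral_multiple`), i.e. there is a monic `G_y ∈ L[X][Y]` with `G_y(z)(y₁) = 0`; dividing by a
power of `Y` (`Λ` is a domain, `y₁ ≠ 0`) we may assume that the constant coefficient `n_y ∈ L[X]` of `G_y`
is not zero. `A` = the subring of `L` generated by `CL` and all the coefficients of the `h_y`, `G_y`; `O₀` =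
the subring of `Λ` generated by `A`, `z`, and the `y₁`: every element of `O₀` is integral over `A[z]`. Let
`D ∈ A` be the product of the nonzero elements of `CL`, of one nonzero coefficient of each `h_y` and of one
nonzero coefficient of each `n_y`. E1: a maximal ideal `𝔪` of `A` with finite residue field, `D ∉ 𝔪`. E2: the
prime `𝔮` of `O₀`; `P(z) ∈ 𝔮` iff all coefficients of `P ∈ A[X]` are in `𝔪`. So `h_y(z) ∉ 𝔮`, `n_y(z) ∉ 𝔮`, and
`y₁` divides `n_y(z)` in `O₀`, so `y₁ ∉ 𝔮`; `z ∉ 𝔮`. `R = O₀ / 𝔮` is an algebra of finite type over the finite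
field `F = A / 𝔪`, the class of `z` is transcendental over `F`, `R` is integral over `F[z]`. E3 gives `k`,
`Λ'`, `χ`, `j`. Let `O = {s / t : s, t ∈ O₀, t ∉ 𝔮}` (a subring of `Λ`), `π(s/t) = j(s)/j(t)` (well defined;
`IsLocalization.lift` for `Localization.AtPrime 𝔮`, which is embedded into `Λ`, or by hand). Then
`y = y₁ / h_y(z) ∈ O`, `y⁻¹ ∈ O`, `π(y) ≠ 0`. The images of the elements of `A` in `k` come from `F`, so they
are fixed by `x ↦ x^(p^e₀)`. (`0 ∈ E` is harmless.) -/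
def E4Stmt : Prop :=
  ∀ (L Λ : Type) [Field L] [Field Λ] [Algebra L Λ] (z : Λ), Transcendental L z →
    FiniteDimensional (IntermediateField.adjoin L {z}) Λ → ∀ (CL : Finset L) (E : Finset Λ),
    ∃ (p e : ℕ) (_ : Fact p.Prime) (k Λ' : Type) (_ : Field k) (_ : Field Λ') (_ : Algebra k Λ')
      (_ : IsAlgClosed k) (_ : CharP k p) (s : Spz L Λ k Λ'),
      0 < e ∧ s.Ok (p ^ e) CL E ∧ z ∈ s.O ∧ Transcendental k (s.v z) ∧
      FiniteDimensional (IntermediateField.adjoin k {s.v z}) Λ'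

/-- E5. Calculus of `red`.
PROOF. `coeff m (s.red G) = s.c (coeff m G)` (also outside of the support: `s.c 0 = 0`); `s.c` and `s.v` are
additive and multiplicative on `A`, `O` (`s.c (a + b) = s.c a + s.c b` for `a, b ∈ A`, ...). Coefficients of
products: `MvPolynomial.coeff_mul`; of derivatives: `coeff_pderiv` or on monomials. Evaluation:
`MvPolynomial.aeval_def`, `eval₂_eq'`: both sides are `∑ c(coeff) ∏ v(y_l)^{m_l}`. One may also write
`G = map A.subtype G_A` with `G_A ∈ A[V]` (`MvPolynomial.mem_range_map_iff...`); then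
`s.red G = map s.χ G_A` and everything is `map`. -/
def E5Stmt : Prop :=
  ∀ (L Λ k Λ' : Type) [Field L] [Field Λ] [Algebra L Λ] [Field k] [Field Λ'] [Algebra k Λ']
    (s : Spz L Λ k Λ') (V : Type),
    (∀ G H : MvPolynomial V L, s.In G → s.In H → s.In (G + H) ∧ s.In (G * H) ∧
      s.red (G + H) = s.red G + s.red H ∧ s.red (G * H) = s.red G * s.red H) ∧
    (s.In (0 : MvPolynomial V L) ∧ s.red (0 : MvPolynomial V L) = 0) ∧
    (s.In (1 : MvPolynomial V L) ∧ s.red (1 : MvPolynomial V L) = 1) ∧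
    (∀ i : V, s.In (X i : MvPolynomial V L) ∧ s.red (X i) = X i) ∧
    (∀ G : MvPolynomial V L, s.In G → ∀ i, s.In (pderiv i G) ∧
      s.red (pderiv i G) = pderiv i (s.red G)) ∧
    (∀ (G : MvPolynomial V L) (d : ℕ), G.IsHomogeneous d → (s.red G).IsHomogeneous d) ∧
    (∀ (G : MvPolynomial V L) (m : V →₀ ℕ), coeff m (s.red G) = s.c (coeff m G)) ∧
    ∀ (G : MvPolynomial V L) (y : V → Λ), s.In G → (∀ l, y l ∈ s.O) →
      aeval y G ∈ s.O ∧ s.v (aeval y G) = aeval (fun l => s.v (y l)) (s.red G)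

/-! ## Transport of the certificate -/

/-- E6a. Transport of `RegFin` and `RegInf`.
PROOF. `CL` = the coefficients of the coefficients of `G` (and `0`); `E = {z, c}`. Apply `s.π` to the
equation; the new polynomial has the coefficients `s.c`. It is monic (`s.c 1 = 1`), of the same degree; for
`RegInf` the constant coefficient of the leading coefficient is in `CL` and not zero, so its image is not
zero, and it is still the leading coefficient. `s.v (z⁻¹) = (s.v z)⁻¹`, `z⁻¹ ∈ s.O` (`z ≠ 0`). -/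
def E6aStmt : Prop :=
  ∀ (L Λ : Type) [Field L] [Field Λ] [Algebra L Λ] (z c : Λ), z ≠ 0 →
    (RegFin L z c → ∃ (CL : Finset L) (E : Finset Λ), ∀ (k Λ' : Type) [Field k] [Field Λ']
      [Algebra k Λ'] (s : Spz L Λ k Λ') (Q : ℕ), s.Ok Q CL E → RegFin k (s.v z) (s.v c)) ∧
    (RegInf L z c → ∃ (CL : Finset L) (E : Finset Λ), ∀ (k Λ' : Type) [Field k] [Field Λ']
      [Algebra k Λ'] (s : Spz L Λ k Λ') (Q : ℕ), s.Ok Q CL E → RegInf k (s.v z) (s.v c))

/-- E6b. Transport of `LogPoly` and `InfData`.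
PROOF. `T' ` has the polynomials `s.red T.a`, `s.red T.χ`, `s.red T.q` and the same numbers; `rel`: write
`X 0 * χ^N * X b₀^E - a^lam * q = ∑ w_j F_j` (`Ideal.mem_span_range_iff_exists_fun`), put the coefficients of
`a, χ, q, w_j, F_j` into `CL` and apply `s.red` (E5). `FixedBy`: `coeff m (s.red G) = s.c _` and `Ok.frob`.
`E` contains the `y_l`, `α`, `ε`, `x`, `χ(y)`, `a(y)`, `minor J`, and the elements in the `RegInf`
conditions; with E5 `s.v (aeval y T.χ) = aeval y' T'.χ`, `s.v (minor ...) = minor ...` (determinant of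
elements of `O`: `RingHom.map_det`), `s.v` commutes with products, powers, inverses and integral powers of
the nonzero elements of `E` (their inverses are in `O`), hence `s.v` of the element in each `RegInf`
condition is the corresponding element for `T'`, and E6a applies. -/
def E6bStmt : Prop :=
  ∀ (L Λ : Type) [Field L] [Field Λ] [Algebra L Λ] (M κ r d n m₀ e₀ E₀ : ℕ)
    (S : System L M κ r d) (y : Fin (M + 1) → Λ) (b₀ : Fin (M + 1)) (α ε : Λ)
    (T : LogPoly S.F b₀) (J : Fin r → Fin κ) (x : Λ), y b₀ ≠ 0 → α ≠ 0 →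
    InfData S n m₀ e₀ E₀ y b₀ α ε T J x →
    ∃ (CL : Finset L) (E : Finset Λ), ∀ (k Λ' : Type) [Field k] [Field Λ'] [Algebra k Λ']
      (s : Spz L Λ k Λ') (Q : ℕ), s.Ok Q CL E → ∀ (S' : System k M κ r d),
      (∀ j, S'.F j = s.red (S.F j)) → S'.I₀ = S.I₀ →
      ∃ T' : LogPoly S'.F b₀, FixedBy Q T'.a ∧ FixedBy Q T'.χ ∧
        InfData S' n m₀ e₀ E₀ (fun l => s.v (y l)) b₀ (s.v α) (s.v ε) T' J (s.v x)

/-- A certificate whose polynomials are fixed by `x ↦ x^Q`. -/
structure CertQ (Q : ℕ) {k Λ : Type} [Field k] [Field Λ] [Algebra k Λ] {M κ r d : ℕ}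
    (S : System k M κ r d) (n m₀ e₀ E₀ : ℕ) (y : Fin (M + 1) → Λ) (b₀ : Fin (M + 1)) (α : Λ) :
    Prop where
  cert : Cert S n m₀ e₀ E₀ y b₀ α
  F_fix : ∀ j, FixedBy Q (S.F j)
  g_fix : FixedBy Q S.g
  inf : ∃ (t : ℕ) (ε : Fin t → Λ), ∑ j, ε j = 1 ∧
    ∀ j, ∃ (T : LogPoly S.F b₀) (J : Fin r → Fin κ) (x : Λ), FixedBy Q T.a ∧ FixedBy Q T.χ ∧
      InfData S n m₀ e₀ E₀ y b₀ α (ε j) T J x

/-- E6c. Transport of the certificate.
PROOF. `CL`: the coefficients of `F_j`, `g`, `A_{j,i}` and the sets of E6a, E6b; `E`: the `y_l`, `α`, `c_J`,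
the minors, `g(y)`, `ε_j`, and the sets of E6a, E6b. `S'`: `F' = s.red F`, `g' = s.red g`, `A' = s.red A`, the same
`I₀`, `J₀`; homogeneity and the relations by E5. The fields of `Cert`: by E5 and E6a, E6b; the equation
`∑ c_J (α minor_J^{m₀}) = 1` and `∑ ε_j = 1` hold in `O`, apply `s.π`. -/
def E6cStmt : Prop :=
  ∀ (L Λ : Type) [Field L] [Field Λ] [Algebra L Λ] (M κ r d n m₀ e₀ E₀ : ℕ)
    (S : System L M κ r d) (y : Fin (M + 1) → Λ) (b₀ : Fin (M + 1)) (α : Λ),
    Cert S n m₀ e₀ E₀ y b₀ α →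
    ∃ (CL : Finset L) (E : Finset Λ), (∀ l, y l ∈ E) ∧
      (∀ j, ∀ m ∈ (S.F j).support, coeff m (S.F j) ∈ CL) ∧
      ∀ (k Λ' : Type) [Field k] [Field Λ'] [Algebra k Λ'] (s : Spz L Λ k Λ') (Q : ℕ),
      s.Ok Q CL E → Transcendental k (s.v (y b₀)) →
      FiniteDimensional (IntermediateField.adjoin k {s.v (y b₀)}) Λ' →
      ∃ S' : System k M κ r d, (∀ j, S'.F j = s.red (S.F j)) ∧
        CertQ Q S' n m₀ e₀ E₀ (fun l => s.v (y l)) b₀ (s.v α)

/-! ## Numerical consequences on a curve -/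

/-- E7a. Orders of regular elements.
PROOF. `RegFin`: `c^d + ∑_{i<d} g_i(z) c^i = 0` with `ord_w g_i(z) ≥ 0` (or `g_i(z) = 0`), since the expansions
of `z` and of the constants at `w` have no negative part; if `ord_w c < 0` the term `c^d` has strictly
smaller order than the others. `RegInf`: `ord_w (z⁻¹) > 0`, so `g(z⁻¹)` is regular for every `g ∈ k[X]` with
value `g.coeff 0` at `w`; the leading coefficient has order exactly `0`; the same argument. -/
def E7aStmt : Prop :=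
  ∀ (k Λ : Type) [Field k] [Field Λ] [Algebra k Λ] (C : Curve k Λ) (z c : Λ) (w : C.pt),
    (RegFin k z c → 0 ≤ C.ord w z → 0 ≤ C.ord w c) ∧
    (RegInf k z c → C.ord w z < 0 → 0 ≤ C.ord w c)

/-- E7b. The local inequalities. `P_w = max 0 (- ord_w z)`, `z = y b₀`.
PROOF. All `y_l` have `ord_w y_l ≥ - P_w` (E7a for `y_fin`, `y_inf`). CASE `P_w = 0`: `ord_w z ≥ 0`, all the
`c_J` are regular at `w`; from `∑_J c_J (α minor_J^{m₀}) = 1` some `J` has `minor_J ≠ 0` and
`ord α + m₀ ord minor_J ≤ 0` (otherwise all terms would vanish at `w`); `μ = 0`, `h = 0`. CASE `P_w > 0`: the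
`ε_j` are regular at `w` and `∑ ε_j = 1`, so some `ε = ε_j` is a unit at `w` (`C.cf w 0` of it is not zero);
let `T`, `J`, `x` be its data. For a homogeneous polynomial `G` of degree `e` the element `G(y)/z^e` is a
polynomial in the `y_l / z`, hence regular at `w`. `ε / χ~` regular (`χ~ = χ(y)/z^{e₁}`) gives `ord χ~ ≤ 0`, so
`ord χ(y) = - e₁ P_w`. `μ = ord (a(y)/z^e) ≥ 0`, so `ord a(y) = μ - e P_w` and all lower coefficients
vanish. `ε ζ^lam z` regular: `lam μ - P_w ≥ 0`. `h = - ord x`: `ε z / x^{E₀}` regular: `E₀ h ≥ P_w`.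
`ε / tau` regular: `ord tau ≤ 0`, i.e.
`ord α + m₀ ord minor_J - (n+1-r(d-1)) m₀ P_w + m₀ μ + e₀ h ≤ 0`. (`C.ord` is additive on nonzero elements:
`HahnSeries.order_mul`.) -/
def E7bStmt : Prop :=
  ∀ (k Λ : Type) [Field k] [Field Λ] [Algebra k Λ] (C : Curve k Λ)
    (Q M κ r d n m₀ e₀ E₀ : ℕ) (S : System k M κ r d) (y : Fin (M + 1) → Λ) (b₀ : Fin (M + 1))
    (α : Λ), CertQ Q S n m₀ e₀ E₀ y b₀ α → ∀ (w : C.pt) (P : ℤ),
    P = max 0 (-(C.ord w (y b₀))) → (∀ l, ∀ i : ℤ, i < -P → (C.exp w (y l)).coeff i = 0) ∧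
    ∃ (J : Fin r → Fin κ) (μ h : ℤ), minor S.F S.I₀ y J ≠ 0 ∧ 0 ≤ μ ∧
      (P = 0 → μ = 0 ∧ h = 0) ∧ P ≤ E₀ * h ∧
      m₀ * (C.ord w (minor S.F S.I₀ y J) + r * ((d : ℤ) - 1) * P + μ) ≤
        (n + 1) * m₀ * P - C.ord w α - e₀ * h ∧
      (0 < P → ∃ T : LogPoly S.F b₀, FixedBy Q T.a ∧ FixedBy Q T.χ ∧ aeval y T.χ ≠ 0 ∧
        C.ord w (aeval y T.χ) = - (T.e₁ * P) ∧
        (∀ i < μ - T.e * P, C.cf w i (aeval y T.a) = 0) ∧ P ≤ T.lam * μ)

/-- E7c. The numerical data of FG16.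
PROOF. Choose `J_w`, `μ_w`, `h_w` by E7b, `ℓ_w = ord_w minor_{J_w} + r (d-1) P_w`. `ℓ` has finite support: if
`P_w = 0` and `w` is not a zero or pole of one of the finitely many nonzero minors then `ℓ_w = 0`. `μ`, `h` are
supported where `P_w > 0`. Summing E7b over all `w` (`C.sum α`):
`m₀ (∑ ℓ + ∑ μ) ≤ (n+1) m₀ ∑ P - e₀ ∑ h` and `∑ P ≤ E₀ ∑ h`. Put `a' = (n+1) ∑ P - ∑ ℓ - ∑ μ`: `m₀ a' ≥ e₀ ∑ h`,
`∑ P ≥ 1` (there is a pole), so `E₀ ∑ h ≥ 1`, `∑ h ≥ 1`, `a' ≥ 1`; and
`e₀ (n+1) ∑ P ≤ (n+1) E₀ e₀ ∑ h ≤ (n+1) E₀ m₀ a' < (B+1) e₀ a'`, divide by `e₀`. `PtData`: `Y0, YF, gY, mY`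
are fields of `Cert`; `Yb`: if `P_w > 0` then `z ≠ 0` and `ord z = - P_w`. -/
def E7cStmt : Prop :=
  ∀ (k Λ : Type) [Field k] [Field Λ] [Algebra k Λ] (C : Curve k Λ)
    (Q M κ r d n m₀ e₀ E₀ B : ℕ) (S : System k M κ r d) (y : Fin (M + 1) → Λ)
    (b₀ : Fin (M + 1)) (α : Λ), CertQ Q S n m₀ e₀ E₀ y b₀ α →
    (n + 1) * E₀ * m₀ < (B + 1) * e₀ → (∃ w, C.ord w (y b₀) < 0) →
    ∀ P : C.pt → ℤ, (∀ w, P w = max 0 (-(C.ord w (y b₀)))) →
    ∃ (ℓ μ : C.pt → ℤ) (a' : ℤ), PtData C S y P ℓ μ b₀ ∧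
      (∀ w, 0 < P w → ∃ T : LogPoly S.F b₀, FixedBy Q T.a ∧ FixedBy Q T.χ ∧ aeval y T.χ ≠ 0 ∧
        C.ord w (aeval y T.χ) = - (T.e₁ * P w) ∧
        (∀ i < μ w - T.e * P w, C.cf w i (aeval y T.a) = 0) ∧ P w ≤ T.lam * μ w) ∧
      1 ≤ a' ∧ ∑ᶠ w, ℓ w + ∑ᶠ w, μ w + a' ≤ (n + 1) * ∑ᶠ w, P w ∧
      (n + 1) * ∑ᶠ w, P w < (B + 1) * a'

/-! ## Nonexistence of polynomial curves is inherited by specializations -/

/-- E8. If there is no nonconstant polynomial curve of degree at most `B` through the point `y` (with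
the coordinate `l₀` constant) satisfying the equations `F_j`, over any extension field of `Λ`, then there
is none through a specialization of `y`.
PROOF. Let `V = Fin N × Fin B`, `a_{l,m}` the variables of `Λ[V]`, `I ⊆ Λ[V]` the ideal generated by the
coefficients of all `t^i` in `F_j(y_l + ∑_m a_{l,m} t^{m+1})` (in `Λ[V][t]`) and the `a_{l₀,m}`. A zero of
`I` in `Ω^V`, `Ω` an algebraic closure of `Λ`, is a curve, so by hypothesis it is `0`; by the
Nullstellensatz (`MvPolynomial.vanishingIdeal_zeroLocus_eq_radical`) `a_{l,m}^K ∈ I` for some `K`: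
`a_{l,m}^K = ∑_s c_s g_s` with generators `g_s`. Let `E` be the set of the coefficients of all these `c_s`,
of the `F_j`, and the `y_l`. For `R ⊇ E` the identities hold in `R[V]` (`MvPolynomial.map R.subtype` is
injective), and `ε` maps them to the same identities over `k'`, with the generators of the ideal for
`F'`, `ε(y)`. Evaluate at `a_{l,m} = coeff_{m+1} (Y_l)`: all generators vanish, so `coeff_{m+1}(Y_l)^K = 0`. -/
def E8Stmt : Prop :=
  ∀ (Λ : Type) [Field Λ] (N κ B : ℕ) (F : Fin κ → MvPolynomial (Fin N) Λ) (y : Fin N → Λ)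
    (l₀ : Fin N),
    (¬ ∃ (Ω : Type) (_ : Field Ω) (_ : Algebra Λ Ω) (Y : Fin N → Polynomial Ω),
      (∀ j, aeval Y (F j) = 0) ∧ (Y l₀).natDegree = 0 ∧ (∀ l, (Y l).natDegree ≤ B) ∧
      (∃ l, 0 < (Y l).natDegree) ∧ ∀ l, (Y l).coeff 0 = algebraMap Λ Ω (y l)) →
    ∃ E : Finset Λ, ∀ (R : Subring Λ), (∀ e ∈ E, e ∈ R) → ∀ (k' : Type) [Field k']
      (ε : R →+* k') (F' : Fin κ → MvPolynomial (Fin N) k'),
      (∀ j m, ∃ h : coeff m (F j) ∈ R, ε ⟨coeff m (F j), h⟩ = coeff m (F' j)) →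
      ∀ Y : Fin N → Polynomial k', (∀ j, aeval Y (F' j) = 0) → (Y l₀).natDegree = 0 →
      (∀ l, (Y l).natDegree ≤ B) →
      (∀ l, ∃ h : y l ∈ R, ε ⟨y l, h⟩ = (Y l).coeff 0) → ∀ l, (Y l).natDegree = 0

/-! E9 is `EFGStmt` (file `Cert.lean`).
PROOF. Suppose that there is no such curve. E8 for `F = map (algebraMap L Λ) (S.F j)`, `l₀ = 0`
(`aeval_map_algebraMap`; a curve with `(Y 0).natDegree = 0` has `Y 0 = 1` because `y 0 = 1`; the algebra
structure over `L` on `Ω` is the composition) gives a finite set `E₁ ⊆ Λ`. E6c gives `CL`, `E`. E4 for `CL`,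
`E ∪ E₁`: `p`, `e`, `k`, `Λ'`, `s`. E6c: `S'` and `CertQ (p^e) S' ... y'`, `y' = s.v ∘ y`. FF1, FF5: the curve
`C` of `Λ' / k`, full; FF7: `z' = y' b₀` has a pole, infinitely many points. E7c with
`P w = max 0 (- ord_w z')`; FF10 gives `γ` (`D = m P`). Let `U` be the set of the points `w` with `P w = 0` at
which all `s.v e`, `e ∈ E ∪ E₁`, are regular: its complement is finite (`C.finite`), so `U` is infinite. FG16:
`m`, `w ∈ U`, `k'`, `Yp`. Let `R = {u ∈ s.O : 0 ≤ C.ord w (s.v u)}` (a subring: no negative coefficients),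
`ε : R → k'`, `u ↦` the image of `(C.cf w 0 (s.v u))^(Q^m)`, `Q = p^e`: a ring homomorphism (value at `w`,
then a power of Frobenius). On the coefficients of the `F_j` it is `s.c` (constants, fixed by `Q`). So
`Yp` contradicts E8 (`F' = map (algebraMap k k') (S'.F j)`). -/

end Pool.Agent.Lib.MP_410da7_agA
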