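import Pool.Agent.Lib.MP_410da7_agA.Defs

/-!
# MP_410da7_ag, smooth affine varieties (C46): blocks F and G

Block F: the dimension count for curves on a projective variety with fixed contact at infinity,
through `b` fixed points (Krull's height theorem and Nakayama's lemma, no deformation theory).
Block G: the degeneration of an unbounded family of maps from an affine curve to an affine variety
with fixed points to a nonconstant polynomial curve of bounded degree.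

Every statement is a `def ... : Prop`; a task proves `theorem <name> : <Stmt>` (or
`theorem <name> (h : <OtherStmt>) : <Stmt>`) in its own module.
-/

set_option autoImplicit false

namespace Pool.Agent.Lib.MP_410da7_agA

open MvPolynomial Module

/-- The `i`-th coefficient of the expansion at `w`, as a linear form. -/
noncomputable def Curve.cf {k Λ : Type} [Field k] [Field Λ] [Algebra k Λ] (C : Curve k Λ)
    (w : C.pt) (i : ℤ) : Λ →ₗ[k] k where
  toFun y := (C.exp w y).coeff i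
  map_add' a b := by rw [map_add, HahnSeries.coeff_add]
  map_smul' c y := by
    rw [Algebra.smul_def, map_mul, C.exp_alg, HahnSeries.C_mul_eq_smul, HahnSeries.coeff_smul,
      RingHom.id_apply]

/-! ## Curves -/

/-- F1. A function without poles is a constant.
PROOF. If `y` is not constant: let `c` be the coefficient of `t^0` at `w₀`. `y - c ≠ 0` has no poles
and has a zero at `w₀`; its orders are all `≥ 0` and one is `> 0`, so their sum is `> 0`,
contradiction with `C.sum`. -/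
def F1Stmt : Prop :=
  ∀ (k Λ : Type) [Field k] [Field Λ] [Algebra k Λ] (C : Curve k Λ) (_w₀ : C.pt) (y : Λ),
    y ∈ C.L (fun _ => 0) → ∃ c : k, algebraMap k Λ c = y

/-- F2. `L(D)` is finite dimensional.
PROOF. Let `m = ∑_{w : 0 < D w} D w`. If `0 ≠ y ∈ L(D)` then `ord_w y ≥ - D w` for all `w`, and the sum
of the orders is `0`, so `ord_{w₀} y = - ∑_{w ≠ w₀} ord_w y ≤ m`. Hence the linear map
`y ↦ (C.cf w₀ i y)` for `-D w₀ ≤ i ≤ m` is injective on `L(D)`. -/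
def F2Stmt : Prop :=
  ∀ (k Λ : Type) [Field k] [Field Λ] [Algebra k Λ] (C : Curve k Λ) (_w₀ : C.pt) (D : C.pt → ℤ),
    {w | 0 < D w}.Finite → FiniteDimensional k (C.L D)

/-- F3. Number of zeros.
PROOF. `C.sum`: the orders of `y` are `≥ - D w`, and `≥ m` at the `b` distinct points `c i`, where
`D = 0`. -/
def F3Stmt : Prop :=
  ∀ (k Λ : Type) [Field k] [Field Λ] [Algebra k Λ] (C : Curve k Λ) (D : C.pt → ℤ),
    (∀ w, 0 ≤ D w) → {w | D w ≠ 0}.Finite → ∀ (b m : ℕ) (c : Fin b → C.pt), Function.Injective c →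
    (∀ i, D (c i) = 0) → ∀ y ∈ C.L D, y ≠ 0 → (∀ i, (m : ℤ) ≤ C.ord (c i) y) →
    ((b * m : ℕ) : ℤ) ≤ ∑ᶠ w, D w

/-- F4. `dim L(D) ≤ dim L(D - c_1 - ... - c_b) + b`.
PROOF. `L(D - ∑ c_i)` is the kernel of the `b` linear forms `C.cf (c i) (- D (c i))` on `L(D)`
(`c` injective: `ptDiv c (c i) = 1`, and `ptDiv c w = 0` for the other `w`). -/
def F4Stmt : Prop :=
  ∀ (k Λ : Type) [Field k] [Field Λ] [Algebra k Λ] (C : Curve k Λ) (D : C.pt → ℤ),
    FiniteDimensional k (C.L D) → ∀ (b : ℕ) (c : Fin b → C.pt), Function.Injective c →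
    finrank k (C.L D) ≤ finrank k (C.L (D - ptDiv c)) + b

/-! ## Krull and Nakayama -/

/-- F5. Let `J` be an ideal of `k[a_v : v ∈ V]` contained in the ideal `mx` of the origin, and `G` a
finite subset of `mx` with fewer elements than `V` and `J ⊆ (G) + mx J`. Then `J` and `G` are
contained in a prime ideal strictly smaller than `mx`.
PROOF. Localize at `mx` (`J` is finitely generated): by Nakayama `J_mx ⊆ (G)_mx`. Take a minimal prime
`P` of `(G)` below `mx` (`Ideal.exists_minimalPrimes_le`). Its height is at most `#G < #V` (Krull's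
height theorem, `Ideal.height_le_spanFinrank` ...), and the height of `mx` is at least `#V`
(`curve_card_le_height` in `Pool.Agent.Lib.MP_410da7_ag.Curve`, or the chain of ideals of
variables), so `P ≠ mx`. For `x ∈ J` there is `s ∉ mx` with `s x ∈ (G) ⊆ P`, so `x ∈ P`. -/
def F5Stmt : Prop :=
  ∀ (k V : Type) [Field k] [Fintype V] (J : Ideal (MvPolynomial V k))
    (G : Set (MvPolynomial V k)), G.Finite → J ≤ mx V k → G ⊆ mx V k →
    G.ncard < Fintype.card V → J ≤ Ideal.span G ⊔ mx V k * J →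
    ∃ P : Ideal (MvPolynomial V k), P.IsPrime ∧ P ≤ mx V k ∧ P ≠ mx V k ∧ J ≤ P ∧ G ⊆ P

/-- F6. Number of equations. Let `𝔽_1, ..., 𝔽_κ ∈ Λ[a]` have coefficients in the finite dimensional
`k`-space `U ⊆ Λ` and vanish at the origin. Suppose that, for every ideal `J` of `k[a]` such that the
`𝔽_j` are in `J Λ[a]`, the elements `g₀ 𝔽_j - ∑_i A₀_{j,i} 𝔽_{J₀ i}` are in `(mx J) Λ[a]`. Then there is
such an ideal `J ⊆ mx` with `J ⊆ (G) + mx J` for a set `G ⊆ mx` of at most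
`dim {u ∈ U^κ : g₀ u_j = ∑_i A₀_{j,i} u_{J₀ i} for all j}` elements.
PROOF. Let `T : U^κ → Λ^κ`, `T(u)_j = g₀ u_j - ∑_i A₀_{j,i} u_{J₀ i}`; let `u_1..u_s` be a basis of
`ker T`, extended to a basis `u_1..u_t` of `U^κ`. Write `(𝔽_j)_j = ∑_i u_i ⊗ γ_i` with `γ_i ∈ k[a]`
(`𝔽_j = ∑_i C((u_i)_j) * map γ_i`), `J = (γ_1..γ_t)`, `G = {γ_1..γ_s}`. The `γ_i` vanish at `0` because
the `u_i` are independent and the `𝔽_j` vanish at `0`. `T u_{s+1}, ..., T u_t ∈ Λ^κ` are independent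
over `k`: choose linear forms `φ_i` on `Λ^κ` (`i > s`) with `φ_i(T u_{i'}) = δ_{i,i'}` for `i' > s`
(`T u_{i'} = 0` for `i' ≤ s`). Applying `φ_i` coefficientwise to
`(g₀ 𝔽_j - ∑ A₀ 𝔽_{J₀})_j = ∑_{i'} T(u_{i'}) γ_{i'} ∈ ((mx J) Λ[a])^κ` gives `γ_i ∈ mx J` (a linear form
applied coefficientwise maps `I Λ[a]` into `I`, for every ideal `I` of `k[a]`). -/
def F6Stmt : Prop :=
  ∀ (k Λ V : Type) [Field k] [Field Λ] [Algebra k Λ] [Fintype V] (κ r : ℕ)
    (U : Submodule k Λ), FiniteDimensional k U → ∀ (𝔽 : Fin κ → MvPolynomial V Λ),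
    (∀ j m, coeff m (𝔽 j) ∈ U) → (∀ j, constantCoeff (𝔽 j) = 0) →
    ∀ (g₀ : Λ) (A₀ : Fin κ → Fin r → Λ) (J₀ : Fin r → Fin κ),
    (∀ J : Ideal (MvPolynomial V k), (∀ j, 𝔽 j ∈ ext Λ J) →
      ∀ j, C g₀ * 𝔽 j - ∑ i, C (A₀ j i) * 𝔽 (J₀ i) ∈ ext Λ (mx V k * J)) →
    ∀ (T : Submodule k (Fin κ → Λ)),
    (∀ u, u ∈ T ↔ (∀ j, u j ∈ U) ∧ ∀ j, g₀ * u j = ∑ i, A₀ j i * u (J₀ i)) →
    ∃ (J : Ideal (MvPolynomial V k)) (G : Set (MvPolynomial V k)),
      (∀ j, 𝔽 j ∈ ext Λ J) ∧ J ≤ mx V k ∧ G.Finite ∧ G ⊆ mx V k ∧ G.ncard ≤ finrank k T ∧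
      J ≤ Ideal.span G ⊔ mx V k * J

/-- F7. The relations modulo `mx J`. If `g F_j = ∑_i A_{j,i} F_{J₀ i}` and the values `F_j(h)` at the
generic point `h = hpt Y ω` are in `J Λ[a]`, then `g(Y) F_j(h) - ∑ A_{j,i}(Y) F_{J₀ i}(h)` is in
`(mx J) Λ[a]`.
PROOF. It is `- (g(h) - g(Y)) F_j(h) + ∑ (A_{j,i}(h) - A_{j,i}(Y)) F_{J₀ i}(h)`, and
`g(h) - g(Y) ∈ mx Λ[a]` (the extension of `mx` to `Λ[a]` is the ideal of polynomials without
constant term, and the constant term of `g(h)` is `g(Y)`). -/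
def F7Stmt : Prop :=
  ∀ (k Λ : Type) [Field k] [Field Λ] [Algebra k Λ] (N κ r D : ℕ)
    (F : Fin κ → MvPolynomial (Fin N) k) (J₀ : Fin r → Fin κ) (g : MvPolynomial (Fin N) k)
    (A : Fin κ → Fin r → MvPolynomial (Fin N) k), (∀ j, g * F j = ∑ i, A j i * F (J₀ i)) →
    ∀ (Y : Fin N → Λ) (ω : Fin D → Λ) (J : Ideal (MvPolynomial (Fin N × Fin D) k)),
    (∀ j, hval Y ω (F j) ∈ ext Λ J) →
    ∀ j, C (aeval Y g) * hval Y ω (F j) - ∑ i, C (aeval Y (A j i)) * hval Y ω (F (J₀ i)) ∈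
      ext Λ (mx (Fin N × Fin D) k * J)

/-! ## The dimension of the space of equations -/

/-- F8. Local index. `G` is an `r × r` matrix over `k((t))` with nonzero determinant and entries in
`t^(-s) k[[t]]`; `ψ : E → k((t))^r` is linear and `G ψ(x) ∈ t^(-(δ+s)) k[[t]]^r` for all `x ∈ E`. Then
the subspace of the `x` with `ψ(x) ∈ t^(-δ) k[[t]]^r` has codimension at most `ord det G + r s`.
PROOF. Put `G' = t^s G` (entries in `O = k[[t]]`, `ord det G' = ord det G + r s`) and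
`ψ' = t^δ ψ`. By the elementary divisors (or by induction on `ord det G'` and `r`: if an entry of `G'`
is a unit, row and column operations over `O` split off `1`; otherwise divide by `t`) there are
`P, Q ∈ GL_r(O)` with `P G' Q = diag(t^{a_i})`, `∑ a_i = ord det G'`. Then
`{ξ : G' ξ ∈ O^r} / O^r` has dimension `∑ a_i`: it is `Q` applied to the `ξ'` with
`t^{a_i} ξ'_i ∈ O`; the linear forms coefficients of `t^{-1}, ..., t^{-a_i}` of `(Q⁻¹ ψ'(x))_i` cut
out the subspace. -/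
def F8Stmt : Prop :=
  ∀ (k : Type) [Field k] (r : ℕ) (G : Matrix (Fin r) (Fin r) (LaurentSeries k)) (s δ : ℤ),
    (∀ i j, ∀ m < -s, (G i j).coeff m = 0) → G.det ≠ 0 →
    ∀ (E : Type) [AddCommGroup E] [Module k E] (ψ : E → Fin r → LaurentSeries k),
    (∀ x y, ψ (x + y) = ψ x + ψ y) →
    (∀ (c : k) x i, ψ (c • x) i = (HahnSeries.C c : LaurentSeries k) * ψ x i) →
    (∀ x i, ∀ m < -(δ + s), ((G.mulVec (ψ x)) i).coeff m = 0) →
    ∀ (E' : Submodule k E), (∀ x, x ∈ E' ↔ ∀ i, ∀ m < -δ, (ψ x i).coeff m = 0) →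
    FiniteDimensional k (E ⧸ E') ∧ (finrank k (E ⧸ E') : ℤ) ≤ G.det.order + r * s

/-- F9. The dimension of the space of equations. `Jac` is a `κ × r` matrix over `Λ` with entries in
`L(s)`, `u ∈ L(D + s)^κ` runs through the solutions of `g₀ u_j = ∑_i A₀_{j,i} u_{J₀ i}`; the columns
of `Jac` satisfy the same relations and the minor with rows `J₀` is not zero. If for every point `w`
some `r × r` minor `J` has `ord_w + r s_w ≤ ν_w`, then the dimension is at most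
`r dim L(D) + ∑_w ν_w`.
PROOF. Every such `u` is `Jac ξ` for a unique `ξ ∈ Λ^r` (solve for the rows `J₀`, then use the
relations and `g₀ ≠ 0`). Let `B` be the space of these `ξ`; `ξ ↦ (class in B / {ξ : ξ_l ∈ t^(-D_w) k[[t]]})`
for the finitely many `w` with `ν_w ≠ 0` has kernel inside `L(D)^r` (for the `w` with `ν_w = 0`
F8 gives that the quotient is zero), and F8 (with `G` = the minor at `w`, `E = B`,
`ψ(ξ) = (exp_w ξ_l)_l`) bounds each quotient by `ν_w`. -/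
def F9Stmt : Prop :=
  ∀ (k Λ : Type) [Field k] [Field Λ] [Algebra k Λ] (C : Curve k Λ) (κ r : ℕ)
    (Jac : Fin κ → Fin r → Λ) (D s ν : C.pt → ℤ), (∀ j l, Jac j l ∈ C.L s) →
    FiniteDimensional k (C.L D) → {w | ν w ≠ 0}.Finite →
    (∀ w, ∃ J : Fin r → Fin κ, (Matrix.of fun i l => Jac (J i) l).det ≠ 0 ∧
      C.ord w (Matrix.of fun i l => Jac (J i) l).det + r * s w ≤ ν w) →
    ∀ (g₀ : Λ) (A₀ : Fin κ → Fin r → Λ) (J₀ : Fin r → Fin κ), g₀ ≠ 0 →
    (Matrix.of fun i l => Jac (J₀ i) l).det ≠ 0 →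
    (∀ j l, g₀ * Jac j l = ∑ i, A₀ j i * Jac (J₀ i) l) →
    ∀ (T : Submodule k (Fin κ → Λ)),
    (∀ u, u ∈ T ↔ (∀ j, u j ∈ C.L (D + s)) ∧ ∀ j, g₀ * u j = ∑ i, A₀ j i * u (J₀ i)) →
    (finrank k T : ℤ) ≤ r * finrank k (C.L D) + ∑ᶠ w, ν w

/-! ## Values at the generic point -/

/-- F10. Coefficients of the values of a homogeneous polynomial at the generic point.
PROOF. `G(h) = ∑_e coeff_e(G) ∏_l h_l^{e_l}`, `∑ e_l = d`, and the coefficients of `h_l` are in `L(P)`;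
a product of `d` polynomials with coefficients in `L(P)` has its coefficients in `L(d P)`. -/
def F10Stmt : Prop :=
  ∀ (k Λ : Type) [Field k] [Field Λ] [Algebra k Λ] (C : Curve k Λ) (N D d : ℕ) (P : C.pt → ℤ)
    (Y : Fin N → Λ) (ω : Fin D → Λ), (∀ l, Y l ∈ C.L P) → (∀ j, ω j ∈ C.L P) →
    ∀ (G : MvPolynomial (Fin N) k), G.IsHomogeneous d → ∀ m, coeff m (hval Y ω G) ∈ C.L ((d : ℤ) • P)

/-- F11. The same with fixed points: if `F(Y) = 0` and the `ω_j` vanish at the points `c i` (where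
`P = 0`) then the coefficients of `F(h)` vanish there too.
PROOF. F10, and: the coefficient of `a^0` is `F(Y) = 0`. The other coefficients: the expansions at `c i`
give (coefficients regular at `c i`) a ring homomorphism to `k[a]` (the value at `c i`) defined on
the polynomials with coefficients regular at `c i`; it maps `h_l` to the constant `Y_l(c i)`, so it
maps `F(h)` to a constant polynomial. -/
def F11Stmt : Prop :=
  ∀ (k Λ : Type) [Field k] [Field Λ] [Algebra k Λ] (C : Curve k Λ) (N D d b : ℕ)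
    (P : C.pt → ℤ) (c : Fin b → C.pt), Function.Injective c → (∀ w, 0 ≤ P w) →
    (∀ i, P (c i) = 0) →
    ∀ (Y : Fin N → Λ) (ω : Fin D → Λ), (∀ l, Y l ∈ C.L P) → (∀ j, ω j ∈ C.L (P - ptDiv c)) →
    ∀ (F : MvPolynomial (Fin N) k), F.IsHomogeneous d → aeval Y F = 0 →
    ∀ m, coeff m (hval Y ω F) ∈ C.L ((d : ℤ) • P - ptDiv c)

/-- F12. The conditions at infinity. For a point `w`, a homogeneous polynomial `a` of degree `e` whose
value at `Y` has order at least `μ - e P_w`, the `μ` coefficients of `t^i` of `a(h)` at `w`,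
`-e P_w ≤ i < -e P_w + μ`, are in `mx`, and if an ideal contains them then it contains all the
coefficients of `t^i` of `a(h)`, `i < μ - e P_w`.
PROOF. F10 for `i < - e P_w`. The constant term of `push φ (hval Y ω a)` is `φ(a(Y))`. -/
def F12Stmt : Prop :=
  ∀ (k Λ : Type) [Field k] [Field Λ] [Algebra k Λ] (C : Curve k Λ) (N D e μ : ℕ)
    (P : C.pt → ℤ) (Y : Fin N → Λ) (ω : Fin D → Λ), (∀ l, Y l ∈ C.L P) → (∀ j, ω j ∈ C.L P) →
    ∀ (a : MvPolynomial (Fin N) k), a.IsHomogeneous e → ∀ w : C.pt,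
    (∀ i < (μ : ℤ) - e * P w, C.cf w i (aeval Y a) = 0) →
    ∃ G : Set (MvPolynomial (Fin N × Fin D) k), G.Finite ∧ G.ncard ≤ μ ∧
      G ⊆ mx (Fin N × Fin D) k ∧
      ∀ P' : Ideal (MvPolynomial (Fin N × Fin D) k), G ⊆ P' →
        ∀ i < (μ : ℤ) - e * P w, push (C.cf w i) (hval Y ω a) ∈ P'

/-! ## The data at infinity and the family -/

/-- A relation `x_0 χ^N x_b^E = a^λ p` modulo the `F j`, homogeneous. -/
structure LogPoly {k : Type} [Field k] {M κ : ℕ} (F : Fin κ → MvPolynomial (Fin (M + 1)) k)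
    (b₀ : Fin (M + 1)) where
  a : MvPolynomial (Fin (M + 1)) k
  χ : MvPolynomial (Fin (M + 1)) k
  q : MvPolynomial (Fin (M + 1)) k
  e : ℕ
  e₁ : ℕ
  e₂ : ℕ
  N : ℕ
  E : ℕ
  lam : ℕ
  ha : a.IsHomogeneous e
  hχ : χ.IsHomogeneous e₁
  hq : q.IsHomogeneous e₂
  deg : 1 + N * e₁ + E = lam * e + e₂
  rel : X 0 * χ ^ N * X b₀ ^ E - a ^ lam * q ∈ Ideal.span (Set.range F)

/-- Equations `F_j` of a projective variety, homogeneous of degree `d`, which locally at a general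
point are a consequence of the `r` equations `F_{J₀ i}`; `I₀` chooses `r` variables. -/
structure System (k : Type) [Field k] (M κ r d : ℕ) where
  F : Fin κ → MvPolynomial (Fin (M + 1)) k
  hom : ∀ j, (F j).IsHomogeneous d
  I₀ : Fin r → Fin (M + 1)
  J₀ : Fin r → Fin κ
  g : MvPolynomial (Fin (M + 1)) k
  A : Fin κ → Fin r → MvPolynomial (Fin (M + 1)) k
  rel : ∀ j, g * F j = ∑ i, A j i * F (J₀ i)

/-- The hypotheses on the point `Y = (1, Y_1, ..., Y_M)` over the function field `Λ` of the curve `C`: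
it satisfies the equations, has poles at most `P`; at every `w` some `r × r` minor of the Jacobian
matrix has order at most `ℓ_w - r (d - 1) P_w`; at every `w` with `P_w > 0` there is a relation
`x_0 χ^N x_b^E = a^λ q` with `χ(Y)`, `Y_b` of the smallest possible order and `a(Y)` of order at least
`μ_w - e P_w`, where `P_w ≤ λ μ_w`. -/
structure PtData {k Λ : Type} [Field k] [Field Λ] [Algebra k Λ] (C : Curve k Λ) {M κ r d : ℕ}
    (S : System k M κ r d) (Y : Fin (M + 1) → Λ) (P ℓ μ : C.pt → ℤ) (b₀ : Fin (M + 1)) : Prop where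
  Y0 : Y 0 = 1
  YF : ∀ j, aeval Y (S.F j) = 0
  gY : aeval Y S.g ≠ 0
  mY : minor S.F S.I₀ Y S.J₀ ≠ 0
  P0 : ∀ w, 0 ≤ P w
  Pfin : {w | P w ≠ 0}.Finite
  YP : ∀ l, Y l ∈ C.L P
  Yb : ∀ w, 0 < P w → Y b₀ ≠ 0 ∧ C.ord w (Y b₀) = - P w
  ℓfin : {w | ℓ w ≠ 0}.Finite
  hℓ : ∀ w, ∃ J : Fin r → Fin κ, minor S.F S.I₀ Y J ≠ 0 ∧
    C.ord w (minor S.F S.I₀ Y J) + r * ((d : ℤ) - 1) * P w ≤ ℓ w
  μ0 : ∀ w, 0 ≤ μ w
  μP : ∀ w, P w = 0 → μ w = 0
  log : ∀ w, 0 < P w → ∃ T : LogPoly S.F b₀, aeval Y T.χ ≠ 0 ∧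
    C.ord w (aeval Y T.χ) = - (T.e₁ * P w) ∧
    (∀ i < μ w - T.e * P w, C.cf w i (aeval Y T.a) = 0) ∧ P w ≤ T.lam * μ w

/-- F13. The coordinate `x_0` stays equal to `1`. Let `𝔓 ⊆ mx` be a prime ideal such that the `F_j(h)`
are in `𝔓 Λ[a]` and, for every `w` with `P_w > 0` and the relation `T` chosen at `w`, the coefficients
of `t^i` of `a(h)` at `w`, `i < μ_w - e P_w`, are in `𝔓`. Then `a_{0,j} ∈ 𝔓` for all `j`.
PROOF. Let `S = k[a]/𝔓`, `Ω = Frac S`. For a point `w` let `ev_w : Λ[a] → Ω((t))` be the ring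
homomorphism which is `y ↦` the expansion of `y` at `w` on `Λ` and `a_v ↦` the class of `a_v` (a
constant series). It kills `𝔓 Λ[a]`, and the coefficient of `t^i` in `ev_w(p)` is the class of
`push (C.cf w i) p`. Let `P_w > 0`. From the relation:
`ev(x_0(h)) ev(χ(h))^N ev(x_b(h))^E = ev(a(h))^λ ev(q(h))` in the field `Ω((t))`.
`ev(χ(h))` has order exactly `-e₁ P_w`: the lower coefficients vanish (F10), and the coefficient of
`t^(-e₁ P_w)` is the class of a polynomial whose constant term, the corresponding coefficient of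
`χ(Y)`, is not zero, so this polynomial is not in `mx ⊇ 𝔓`. Similarly `ev(x_b(h))` has order `-P_w`;
`ev(a(h))` has order at least `μ_w - e P_w`, `ev(q(h))` at least `- e₂ P_w`. By the degree relation
`ev(x_0(h))` has order `≥ λ μ_w - P_w ≥ 0` (or is `0`). So `∑_j cf_w^i(ω_j) [a_{0,j}] = 0` in `Ω` for
all `w` and `i < 0` (for `P_w = 0` the `ω_j` are regular at `w`), and for `w = c_0`, `i = 0`. Over `k`
the system `∑_j cf_w^i(ω_j) x_j = 0` (`i < 0`, all `w`; `i = 0`, `w = c_0`) has only the zero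
solution: `∑ x_j ω_j` has no poles, so it is a constant (F1), and it vanishes at `c_0`; the `ω_j` are
independent. Hence it has only the zero solution over `Ω` (finitely many of the equations have rank
`D`). -/
def F13Stmt : Prop :=
  ∀ (k Λ : Type) [Field k] [Field Λ] [Algebra k Λ] (C : Curve k Λ) (M κ r d b D : ℕ)
    (S : System k M κ r d) (Y : Fin (M + 1) → Λ) (P ℓ μ : C.pt → ℤ) (b₀ : Fin (M + 1)),
    PtData C S Y P ℓ μ b₀ → ∀ (c : Fin b → C.pt), Function.Injective c → 0 < b →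
    (∀ i, P (c i) = 0) → ∀ (ω : Fin D → Λ), LinearIndependent k ω →
    (∀ j, ω j ∈ C.L (P - ptDiv c)) →
    ∀ (𝔓 : Ideal (MvPolynomial (Fin (M + 1) × Fin D) k)), 𝔓.IsPrime →
    𝔓 ≤ mx (Fin (M + 1) × Fin D) k → (∀ j, hval Y ω (S.F j) ∈ ext Λ 𝔓) →
    (∀ w, 0 < P w → ∃ T : LogPoly S.F b₀, aeval Y T.χ ≠ 0 ∧
      C.ord w (aeval Y T.χ) = - (T.e₁ * P w) ∧ P w ≤ T.lam * μ w ∧
      ∀ i < μ w - T.e * P w, push (C.cf w i) (hval Y ω T.a) ∈ 𝔓) →
    ∀ j, X (0, j) ∈ 𝔓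

/-- F14. THE FAMILY (the end of block F). `D = dim L(P - c_1 - ... - c_b)`, `ω` a basis. If
`∑ ℓ + ∑ μ < (n + 1) D`, `M = n + r`, then there is a prime ideal `𝔓` strictly smaller than the ideal
of the origin such that all `F_j(h)` are in `𝔓 Λ[a]` and `a_{0,j} ∈ 𝔓` for all `j`.
PROOF. `V = Fin (M+1) × Fin D`, `𝔽_j = hval Y ω (F_j)`, `U = L(d P - ∑ c_i)` (F11, F2). F7 gives the
hypothesis of F6, with `g₀ = g(Y)`, `A₀ = A(Y)`; F9 with `Jac = jac F I₀ Y`, `D := P - ∑ c_i`,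
`s = (d - 1) P`, `ν = ℓ` (the columns of the Jacobian satisfy the relations: differentiate
`g F_j = ∑ A F_{J₀}` and evaluate at `Y`, where `F = 0`; the entries are in `L((d-1)P)` by
homogeneity; if `d = 0` all `F_j = 0`) bounds the number of generators by `r D + ∑ ℓ`. Add to `J` and
`G` the sets of F12 for the finitely many `w` with `P_w > 0`: at most `∑ μ` elements. F5 gives `𝔓`,
F13 gives the last claim. -/
def F14Stmt : Prop :=
  ∀ (k Λ : Type) [Field k] [Field Λ] [Algebra k Λ] (C : Curve k Λ) (M κ r d b D n : ℕ)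
    (S : System k M κ r d) (Y : Fin (M + 1) → Λ) (P ℓ μ : C.pt → ℤ) (b₀ : Fin (M + 1)),
    PtData C S Y P ℓ μ b₀ → ∀ (c : Fin b → C.pt), Function.Injective c → 0 < b →
    (∀ i, P (c i) = 0) → ∀ (ω : Fin D → Λ), LinearIndependent k ω →
    Submodule.span k (Set.range ω) = C.L (P - ptDiv c) → M = n + r →
    ∑ᶠ w, ℓ w + ∑ᶠ w, μ w < (n + 1) * D →
    ∃ 𝔓 : Ideal (MvPolynomial (Fin (M + 1) × Fin D) k), 𝔓.IsPrime ∧
      𝔓 ≤ mx (Fin (M + 1) × Fin D) k ∧ 𝔓 ≠ mx (Fin (M + 1) × Fin D) k ∧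
      (∀ j, hval Y ω (S.F j) ∈ ext Λ 𝔓) ∧ ∀ j, X (0, j) ∈ 𝔓

/-! ## Block G: degeneration -/

/-- G1. Let `ω_1..ω_D` be linearly independent over `k`, in `L(P - c_1 - ... - c_b)`, and `k'` an
extension field of `k`. For every nonzero `ρ ∈ k'^D` there is a point `c i` and `1 ≤ m ≤ B` such that
the coefficient of `t^m` of `∑ ρ_j ω_j` at `c i` is not zero, if `∑ P < (B + 1) b`.
PROOF. Otherwise the linear system `∑_j ρ_j cf_{c i}^m(ω_j) = 0` (all `i`, `1 ≤ m ≤ B`), which has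
coefficients in `k`, has a nonzero solution over `k'`, hence over `k`: a nonzero
`y = ∑ x_j ω_j ∈ L(P)` with `ord_{c i} y ≥ B + 1` for all `i` (the coefficient of `t^0` is zero as well),
contradiction with F3. -/
def G1Stmt : Prop :=
  ∀ (k Λ k' : Type) [Field k] [Field Λ] [Algebra k Λ] [Field k'] [Algebra k k'] (C : Curve k Λ)
    (D b B : ℕ) (P : C.pt → ℤ), (∀ w, 0 ≤ P w) → {w | P w ≠ 0}.Finite →
    ∀ (c : Fin b → C.pt), Function.Injective c → (∀ i, P (c i) = 0) →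
    ∑ᶠ w, P w < (B + 1) * b →
    ∀ (ω : Fin D → Λ), LinearIndependent k ω → (∀ j, ω j ∈ C.L (P - ptDiv c)) →
    ∀ (ρ : Fin D → k'), ρ ≠ 0 → ∃ i, ∃ m : ℕ, 1 ≤ m ∧ m ≤ B ∧
      ∑ j, ρ j * algebraMap k k' (C.cf (c i) m (ω j)) ≠ 0

/-- G2. Scaling. `Ω` is an algebraically closed field with a valuation ring `𝒱 ≠ Ω`; `H_l` (`l ∈ Fin N`)
are power series over `Ω` such that all coefficients of positive degree are bounded by `θ`, where
`|θ| > 1`, the constant terms are in `𝒱`, and for some `l` and `1 ≤ m ≤ B` the coefficient of `t^m` has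
absolute value `|θ|`. Then there is `τ ∈ Ω`, `0 < |τ| < 1`, such that all the coefficients of `H_l(τ σ)` are in `𝒱`,
those of degree `> B` are in the maximal ideal, and some coefficient of positive degree is a unit.
PROOF. Let `(l₁, m₁)` maximize `|coeff_m(H_l)|^{1/m}` for `1 ≤ m ≤ B` (compare
`|h_m|^{m'}` with `|h_{m'}|^m`); it is `≥ |θ|^{1/B} > 1`. For `m > B`:
`|h_m|^{1/m} ≤ |θ|^{1/m} < |θ|^{1/B}`. Take `τ` with `τ^{m₁} = 1/coeff_{m₁}(H_{l₁})`. Then
`|h_m τ^m| ≤ 1` for `1 ≤ m ≤ B`, `< 1` for `m > B`, `= 1` for `(l₁, m₁)`. -/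
def G2Stmt : Prop :=
  ∀ (Ω : Type) [Field Ω] [IsAlgClosed Ω] (𝒱 : ValuationSubring Ω) (N B : ℕ)
    (H : Fin N → PowerSeries Ω) (θ : Ω), 1 < 𝒱.valuation θ →
    (∀ l, PowerSeries.coeff 0 (H l) ∈ 𝒱) →
    (∀ l m, 1 ≤ m → 𝒱.valuation (PowerSeries.coeff m (H l)) ≤ 𝒱.valuation θ) →
    (∃ l m, 1 ≤ m ∧ m ≤ B ∧ 𝒱.valuation (PowerSeries.coeff m (H l)) = 𝒱.valuation θ) →
    ∃ τ : Ω, τ ≠ 0 ∧ 𝒱.valuation τ < 1 ∧
      (∀ l m, 𝒱.valuation (PowerSeries.coeff m (H l) * τ ^ m) ≤ 1) ∧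
      (∀ l m, B < m → 𝒱.valuation (PowerSeries.coeff m (H l) * τ ^ m) < 1) ∧
      ∃ l m, 1 ≤ m ∧ m ≤ B ∧ 𝒱.valuation (PowerSeries.coeff m (H l) * τ ^ m) = 1

/-- G3. Existence of the valuation ring. Let `𝔓 ⊊ mx` be a prime ideal of `k[a_v : v ∈ V]`. There are
an algebraically closed field `Ω` containing `k`, elements `s_v ∈ Ω` such that `𝔓` is the kernel of the
evaluation `k[a] → Ω`, `a_v ↦ s_v`, and a valuation ring `𝒱` of `Ω` containing `k` such that some `s_v`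
is not in `𝒱`.
PROOF. `S = k[a]/𝔓`, `Ω` an algebraic closure of `Frac S`, `s_v` the class of `a_v`. Some `s_v ≠ 0`
(otherwise `𝔓 = mx`), and `s_v` is transcendental over `k`: the evaluation at the origin
`S → k` maps it to `0`, so it is not a unit of `S`, while nonzero algebraic elements of the domain `S`
are units. The local ring `k[1/s_v]_{(1/s_v)} ⊆ Ω` is dominated by a valuation ring `𝒱`
(`LocalSubring` / `ValuationSubring` existence theorem in Mathlib), and `1/s_v` is in its maximal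
ideal. -/
def G3Stmt : Prop :=
  ∀ (k V : Type) [Field k] [Fintype V] (𝔓 : Ideal (MvPolynomial V k)), 𝔓.IsPrime →
    𝔓 ≤ mx V k → 𝔓 ≠ mx V k →
    ∃ (Ω : Type) (_ : Field Ω) (_ : IsAlgClosed Ω) (_ : Algebra k Ω) (s : V → Ω)
      (𝒱 : ValuationSubring Ω), (∀ p, p ∈ 𝔓 ↔ aeval s p = 0) ∧
      (∀ c : k, algebraMap k Ω c ∈ 𝒱) ∧ ∃ v, s v ∉ 𝒱

/-- G4. DEGENERATION (the end of block G). `𝔓 ⊊ mx` is a prime ideal, the polynomials `F_j(h)` are in
`𝔓 Λ[a]`; `ω` is independent, in `L(P - c_1 - ... - c_b)`, the `Y_l` are in `L(P)`, `P(c i) = 0`,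
`∑ P < (B + 1) b`. Then for some `i` there is a nonconstant polynomial curve of degree at most `B`, over
some extension field `k'` of `k`, which satisfies the equations `F_j` and passes through the point
`Y(c i)` at time `0`; moreover its coordinate `l` is constant if `a_{l,j} ∈ 𝔓` for all `j`.
PROOF. G3: `Ω`, `s`, `𝒱`, `k' =` residue field of `𝒱`. Let `v = (l*, j*)` be such that `|s_v| > 1` is
maximal. `ρ_j =` residue of `s_{l*,j}/s_v`: `ρ_{j*} = 1`. G1: a point `c i` and `1 ≤ m ≤ B` with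
`∑ ρ_j cf^m(ω_j) ≠ 0`. Let `H_l ∈ Ω[[t]]` be the expansion of `h_l(s)` at `c i`:
`coeff_m(H_l) = cf_{c i}^m(Y_l) + ∑_j s_{l,j} cf_{c i}^m(ω_j)`; the constant term is `Y_l(c i)` (the
`ω_j` vanish at `c i`), the coefficients of positive degree are bounded by `|s_v|`, and the coefficient
of `t^m` of `H_{l*}` has absolute value `|s_v|`. `F_j(H) = 0` in `Ω[[t]]` (apply the ring homomorphism
`Λ[a] → Ω((t))`, `y ↦` expansion at `c i`, `a_v ↦ s_v`, which kills `𝔓 Λ[a]`). G2 with `θ = s_v`: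
`H_l(τ σ) ∈ 𝒱[[σ]]` reduces modulo the maximal ideal to polynomials `Yp_l ∈ k'[σ]` of degree `≤ B`, not
all constant; `F_j(Yp) = 0` because `F_j(H(τ σ)) = 0` and reduction `𝒱[[σ]] → k'[[σ]]` is a ring
homomorphism. If `a_{l,j} ∈ 𝔓` for all `j` then the coefficients of `H_l` are in `k ⊆ 𝒱`, so those of
positive degree of `H_l(τ σ)` are in the maximal ideal (`|τ| < 1`). -/
def G4Stmt : Prop :=
  ∀ (k Λ : Type) [Field k] [Field Λ] [Algebra k Λ] (C : Curve k Λ) (N κ D b B : ℕ)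
    (F : Fin κ → MvPolynomial (Fin N) k) (Y : Fin N → Λ) (P : C.pt → ℤ), (∀ w, 0 ≤ P w) →
    {w | P w ≠ 0}.Finite → (∀ l, Y l ∈ C.L P) →
    ∀ (c : Fin b → C.pt), Function.Injective c → (∀ i, P (c i) = 0) →
    ∑ᶠ w, P w < (B + 1) * b →
    ∀ (ω : Fin D → Λ), LinearIndependent k ω → (∀ j, ω j ∈ C.L (P - ptDiv c)) →
    ∀ (𝔓 : Ideal (MvPolynomial (Fin N × Fin D) k)), 𝔓.IsPrime → 𝔓 ≤ mx (Fin N × Fin D) k →
    𝔓 ≠ mx (Fin N × Fin D) k → (∀ j, hval Y ω (F j) ∈ ext Λ 𝔓) →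
    ∃ (i : Fin b) (k' : Type) (_ : Field k') (_ : Algebra k k') (Yp : Fin N → Polynomial k'),
      (∀ j, aeval Yp (F j) = 0) ∧ (∀ l, (Yp l).natDegree ≤ B) ∧ (∃ l, 0 < (Yp l).natDegree) ∧
      (∀ l, (Yp l).coeff 0 = algebraMap k k' (C.cf (c i) 0 (Y l))) ∧
      ∀ l, (∀ j, X (l, j) ∈ 𝔓) → (Yp l).natDegree = 0

/-! ## Characteristic p -/

/-- All coefficients satisfy `x^Q = x`. -/
def FixedBy {k : Type} [Field k] {V : Type} (Q : ℕ) (G : MvPolynomial V k) : Prop :=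
  ∀ m, (coeff m G) ^ Q = coeff m G

/-- FG15. Frobenius. If all the polynomials of the data are fixed by `x ↦ x^Q`, `Q` a power of the
characteristic, then the data for `y` give the data for `y^(Q^m)`, with `P`, `ℓ`, `μ` multiplied by
`Q^m`.
PROOF. For a polynomial `G` with coefficients fixed by `Q`: `G(y^q) = G(y)^q`, `q = Q^m` (the partial
derivatives and minors of such polynomials have coefficients fixed by `Q` as well), and
`ord_w(z^q) = q ord_w(z)`; the expansion of `z^q` is the `q`-th power of that of `z`. -/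
def FG15Stmt : Prop :=
  ∀ (k Λ : Type) [Field k] [Field Λ] [Algebra k Λ] (p e₀ : ℕ) [Fact p.Prime] [CharP k p]
    (C : Curve k Λ) (M κ r d : ℕ) (S : System k M κ r d) (y : Fin (M + 1) → Λ)
    (P ℓ μ : C.pt → ℤ) (b₀ : Fin (M + 1)) (m : ℕ), 0 < e₀ → (∀ j, FixedBy (p ^ e₀) (S.F j)) →
    FixedBy (p ^ e₀) S.g → PtData C S y P ℓ μ b₀ →
    (∀ w, 0 < P w → ∃ T : LogPoly S.F b₀, FixedBy (p ^ e₀) T.a ∧ FixedBy (p ^ e₀) T.χ ∧
      aeval y T.χ ≠ 0 ∧ C.ord w (aeval y T.χ) = - (T.e₁ * P w) ∧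
      (∀ i < μ w - T.e * P w, C.cf w i (aeval y T.a) = 0) ∧ P w ≤ T.lam * μ w) →
    PtData C S (fun l => y l ^ (p ^ e₀) ^ m) (((p ^ e₀) ^ m : ℤ) • P) (((p ^ e₀) ^ m : ℤ) • ℓ)
      (((p ^ e₀) ^ m : ℤ) • μ) b₀

/-- FG16. THE THEOREM IN CHARACTERISTIC `p` (the end of blocks F and G). If
`∑ ℓ + ∑ μ + a' ≤ (n + 1) ∑ P` with `a' ≥ 1`, and `(n + 1) ∑ P < (B + 1) a'`, then for every infinite set
`U` of points outside the poles `P` there are `m` and `w ∈ U` such that a nonconstant polynomial curve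
of degree at most `B`, over an extension `k'` of `k`, satisfies the equations and passes through the
point `y(w)^(Q^m)`.
PROOF. `q = Q^m`, `m` large. `b` = the largest integer with `(n+1)(b + γ) < q a'`; then
`∑ qP < (B+1) b` for large `m` (`q ∑P < (B+1) b` follows from `(n+1) ∑ P < (B+1) a'`,
`b ≥ q a'/(n+1) - γ - 2`), `0 < b`; choose `b` distinct points of `U`. `D = dim L(qP - ∑ c_i)`: by the
hypothesis on `γ` and F4, `D ≥ q ∑P - γ - b`. `∑ qℓ + ∑ qμ ≤ q(n+1)∑P - q a' < (n+1) D`. FG15, F14, G4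
(the coordinate `0` is constant: `Yp_0 = 1`). -/
def FG16Stmt : Prop :=
  ∀ (k Λ : Type) [Field k] [Field Λ] [Algebra k Λ] (p e₀ : ℕ) [Fact p.Prime] [CharP k p]
    (C : Curve k Λ) (M κ r d n : ℕ) (S : System k M κ r d) (y : Fin (M + 1) → Λ)
    (P ℓ μ : C.pt → ℤ) (b₀ : Fin (M + 1)), M = n + r → 0 < e₀ →
    (∀ j, FixedBy (p ^ e₀) (S.F j)) →
    FixedBy (p ^ e₀) S.g → PtData C S y P ℓ μ b₀ →
    (∀ w, 0 < P w → ∃ T : LogPoly S.F b₀, FixedBy (p ^ e₀) T.a ∧ FixedBy (p ^ e₀) T.χ ∧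
      aeval y T.χ ≠ 0 ∧ C.ord w (aeval y T.χ) = - (T.e₁ * P w) ∧
      (∀ i < μ w - T.e * P w, C.cf w i (aeval y T.a) = 0) ∧ P w ≤ T.lam * μ w) →
    ∀ (a' γ : ℤ) (B : ℕ), 1 ≤ a' → ∑ᶠ w, ℓ w + ∑ᶠ w, μ w + a' ≤ (n + 1) * ∑ᶠ w, P w →
    (n + 1) * ∑ᶠ w, P w < (B + 1) * a' →
    (∀ m : ℕ, (m : ℤ) * ∑ᶠ w, P w ≤ finrank k (C.L ((m : ℤ) • P)) + γ) →
    ∀ (U : Set C.pt), U.Infinite → (∀ w ∈ U, P w = 0) →
    ∃ (m : ℕ) (w : C.pt) (_ : w ∈ U) (k' : Type) (_ : Field k') (_ : Algebra k k')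
      (Yp : Fin (M + 1) → Polynomial k'),
      (∀ j, aeval Yp (S.F j) = 0) ∧ Yp 0 = 1 ∧ (∀ l, (Yp l).natDegree ≤ B) ∧
      (∃ l, 0 < (Yp l).natDegree) ∧
      ∀ l, (Yp l).coeff 0 = algebraMap k k' (C.cf w 0 (y l) ^ (p ^ e₀) ^ m)

end Pool.Agent.Lib.MP_410da7_agA
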