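import Pool.Agent.Lib.MP_410da7_agA.SpecF
import Pool.Agent.Lib.MP_cc17a8_ag.PlacesDedekind

/-!
# MP_410da7_ag, smooth affine varieties (C46): block F0, function fields of one variable

`k` is an algebraically closed field of any characteristic, `Λ / k` a function field of one variable.
The block constructs the structure `Curve k Λ` from all places of `Λ / k`, and proves Riemann's
inequality. Every statement is a `def ... : Prop`; a task proves `theorem <name> : <Stmt>` (or
`theorem <name> (h : <OtherStmt>) : <Stmt>`) in its own module.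
-/

set_option autoImplicit false

namespace Pool.Agent.Lib.MP_410da7_agA

open MvPolynomial Module

/-- `f` is a separating element of `Λ / k`: it is transcendental over `k` and `Λ` is a finite
separable extension of `k(f)`. -/
def Sepg (k : Type) {Λ : Type} [Field k] [Field Λ] [Algebra k Λ] (f : Λ) : Prop :=
  Transcendental k f ∧ FiniteDimensional (IntermediateField.adjoin k {f}) Λ ∧
    Algebra.IsSeparable (IntermediateField.adjoin k {f}) Λ

/-- FF1. Separating elements exist.
PROOF. `Λ / k` is essentially of finite type (`Algebra.EssFiniteType`: `k(z)` is, and `Λ / k(z)` is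
finite). `exists_isTranscendenceBasis_and_isSeparable_of_perfectField k Λ` (Mathlib,
`FieldTheory/SeparablyGenerated`) gives a finite transcendence basis `s` with `Λ / k(s)` separable;
`s` has one element because `{z}` is a transcendence basis (`Λ` is algebraic over `k(z)`; cardinality
of transcendence bases, `Algebra.trdeg`). `Λ` is algebraic and essentially of finite type over
`k(x)`, hence finite: see `IsFunctionField.finiteDimensional` at the end of
`Pool.Agent.Lib.MP_cc17a8_ag.PlacesBasic`. -/
def FF1Stmt : Prop :=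
  ∀ (k Λ : Type) [Field k] [Field Λ] [Algebra k Λ] [IsAlgClosed k] (z : Λ), Transcendental k z →
    FiniteDimensional (IntermediateField.adjoin k {z}) Λ → ∃ x : Λ, Sepg k x

/-- FF2. If `x` is separating then for every nonconstant `f` one of `f`, `f x` is separating.
PROOF. `Λ / k` and `Λ / k(f)` are essentially of finite type. (i) `Ω[Λ⁄k]` is spanned by `dx`: the
derivations of `Λ` over `k` which kill `x` vanish on `k(x)` and hence on `Λ` (separable algebraic
extension: `Ω[Λ⁄k(x)] = 0`, `Algebra.FormallyUnramified.iff_isSeparable` /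
`Algebra.FormallyUnramified.of_isSeparable`); or use the exact sequence
`Λ ⊗ Ω[k(x)⁄k] → Ω[Λ⁄k] → Ω[Λ⁄k(x)] → 0`. (ii) `dx ≠ 0`: otherwise `Ω[Λ⁄k] = 0`, `Λ / k` is formally
unramified and essentially of finite type, hence (separable) algebraic, but `x` is transcendental.
(iii) If `dg ≠ 0` in `Ω[Λ⁄k]`, which is one-dimensional over `Λ`, then `dg` spans it, so
`Ω[Λ⁄k(g)] = 0` (the map `Ω[Λ⁄k] → Ω[Λ⁄k(g)]` is surjective and kills `dg`), so `Λ / k(g)` is
formally unramified and essentially of finite type, hence finite separable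
(`Algebra.FormallyUnramified.iff_isSeparable`), and then `g` is transcendental over `k` because `x`
is. (iv) `d(f x) = f dx + x df`: if `df = 0` then `d(f x) = f dx ≠ 0`. Finally `k(x⁻¹) = k(x)`. -/
def FF2Stmt : Prop :=
  ∀ (k Λ : Type) [Field k] [Field Λ] [Algebra k Λ] [IsAlgClosed k] (x : Λ), Sepg k x →
    Sepg k x⁻¹ ∧ ∀ f : Λ, f ≠ 0 → Sepg k f ∨ Sepg k (f * x)

/-- FF3. The zeros of a separating element `f`: they are finitely many valuation rings `v`, discrete
with residue field `k`, and the sum of the orders is `[Λ : k(f)]`.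
PROOF. This is `zeros_of_transcendental` of `Pool.Agent.Lib.MP_cc17a8_ag.PlacesFF` where the
characteristic is zero; characteristic zero is used there only to have the separability of
`Λ / k(f)` (instance `CharZero k⟮f⟯`, for `IsIntegralClosure.finite` and
`IsIntegralClosure.isDedekindDomain`), which is now the hypothesis `Sepg k f`. Copy the proof (the
file `PlacesDedekind` is imported here). Residue fields: the same proof shows that `A / (f) → S / q`
is bijective for the maximal ideals `q` of the integral closure `S` of `A = k[f]` over `(f)`, and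
`k → A / (f)` is; every `y ∈ v = S_q` is `a / b`, `a, b ∈ S`, `b ∉ q`, so for some `c ∈ k` the element
`y - c` is in the maximal ideal of `v` (see also `exists_resEquiv` in
`Pool.Agent.Lib.MP_cc17a8_ag.Gen.Places`). -/
def FF3Stmt : Prop :=
  ∀ (k Λ : Type) [Field k] [Field Λ] [Algebra k Λ] [IsAlgClosed k] (f : Λ), Sepg k f →
    {v : ValuationSubring Λ | (∀ a : k, algebraMap k Λ a ∈ v) ∧ f ∈ v ∧ f⁻¹ ∉ v}.Finite ∧
    (∀ v ∈ {v : ValuationSubring Λ | (∀ a : k, algebraMap k Λ a ∈ v) ∧ f ∈ v ∧ f⁻¹ ∉ v},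
      IsDiscreteValuationRing v ∧ ∀ y ∈ v, ∃ c : k, y = algebraMap k Λ c ∨
        (y - algebraMap k Λ c)⁻¹ ∉ v) ∧
    ∑ᶠ v ∈ {v : ValuationSubring Λ | (∀ a : k, algebraMap k Λ a ∈ v) ∧ f ∈ v ∧ f⁻¹ ∉ v},
      Pool.Agent.Lib.MP_cc17a8_ag.ordAt v f = finrank (IntermediateField.adjoin k {f}) Λ

/-- FF4. Expansion at a discrete valuation ring `v ⊇ k` with residue field `k`.
PROOF. Let `t` be a uniformizer of `v`. For `y ∈ v` there is a unique `c(y) ∈ k` with `y - c(y)` in the
maximal ideal (unique: a nonzero constant is a unit); `δ(y) = (y - c(y)) / t ∈ v`. `c` is a ring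
homomorphism `v → k`, `δ` is additive. The coefficients `c_i(y) = c(δ^i(y))` satisfy
`y - ∑_{i<n} c_i(y) t^i ∈ t^n v` for all `n`, and they are determined by this property (if
`∑_{i<n} a_i t^i ∈ t^n v` then all `a_i = 0`: consider the first nonzero one). Hence `y ↦ ∑ c_i(y) X^i`
is a ring homomorphism `v → k[[X]]` (products: multiply the two congruences), injective
(`⋂ t^n v = 0`), `t ↦ X`; the image of a unit is a unit (the constant coefficient `c(y)` is not zero).
It extends to the fraction field `Λ` of `v` (`IsFractionRing.lift` / `IsLocalization.lift`, with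
`k[[X]] → k((X))`). A nonzero `y ∈ Λ` is `u t^n` with `u` a unit of `v`, `n ∈ ℤ`, and both orders are `n`
(`ordAt_mul`, `ordAt_eq_zero`, `ordAt_inv` in `Pool.Agent.Lib.MP_cc17a8_ag.PlacesBasic`,
`exists_ordAt_eq_one`, `ordAt_zpow` in `Pool.Agent.Lib.MP_cc17a8_ag.Gen.Riemann`, which you may
import). -/
def FF4Stmt : Prop :=
  ∀ (k Λ : Type) [Field k] [Field Λ] [Algebra k Λ] (v : ValuationSubring Λ),
    IsDiscreteValuationRing v → (∀ a : k, algebraMap k Λ a ∈ v) →
    (∀ y ∈ v, ∃ c : k, y = algebraMap k Λ c ∨ (y - algebraMap k Λ c)⁻¹ ∉ v) →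
    ∃ e : Λ →+* LaurentSeries k, (∀ c : k, e (algebraMap k Λ c) = HahnSeries.C c) ∧
      (∀ y, y ∈ v ↔ 0 ≤ (e y).order) ∧
      ∀ y, (e y).order = Pool.Agent.Lib.MP_cc17a8_ag.ordAt v y

/-- The curve has all its points: the points are exactly the places of `Λ / k`, the orders are
normalized, and a separating element `x` has `[Λ : k(x)]` poles. -/
structure Curve.Full {k Λ : Type} [Field k] [Field Λ] [Algebra k Λ] (C : Curve k Λ) : Prop where
  inj : ∀ w w', (∀ y, 0 ≤ C.ord w y ↔ 0 ≤ C.ord w' y) → w = w'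
  unif : ∀ w, ∃ y, C.ord w y = 1
  all : ∀ V : ValuationSubring Λ, (∀ c : k, algebraMap k Λ c ∈ V) → V ≠ ⊤ →
    ∃ w, ∀ y, y ∈ V ↔ 0 ≤ C.ord w y
  deg : ∀ x, Sepg k x →
    ∑ᶠ w, max 0 (-(C.ord w x)) = finrank (IntermediateField.adjoin k {x}) Λ

/-- FF5. The curve exists.
PROOF. Points: the valuation subrings `v ⊇ k`, `v ≠ ⊤`. Each of them is a zero of a separating
element: `f ∉ v`, so `g = f⁻¹ ∈ v` is in the maximal ideal; `x ∈ v` or `x⁻¹ ∈ v`, say `x ∈ v` (the other
case is the same, `x⁻¹` is separating by FF2); by FF2 `g` or `g x` is separating, both are in the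
maximal ideal. So FF3 gives: `v` is discrete with residue field `k`; `exp v` is the map of FF4
(choice). Finiteness of `{v : ord_v y ≠ 0}` and `∑ ord_v y = 0`: for separating `y` the zeros of `y` are
given by FF3, the poles are the zeros of the separating element `y⁻¹`, and `k(y) = k(y⁻¹)` (see
`IsFunctionField.sum_ordAt` and `IsFunctionField.finite_support` in
`Pool.Agent.Lib.MP_cc17a8_ag.PlacesFF`, whose proofs can be copied). For `y` such that `y x` is
separating: `ord y = ord (y x) - ord x`. By FF2 these are all `y ≠ 0`. `Full`: `inj`, `all` are clear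
from FF4 (`y ∈ v ↔ 0 ≤ ord`), `unif`: a uniformizer; `deg`: FF3 for `x⁻¹`. -/
def FF5Stmt : Prop :=
  ∀ (k Λ : Type) [Field k] [Field Λ] [Algebra k Λ] [IsAlgClosed k] (x : Λ), Sepg k x →
    ∃ C : Curve k Λ, C.Full

/-- FF6. Integral elements and orders.
PROOF. First part: `y^d + a_{d-1} y^{d-1} + ... + a_0 = 0` with `a_i ∈ k[z]`; if `ord_w z ≥ 0` then
`ord_w a_i ≥ 0` (or `a_i = 0`), and `ord_w y < 0` would give `ord(y^d) < ord(a_i y^i)` for `i < d`. Second
part: if `y` is not integral over `R = k[z]` there is a valuation subring `V ⊇ R` with `y ∉ V` (Mathlib: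
`Subring.iInf_valuationSubring_superset` or similar in `RingTheory/Valuation/LocalSubring`); `V ≠ ⊤`,
so `V` belongs to a point `w`, `ord_w z ≥ 0`, and not `ord_w y ≥ 0`. -/
def FF6Stmt : Prop :=
  ∀ (k Λ : Type) [Field k] [Field Λ] [Algebra k Λ] (C : Curve k Λ) (z y : Λ),
    (IsIntegral (Algebra.adjoin k {z}) y → ∀ w, 0 ≤ C.ord w z → 0 ≤ C.ord w y) ∧
    (C.Full → (∀ w, 0 ≤ C.ord w z → 0 ≤ C.ord w y) → IsIntegral (Algebra.adjoin k {z}) y)

/-- FF7. There are infinitely many points, and transcendental elements have poles.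
PROOF. `x` separating has a pole by `Full.deg` (`finrank > 0`), so there is a point `w₀`. If `z` has no
pole then `z ∈ L(0)` is a constant by F1. For `a ∈ k` the element `(x - a)⁻¹` is transcendental, so it has a
pole `w_a`: `ord (x - a) > 0` at `w_a`. For `a ≠ b` the points `w_a`, `w_b` are different (otherwise
`b - a` would have positive order), and `k` is infinite. -/
def FF7Stmt : Prop :=
  ∀ (k Λ : Type) [Field k] [Field Λ] [Algebra k Λ] [IsAlgClosed k] (C : Curve k Λ), C.Full →
    ∀ x : Λ, Sepg k x → Infinite C.pt ∧ ∀ z : Λ, Transcendental k z → ∃ w, C.ord w z < 0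

/-- FF8. `dim L(D') ≤ dim L(D) + ∑ (D' - D)` for `D ≤ D'`.
PROOF. `L(D)` is the kernel in `L(D')` of the linear forms `C.cf w i`, `- D'_w ≤ i < - D_w`, for the
finitely many `w` with `D_w ≠ D'_w`. -/
def FF8Stmt : Prop :=
  ∀ (k Λ : Type) [Field k] [Field Λ] [Algebra k Λ] (C : Curve k Λ) (D D' : C.pt → ℤ),
    (∀ w, D w ≤ D' w) → {w | D w ≠ D' w}.Finite → FiniteDimensional k (C.L D') →
    (finrank k (C.L D') : ℤ) ≤ finrank k (C.L D) + ∑ᶠ w, (D' w - D w)

/-- FF9. Riemann's inequality for the multiples of the divisor `B` of the poles of a separating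
element `x`.
PROOF. `d = [Λ : k(x)] = ∑ B` by `Full.deg`. Take a basis `b_1..b_d` of `Λ / k(x)` consisting of elements
integral over `k[x]` (multiply by nonzero elements of `k[x]`). By FF6 the poles of the `b_i` are among
the poles of `x`, and there are finitely many, so `b_i ∈ L(e B)` for some `e`. For `m ≥ e` the elements
`x^j b_i`, `0 ≤ j ≤ m - e`, are in `L(m B)` and linearly independent over `k`. So
`dim L(m B) ≥ d (m - e + 1)`, and `γ = d e` works (also for `m < e`). `L(m B)` is finite dimensional by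
F2 (there is a point because `x` has a pole). -/
def FF9Stmt : Prop :=
  ∀ (k Λ : Type) [Field k] [Field Λ] [Algebra k Λ] (C : Curve k Λ), C.Full →
    ∀ x : Λ, Sepg k x → ∃ γ : ℤ, ∀ m : ℕ,
      (m : ℤ) * ∑ᶠ w, max 0 (-(C.ord w x)) ≤
        finrank k (C.L (fun w => (m : ℤ) * max 0 (-(C.ord w x)))) + γ

/-- FF10. Riemann's inequality.
PROOF. `B_w = max 0 (- ord_w x)`. Let `D` be given. For every `w` with `B_w = 0` and `D_w > 0` let
`a_w ∈ k` be the value of `x` (`C.cf w 0 x`), and `h = ∏ (x - a_w)^{D_w}` over these finitely many `w`;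
`h ≠ 0`, `ord_w h ≥ D_w` for these `w`, `ord_w h ≥ 0` whenever `B_w = 0`. Choose `m` with
`D_w ≤ m B_w + ord_w h` for the finitely many `w` with `B_w > 0`. Put `D'_w = m B_w + ord_w h ≥ D_w`.
Multiplication by `h` is an isomorphism `L(D') → L(m B)`, and `∑ D' = m ∑ B` (`C.sum h`). With FF8:
`dim L(D) ≥ dim L(D') - ∑ D' + ∑ D = dim L(m B) - m ∑ B + ∑ D ≥ ∑ D - γ` (FF9). F2 for finite
dimensionality. -/
def FF10Stmt : Prop :=
  ∀ (k Λ : Type) [Field k] [Field Λ] [Algebra k Λ] (C : Curve k Λ), C.Full →
    ∀ x : Λ, Sepg k x → ∃ γ : ℤ, ∀ D : C.pt → ℤ, {w | D w ≠ 0}.Finite →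
      ∑ᶠ w, D w ≤ finrank k (C.L D) + γ

end Pool.Agent.Lib.MP_410da7_agA
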