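import Pool.Agent.Lib.MP_410da7_agA.Statement

/-!
# MP_410da7_ag: definitions for the theorem on smooth affine varieties with log smooth closure

`R` is the coordinate ring of an affine complex variety `X ⊆ 𝔸^N` with coordinate functions
`x_1, ..., x_N` (generators of `R`), and `K` is its function field. `Xbar` is the closure of `X` in
`ℙ^N`, with homogeneous coordinates `Y_0 = 1, Y_1 = x_1, ..., Y_N = x_N`, and `D` is the boundary
`Xbar ∖ X = {Y_0 = 0}` (reduced).
-/

set_option autoImplicit false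

namespace Pool.Agent.Lib.MP_410da7_agA

open MvPolynomial KaehlerDifferential WithZero

section

variable {K : Type} [Field K] [Algebra ℂ K] {M : ℕ}

/-- The point `p ∈ ℂ^(M+1)` is a point, in the chart `Y_b ≠ 0`, of the projective variety in `ℙ^M` with
homogeneous coordinates `Y_0, ..., Y_M ∈ K`: every polynomial relation between the `Y_l / Y_b` holds
at `p` (in particular `p_b = 1`). -/
def IsPoint (Y : Fin (M + 1) → K) (b : Fin (M + 1)) (p : Fin (M + 1) → ℂ) : Prop :=
  Y b ≠ 0 ∧ ∀ P : MvPolynomial (Fin (M + 1)) ℂ, aeval (fun l => Y l / Y b) P = 0 → eval p P = 0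

/-- The local ring at the point `p` of the chart `Y_b ≠ 0`: the quotients of polynomials `P`, `Q` in
the `Y_l / Y_b` with `Q(p) ≠ 0`. -/
def pointRing (Y : Fin (M + 1) → K) (b : Fin (M + 1)) (p : Fin (M + 1) → ℂ) : Subalgebra ℂ K where
  carrier := {f | ∃ P Q : MvPolynomial (Fin (M + 1)) ℂ, eval p Q ≠ 0 ∧
    f * aeval (fun l => Y l / Y b) Q = aeval (fun l => Y l / Y b) P}
  mul_mem' := by
    rintro f g ⟨P, Q, hQ, hf⟩ ⟨P', Q', hQ', hg⟩
    refine ⟨P * P', Q * Q', by rw [map_mul]; exact mul_ne_zero hQ hQ', ?_⟩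
    rw [map_mul, map_mul, ← hf, ← hg]
    ring
  add_mem' := by
    rintro f g ⟨P, Q, hQ, hf⟩ ⟨P', Q', hQ', hg⟩
    refine ⟨P * Q' + P' * Q, Q * Q', by rw [map_mul]; exact mul_ne_zero hQ hQ', ?_⟩
    rw [map_mul, map_add, map_mul, map_mul, ← hf, ← hg]
    ring
  algebraMap_mem' := by
    intro c
    exact ⟨C c, 1, by rw [map_one]; exact one_ne_zero, by rw [map_one, mul_one, aeval_C]⟩

/-- At the point `p` the projective variety `Xbar` with homogeneous coordinates `Y` is smooth of
dimension `n` and the boundary `D = {Y_0 = 0}` has simple normal crossings, with the local coordinates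
`z`: the local ring `O` contains the functions `z_1, ..., z_n`, their differentials generate the
differentials of `O`, the hyperplane section `Y_0 / Y_b = 0` is `∏ z_i^{λ_i} = 0` up to a unit, and the
ideal of `D` is generated by `∏_{λ_i ≥ 1} z_i` (a function which vanishes on `D`, that is, some power
of which is a multiple of `Y_0 / Y_b`, is a multiple of this product). -/
def IsLogChart {n : ℕ} (Y : Fin (M + 1) → K) (b : Fin (M + 1)) (p : Fin (M + 1) → ℂ)
    (z : Fin n → pointRing Y b p) (lam : Fin n → ℕ) : Prop :=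
  Submodule.span (pointRing Y b p) (Set.range fun i => D ℂ (pointRing Y b p) (z i)) = ⊤ ∧
  (∃ u : (pointRing Y b p)ˣ, Y 0 / Y b = (u : pointRing Y b p) * ∏ i, (z i : K) ^ lam i) ∧
  ∀ (f : pointRing Y b p) (m : ℕ), (∃ g : pointRing Y b p, (f : K) ^ m = g * (Y 0 / Y b)) →
    ∃ g : pointRing Y b p, (f : K) = g * ∏ i with 1 ≤ lam i, (z i : K)

/-- The closed point `p` is in the closure of the center of the valuation `v`: the functions which do
not vanish at `p` are units at `v`. -/
def AtPoint (Y : Fin (M + 1) → K) (b : Fin (M + 1)) (p : Fin (M + 1) → ℂ)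
    (v : Valuation K ℤᵐ⁰) : Prop :=
  Y b ≠ 0 ∧ ∀ P : MvPolynomial (Fin (M + 1)) ℂ, eval p P ≠ 0 → v (aeval (fun l => Y l / Y b) P) = 1

end

section

variable {R K : Type} [CommRing R] [Field K] [Algebra R K] [Algebra ℂ K] {N : ℕ}

/-- The homogeneous coordinates `(1 : x_1 : ... : x_N)`. -/
def homCoord (K : Type) [Field K] [Algebra R K] (x : Fin N → R) : Fin (N + 1) → K :=
  Fin.cons 1 fun l => algebraMap R K (x l)

/-- The closure `Xbar ⊆ ℙ^N` of the affine variety `X ⊆ 𝔸^N` with coordinate functions `x` is smooth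
of dimension `n` and its boundary has simple normal crossings. -/
def LogSmoothClosure (K : Type) [Field K] [Algebra R K] [Algebra ℂ K] (n : ℕ) (x : Fin N → R) :
    Prop :=
  ∀ (b : Fin (N + 1)) (p : Fin (N + 1) → ℂ), IsPoint (homCoord K x) b p →
    ∃ (z : Fin n → pointRing (homCoord K x) b p) (lam : Fin n → ℕ),
      IsLogChart (homCoord K x) b p z lam

/-- `K + D` is not pseudo-effective: there is `δ ≥ 1` such that `m (K + D) + e H` has no sections for
`e δ < m`. -/
def NotPseudoEffective {n : ℕ} (Ψ : Ω[K⁄ℂ] [⋀^Fin n]→ₗ[K] K) (x : Fin N → R) : Prop :=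
  ∃ δ : ℕ, 1 ≤ δ ∧ ∀ m e : ℕ, e * δ < m → ∀ F : K, IsSection R Ψ x m e F → F = 0

/-- A covering family of curves on `Xbar` on which `K + D` is negative. The generic curve `C` is given
by its function field `Λ` over `L`; it contains `K`, and `Λ` is generated by `L` and `K`. The rational
section `a η ^ m₀` of `m₀ (K + D) + e₀ H` (`m₀, e₀ ≥ 1`, `η` the rational form of top degree with
`θ₁ ∧ ⋯ ∧ θ_n = Ψ (θ₁,…,θ_n) η`) has no zeros on `C`, so that `(K + D) · C ≤ - (e₀ / m₀) H · C < 0`: at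
every place `w` of `C`, and for local coordinates `z` at a point of `Xbar` in the closure of the center
of `w`, we have `max(1, |x_l|)^{e₀} |Ψ(dz_1, …, dz_n) / ∏_{λ_i ≥ 1} z_i|^{m₀} ≤ |a|`
(`dz_1 ∧ ⋯ ∧ dz_n / ∏_{λ_i ≥ 1} z_i` is a generator of `K + D` at this point). -/
structure NegFamily {n : ℕ} (Ψ : Ω[K⁄ℂ] [⋀^Fin n]→ₗ[K] K) (x : Fin N → R) (m₀ e₀ : ℕ) (L Λ : Type)
    [Field L] [Field Λ] [Algebra ℂ L] [Algebra L Λ] [Algebra K Λ] [Algebra ℂ Λ]
    [IsScalarTower ℂ L Λ] [IsScalarTower ℂ K Λ] (a : Λ) : Prop where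
  m0 : 1 ≤ m₀
  e0 : 1 ≤ e₀
  a0 : a ≠ 0
  trdeg : Algebra.trdeg L Λ = 1
  fg : ∃ T : Set Λ, T.Finite ∧ IntermediateField.adjoin L T = ⊤
  gen : IntermediateField.adjoin L (Set.range (algebraMap K Λ)) = ⊤
  neg : ∀ w : Valuation Λ ℤᵐ⁰, (∀ c : L, c ≠ 0 → w (algebraMap L Λ c) = 1) →
    ∀ (b : Fin (N + 1)) (p : Fin (N + 1) → ℂ) (z : Fin n → pointRing (homCoord K x) b p)
      (lam : Fin n → ℕ), AtPoint (homCoord K x) b p (w.comap (algebraMap K Λ)) →
      IsLogChart (homCoord K x) b p z lam →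
      height (fun l => algebraMap R K (x l)) (w.comap (algebraMap K Λ)) ^ e₀ *
          w (algebraMap K Λ (Ψ fun i => D ℂ K (z i : K))) ^ m₀ ≤
        w a * (∏ i with 1 ≤ lam i, w (algebraMap K Λ (z i : K))) ^ m₀

end

end Pool.Agent.Lib.MP_410da7_agA
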