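import Pool.Agent.Lib.MP_410da7_agA.VCert

/-!
# Partition of unity in a Dedekind domain
-/

set_option autoImplicit false

namespace Pool.Agent.Lib.MP_410da7_agA

open Pool.Agent.Lib.MP_cc17a8_ag

section

variable {S F : Type} [CommRing S] [IsDedekindDomain S] [Field F] [Algebra S F] [IsFractionRing S F]

theorem vcert_denom (V : ValuationSubring F) (hS : ∀ s : S, algebraMap S F s ∈ V) (b : F)
    (hb : b ∈ V) : ∃ s : S, s ∉ cen V hS ∧ ∃ c : S, algebraMap S F s * b = algebraMap S F c := by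
  by_cases hV : V = ⊤
  · obtain ⟨c, s, hs, hcs⟩ := IsFractionRing.div_surjective (A := S) b
    have hs0 : s ≠ 0 := nonZeroDivisors.ne_zero hs
    have hs00 : algebraMap S F s ≠ 0 := by
      rw [Ne, IsFractionRing.to_map_eq_zero_iff]; exact hs0
    refine ⟨s, ?_, c, ?_⟩
    · rw [mem_cen_iff]
      rintro (h | h)
      · exact hs0 h
      · exact h (by rw [hV]; exact ValuationSubring.mem_top _)
    · rw [← hcs]; field_simp
  · obtain ⟨-, h2⟩ := isLocalization_of_place V hV hS
    let _ : Algebra S V := (algOf V hS).toAlgebra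
    obtain ⟨⟨c, s⟩, hcs⟩ := IsLocalization.surj (cen V hS).primeCompl (⟨b, hb⟩ : V)
    have h3 : b * algebraMap S F s = algebraMap S F c := congrArg Subtype.val hcs
    exact ⟨s, s.2, c, by rw [mul_comm]; exact h3⟩

theorem vcert_denoms (V : ValuationSubring F) (hS : ∀ s : S, algebraMap S F s ∈ V) (B : Set F)
    (hB : B.Finite) (hBV : B ⊆ V) :
    ∃ s : S, s ∉ cen V hS ∧ ∀ b ∈ B, ∃ c : S, algebraMap S F s * b = algebraMap S F c := by
  induction B, hB using Set.Finite.induction_on with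
  | empty =>
    refine ⟨1, ?_, fun b hb => absurd hb (Set.notMem_empty _)⟩
    intro h
    exact (inferInstance : (cen V hS).IsPrime).ne_top ((Ideal.eq_top_iff_one _).mpr h)
  | @insert a B ha hB ih =>
    obtain ⟨s, hs, h1⟩ := ih (fun x hx => hBV (Set.mem_insert_of_mem _ hx))
    obtain ⟨t, ht, c, hc⟩ := vcert_denom V hS a (hBV (Set.mem_insert _ _))
    refine ⟨s * t, ?_, ?_⟩
    · intro h
      rcases (inferInstance : (cen V hS).IsPrime).mem_or_mem h with h | h
      · exact hs h
      · exact ht h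
    · intro b hb
      rcases Set.mem_insert_iff.mp hb with rfl | hb
      · exact ⟨s * c, by rw [map_mul, map_mul, mul_assoc, hc]⟩
      · obtain ⟨c', hc'⟩ := h1 b hb
        exact ⟨t * c', by rw [map_mul, map_mul, mul_right_comm, hc', mul_comm]⟩

/-- The ideal of the elements `a` with `a b ∈ S` for all `b ∈ B`. -/
def dIdeal (S : Type) {F : Type} [CommRing S] [Field F] [Algebra S F] (B : Set F) : Ideal S where
  carrier := {a | ∀ b ∈ B, ∃ c : S, algebraMap S F a * b = algebraMap S F c}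
  add_mem' := by
    intro a a' ha ha' b hb
    obtain ⟨c, hc⟩ := ha b hb
    obtain ⟨c', hc'⟩ := ha' b hb
    exact ⟨c + c', by rw [map_add, map_add, add_mul, hc, hc']⟩
  zero_mem' := by
    intro b _
    exact ⟨0, by rw [map_zero, zero_mul]⟩
  smul_mem' := by
    intro x a ha b hb
    obtain ⟨c, hc⟩ := ha b hb
    exact ⟨x * c, by rw [smul_eq_mul, map_mul, map_mul, mul_assoc, hc]⟩

theorem vcert_unity {ι : Type} (B : ι → Set F) (hB : ∀ i, (B i).Finite) (J : Ideal S)
    (h : ∀ V : ValuationSubring F, (∀ s : S, algebraMap S F s ∈ V) →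
      (∀ a ∈ J, a ≠ 0 → (algebraMap S F a)⁻¹ ∉ V) → ∃ i, B i ⊆ V) :
    ∃ (s : ℕ) (i : Fin s → ι) (a : Fin s → S),
      (∀ j, ∀ b ∈ B (i j), ∃ c : S, algebraMap S F (a j) * b = algebraMap S F c) ∧
      1 - ∑ j, a j ∈ J := by
  classical
  have htop : (⨆ i, dIdeal S (B i)) ⊔ J = ⊤ := by
    by_contra hne
    obtain ⟨Q, hQ, hle⟩ := Ideal.exists_le_maximal _ hne
    have hQp : Q.IsPrime := hQ.isPrime
    obtain ⟨V, hS, hV⟩ := exists_cen_eq (F := F) Q
    obtain ⟨i, hi⟩ := h V hS (by
      intro a ha ha0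
      have h1 : a ∈ cen V hS := by rw [hV]; exact hle (Ideal.mem_sup_right ha)
      rw [mem_cen_iff] at h1
      exact h1.resolve_left ha0)
    obtain ⟨s, hs, h1⟩ := vcert_denoms V hS (B i) (hB i) hi
    apply hs
    rw [hV]
    apply hle
    apply Ideal.mem_sup_left
    exact (le_iSup (fun i => dIdeal S (B i)) i) h1
  have h1 : (1 : S) ∈ (⨆ i, dIdeal S (B i)) ⊔ J := by rw [htop]; exact Submodule.mem_top
  obtain ⟨x, hx, w, hw, hxw⟩ := Submodule.mem_sup.mp h1
  obtain ⟨f, hf, hfx⟩ := (Submodule.mem_iSup_iff_exists_finsupp _ _).mp hx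
  refine ⟨f.support.card, fun j => (f.support.equivFin.symm j : ι),
    fun j => f (f.support.equivFin.symm j : ι), ?_, ?_⟩
  · intro j b hb
    exact hf _ b hb
  · have h2 : ∑ j : Fin f.support.card, f (f.support.equivFin.symm j : ι) = x := by
      rw [Equiv.sum_comp f.support.equivFin.symm (fun i : f.support => f (i : ι)),
        Finset.sum_coe_sort f.support (fun i => f i)]
      exact hfx
    rw [h2, ← hxw, add_sub_cancel_left]
    exact hw

end

end Pool.Agent.Lib.MP_410da7_agA
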