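import Pool.Agent.Lib.MP_410da7_agA.VCert2

/-!
# The places at infinity: integrality over the localization of `L[1/z]` at `(1/z)`
-/

set_option autoImplicit false

namespace Pool.Agent.Lib.MP_410da7_agA

open Pool.Agent.Lib.MP_cc17a8_ag

section

variable {L F : Type} [Field L] [Field F] [Algebra L F]

open IntermediateField algebraAdjoinAdjoin Polynomial

/-- The localization of `L[u]` at `(u)`, in `F`. -/
def Rinf (L : Type) {F : Type} [Field L] [Field F] [Algebra L F] (u : F) : Subring F where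
  carrier := {x | ∃ f g : L[X], g.coeff 0 ≠ 0 ∧ x * aeval u g = aeval u f}
  mul_mem' := by
    rintro x y ⟨f, g, hg, hx⟩ ⟨f', g', hg', hy⟩
    refine ⟨f * f', g * g', ?_, ?_⟩
    · rw [Polynomial.mul_coeff_zero]; exact mul_ne_zero hg hg'
    · rw [map_mul, map_mul, ← hx, ← hy]; ring
  one_mem' := ⟨1, 1, by simp, by simp⟩
  add_mem' := by
    rintro x y ⟨f, g, hg, hx⟩ ⟨f', g', hg', hy⟩
    refine ⟨f * g' + f' * g, g * g', ?_, ?_⟩
    · rw [Polynomial.mul_coeff_zero]; exact mul_ne_zero hg hg'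
    · rw [map_add, map_mul, map_mul, map_mul, ← hx, ← hy]; ring
  zero_mem' := ⟨0, 1, by simp, by simp⟩
  neg_mem' := by
    rintro x ⟨f, g, hg, hx⟩
    exact ⟨-f, g, hg, by rw [map_neg, ← hx]; ring⟩

theorem Rinf_poly (u : F) (f : L[X]) : aeval u f ∈ Rinf L u :=
  ⟨f, 1, by simp, by simp⟩

theorem vcert_regInf_of_integral {z c : F} (hc : IsIntegral (Rinf L z⁻¹) c) : RegInf L z c := by
  obtain ⟨p, hp, hpc⟩ := hc
  have key : ∀ s : Finset ℕ, ∃ g : L[X], g.coeff 0 ≠ 0 ∧
      ∀ i ∈ s, ∃ f : L[X], ((p.coeff i : Rinf L z⁻¹) : F) * aeval z⁻¹ g = aeval z⁻¹ f := by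
    intro s
    induction s using Finset.induction_on with
    | empty => exact ⟨1, by simp, fun i hi => absurd hi (Finset.notMem_empty _)⟩
    | @insert a s ha ih =>
      obtain ⟨g, hg, h1⟩ := ih
      obtain ⟨f', g', hg', h2⟩ := (p.coeff a).2
      refine ⟨g * g', ?_, ?_⟩
      · rw [Polynomial.mul_coeff_zero]; exact mul_ne_zero hg hg'
      · intro i hi
        rcases Finset.mem_insert.mp hi with rfl | hi
        · exact ⟨g * f', by rw [map_mul, map_mul, ← h2]; ring⟩
        · obtain ⟨f, hf⟩ := h1 i hi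
          exact ⟨f * g', by rw [map_mul, map_mul, ← hf]; ring⟩
  obtain ⟨g, hg, h1⟩ := key (Finset.range p.natDegree)
  have h2 : ∀ i : Fin p.natDegree, ∃ f : L[X],
      ((p.coeff i : Rinf L z⁻¹) : F) * aeval z⁻¹ g = aeval z⁻¹ f := fun i =>
    h1 i (Finset.mem_range.mpr i.2)
  choose f hf using h2
  have hg0 : g ≠ 0 := by rintro rfl; simp at hg
  refine ⟨C g * X ^ p.natDegree + ∑ i : Fin p.natDegree, C (f i) * X ^ (i : ℕ), ?_, ?_⟩
  · rw [add_comm, Polynomial.leadingCoeff_add_of_degree_lt]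
    · rw [Polynomial.leadingCoeff_C_mul_X_pow]; exact hg
    · rw [Polynomial.degree_C_mul_X_pow _ hg0]
      exact Polynomial.degree_sum_fin_lt _
  · rw [Polynomial.eval₂_add, Polynomial.eval₂_mul, Polynomial.eval₂_C, Polynomial.eval₂_X_pow,
      Polynomial.eval₂_finsetSum]
    have h3 : (∑ i : Fin p.natDegree, Polynomial.eval₂ ((aeval z⁻¹ : L[X] →ₐ[L] F).toRingHom) c
        (C (f i) * X ^ (i : ℕ))) = aeval z⁻¹ g *
        ∑ i : Fin p.natDegree, ((p.coeff i : Rinf L z⁻¹) : F) * c ^ (i : ℕ) := by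
      rw [Finset.mul_sum]
      refine Finset.sum_congr rfl fun i _ => ?_
      rw [Polynomial.eval₂_mul, Polynomial.eval₂_C, Polynomial.eval₂_X_pow]
      change aeval z⁻¹ (f i) * c ^ (i : ℕ) = _
      rw [← hf i]; ring
    rw [h3]
    change aeval z⁻¹ g * c ^ p.natDegree + _ = 0
    rw [← mul_add]
    have h4 : c ^ p.natDegree + ∑ i : Fin p.natDegree, ((p.coeff i : Rinf L z⁻¹) : F) * c ^ (i : ℕ)
        = 0 := by
      rw [Polynomial.eval₂_eq_sum_range, Finset.sum_range_succ, Polynomial.coeff_natDegree,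
        hp.leadingCoeff, map_one, one_mul, Finset.sum_range] at hpc
      rw [add_comm]
      exact hpc
    rw [h4, mul_zero]

theorem vcert_transc_inv {z : F} (hz : Transcendental L z) : Transcendental L z⁻¹ := by
  intro h
  apply hz
  have := h.inv
  rwa [inv_inv] at this

/-- A valuation ring which contains `Rinf` and `z` is everything. -/
theorem vcert_eq_top {z : F} (hz : Transcendental L z) (hfin : FiniteDimensional L⟮z⟯ F)
    {V : ValuationSubring F} (hV : ∀ x ∈ Rinf L z⁻¹, x ∈ V) (hzV : z ∈ V) (c : F) : c ∈ V := by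
  have hz0 : z ≠ 0 := by rintro rfl; exact hz isAlgebraic_zero
  have hVL : ∀ a : L, algebraMap L F a ∈ V := by
    intro a
    have := hV _ (Rinf_poly (z⁻¹) (C a))
    rwa [aeval_C] at this
  have hK : ∀ x : L⟮z⟯, (x : F) ∈ V := by
    intro x
    obtain ⟨r, s, hrs⟩ := (IntermediateField.mem_adjoin_simple_iff L (x : F)).mp x.2
    rw [hrs, div_eq_mul_inv]
    refine V.mul_mem _ _ (vcert_mem hVL hzV r) ?_
    by_cases hs : s = 0
    · rw [hs, map_zero, inv_zero]; exact V.zero_mem
    apply hV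
    let _ := invertibleOfNonzero hz0
    have h1 := Polynomial.eval₂_reverse_mul_pow (algebraMap L F) z s
    rw [← Polynomial.aeval_def, ← Polynomial.aeval_def, invOf_eq_inv] at h1
    have hs0 : aeval z s ≠ 0 := fun h => hs ((transcendental_iff.mp hz) s h)
    refine ⟨X ^ s.natDegree, s.reverse, ?_, ?_⟩
    · rw [Polynomial.coeff_zero_reverse]
      exact Polynomial.leadingCoeff_ne_zero.mpr hs
    · rw [map_pow, aeval_X, ← h1, mul_inv, mul_comm _ (z ^ s.natDegree)⁻¹, mul_assoc,
        inv_mul_cancel₀, mul_one, inv_pow]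
      intro h
      rw [h, zero_mul] at h1
      exact hs0 h1.symm
  have hc : IsIntegral L⟮z⟯ c := Algebra.IsIntegral.isIntegral c
  let _ : Algebra L⟮z⟯ V := (RingHom.codRestrict (algebraMap L⟮z⟯ F) V.toSubring hK).toAlgebra
  have : IsScalarTower L⟮z⟯ V F := IsScalarTower.of_algebraMap_eq fun _ => rfl
  have hs' : IsIntegral V c := hc.tower_top
  obtain ⟨y, hy⟩ := IsIntegrallyClosed.isIntegral_iff.mp hs'
  have : c = (y : F) := hy.symm
  rw [this]; exact y.2

/-- Every element which is in all valuation rings at infinity is integral at infinity. -/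
theorem vcert_integral_inf {z : F} (hz : Transcendental L z)
    (hfin : FiniteDimensional L⟮z⟯ F) {c : F}
    (hc : ∀ V : ValuationSubring F, (∀ a : L, algebraMap L F a ∈ V) → z ∉ V → c ∈ V) :
    IsIntegral (Rinf L z⁻¹) c := by
  have h1 : c ∈ (⨅ V : {V : ValuationSubring F // ((Rinf L z⁻¹ : Subring F) : Set F) ⊆ V.toSubring},
      V.1.toSubring) := by
    rw [Subring.mem_iInf]
    rintro ⟨V, hV⟩
    by_cases hzV : z ∈ V
    · exact vcert_eq_top hz hfin (fun x hx => hV hx) hzV c
    · refine hc V (fun a => ?_) hzV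
      have := hV (Rinf_poly (z⁻¹) (C a))
      rwa [aeval_C] at this
  rw [iInf_valuationSubring_superset] at h1
  have h2 : IsIntegral (Subring.closure ((Rinf L z⁻¹ : Subring F) : Set F)) c := h1
  rwa [Subring.closure_eq] at h2

theorem vcert_regInf {z : F} (hz : Transcendental L z)
    (hfin : FiniteDimensional L⟮z⟯ F) {c : F}
    (hc : ∀ V : ValuationSubring F, (∀ a : L, algebraMap L F a ∈ V) → z ∉ V → c ∈ V) :
    RegInf L z c :=
  vcert_regInf_of_integral (vcert_integral_inf hz hfin hc)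

/-- There is a place at infinity. -/
theorem vcert_exists_inf {z : F} (hz : Transcendental L z) :
    ∃ V : ValuationSubring F, (∀ a : L, algebraMap L F a ∈ V) ∧ z ∉ V := by
  have hz0 : z ≠ 0 := by rintro rfl; exact hz isAlgebraic_zero
  let A : Subring F := (Algebra.adjoin L {z⁻¹}).toSubring
  let u : A := ⟨z⁻¹, Algebra.self_mem_adjoin_singleton L z⁻¹⟩
  have hI : Ideal.span {u} ≠ ⊤ := by
    intro h
    rw [Ideal.span_singleton_eq_top] at h
    obtain ⟨v, hv⟩ := h.exists_right_inv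
    have hv' : z⁻¹ * (v : F) = 1 := congrArg Subtype.val hv
    have hvm : (v : F) ∈ Algebra.adjoin L {z⁻¹} := v.2
    rw [Algebra.adjoin_singleton_eq_range_aeval] at hvm
    obtain ⟨f, hf⟩ := hvm
    have hf' : aeval z⁻¹ f = (v : F) := hf
    have h0 : aeval z⁻¹ (X * f - 1 : L[X]) = 0 := by
      rw [map_sub, map_mul, aeval_X, map_one, hf', hv', sub_self]
    have h1 := (transcendental_iff.mp (vcert_transc_inv hz)) _ h0
    have h2 := congrArg (fun p : L[X] => p.coeff 0) h1
    simp at h2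
  obtain ⟨V, hV1, hV2⟩ := Ideal.image_subset_nonunits_valuationSubring _ hI
  refine ⟨V, fun a => hV1 (Subalgebra.algebraMap_mem _ a), fun hz1 => ?_⟩
  have h3 : z⁻¹ ∈ V.nonunits := hV2 ⟨u, Ideal.subset_span rfl, rfl⟩
  rw [V.inv_mem_nonunits_iff] at h3
  rcases h3 with h3 | h3
  · exact hz0 h3
  · exact h3 hz1

end

end Pool.Agent.Lib.MP_410da7_agA
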